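import Pool.Agent.H9.Ram.C1

/-!
# Module A1: the identities behind the automaton

`q = card F`, `τ e = e^q τ`. States `u` (`u^(q+1) = c`), `w = (u + a)^(q-1)`, `w^(q+1) = 1`,
`w (u + a) = u^q + a^q`, all these elements `e` satisfy `e^(q^2) = e`.

* `s_u = (u+a)⁻¹ (u + τ)`. Note `(u+a)⁻¹ τ' … `: moving `τ` past constants uses `Tw.T_mul_C`.
* `s_{inv u} s_u = (d - c)⁻¹ (τ² - c)`: with `v = -u^q / w`,
  `s_v s_u = (v+a)⁻¹ [v (u+a)⁻¹ + (u+a)^(-q) τ] (u + τ) = (v+a)⁻¹ (u+a)^(-q) [v w + τ] (u + τ)`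
  `= (v+a)⁻¹ (u+a)^(-q) (τ - u^q)(u + τ) = (v+a)⁻¹ (u+a)^(-q) (τ² - c)` and
  `(v + a) (u+a)^q = (a w - u^q)(u + a) = w a (u+a) - u^q (u + a) = a u^q + a^(q+1) - u^(q+1) - a u^q = d - c`
  (use `w (u+a) = u^q + a^q`, and `(u+a)^q = w (u+a)`).
* `inv (inv u) = u` since `w(inv u) = w(u)`: `v + a = (a w - u^q)/w = (a^q - u w)/w`, and
  `(v+a)^q = (a^(q^2) - u^q w^q)/w^q = a w - u^q` (as `w^(-q) = w`), so `(v+a)^(q-1) = w`;
  `v^q = - u w`.
* intertwining: with `η_b^(q-1) = a / b`, `y_b = η_b (τ - a)`: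
  `y_{b'} s_u = ζ s_{u'} y_b` with `ζ ∈ F^*`, `b' = out u b`, `u' = nxt u b`. Indeed
  `y_{b'} s_u = η_{b'} (u+a)^(-q) (τ² + (u^q - a w) τ - a w u)` and
  `s_{u'} y_b = (u'+a)⁻¹ η_b^q (τ² + (u' b / a - a^q) τ - u' b)`; `u' b = a w u`, `u' b / a - a^q = w u - a^q
  = u^q - a w`; so `ζ = η_{b'} (u+a)^(-q) (u'+a) η_b^(-q)`, and `ζ^(q-1) = 1` (so `ζ ∈ F^*`, see
  `Tw.mem_range_of_pow_card_eq`) by `b' = b w (u w + b)^(q-1)`, `u' + a = a (u w + b)/b`:
  `ζ^(q-1) = (a/b') w^(-q) (u'+a)^(q-1) (b/a)^q`, and `w^(-q) = w`.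
* `ker s_u = {y | y^q = - u y}`; these lines are pairwise different and lie in `ker (τ² - c)`, because
  `s_{inv u} s_u` is a multiple of `τ² - c`.
-/

noncomputable section

namespace Pool.Agent.H9.Ram.Par

variable {F K : Type*} [Field F] [Fintype F] [Field K] [Algebra F K] (p : Par F K)

private theorem a1_TC (x : K) : (Tw.T : Tw F K) * Tw.C x = Tw.C (x ^ Fintype.card F) * Tw.T := by
  rw [Tw.T_mul_C, fr_apply, pow_one]

private theorem a1_mul (α u β v : K) :
    (Tw.C α * (Tw.C u + Tw.T) * (Tw.C β * (Tw.C v + Tw.T)) : Tw F K) =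
      Tw.C (α * u * β * v) + Tw.C (α * (u * β + β ^ Fintype.card F * v ^ Fintype.card F)) * Tw.T +
        Tw.C (α * β ^ Fintype.card F) * Tw.T ^ 2 := by
  have h1 : (Tw.C u + Tw.T : Tw F K) * Tw.C β =
      Tw.C (u * β) + Tw.C (β ^ Fintype.card F) * Tw.T := by
    rw [add_mul, a1_TC, ← map_mul]
  have h2 : (Tw.C u + Tw.T : Tw F K) * Tw.C β * (Tw.C v + Tw.T) =
      Tw.C (u * β * v) + Tw.C (u * β + β ^ Fintype.card F * v ^ Fintype.card F) * Tw.T +
        Tw.C (β ^ Fintype.card F) * Tw.T ^ 2 := by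
    rw [h1, add_mul, mul_add, mul_add, mul_assoc (Tw.C (β ^ Fintype.card F)) Tw.T (Tw.C v), a1_TC,
      ← mul_assoc (Tw.C (β ^ Fintype.card F)) (Tw.C (v ^ Fintype.card F)) Tw.T, ← map_mul, ← map_mul,
      map_add Tw.C (u * β) (β ^ Fintype.card F * v ^ Fintype.card F), add_mul,
      mul_assoc (Tw.C (β ^ Fintype.card F)) Tw.T Tw.T, ← pow_two]
    abel
  calc (Tw.C α * (Tw.C u + Tw.T) * (Tw.C β * (Tw.C v + Tw.T)) : Tw F K)
      = Tw.C α * ((Tw.C u + Tw.T) * Tw.C β * (Tw.C v + Tw.T)) := by simp only [mul_assoc]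
    _ = _ := by
      rw [h2, mul_add, mul_add, ← mul_assoc, ← mul_assoc, ← map_mul, ← map_mul, ← map_mul]
      rw [show α * (u * β * v) = α * u * β * v by ring]

private theorem a1_coeff (α u : K) (n : ℕ) : (Tw.C α * (Tw.C u + Tw.T) : Tw F K).coeff n =
    α * ((if n = 0 then u else 0) + if n = 1 then 1 else 0) := by
  rw [Tw.coeff_C_mul, Tw.coeff_add, Tw.coeff_C, Tw.coeff_T]

private theorem a1_neg_pow (x : K) : (-x) ^ Fintype.card F = -(x ^ Fintype.card F) := by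
  have := map_neg (fr F 1 : K →ₐ[F] K) x
  simpa [fr_apply] using this

private theorem a1_comm {α u : K} (hα : α ^ (Fintype.card F ^ 2) = α)
    (hu : u ^ (Fintype.card F ^ 2) = u) :
    (Tw.C α * (Tw.C u + Tw.T) : Tw F K) * Tw.T ^ 2 = Tw.T ^ 2 * (Tw.C α * (Tw.C u + Tw.T)) := by
  symm
  rw [Tw.T_pow_mul_comm_iff]
  intro i
  rw [a1_coeff, mul_pow, hα]
  congr 1
  have hq : Fintype.card F ^ 2 ≠ 0 := pow_ne_zero _ Fintype.card_ne_zero
  by_cases h0 : i = 0
  · subst h0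
    simp [hu]
  · by_cases h1 : i = 1
    · subst h1
      simp
    · simp [h0, h1]

private theorem a1_u_sq (u : p.St) : u.1 ^ (Fintype.card F ^ 2) = u.1 := pow_card_sq_of_pow u.2

private theorem a1_a_sq : p.a ^ (Fintype.card F ^ 2) = p.a := pow_card_sq_of_pow p.ha

private theorem a1_u_ne (u : p.St) : u.1 ≠ 0 := ne_zero_of_pow p.hc u.2

private theorem a1_wq (u : p.St) : p.w u.1 ^ Fintype.card F * p.w u.1 = 1 := by
  rw [← pow_succ]; exact p.w_pow u

private theorem a1_uq (u : p.St) : u.1 ^ Fintype.card F * u.1 = algebraMap F K p.c := by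
  rw [← pow_succ]; exact u.2

private theorem a1_aq : p.a ^ Fintype.card F * p.a = algebraMap F K p.d := by
  rw [← pow_succ]; exact p.ha

private theorem a1_ua (u : p.St) : (u.1 + p.a) ^ Fintype.card F = p.w u.1 * (u.1 + p.a) := by
  rw [p.w_mul, add_pow_card]

private theorem a1_dc : (algebraMap F K p.d) - algebraMap F K p.c ≠ 0 := by
  intro h
  exact p.hcd ((algebraMap F K).injective (sub_eq_zero.1 h)).symm

private theorem a1_inv_val (u : p.St) : (p.inv u).1 = -(u.1 ^ Fintype.card F) / p.w u.1 := rfl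

private theorem a1_inv_mul (u : p.St) : (p.inv u).1 * p.w u.1 = -(u.1 ^ Fintype.card F) := by
  rw [a1_inv_val, div_mul_cancel₀ _ (p.w_ne_zero u)]

private theorem a1_inv_pow (u : p.St) : (p.inv u).1 ^ Fintype.card F = -(u.1 * p.w u.1) := by
  have h1 : ((p.inv u).1 * p.w u.1) ^ Fintype.card F = (-(u.1 ^ Fintype.card F)) ^ Fintype.card F := by
    rw [a1_inv_mul]
  rw [mul_pow, a1_neg_pow, ← pow_mul, ← pow_two, a1_u_sq] at h1
  have h2 := p.a1_wq u
  calc (p.inv u).1 ^ Fintype.card F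
      = ((p.inv u).1 ^ Fintype.card F * p.w u.1 ^ Fintype.card F) * p.w u.1 := by
        rw [mul_assoc, h2, mul_one]
    _ = _ := by rw [h1]; ring

theorem s_comm_T2 (u : p.St) : p.s u * Tw.T ^ 2 = Tw.T ^ 2 * p.s u := by
  apply a1_comm
  · rw [inv_pow, fix_add (p.a1_u_sq u) p.a1_a_sq]
  · exact p.a1_u_sq u

theorem gam_comm_T2 (v : List p.St) : p.gam v * Tw.T ^ 2 = Tw.T ^ 2 * p.gam v := by
  induction v with
  | nil => simp [gam]
  | cons u v ih =>
    have e : p.gam (u :: v) = p.s u * p.gam v := by simp [gam]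
    rw [e, mul_assoc, ih, ← mul_assoc, p.s_comm_T2, mul_assoc]

theorem natDegree_s (u : p.St) : (p.s u).natDegree = 1 := by
  apply le_antisymm
  · rw [Tw.natDegree_le_iff]
    intro n hn
    unfold s
    rw [a1_coeff, if_neg (by omega), if_neg (by omega), add_zero, mul_zero]
  · apply Tw.le_natDegree_of_coeff_ne_zero
    unfold s
    rw [a1_coeff]
    simp only [one_ne_zero, if_false, if_true, zero_add, mul_one]
    exact inv_ne_zero (p.u_add_a_ne_zero u)

theorem s_coeff_zero_ne (u : p.St) : (p.s u).coeff 0 ≠ 0 := by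
  unfold s
  rw [a1_coeff]
  simp only [zero_ne_one, if_false, if_true, add_zero]
  exact mul_ne_zero (inv_ne_zero (p.u_add_a_ne_zero u)) (p.a1_u_ne u)

theorem gam_coeff_zero_ne (v : List p.St) : (p.gam v).coeff 0 ≠ 0 := by
  induction v with
  | nil =>
    have e : p.gam [] = 1 := by simp [gam]
    rw [e, Tw.coeff_one]
    simp
  | cons u v ih =>
    have e : p.gam (u :: v) = p.s u * p.gam v := by simp [gam]
    rw [e, Tw.coeff_mul_zero]
    exact mul_ne_zero (p.s_coeff_zero_ne u) ih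

private theorem a1_ne_of_coeff {f : Tw F K} (h : f.coeff 0 ≠ 0) : f ≠ 0 := by
  rintro rfl
  exact h (Tw.coeff_zero' 0)

theorem natDegree_gam (v : List p.St) : (p.gam v).natDegree = v.length := by
  induction v with
  | nil =>
    have e : p.gam [] = Tw.C 1 := by simp [gam]
    rw [e, Tw.natDegree_C]
    rfl
  | cons u v ih =>
    have e : p.gam (u :: v) = p.s u * p.gam v := by simp [gam]
    rw [e, Tw.natDegree_mul (a1_ne_of_coeff (p.s_coeff_zero_ne u))
      (a1_ne_of_coeff (p.gam_coeff_zero_ne v)), ih, natDegree_s, List.length_cons, add_comm]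

theorem w_inv (u : p.St) : p.w (p.inv u).1 = p.w u.1 := by
  have hne := p.u_add_a_ne_zero (p.inv u)
  have h1 : p.w (p.inv u).1 * ((p.inv u).1 + p.a) = p.w u.1 * ((p.inv u).1 + p.a) := by
    rw [p.w_mul, p.a1_inv_pow]
    have h2 := p.a1_inv_mul u
    have h3 := p.w_mul u
    linear_combination (-1 : K) * h2 - h3
  exact mul_right_cancel₀ hne h1

theorem inv_inv (u : p.St) : p.inv (p.inv u) = u := by
  apply Subtype.ext
  rw [a1_inv_val, w_inv, a1_inv_pow, neg_neg, mul_div_cancel_right₀ _ (p.w_ne_zero u)]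

private theorem a1_prod (u : p.St) : ((p.inv u).1 + p.a) * (u.1 + p.a) ^ Fintype.card F =
    algebraMap F K p.d - algebraMap F K p.c := by
  rw [a1_ua]
  have h1 := p.a1_inv_mul u
  have h2 := p.w_mul u
  have h3 := p.a1_uq u
  have h4 := p.a1_aq
  linear_combination (u.1 + p.a) * h1 + p.a * h2 - h3 + h4

theorem s_inv_mul_s (u : p.St) :
    p.s (p.inv u) * p.s u = algebraMap F (Tw F K) (p.d - p.c)⁻¹ *
      (Tw.T ^ 2 - algebraMap F (Tw F K) p.c) := by
  unfold s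
  rw [a1_mul]
  have hA := p.u_add_a_ne_zero (p.inv u)
  have hB := p.u_add_a_ne_zero u
  have hw := p.w_ne_zero u
  have hprod := p.a1_prod u
  have hdc := p.a1_dc
  have hinv := p.a1_inv_mul u
  have huq := p.a1_uq u
  have hBQ : (u.1 + p.a) ^ Fintype.card F ≠ 0 := pow_ne_zero _ hB
  have hua := p.a1_ua u
  have e2 : ((p.inv u).1 + p.a)⁻¹ * (u.1 + p.a)⁻¹ ^ Fintype.card F =
      (algebraMap F K p.d - algebraMap F K p.c)⁻¹ := by
    rw [inv_pow, ← mul_inv, hprod]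
  have e1 : ((p.inv u).1 + p.a)⁻¹ * ((p.inv u).1 * (u.1 + p.a)⁻¹ +
      (u.1 + p.a)⁻¹ ^ Fintype.card F * u.1 ^ Fintype.card F) = 0 := by
    rw [inv_pow, hua]
    have : (p.inv u).1 * (u.1 + p.a)⁻¹ + (p.w u.1 * (u.1 + p.a))⁻¹ * u.1 ^ Fintype.card F = 0 := by
      field_simp
      linear_combination hinv
    rw [this, mul_zero]
  have e0 : ((p.inv u).1 + p.a)⁻¹ * (p.inv u).1 * (u.1 + p.a)⁻¹ * u.1 =
      -((algebraMap F K p.d - algebraMap F K p.c)⁻¹ * algebraMap F K p.c) := by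
    rw [← hprod, hua]
    field_simp
    linear_combination u.1 * hinv - huq
  rw [e0, e1, e2, map_zero, zero_mul, add_zero, Tw.algebraMap_apply, Tw.algebraMap_apply, mul_sub,
    map_inv₀ (algebraMap F K), map_sub (algebraMap F K), ← map_mul, map_neg]
  abel

private theorem a1_ev (α u y : K) : Tw.ev (Tw.C α * (Tw.C u + Tw.T) : Tw F K) y =
    α * (u * y + y ^ Fintype.card F) := by
  rw [Tw.ev_mul, Tw.ev_C, map_add, LinearMap.add_apply, Tw.ev_C, Tw.ev_T]

theorem mem_Cstar (y : K) : y ∈ p.Cstar ↔ y ^ Fintype.card F = p.a * y := by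
  unfold Cstar
  rw [LinearMap.mem_ker, map_sub, LinearMap.sub_apply, Tw.ev_C, Tw.ev_T, sub_eq_zero]

theorem ev_s_Cstar (u : p.St) {y : K} (hy : y ∈ p.Cstar) : Tw.ev (p.s u) y = y := by
  rw [mem_Cstar] at hy
  unfold s
  rw [a1_ev, hy, ← add_mul, inv_mul_cancel_left₀ (p.u_add_a_ne_zero u)]

theorem ker_s (u : p.St) (y : K) : y ∈ LinearMap.ker (Tw.ev (p.s u)) ↔
    y ^ Fintype.card F = -u.1 * y := by
  rw [LinearMap.mem_ker]
  unfold s
  rw [a1_ev, mul_eq_zero]
  constructor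
  · rintro (h | h)
    · exact absurd h (inv_ne_zero (p.u_add_a_ne_zero u))
    · linear_combination h
  · intro h
    right
    linear_combination h

theorem ker_s_le (u : p.St) :
    LinearMap.ker (Tw.ev (p.s u)) ≤
      LinearMap.ker (Tw.ev (Tw.T ^ 2 - algebraMap F (Tw F K) p.c : Tw F K)) := by
  intro y hy
  rw [ker_s] at hy
  rw [LinearMap.mem_ker, map_sub, LinearMap.sub_apply, Tw.algebraMap_apply, Tw.ev_C, Tw.ev_T_pow,
    pow_two, pow_mul, hy, mul_pow, a1_neg_pow, hy]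
  have := p.a1_uq u
  linear_combination y * this

theorem eq_of_mem_ker_s {u v : p.St} {y : K} (hy : y ≠ 0)
    (hu : y ∈ LinearMap.ker (Tw.ev (p.s u))) (hv : y ∈ LinearMap.ker (Tw.ev (p.s v))) :
    u = v := by
  rw [ker_s] at hu hv
  apply Subtype.ext
  rw [hu] at hv
  exact neg_injective (mul_right_cancel₀ hy hv)

section
variable [IsAlgClosed K]

/-- `η_b` with `η_b ^ (q - 1) = a / b`. -/
theorem exists_eta (b : p.Lt) : ∃ e : K, e ≠ 0 ∧ e ^ (Fintype.card F - 1) = p.a / b.1 := by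
  have hq : 1 < Fintype.card F := Fintype.one_lt_card
  obtain ⟨e, he⟩ := IsAlgClosed.exists_pow_nat_eq (p.a / b.1) (n := Fintype.card F - 1) (by omega)
  refine ⟨e, ?_, he⟩
  rintro rfl
  rw [zero_pow (by omega)] at he
  exact div_ne_zero p.a_ne_zero (p.b_ne_zero b) he.symm

/-- A choice of `η_b`. -/
def eta (b : p.Lt) : K := (p.exists_eta b).choose

theorem eta_ne_zero (b : p.Lt) : p.eta b ≠ 0 := (p.exists_eta b).choose_spec.1

theorem eta_pow (b : p.Lt) : p.eta b ^ (Fintype.card F - 1) = p.a / b.1 :=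
  (p.exists_eta b).choose_spec.2

/-- `y_b = η_b (τ - a)`. -/
def yy (b : p.Lt) : Tw F K := Tw.C (p.eta b) * (Tw.T - Tw.C p.a)

private theorem a1_yy (b : p.Lt) : p.yy b = Tw.C (p.eta b) * (Tw.C (-p.a) + Tw.T) := by
  unfold yy
  congr 1
  rw [map_neg]
  abel

private theorem a1_etaq (b : p.Lt) : p.eta b ^ Fintype.card F * b.1 = p.eta b * p.a := by
  have hq : 0 < Fintype.card F := Fintype.card_pos
  have h1 : p.eta b ^ Fintype.card F = p.a / b.1 * p.eta b := by
    rw [← p.eta_pow b, ← pow_succ, Nat.sub_add_cancel hq]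
  have hb := p.b_ne_zero b
  rw [h1]
  field_simp

theorem yy_comm_T2 (b : p.Lt) : p.yy b * Tw.T ^ 2 = Tw.T ^ 2 * p.yy b := by
  rw [a1_yy]
  apply a1_comm
  · have hq : 0 < Fintype.card F := Fintype.card_pos
    have h3 : Fintype.card F ^ 2 = (Fintype.card F - 1) * (Fintype.card F + 1) + 1 := by
      obtain ⟨m, hm⟩ : ∃ m, Fintype.card F = m + 1 := ⟨Fintype.card F - 1, by omega⟩
      rw [hm]; simp only [Nat.add_sub_cancel]; ring
    rw [h3, pow_succ, pow_mul, eta_pow, div_pow, p.ha, b.2.1,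
      div_self ((map_ne_zero (algebraMap F K)).2 p.hd), one_mul]
  · rw [neg_pow, p.a1_a_sq, pow_two, pow_mul]
    have h1 : (-1 : K) ^ Fintype.card F = -1 := by
      rw [a1_neg_pow, one_pow]
    rw [h1, h1]
    ring

theorem ker_yy (b : p.Lt) : LinearMap.ker (Tw.ev (p.yy b)) = p.Cstar := by
  ext y
  rw [mem_Cstar, LinearMap.mem_ker, a1_yy, a1_ev, mul_eq_zero]
  constructor
  · rintro (h | h)
    · exact absurd h (p.eta_ne_zero b)
    · linear_combination h
  · intro h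
    right
    linear_combination h

/-- The intertwining relation. -/
theorem yy_out_mul_s (u : p.St) (b : p.Lt) :
    ∃ z : F, z ≠ 0 ∧ p.yy (p.out u b) * p.s u =
      algebraMap F (Tw F K) z * (p.s (p.nxt u b) * p.yy b) := by
  have hq : 0 < Fintype.card F := Fintype.card_pos
  have hB := p.u_add_a_ne_zero u
  have hA := p.u_add_a_ne_zero (p.nxt u b)
  have hw := p.w_ne_zero u
  have hb := p.b_ne_zero b
  have hb' := p.b_ne_zero (p.out u b)
  have ha := p.a_ne_zero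
  have he := p.eta_ne_zero b
  have he' := p.eta_ne_zero (p.out u b)
  have hBQ : (u.1 + p.a) ^ Fintype.card F ≠ 0 := pow_ne_zero _ hB
  have heQ : p.eta b ^ Fintype.card F ≠ 0 := pow_ne_zero _ he
  have hetaq := p.a1_etaq b
  have hnxt : (p.nxt u b).1 * b.1 = u.1 * p.w u.1 * p.a := by
    show u.1 * p.w u.1 * p.a / b.1 * b.1 = _
    exact div_mul_cancel₀ _ hb
  have hout : (p.out u b).1 = b.1 * p.w u.1 * (u.1 * p.w u.1 + b.1) ^ (Fintype.card F - 1) := rfl
  set Z : K := p.eta (p.out u b) * ((u.1 + p.a) ^ Fintype.card F)⁻¹ * ((p.nxt u b).1 + p.a) *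
    (p.eta b ^ Fintype.card F)⁻¹ with hZ
  have hZ0 : Z ≠ 0 := by
    rw [hZ]
    exact mul_ne_zero (mul_ne_zero (mul_ne_zero he' (inv_ne_zero hBQ)) hA) (inv_ne_zero heQ)
  have hub := p.uw_add_b_ne_zero u b
  have hZ1 : Z ^ (Fintype.card F - 1) = 1 := by
    have h1 : (p.nxt u b).1 + p.a = p.a * (u.1 * p.w u.1 + b.1) / b.1 := by
      rw [eq_div_iff hb, add_mul, hnxt]
      ring
    have h2 : ((u.1 + p.a) ^ Fintype.card F) ^ (Fintype.card F - 1) = p.w u.1 ^ Fintype.card F := by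
      rw [← pow_mul, mul_comm, pow_mul]
      rfl
    have h3 : (p.eta b ^ Fintype.card F) ^ (Fintype.card F - 1) = (p.a / b.1) ^ Fintype.card F := by
      rw [← pow_mul, mul_comm, pow_mul, p.eta_pow]
    have h4 : ∀ x : K, x ^ Fintype.card F = x ^ (Fintype.card F - 1) * x := by
      intro x
      rw [← pow_succ, Nat.sub_add_cancel hq]
    have hwq := p.a1_wq u
    have hw1 : (p.w u.1 ^ Fintype.card F)⁻¹ = p.w u.1 := inv_eq_of_mul_eq_one_right hwq
    rw [hZ, mul_pow, mul_pow, mul_pow, inv_pow, inv_pow, h2, h3, p.eta_pow, hw1, h1, div_pow, mul_pow,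
      h4 (p.a / b.1), div_pow, hout]
    have g1 : b.1 ^ (Fintype.card F - 1) ≠ 0 := pow_ne_zero _ hb
    have g2 : p.a ^ (Fintype.card F - 1) ≠ 0 := pow_ne_zero _ ha
    have g3 : (u.1 * p.w u.1 + b.1) ^ (Fintype.card F - 1) ≠ 0 := pow_ne_zero _ hub
    generalize (u.1 * p.w u.1 + b.1) ^ (Fintype.card F - 1) = X at *
    generalize p.a ^ (Fintype.card F - 1) = Y at *
    generalize b.1 ^ (Fintype.card F - 1) = Y' at *
    field_simp
  obtain ⟨z, hz⟩ := Tw.mem_range_of_pow_card_eq (F := F) (x := Z) (by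
    have : Z ^ Fintype.card F = Z ^ (Fintype.card F - 1) * Z := by
      rw [← pow_succ, Nat.sub_add_cancel hq]
    rw [this, hZ1, one_mul])
  refine ⟨z, ?_, ?_⟩
  · rintro rfl
    rw [map_zero] at hz
    exact hZ0 hz.symm
  · rw [a1_yy, a1_yy, Tw.algebraMap_apply, hz]
    unfold s
    rw [a1_mul, a1_mul]
    have hua := p.a1_ua u
    have hwm := p.w_mul u
    have e2 : p.eta (p.out u b) * (u.1 + p.a)⁻¹ ^ Fintype.card F =
        Z * (((p.nxt u b).1 + p.a)⁻¹ * p.eta b ^ Fintype.card F) := by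
      rw [hZ, inv_pow]
      field_simp
    have e1 : p.eta (p.out u b) * (-p.a * (u.1 + p.a)⁻¹ + (u.1 + p.a)⁻¹ ^ Fintype.card F * u.1 ^ Fintype.card F) =
        Z * (((p.nxt u b).1 + p.a)⁻¹ * ((p.nxt u b).1 * p.eta b +
          p.eta b ^ Fintype.card F * (-p.a) ^ Fintype.card F)) := by
      have k1 : (p.nxt u b).1 * p.eta b = u.1 * p.w u.1 * p.eta b ^ Fintype.card F := by
        apply mul_right_cancel₀ (mul_ne_zero hb ha)
        linear_combination (p.a * p.eta b) * hnxt - (u.1 * p.w u.1 * p.a) * hetaq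
      rw [k1, hZ, inv_pow, a1_neg_pow, hua]
      field_simp
      linear_combination (-1 : K) * hwm
    have e0 : p.eta (p.out u b) * -p.a * (u.1 + p.a)⁻¹ * u.1 =
        Z * (((p.nxt u b).1 + p.a)⁻¹ * (p.nxt u b).1 * p.eta b * -p.a) := by
      have k1 : (p.nxt u b).1 * p.eta b = u.1 * p.w u.1 * p.eta b ^ Fintype.card F := by
        apply mul_right_cancel₀ (mul_ne_zero hb ha)
        linear_combination (p.a * p.eta b) * hnxt - (u.1 * p.w u.1 * p.a) * hetaq
      rw [mul_assoc _ (p.nxt u b).1 (p.eta b), k1, hZ, hua]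
      field_simp
    rw [e0, e1, e2, map_mul Tw.C Z, map_mul Tw.C Z, map_mul Tw.C Z]
    simp only [mul_add, mul_assoc]

theorem finrank_Cstar : Module.finrank F p.Cstar = 1 := Tw.finrank_ker_T_sub_C p.a_ne_zero

theorem finrank_ker_s (u : p.St) : Module.finrank F (LinearMap.ker (Tw.ev (p.s u))) = 1 := by
  rw [Tw.finrank_ker (p.s_coeff_zero_ne u), natDegree_s]

/-- The product `(τ - a) y_b`, up to a constant `(τ - b)(τ - a)`. -/
theorem T_sub_mul_yy (b : p.Lt) : (Tw.T - Tw.C p.a) * p.yy b =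
    Tw.C (p.eta b ^ Fintype.card F) * ((Tw.T - Tw.C b.1) * (Tw.T - Tw.C p.a)) := by
  unfold yy
  rw [← mul_assoc, ← mul_assoc]
  congr 1
  rw [sub_mul, mul_sub, a1_TC, ← map_mul, ← map_mul, a1_etaq, mul_comm p.a]

end

end Pool.Agent.H9.Ram.Par
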