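import Pool.Agent.H9.Ram.A1

/-!
# Module A2: words on the letters are cyclic submodules

`Θ([]) = C_* = ker (τ - a)`, `Θ(b :: x) = y_b⁻¹ (Θ(x))`.
Let `ν = ev (τ² - d)` (it commutes with `ev y_b` and `ev s_u`).

* `Θ(x)` is cyclic of level `length x` and contains `C_*`. Induction: `L' = y_b⁻¹(L)`, `L = Θ(x)`.
  `y_b` is onto (`Tw.ev_surjective`) with kernel `C_*` of dimension one, so `dim L' = dim L + 1`; `L'` is
  `ν`-stable and killed by a power of `ν`. `C_* = ker y_b ≤ L'`. `dim (L' ⊓ ker ν) ≤ 1`: if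
  `z ∈ L' ⊓ ker ν` then `y_b z ∈ L ⊓ ker ν`, which is one dimensional and contains `C_*`, hence is `C_*`;
  so `(τ - a) y_b z = 0`, i.e. `(τ - b)(τ - a) z = 0` (`T_sub_mul_yy`), and also `(τ² - d) z = 0`. The
  difference `τ² - d - (τ - b)(τ - a) = (b + a^q) τ - (b a + d)`, and `b a + d = a (b + a^q)`, so it is
  `(b + a^q)(τ - a)` with `b + a^q ≠ 0`: `z ∈ ker (τ - a) = C_*`. Apply `isCyc_of_finrank`.
* `map (ev s_u) (Θ x) = Θ (act u x)`: induction on `x` for all `u`; `≤` from the intertwining relation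
  `yy_out_mul_s`; equality because both sides have dimension `length x + 1`: `s_u` is injective on
  `Θ(x)` since `s_{inv u} s_u = (τ² - c)/(d - c)` and `τ² - c = ν + (d - c)` is injective on the
  `ν`-nilpotent space `Θ(x)`.
* injectivity: `Θ x = Θ x'` gives equal lengths by dimension; for `b :: x`, the space
  `y_b⁻¹(C_*) = ker ((τ - b)(τ - a))` has dimension `2`, is contained in `Θ(b :: x)` and killed by `ν²`, so
  it equals `Θ(b :: x) ⊓ ker ν²`. Hence for `Θ(b::x) = Θ(b'::x')`: `ker ((τ-b)(τ-a)) = ker ((τ-b')(τ-a))`;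
  the difference of the two operators is `(b' - b)(τ - a)` whose kernel has dimension one if `b ≠ b'`, so
  `b = b'`. Then `Θ x = map y_b (Θ (b :: x))` (`y_b` onto) and induction.
* surjectivity is not needed.
* `act (inv u) (act u x) = x`: apply `Θ`; `map s_{inv u} (map s_u L) = map ((τ²-c)/(d-c)) L = L` by
  `IsCyc.map_aeval_eq` (or directly), and `Θ` is injective.
-/

noncomputable section

namespace Pool.Agent.H9.Ram.Par

variable {F K : Type*} [Field F] [Fintype F] [Field K] [Algebra F K] [IsAlgClosed K] (p : Par F K)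

/-- The submodule of a word. -/
def Theta : List p.Lt → Submodule F K
  | [] => p.Cstar
  | b :: x => (Theta x).comap (Tw.ev (p.yy b))

theorem length_act (u : p.St) (x : List p.Lt) : (p.act u x).length = x.length := by
  induction x generalizing u with
  | nil => rfl
  | cons b x ih =>
    show (p.out u b :: p.act (p.nxt u b) x).length = (b :: x).length
    rw [List.length_cons, List.length_cons, ih]

theorem length_actW (v : List p.St) (x : List p.Lt) : (p.actW v x).length = x.length := by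
  induction v with
  | nil => rfl
  | cons u v ih =>
    show (p.act u (p.actW v x)).length = x.length
    rw [length_act, ih]

omit [IsAlgClosed K] in
theorem a2_sub_pow (x y : K) :
    (x - y) ^ Fintype.card F = x ^ Fintype.card F - y ^ Fintype.card F := by
  have := map_sub (fr F 1 : K →ₐ[F] K) x y
  simpa [fr_apply] using this

omit [IsAlgClosed K] in
theorem a2_nu_apply (y : K) : nu (Tw.T ^ 2 : Tw F K) p.d y =
    y ^ (Fintype.card F ^ 2) - algebraMap F K p.d * y := by
  rw [nu, map_sub, LinearMap.sub_apply, Tw.ev_T_pow, Tw.algebraMap_apply, Tw.ev_C]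

omit [IsAlgClosed K] in
theorem a2_nu_comm {g : Tw F K} (h : g * Tw.T ^ 2 = Tw.T ^ 2 * g) (y : K) :
    nu (Tw.T ^ 2 : Tw F K) p.d (Tw.ev g y) = Tw.ev g (nu (Tw.T ^ 2 : Tw F K) p.d y) := by
  rw [nu, ← Tw.ev_mul, ← Tw.ev_mul, sub_mul, mul_sub, h, Algebra.commutes]

omit [IsAlgClosed K] in
theorem a2_nu_pow_comm {g : Tw F K} (h : g * Tw.T ^ 2 = Tw.T ^ 2 * g) (n : ℕ) (y : K) :
    (nu (Tw.T ^ 2 : Tw F K) p.d ^ n) (Tw.ev g y) =
      Tw.ev g ((nu (Tw.T ^ 2 : Tw F K) p.d ^ n) y) := by
  induction n with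
  | zero => rfl
  | succ n ih =>
    rw [pow_succ', Module.End.mul_apply, Module.End.mul_apply, ih, a2_nu_comm p h]

omit [IsAlgClosed K] in
theorem a2_Cstar_le_ker : p.Cstar ≤ LinearMap.ker (nu (Tw.T ^ 2 : Tw F K) p.d) := by
  intro y hy
  rw [mem_Cstar] at hy
  rw [LinearMap.mem_ker, a2_nu_apply, sq, pow_mul, hy, mul_pow, hy, ← p.ha, pow_succ]
  ring

theorem a2_yy_ne (b : p.Lt) : p.yy b ≠ 0 := by
  intro h
  have h1 : (p.yy b).coeff 1 = p.eta b := by
    rw [yy, Tw.coeff_C_mul, Tw.coeff_sub, Tw.coeff_T, Tw.coeff_C]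
    simp
  rw [h, Tw.coeff_zero'] at h1
  exact p.eta_ne_zero b h1.symm

theorem a2_yy_surj (b : p.Lt) : Function.Surjective (Tw.ev (p.yy b)) :=
  Tw.ev_surjective (p.a2_yy_ne b)

instance a2_fin_Cstar : FiniteDimensional F p.Cstar :=
  Module.finite_of_finrank_pos (by rw [finrank_Cstar]; exact one_pos)

/-- `y_b z ∈ C_*` in terms of `W = z ^ q - a z`. -/
theorem a2_yy_mem_Cstar (b : p.Lt) {z : K} (h : Tw.ev (p.yy b) z ∈ p.Cstar) :
    (z ^ Fintype.card F - p.a * z) ^ Fintype.card F =
      b.1 * (z ^ Fintype.card F - p.a * z) := by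
  have h1 : Tw.ev ((Tw.T - Tw.C p.a) * p.yy b) z = 0 := by
    rw [Tw.ev_mul]; exact h
  rw [T_sub_mul_yy, Tw.ev_mul, Tw.ev_C, Tw.ev_mul, map_sub, map_sub, LinearMap.sub_apply,
    LinearMap.sub_apply, Tw.ev_T, Tw.ev_T, Tw.ev_C, Tw.ev_C] at h1
  rcases mul_eq_zero.1 h1 with h2 | h2
  · exact absurd h2 (pow_ne_zero _ (p.eta_ne_zero b))
  · exact sub_eq_zero.1 h2

theorem Cstar_le_Theta (x : List p.Lt) : p.Cstar ≤ p.Theta x := by
  cases x with
  | nil => exact le_rfl
  | cons b x =>
    intro y hy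
    show Tw.ev (p.yy b) y ∈ p.Theta x
    rw [← ker_yy p b, LinearMap.mem_ker] at hy
    rw [hy]
    exact zero_mem _

theorem a2_fin_comap {f : Module.End F K} (hf : Function.Surjective f)
    [FiniteDimensional F (LinearMap.ker f)] (L : Submodule F K) [FiniteDimensional F L] :
    FiniteDimensional F (L.comap f) ∧
      Module.finrank F (L.comap f) = Module.finrank F L + Module.finrank F (LinearMap.ker f) := by
  have hker : LinearMap.ker f ≤ L.comap f := by
    intro y hy
    show f y ∈ L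
    rw [LinearMap.mem_ker.1 hy]
    exact zero_mem _
  have hmap : (L.comap f).map f = L := Submodule.map_comap_eq_of_surjective hf L
  have hfin : FiniteDimensional F (L.comap f) := by
    apply Module.Finite.iff_fg.2
    apply Submodule.fg_of_fg_map_of_fg_inf_ker f
    · rw [hmap]
      exact Module.Finite.iff_fg.1 inferInstance
    · rw [inf_eq_right.2 hker]
      exact Module.Finite.iff_fg.1 inferInstance
  refine ⟨hfin, ?_⟩
  have h1 := LinearMap.finrank_range_add_finrank_ker (f.domRestrict (L.comap f))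
  have h2 : LinearMap.range (f.domRestrict (L.comap f)) = L := by
    rw [LinearMap.range_domRestrict, hmap]
  have h3 : LinearMap.ker (f.domRestrict (L.comap f)) =
      (LinearMap.ker f).comap (L.comap f).subtype := by
    ext y
    rfl
  have h4 : Module.finrank F ((LinearMap.ker f).comap (L.comap f).subtype) =
      Module.finrank F (LinearMap.ker f) :=
    (Submodule.comapSubtypeEquivOfLe hker).finrank_eq
  rw [h2, h3, h4] at h1
  exact h1.symm

theorem Theta_isCyc (x : List p.Lt) :
    IsCyc (nu (Tw.T ^ 2 : Tw F K) p.d) x.length (p.Theta x) := by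
  induction x with
  | nil =>
    show IsCyc (nu (Tw.T ^ 2 : Tw F K) p.d) 0 p.Cstar
    apply isCyc_of_finrank (N := 1)
    · intro y hy
      have := p.a2_Cstar_le_ker hy
      rw [LinearMap.mem_ker] at this
      rw [this]
      exact zero_mem _
    · rw [pow_one]
      exact p.a2_Cstar_le_ker
    · calc Module.finrank F (p.Cstar ⊓ LinearMap.ker (nu (Tw.T ^ 2 : Tw F K) p.d) :
            Submodule F K) ≤ Module.finrank F p.Cstar := Submodule.finrank_mono inf_le_left
        _ = 1 := finrank_Cstar p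
    · rw [finrank_Cstar]
  | cons b x ih =>
    show IsCyc (nu (Tw.T ^ 2 : Tw F K) p.d) (x.length + 1) ((p.Theta x).comap (Tw.ev (p.yy b)))
    haveI := ih.finiteDimensional
    haveI hfk : FiniteDimensional F (LinearMap.ker (Tw.ev (p.yy b))) := by
      rw [ker_yy]; infer_instance
    obtain ⟨hfin, hrank⟩ := a2_fin_comap (p.a2_yy_surj b) (p.Theta x)
    rw [ker_yy, finrank_Cstar, ih.finrank_eq] at hrank
    apply isCyc_of_finrank (N := x.length + 1 + 1)
    · intro y hy
      show Tw.ev (p.yy b) _ ∈ p.Theta x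
      rw [← a2_nu_comm p (p.yy_comm_T2 b)]
      exact ih.apply_mem hy
    · intro y hy
      have h1 := LinearMap.mem_ker.1 (ih.le_ker hy)
      rw [a2_nu_pow_comm p (p.yy_comm_T2 b)] at h1
      have h2 : (nu (Tw.T ^ 2 : Tw F K) p.d ^ (x.length + 1)) y ∈ p.Cstar := by
        rw [← ker_yy p b]
        exact h1
      have h3 := p.a2_Cstar_le_ker h2
      rw [LinearMap.mem_ker, pow_succ', Module.End.mul_apply]
      exact h3
    · have hle : ((p.Theta x).comap (Tw.ev (p.yy b)) ⊓
          LinearMap.ker (nu (Tw.T ^ 2 : Tw F K) p.d) : Submodule F K) ≤ p.Cstar := by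
        rintro z ⟨hz1, hz2⟩
        have hz1' : Tw.ev (p.yy b) z ∈ p.Theta x := hz1
        have hz2' : nu (Tw.T ^ 2 : Tw F K) p.d z = 0 := hz2
        have h1 : p.Cstar = p.Theta x ⊓ LinearMap.ker (nu (Tw.T ^ 2 : Tw F K) p.d) := by
          haveI : FiniteDimensional F
              (p.Theta x ⊓ LinearMap.ker (nu (Tw.T ^ 2 : Tw F K) p.d) : Submodule F K) :=
            Submodule.finiteDimensional_of_le (S₂ := p.Theta x) inf_le_left
          apply Submodule.eq_of_le_of_finrank_eq
          · exact le_inf (p.Cstar_le_Theta x) p.a2_Cstar_le_ker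
          · rw [finrank_Cstar, ih.finrank_inf_ker]
        have h2 : Tw.ev (p.yy b) z ∈ p.Cstar := by
          rw [h1]
          refine ⟨hz1', ?_⟩
          show nu (Tw.T ^ 2 : Tw F K) p.d (Tw.ev (p.yy b) z) = 0
          rw [a2_nu_comm p (p.yy_comm_T2 b), hz2', map_zero]
        have h3 := p.a2_yy_mem_Cstar b h2
        rw [a2_nu_apply, sq, pow_mul, sub_eq_zero] at hz2'
        rw [a2_sub_pow, hz2', mul_pow] at h3
        have ha := p.ha
        rw [pow_succ] at ha
        rw [mem_Cstar]
        have h4 : b.1 + p.a ^ Fintype.card F ≠ 0 := fun h => b.2.2 (eq_neg_of_add_eq_zero_left h)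
        apply mul_left_cancel₀ h4
        linear_combination -h3 - z * ha
      calc Module.finrank F ((p.Theta x).comap (Tw.ev (p.yy b)) ⊓
          LinearMap.ker (nu (Tw.T ^ 2 : Tw F K) p.d) : Submodule F K)
          ≤ Module.finrank F p.Cstar := Submodule.finrank_mono hle
        _ = 1 := finrank_Cstar p
    · exact hrank

/-- `s_u` is injective on nilpotent vectors. -/
theorem a2_s_inj (u : p.St) {n : ℕ} {L : Submodule F K}
    (h : IsCyc (nu (Tw.T ^ 2 : Tw F K) p.d) n L) (y : K) (hy : y ∈ L)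
    (h0 : Tw.ev (p.s u) y = 0) : y = 0 := by
  have h1 : Tw.ev (p.s (p.inv u) * p.s u) y = 0 := by
    rw [Tw.ev_mul, h0, map_zero]
  rw [s_inv_mul_s, Tw.ev_mul, Tw.algebraMap_apply, Tw.ev_C] at h1
  have hdc : algebraMap F K (p.d - p.c)⁻¹ ≠ 0 :=
    (map_ne_zero (algebraMap F K)).2 (inv_ne_zero (sub_ne_zero.2 (Ne.symm p.hcd)))
  have h2 := (mul_eq_zero.1 h1).resolve_left hdc
  rw [map_sub, LinearMap.sub_apply, Tw.algebraMap_apply, Tw.ev_C, Tw.ev_T_pow] at h2
  have h3 : nu (Tw.T ^ 2 : Tw F K) p.d y = (p.c - p.d) • y := by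
    rw [a2_nu_apply, Algebra.smul_def, map_sub]
    linear_combination h2
  have h4 : ∀ m : ℕ, (nu (Tw.T ^ 2 : Tw F K) p.d ^ m) y = (p.c - p.d) ^ m • y := by
    intro m
    induction m with
    | zero => simp
    | succ m ih =>
      rw [pow_succ', Module.End.mul_apply, ih, map_smul, h3, smul_smul, pow_succ]
  have h5 := LinearMap.mem_ker.1 (h.le_ker hy)
  rw [h4] at h5
  exact (smul_eq_zero.1 h5).resolve_left (pow_ne_zero _ (sub_ne_zero.2 p.hcd))

theorem a2_mem_Theta_cons (b : p.Lt) (x : List p.Lt) (y : K) :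
    y ∈ p.Theta (b :: x) ↔ Tw.ev (p.yy b) y ∈ p.Theta x := Iff.rfl

omit [IsAlgClosed K] in
theorem a2_act_cons (u : p.St) (b : p.Lt) (x : List p.Lt) :
    p.act u (b :: x) = p.out u b :: p.act (p.nxt u b) x := rfl

theorem a2_map_le (u : p.St) (b : p.Lt) (x : List p.Lt)
    (ih : (p.Theta x).map (Tw.ev (p.s (p.nxt u b))) = p.Theta (p.act (p.nxt u b) x)) :
    (p.Theta (b :: x)).map (Tw.ev (p.s u)) ≤ p.Theta (p.act u (b :: x)) := by
  intro w hw
  obtain ⟨z, hz, hw⟩ := Submodule.mem_map.1 hw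
  rw [← hw, a2_act_cons, a2_mem_Theta_cons, ← Tw.ev_mul]
  obtain ⟨r, -, hr⟩ := p.yy_out_mul_s u b
  rw [hr, Tw.ev_mul, Tw.ev_mul, Tw.algebraMap_apply, Tw.ev_C, ← Algebra.smul_def]
  apply Submodule.smul_mem
  rw [← ih]
  exact Submodule.mem_map_of_mem ((p.a2_mem_Theta_cons b x z).1 hz)

theorem map_s_Theta (u : p.St) (x : List p.Lt) :
    (p.Theta x).map (Tw.ev (p.s u)) = p.Theta (p.act u x) := by
  induction x generalizing u with
  | nil =>
    show p.Cstar.map (Tw.ev (p.s u)) = p.Cstar
    ext y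
    constructor
    · rintro ⟨z, hz, rfl⟩
      rw [ev_s_Cstar p u hz]
      exact hz
    · intro hy
      exact ⟨y, hy, ev_s_Cstar p u hy⟩
  | cons b x ih =>
    have hle := p.a2_map_le u b x (ih (p.nxt u b))
    have h1 := (p.Theta_isCyc (b :: x)).map (ν' := nu (Tw.T ^ 2 : Tw F K) p.d) (Tw.ev (p.s u))
      (fun y _ => (a2_nu_comm p (p.s_comm_T2 u) y).symm)
      (fun y hy h0 => p.a2_s_inj u (p.Theta_isCyc (b :: x)) y hy h0)
    have h2 := p.Theta_isCyc (p.act u (b :: x))
    rw [length_act] at h2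
    exact h1.eq_of_le h2 hle

theorem map_gam_Theta (v : List p.St) (x : List p.Lt) :
    (p.Theta x).map (Tw.ev (p.gam v)) = p.Theta (p.actW v x) := by
  induction v with
  | nil =>
    show (p.Theta x).map (Tw.ev (1 : Tw F K)) = p.Theta x
    rw [map_one]
    exact Submodule.map_id _
  | cons u v ih =>
    have h1 : p.gam (u :: v) = p.s u * p.gam v := by
      rw [gam, gam, List.map_cons, List.prod_cons]
    show _ = p.Theta (p.act u (p.actW v x))
    rw [h1, map_mul, Module.End.mul_eq_comp, Submodule.map_comp, ih, map_s_Theta]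

theorem a2_Theta_single (b : p.Lt) (x : List p.Lt) :
    p.Theta [b] = p.Theta (b :: x) ⊓ LinearMap.ker (nu (Tw.T ^ 2 : Tw F K) p.d ^ (1 + 1)) := by
  have h1 : IsCyc (nu (Tw.T ^ 2 : Tw F K) p.d) 1 (p.Theta [b]) := p.Theta_isCyc [b]
  have h2 := (p.Theta_isCyc (b :: x)).inf_ker_pow (j := 1) (by simp)
  apply h1.eq_of_le h2
  apply le_inf
  · intro y hy
    exact p.Cstar_le_Theta x hy
  · exact h1.le_ker

theorem Theta_injective : Function.Injective p.Theta := by
  intro x
  induction x with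
  | nil =>
    intro x' h
    have h1 := (p.Theta_isCyc []).finrank_eq
    have h2 := (p.Theta_isCyc x').finrank_eq
    rw [h, h2] at h1
    have h3 : x'.length = 0 := by simpa using h1
    exact (List.length_eq_zero_iff.1 h3).symm
  | cons b x ih =>
    intro x' h
    cases x' with
    | nil =>
      have h1 := (p.Theta_isCyc []).finrank_eq
      have h2 := (p.Theta_isCyc (b :: x)).finrank_eq
      rw [h, h1] at h2
      simp at h2
    | cons b' x' =>
      have h1 : p.Theta [b] = p.Theta [b'] := by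
        rw [p.a2_Theta_single b x, p.a2_Theta_single b' x', h]
      have hb : b = b' := by
        by_contra hne
        have hle : p.Theta [b] ≤ p.Cstar := by
          intro z hz
          have hz' : z ∈ p.Theta [b'] := h1 ▸ hz
          have e1 := p.a2_yy_mem_Cstar b (z := z) hz
          have e2 := p.a2_yy_mem_Cstar b' (z := z) hz'
          rw [e1] at e2
          have e3 : (b.1 - b'.1) * (z ^ Fintype.card F - p.a * z) = 0 := by
            linear_combination e2
          rcases mul_eq_zero.1 e3 with e4 | e4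
          · exact absurd (Subtype.ext (sub_eq_zero.1 e4)) hne
          · rw [mem_Cstar]
            exact sub_eq_zero.1 e4
        have h3 := Submodule.finrank_mono hle
        rw [finrank_Cstar, (p.Theta_isCyc [b]).finrank_eq] at h3
        simp at h3
      subst hb
      have h4 : p.Theta x = p.Theta x' :=
        Submodule.comap_injective_of_surjective (p.a2_yy_surj b) h
      rw [ih h4]

theorem act_inv_act (u : p.St) (x : List p.Lt) : p.act (p.inv u) (p.act u x) = x := by
  apply p.Theta_injective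
  rw [← map_s_Theta, ← map_s_Theta, ← Submodule.map_comp, ← Module.End.mul_eq_comp, ← map_mul,
    s_inv_mul_s]
  have hdc : p.d - p.c ≠ 0 := sub_ne_zero.2 (Ne.symm p.hcd)
  have h1 : Tw.ev (algebraMap F (Tw F K) (p.d - p.c)⁻¹ *
      (Tw.T ^ 2 - algebraMap F (Tw F K) p.c)) =
      Polynomial.aeval (nu (Tw.T ^ 2 : Tw F K) p.d)
        (Polynomial.C (p.d - p.c)⁻¹ * (Polynomial.X + Polynomial.C (p.d - p.c))) := by
    simp only [map_mul, map_add, map_sub, Polynomial.aeval_C, Polynomial.aeval_X, AlgHom.commutes,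
      nu]
    congr 1
    abel
  rw [h1]
  apply (p.Theta_isCyc x).map_aeval_eq
  simp [hdc]

end Pool.Agent.H9.Ram.Par
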