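import Pool.Agent.H9.Ram.A1

/-!
# Module A3: norm and trace of the products `γ_v`

`E{τ}` = elements all of whose coefficients satisfy `e^(q^2) = e`. Conjugation
`conj f = ∑ (-1)^i f_i^(q^(i+1)) τ^i`, i.e. `f_i ↦ f_i^q` for even `i`, `f_i ↦ - f_i` for odd `i`.
On `E{τ}` it is an additive anti-automorphism (`conj (f g) = conj g * conj f`: compare coefficients,
`coeff_mul`), `f + conj f` has coefficients `f_i + f_i^q ∈ F` at even `i` and `0` at odd `i`, so it is
`A(τ²)` with `A ∈ F[X]` (elements `e ∈ K` with `e^q = e` are in `F`: `Tw.mem_range_of_pow_card_eq`).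
`conj s_u * s_u = - (u+a)^(-(q+1)) (τ² - c)`, where `(u+a)^(q+1) ∈ F^*`
(`(u^q - τ)(u + τ) = c - τ²` as `u^(q^2) = u`), and `τ² - c` is central in `E{τ}`.
Hence for `γ = z γ_v`, `z ∈ F`, `v` of length `k`: `conj γ * γ = e (τ² - c)^k` with `e ∈ F^*`, and
`γ² - (γ + conj γ) γ + conj γ * γ = 0`. The polynomial `C e * (X - C c)^k` evaluated at `τ²` is
`e (τ² - c)^k`.
-/

open Polynomial

noncomputable section

namespace Pool.Agent.H9.Ram.Par

variable {F K : Type*} [Field F] [Fintype F] [Field K] [Algebra F K] (p : Par F K)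

/-- Conjugation. -/
def a3cj (f : Tw F K) : Tw F K :=
  ∑ i ∈ Finset.range (f.natDegree + 1), Tw.C ((-1) ^ i * fr F (i + 1) (f.coeff i)) * Tw.T ^ i

theorem a3coeff_cj (f : Tw F K) (n : ℕ) :
    (a3cj f).coeff n = (-1) ^ n * fr F (n + 1) (f.coeff n) := by
  unfold a3cj
  rw [Tw.coeff_sum]
  by_cases hn : n < f.natDegree + 1
  · rw [Finset.sum_eq_single n]
    · rw [Tw.coeff_C_mul, Tw.coeff_T_pow]; simp
    · intro b _ hb
      rw [Tw.coeff_C_mul, Tw.coeff_T_pow, if_neg (Ne.symm hb), mul_zero]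
    · intro h2; exact absurd (Finset.mem_range.2 hn) h2
  · rw [Tw.coeff_eq_zero_of_natDegree_lt (by omega : f.natDegree < n), map_zero, mul_zero,
      Finset.sum_eq_zero]
    intro i hi
    rw [Tw.coeff_C_mul, Tw.coeff_T_pow, if_neg (by have := Finset.mem_range.1 hi; omega), mul_zero]

/-- All coefficients are fixed by the square of Frobenius. -/
def a3Fix (f : Tw F K) : Prop := ∀ i, fr F 2 (f.coeff i) = f.coeff i

theorem a3fr_even {x : K} (hx : fr F 2 x = x) (m j : ℕ) : fr F (2 * m + j) x = fr F j x := by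
  induction m with
  | zero => simp
  | succ m ih =>
    rw [show 2 * (m + 1) + j = (2 * m + j) + 2 by ring, ← fr_fr, hx, ih]

theorem a3Fix_mul {f g : Tw F K} (hf : a3Fix f) (hg : a3Fix g) : a3Fix (f * g) := by
  intro n
  rw [Tw.coeff_mul, map_sum]
  apply Finset.sum_congr rfl
  intro x _
  rw [map_mul, hf, fr_fr, add_comm 2 x.1, ← fr_fr, hg]

theorem a3Fix_C {x : K} (hx : fr F 2 x = x) : a3Fix (Tw.C x : Tw F K) := by
  intro n
  rw [Tw.coeff_C]
  split_ifs
  · exact hx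
  · exact map_zero _

theorem a3Fix_one : a3Fix (1 : Tw F K) := by
  have h := a3Fix_C (F := F) (K := K) (x := 1) (map_one _)
  rwa [map_one] at h

theorem a3Fix_T : a3Fix (Tw.T : Tw F K) := by
  intro n
  rw [Tw.coeff_T]
  split_ifs
  · exact map_one _
  · exact map_zero _

theorem a3Fix_add {f g : Tw F K} (hf : a3Fix f) (hg : a3Fix g) : a3Fix (f + g) := by
  intro n
  rw [Tw.coeff_add, map_add, hf, hg]

theorem a3cj_mul {f g : Tw F K} (hg : a3Fix g) : a3cj (f * g) = a3cj g * a3cj f := by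
  apply Tw.ext_coeff
  intro n
  rw [a3coeff_cj, Tw.coeff_mul, Tw.coeff_mul, map_sum, Finset.mul_sum]
  refine Finset.sum_equiv (Equiv.prodComm ℕ ℕ) ?_ ?_
  · intro x
    simp only [Finset.HasAntidiagonal.mem_antidiagonal, Equiv.prodComm_apply, Prod.fst_swap,
      Prod.snd_swap]
    rw [add_comm]
  · rintro ⟨j, i⟩ hx
    simp only [Finset.HasAntidiagonal.mem_antidiagonal] at hx
    simp only [Equiv.prodComm_apply, Prod.fst_swap, Prod.snd_swap]
    rw [a3coeff_cj, a3coeff_cj, map_mul, map_mul, fr_fr, fr_fr, map_pow, map_neg, map_one]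
    rw [show n + 1 + j = 2 * j + (i + 1) by omega, a3fr_even (hg i),
      show i + (j + 1) = n + 1 by omega, ← hx, pow_add]
    ring

theorem a3fr_two_u (u : p.St) : fr F 2 u.1 = u.1 := by
  rw [fr_apply]; exact pow_card_sq_of_pow u.2

theorem a3fr_two_a : fr F 2 p.a = p.a := by
  rw [fr_apply]; exact pow_card_sq_of_pow p.ha

theorem a3Fix_s (u : p.St) : a3Fix (p.s u) := by
  unfold s
  refine a3Fix_mul (a3Fix_C ?_) (a3Fix_add (a3Fix_C (p.a3fr_two_u u)) a3Fix_T)
  rw [map_inv₀, map_add, p.a3fr_two_u, p.a3fr_two_a]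

theorem a3Fix_gam (v : List p.St) : a3Fix (p.gam v) := by
  unfold gam
  induction v with
  | nil => simpa using a3Fix_one
  | cons u v ih =>
    rw [List.map_cons, List.prod_cons]
    exact a3Fix_mul (p.a3Fix_s u) ih

theorem gam_coeff_fix (v : List p.St) (i : ℕ) :
    ((p.gam v).coeff i) ^ (Fintype.card F ^ 2) = (p.gam v).coeff i := by
  rw [← fr_apply]
  exact p.a3Fix_gam v i

theorem a3cj_C (x : K) : a3cj (Tw.C x : Tw F K) = Tw.C (fr F 1 x) := by
  apply Tw.ext_coeff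
  intro n
  rw [a3coeff_cj, Tw.coeff_C, Tw.coeff_C]
  split_ifs with h
  · subst h; simp
  · simp

theorem a3cj_add (f g : Tw F K) : a3cj (f + g) = a3cj f + a3cj g := by
  apply Tw.ext_coeff
  intro n
  rw [Tw.coeff_add, a3coeff_cj, a3coeff_cj, a3coeff_cj, Tw.coeff_add, map_add, mul_add]

theorem a3cj_T : a3cj (Tw.T : Tw F K) = -Tw.T := by
  apply Tw.ext_coeff
  intro n
  rw [a3coeff_cj, Tw.coeff_neg, Tw.coeff_T]
  split_ifs with h
  · subst h; simp
  · simp

/-- The norm of `u + a`. -/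
theorem a3exists_norm (u : p.St) : ∃ r : F, r ≠ 0 ∧
    algebraMap F K r = (u.1 + p.a) ^ (Fintype.card F + 1) := by
  have hfix : (u.1 + p.a) ^ (Fintype.card F ^ 2) = u.1 + p.a :=
    fix_add (pow_card_sq_of_pow u.2) (pow_card_sq_of_pow p.ha)
  obtain ⟨r, hr⟩ := Tw.mem_range_of_pow_card_eq (F := F)
    (x := (u.1 + p.a) ^ (Fintype.card F + 1)) (by
      rw [← pow_mul, add_mul, one_mul, ← pow_two, pow_add, hfix, pow_add, pow_one, mul_comm])
  refine ⟨r, ?_, hr⟩
  rintro rfl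
  rw [map_zero] at hr
  exact p.u_add_a_ne_zero u (pow_eq_zero_iff (by omega) |>.1 hr.symm)

theorem a3cj_s_mul (u : p.St) : ∃ e : F, e ≠ 0 ∧
    a3cj (p.s u) * p.s u = algebraMap F (Tw F K) e * (Tw.T ^ 2 - algebraMap F (Tw F K) p.c) := by
  obtain ⟨r, hr, hr2⟩ := p.a3exists_norm u
  refine ⟨-r⁻¹, neg_ne_zero.2 (inv_ne_zero hr), ?_⟩
  have hua := p.u_add_a_ne_zero u
  have hfix : fr F 2 (u.1 + p.a)⁻¹ = (u.1 + p.a)⁻¹ := by
    rw [map_inv₀, map_add, p.a3fr_two_u, p.a3fr_two_a]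
  set k : K := (u.1 + p.a)⁻¹ with hk
  have h1 : a3cj (p.s u) = (Tw.C (fr F 1 u.1) - Tw.T) * Tw.C (fr F 1 k) := by
    unfold s
    rw [a3cj_mul (a3Fix_add (a3Fix_C (p.a3fr_two_u u)) a3Fix_T), a3cj_C, a3cj_add, a3cj_C,
      a3cj_T, ← sub_eq_add_neg]
  have h2 : (Tw.T : Tw F K) * Tw.C (fr F 1 k * k) = Tw.C (fr F 1 k * k) * Tw.T := by
    rw [Tw.T_mul_C, map_mul, fr_fr, show (1 + 1 : ℕ) = 2 from rfl, hfix, mul_comm]
  have h3 : (fr F 1 k * k) = algebraMap F K r⁻¹ := by
    have h3a : fr F 1 k * k = ((u.1 + p.a) ^ (Fintype.card F + 1))⁻¹ := by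
      rw [fr_apply, pow_one, ← pow_succ, hk, inv_pow]
    rw [h3a, ← hr2]
    exact (map_inv₀ (algebraMap F K) r).symm
  have h4 : (fr F 1 u.1 * u.1) = algebraMap F K p.c := by
    rw [fr_apply, pow_one, ← pow_succ, u.2]
  have h5 : (Tw.C (fr F 1 u.1) - Tw.T) * (Tw.C u.1 + Tw.T) =
      -(Tw.T ^ 2 - algebraMap F (Tw F K) p.c) := by
    rw [sub_mul, mul_add, mul_add, Tw.T_mul_C, ← map_mul, h4, Tw.algebraMap_apply, pow_two]
    abel
  have h7 : p.s u = Tw.C k * (Tw.C u.1 + Tw.T) := rfl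
  have h8 : (Tw.C (fr F 1 u.1) : Tw F K) * Tw.C (fr F 1 k * k) =
      Tw.C (fr F 1 k * k) * Tw.C (fr F 1 u.1) := by
    rw [← map_mul, ← map_mul, mul_comm]
  have h6 : (Tw.C (fr F 1 u.1) - Tw.T : Tw F K) * Tw.C (fr F 1 k) *
      (Tw.C k * (Tw.C u.1 + Tw.T)) =
      Tw.C (fr F 1 k * k) * ((Tw.C (fr F 1 u.1) - Tw.T) * (Tw.C u.1 + Tw.T)) := by
    calc (Tw.C (fr F 1 u.1) - Tw.T : Tw F K) * Tw.C (fr F 1 k) * (Tw.C k * (Tw.C u.1 + Tw.T))
        = (Tw.C (fr F 1 u.1) - Tw.T) * Tw.C (fr F 1 k * k) * (Tw.C u.1 + Tw.T) := by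
          rw [map_mul]; simp only [mul_assoc]
      _ = (Tw.C (fr F 1 k * k) * (Tw.C (fr F 1 u.1) - Tw.T)) * (Tw.C u.1 + Tw.T) := by
          rw [sub_mul, h2, mul_sub, h8]
      _ = _ := by rw [mul_assoc]
  rw [h1, h7, h6, h5, h3, map_neg, Tw.algebraMap_apply, neg_mul, mul_neg]
  rfl

theorem a3T2_comm (v : List p.St) :
    (Tw.T ^ 2 - algebraMap F (Tw F K) p.c) * p.gam v =
      p.gam v * (Tw.T ^ 2 - algebraMap F (Tw F K) p.c) := by
  rw [sub_mul, mul_sub, p.gam_comm_T2, Algebra.commutes]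

theorem a3cj_gam_mul (v : List p.St) : ∃ e : F, e ≠ 0 ∧
    a3cj (p.gam v) * p.gam v =
      algebraMap F (Tw F K) e * (Tw.T ^ 2 - algebraMap F (Tw F K) p.c) ^ v.length := by
  induction v with
  | nil =>
    refine ⟨1, one_ne_zero, ?_⟩
    have h : p.gam [] = 1 := by simp [gam]
    rw [h]
    have h1 : a3cj (1 : Tw F K) = 1 := by
      have := a3cj_C (F := F) (K := K) 1
      rwa [map_one, map_one, map_one] at this
    rw [h1]; simp
  | cons u v ih =>
    obtain ⟨e1, he1, h1⟩ := ih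
    obtain ⟨e2, he2, h2⟩ := p.a3cj_s_mul u
    refine ⟨e1 * e2, mul_ne_zero he1 he2, ?_⟩
    have hg : p.gam (u :: v) = p.s u * p.gam v := by simp [gam]
    rw [hg, a3cj_mul (p.a3Fix_gam v)]
    have hcom := p.a3T2_comm v
    calc a3cj (p.gam v) * a3cj (p.s u) * (p.s u * p.gam v)
        = a3cj (p.gam v) * ((a3cj (p.s u) * p.s u) * p.gam v) := by simp only [mul_assoc]
      _ = a3cj (p.gam v) * (algebraMap F (Tw F K) e2 *
            ((Tw.T ^ 2 - algebraMap F (Tw F K) p.c) * p.gam v)) := by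
          rw [h2]; simp only [mul_assoc]
      _ = algebraMap F (Tw F K) e2 * ((a3cj (p.gam v) * p.gam v) *
            (Tw.T ^ 2 - algebraMap F (Tw F K) p.c)) := by
          rw [hcom, ← mul_assoc, ← Algebra.commutes e2]; simp only [mul_assoc]
      _ = _ := by
          rw [h1, List.length_cons, pow_succ (Tw.T ^ 2 - algebraMap F (Tw F K) p.c) v.length,
            map_mul, ← mul_assoc, ← mul_assoc, Algebra.commutes e2 (algebraMap F (Tw F K) e1)]
          simp only [mul_assoc]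

/-- The trace is a polynomial in `τ²`. -/
theorem a3trace {f : Tw F K} (hf : a3Fix f) : ∃ A : F[X],
    Polynomial.aeval (Tw.T ^ 2 : Tw F K) A = f + a3cj f := by
  have hr : ∀ i : ℕ, ∃ r : F, algebraMap F K r = f.coeff (2 * i) + fr F 1 (f.coeff (2 * i)) := by
    intro i
    apply Tw.mem_range_of_pow_card_eq
    have h : ∀ x : K, x ^ Fintype.card F = fr F 1 x := by intro x; rw [fr_apply, pow_one]
    rw [h, map_add, fr_fr, show (1 + 1 : ℕ) = 2 from rfl, hf, add_comm]
  choose r hr using hr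
  refine ⟨∑ i ∈ Finset.range (f.natDegree + 1), Polynomial.C (r i) * X ^ i, ?_⟩
  rw [map_sum]
  apply Tw.ext_coeff
  intro n
  rw [Tw.coeff_sum]
  have hterm : ∀ i, (Polynomial.aeval (Tw.T ^ 2 : Tw F K) (Polynomial.C (r i) * X ^ i)).coeff n =
      algebraMap F K (r i) * (if n = 2 * i then 1 else 0) := by
    intro i
    rw [map_mul, Polynomial.aeval_C, map_pow, Polynomial.aeval_X, ← pow_mul, Tw.algebraMap_apply,
      Tw.coeff_C_mul, Tw.coeff_T_pow]
  rw [Finset.sum_congr rfl fun i _ => hterm i, Tw.coeff_add, a3coeff_cj]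
  rcases Nat.even_or_odd' n with ⟨m, hm | hm⟩
  · have hsgn : ((-1 : K)) ^ n = 1 := by rw [hm, pow_mul]; simp
    have hfr : fr F (n + 1) (f.coeff n) = fr F 1 (f.coeff n) := by
      have := a3fr_even (hf n) m 1
      rwa [← hm] at this
    rw [hsgn, one_mul, hfr]
    by_cases hlt : m < f.natDegree + 1
    · rw [Finset.sum_eq_single m]
      · rw [if_pos hm, mul_one, hr m, ← hm]
      · intro b _ hb
        rw [if_neg (by omega), mul_zero]
      · intro h; exact absurd (Finset.mem_range.2 hlt) h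
    · rw [Finset.sum_eq_zero, Tw.coeff_eq_zero_of_natDegree_lt (by omega : f.natDegree < n),
        map_zero, add_zero]
      intro i hi
      have := Finset.mem_range.1 hi
      rw [if_neg (by omega), mul_zero]
  · have hsgn : ((-1 : K)) ^ n = -1 := by rw [hm, pow_succ, pow_mul]; simp
    have hfr : fr F (n + 1) (f.coeff n) = f.coeff n := by
      have := a3fr_even (hf n) (m + 1) 0
      rw [fr_zero] at this
      rwa [show n + 1 = 2 * (m + 1) + 0 by omega]
    rw [hsgn, hfr, Finset.sum_eq_zero]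
    · ring
    · intro i _
      rw [if_neg (by omega), mul_zero]

theorem exists_quadratic (v : List p.St) (z : F) (hz : z ≠ 0) :
    ∃ (A : F[X]) (e : F), e ≠ 0 ∧
      (algebraMap F (Tw F K) z * p.gam v) ^ 2 -
        Polynomial.aeval (Tw.T ^ 2 : Tw F K) A * (algebraMap F (Tw F K) z * p.gam v) +
        Polynomial.aeval (Tw.T ^ 2 : Tw F K) (Polynomial.C e * (X - Polynomial.C p.c) ^ v.length)
          = 0 := by
  have hzfix : fr F 2 (algebraMap F K z) = algebraMap F K z := AlgHom.commutes _ _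
  have hg : a3Fix (algebraMap F (Tw F K) z * p.gam v) := by
    rw [Tw.algebraMap_apply]
    exact a3Fix_mul (a3Fix_C hzfix) (p.a3Fix_gam v)
  obtain ⟨A, hA⟩ := a3trace hg
  obtain ⟨e, he, h⟩ := p.a3cj_gam_mul v
  refine ⟨A, z * z * e, mul_ne_zero (mul_ne_zero hz hz) he, ?_⟩
  have hcj : a3cj (algebraMap F (Tw F K) z * p.gam v) = a3cj (p.gam v) * algebraMap F (Tw F K) z := by
    rw [a3cj_mul (p.a3Fix_gam v), Tw.algebraMap_apply, a3cj_C, AlgHom.commutes]
  have hnorm : a3cj (algebraMap F (Tw F K) z * p.gam v) * (algebraMap F (Tw F K) z * p.gam v) =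
      Polynomial.aeval (Tw.T ^ 2 : Tw F K)
        (Polynomial.C (z * z * e) * (X - Polynomial.C p.c) ^ v.length) := by
    rw [hcj, map_mul, Polynomial.aeval_C, map_pow, map_sub, Polynomial.aeval_X,
      Polynomial.aeval_C]
    calc a3cj (p.gam v) * algebraMap F (Tw F K) z * (algebraMap F (Tw F K) z * p.gam v)
        = algebraMap F (Tw F K) z * algebraMap F (Tw F K) z * (a3cj (p.gam v) * p.gam v) := by
          rw [← Algebra.commutes z (a3cj (p.gam v))]
          simp only [mul_assoc]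
          rw [← mul_assoc (a3cj (p.gam v)), ← Algebra.commutes z (a3cj (p.gam v))]
          simp only [mul_assoc]
      _ = _ := by
          rw [h, map_mul, map_mul]
          simp only [mul_assoc]
  rw [← hnorm, hA]
  noncomm_ring

end Pool.Agent.H9.Ram.Par
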