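import Pool.Agent.H9.Ram.A1

/-!
# Module A4: kernels of products of generators on `ker (τ² - c)`, unique factorization

`W = ker (ev (τ² - c))` has dimension `2` (`Tw.finrank_ker`, since `c ≠ 0`).
* for a reduced nonempty word `v = v' ++ [u]` (`Red p.inv v`): `ker γ_v ⊓ W = ker s_u`.
  Induction on the length. `s_u` maps `W` into `W` and `s_{inv u} s_u = (τ²-c)/(d-c)` kills `W`, so
  `s_u W ≤ ker s_{inv u}`. If `z ∈ W`, `γ_v z = 0` and `v' = v'' ++ [u₁]` then `z' = s_u z` lies in
  `ker γ_{v'} ⊓ W = ker s_{u₁}` and in `ker s_{inv u}`; reducedness of `v` says `u ≠ inv u₁`, i.e.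
  (`inv_inv`) `inv u ≠ u₁`, so `z' = 0` by `eq_of_mem_ker_s`.
* unique factorization: if `v, v'` are reduced of the same length and `γ_v = z γ_{v'}` with `z ∈ F^*`
  then `v = v'` (compare last letters by kernels, cancel on the right: `Tw F K` has no zero divisors)
  and `z = 1`.
* for cyclically reduced nonempty `v`, `γ_v²= γ_{v ++ v}` does not vanish on `W`
  (its kernel on `W` has dimension one).
-/

noncomputable section

namespace Pool.Agent.H9.Ram.Par

variable {F K : Type*} [Field F] [Fintype F] [Field K] [Algebra F K] [IsAlgClosed K] (p : Par F K)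

theorem gam_append (v v' : List p.St) : p.gam (v ++ v') = p.gam v * p.gam v' := by
  simp [gam, List.map_append, List.prod_append]

theorem a4_gam_singleton (u : p.St) : p.gam [u] = p.s u := by simp [gam]

theorem a4_gam_concat (v : List p.St) (u : p.St) (y : K) :
    Tw.ev (p.gam (v ++ [u])) y = Tw.ev (p.gam v) (Tw.ev (p.s u) y) := by
  rw [gam_append, a4_gam_singleton, Tw.ev_mul]

/-- the polynomial `τ² - c` -/
def a4g : Tw F K := Tw.T ^ 2 - algebraMap F (Tw F K) p.c

theorem a4_s_comm (u : p.St) : p.s u * p.a4g = p.a4g * p.s u := by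
  unfold a4g
  rw [mul_sub, sub_mul, p.s_comm_T2 u, Algebra.commutes]

theorem a4_s_mem (u : p.St) {y : K} (hy : Tw.ev p.a4g y = 0) :
    Tw.ev p.a4g (Tw.ev (p.s u) y) = 0 := by
  rw [← Tw.ev_mul, ← p.a4_s_comm u, Tw.ev_mul, hy, map_zero]

theorem a4_inv_s (u : p.St) {y : K} (hy : Tw.ev p.a4g y = 0) :
    Tw.ev (p.s (p.inv u)) (Tw.ev (p.s u) y) = 0 := by
  rw [← Tw.ev_mul, p.s_inv_mul_s u, Tw.ev_mul]
  have : Tw.ev (Tw.T ^ 2 - algebraMap F (Tw F K) p.c : Tw F K) y = 0 := hy
  rw [this, map_zero]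

theorem ker_gam_inf (v : List p.St) (u : p.St) (h : Red p.inv (v ++ [u])) :
    LinearMap.ker (Tw.ev (p.gam (v ++ [u]))) ⊓
      LinearMap.ker (Tw.ev (Tw.T ^ 2 - algebraMap F (Tw F K) p.c : Tw F K)) =
      LinearMap.ker (Tw.ev (p.s u)) := by
  apply le_antisymm
  · induction v using List.reverseRecOn generalizing u with
    | nil =>
      intro y hy
      have h1 : Tw.ev (p.gam ([] ++ [u])) y = 0 := hy.1
      rw [List.nil_append, a4_gam_singleton] at h1
      exact h1
    | append_singleton v u₁ ih =>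
      intro y hy
      have h1 : Tw.ev (p.gam ((v ++ [u₁]) ++ [u])) y = 0 := hy.1
      have h2 : Tw.ev p.a4g y = 0 := hy.2
      rw [a4_gam_concat] at h1
      have hch := List.isChain_append.1 h
      have h3 : Tw.ev (p.s u) y ∈ LinearMap.ker (Tw.ev (p.s u₁)) :=
        ih u₁ hch.1 ⟨h1, p.a4_s_mem u h2⟩
      have h4 : Tw.ev (p.s u) y ∈ LinearMap.ker (Tw.ev (p.s (p.inv u))) := p.a4_inv_s u h2
      by_contra hne
      have hne' : Tw.ev (p.s u) y ≠ 0 := hne
      have h5 := p.eq_of_mem_ker_s hne' h3 h4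
      have h6 : u ≠ p.inv u₁ := hch.2.2 u₁ (by simp) u (by simp)
      apply h6
      rw [h5, p.inv_inv]
  · intro y hy
    have hy' : Tw.ev (p.s u) y = 0 := hy
    refine ⟨?_, p.ker_s_le u hy⟩
    show Tw.ev (p.gam (v ++ [u])) y = 0
    rw [a4_gam_concat, hy', map_zero]

theorem a4_exists_ker (u : p.St) : ∃ y : K, y ≠ 0 ∧ y ∈ LinearMap.ker (Tw.ev (p.s u)) := by
  by_contra hcon
  have h0 : LinearMap.ker (Tw.ev (p.s u)) = ⊥ := by
    rw [Submodule.eq_bot_iff]
    intro y hy
    by_contra hne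
    exact hcon ⟨y, hne, hy⟩
  have h1 := p.finrank_ker_s u
  rw [h0, finrank_bot] at h1
  exact absurd h1 (by norm_num)

theorem a4_s_ne_zero (u : p.St) : p.s u ≠ 0 := by
  intro h
  apply p.s_coeff_zero_ne u
  rw [h]
  simp

theorem a4_algebraMap_inj {z z' : F} (h : algebraMap F (Tw F K) z = algebraMap F (Tw F K) z') :
    z = z' := by
  have h1 := congrArg (fun f : Tw F K => f.coeff 0) h
  simp only [Tw.algebraMap_apply, Tw.coeff_C_zero] at h1
  exact (algebraMap F K).injective h1

theorem gam_unique (v v' : List p.St) (h : Red p.inv v) (h' : Red p.inv v')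
    (hl : v.length = v'.length) (z : F) (hz : z ≠ 0)
    (heq : p.gam v = algebraMap F (Tw F K) z * p.gam v') : v = v' ∧ z = 1 := by
  induction v using List.reverseRecOn generalizing v' with
  | nil =>
    have hv' : v' = [] := List.length_eq_zero_iff.1 (by simpa using hl.symm)
    subst hv'
    refine ⟨rfl, ?_⟩
    have h1 : p.gam [] = 1 := by simp [gam]
    rw [h1, mul_one] at heq
    apply a4_algebraMap_inj (K := K)
    rw [← heq, map_one]
  | append_singleton v u ih =>
    rcases List.eq_nil_or_concat v' with rfl | ⟨v₁, u₁, hv1⟩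
    · simp at hl
    · rw [List.concat_eq_append] at hv1
      subst hv1
      have hle : ∀ y, y ∈ LinearMap.ker (Tw.ev (p.s u₁)) → y ∈ LinearMap.ker (Tw.ev (p.s u)) := by
        intro y hy
        rw [← p.ker_gam_inf v₁ u₁ h'] at hy
        rw [← p.ker_gam_inf v u h]
        refine ⟨?_, hy.2⟩
        show Tw.ev (p.gam (v ++ [u])) y = 0
        have h1 : Tw.ev (p.gam (v₁ ++ [u₁])) y = 0 := hy.1
        rw [heq, Tw.ev_mul, h1, map_zero]
      obtain ⟨y, hy0, hy⟩ := p.a4_exists_ker u₁
      have huu : u₁ = u := p.eq_of_mem_ker_s hy0 hy (hle y hy)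
      subst huu
      have hl' : v.length = v₁.length := by simpa using hl
      have heq' : p.gam v = algebraMap F (Tw F K) z * p.gam v₁ := by
        rw [gam_append, gam_append, a4_gam_singleton, ← mul_assoc] at heq
        have h1 : (p.gam v - algebraMap F (Tw F K) z * p.gam v₁) * p.s u₁ = 0 := by
          rw [sub_mul, heq, sub_self]
        rcases mul_eq_zero.1 h1 with h2 | h2
        · exact sub_eq_zero.1 h2
        · exact absurd h2 (p.a4_s_ne_zero u₁)
      obtain ⟨h1, h2⟩ := ih v₁ (List.isChain_append.1 h).1 (List.isChain_append.1 h').1 hl' heq'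
      exact ⟨by rw [h1], h2⟩

theorem a4_finrank_W :
    Module.finrank F (LinearMap.ker (Tw.ev (Tw.T ^ 2 - algebraMap F (Tw F K) p.c : Tw F K))) = 2 := by
  have hc0 : algebraMap F K p.c ≠ 0 := (map_ne_zero _).2 p.hc
  have hco : ∀ n, (Tw.T ^ 2 - algebraMap F (Tw F K) p.c : Tw F K).coeff n =
      (if n = 2 then 1 else 0) - (if n = 0 then algebraMap F K p.c else 0) := by
    intro n
    rw [Tw.coeff_sub, Tw.coeff_T_pow, Tw.algebraMap_apply, Tw.coeff_C]
  have h0 : (Tw.T ^ 2 - algebraMap F (Tw F K) p.c : Tw F K).coeff 0 ≠ 0 := by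
    rw [hco]
    simpa using hc0
  rw [Tw.finrank_ker h0]
  apply le_antisymm
  · rw [Tw.natDegree_le_iff]
    intro n hn
    rw [hco, if_neg (by omega), if_neg (by omega), sub_zero]
  · apply Tw.le_natDegree_of_coeff_ne_zero
    rw [hco]
    simp

theorem exists_sq_ne_zero (v : List p.St) (hv : v ≠ []) (h : CycRed p.inv v) :
    ∃ y ∈ LinearMap.ker (Tw.ev (Tw.T ^ 2 - algebraMap F (Tw F K) p.c : Tw F K)),
      Tw.ev (p.gam v ^ 2) y ≠ 0 := by
  rcases List.eq_nil_or_concat v with rfl | ⟨v₁, u, hv1⟩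
  · exact absurd rfl hv
  · rw [List.concat_eq_append] at hv1
    subst hv1
    by_contra hcon
    push Not at hcon
    have hred : Red p.inv (((v₁ ++ [u]) ++ v₁) ++ [u]) := by
      have : Red p.inv ((v₁ ++ [u]) ++ (v₁ ++ [u])) := h
      rwa [← List.append_assoc (v₁ ++ [u])] at this
    have hk := p.ker_gam_inf ((v₁ ++ [u]) ++ v₁) u hred
    have hWle : LinearMap.ker (Tw.ev (Tw.T ^ 2 - algebraMap F (Tw F K) p.c : Tw F K)) ≤
        LinearMap.ker (Tw.ev (p.s u)) := by
      intro y hy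
      rw [← hk]
      refine ⟨?_, hy⟩
      show Tw.ev (p.gam (((v₁ ++ [u]) ++ v₁) ++ [u])) y = 0
      have h1 := hcon y hy
      rw [pow_two, ← gam_append, ← List.append_assoc (v₁ ++ [u])] at h1
      exact h1
    have heq : LinearMap.ker (Tw.ev (Tw.T ^ 2 - algebraMap F (Tw F K) p.c : Tw F K)) =
        LinearMap.ker (Tw.ev (p.s u)) := le_antisymm hWle (p.ker_s_le u)
    have h2 := p.a4_finrank_W
    rw [heq, p.finrank_ker_s u] at h2
    exact absurd h2 (by norm_num)

end Pool.Agent.H9.Ram.Par
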