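import Pool.Agent.H9.Ram.A2
import Pool.Agent.H9.Ram.A3
import Pool.Agent.H9.Ram.A4

/-!
# Module A5: from fixed points to objects

The map `(z, v, x) ↦ (z γ_v, Θ(x))` sends `z ∈ F^*` and pairs `(v, x)` counted by `Nk` injectively to
`DStar`. Membership: coefficients by `gam_coeff_fix` (A3) and `z^(q^2) = z`; degree `natDegree_gam`;
the quadratic equation by `exists_quadratic` (A3); `A.eval c ≠ 0`: otherwise `A(τ²)` kills
`W = ker (τ² - c)` (write `A = A₁ (X - c)`), and `(τ²-c)^k` too (`k > 0`), so `γ²` kills `W`,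
contradicting `exists_sq_ne_zero` (A4). Cyclic and `C_* ≤ Θ(x)` and stability from A2.
Injectivity: `Theta_injective`, `gam_unique` (a cyclically reduced word is reduced).
`DStar` is finite: the elements `γ` have degree `k` and coefficients in the finite set of roots of
`X^(q^2) - X`; the `L` are contained in the finite dimensional (finite) space `ker (τ²-d)^(n+1)`.
-/

noncomputable section

namespace Pool.Agent.H9.Ram.Par

variable {F K : Type*} [Field F] [Fintype F] [Field K] [Algebra F K] [IsAlgClosed K] (p : Par F K)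

omit [IsAlgClosed K] in
/-- The fixed points of the `q ^ 2`-power map are finite in number. -/
theorem a5_finite_fix : {x : K | x ^ (Fintype.card F ^ 2) = x}.Finite := by
  have hne : (Tw.T ^ 2 - 1 : Tw F K) ≠ 0 := by
    intro h
    have h2 := congrArg (fun f => Tw.coeff f 2) h
    simp only [Tw.coeff_sub, Tw.coeff_T_pow, Tw.coeff_one, Tw.coeff_zero'] at h2
    norm_num at h2
  refine (Tw.finite_ker hne).subset ?_
  intro x hx
  show x ∈ LinearMap.ker (Tw.ev (Tw.T ^ 2 - 1 : Tw F K))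
  rw [LinearMap.mem_ker, map_sub, LinearMap.sub_apply, Tw.ev_T_pow, map_one,
    Module.End.one_apply]
  exact sub_eq_zero.2 hx

omit [IsAlgClosed K] in
theorem a5_finite_tw (k : ℕ) :
    {f : Tw F K | (∀ i, (f.coeff i) ^ (Fintype.card F ^ 2) = f.coeff i) ∧
      f.natDegree = k}.Finite := by
  have hfin : (Set.univ.pi fun _ : Fin (k + 1) =>
      {x : K | x ^ (Fintype.card F ^ 2) = x}).Finite :=
    Set.Finite.pi fun _ => a5_finite_fix (F := F) (K := K)
  refine Set.Finite.of_injOn (f := fun f : Tw F K => fun i : Fin (k + 1) => f.coeff i) ?_ ?_ hfin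
  · rintro f ⟨hf, _⟩ i _
    exact hf i
  · rintro f ⟨_, hf⟩ g ⟨_, hg⟩ hfg
    apply Tw.ext_coeff
    intro i
    by_cases hi : i < k + 1
    · exact congrFun hfg ⟨i, hi⟩
    · rw [Tw.coeff_eq_zero_of_natDegree_lt (by omega), Tw.coeff_eq_zero_of_natDegree_lt (by omega)]

theorem finite_DStar (n k : ℕ) : (DStar p n k).Finite := by
  have hne : ((Tw.T ^ 2 - algebraMap F (Tw F K) p.d : Tw F K) ^ (n + 1)) ≠ 0 := by
    apply pow_ne_zero
    intro h
    have h2 := congrArg (fun f => Tw.coeff f 2) h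
    simp only [Tw.coeff_sub, Tw.coeff_T_pow, Tw.algebraMap_apply, Tw.coeff_C,
      Tw.coeff_zero'] at h2
    norm_num at h2
  have hker := Tw.finite_ker hne
  have hsub : {L : Submodule F K | (L : Set K) ⊆
      (LinearMap.ker (Tw.ev ((Tw.T ^ 2 - algebraMap F (Tw F K) p.d : Tw F K) ^ (n + 1))) :
        Set K)}.Finite := by
    refine Set.Finite.of_injOn (f := fun L : Submodule F K => (L : Set K)) ?_ ?_
      hker.finite_subsets
    · intro L hL
      exact hL
    · intro L _ L' _ h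
      exact SetLike.coe_injective h
  refine ((a5_finite_tw (F := F) (K := K) k).prod hsub).subset ?_
  rintro ⟨f, L⟩ ⟨h1, h2, _, h4, _⟩
  refine ⟨⟨h1, h2⟩, ?_⟩
  have h5 := h4.le_ker
  intro y hy
  have h6 := h5 hy
  rw [nu, ← map_pow] at h6
  exact h6

/-- The map into the objects. -/
theorem a5_mem_DStar (n k : ℕ) (hk : 0 < k) (z : F) (hz : z ≠ 0) (v : List p.St)
    (x : List p.Lt) (hv : v.length = k) (hx : x.length = n) (hr : CycRed p.inv v)
    (ha : p.actW v x = x) :
    (algebraMap F (Tw F K) z * p.gam v, p.Theta x) ∈ DStar p n k := by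
  have hzK : algebraMap F K z ≠ 0 := (map_ne_zero _).2 hz
  have hg0 : p.gam v ≠ 0 := by
    intro h
    apply p.gam_coeff_zero_ne v
    rw [h, Tw.coeff_zero']
  have hC0 : (Tw.C (algebraMap F K z) : Tw F K) ≠ 0 := by
    intro h
    have h2 := congrArg (fun f => Tw.coeff f 0) h
    simp only [Tw.coeff_C_zero, Tw.coeff_zero'] at h2
    exact hzK h2
  refine ⟨?_, ?_, ?_, ?_, ?_, ?_⟩
  · intro i
    show ((algebraMap F (Tw F K) z * p.gam v).coeff i) ^ (Fintype.card F ^ 2) =
      (algebraMap F (Tw F K) z * p.gam v).coeff i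
    rw [Tw.algebraMap_apply, Tw.coeff_C_mul, mul_pow, p.gam_coeff_fix v i, ← map_pow]
    congr 2
    rw [pow_two, pow_mul, FiniteField.pow_card, FiniteField.pow_card]
  · show (algebraMap F (Tw F K) z * p.gam v).natDegree = k
    rw [Tw.algebraMap_apply, Tw.natDegree_mul hC0 hg0, Tw.natDegree_C, p.natDegree_gam, hv,
      zero_add]
  · obtain ⟨A, e, he, hq⟩ := p.exists_quadratic v z hz
    rw [hv] at hq
    refine ⟨A, e, he, ?_, hq⟩
    intro hA
    obtain ⟨A₁, hA₁⟩ := (Polynomial.dvd_iff_isRoot (p := A) (a := p.c)).2 hA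
    have hv0 : v ≠ [] := by
      rintro rfl
      simp at hv
      omega
    obtain ⟨y, hy, hy2⟩ := p.exists_sq_ne_zero v hv0 hr
    obtain ⟨k', rfl⟩ : ∃ k', k = k' + 1 := ⟨k - 1, by omega⟩
    have hT : Polynomial.aeval (Tw.T ^ 2 : Tw F K) (Polynomial.X - Polynomial.C p.c) =
        Tw.T ^ 2 - algebraMap F (Tw F K) p.c := by
      rw [map_sub, Polynomial.aeval_X, Polynomial.aeval_C]
    have hcomm : (Tw.T ^ 2 - algebraMap F (Tw F K) p.c) * p.gam v =
        p.gam v * (Tw.T ^ 2 - algebraMap F (Tw F K) p.c) := by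
      rw [sub_mul, mul_sub, p.gam_comm_T2, Algebra.commutes]
    have hA2 : Polynomial.aeval (Tw.T ^ 2 : Tw F K) A * (algebraMap F (Tw F K) z * p.gam v) =
        Polynomial.aeval (Tw.T ^ 2 : Tw F K) A₁ * (algebraMap F (Tw F K) z * p.gam v) *
          (Tw.T ^ 2 - algebraMap F (Tw F K) p.c) := by
      rw [hA₁, mul_comm (Polynomial.X - Polynomial.C p.c) A₁, map_mul, hT, mul_assoc, mul_assoc]
      congr 1
      rw [mul_assoc, ← hcomm, ← mul_assoc, ← mul_assoc]
      congr 1
      exact (Algebra.commutes z _).symm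
    have hB : Polynomial.aeval (Tw.T ^ 2 : Tw F K)
        (Polynomial.C e * (Polynomial.X - Polynomial.C p.c) ^ (k' + 1)) =
        algebraMap F (Tw F K) e * (Tw.T ^ 2 - algebraMap F (Tw F K) p.c) ^ k' *
          (Tw.T ^ 2 - algebraMap F (Tw F K) p.c) := by
      rw [map_mul, Polynomial.aeval_C, map_pow, hT, pow_succ, mul_assoc]
    rw [LinearMap.mem_ker] at hy
    have h1 := congrArg (fun f => Tw.ev f y) hq
    simp only [map_add, map_sub, map_zero, LinearMap.add_apply, LinearMap.sub_apply,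
      LinearMap.zero_apply] at h1
    rw [hA2, hB, Tw.ev_mul _ (Tw.T ^ 2 - algebraMap F (Tw F K) p.c),
      Tw.ev_mul _ (Tw.T ^ 2 - algebraMap F (Tw F K) p.c), hy, map_zero, map_zero, sub_zero,
      add_zero] at h1
    apply hy2
    have h2 : (algebraMap F (Tw F K) z * p.gam v) ^ 2 = (z ^ 2) • (p.gam v ^ 2) := by
      rw [← Algebra.smul_def, smul_pow]
    rw [h2, map_smul, LinearMap.smul_apply] at h1
    exact (smul_eq_zero.1 h1).resolve_left (pow_ne_zero 2 hz)
  · show IsCyc (nu (Tw.T ^ 2 : Tw F K) p.d) n (p.Theta x)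
    rw [← hx]
    exact p.Theta_isCyc x
  · exact p.Cstar_le_Theta x
  · show (p.Theta x).map (Tw.ev (algebraMap F (Tw F K) z * p.gam v)) ≤ p.Theta x
    rintro _ ⟨y, hy, rfl⟩
    rw [Tw.ev_mul]
    have h1 : Tw.ev (p.gam v) y ∈ p.Theta x := by
      have h2 : Tw.ev (p.gam v) y ∈ (p.Theta x).map (Tw.ev (p.gam v)) := ⟨y, hy, rfl⟩
      rw [p.map_gam_Theta, ha] at h2
      exact h2
    rw [Tw.algebraMap_apply, Tw.ev_C, ← Algebra.smul_def]
    exact Submodule.smul_mem _ _ h1

theorem Nk_le_DStar (n k : ℕ) (hk : 0 < k) :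
    (Fintype.card F - 1) * p.Nk n k ≤ (DStar p n k).ncard := by
  classical
  have h1 : ({z : F | z ≠ 0} : Set F).ncard = Fintype.card F - 1 := by
    have : ({z : F | z ≠ 0} : Set F) = ({0} : Set F)ᶜ := by
      ext z
      simp
    rw [this, Set.ncard_compl, Set.ncard_singleton, Nat.card_eq_fintype_card]
  unfold Par.Nk
  rw [← h1, ← Set.ncard_prod]
  refine Set.ncard_le_ncard_of_injOn
    (fun o : F × (List p.St × List p.Lt) =>
      (algebraMap F (Tw F K) o.1 * p.gam o.2.1, p.Theta o.2.2)) ?_ ?_ (p.finite_DStar n k)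
  · rintro ⟨z, v, x⟩ ⟨hz, hv, hx, hr, ha⟩
    exact p.a5_mem_DStar n k hk z hz v x hv hx hr ha
  · rintro ⟨z, v, x⟩ ⟨hz, hv, hx, hr, ha⟩ ⟨z', v', x'⟩ ⟨hz', hv', hx', hr', ha'⟩ heq
    simp only [Prod.mk.injEq] at heq
    obtain ⟨e1, e2⟩ := heq
    have hxx : x = x' := p.Theta_injective e2
    have hzz : z⁻¹ * z' ≠ 0 := mul_ne_zero (inv_ne_zero hz) hz'
    have e3 : p.gam v = algebraMap F (Tw F K) (z⁻¹ * z') * p.gam v' := by
      rw [map_mul, mul_assoc, ← e1, ← mul_assoc, ← map_mul, inv_mul_cancel₀ hz, map_one, one_mul]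
    have hl : v.length = v'.length := by
      simp only at hv hv'
      rw [hv, hv']
    obtain ⟨e4, e5⟩ := p.gam_unique v v' (List.IsChain.left_of_append hr)
      (List.IsChain.left_of_append hr') hl _ hzz e3
    have e6 : z = z' := by
      have := congrArg (fun t => z * t) e5
      simp only [mul_one] at this
      rw [← mul_assoc, mul_inv_cancel₀ hz, one_mul] at this
      exact this.symm
    subst e4 e6 hxx
    rfl

end Pool.Agent.H9.Ram.Par
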