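import Pool.Agent.H9.Ram.Defs

/-!
# Module B0: definitions for the point counting part

`K` algebraically closed over `F`, `M` a Galois extension of `RatFunc K = K(x)`. Small sorries: basic facts needed in the
definitions.
-/

open Polynomial

noncomputable section

namespace Pool.Agent.H9.Ram

section shift
variable {K : Type*} [Field K]

/-- `K[x] → K((s))`, `x ↦ x₀ + s`. -/
def shiftP (x0 : K) : K[X] →+* LaurentSeries K :=
  Polynomial.eval₂RingHom (HahnSeries.C : K →+* LaurentSeries K)
    (HahnSeries.C x0 + HahnSeries.single (1 : ℤ) (1 : K))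

theorem b0_shiftP_eq (x0 : K) : shiftP x0 =
    ((HahnSeries.ofPowerSeries ℤ K).comp Polynomial.coeToPowerSeries.ringHom).comp
      (Polynomial.compRingHom (X + C x0)) := by
  refine Polynomial.ringHom_ext (fun a => ?_) ?_
  · simp [shiftP]
  · simp [shiftP, add_comm]

theorem shiftP_injective (x0 : K) : Function.Injective (shiftP x0) := by
  rw [b0_shiftP_eq]
  intro f g hfg
  simp only [RingHom.comp_apply, Polynomial.coeToPowerSeries.ringHom_apply,
    Polynomial.coe_compRingHom] at hfg
  have h1 := HahnSeries.ofPowerSeries_injective hfg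
  have h2 := Polynomial.coe_injective K h1
  exact Polynomial.taylor_injective x0 (by simpa [Polynomial.taylor_apply] using h2)

/-- `K(x) → K((s))`, `x ↦ x₀ + s`. -/
def shift (x0 : K) : RatFunc K →+* LaurentSeries K :=
  RatFunc.liftRingHom (shiftP x0)
    (nonZeroDivisors_le_comap_nonZeroDivisors_of_injective _ (shiftP_injective x0))

theorem shift_algebraMap (x0 : K) (f : K[X]) :
    shift x0 (algebraMap K[X] (RatFunc K) f) = shiftP x0 f :=
  RatFunc.liftRingHom_algebraMap _ _ _

theorem shift_X (x0 : K) :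
    shift x0 RatFunc.X = HahnSeries.C x0 + HahnSeries.single (1 : ℤ) (1 : K) := by
  rw [← RatFunc.algebraMap_X, shift_algebraMap]
  simp [shiftP]

theorem shift_C (x0 a : K) : shift x0 (RatFunc.C a) = HahnSeries.C a := by
  rw [← RatFunc.algebraMap_C, shift_algebraMap]
  simp [shiftP]

/-- `u = 1 / (x - 1)`. -/
def uu (K : Type*) [Field K] : RatFunc K := (RatFunc.X - 1)⁻¹

/-- `K[X] → K(x)`, `X ↦ u`. -/
def uHom (K : Type*) [Field K] : K[X] →+* RatFunc K :=
  Polynomial.eval₂RingHom (RatFunc.C : K →+* RatFunc K) (uu K)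

end shift

section frob
variable (F : Type*) {K : Type*} [Field F] [Fintype F] [Field K] [Algebra F K]

/-- The `q^k`-Frobenius on coefficients of Laurent series. -/
def frL (k : ℕ) : LaurentSeries K →+* LaurentSeries K where
  toFun f := f.map (fr F k : K →ₐ[F] K)
  map_one' := by
    ext i
    rw [HahnSeries.map_coeff, HahnSeries.coeff_one]
    split_ifs
    · exact map_one _
    · exact map_zero _
  map_zero' := by
    ext i
    rw [HahnSeries.map_coeff, HahnSeries.coeff_zero, map_zero]
  map_add' := by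
    intro f g
    ext i
    rw [HahnSeries.map_coeff, HahnSeries.coeff_add, HahnSeries.coeff_add, HahnSeries.map_coeff,
      HahnSeries.map_coeff, map_add]
  map_mul' := by
    intro f g
    exact HahnSeries.map_mul (((fr F k : K →ₐ[F] K) : K →+* K) : K →ₙ+* K)

theorem coeff_frL (k : ℕ) (f : LaurentSeries K) (i : ℤ) :
    (frL F k f).coeff i = (f.coeff i) ^ (Fintype.card F ^ k) :=
  fr_apply k (f.coeff i)

/-- The `q^k`-Frobenius on coefficients of polynomials. -/
def frP (k : ℕ) : K[X] →+* K[X] := Polynomial.mapRingHom ((fr F k : K →ₐ[F] K) : K →+* K)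

theorem frP_injective (k : ℕ) : Function.Injective (frP F k : K[X] →+* K[X]) :=
  Polynomial.map_injective _ (RingHom.injective _)

/-- The `q^k`-Frobenius on coefficients of rational functions (`x ↦ x`). -/
def frR (k : ℕ) : RatFunc K →+* RatFunc K :=
  RatFunc.mapRingHom (frP F k)
    (nonZeroDivisors_le_comap_nonZeroDivisors_of_injective _ (frP_injective F k))

theorem b0_frR_algebraMap (k : ℕ) (f : K[X]) :
    frR F k (algebraMap K[X] (RatFunc K) f) = algebraMap K[X] (RatFunc K) (frP F k f) := by
  have h := RatFunc.map_apply_div_ne_zero (frP F k : K[X] →+* K[X])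
    (nonZeroDivisors_le_comap_nonZeroDivisors_of_injective _ (frP_injective F k)) f 1 one_ne_zero
  rw [map_one, map_one, map_one, div_one, div_one] at h
  exact h

theorem frR_X (k : ℕ) : frR F k (RatFunc.X : RatFunc K) = RatFunc.X := by
  rw [← RatFunc.algebraMap_X, b0_frR_algebraMap]
  congr 1
  simp [frP]

theorem frR_C (k : ℕ) (a : K) : frR F k (RatFunc.C a) = RatFunc.C (a ^ (Fintype.card F ^ k)) := by
  rw [← RatFunc.algebraMap_C, b0_frR_algebraMap, ← RatFunc.algebraMap_C]
  congr 1
  have h : frP F k (C a) = C ((fr F k : K →ₐ[F] K) a) := by simp [frP]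
  rw [h, fr_apply]

theorem b0_frL_C (k : ℕ) (a : K) :
    frL F k (HahnSeries.C a) = HahnSeries.C (a ^ (Fintype.card F ^ k)) := by
  have hne : Fintype.card F ^ k ≠ 0 := pow_ne_zero _ Fintype.card_ne_zero
  ext i
  rw [coeff_frL, HahnSeries.C_apply, HahnSeries.C_apply, HahnSeries.coeff_single,
    HahnSeries.coeff_single]
  split_ifs
  · rfl
  · exact zero_pow hne

theorem b0_frL_single (k : ℕ) :
    frL F k (HahnSeries.single (1 : ℤ) (1 : K)) = HahnSeries.single (1 : ℤ) (1 : K) := by
  have hne : Fintype.card F ^ k ≠ 0 := pow_ne_zero _ Fintype.card_ne_zero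
  ext i
  rw [coeff_frL, HahnSeries.coeff_single]
  split_ifs
  · exact one_pow _
  · exact zero_pow hne

/-- Compatibility of the Frobenius maps. -/
theorem frL_shift (k : ℕ) (x0 : K) (r : RatFunc K) :
    frL F k (shift x0 r) = shift (x0 ^ (Fintype.card F ^ k)) (frR F k r) := by
  have h : ((frL F k : LaurentSeries K →+* LaurentSeries K).comp (shift x0)) =
      (shift (x0 ^ (Fintype.card F ^ k))).comp (frR F k) := by
    refine IsLocalization.ringHom_ext (nonZeroDivisors K[X]) ?_
    refine Polynomial.ringHom_ext (fun a => ?_) ?_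
    · simp only [RingHom.comp_apply, RatFunc.algebraMap_C, shift_C, frR_C, b0_frL_C]
    · simp only [RingHom.comp_apply, RatFunc.algebraMap_X, shift_X, frR_X, map_add, b0_frL_C,
        b0_frL_single]
  exact RingHom.congr_fun h r

end frob

section emb
variable {K : Type*} [Field K] (M : Type*) [Field M] [Algebra (RatFunc K) M]

/-- Embeddings of `M` in `K((s))` over `x₀`. -/
def Emb (x0 : K) : Set (M →+* LaurentSeries K) :=
  {ε | ∀ r : RatFunc K, ε (algebraMap (RatFunc K) M r) = shift x0 r}

end emb

section data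
variable (F K : Type*) {M : Type*} [Field F] [Fintype F] [Field K] [Algebra F K] [Field M]
  [Algebra (RatFunc K) M]

/-- The hypotheses of the point counting theorem: a lift `φ` of Frobenius, and `M` is unramified (split in Laurent series)
over every `x₀ ≠ 0`. -/
structure FrData (φ : M ≃+* M) : Prop where
  hφ : ∀ r : RatFunc K, φ (algebraMap (RatFunc K) M r) = algebraMap (RatFunc K) M (frR F 1 r)
  emb : ∀ x0 : K, x0 ≠ 0 → (Emb M x0).Nonempty

variable {K} in
/-- The points counted by `N_σ(k)`. -/
def Cnt (φ : M ≃+* M) (σ : M ≃ₐ[RatFunc K] M) (k : ℕ) : Set (K × (M →+* LaurentSeries K)) :=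
  {z | z.1 ≠ 0 ∧ z.1 ^ (Fintype.card F ^ k) = z.1 ∧ z.2 ∈ Emb M z.1 ∧
    ∀ y : M, frL F k (z.2 y) = z.2 (σ ((φ ^ k) y))}

/-- `h` is integral over `K[u]`. -/
def IntU (h : M) : Prop := ((algebraMap (RatFunc K) M).comp (uHom K)).IsIntegralElem h

end data

end Pool.Agent.H9.Ram
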