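import Pool.Agent.H9.Ram.B0

/-!
# Module B1: embeddings over a point

* Two elements `ε, ε'` of `Emb M x₀` differ by a unique `σ ∈ G = Gal(M / K(x))`: `M` is a normal extension of `K(x)`, so both
  embeddings (regard `K((s))` as a `K(x)`-algebra through `shift x₀`; e.g. `RingHom.toAlgebra`) have the same image, and
  `σ = ε⁻¹ ε'`. Uniqueness: `ε` is injective. So `#Emb M x₀ = |G|` if it is nonempty.
* `(φ^k)` restricted to `K(x)` is `frR F k`. For `ε ∈ Emb M x₀`, the map `y ↦ frL k (ε ((φ^k)⁻¹ y))` is in `Emb M (x₀^(q^k))`: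
  on `r ∈ K(x)`, `r = frR k r'` (`frR k` is bijective as `K` is perfect), `(φ^k)⁻¹ r = r'`, `frL k (shift x₀ r') =
  shift (x₀^(q^k)) (frR k r')` (`frL_shift`). So if `x₀^(q^k) = x₀` there is a unique `σ` with
  `frL k (ε y) = ε (σ (φ^k y))` for all `y`. Summing over the `q^k - 1` values of `x₀` and the `|G|` embeddings:
  `∑_σ #Cnt σ k = |G| (q^k - 1)`.
-/

open Polynomial

noncomputable section

namespace Pool.Agent.H9.Ram

variable {F K M : Type*} [Field F] [Fintype F] [Field K] [Algebra F K] [IsAlgClosed K] [Field M]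
  [Algebra (RatFunc K) M] [FiniteDimensional (RatFunc K) M] [IsGalois (RatFunc K) M]

omit [FiniteDimensional (RatFunc K) M] [IsGalois (RatFunc K) M] [IsAlgClosed K] in
theorem Emb.comp {x0 : K} {ε : M →+* LaurentSeries K} (h : ε ∈ Emb M x0)
    (σ : M ≃ₐ[RatFunc K] M) : ε.comp (σ : M →+* M) ∈ Emb M x0 := by
  intro r
  show ε (σ (algebraMap (RatFunc K) M r)) = _
  rw [AlgEquiv.commutes]
  exact h r

theorem b1_exists_aut {k Ω N : Type*} [Field k] [Field Ω] [Field N] [Algebra k N] [Normal k N]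
    (i : k →+* Ω) (ε ε' : N →+* Ω) (h : ∀ r, ε (algebraMap k N r) = i r)
    (h' : ∀ r, ε' (algebraMap k N r) = i r) : ∃ σ : N ≃ₐ[k] N, ∀ y, ε' y = ε (σ y) := by
  let : Algebra k Ω := i.toAlgebra
  let : Algebra N Ω := ε.toAlgebra
  have : IsScalarTower k N Ω := IsScalarTower.of_algebraMap_eq (fun r => (h r).symm)
  let ϕ : N →ₐ[k] Ω := { ε' with commutes' := h' }
  refine ⟨ϕ.restrictNormal' N, fun y => ?_⟩
  have h1 : algebraMap N Ω (ϕ.restrictNormal N y) = ϕ (algebraMap N N y) :=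
    ϕ.restrictNormal_commutes N y
  exact h1.symm

theorem Emb.exists_aut {x0 : K} {ε ε' : M →+* LaurentSeries K} (h : ε ∈ Emb M x0)
    (h' : ε' ∈ Emb M x0) : ∃ σ : M ≃ₐ[RatFunc K] M, ∀ y, ε' y = ε (σ y) :=
  b1_exists_aut (shift x0) ε ε' h h'

theorem Emb.aut_unique {x0 : K} {ε : M →+* LaurentSeries K} (h : ε ∈ Emb M x0)
    (σ σ' : M ≃ₐ[RatFunc K] M) (hσ : ∀ y, ε (σ y) = ε (σ' y)) : σ = σ' := by
  ext y
  exact ε.injective (hσ y)

theorem b1_emb_eq_range {x0 : K} {ε : M →+* LaurentSeries K} (h : ε ∈ Emb M x0) :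
    Emb M x0 = Set.range (fun σ : M ≃ₐ[RatFunc K] M => ε.comp (σ : M →+* M)) := by
  ext ε'
  constructor
  · intro h'
    obtain ⟨σ, hσ⟩ := Emb.exists_aut h h'
    refine ⟨σ, ?_⟩
    ext y : 1
    exact (hσ y).symm
  · rintro ⟨σ, rfl⟩
    exact Emb.comp h σ

theorem Emb.finite (x0 : K) : (Emb M x0).Finite := by
  rcases Set.eq_empty_or_nonempty (Emb M x0) with h | ⟨ε, h⟩
  · rw [h]; exact Set.finite_empty
  · rw [b1_emb_eq_range h]
    exact Set.finite_range _

theorem Emb.ncard {x0 : K} (h : (Emb M x0).Nonempty) :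
    (Emb M x0).ncard = Fintype.card (M ≃ₐ[RatFunc K] M) := by
  obtain ⟨ε, h⟩ := h
  rw [b1_emb_eq_range h, Set.ncard_range_of_injective, Nat.card_eq_fintype_card]
  intro σ σ' hσ
  exact Emb.aut_unique h σ σ' (fun y => RingHom.congr_fun hσ y)

omit [IsAlgClosed K] in
theorem b1_ringHom_ext {L : Type*} [Field L] {f g : RatFunc K →+* L}
    (hC : ∀ a, f (RatFunc.C a) = g (RatFunc.C a)) (hX : f RatFunc.X = g RatFunc.X) : f = g := by
  apply IsLocalization.ringHom_ext (nonZeroDivisors K[X])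
  apply Polynomial.ringHom_ext
  · intro a
    simp only [RingHom.comp_apply, RatFunc.algebraMap_C]
    exact hC a
  · simp only [RingHom.comp_apply, RatFunc.algebraMap_X]
    exact hX

omit [IsAlgClosed K] in
theorem b1_frR_zero : (frR F 0 : RatFunc K →+* RatFunc K) = RingHom.id _ := by
  apply b1_ringHom_ext
  · intro a
    rw [frR_C]
    simp
  · rw [frR_X]
    simp

omit [IsAlgClosed K] in
theorem b1_frR_succ (k : ℕ) :
    (frR F (k + 1) : RatFunc K →+* RatFunc K) = (frR F 1).comp (frR F k) := by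
  apply b1_ringHom_ext
  · intro a
    rw [RingHom.comp_apply, frR_C, frR_C, frR_C, ← pow_mul, pow_one, pow_succ]
  · rw [RingHom.comp_apply, frR_X, frR_X, frR_X]

theorem pow_hφ {φ : M ≃+* M} (hD : FrData F K φ) (k : ℕ) (r : RatFunc K) :
    (φ ^ k) (algebraMap (RatFunc K) M r) = algebraMap (RatFunc K) M (frR F k r) := by
  induction k with
  | zero => rw [b1_frR_zero]; simp
  | succ k ih =>
    rw [pow_succ', RingAut.mul_apply, ih, hD.hφ, b1_frR_succ k, RingHom.comp_apply]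

theorem b1_pow_surjective (k : ℕ) :
    Function.Surjective (fun a : K => a ^ (Fintype.card F ^ k)) := by
  intro a
  have h : 0 < Fintype.card F ^ k := pow_pos Fintype.card_pos _
  obtain ⟨z, hz⟩ := IsAlgClosed.exists_pow_nat_eq a h
  exact ⟨z, hz⟩

theorem frR_bijective (k : ℕ) : Function.Bijective (frR F k : RatFunc K →+* RatFunc K) := by
  refine ⟨(frR F k : RatFunc K →+* RatFunc K).injective, ?_⟩
  have hfr : Function.Surjective ((fr F k : K →ₐ[F] K) : K →+* K) := by
    intro a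
    obtain ⟨b, hb⟩ := b1_pow_surjective (F := F) k a
    refine ⟨b, ?_⟩
    show fr F k b = a
    rw [fr_apply]
    exact hb
  have hP : Function.Surjective (frP F k : K[X] →+* K[X]) := by
    intro p
    exact Polynomial.map_surjective _ hfr p
  have hcomp : (frR F k : RatFunc K →+* RatFunc K).comp (algebraMap K[X] (RatFunc K)) =
      (algebraMap K[X] (RatFunc K)).comp (frP F k) := by
    apply Polynomial.ringHom_ext
    · intro a
      simp only [RingHom.comp_apply, RatFunc.algebraMap_C]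
      rw [frR_C]
      have : (frP F k : K[X] →+* K[X]) (Polynomial.C a) =
          Polynomial.C (a ^ (Fintype.card F ^ k)) := by
        simp only [frP, Polynomial.coe_mapRingHom, Polynomial.map_C]
        congr 1
        exact fr_apply k a
      rw [this, RatFunc.algebraMap_C]
    · simp only [RingHom.comp_apply, RatFunc.algebraMap_X]
      rw [frR_X]
      have : (frP F k : K[X] →+* K[X]) X = X := by
        simp [frP]
      rw [this, RatFunc.algebraMap_X]
  have hpoly : ∀ p : K[X], ∃ r : RatFunc K, frR F k r = algebraMap K[X] (RatFunc K) p := by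
    intro p
    obtain ⟨p', hp'⟩ := hP p
    refine ⟨algebraMap K[X] (RatFunc K) p', ?_⟩
    have := RingHom.congr_fun hcomp p'
    simp only [RingHom.comp_apply] at this
    rw [this, hp']
  intro r
  obtain ⟨a, b, -, rfl⟩ := IsFractionRing.div_surjective K[X] r
  obtain ⟨ra, hra⟩ := hpoly a
  obtain ⟨rb, hrb⟩ := hpoly b
  exact ⟨ra / rb, by rw [map_div₀, hra, hrb]⟩

theorem frL_bijective (k : ℕ) : Function.Bijective (frL F k : LaurentSeries K →+* LaurentSeries K) := by
  refine ⟨(frL F k : LaurentSeries K →+* LaurentSeries K).injective, ?_⟩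
  have hfr : Function.Bijective ((fr F k : K →ₐ[F] K) : K →+* K) := by
    refine ⟨RingHom.injective _, ?_⟩
    intro a
    obtain ⟨b, hb⟩ := b1_pow_surjective (F := F) k a
    refine ⟨b, ?_⟩
    show fr F k b = a
    rw [fr_apply]
    exact hb
  let e : K ≃+* K := RingEquiv.ofBijective _ hfr
  have he : ∀ a, (e.symm a) ^ (Fintype.card F ^ k) = a := by
    intro a
    have h1 : e (e.symm a) = a := e.apply_symm_apply a
    have h2 : e (e.symm a) = fr F k (e.symm a) := rfl
    rw [h2, fr_apply] at h1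
    exact h1
  intro f
  refine ⟨f.map (e.symm : K →+* K), ?_⟩
  ext i
  rw [coeff_frL, HahnSeries.map_coeff]
  exact he (f.coeff i)

omit [IsAlgClosed K] in
theorem order_frL (k : ℕ) (f : LaurentSeries K) : (frL F k f).order = f.order := by
  by_cases hf : f = 0
  · rw [hf, map_zero]
  · have hf' : (frL F k f : LaurentSeries K) ≠ 0 := by
      intro h
      exact hf ((map_eq_zero _).1 h)
    have hq : Fintype.card F ^ k ≠ 0 := pow_ne_zero _ Fintype.card_ne_zero
    apply le_antisymm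
    · apply HahnSeries.order_le_of_coeff_ne_zero
      rw [coeff_frL]
      apply pow_ne_zero
      rw [Ne, HahnSeries.coeff_order_eq_zero]
      exact hf
    · apply HahnSeries.order_le_of_coeff_ne_zero
      have h1 : (frL F k f).coeff (frL F k f).order ≠ 0 := by
        rw [Ne, HahnSeries.coeff_order_eq_zero]
        exact hf'
      rw [coeff_frL] at h1
      intro h2
      rw [h2, zero_pow hq] at h1
      exact h1 rfl

/-- Frobenius transport of embeddings. -/
theorem Emb.frob {φ : M ≃+* M} (hD : FrData F K φ) {x0 : K} {ε : M →+* LaurentSeries K}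
    (h : ε ∈ Emb M x0) (k : ℕ) :
    ∃ ε' ∈ Emb M (x0 ^ (Fintype.card F ^ k)), ∀ y : M, frL F k (ε y) = ε' ((φ ^ k) y) := by
  refine ⟨(frL F k).comp (ε.comp ((φ ^ k).symm : M →+* M)), ?_, ?_⟩
  · intro r
    obtain ⟨r', hr'⟩ := (frR_bijective (F := F) (K := K) k).2 r
    have h1 : (φ ^ k).symm (algebraMap (RatFunc K) M r) = algebraMap (RatFunc K) M r' := by
      rw [RingEquiv.symm_apply_eq, pow_hφ hD k r', hr']
    show frL F k (ε ((φ ^ k).symm (algebraMap (RatFunc K) M r))) = _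
    rw [h1, h r', frL_shift, hr']
  · intro y
    show frL F k (ε y) = frL F k (ε ((φ ^ k).symm ((φ ^ k) y)))
    rw [RingEquiv.symm_apply_apply]

/-- The nonzero fixed points. -/
def b1_S (F K : Type*) [Field F] [Fintype F] [Field K] (k : ℕ) : Set K :=
  {x | x ≠ 0 ∧ x ^ (Fintype.card F ^ k) = x}

open Classical in
omit [IsAlgClosed K] [Algebra F K] in
theorem b1_fix_eq {k : ℕ} (hk : 0 < k) :
    {x : K | x ^ (Fintype.card F ^ k) = x} =
      ((X ^ (Fintype.card F ^ k) - X : K[X]).roots.toFinset : Set K) := by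
  have hq : 1 < Fintype.card F := Fintype.one_lt_card
  have hne : (X ^ (Fintype.card F ^ k) - X : K[X]) ≠ 0 :=
    FiniteField.X_pow_card_pow_sub_X_ne_zero K hk.ne' hq
  ext x
  simp only [Set.mem_ofPred_eq, Finset.mem_coe, Multiset.mem_toFinset]
  rw [Polynomial.mem_roots hne, Polynomial.IsRoot.def, eval_sub, eval_pow, eval_X, sub_eq_zero]

open Classical in
theorem b1_ncard_fix {k : ℕ} (hk : 0 < k) :
    {x : K | x ^ (Fintype.card F ^ k) = x}.ncard = Fintype.card F ^ k := by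
  have hq : 1 < Fintype.card F := Fintype.one_lt_card
  obtain ⟨p, hp⟩ := CharP.exists F
  have : CharP K p := charP_of_injective_algebraMap (algebraMap F K).injective p
  obtain ⟨n, hpp, hn⟩ := FiniteField.card F p
  have hdvd : p ∣ Fintype.card F ^ k := by
    rw [hn]
    exact dvd_pow (dvd_pow_self p (by exact n.ne_zero)) hk.ne'
  have hsep : Separable (X ^ (Fintype.card F ^ k) - X : K[X]) :=
    galois_poly_separable p _ hdvd
  rw [b1_fix_eq hk, Set.ncard_coe_finset, Multiset.toFinset_card_of_nodup (nodup_roots hsep),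
    ← (IsAlgClosed.splits _).natDegree_eq_card_roots,
    FiniteField.X_pow_card_pow_sub_X_natDegree_eq K hk.ne' hq]

omit [IsAlgClosed K] [Algebra F K] in
theorem b1_S_finite {k : ℕ} (hk : 0 < k) : (b1_S F K k).Finite := by
  apply Set.Finite.subset (s := {x : K | x ^ (Fintype.card F ^ k) = x})
  · rw [b1_fix_eq hk]
    exact Finset.finite_toSet _
  · intro x hx
    exact hx.2

theorem b1_S_ncard {k : ℕ} (hk : 0 < k) : (b1_S F K k).ncard = Fintype.card F ^ k - 1 := by
  have h1 : b1_S F K k = {x : K | x ^ (Fintype.card F ^ k) = x} \ {0} := by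
    ext x
    simp only [b1_S, Set.mem_ofPred_eq, Set.mem_sdiff, Set.mem_singleton_iff]
    tauto
  rw [h1, Set.ncard_sdiff_singleton_of_mem, b1_ncard_fix hk]
  show (0 : K) ^ (Fintype.card F ^ k) = 0
  exact zero_pow (pow_ne_zero _ Fintype.card_ne_zero)

/-- All pairs of a fixed point and an embedding over it. -/
def b1_T (F K M : Type*) [Field F] [Fintype F] [Field K] [Field M] [Algebra (RatFunc K) M]
    (k : ℕ) : Set (K × (M →+* LaurentSeries K)) :=
  ⋃ x ∈ b1_S F K k, (fun ε => (x, ε)) '' Emb M x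

omit [IsAlgClosed K] [FiniteDimensional (RatFunc K) M] [IsGalois (RatFunc K) M] in
theorem b1_mem_T {k : ℕ} (z : K × (M →+* LaurentSeries K)) :
    z ∈ b1_T F K M k ↔ z.1 ≠ 0 ∧ z.1 ^ (Fintype.card F ^ k) = z.1 ∧ z.2 ∈ Emb M z.1 := by
  obtain ⟨x, ε⟩ := z
  simp only [b1_T, Set.mem_iUnion, Set.mem_image, Prod.mk.injEq, exists_prop]
  constructor
  · rintro ⟨x', hx', ε', hε', rfl, rfl⟩
    exact ⟨hx'.1, hx'.2, hε'⟩
  · rintro ⟨h1, h2, h3⟩
    exact ⟨x, ⟨h1, h2⟩, ε, h3, rfl, rfl⟩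

theorem b1_T_finite {k : ℕ} (hk : 0 < k) : (b1_T F K M k).Finite := by
  apply Set.Finite.biUnion (b1_S_finite hk)
  intro x _
  exact (Emb.finite x).image _

theorem b1_T_ncard {φ : M ≃+* M} (hD : FrData F K φ) {k : ℕ} (hk : 0 < k) :
    (b1_T F K M k).ncard = Fintype.card (M ≃ₐ[RatFunc K] M) * (Fintype.card F ^ k - 1) := by
  rw [b1_T, (b1_S_finite hk).ncard_biUnion (fun x _ => (Emb.finite x).image _)]
  · have h1 : ∀ x ∈ b1_S F K k, ((fun ε : M →+* LaurentSeries K => (x, ε)) '' Emb M x).ncard =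
        Fintype.card (M ≃ₐ[RatFunc K] M) := by
      intro x hx
      rw [Set.ncard_image_of_injective _ (fun a b hab => (Prod.mk.inj hab).2)]
      exact Emb.ncard (hD.emb x hx.1)
    rw [finsum_mem_congr rfl h1, finsum_mem_eq_finite_toFinset_sum _ (b1_S_finite hk),
      Finset.sum_const, smul_eq_mul, ← Set.ncard_eq_toFinset_card _ (b1_S_finite hk),
      b1_S_ncard hk, mul_comm]
  · intro x _ y _ hxy
    rw [Function.onFun, Set.disjoint_left]
    rintro _ ⟨ε, _, rfl⟩ ⟨ε', _, h⟩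
    exact hxy (Prod.mk.inj h).1.symm

omit [IsAlgClosed K] [FiniteDimensional (RatFunc K) M] [IsGalois (RatFunc K) M] in
theorem b1_Cnt_subset {φ : M ≃+* M} (σ : M ≃ₐ[RatFunc K] M) (k : ℕ) :
    Cnt F φ σ k ⊆ b1_T F K M k := by
  intro z hz
  rw [b1_mem_T]
  exact ⟨hz.1, hz.2.1, hz.2.2.1⟩

theorem finite_Cnt {φ : M ≃+* M} (σ : M ≃ₐ[RatFunc K] M) {k : ℕ} (hk : 0 < k) :
    (Cnt F φ σ k).Finite :=
  (b1_T_finite hk).subset (b1_Cnt_subset σ k)

theorem sum_Cnt {φ : M ≃+* M} (hD : FrData F K φ) {k : ℕ} (hk : 0 < k) :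
    ∑ σ : M ≃ₐ[RatFunc K] M, (Cnt F φ σ k).ncard =
      Fintype.card (M ≃ₐ[RatFunc K] M) * (Fintype.card F ^ k - 1) := by
  have h1 : (⋃ σ : M ≃ₐ[RatFunc K] M, Cnt F φ σ k) = b1_T F K M k := by
    ext z
    rw [Set.mem_iUnion]
    constructor
    · rintro ⟨σ, hσ⟩
      exact b1_Cnt_subset σ k hσ
    · intro hz
      rw [b1_mem_T] at hz
      obtain ⟨h0, hfix, hemb⟩ := hz
      obtain ⟨ε', hε', heq⟩ := Emb.frob hD hemb k
      rw [hfix] at hε'
      obtain ⟨σ, hσ⟩ := Emb.exists_aut hemb hε'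
      exact ⟨σ, h0, hfix, hemb, fun y => by rw [heq, hσ]⟩
  have h2 : (⋃ σ : M ≃ₐ[RatFunc K] M, Cnt F φ σ k).ncard =
      ∑ᶠ σ : M ≃ₐ[RatFunc K] M, (Cnt F φ σ k).ncard := by
    apply Set.ncard_iUnion_of_finite (fun σ => finite_Cnt σ hk)
    intro σ σ' hne
    rw [Function.onFun, Set.disjoint_left]
    intro z hz hz'
    apply hne
    apply Emb.aut_unique hz.2.2.1 σ σ'
    intro y
    have h3 := hz.2.2.2 ((φ ^ k).symm y)
    have h4 := hz'.2.2.2 ((φ ^ k).symm y)
    rw [RingEquiv.apply_symm_apply] at h3 h4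
    rw [← h3, ← h4]
  rw [finsum_eq_sum_of_fintype] at h2
  rw [← h2, h1, b1_T_ncard hD hk]

/-- The trivial bound. -/
theorem Cnt_le_trivial {φ : M ≃+* M} (hD : FrData F K φ) (σ : M ≃ₐ[RatFunc K] M) {k : ℕ}
    (hk : 0 < k) : (Cnt F φ σ k).ncard ≤ Fintype.card (M ≃ₐ[RatFunc K] M) * Fintype.card F ^ k := by
  calc (Cnt F φ σ k).ncard ≤ (b1_T F K M k).ncard :=
        Set.ncard_le_ncard (b1_Cnt_subset σ k) (b1_T_finite hk)
    _ = Fintype.card (M ≃ₐ[RatFunc K] M) * (Fintype.card F ^ k - 1) := b1_T_ncard hD hk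
    _ ≤ _ := Nat.mul_le_mul_left _ (Nat.sub_le _ _)

end Pool.Agent.H9.Ram
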