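import Pool.Agent.H9.Ram.B1

/-!
# Module B2: integral elements, norms and orders

`u = 1/(x - 1)`. `IntU h`: `h ∈ M` integral over `K[u]`.
* closure properties: sums, products, constants, `σ ∈ G`, `φ` (since `φ u = u`, apply `φ` to the integral equation; the
  coefficients change by Frobenius).
* `x₀ ≠ 1`, `ε ∈ Emb M x₀`: `shift x₀ u = 1/(x₀ - 1 + s) ∈ K⟦s⟧`, and `K⟦s⟧` is integrally closed in `K((s))` (it is a DVR /
  unique factorization domain with fraction field `K((s))`), so `ε h ∈ K⟦s⟧`: the coefficients of negative index vanish.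
* `shift 1 u = s⁻¹`, so for `0 ≠ R ∈ K[X]`: `shift 1 (uHom R) = R(s⁻¹)` has order `- natDegree R`. For `x₀ ≠ 1`:
  `shift x₀ (uHom R) = R(1/(x₀-1+s))` has order the multiplicity of the root `u₀ = (x₀-1)⁻¹` of `R`: write
  `R = (X - u₀)^m R₁`, `R₁(u₀) ≠ 0`, and `1/(x₀-1+s) - u₀` has order one.
* norm: `∏_σ σ h ∈ K(x)` (Galois), is integral over `K[u]`; `K[u] ≅ K[X]` is integrally closed and `K(x)` is its field of
  fractions (`x = 1 + 1/u`; the map `K[X] → K(x)`, `X ↦ u`, induces an isomorphism of `RatFunc K` with itself), so the norm is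
  `uHom R`, `R ≠ 0` if `h ≠ 0`. `∑_σ order (ε (σ h)) = order (ε (norm)) = order (shift x₀ (uHom R))`.
-/

open Polynomial

noncomputable section

namespace Pool.Agent.H9.Ram

/-! ### Auxiliary facts on `shift` and `uHom` -/

section b2aux

variable {K : Type*} [Field K]

theorem b2_uHom_C (a : K) : uHom K (Polynomial.C a) = RatFunc.C a := by
  simp [uHom]

theorem b2_uHom_X : uHom K Polynomial.X = uu K := by
  simp [uHom]

/-- The denominator of `shift x₀ u`. -/
theorem b2_shift_X_sub_one (x0 : K) :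
    shift x0 (RatFunc.X - 1) =
      HahnSeries.ofPowerSeries ℤ K (PowerSeries.C (x0 - 1) + PowerSeries.X) := by
  have h1 : (HahnSeries.C (x0 - 1) : LaurentSeries K) = HahnSeries.C x0 - 1 := by
    rw [RingHom.map_sub, RingHom.map_one]
  rw [RingHom.map_sub, shift_X, RingHom.map_one, RingHom.map_add, HahnSeries.ofPowerSeries_C,
    HahnSeries.ofPowerSeries_X, h1]
  ring

theorem b2_shift_uu_one : shift (1 : K) (uu K) = HahnSeries.single (-1 : ℤ) (1 : K) := by
  rw [uu, map_inv₀, b2_shift_X_sub_one, sub_self, map_zero, zero_add,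
    HahnSeries.ofPowerSeries_X]
  rw [HahnSeries.inv_single]
  simp

/-- `(x₀ - 1 + s)⁻¹` as a power series. -/
def b2inv (x0 : K) : PowerSeries K := (PowerSeries.C (x0 - 1) + PowerSeries.X)⁻¹

theorem b2_shift_uu (x0 : K) (hx : x0 ≠ 1) :
    shift x0 (uu K) = HahnSeries.ofPowerSeries ℤ K (b2inv x0) := by
  have h1 : PowerSeries.constantCoeff (PowerSeries.C (x0 - 1) + PowerSeries.X : PowerSeries K)
      ≠ 0 := by
    simpa [sub_eq_zero] using hx
  rw [uu, map_inv₀, b2_shift_X_sub_one]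
  refine inv_eq_of_mul_eq_one_right ?_
  rw [← map_mul, b2inv, PowerSeries.mul_inv_cancel _ h1, map_one]

/-- `K[X] → K⟦s⟧`, `X ↦ (x₀ - 1 + s)⁻¹`. -/
def b2P (x0 : K) : K[X] →+* PowerSeries K :=
  Polynomial.eval₂RingHom (PowerSeries.C : K →+* PowerSeries K) (b2inv x0)

theorem b2_shift_comp (x0 : K) (hx : x0 ≠ 1) :
    (shift x0).comp (uHom K) = (HahnSeries.ofPowerSeries ℤ K).comp (b2P x0) := by
  refine Polynomial.ringHom_ext (fun a => ?_) ?_
  · simp only [RingHom.comp_apply, b2_uHom_C, shift_C, b2P, Polynomial.coe_eval₂RingHom,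
      Polynomial.eval₂_C, HahnSeries.ofPowerSeries_C]
  · simp only [RingHom.comp_apply, b2_uHom_X, b2_shift_uu x0 hx, b2P,
      Polynomial.coe_eval₂RingHom, Polynomial.eval₂_X]

theorem b2_shift_one_comp (R : K[X]) :
    shift (1 : K) (uHom K R) =
      Polynomial.eval₂ (HahnSeries.C : K →+* LaurentSeries K) (HahnSeries.single (-1 : ℤ) (1 : K)) R := by
  have h : (shift (1 : K)).comp (uHom K) =
      Polynomial.eval₂RingHom (HahnSeries.C : K →+* LaurentSeries K)
        (HahnSeries.single (-1 : ℤ) (1 : K)) := by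
    refine Polynomial.ringHom_ext (fun a => ?_) ?_
    · simp only [RingHom.comp_apply, b2_uHom_C, shift_C, Polynomial.coe_eval₂RingHom,
        Polynomial.eval₂_C]
    · simp only [RingHom.comp_apply, b2_uHom_X, b2_shift_uu_one,
        Polynomial.coe_eval₂RingHom, Polynomial.eval₂_X]
  exact congrArg (fun f => f R) h

theorem b2_coeff_one (R : K[X]) (n : ℕ) :
    (shift (1 : K) (uHom K R)).coeff (-(n : ℤ)) = R.coeff n := by
  rw [b2_shift_one_comp]
  induction R using Polynomial.induction_on' with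
  | add p q hp hq => rw [Polynomial.eval₂_add, HahnSeries.coeff_add, hp, hq, Polynomial.coeff_add]
  | monomial m a =>
    rw [Polynomial.eval₂_monomial, HahnSeries.single_pow, one_pow, HahnSeries.C_apply,
      HahnSeries.single_mul_single, mul_one, zero_add, Polynomial.coeff_monomial]
    by_cases h : m = n
    · subst h
      simp
    · rw [if_neg h, HahnSeries.coeff_single_of_ne]
      simp only [smul_neg, nsmul_eq_mul, mul_one, ne_eq, neg_inj, Nat.cast_inj]
      exact fun h' => h h'.symm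

theorem b2_coeff_one_neg (R : K[X]) (i : ℤ) (hi : i < -(R.natDegree : ℤ)) :
    (shift (1 : K) (uHom K R)).coeff i = 0 := by
  obtain ⟨n, rfl⟩ : ∃ n : ℕ, i = -(n : ℤ) := ⟨i.natAbs, by omega⟩
  rw [b2_coeff_one]
  exact Polynomial.coeff_eq_zero_of_natDegree_lt (by omega)

theorem b2_uHom_injective : Function.Injective (uHom K) := by
  rw [injective_iff_map_eq_zero]
  intro R hR
  ext n
  rw [← b2_coeff_one, hR, map_zero]
  simp

end b2aux

variable {F K M : Type*} [Field F] [Fintype F] [Field K] [Algebra F K] [IsAlgClosed K] [Field M]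
  [Algebra (RatFunc K) M] [FiniteDimensional (RatFunc K) M] [IsGalois (RatFunc K) M]

theorem shift_one_uHom_order (R : K[X]) (hR : R ≠ 0) :
    (shift 1 (uHom K R)).order = -(R.natDegree : ℤ) := by
  have h0 : shift 1 (uHom K R) ≠ 0 := by
    rw [Ne, map_eq_zero, map_eq_zero_iff _ b2_uHom_injective]
    exact hR
  refine le_antisymm (HahnSeries.order_le_of_coeff_ne_zero ?_) ?_
  · rw [b2_coeff_one]
    exact Polynomial.leadingCoeff_ne_zero.2 hR
  · rw [HahnSeries.le_order_iff_forall h0]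
    exact fun i hi => b2_coeff_one_neg R i hi

omit [IsAlgClosed K] in
theorem b2_order_unit (g : PowerSeries K) (hg : PowerSeries.constantCoeff g ≠ 0) :
    (HahnSeries.ofPowerSeries ℤ K g).order = 0 := by
  have h1 : (HahnSeries.ofPowerSeries ℤ K g).coeff ((0 : ℕ) : ℤ) ≠ 0 := by
    rw [LaurentSeries.coeff_coe_powerSeries, PowerSeries.coeff_zero_eq_constantCoeff_apply]
    exact hg
  refine le_antisymm (HahnSeries.order_le_of_coeff_ne_zero h1) ?_
  rw [HahnSeries.le_order_iff_forall (by rintro h; rw [h] at h1; simp at h1)]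
  intro i hi
  rw [PowerSeries.coeff_coe, if_pos hi]

omit [IsAlgClosed K] in
theorem b2_constantCoeff_b2inv (x0 : K) :
    PowerSeries.constantCoeff (b2inv x0) = (x0 - 1)⁻¹ := by
  rw [b2inv, PowerSeries.constantCoeff_inv]
  simp

omit [IsAlgClosed K] in
theorem b2_b2inv_sub (x0 : K) (hx : x0 ≠ 1) :
    b2inv x0 - PowerSeries.C (x0 - 1)⁻¹ =
      PowerSeries.X * (PowerSeries.C (-(x0 - 1)⁻¹) * b2inv x0) := by
  have h1 : PowerSeries.constantCoeff (PowerSeries.C (x0 - 1) + PowerSeries.X : PowerSeries K)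
      ≠ 0 := by
    simpa [sub_eq_zero] using hx
  have h2 := PowerSeries.mul_inv_cancel _ h1
  rw [← b2inv] at h2
  have h3 : (PowerSeries.C (x0 - 1) : PowerSeries K) * PowerSeries.C (x0 - 1)⁻¹ = 1 := by
    rw [← map_mul, mul_inv_cancel₀ (sub_ne_zero.2 hx), map_one]
  rw [map_neg]
  linear_combination (-(b2inv x0)) * h3 + (PowerSeries.C (x0 - 1)⁻¹) * h2

theorem shift_uHom_order (x0 : K) (hx : x0 ≠ 1) (R : K[X]) (hR : R ≠ 0) :
    (shift x0 (uHom K R)).order = (R.rootMultiplicity (x0 - 1)⁻¹ : ℤ) := by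
  obtain ⟨R1, hR1, hd⟩ := Polynomial.exists_eq_pow_rootMultiplicity_mul_and_not_dvd R hR (x0 - 1)⁻¹
  set m := R.rootMultiplicity (x0 - 1)⁻¹ with hm
  have hc : ∀ S : K[X], shift x0 (uHom K S) = HahnSeries.ofPowerSeries ℤ K (b2P x0 S) :=
    fun S => congrArg (fun f => f S) (b2_shift_comp x0 hx)
  have hcc : ∀ S : K[X], PowerSeries.constantCoeff (b2P x0 S) = S.eval (x0 - 1)⁻¹ := by
    intro S
    have : (PowerSeries.constantCoeff : PowerSeries K →+* K).comp (b2P x0) =
        Polynomial.evalRingHom (x0 - 1)⁻¹ := by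
      refine Polynomial.ringHom_ext (fun a => ?_) ?_
      · simp [b2P]
      · simp [b2P, b2_constantCoeff_b2inv]
    exact congrArg (fun f => f S) this
  have h1 : (shift x0 (uHom K R1)).order = 0 := by
    rw [hc]
    refine b2_order_unit _ ?_
    rw [hcc]
    exact fun h => hd (Polynomial.dvd_iff_isRoot.2 h)
  have hx1 : (x0 - 1)⁻¹ ≠ 0 := inv_ne_zero (sub_ne_zero.2 hx)
  have h2 : shift x0 (uHom K (Polynomial.X - Polynomial.C (x0 - 1)⁻¹)) =
      HahnSeries.single 1 1 * HahnSeries.ofPowerSeries ℤ K (PowerSeries.C (-(x0 - 1)⁻¹) * b2inv x0) := by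
    rw [hc]
    have : b2P x0 (Polynomial.X - Polynomial.C (x0 - 1)⁻¹) = b2inv x0 - PowerSeries.C (x0 - 1)⁻¹ := by
      simp [b2P]
    rw [this, b2_b2inv_sub x0 hx, map_mul, HahnSeries.ofPowerSeries_X]
  have h3 : (shift x0 (uHom K (Polynomial.X - Polynomial.C (x0 - 1)⁻¹))).order = 1 := by
    have h4 : PowerSeries.constantCoeff (PowerSeries.C (-(x0 - 1)⁻¹) * b2inv x0) ≠ 0 := by
      rw [map_mul, b2_constantCoeff_b2inv, PowerSeries.constantCoeff_C]
      exact mul_ne_zero (neg_ne_zero.2 hx1) hx1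
    rw [h2, HahnSeries.order_mul, b2_order_unit _ h4, HahnSeries.order_single one_ne_zero, add_zero]
    · exact HahnSeries.single_ne_zero one_ne_zero
    · intro h
      rw [map_eq_zero_iff _ HahnSeries.ofPowerSeries_injective] at h
      rw [h] at h4
      simp at h4
  have hnz : ∀ S : K[X], S ≠ 0 → shift x0 (uHom K S) ≠ 0 := by
    intro S hS
    rw [Ne, map_eq_zero, map_eq_zero_iff _ b2_uHom_injective]
    exact hS
  have hR1z : R1 ≠ 0 := by rintro rfl; exact hd (dvd_zero _)
  rw [hR1, map_mul, map_mul, HahnSeries.order_mul, h1, add_zero, map_pow, map_pow,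
    HahnSeries.order_pow, h3]
  · simp
  · exact hnz _ (pow_ne_zero _ (Polynomial.X_sub_C_ne_zero _))
  · exact hnz _ hR1z

theorem IntU.add {h h' : M} (H : IntU K h) (H' : IntU K h') : IntU K (h + h') :=
  RingHom.IsIntegralElem.add _ H H'
theorem IntU.mul {h h' : M} (H : IntU K h) (H' : IntU K h') : IntU K (h * h') :=
  RingHom.IsIntegralElem.mul _ H H'
theorem IntU.pow {h : M} (H : IntU K h) (n : ℕ) : IntU K (h ^ n) := by
  induction n with
  | zero => rw [pow_zero]; exact RingHom.isIntegralElem_one _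
  | succ n ih => rw [pow_succ]; exact IntU.mul ih H
theorem IntU.const (a : K) : IntU K (algebraMap (RatFunc K) M (RatFunc.C a)) := by
  rw [← b2_uHom_C a]
  exact RingHom.isIntegralElem_map ((algebraMap (RatFunc K) M).comp (uHom K)) (x := Polynomial.C a)
theorem IntU.u : IntU K (algebraMap (RatFunc K) M (uu K)) := by
  rw [← b2_uHom_X]
  exact RingHom.isIntegralElem_map ((algebraMap (RatFunc K) M).comp (uHom K)) (x := Polynomial.X)
theorem IntU.zero : IntU K (0 : M) := RingHom.isIntegralElem_zero _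
theorem IntU.sum {ι : Type*} (s : Finset ι) (f : ι → M) (H : ∀ i ∈ s, IntU K (f i)) :
    IntU K (∑ i ∈ s, f i) := by
  classical
  induction s using Finset.induction_on with
  | empty => rw [Finset.sum_empty]; exact IntU.zero
  | insert a s ha ih =>
    rw [Finset.sum_insert ha]
    exact IntU.add (H a (Finset.mem_insert_self a s))
      (ih fun i hi => H i (Finset.mem_insert_of_mem hi))

theorem b2_map {N : Type*} [Field N] (g : M →+* N) {h : M} (H : IntU K h) :
    (g.comp ((algebraMap (RatFunc K) M).comp (uHom K))).IsIntegralElem (g h) := by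
  obtain ⟨p, hp, h0⟩ := H
  exact ⟨p, hp, by rw [← Polynomial.hom_eval₂, h0, map_zero]⟩

theorem IntU.aut {h : M} (H : IntU K h) (σ : M ≃ₐ[RatFunc K] M) : IntU K (σ h) := by
  have h1 := b2_map (σ : M →+* M) H
  have h2 : (σ : M →+* M).comp ((algebraMap (RatFunc K) M).comp (uHom K)) =
      (algebraMap (RatFunc K) M).comp (uHom K) := by
    refine RingHom.ext fun x => ?_
    show σ (algebraMap (RatFunc K) M (uHom K x)) = algebraMap (RatFunc K) M (uHom K x)
    exact σ.commutes _
  rw [h2] at h1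
  exact h1

theorem b2_frR_uHom (F : Type*) {K : Type*} [Field F] [Fintype F] [Field K] [Algebra F K]
    (k : ℕ) (R : K[X]) : frR F k (uHom K R) = uHom K (frP F k R) := by
  have h1 : (frR F k : RatFunc K →+* RatFunc K).comp (uHom K) = (uHom K).comp (frP F k) := by
    refine Polynomial.ringHom_ext (fun a => ?_) ?_
    · show frR F k (uHom K (Polynomial.C a)) = uHom K (frP F k (Polynomial.C a))
      rw [b2_uHom_C, frR_C, frP, Polynomial.coe_mapRingHom, Polynomial.map_C, b2_uHom_C]
      show _ = RatFunc.C (fr F k a)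
      rw [fr_apply]
    · show frR F k (uHom K Polynomial.X) = uHom K (frP F k Polynomial.X)
      rw [b2_uHom_X, frP, Polynomial.coe_mapRingHom, Polynomial.map_X, b2_uHom_X, uu,
        map_inv₀, RingHom.map_sub, frR_X, RingHom.map_one]
  exact congrArg (fun f => f R) h1

theorem b2_frP_surjective (F : Type*) {K : Type*} [Field F] [Fintype F] [Field K] [Algebra F K]
    [IsAlgClosed K] (k : ℕ) : Function.Surjective (frP F k : K[X] →+* K[X]) := by
  rw [frP, Polynomial.coe_mapRingHom]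
  refine Polynomial.map_surjective _ fun a => ?_
  obtain ⟨z, hz⟩ := IsAlgClosed.exists_pow_nat_eq a
    (n := Fintype.card F ^ k) (pow_pos Fintype.card_pos k)
  refine ⟨z, ?_⟩
  show fr F k z = a
  rw [fr_apply, hz]

theorem IntU.frob_symm {φ : M ≃+* M} (hD : FrData F K φ) {h : M} (H : IntU K h) (k : ℕ) :
    IntU K ((φ ^ k).symm h) := by
  have h1 := b2_map ((φ ^ k).symm : M →+* M) H
  let ψ : K[X] ≃+* K[X] := RingEquiv.ofBijective (frP F k)
    ⟨frP_injective F k, b2_frP_surjective F k⟩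
  have h2 : ((φ ^ k).symm : M →+* M).comp ((algebraMap (RatFunc K) M).comp (uHom K)) =
      ((algebraMap (RatFunc K) M).comp (uHom K)).comp (ψ.symm : K[X] →+* K[X]) := by
    refine RingHom.ext fun x => ?_
    obtain ⟨y, rfl⟩ := ψ.surjective x
    show (φ ^ k).symm (algebraMap (RatFunc K) M (uHom K (ψ y))) =
      algebraMap (RatFunc K) M (uHom K (ψ.symm (ψ y)))
    rw [RingEquiv.symm_apply_apply, RingEquiv.symm_apply_eq, pow_hφ hD k, b2_frR_uHom]
    rfl
  rw [h2] at h1
  exact RingHom.isIntegralElem.of_comp _ _ h1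

theorem b2_emb_comp {x0 : K} {ε : M →+* LaurentSeries K} (hε : ε ∈ Emb M x0) :
    ε.comp ((algebraMap (RatFunc K) M).comp (uHom K)) = (shift x0).comp (uHom K) :=
  RingHom.ext fun x => hε (uHom K x)

theorem IntU.coeff_eq_zero {x0 : K} (hx : x0 ≠ 1) {ε : M →+* LaurentSeries K} (hε : ε ∈ Emb M x0)
    {h : M} (H : IntU K h) (i : ℤ) (hi : i < 0) : (ε h).coeff i = 0 := by
  have h1 := b2_map ε H
  rw [b2_emb_comp hε, b2_shift_comp x0 hx] at h1
  have h2 : IsIntegral (PowerSeries K) (ε h) := RingHom.isIntegralElem.of_comp _ _ h1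
  obtain ⟨g, hg⟩ := IsIntegrallyClosed.isIntegral_iff.1 h2
  rw [← hg, LaurentSeries.coe_algebraMap, PowerSeries.coeff_coe, if_pos hi]

/-! ### The automorphism of `K(x)`, `x ↦ u` -/

/-- `K(x) → K(x)`, `x ↦ u`. -/
def b2th (K : Type*) [Field K] : RatFunc K →+* RatFunc K :=
  RatFunc.liftRingHom (uHom K)
    (nonZeroDivisors_le_comap_nonZeroDivisors_of_injective _ b2_uHom_injective)

theorem b2th_algebraMap {K : Type*} [Field K] (f : K[X]) :
    b2th K (algebraMap K[X] (RatFunc K) f) = uHom K f :=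
  RatFunc.liftRingHom_algebraMap _ _ _

theorem b2th_surjective {K : Type*} [Field K] : Function.Surjective (b2th K) := by
  have hu : uu K ∈ (b2th K).fieldRange := ⟨algebraMap K[X] (RatFunc K) Polynomial.X, by
    rw [b2th_algebraMap, b2_uHom_X]⟩
  have hX : (RatFunc.X : RatFunc K) ∈ (b2th K).fieldRange := by
    have h1 : (RatFunc.X : RatFunc K) = (uu K)⁻¹ + 1 := by
      rw [uu, inv_inv]; ring
    rw [h1]
    exact add_mem (inv_mem hu) (one_mem _)
  have hC : ∀ a : K, (RatFunc.C a : RatFunc K) ∈ (b2th K).fieldRange := fun a =>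
    ⟨algebraMap K[X] (RatFunc K) (Polynomial.C a), by rw [b2th_algebraMap, b2_uHom_C]⟩
  have hP : ∀ P : K[X], algebraMap K[X] (RatFunc K) P ∈ (b2th K).fieldRange := by
    intro P
    induction P using Polynomial.induction_on' with
    | add p q hp hq => rw [map_add]; exact add_mem hp hq
    | monomial n a =>
      rw [← Polynomial.C_mul_X_pow_eq_monomial, map_mul, map_pow, RatFunc.algebraMap_C,
        RatFunc.algebraMap_X]
      exact mul_mem (hC a) (pow_mem hX n)
  intro r
  have : r ∈ (b2th K).fieldRange := by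
    rw [← RatFunc.num_div_denom r]
    exact div_mem (hP _) (hP _)
  exact this

theorem b2_integral_uHom {K : Type*} [Field K] {r : RatFunc K} (H : (uHom K).IsIntegralElem r) :
    ∃ R : K[X], uHom K R = r := by
  obtain ⟨t, rfl⟩ := b2th_surjective r
  obtain ⟨p, hp, h0⟩ := H
  have h1 : uHom K = (b2th K).comp (algebraMap K[X] (RatFunc K)) :=
    RingHom.ext fun f => (b2th_algebraMap f).symm
  have h2 : IsIntegral K[X] t := by
    refine ⟨p, hp, ?_⟩
    refine (b2th K).injective ?_
    rw [Polynomial.hom_eval₂, ← h1, h0, map_zero]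
  obtain ⟨R, hR⟩ := IsIntegrallyClosed.isIntegral_iff.1 h2
  exact ⟨R, by rw [← b2th_algebraMap, hR]⟩

theorem b2_prod {ι : Type*} (s : Finset ι) (f : ι → M) (H : ∀ i ∈ s, IntU K (f i)) :
    IntU K (∏ i ∈ s, f i) := by
  classical
  induction s using Finset.induction_on with
  | empty => rw [Finset.prod_empty]; exact RingHom.isIntegralElem_one _
  | insert a s ha ih =>
    rw [Finset.prod_insert ha]
    exact IntU.mul (H a (Finset.mem_insert_self a s))
      (ih fun i hi => H i (Finset.mem_insert_of_mem hi))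

theorem b2_order_prod {K : Type*} [Field K] {ι : Type*} (s : Finset ι) (f : ι → LaurentSeries K)
    (H : ∀ i ∈ s, f i ≠ 0) : (∏ i ∈ s, f i).order = ∑ i ∈ s, (f i).order := by
  classical
  induction s using Finset.induction_on with
  | empty => rw [Finset.prod_empty, Finset.sum_empty, HahnSeries.order_one]
  | insert a s ha ih =>
    rw [Finset.prod_insert ha, Finset.sum_insert ha, HahnSeries.order_mul,
      ih fun i hi => H i (Finset.mem_insert_of_mem hi)]
    · exact H a (Finset.mem_insert_self a s)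
    · exact Finset.prod_ne_zero_iff.2 fun i hi => H i (Finset.mem_insert_of_mem hi)

theorem b2_desc {r : RatFunc K} (H : IntU K (algebraMap (RatFunc K) M r)) :
    (uHom K).IsIntegralElem r := by
  obtain ⟨p, hp, h0⟩ := H
  refine ⟨p, hp, ?_⟩
  refine (algebraMap (RatFunc K) M).injective ?_
  rw [Polynomial.hom_eval₂, h0, map_zero]

theorem exists_norm_poly {h : M} (h0 : h ≠ 0) (H : IntU K h) :
    ∃ R : K[X], R ≠ 0 ∧
      (∀ ε ∈ Emb M (1 : K), ∑ σ : M ≃ₐ[RatFunc K] M, (ε (σ h)).order = -(R.natDegree : ℤ)) ∧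
      ∀ x0 : K, x0 ≠ 1 → ∀ ε ∈ Emb M x0, ∑ σ : M ≃ₐ[RatFunc K] M, (ε (σ h)).order =
        (R.rootMultiplicity (x0 - 1)⁻¹ : ℤ) := by
  have h1 : IntU K (algebraMap (RatFunc K) M (Algebra.norm (RatFunc K) h)) := by
    rw [Algebra.norm_eq_prod_automorphisms]
    exact b2_prod _ _ fun σ _ => IntU.aut H σ
  obtain ⟨R, hR⟩ := b2_integral_uHom (b2_desc h1)
  have hR0 : R ≠ 0 := by
    rintro rfl
    rw [map_zero] at hR
    exact h0 (Algebra.norm_eq_zero_iff.1 hR.symm)
  have key : ∀ x0 : K, ∀ ε ∈ Emb M x0, ∑ σ : M ≃ₐ[RatFunc K] M, (ε (σ h)).order =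
      (shift x0 (uHom K R)).order := by
    intro x0 ε hε
    rw [← b2_order_prod, ← map_prod, ← Algebra.norm_eq_prod_automorphisms, hε, hR]
    intro σ _
    rw [Ne, map_eq_zero, map_eq_zero]
    exact h0
  refine ⟨R, hR0, fun ε hε => ?_, fun x0 hx ε hε => ?_⟩
  · rw [key 1 ε hε, shift_one_uHom_order R hR0]
  · rw [key x0 ε hε, shift_uHom_order x0 hx R hR0]

/-- An integral element without poles over `x = 1` is a constant. -/
theorem IntU.const_of_regular {h : M} (H : IntU K h) {ε : M →+* LaurentSeries K}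
    (hε : ε ∈ Emb M (1 : K)) (hreg : ∀ (σ : M ≃ₐ[RatFunc K] M) (i : ℤ), i < 0 → (ε (σ h)).coeff i = 0) :
    ∃ a : K, h = algebraMap (RatFunc K) M (RatFunc.C a) := by
  refine ⟨(ε h).coeff 0, ?_⟩
  set a := (ε h).coeff 0 with ha
  by_contra hne
  have h0 : h - algebraMap (RatFunc K) M (RatFunc.C a) ≠ 0 := sub_ne_zero.2 hne
  have H1 : IntU K (h - algebraMap (RatFunc K) M (RatFunc.C a)) :=
    RingHom.IsIntegralElem.sub _ H (IntU.const a)
  obtain ⟨R, hR0, h1, -⟩ := exists_norm_poly h0 H1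
  have h2 := h1 ε hε
  have h3 : ∀ σ : M ≃ₐ[RatFunc K] M, ε (σ (h - algebraMap (RatFunc K) M (RatFunc.C a))) =
      ε (σ h) - HahnSeries.C a := by
    intro σ
    rw [map_sub, AlgEquiv.commutes, map_sub, hε, shift_C]
  have h4 : ∀ σ : M ≃ₐ[RatFunc K] M, ε (σ (h - algebraMap (RatFunc K) M (RatFunc.C a))) ≠ 0 := by
    intro σ
    rw [Ne, map_eq_zero, map_eq_zero]
    exact h0
  have h5 : ∀ σ : M ≃ₐ[RatFunc K] M,
      0 ≤ (ε (σ (h - algebraMap (RatFunc K) M (RatFunc.C a)))).order := by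
    intro σ
    rw [HahnSeries.le_order_iff_forall (h4 σ)]
    intro i hi
    rw [h3, HahnSeries.coeff_sub, hreg σ i hi, HahnSeries.C_apply, HahnSeries.coeff_single_of_ne hi.ne,
      sub_zero]
  have h6 : 1 ≤ (ε ((1 : M ≃ₐ[RatFunc K] M) (h - algebraMap (RatFunc K) M (RatFunc.C a)))).order := by
    rw [HahnSeries.le_order_iff_forall (h4 1)]
    intro i hi
    rw [h3, HahnSeries.coeff_sub, HahnSeries.C_apply]
    rcases (show i ≤ 0 by omega).lt_or_eq with h' | rfl
    · rw [hreg 1 i h', HahnSeries.coeff_single_of_ne h'.ne, sub_zero]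
    · rw [HahnSeries.coeff_single_same, ha]
      exact sub_self _
  have h7 : 1 ≤ ∑ σ : M ≃ₐ[RatFunc K] M,
      (ε (σ (h - algebraMap (RatFunc K) M (RatFunc.C a)))).order :=
    h6.trans (Finset.single_le_sum (f := fun σ : M ≃ₐ[RatFunc K] M =>
      (ε (σ (h - algebraMap (RatFunc K) M (RatFunc.C a)))).order) (fun σ _ => h5 σ)
      (Finset.mem_univ 1))
  rw [h2] at h7
  omega

end Pool.Agent.H9.Ram
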