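import Pool.Agent.H9.Ram.B2

/-!
# Module B3: the spaces `L_m`

Fix `ε₁ ∈ Emb M 1`. `L_m` = the `f ∈ M` integral over `K[u]`, with `ε₁ f` having a pole of order at most `m`, and `ε₁ (σ f)` regular
for `σ ≠ 1`.
* `dim L_m ≤ m + 1`: the map `f ↦` coefficients of index `-m, …, 0` of `ε₁ f` is injective on `L_m`: if they vanish then `f` is
  regular everywhere over `x = 1`, so it is a constant by `IntU.const_of_regular`, with constant term `0`.
* orders: for `0 ≠ s ∈ L_l`: by `exists_norm_poly` `∑_σ order (ε₁ (σ s)) ≤ 0`, all terms with `σ ≠ 1` are `≥ 0`, the term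
  with `σ = 1` is `≥ - l`. So `order (ε₁ s) ≤ 0` and `order (ε₁ (σ s)) ≤ l` for `σ ≠ 1`.
* products: `s ∈ L_l`, `f ∈ L_m` imply `s^B f ∈ L_{l B + m}`.
* adapted family: `J` = set of `r ≤ m` such that some `f ∈ L_m` has `order (ε₁ f) = - r`; `dim L_m ≤ #J` (row echelon: the map
  `f ↦` coefficients of index `-r`, `r ∈ J`, is injective on `L_m`, because a nonzero `f` has order `-r`, `r ∈ J`,
  by the orders statement).
-/

open Polynomial

noncomputable section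

namespace Pool.Agent.H9.Ram

variable {K M : Type*} [Field K] [IsAlgClosed K] [Field M]
  [Algebra (RatFunc K) M] [FiniteDimensional (RatFunc K) M] [IsGalois (RatFunc K) M]
  [Algebra K M] [IsScalarTower K (RatFunc K) M]

omit [IsAlgClosed K] [FiniteDimensional (RatFunc K) M] [IsGalois (RatFunc K) M] in
theorem b3_smul_eq (a : K) (f : M) :
    a • f = algebraMap (RatFunc K) M (RatFunc.C a) * f := by
  rw [Algebra.smul_def, IsScalarTower.algebraMap_apply K (RatFunc K) M, RatFunc.algebraMap_eq_C]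

omit [IsAlgClosed K] [FiniteDimensional (RatFunc K) M] [IsGalois (RatFunc K) M] in
theorem b3_coeff_smul {x0 : K} {ε : M →+* LaurentSeries K} (h : ε ∈ Emb M x0) (a : K) (f : M)
    (i : ℤ) : (ε (a • f)).coeff i = a * (ε f).coeff i := by
  rw [b3_smul_eq, map_mul, h, shift_C, HahnSeries.C_mul_eq_smul, HahnSeries.coeff_smul,
    smul_eq_mul]

omit [IsAlgClosed K] [FiniteDimensional (RatFunc K) M] [IsGalois (RatFunc K) M] in
theorem b3_aut_smul (σ : M ≃ₐ[RatFunc K] M) (a : K) (f : M) : σ (a • f) = a • σ f := by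
  rw [b3_smul_eq, b3_smul_eq, map_mul, AlgEquiv.commutes]

theorem b3_mul {a b : LaurentSeries K} {A B : ℤ} (ha : ∀ i : ℤ, i < A → a.coeff i = 0)
    (hb : ∀ i : ℤ, i < B → b.coeff i = 0) (i : ℤ) (hi : i < A + B) : (a * b).coeff i = 0 := by
  rw [HahnSeries.coeff_mul]
  apply Finset.sum_eq_zero
  intro ij hij
  rw [Finset.mem_antidiagonal] at hij
  rcases lt_or_ge ij.1 A with h | h
  · rw [ha _ h, zero_mul]
  · rw [hb ij.2 (by omega), mul_zero]

theorem b3_pow {a : LaurentSeries K} {A : ℤ} (ha : ∀ i : ℤ, i < A → a.coeff i = 0) (B : ℕ) :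
    ∀ i : ℤ, i < A * B → (a ^ B).coeff i = 0 := by
  induction B with
  | zero =>
    intro i hi
    rw [pow_zero, HahnSeries.coeff_one, if_neg]
    intro h
    rw [h] at hi
    simp at hi
  | succ n ih =>
    intro i hi
    rw [pow_succ]
    apply b3_mul ih ha
    push_cast at hi
    linarith

theorem b3_order_ge {a : LaurentSeries K} (h0 : a ≠ 0) {A : ℤ}
    (ha : ∀ i : ℤ, i < A → a.coeff i = 0) : A ≤ a.order := by
  by_contra h
  push Not at h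
  exact HahnSeries.coeff_order_eq_zero.not.mpr h0 (ha _ h)

/-- The space `L_m`. -/
def Lsp (ε₁ : M →+* LaurentSeries K) (h₁ : ε₁ ∈ Emb M (1 : K)) (m : ℕ) : Submodule K M where
  carrier := {f | IntU K f ∧ (∀ i : ℤ, i < -(m : ℤ) → (ε₁ f).coeff i = 0) ∧
    ∀ σ : M ≃ₐ[RatFunc K] M, σ ≠ 1 → ∀ i : ℤ, i < 0 → (ε₁ (σ f)).coeff i = 0}
  add_mem' := by
    intro f g hf hg
    refine ⟨hf.1.add hg.1, fun i hi => ?_, fun σ hσ i hi => ?_⟩
    · rw [map_add, HahnSeries.coeff_add, hf.2.1 i hi, hg.2.1 i hi, add_zero]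
    · rw [map_add, map_add, HahnSeries.coeff_add, hf.2.2 σ hσ i hi, hg.2.2 σ hσ i hi, add_zero]
  zero_mem' := by
    refine ⟨IntU.zero, fun i _ => ?_, fun σ _ i _ => ?_⟩
    · rw [map_zero, HahnSeries.coeff_zero]
    · rw [map_zero, map_zero, HahnSeries.coeff_zero]
  smul_mem' := by
    intro a f hf
    refine ⟨?_, fun i hi => ?_, fun σ hσ i hi => ?_⟩
    · rw [b3_smul_eq]
      exact (IntU.const a).mul hf.1
    · rw [b3_coeff_smul h₁, hf.2.1 i hi, mul_zero]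
    · rw [b3_aut_smul, b3_coeff_smul h₁, hf.2.2 σ hσ i hi, mul_zero]

theorem mem_Lsp {ε₁ : M →+* LaurentSeries K} {h₁ : ε₁ ∈ Emb M (1 : K)} {m : ℕ} {f : M} :
    f ∈ Lsp ε₁ h₁ m ↔ IntU K f ∧ (∀ i : ℤ, i < -(m : ℤ) → (ε₁ f).coeff i = 0) ∧
    ∀ σ : M ≃ₐ[RatFunc K] M, σ ≠ 1 → ∀ i : ℤ, i < 0 → (ε₁ (σ f)).coeff i = 0 := Iff.rfl

/-- Coefficients of indices `e j`. -/
def b3Coeff (ε₁ : M →+* LaurentSeries K) (h₁ : ε₁ ∈ Emb M (1 : K)) (m : ℕ) {ι : Type}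
    (e : ι → ℤ) : Lsp ε₁ h₁ m →ₗ[K] (ι → K) where
  toFun f := fun j => (ε₁ (f : M)).coeff (e j)
  map_add' := by
    intro f g
    funext j
    show (ε₁ ((f : M) + (g : M))).coeff (e j) = _
    rw [map_add, HahnSeries.coeff_add]
    rfl
  map_smul' := by
    intro a f
    funext j
    show (ε₁ (a • (f : M))).coeff (e j) = _
    rw [b3_coeff_smul h₁]
    rfl

theorem b3_inj (ε₁ : M →+* LaurentSeries K) (h₁ : ε₁ ∈ Emb M (1 : K)) (m : ℕ) :
    Function.Injective (b3Coeff ε₁ h₁ m (fun j : Fin (m + 1) => -((j : ℕ) : ℤ))) := by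
  rw [← LinearMap.ker_eq_bot, LinearMap.ker_eq_bot']
  intro f hf
  have hc : ∀ j : ℕ, j ≤ m → (ε₁ (f : M)).coeff (-(j : ℤ)) = 0 := by
    intro j hj
    exact congrFun hf ⟨j, by omega⟩
  obtain ⟨hI, h2, h3⟩ := mem_Lsp.1 f.2
  have hreg : ∀ (σ : M ≃ₐ[RatFunc K] M) (i : ℤ), i < 0 → (ε₁ (σ (f : M))).coeff i = 0 := by
    intro σ i hi
    by_cases hσ : σ = 1
    · subst hσ
      show (ε₁ (f : M)).coeff i = 0
      rcases lt_or_ge i (-(m : ℤ)) with h | h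
      · exact h2 i h
      · have h4 := hc (-i).toNat (by omega)
        have h5 : -((-i).toNat : ℤ) = i := by omega
        rwa [h5] at h4
    · exact h3 σ hσ i hi
  obtain ⟨a, ha⟩ := hI.const_of_regular h₁ hreg
  have h0 := hc 0 (Nat.zero_le m)
  rw [ha, h₁, shift_C] at h0
  have ha0 : a = 0 := by
    simpa using h0
  apply Subtype.ext
  rw [ha, ha0]
  simp

theorem finiteDimensional_Lsp (ε₁ : M →+* LaurentSeries K) (h₁ : ε₁ ∈ Emb M (1 : K)) (m : ℕ) :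
    FiniteDimensional K (Lsp ε₁ h₁ m) :=
  Module.Finite.of_injective _ (b3_inj ε₁ h₁ m)

theorem finrank_Lsp_le (ε₁ : M →+* LaurentSeries K) (h₁ : ε₁ ∈ Emb M (1 : K)) (m : ℕ) :
    Module.finrank K (Lsp ε₁ h₁ m) ≤ m + 1 := by
  have h := LinearMap.finrank_le_finrank_of_injective (b3_inj ε₁ h₁ m)
  rwa [Module.finrank_fin_fun] at h

theorem Lsp_pow_mul {ε₁ : M →+* LaurentSeries K} {h₁ : ε₁ ∈ Emb M (1 : K)} {l m : ℕ} (B : ℕ)
    {s f : M} (hs : s ∈ Lsp ε₁ h₁ l) (hf : f ∈ Lsp ε₁ h₁ m) :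
    s ^ B * f ∈ Lsp ε₁ h₁ (l * B + m) := by
  obtain ⟨s1, s2, s3⟩ := mem_Lsp.1 hs
  obtain ⟨f1, f2, f3⟩ := mem_Lsp.1 hf
  refine mem_Lsp.2 ⟨(s1.pow B).mul f1, fun i hi => ?_, fun σ hσ i hi => ?_⟩
  · rw [map_mul, map_pow]
    apply b3_mul (b3_pow s2 B) f2
    push_cast at hi
    linarith
  · rw [map_mul, map_mul, map_pow, map_pow]
    apply b3_mul (A := 0) (B := 0) _ (f3 σ hσ) i (by simpa using hi)
    intro j hj
    exact b3_pow (s3 σ hσ) B j (by simpa using hj)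

theorem order_Lsp {ε₁ : M →+* LaurentSeries K} {h₁ : ε₁ ∈ Emb M (1 : K)} {l : ℕ} {s : M}
    (hs : s ∈ Lsp ε₁ h₁ l) (h0 : s ≠ 0) :
    -(l : ℤ) ≤ (ε₁ s).order ∧ (ε₁ s).order ≤ 0 ∧
      ∀ σ : M ≃ₐ[RatFunc K] M, σ ≠ 1 → 0 ≤ (ε₁ (σ s)).order ∧ (ε₁ (σ s)).order ≤ l := by
  classical
  obtain ⟨s1, s2, s3⟩ := mem_Lsp.1 hs
  have hne : ∀ σ : M ≃ₐ[RatFunc K] M, ε₁ (σ s) ≠ 0 := by
    intro σ
    rw [Ne, map_eq_zero, map_eq_zero]
    exact h0
  have hne1 : ε₁ s ≠ 0 := hne 1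
  have ha : -(l : ℤ) ≤ (ε₁ s).order := b3_order_ge hne1 s2
  have hb : ∀ σ : M ≃ₐ[RatFunc K] M, σ ≠ 1 → 0 ≤ (ε₁ (σ s)).order := fun σ hσ =>
    b3_order_ge (hne σ) (s3 σ hσ)
  obtain ⟨R, _, hR, _⟩ := exists_norm_poly h0 s1
  have hsum := hR ε₁ h₁
  have hsum0 : ∑ σ : M ≃ₐ[RatFunc K] M, (ε₁ (σ s)).order ≤ 0 := by
    rw [hsum]
    omega
  refine ⟨ha, ?_, fun σ hσ => ⟨hb σ hσ, ?_⟩⟩
  · have h1 : ∑ τ ∈ ({1} : Finset (M ≃ₐ[RatFunc K] M)), (ε₁ (τ s)).order ≤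
        ∑ τ : M ≃ₐ[RatFunc K] M, (ε₁ (τ s)).order := by
      apply Finset.sum_le_sum_of_subset_of_nonneg (Finset.subset_univ _)
      intro τ _ hτ
      exact hb τ (by simpa using hτ)
    rw [Finset.sum_singleton] at h1
    exact h1.trans hsum0
  · have h1 : ∑ τ ∈ ({σ, 1} : Finset (M ≃ₐ[RatFunc K] M)), (ε₁ (τ s)).order ≤
        ∑ τ : M ≃ₐ[RatFunc K] M, (ε₁ (τ s)).order := by
      apply Finset.sum_le_sum_of_subset_of_nonneg (Finset.subset_univ _)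
      intro τ _ hτ
      refine hb τ (fun h => hτ ?_)
      rw [h]
      simp
    rw [Finset.sum_pair hσ] at h1
    have h2 : (ε₁ ((1 : M ≃ₐ[RatFunc K] M) s)).order = (ε₁ s).order := rfl
    rw [h2] at h1
    linarith

theorem exists_adapted (ε₁ : M →+* LaurentSeries K) (h₁ : ε₁ ∈ Emb M (1 : K)) (m : ℕ) :
    ∃ (J : Finset ℕ) (f : ℕ → M), (∀ r ∈ J, r ≤ m ∧ f r ∈ Lsp ε₁ h₁ m ∧ f r ≠ 0 ∧
      (ε₁ (f r)).order = -(r : ℤ)) ∧ Module.finrank K (Lsp ε₁ h₁ m) ≤ J.card := by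
  classical
  let P : ℕ → Prop := fun r => ∃ g : M, g ∈ Lsp ε₁ h₁ m ∧ g ≠ 0 ∧ (ε₁ g).order = -(r : ℤ)
  let J : Finset ℕ := (Finset.range (m + 1)).filter P
  let f : ℕ → M := fun r => if h : P r then h.choose else 0
  refine ⟨J, f, ?_, ?_⟩
  · intro r hr
    have hr' := Finset.mem_filter.1 hr
    have hP : P r := hr'.2
    have hf : f r = hP.choose := dif_pos hP
    have hspec := hP.choose_spec
    rw [← hf] at hspec
    exact ⟨by have := Finset.mem_range.1 hr'.1; omega, hspec⟩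
  · have hinj : Function.Injective (b3Coeff ε₁ h₁ m (fun j : J => -((j : ℕ) : ℤ))) := by
      rw [← LinearMap.ker_eq_bot, LinearMap.ker_eq_bot']
      intro g hg
      by_contra hne
      have hg0 : (g : M) ≠ 0 := fun h => hne (Subtype.ext h)
      obtain ⟨h1, h2, _⟩ := order_Lsp g.2 hg0
      have hr : -(((-(ε₁ (g : M)).order).toNat : ℕ) : ℤ) = (ε₁ (g : M)).order := by omega
      have hJ : (-(ε₁ (g : M)).order).toNat ∈ J := by
        apply Finset.mem_filter.2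
        refine ⟨Finset.mem_range.2 (by omega), (g : M), g.2, hg0, hr.symm⟩
      have h3 : (ε₁ (g : M)).coeff (-(((-(ε₁ (g : M)).order).toNat : ℕ) : ℤ)) = 0 :=
        congrFun hg ⟨_, hJ⟩
      rw [hr] at h3
      have h4 : ε₁ (g : M) ≠ 0 := by
        rw [Ne, map_eq_zero]
        exact hg0
      exact HahnSeries.coeff_order_eq_zero.not.mpr h4 h3
    have h := LinearMap.finrank_le_finrank_of_injective hinj
    rwa [Module.finrank_fintype_fun_eq_card, Fintype.card_coe] at h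

end Pool.Agent.H9.Ram
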