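import Pool.Agent.H9.Ram.B3

/-!
# Module B4: Riemann's inequality

Let `N = [M : K(x)] = |G|` and `ω_1, …, ω_N` a basis of `M` over `K(x)` consisting of elements integral over `K[u]` (multiply a
basis by denominators: every element of `M` is algebraic over `K(x)`, the field of fractions of `K[u]`; a suitable nonzero
multiple by an element of `K[u]` is integral). Let `m₀` be such that all `ε₁ (σ ω_j)` have order `≥ - m₀`. For `m ≥ m₀`
the `N (m - m₀ + 1)` elements `u^i ω_j`, `i ≤ m - m₀`, are linearly independent over `K`, integral, and `ε₁ (σ (u^i ω_j))` has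
order `≥ - m` for all `σ` (`ε₁ u = s⁻¹`). Let `D` be their span. The linear map `D → ⊕_{σ ≠ 1} K^m`, `f ↦` coefficients of
index `-m, …, -1` of `ε₁ (σ f)`, has kernel contained in `L_m`, so
`dim L_m ≥ N (m - m₀ + 1) - (N - 1) m = m - N (m₀ - 1) ≥ m - N m₀`. So `g₀ = N m₀ + m₀ + 1` works for all `m`
(for `m < m₀` trivially).
-/

open Polynomial

noncomputable section

namespace Pool.Agent.H9.Ram

section aux
variable (K : Type*) [Field K]

/-- The polynomial ring, regarded as `K[u]`. -/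
def b4KU : Type _ := K[X]

instance b4KU.commRing : CommRing (b4KU K) := inferInstanceAs (CommRing K[X])
instance b4KU.isDomain : IsDomain (b4KU K) := inferInstanceAs (IsDomain K[X])

/-- `K[u]` acts on `K(x)`. -/
instance b4KU.algebra : Algebra (b4KU K) (RatFunc K) := (uHom K : K[X] →+* RatFunc K).toAlgebra

variable {K}

theorem b4_uHom_X : uHom K X = uu K := by
  simp [uHom]

theorem b4_uHom_C (a : K) : uHom K (C a) = RatFunc.C a := by
  simp [uHom]

theorem b4_X_sub_one : (RatFunc.X - 1 : RatFunc K) ≠ 0 := by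
  intro h
  have h1 : algebraMap K[X] (RatFunc K) (X - C 1) = 0 := by
    rw [map_sub, RatFunc.algebraMap_X, RatFunc.algebraMap_C, map_one]
    exact h
  have h2 : (X - C 1 : K[X]) = 0 := by
    apply RatFunc.algebraMap_injective K
    rw [h1, map_zero]
  exact Polynomial.X_sub_C_ne_zero 1 h2

theorem b4_uHom_inj [IsAlgClosed K] : Function.Injective (uHom K) := by
  rw [injective_iff_map_eq_zero]
  intro R hR
  by_contra hne
  have h := shift_one_uHom_order R hne
  rw [hR, map_zero, HahnSeries.order_zero] at h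
  have h1 : R.natDegree = 0 := by omega
  obtain ⟨a, ha⟩ : ∃ a, R = C a := ⟨_, Polynomial.eq_C_of_natDegree_eq_zero h1⟩
  rw [ha, b4_uHom_C] at hR
  have h2 : a = 0 := by
    have := RatFunc.C.injective (a₁ := a) (a₂ := 0) (by rw [hR, map_zero])
    exact this
  exact hne (by rw [ha, h2, map_zero])

theorem b4_frac [IsAlgClosed K] (r : RatFunc K) :
    ∃ P Q : K[X], Q ≠ 0 ∧ r * uHom K Q = uHom K P := by
  have hinj : ∀ Q : K[X], Q ≠ 0 → uHom K Q ≠ 0 := fun Q hQ h =>
    hQ (b4_uHom_inj (by rw [h, map_zero]))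
  have hadd : ∀ r s : RatFunc K, (∃ P Q : K[X], Q ≠ 0 ∧ r * uHom K Q = uHom K P) →
      (∃ P Q : K[X], Q ≠ 0 ∧ s * uHom K Q = uHom K P) →
      ∃ P Q : K[X], Q ≠ 0 ∧ (r + s) * uHom K Q = uHom K P := by
    rintro r s ⟨P, Q, hQ, h⟩ ⟨P', Q', hQ', h'⟩
    refine ⟨P * Q' + P' * Q, Q * Q', mul_ne_zero hQ hQ', ?_⟩
    simp only [map_add, map_mul]
    rw [← h, ← h']; ring
  have hmul : ∀ r s : RatFunc K, (∃ P Q : K[X], Q ≠ 0 ∧ r * uHom K Q = uHom K P) →
      (∃ P Q : K[X], Q ≠ 0 ∧ s * uHom K Q = uHom K P) →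
      ∃ P Q : K[X], Q ≠ 0 ∧ (r * s) * uHom K Q = uHom K P := by
    rintro r s ⟨P, Q, hQ, h⟩ ⟨P', Q', hQ', h'⟩
    refine ⟨P * P', Q * Q', mul_ne_zero hQ hQ', ?_⟩
    simp only [map_mul]
    rw [← h, ← h']; ring
  have hC : ∀ a : K, ∃ P Q : K[X], Q ≠ 0 ∧ RatFunc.C a * uHom K Q = uHom K P := by
    intro a
    exact ⟨C a, 1, one_ne_zero, by rw [map_one, mul_one, b4_uHom_C]⟩
  have hX : ∃ P Q : K[X], Q ≠ 0 ∧ (RatFunc.X : RatFunc K) * uHom K Q = uHom K P := by
    refine ⟨X + 1, X, X_ne_zero, ?_⟩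
    rw [map_add, map_one, b4_uHom_X]
    unfold uu
    have := b4_X_sub_one (K := K)
    field_simp
    ring
  have hpoly : ∀ f : K[X], ∃ P Q : K[X], Q ≠ 0 ∧
      algebraMap K[X] (RatFunc K) f * uHom K Q = uHom K P := by
    intro f
    induction f using Polynomial.induction_on with
    | C a => rw [RatFunc.algebraMap_C]; exact hC a
    | add p q hp hq => rw [map_add]; exact hadd _ _ hp hq
    | monomial n a ih =>
      rw [pow_succ, ← mul_assoc, map_mul, RatFunc.algebraMap_X]
      exact hmul _ _ ih hX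
  induction r using RatFunc.induction_on with
  | f p q hq =>
    rw [div_eq_mul_inv]
    apply hmul _ _ (hpoly p)
    obtain ⟨P, Q, hQ, h⟩ := hpoly q
    have hq0 : algebraMap K[X] (RatFunc K) q ≠ 0 := by
      intro h0
      exact hq (RatFunc.algebraMap_injective K (by rw [h0, map_zero]))
    have hP : P ≠ 0 := by
      rintro rfl
      rw [map_zero] at h
      exact (mul_ne_zero hq0 (hinj Q hQ)) h
    refine ⟨Q, P, hP, ?_⟩
    rw [← h]
    field_simp

instance b4KU.isFractionRing [IsAlgClosed K] : IsFractionRing (b4KU K) (RatFunc K) := by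
  have hinj : Function.Injective (algebraMap (b4KU K) (RatFunc K)) := b4_uHom_inj (K := K)
  refine (isLocalization_iff _ _).mpr ⟨?_, ?_, ?_⟩
  · rintro ⟨y, hy⟩
    rw [isUnit_iff_ne_zero]
    intro h
    exact nonZeroDivisors.ne_zero hy (hinj (by rw [map_zero]; exact h))
  · intro z
    obtain ⟨P, Q, hQ, h⟩ := b4_frac z
    exact ⟨((P : b4KU K), ⟨(Q : b4KU K), mem_nonZeroDivisors_of_ne_zero hQ⟩), h⟩
  · intro x y h
    exact ⟨1, by rw [hinj h]⟩

end aux

variable {K M : Type*} [Field K] [IsAlgClosed K] [Field M]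
  [Algebra (RatFunc K) M] [FiniteDimensional (RatFunc K) M] [IsGalois (RatFunc K) M]
  [Algebra K M] [IsScalarTower K (RatFunc K) M]

/-- Coefficient maps. -/
def b4co (ε₁ : M →+* LaurentSeries K) (h₁ : ε₁ ∈ Emb M (1 : K)) (σ : M ≃ₐ[RatFunc K] M) (i : ℤ) :
    M →ₗ[K] K where
  toFun y := (ε₁ (σ y)).coeff i
  map_add' a b := by rw [map_add, map_add, HahnSeries.coeff_add]
  map_smul' a y := by
    have e : a • y = algebraMap (RatFunc K) M (RatFunc.C a) * y := by
      rw [Algebra.smul_def, IsScalarTower.algebraMap_apply K (RatFunc K) M]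
      rfl
    rw [e, map_mul, AlgEquiv.commutes, map_mul, h₁, shift_C, HahnSeries.C_mul_eq_smul,
      HahnSeries.coeff_smul]
    rfl

omit [IsAlgClosed K] [FiniteDimensional (RatFunc K) M] [IsGalois (RatFunc K) M] in
theorem b4_sum_smul {ι : Type*} (s : Finset ι) (c : ι → K) (P : ι → K[X]) (y : M) :
    ∑ i ∈ s, c i • (algebraMap (RatFunc K) M (uHom K (P i)) * y) =
      algebraMap (RatFunc K) M (uHom K (∑ i ∈ s, C (c i) * P i)) * y := by
  rw [map_sum, map_sum, Finset.sum_mul]
  apply Finset.sum_congr rfl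
  intro i _
  rw [Algebra.smul_def, IsScalarTower.algebraMap_apply K (RatFunc K) M, map_mul, b4_uHom_C,
    map_mul, mul_assoc]
  rfl

omit [IsGalois (RatFunc K) M] [Algebra K M] [IsScalarTower K (RatFunc K) M] in
theorem b4_exists_basis : ∃ (s : Finset M) (b : Module.Basis s (RatFunc K) M),
    ∀ x, IntU K (b x) := by
  let _ : Algebra (b4KU K) M := ((algebraMap (RatFunc K) M).comp (uHom K)).toAlgebra
  have _ : IsScalarTower (b4KU K) (RatFunc K) M := IsScalarTower.of_algebraMap_eq (fun _ => rfl)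
  obtain ⟨s, b, hb⟩ := FiniteDimensional.exists_is_basis_integral (b4KU K) (RatFunc K) M
  exact ⟨s, b, fun x => hb x⟩

theorem riemann_ineq (ε₁ : M →+* LaurentSeries K) (h₁ : ε₁ ∈ Emb M (1 : K)) :
    ∃ g₀ : ℕ, ∀ m : ℕ, m + 1 ≤ Module.finrank K (Lsp ε₁ h₁ m) + g₀ := by
  classical
  obtain ⟨S, b, hb⟩ := b4_exists_basis (K := K) (M := M)
  have hcard : Fintype.card (M ≃ₐ[RatFunc K] M) = Fintype.card S := by
    rw [← Nat.card_eq_fintype_card, IsGalois.card_aut_eq_finrank, Module.finrank_eq_card_basis b]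
  set N := Fintype.card S with hN
  -- the bound for the poles
  obtain ⟨m₀, hm₀⟩ : ∃ m₀ : ℕ, ∀ (σ : M ≃ₐ[RatFunc K] M) (j : S),
      -(m₀ : ℤ) ≤ (ε₁ (σ (b j))).order := by
    refine ⟨Finset.univ.sup (fun z : (M ≃ₐ[RatFunc K] M) × S => (-(ε₁ (z.1 (b z.2))).order).toNat),
      fun σ j => ?_⟩
    have h := Finset.le_sup (f := fun z : (M ≃ₐ[RatFunc K] M) × S =>
      (-(ε₁ (z.1 (b z.2))).order).toNat) (Finset.mem_univ (σ, j))
    simp only at h
    omega
  refine ⟨N * m₀ + m₀ + 1, fun m => ?_⟩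
  by_cases hm : m < m₀
  · omega
  push Not at hm
  set n := m - m₀ + 1 with hn
  -- the elements `u^i ω_j`
  let e : S × Fin n → M := fun z => algebraMap (RatFunc K) M (uHom K (X ^ (z.2 : ℕ))) * b z.1
  let Φ : (S × Fin n → K) →ₗ[K] M := Fintype.linearCombination K e
  have hΦ : ∀ c, Φ c = ∑ j : S, algebraMap (RatFunc K) M
      (uHom K (∑ i : Fin n, C (c (j, i)) * X ^ (i : ℕ))) * b j := by
    intro c
    simp only [Φ, Fintype.linearCombination_apply]
    rw [Fintype.sum_prod_type]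
    apply Finset.sum_congr rfl
    intro j _
    exact b4_sum_smul Finset.univ (fun i => c (j, i)) (fun i : Fin n => X ^ (i : ℕ)) (b j)
  have hΦinj : Function.Injective Φ := by
    rw [injective_iff_map_eq_zero]
    intro c hc
    rw [hΦ] at hc
    have h1 : ∀ j : S, uHom K (∑ i : Fin n, C (c (j, i)) * X ^ (i : ℕ)) = 0 := by
      have h2 := Fintype.linearIndependent_iff.mp b.linearIndependent
        (fun j => uHom K (∑ i : Fin n, C (c (j, i)) * X ^ (i : ℕ)))
      apply h2
      rw [← hc]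
      apply Finset.sum_congr rfl
      intro j _
      rw [Algebra.smul_def]
    funext z
    obtain ⟨j, i⟩ := z
    have h3 : ∑ i : Fin n, C (c (j, i)) * X ^ (i : ℕ) = 0 :=
      b4_uHom_inj (K := K) (by rw [h1 j, map_zero])
    have h4 := congrArg (fun p : K[X] => p.coeff (i : ℕ)) h3
    simp only [Polynomial.finsetSum_coeff, Polynomial.coeff_C_mul, Polynomial.coeff_X_pow,
      Polynomial.coeff_zero] at h4
    rw [Finset.sum_eq_single i] at h4
    · simpa using h4
    · intro i' _ hne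
      rw [if_neg, mul_zero]
      intro h
      exact hne (Fin.ext h.symm)
    · intro h
      exact absurd (Finset.mem_univ i) h
  -- integrality
  have hint : ∀ c, IntU K (Φ c) := by
    intro c
    rw [hΦ]
    apply IntU.sum
    intro j _
    apply IntU.mul _ (hb j)
    exact RingHom.isIntegralElem_map ((algebraMap (RatFunc K) M).comp (uHom K))
  -- poles
  have hpole : ∀ (σ : M ≃ₐ[RatFunc K] M) (c : S × Fin n → K) (i : ℤ), i < -(m : ℤ) →
      (ε₁ (σ (Φ c))).coeff i = 0 := by
    intro σ c i hi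
    have h1 : (ε₁ (σ (Φ c))).coeff i = b4co ε₁ h₁ σ i (Φ c) := rfl
    rw [h1]
    simp only [Φ, Fintype.linearCombination_apply, map_sum, map_smul]
    apply Finset.sum_eq_zero
    intro z _
    have h2 : b4co ε₁ h₁ σ i (e z) = 0 := by
      show (ε₁ (σ (e z))).coeff i = 0
      apply HahnSeries.coeff_eq_zero_of_lt_order
      have h3 : ε₁ (σ (e z)) = shift 1 (uHom K (X ^ (z.2 : ℕ))) * ε₁ (σ (b z.1)) := by
        simp only [e]
        rw [map_mul, AlgEquiv.commutes, map_mul, h₁]
      have h4 : uHom K (X ^ (z.2 : ℕ)) ≠ 0 := by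
        intro h
        have := b4_uHom_inj (K := K) (a₁ := X ^ (z.2 : ℕ)) (a₂ := 0) (by rw [h, map_zero])
        exact pow_ne_zero _ X_ne_zero this
      have h5 : shift 1 (uHom K (X ^ (z.2 : ℕ))) ≠ 0 := by
        intro h
        exact h4 ((shift (1 : K)).injective (by rw [h, map_zero]))
      have h6 : ε₁ (σ (b z.1)) ≠ 0 := by
        intro h
        have h7 : σ (b z.1) = 0 := ε₁.injective (by rw [h, map_zero])
        have h8 : b z.1 = 0 := by
          rw [← σ.symm_apply_apply (b z.1), h7, map_zero]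
        exact b.ne_zero z.1 h8
      rw [h3, HahnSeries.order_mul h5 h6, shift_one_uHom_order _ (pow_ne_zero _ X_ne_zero),
        Polynomial.natDegree_X_pow]
      have h9 := hm₀ σ z.1
      have h10 := z.2.2
      omega
    rw [h2, smul_zero]
  -- the evaluation map
  let Λ : (S × Fin n → K) →ₗ[K] ({σ : M ≃ₐ[RatFunc K] M // σ ≠ 1} × Fin m → K) :=
    LinearMap.pi (fun z => (b4co ε₁ h₁ z.1.1 (-((z.2 : ℕ) : ℤ) - 1)).comp Φ)
  have hker : ∀ c ∈ LinearMap.ker Λ, Φ c ∈ Lsp ε₁ h₁ m := by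
    intro c hc
    rw [mem_Lsp]
    refine ⟨hint c, ?_, ?_⟩
    · intro i hi
      have := hpole 1 c i hi
      exact this
    · intro σ hσ i hi
      by_cases hi2 : i < -(m : ℤ)
      · exact hpole σ c i hi2
      · push Not at hi2
        have h1 : (-i - 1).toNat < m := by omega
        have h2 := congrFun (LinearMap.mem_ker.mp hc) (⟨σ, hσ⟩, ⟨(-i - 1).toNat, h1⟩)
        have h3 : (-(((⟨(-i - 1).toNat, h1⟩ : Fin m) : ℕ) : ℤ) - 1) = i := by
          simp only
          omega
        simp only [Λ, LinearMap.pi_apply, LinearMap.comp_apply, Pi.zero_apply] at h2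
        rw [h3] at h2
        exact h2
  -- dimension count
  have hdim : Module.finrank K (LinearMap.ker Λ) ≤ Module.finrank K (Lsp ε₁ h₁ m) := by
    have _ := finiteDimensional_Lsp ε₁ h₁ m
    let Ψ : LinearMap.ker Λ →ₗ[K] Lsp ε₁ h₁ m :=
      LinearMap.codRestrict (Lsp ε₁ h₁ m) (Φ.comp (LinearMap.ker Λ).subtype)
        (fun c => hker c.1 c.2)
    apply LinearMap.finrank_le_finrank_of_injective (f := Ψ)
    intro c c' hcc
    apply Subtype.ext
    apply hΦinj
    exact congrArg Subtype.val hcc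
  have hrn := LinearMap.finrank_range_add_finrank_ker Λ
  have hr : Module.finrank K (LinearMap.range Λ) ≤
      Fintype.card ({σ : M ≃ₐ[RatFunc K] M // σ ≠ 1} × Fin m) := by
    refine (Submodule.finrank_le _).trans ?_
    rw [Module.finrank_fintype_fun_eq_card]
  rw [Module.finrank_fintype_fun_eq_card, Fintype.card_prod, Fintype.card_fin] at hrn
  rw [Fintype.card_prod, Fintype.card_fin] at hr
  have hc1 : Fintype.card {σ : M ≃ₐ[RatFunc K] M // σ ≠ 1} = N - 1 := by
    rw [Fintype.card_subtype_compl, Fintype.card_subtype_eq, hcard]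
  have hNpos : 1 ≤ N := by
    rw [← hcard]
    exact Fintype.card_pos_iff.mpr ⟨1⟩
  rw [hc1] at hr
  rw [← hN] at hrn
  obtain ⟨N', hN'⟩ : ∃ N', N = N' + 1 := ⟨N - 1, by omega⟩
  have hn2 : n + m₀ = m + 1 := by omega
  rw [hN', Nat.add_sub_cancel] at hr
  rw [hN'] at hrn ⊢
  have h5 : (N' + 1) * n + (N' + 1) * m₀ = (N' + 1) * (m + 1) := by
    rw [← mul_add, hn2]
  nlinarith

end Pool.Agent.H9.Ram
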