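import Pool.Agent.H9.Ram.B3

/-!
# Module B5: the semilinear system

`B = q^j`, so `a ↦ a^B` is a field automorphism of `K` (`K` algebraically closed, characteristic `p`, `q` a power of `p`) and
`y ↦ y^B` is additive on `M` (`M` is an `F`-algebra in characteristic `p`; e.g. through `K`). Let `u_1, …, u_D` be a basis of
`L_l`, `D = dim L_l`. The `#J · D` elements `u_i^B f_r` lie in `L_{l B + m}`, of dimension `≤ l B + m + 1 < #J · D`, so there
is a nontrivial relation `∑ b_{r,i} u_i^B f_r = 0` over `K`; let `a_{r,i}^B = b_{r,i}` and `s_r = ∑_i a_{r,i} u_i`. Then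
`∑_r s_r^B f_r = 0` and not all `s_r` vanish.
-/

open Polynomial

noncomputable section

namespace Pool.Agent.H9.Ram

variable {F K M : Type*} [Field F] [Fintype F] [Field K] [Algebra F K] [IsAlgClosed K] [Field M]
  [Algebra (RatFunc K) M] [FiniteDimensional (RatFunc K) M] [IsGalois (RatFunc K) M]
  [Algebra K M] [IsScalarTower K (RatFunc K) M]

theorem exists_semilinear (ε₁ : M →+* LaurentSeries K) (h₁ : ε₁ ∈ Emb M (1 : K)) (l m j : ℕ)
    (J : Finset ℕ) (f : ℕ → M) (hf : ∀ r ∈ J, f r ∈ Lsp ε₁ h₁ m)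
    (hcard : l * Fintype.card F ^ j + m + 1 < J.card * Module.finrank K (Lsp ε₁ h₁ l)) :
    ∃ s : ℕ → M, (∀ r ∈ J, s r ∈ Lsp ε₁ h₁ l) ∧ (∃ r ∈ J, s r ≠ 0) ∧
      ∑ r ∈ J, s r ^ (Fintype.card F ^ j) * f r = 0 := by
  classical
  haveI hfd := finiteDimensional_Lsp ε₁ h₁ l
  haveI hfd' := finiteDimensional_Lsp ε₁ h₁ (l * Fintype.card F ^ j + m)
  set B : ℕ := Fintype.card F ^ j with hB
  have hBpos : 0 < B := pow_pos Fintype.card_pos j
  -- characteristic
  obtain ⟨p, hp⟩ := CharP.exists F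
  obtain ⟨n, hpr, hcardF⟩ := FiniteField.card F p
  haveI : Fact p.Prime := ⟨hpr⟩
  haveI hK : CharP K p := charP_of_injective_algebraMap (algebraMap F K).injective p
  haveI hM : CharP M p := charP_of_injective_algebraMap (algebraMap K M).injective p
  have hBp : B = p ^ ((n : ℕ) * j) := by rw [hB, hcardF, pow_mul]
  let D := Module.finrank K (Lsp ε₁ h₁ l)
  let u := Module.finBasis K (Lsp ε₁ h₁ l)
  let v : J × Fin D → Lsp ε₁ h₁ (l * B + m) := fun z =>
    ⟨((u z.2 : Lsp ε₁ h₁ l) : M) ^ B * f z.1, Lsp_pow_mul B (u z.2).2 (hf z.1 z.1.2)⟩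
  have hnot : ¬ LinearIndependent K v := by
    intro hli
    have h1 := hli.fintype_card_le_finrank
    have h2 := finrank_Lsp_le ε₁ h₁ (l * B + m)
    rw [Fintype.card_prod, Fintype.card_coe, Fintype.card_fin] at h1
    have h3 : l * B + m + 1 < J.card * D := hcard
    omega
  rw [Fintype.linearIndependent_iff] at hnot
  push Not at hnot
  obtain ⟨b, hb0, z0, hz0⟩ := hnot
  have hroot : ∀ z, ∃ a : K, a ^ B = b z := fun z => IsAlgClosed.exists_pow_nat_eq (b z) hBpos
  choose a ha using hroot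
  refine ⟨fun r => if hr : r ∈ J then ∑ i : Fin D, a (⟨r, hr⟩, i) • ((u i : Lsp ε₁ h₁ l) : M) else 0,
    ?_, ?_, ?_⟩
  · intro r hr
    simp only [dif_pos hr]
    exact Submodule.sum_mem _ (fun i _ => Submodule.smul_mem _ _ (u i).2)
  · refine ⟨z0.1, z0.1.2, ?_⟩
    simp only [dif_pos z0.1.2]
    intro hs
    have h1 : ∑ i : Fin D, a (⟨z0.1, z0.1.2⟩, i) • (u i : Lsp ε₁ h₁ l) = 0 := by
      apply Subtype.ext
      rw [ZeroMemClass.coe_zero, ← hs]
      push_cast
      rfl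
    have h2 := (Fintype.linearIndependent_iff.mp u.linearIndependent) _ h1 z0.2
    have h3 : a z0 = 0 := h2
    apply hz0
    rw [← ha z0, h3, zero_pow hBpos.ne']
  · have hterm : ∀ r ∈ J, ((if hr : r ∈ J then ∑ i : Fin D, a (⟨r, hr⟩, i) • ((u i : Lsp ε₁ h₁ l) : M)
        else 0) ^ B * f r) = if hr : r ∈ J then ∑ i : Fin D, b (⟨r, hr⟩, i) •
          (((u i : Lsp ε₁ h₁ l) : M) ^ B * f r) else 0 := by
      intro r hr
      rw [dif_pos hr, dif_pos hr, hBp, sum_pow_char_pow, Finset.sum_mul]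
      refine Finset.sum_congr rfl fun i _ => ?_
      rw [← hBp, _root_.smul_pow, ha, smul_mul_assoc]
    rw [Finset.sum_congr rfl hterm, ← Finset.sum_attach]
    have h4 := congrArg (fun t : Lsp ε₁ h₁ (l * B + m) => (t : M)) hb0
    rw [ZeroMemClass.coe_zero] at h4
    rw [← h4]
    push_cast
    rw [Fintype.sum_prod_type]
    refine Finset.sum_congr rfl fun r _ => ?_
    rw [dif_pos r.2]

end Pool.Agent.H9.Ram
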