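import Pool.Agent.H9.Ram.B3

/-!
# Module B6: the Frobenius twist of functions

`f^♯ = (φ^k)⁻¹ (σ⁻¹ f)`.
* for `(x₀, ε) ∈ Cnt σ k`: `frL k (ε (f^♯)) = ε f` (put `y = f^♯` in the definition of `Cnt`).
* for `τ ∈ G` the map `y ↦ frL k (ε₁ (τ ((φ^k)⁻¹ (σ⁻¹ y))))` is in `Emb M 1` (check on `K(x)`, `1^(q^k) = 1`, `frL_shift`, `pow_hφ`),
  so it is `ε₁ ∘ τ'` for a unique `τ' ∈ G`; the map `τ ↦ τ'` is a bijection of `G` (injective, `G` finite).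
* hence `order (ε₁ (τ f^♯)) = order (ε₁ (τ' f))` (`order_frL`), and `f^♯` is integral over `K[u]` if `f` is.
-/

open Polynomial

noncomputable section

namespace Pool.Agent.H9.Ram

variable {F K M : Type*} [Field F] [Fintype F] [Field K] [Algebra F K] [IsAlgClosed K] [Field M]
  [Algebra (RatFunc K) M] [FiniteDimensional (RatFunc K) M] [IsGalois (RatFunc K) M]

/-- `f^♯`. -/
def sharp (φ : M ≃+* M) (σ : M ≃ₐ[RatFunc K] M) (k : ℕ) (f : M) : M := (φ ^ k).symm (σ.symm f)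

theorem sharp_Cnt {φ : M ≃+* M} {σ : M ≃ₐ[RatFunc K] M} {k : ℕ} {z : K × (M →+* LaurentSeries K)}
    (hz : z ∈ Cnt F φ σ k) (f : M) : frL F k (z.2 (sharp φ σ k f)) = z.2 f := by
  have h := hz.2.2.2 (sharp φ σ k f)
  rw [h]
  congr 1
  unfold sharp
  rw [RingEquiv.apply_symm_apply, AlgEquiv.apply_symm_apply]

theorem sharp_int {φ : M ≃+* M} (hD : FrData F K φ) (σ : M ≃ₐ[RatFunc K] M) (k : ℕ) {f : M}
    (hf : IntU K f) : IntU K (sharp φ σ k f) :=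
  IntU.frob_symm hD (IntU.aut hf σ.symm) k

/-- The transported embedding. -/
def b6_emb (F : Type*) {K M : Type*} [Field F] [Fintype F] [Field K] [Algebra F K] [Field M]
    [Algebra (RatFunc K) M] (φ : M ≃+* M) (σ : M ≃ₐ[RatFunc K] M) (k : ℕ)
    (ε₁ : M →+* LaurentSeries K) (τ : M ≃ₐ[RatFunc K] M) : M →+* LaurentSeries K :=
  (frL F k).comp (ε₁.comp ((τ : M →+* M).comp
    (((φ ^ k).symm : M →+* M).comp (σ.symm : M →+* M))))

theorem b6_emb_apply (φ : M ≃+* M) (σ : M ≃ₐ[RatFunc K] M) (k : ℕ)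
    (ε₁ : M →+* LaurentSeries K) (τ : M ≃ₐ[RatFunc K] M) (y : M) :
    b6_emb F φ σ k ε₁ τ y = frL F k (ε₁ (τ (sharp φ σ k y))) := rfl

theorem b6_symm_algebraMap {φ : M ≃+* M} (hD : FrData F K φ) (k : ℕ) (r : RatFunc K) :
    (φ ^ k).symm (algebraMap (RatFunc K) M (frR F k r)) = algebraMap (RatFunc K) M r := by
  rw [← pow_hφ hD k r, RingEquiv.symm_apply_apply]

theorem b6_emb_mem {φ : M ≃+* M} (hD : FrData F K φ) (σ : M ≃ₐ[RatFunc K] M) (k : ℕ)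
    {ε₁ : M →+* LaurentSeries K} (h₁ : ε₁ ∈ Emb M (1 : K)) (τ : M ≃ₐ[RatFunc K] M) :
    b6_emb F φ σ k ε₁ τ ∈ Emb M (1 : K) := by
  intro r
  obtain ⟨r', rfl⟩ := (frR_bijective (F := F) (K := K) k).2 r
  rw [b6_emb_apply]
  unfold sharp
  rw [AlgEquiv.commutes, b6_symm_algebraMap hD, AlgEquiv.commutes, h₁ r', frL_shift, one_pow]

theorem b6_sharp_surjective (φ : M ≃+* M) (σ : M ≃ₐ[RatFunc K] M) (k : ℕ) (y : M) :
    ∃ f : M, sharp φ σ k f = y := by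
  refine ⟨σ ((φ ^ k) y), ?_⟩
  unfold sharp
  rw [AlgEquiv.symm_apply_apply, RingEquiv.symm_apply_apply]

theorem exists_perm {φ : M ≃+* M} (hD : FrData F K φ) (σ : M ≃ₐ[RatFunc K] M) (k : ℕ)
    (ε₁ : M →+* LaurentSeries K) (h₁ : ε₁ ∈ Emb M (1 : K)) :
    ∃ π : Equiv.Perm (M ≃ₐ[RatFunc K] M), ∀ (τ : M ≃ₐ[RatFunc K] M) (f : M),
      frL F k (ε₁ (τ (sharp φ σ k f))) = ε₁ (π τ f) := by
  have hex : ∀ τ : M ≃ₐ[RatFunc K] M, ∃ τ' : M ≃ₐ[RatFunc K] M,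
      ∀ y, b6_emb F φ σ k ε₁ τ y = ε₁ (τ' y) := fun τ =>
    Emb.exists_aut h₁ (b6_emb_mem hD σ k h₁ τ)
  choose g hg using hex
  have hinj : Function.Injective g := by
    intro τ₁ τ₂ h12
    refine Emb.aut_unique h₁ τ₁ τ₂ ?_
    intro y
    obtain ⟨f, rfl⟩ := b6_sharp_surjective φ σ k y
    apply (frL_bijective (F := F) (K := K) k).1
    have h1 := hg τ₁ f
    have h2 := hg τ₂ f
    rw [b6_emb_apply] at h1 h2
    rw [h1, h2, h12]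
  have hbij : Function.Bijective g := Finite.injective_iff_bijective.1 hinj
  refine ⟨Equiv.ofBijective g hbij, ?_⟩
  intro τ f
  exact hg τ f

theorem sharp_order {φ : M ≃+* M} (hD : FrData F K φ) (σ : M ≃ₐ[RatFunc K] M) (k : ℕ)
    (ε₁ : M →+* LaurentSeries K) (h₁ : ε₁ ∈ Emb M (1 : K)) :
    ∃ π : Equiv.Perm (M ≃ₐ[RatFunc K] M), ∀ (τ : M ≃ₐ[RatFunc K] M) (f : M),
      (ε₁ (τ (sharp φ σ k f))).order = (ε₁ (π τ f)).order := by
  obtain ⟨π, hπ⟩ := exists_perm (F := F) hD σ k ε₁ h₁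
  refine ⟨π, fun τ f => ?_⟩
  rw [← hπ τ f, order_frL]

end Pool.Agent.H9.Ram
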