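import Pool.Agent.H9.Ram.B4
import Pool.Agent.H9.Ram.B5
import Pool.Agent.H9.Ram.B6

/-!
# Module B7: the upper bound for large `q^j`

`B = q^j`, `k = 2j`, `g₀` from Riemann's inequality, `B > g₀² + 3 g₀ + 1`, `l = B - 1`, `m = B + 2 g₀`. Adapted family `(J, f)` of
`L_m` (`exists_adapted`), `#J ≥ m + 1 - g₀`, `dim L_l ≥ l + 1 - g₀`, and
`(l + 1 - g₀)(m + 1 - g₀) = (B - g₀)(B + g₀ + 1) = B² + B - g₀² - g₀ > B² + 2 g₀ + 1 = l B + m + 1`. Take `s` from
`exists_semilinear`: `∑_r s_r^B f_r = 0`. Put `h = ∑_{r∈J} s_r (f_r^♯)^B`.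
* `h ≠ 0`: let `π` be as in `sharp_order` and `τ₂ = π⁻¹ 1`. `order (ε₁ (τ₂ f_r^♯)) = order (ε₁ f_r) = - r`, so the terms
  `ε₁ (τ₂ (s_r (f_r^♯)^B))` with `s_r ≠ 0` have orders `o_r - B r` where `o_r = order (ε₁ (τ₂ s_r))` lies in `[-l, 0]` if
  `τ₂ = 1`, in `[0, l]` otherwise (`order_Lsp`); `l < B`, so the orders are pairwise different, and at least one
  `s_r ≠ 0`: the sum is nonzero.
* `h` is integral over `K[u]`. Let `R` be its norm polynomial (`exists_norm_poly`).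
  `natDegree R = - ∑_τ order (ε₁ (τ h)) ≤ l + m B`: for all `τ`: `order (ε₁ (τ h)) ≥ min_r (order (ε₁ (τ s_r)) +
  B order (ε₁ (π τ f_r)))`, where the first is `≥ -l` if `τ = 1` and `≥ 0` otherwise, the second `≥ - m B` if `π τ = 1` and `≥ 0`
  otherwise.
* for `(x₀, ε) ∈ Cnt σ k` with `x₀ ≠ 1`: `ε s_r`, `ε f_r`, `ε f_r^♯` have no negative coefficients (`IntU.coeff_eq_zero`). By
  `sharp_Cnt` the constant term of `ε f_r` is the `B²`-th power of the constant term of `ε f_r^♯`. So the `B`-th power of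
  the constant term of `ε h` is `∑ [s_r]₀^B [f_r^♯]₀^(B²) = ∑ [s_r]₀^B [f_r]₀ =` constant term of `ε (∑ s_r^B f_r) = 0`.
  So `order (ε h) ≥ 1`; for all `τ`, `order (ε (τ h)) ≥ 0`. The embeddings over `x₀` are the `ε ∘ τ`. Hence
  `#{ε : (x₀, ε) ∈ Cnt} ≤ rootMultiplicity (x₀-1)⁻¹ R`, and summing over `x₀`: at most `natDegree R` points with `x₀ ≠ 1`
  (`∑` of root multiplicities `≤` degree: `Polynomial.card_roots'`, `Polynomial.count_roots`).
* points with `x₀ = 1`: at most `|G|`.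
Total `≤ (B - 1) + (B + 2 g₀) B + |G| ≤ B² + (2 g₀ + 1) B + |G|`.
-/

open Polynomial

noncomputable section

namespace Pool.Agent.H9.Ram

section series

variable {K : Type*} [Field K]

/-- The coefficients below `a` vanish. -/
def b7V (a : ℤ) (x : LaurentSeries K) : Prop := ∀ i : ℤ, i < a → x.coeff i = 0

theorem b7V_mono {a b : ℤ} (h : a ≤ b) {x : LaurentSeries K} (hx : b7V b x) : b7V a x :=
  fun i hi => hx i (lt_of_lt_of_le hi h)

theorem b7V_of_order {a : ℤ} {x : LaurentSeries K} (h : a ≤ x.order) : b7V a x :=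
  fun _ hi => HahnSeries.coeff_eq_zero_of_lt_order (lt_of_lt_of_le hi h)

theorem b7_le_order {a : ℤ} {x : LaurentSeries K} (h0 : x ≠ 0) (hx : b7V a x) : a ≤ x.order := by
  by_contra h
  exact h0 (HahnSeries.coeff_order_eq_zero.1 (hx _ (not_le.1 h)))

theorem b7V_zero (a : ℤ) : b7V a (0 : LaurentSeries K) := fun _ _ => rfl

theorem b7V_sum {ι : Type*} {a : ℤ} (s : Finset ι) (x : ι → LaurentSeries K)
    (h : ∀ i ∈ s, b7V a (x i)) : b7V a (∑ i ∈ s, x i) := by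
  intro i hi
  rw [HahnSeries.coeff_sum]
  exact Finset.sum_eq_zero fun j hj => h j hj i hi

theorem b7V_mul {a b : ℤ} {x y : LaurentSeries K} (hx : b7V a x) (hy : b7V b y) :
    b7V (a + b) (x * y) := by
  by_cases hx0 : x = 0
  · rw [hx0, zero_mul]
    exact b7V_zero _
  by_cases hy0 : y = 0
  · rw [hy0, mul_zero]
    exact b7V_zero _
  refine b7V_of_order ?_
  rw [HahnSeries.order_mul hx0 hy0]
  exact add_le_add (b7_le_order hx0 hx) (b7_le_order hy0 hy)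

theorem b7V_one : b7V 0 (1 : LaurentSeries K) := by
  intro i hi
  rw [HahnSeries.coeff_one, if_neg hi.ne]

theorem b7V_pow {a : ℤ} {x : LaurentSeries K} (hx : b7V a x) (n : ℕ) :
    b7V ((n : ℤ) * a) (x ^ n) := by
  induction n with
  | zero => simpa using b7V_one
  | succ n ih =>
    rw [pow_succ]
    have h := b7V_mul ih hx
    have e : ((n + 1 : ℕ) : ℤ) * a = (n : ℤ) * a + a := by push_cast; ring
    rw [e]
    exact h

theorem b7_coeff_mul {x y : LaurentSeries K} (hx : b7V 0 x) (hy : b7V 0 y) :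
    (x * y).coeff 0 = x.coeff 0 * y.coeff 0 := by
  have h1 : b7V 1 (x - HahnSeries.C (x.coeff 0)) := by
    intro i hi
    rw [HahnSeries.coeff_sub]
    rcases lt_or_eq_of_le (Int.lt_add_one_iff.1 (by simpa using hi) : i ≤ 0) with h | h
    · rw [hx i h, HahnSeries.C_apply, HahnSeries.coeff_single_of_ne h.ne, sub_zero]
    · rw [h, HahnSeries.C_apply, HahnSeries.coeff_single_same, sub_self]
  have h2 : x * y = HahnSeries.C (x.coeff 0) * y + (x - HahnSeries.C (x.coeff 0)) * y := by ring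
  have h3 := b7V_mul h1 hy 0 (by norm_num)
  rw [h2, HahnSeries.coeff_add, h3, add_zero, HahnSeries.C_mul_eq_smul, HahnSeries.coeff_smul,
    smul_eq_mul]

theorem b7_coeff_pow {x : LaurentSeries K} (hx : b7V 0 x) (n : ℕ) :
    (x ^ n).coeff 0 = x.coeff 0 ^ n := by
  induction n with
  | zero => simp [HahnSeries.coeff_one]
  | succ n ih =>
    rw [pow_succ, b7_coeff_mul (by simpa using b7V_pow hx n) hx, ih, pow_succ]

theorem b7_order_pow {x : LaurentSeries K} (hx : x ≠ 0) (n : ℕ) :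
    (x ^ n).order = (n : ℤ) * x.order := by
  induction n with
  | zero => simp
  | succ n ih =>
    rw [pow_succ, HahnSeries.order_mul (pow_ne_zero n hx) hx, ih]
    push_cast
    ring

/-- A sum of series with pairwise different orders does not vanish. -/
theorem b7_sum_ne_zero {ι : Type*} (s : Finset ι) (x : ι → LaurentSeries K)
    (hne : ∃ i ∈ s, x i ≠ 0) (hinj : ∀ i ∈ s, ∀ i' ∈ s, x i ≠ 0 → x i' ≠ 0 →
      (x i).order = (x i').order → i = i') : ∑ i ∈ s, x i ≠ 0 := by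
  classical
  obtain ⟨i1, hi1, hx1⟩ := hne
  obtain ⟨i0, hi0, hmin⟩ := (s.filter (fun i => x i ≠ 0)).exists_min_image (fun i => (x i).order)
    ⟨i1, Finset.mem_filter.2 ⟨hi1, hx1⟩⟩
  rw [Finset.mem_filter] at hi0
  intro h
  have hc := congrArg (fun y : LaurentSeries K => y.coeff (x i0).order) h
  simp only [HahnSeries.coeff_sum, HahnSeries.coeff_zero] at hc
  rw [Finset.sum_eq_single i0] at hc
  · exact hi0.2 (HahnSeries.coeff_order_eq_zero.1 hc)
  · intro i hi hne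
    by_cases hxi : x i = 0
    · rw [hxi, HahnSeries.coeff_zero]
    · apply HahnSeries.coeff_eq_zero_of_lt_order
      refine lt_of_le_of_ne (hmin i (Finset.mem_filter.2 ⟨hi, hxi⟩)) fun he => hne ?_
      exact hinj i hi i0 hi0.1 hxi hi0.2 he.symm
  · intro h2
    exact absurd hi0.1 h2

end series

variable {F K M : Type*} [Field F] [Fintype F] [Field K] [Algebra F K] [IsAlgClosed K] [Field M]
  [Algebra (RatFunc K) M] [FiniteDimensional (RatFunc K) M] [IsGalois (RatFunc K) M]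
  [Algebra K M] [IsScalarTower K (RatFunc K) M]

omit [IsAlgClosed K] in
theorem b7_sum_pow (j : ℕ) {ι : Type*} (s : Finset ι) (a : ι → K) :
    (∑ i ∈ s, a i) ^ (Fintype.card F ^ j) = ∑ i ∈ s, a i ^ (Fintype.card F ^ j) := by
  have h := map_sum (fr F j : K →ₐ[F] K) a s
  simp only [fr_apply] at h
  exact h

/-- `h ≠ 0`. -/
theorem b7_h_ne {φ : M ≃+* M} (hD : FrData F K φ) (σ : M ≃ₐ[RatFunc K] M)
    (ε₁ : M →+* LaurentSeries K) (h₁ : ε₁ ∈ Emb M (1 : K)) (k l B : ℕ) (hlB : l < B)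
    (J : Finset ℕ) (f s : ℕ → M)
    (hf : ∀ r ∈ J, f r ≠ 0 ∧ (ε₁ (f r)).order = -(r : ℤ))
    (hs : ∀ r ∈ J, s r ∈ Lsp ε₁ h₁ l) (hs0 : ∃ r ∈ J, s r ≠ 0) :
    ∑ r ∈ J, s r * sharp φ σ k (f r) ^ B ≠ 0 := by
  obtain ⟨π, hπ⟩ := sharp_order (F := F) hD σ k ε₁ h₁
  set τ := π.symm 1 with hτ
  have hord : ∀ r ∈ J, (ε₁ (τ (sharp φ σ k (f r)))).order = -(r : ℤ) := by
    intro r hr
    rw [hπ τ (f r), hτ, Equiv.apply_symm_apply]
    exact (hf r hr).2
  have hsh : ∀ r ∈ J, sharp φ σ k (f r) ≠ 0 := by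
    intro r hr h0
    unfold sharp at h0
    rw [map_eq_zero_iff _ (RingEquiv.injective _), map_eq_zero_iff _ (AlgEquiv.injective _)] at h0
    exact (hf r hr).1 h0
  intro h0
  have h2 := congrArg (fun y => ε₁ (τ y)) h0
  simp only [map_sum, map_mul, map_pow, map_zero] at h2
  revert h2
  have hne : ∀ y : M, y ≠ 0 → ε₁ (τ y) ≠ 0 := by
    intro y hy h3
    rw [map_eq_zero, map_eq_zero_iff _ (AlgEquiv.injective _)] at h3
    exact hy h3
  have hord2 : ∀ r ∈ J, s r ≠ 0 → (ε₁ (τ (s r)) * ε₁ (τ (sharp φ σ k (f r))) ^ B).order =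
      (ε₁ (τ (s r))).order - (B : ℤ) * r := by
    intro r hr hsr
    rw [HahnSeries.order_mul (hne _ hsr) (pow_ne_zero _ (hne _ (hsh r hr))),
      b7_order_pow (hne _ (hsh r hr)), hord r hr]
    ring
  have hbd : ∃ a b : ℤ, b - a ≤ l ∧ ∀ r ∈ J, s r ≠ 0 →
      a ≤ (ε₁ (τ (s r))).order ∧ (ε₁ (τ (s r))).order ≤ b := by
    by_cases hτ1 : τ = 1
    · refine ⟨-(l : ℤ), 0, by omega, fun r hr hsr => ?_⟩
      have h3 := order_Lsp (hs r hr) hsr
      rw [hτ1]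
      exact ⟨h3.1, h3.2.1⟩
    · refine ⟨0, l, by omega, fun r hr hsr => ?_⟩
      exact (order_Lsp (hs r hr) hsr).2.2 τ hτ1
  obtain ⟨a, b, hab, hbd⟩ := hbd
  refine b7_sum_ne_zero J _ ?_ ?_
  · obtain ⟨r, hr, hsr⟩ := hs0
    exact ⟨r, hr, mul_ne_zero (hne _ hsr) (pow_ne_zero _ (hne _ (hsh r hr)))⟩
  · intro r hr r' hr' hx hx' he
    have hsr : s r ≠ 0 := by
      rintro h
      rw [h] at hx
      simp at hx
    have hsr' : s r' ≠ 0 := by
      rintro h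
      rw [h] at hx'
      simp at hx'
    rw [hord2 r hr hsr, hord2 r' hr' hsr'] at he
    have h3 := hbd r hr hsr
    have h4 := hbd r' hr' hsr'
    have hBl : (l : ℤ) < B := by exact_mod_cast hlB
    by_contra hne2
    rcases lt_or_gt_of_ne hne2 with h5 | h5
    · have h6 : (r : ℤ) + 1 ≤ r' := by exact_mod_cast h5
      nlinarith
    · have h6 : (r' : ℤ) + 1 ≤ r := by exact_mod_cast h5
      nlinarith

open Classical in
/-- Lower bound for the coefficients of `ε₁ (τ h)`. -/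
theorem b7_low {φ : M ≃+* M} (hD : FrData F K φ) (σ : M ≃ₐ[RatFunc K] M)
    (ε₁ : M →+* LaurentSeries K) (h₁ : ε₁ ∈ Emb M (1 : K)) (k l m B : ℕ)
    (J : Finset ℕ) (f s : ℕ → M) (hf : ∀ r ∈ J, f r ∈ Lsp ε₁ h₁ m)
    (hs : ∀ r ∈ J, s r ∈ Lsp ε₁ h₁ l) :
    ∃ π : Equiv.Perm (M ≃ₐ[RatFunc K] M), ∀ τ : M ≃ₐ[RatFunc K] M,
      b7V ((if τ = 1 then -(l : ℤ) else 0) + (B : ℤ) * (if π τ = 1 then -(m : ℤ) else 0))
        (ε₁ (τ (∑ r ∈ J, s r * sharp φ σ k (f r) ^ B))) := by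
  obtain ⟨π, hπ⟩ := exists_perm (F := F) hD σ k ε₁ h₁
  refine ⟨π, fun τ => ?_⟩
  simp only [map_sum, map_mul, map_pow]
  have hL : ∀ (n : ℕ) (y : M), y ∈ Lsp ε₁ h₁ n → ∀ τ : M ≃ₐ[RatFunc K] M,
      b7V (if τ = 1 then -(n : ℤ) else 0) (ε₁ (τ y)) := by
    intro n y hy τ i hi
    rw [mem_Lsp] at hy
    by_cases hτ : τ = 1
    · rw [if_pos hτ] at hi
      rw [hτ]
      exact hy.2.1 i hi
    · rw [if_neg hτ] at hi
      exact hy.2.2 τ hτ i hi
  refine b7V_sum _ _ fun r hr => b7V_mul (hL l _ (hs r hr) τ) (b7V_pow ?_ B)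
  intro i hi
  have h2 := hL m _ (hf r hr) (π τ) i hi
  rw [← hπ τ (f r), coeff_frL] at h2
  exact (pow_eq_zero_iff (pow_ne_zero _ Fintype.card_ne_zero)).1 h2

/-- At the points over `x₀ ≠ 1` the function `h` vanishes. -/
theorem b7_vanish {φ : M ≃+* M} (hD : FrData F K φ) (σ : M ≃ₐ[RatFunc K] M)
    (ε₁ : M →+* LaurentSeries K) (h₁ : ε₁ ∈ Emb M (1 : K)) (j l m : ℕ)
    (J : Finset ℕ) (f s : ℕ → M) (hf : ∀ r ∈ J, f r ∈ Lsp ε₁ h₁ m)
    (hs : ∀ r ∈ J, s r ∈ Lsp ε₁ h₁ l)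
    (hrel : ∑ r ∈ J, s r ^ (Fintype.card F ^ j) * f r = 0)
    {z : K × (M →+* LaurentSeries K)} (hz : z ∈ Cnt F φ σ (2 * j)) (hz1 : z.1 ≠ 1) :
    b7V 1 (z.2 (∑ r ∈ J, s r * sharp φ σ (2 * j) (f r) ^ (Fintype.card F ^ j))) := by
  set B := Fintype.card F ^ j with hB
  have hemb : z.2 ∈ Emb M z.1 := hz.2.2.1
  have hsV : ∀ r ∈ J, b7V 0 (z.2 (s r)) := fun r hr i hi =>
    IntU.coeff_eq_zero hz1 hemb (mem_Lsp.1 (hs r hr)).1 i hi
  have hfV : ∀ r ∈ J, b7V 0 (z.2 (f r)) := fun r hr i hi =>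
    IntU.coeff_eq_zero hz1 hemb (mem_Lsp.1 (hf r hr)).1 i hi
  have hgV : ∀ r ∈ J, b7V 0 (z.2 (sharp φ σ (2 * j) (f r))) := fun r hr i hi =>
    IntU.coeff_eq_zero hz1 hemb (sharp_int (F := F) hD σ (2 * j) (mem_Lsp.1 (hf r hr)).1) i hi
  have hgf : ∀ r, ((z.2 (sharp φ σ (2 * j) (f r))).coeff 0) ^ (B * B) = (z.2 (f r)).coeff 0 := by
    intro r
    have h2 := congrArg (fun y : LaurentSeries K => y.coeff 0) (sharp_Cnt hz (f r))
    simp only [coeff_frL] at h2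
    rw [← h2]
    congr 1
    rw [hB, ← pow_add]
    congr 1
    omega
  have h3 : ((z.2 (∑ r ∈ J, s r * sharp φ σ (2 * j) (f r) ^ B)).coeff 0) ^ B = 0 := by
    have h4 := congrArg (fun y => (z.2 y).coeff 0) hrel
    simp only [map_sum, map_mul, map_pow, map_zero, HahnSeries.coeff_sum,
      HahnSeries.coeff_zero] at h4 ⊢
    rw [hB, b7_sum_pow (F := F) j, ← hB, ← h4]
    refine Finset.sum_congr rfl fun r hr => ?_
    have hgB : b7V 0 (z.2 (sharp φ σ (2 * j) (f r)) ^ B) := by simpa using b7V_pow (hgV r hr) B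
    have hsB : b7V 0 (z.2 (s r) ^ B) := by simpa using b7V_pow (hsV r hr) B
    rw [b7_coeff_mul (hsV r hr) hgB, b7_coeff_pow (hgV r hr), b7_coeff_mul hsB (hfV r hr),
      b7_coeff_pow (hsV r hr), mul_pow, ← pow_mul, hgf r]
  have h5 : (z.2 (∑ r ∈ J, s r * sharp φ σ (2 * j) (f r) ^ B)).coeff 0 = 0 :=
    (pow_eq_zero_iff (pow_ne_zero _ Fintype.card_ne_zero)).1 h3
  intro i hi
  rcases lt_or_eq_of_le (Int.lt_add_one_iff.1 (by simpa using hi) : i ≤ 0) with h | h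
  · simp only [map_sum, map_mul, map_pow]
    have h6 : b7V 0 (∑ r ∈ J, z.2 (s r) * z.2 (sharp φ σ (2 * j) (f r)) ^ B) := by
      refine b7V_sum _ _ fun r hr => ?_
      have hgB : b7V 0 (z.2 (sharp φ σ (2 * j) (f r)) ^ B) := by simpa using b7V_pow (hgV r hr) B
      simpa using b7V_mul (hsV r hr) hgB
    exact h6 i h
  · rw [h]
    exact h5

/-- Number of points over `x₀ ≠ 1`. -/
theorem b7_fibre {h : M} (h0 : h ≠ 0) (H : IntU K h) {R : K[X]} (hR : ∀ x0 : K, x0 ≠ 1 →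
    ∀ ε ∈ Emb M x0, ∑ σ : M ≃ₐ[RatFunc K] M, (ε (σ h)).order =
      (R.rootMultiplicity (x0 - 1)⁻¹ : ℤ)) {x0 : K} (hx : x0 ≠ 1)
    (T : Finset (M →+* LaurentSeries K)) (hT : ∀ ε ∈ T, ε ∈ Emb M x0 ∧ b7V 1 (ε h)) :
    T.card ≤ R.rootMultiplicity (x0 - 1)⁻¹ := by
  classical
  rcases T.eq_empty_or_nonempty with he | ⟨ε₀, hε₀⟩
  · rw [he]
    simp
  have hE := (hT ε₀ hε₀).1
  have hex : ∀ ε : M →+* LaurentSeries K, ∃ τ : M ≃ₐ[RatFunc K] M,
      ε ∈ T → ∀ y, ε y = ε₀ (τ y) := by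
    intro ε
    by_cases hε : ε ∈ T
    · obtain ⟨τ, hτ⟩ := Emb.exists_aut hE (hT ε hε).1
      exact ⟨τ, fun _ => hτ⟩
    · exact ⟨1, fun h => absurd h hε⟩
  choose g hg using hex
  have hinj : Set.InjOn g (T : Set (M →+* LaurentSeries K)) := by
    intro ε hε ε' hε' he
    refine RingHom.ext fun y => ?_
    rw [hg ε hε y, hg ε' hε' y, he]
  have hne : ∀ τ : M ≃ₐ[RatFunc K] M, ε₀ (τ h) ≠ 0 := by
    intro τ h3
    rw [map_eq_zero, map_eq_zero_iff _ (AlgEquiv.injective _)] at h3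
    exact h0 h3
  have hnn : ∀ τ : M ≃ₐ[RatFunc K] M, 0 ≤ (ε₀ (τ h)).order := fun τ =>
    b7_le_order (hne τ) fun i hi => IntU.coeff_eq_zero hx hE (H.aut τ) i hi
  have h1 : (T.card : ℤ) ≤ R.rootMultiplicity (x0 - 1)⁻¹ := by
    rw [← hR x0 hx ε₀ hE]
    calc (T.card : ℤ) = ∑ τ ∈ T.image g, (1 : ℤ) := by
          rw [Finset.sum_const, Finset.card_image_of_injOn hinj, nsmul_eq_mul, mul_one]
      _ ≤ ∑ τ ∈ T.image g, (ε₀ (τ h)).order := by
          refine Finset.sum_le_sum fun τ hτ => ?_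
          obtain ⟨ε, hε, rfl⟩ := Finset.mem_image.1 hτ
          refine b7_le_order (hne _) ?_
          rw [← hg ε hε h]
          exact (hT ε hε).2
      _ ≤ ∑ τ : M ≃ₐ[RatFunc K] M, (ε₀ (τ h)).order :=
          Finset.sum_le_sum_of_subset_of_nonneg (Finset.subset_univ _) fun τ _ _ => hnn τ
  exact_mod_cast h1

omit [Fintype F] [Field F] [Algebra F K] [IsAlgClosed K] [FiniteDimensional (RatFunc K) M]
  [IsGalois (RatFunc K) M] [Algebra K M] [IsScalarTower K (RatFunc K) M] [Field M]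
  [Algebra (RatFunc K) M] in
theorem b7_roots (R : K[X]) (A : Finset K) :
    ∑ x ∈ A, R.rootMultiplicity (x - 1)⁻¹ ≤ R.natDegree := by
  classical
  have hinj : Set.InjOn (fun x : K => (x - 1)⁻¹) (A : Set K) := by
    intro x _ y _ h
    have h2 : x - 1 = y - 1 := inv_injective h
    exact sub_left_injective h2
  have h1 : ∑ x ∈ A, R.rootMultiplicity (x - 1)⁻¹ =
      ∑ a ∈ A.image (fun x : K => (x - 1)⁻¹), R.roots.count a := by
    rw [Finset.sum_image hinj]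
    exact Finset.sum_congr rfl fun x _ => (Polynomial.count_roots R).symm
  rw [h1]
  calc ∑ a ∈ A.image (fun x : K => (x - 1)⁻¹), R.roots.count a
      ≤ ∑ a ∈ A.image (fun x : K => (x - 1)⁻¹) ∪ R.roots.toFinset, R.roots.count a :=
        Finset.sum_le_sum_of_subset Finset.subset_union_left
    _ = Multiset.card R.roots := Multiset.sum_count_eq_card fun a ha =>
        Finset.mem_union_right _ (Multiset.mem_toFinset.2 ha)
    _ ≤ R.natDegree := Polynomial.card_roots' R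

theorem Cnt_le_of_large {φ : M ≃+* M} (hD : FrData F K φ) (σ : M ≃ₐ[RatFunc K] M)
    (ε₁ : M →+* LaurentSeries K) (h₁ : ε₁ ∈ Emb M (1 : K)) (g₀ : ℕ)
    (hg : ∀ m : ℕ, m + 1 ≤ Module.finrank K (Lsp ε₁ h₁ m) + g₀) (j : ℕ) (hj : 0 < j)
    (hB : g₀ ^ 2 + 3 * g₀ + 1 < Fintype.card F ^ j) :
    (Cnt F φ σ (2 * j)).ncard ≤ Fintype.card F ^ (2 * j) + (2 * g₀ + 1) * Fintype.card F ^ j +
      Fintype.card (M ≃ₐ[RatFunc K] M) := by
  classical
  set B := Fintype.card F ^ j with hBdef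
  have hBpos : 0 < B := by omega
  set l := B - 1 with hl
  set m := B + 2 * g₀ with hm
  obtain ⟨J, f, hJ, hJc⟩ := exists_adapted ε₁ h₁ m
  have hcard : l * Fintype.card F ^ j + m + 1 < J.card * Module.finrank K (Lsp ε₁ h₁ l) := by
    rw [← hBdef]
    have h2 := hg m
    have h3 := hg l
    have h4 : B + g₀ + 1 ≤ J.card := by omega
    have h5 : B - g₀ ≤ Module.finrank K (Lsp ε₁ h₁ l) := by omega
    have h6 : (B + g₀ + 1) * (B - g₀) ≤ J.card * Module.finrank K (Lsp ε₁ h₁ l) :=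
      Nat.mul_le_mul h4 h5
    refine lt_of_lt_of_le ?_ h6
    have hgB : g₀ ≤ B := by nlinarith
    obtain ⟨t, ht⟩ : ∃ t, B = g₀ + t := ⟨B - g₀, by omega⟩
    have h7 : B - g₀ = t := by omega
    have h8 : l + 1 = B := by omega
    rw [h7]
    have h9 : l * B + B = B * B := by rw [← h8]; ring
    nlinarith
  obtain ⟨s, hs, hs0, hrel⟩ := exists_semilinear (F := F) ε₁ h₁ l m j J f
    (fun r hr => (hJ r hr).2.1) hcard
  set h : M := ∑ r ∈ J, s r * sharp φ σ (2 * j) (f r) ^ B with hh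
  have h0 : h ≠ 0 := b7_h_ne (F := F) hD σ ε₁ h₁ (2 * j) l B (by omega) J f s
    (fun r hr => (hJ r hr).2.2) hs hs0
  have hf : ∀ r ∈ J, f r ∈ Lsp ε₁ h₁ m := fun r hr => (hJ r hr).2.1
  have H : IntU K h := IntU.sum _ _ fun r hr => (mem_Lsp.1 (hs r hr)).1.mul
    ((sharp_int (F := F) hD σ (2 * j) (mem_Lsp.1 (hf r hr)).1).pow B)
  obtain ⟨R, hR0, hR1, hR2⟩ := exists_norm_poly h0 H
  have hdeg : R.natDegree ≤ l + B * m := by
    obtain ⟨π, hπ⟩ := b7_low (F := F) hD σ ε₁ h₁ (2 * j) l m B J f s hf hs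
    have h2 := hR1 ε₁ h₁
    have h3 : ∀ τ : M ≃ₐ[RatFunc K] M, ((if τ = 1 then -(l : ℤ) else 0) +
        (B : ℤ) * (if π τ = 1 then -(m : ℤ) else 0)) ≤ (ε₁ (τ h)).order := by
      intro τ
      refine b7_le_order ?_ (hπ τ)
      intro h3
      rw [map_eq_zero, map_eq_zero_iff _ (AlgEquiv.injective _)] at h3
      exact h0 h3
    have h4 := Finset.sum_le_sum fun τ (_ : τ ∈ Finset.univ) => h3 τ
    rw [h2, Finset.sum_add_distrib, ← Finset.mul_sum, Equiv.sum_comp π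
      (fun τ => if τ = 1 then -(m : ℤ) else 0)] at h4
    simp only [Finset.sum_ite_eq', Finset.mem_univ, if_true] at h4
    have h5 : (R.natDegree : ℤ) ≤ l + B * m := by linarith
    exact_mod_cast h5
  have hfin : (Cnt F φ σ (2 * j)).Finite := finite_Cnt (F := F) σ (by omega)
  have hEfin : (Emb M (1 : K)).Finite := Emb.finite 1
  -- points over `1`
  have hc1 : (Cnt F φ σ (2 * j) ∩ {z | z.1 = 1}).ncard ≤
      Fintype.card (M ≃ₐ[RatFunc K] M) := by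
    rw [← Emb.ncard (M := M) (x0 := (1 : K)) ⟨ε₁, h₁⟩]
    refine Set.ncard_le_ncard_of_injOn Prod.snd ?_ ?_ hEfin
    · rintro z ⟨hz, hz1⟩
      have h2 := hz.2.2.1
      rw [Set.mem_ofPred_eq] at hz1
      rwa [hz1] at h2
    · rintro z ⟨_, hz1⟩ z' ⟨_, hz1'⟩ he
      rw [Set.mem_ofPred_eq] at hz1 hz1'
      exact Prod.ext (hz1.trans hz1'.symm) he
  -- points over `x₀ ≠ 1`
  have hc2 : (Cnt F φ σ (2 * j) ∩ {z | z.1 ≠ 1}).ncard ≤ R.natDegree := by
    have hfin2 : (Cnt F φ σ (2 * j) ∩ {z | z.1 ≠ 1}).Finite := hfin.inter_of_left _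
    rw [Set.ncard_eq_toFinset_card _ hfin2]
    set T := hfin2.toFinset with hT
    have hTmem : ∀ z ∈ T, z ∈ Cnt F φ σ (2 * j) ∧ z.1 ≠ 1 := by
      intro z hz
      rw [hT, Set.Finite.mem_toFinset] at hz
      exact ⟨hz.1, hz.2⟩
    rw [Finset.card_eq_sum_card_image Prod.fst T]
    refine le_trans (Finset.sum_le_sum fun x0 hx0 => ?_) (b7_roots R (T.image Prod.fst))
    obtain ⟨z0, hz0, hz0x⟩ := Finset.mem_image.1 hx0
    have hx1 : x0 ≠ 1 := by
      rw [← hz0x]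
      exact (hTmem z0 hz0).2
    have hci : (T.filter (fun z => z.1 = x0)).card =
        ((T.filter (fun z => z.1 = x0)).image Prod.snd).card := by
      rw [Finset.card_image_of_injOn]
      intro z hz z' hz' he
      rw [Finset.mem_coe, Finset.mem_filter] at hz hz'
      exact Prod.ext (hz.2.trans hz'.2.symm) he
    rw [hci]
    refine b7_fibre h0 H hR2 hx1 _ fun ε hε => ?_
    obtain ⟨z, hz, rfl⟩ := Finset.mem_image.1 hε
    rw [Finset.mem_filter] at hz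
    have hz2 := hTmem z hz.1
    refine ⟨?_, b7_vanish (F := F) hD σ ε₁ h₁ j l m J f s hf hs hrel hz2.1 hz2.2⟩
    rw [← hz.2]
    exact hz2.1.2.2.1
  have hun : Cnt F φ σ (2 * j) = (Cnt F φ σ (2 * j) ∩ {z | z.1 ≠ 1}) ∪
      (Cnt F φ σ (2 * j) ∩ {z | z.1 = 1}) := by
    ext z
    by_cases hz : z.1 = 1 <;> simp [hz]
  have hlast : l + B * m ≤ Fintype.card F ^ (2 * j) + (2 * g₀ + 1) * B := by
    have h2 : Fintype.card F ^ (2 * j) = B * B := by
      rw [hBdef, ← pow_add]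
      congr 1
      omega
    rw [h2, hm]
    have h3 : l ≤ B := by omega
    nlinarith
  calc (Cnt F φ σ (2 * j)).ncard ≤ (Cnt F φ σ (2 * j) ∩ {z | z.1 ≠ 1}).ncard +
        (Cnt F φ σ (2 * j) ∩ {z | z.1 = 1}).ncard := by
        conv_lhs => rw [hun]
        exact Set.ncard_union_le _ _
    _ ≤ (l + B * m) + Fintype.card (M ≃ₐ[RatFunc K] M) := add_le_add (hc2.trans hdeg) hc1
    _ ≤ _ := by omega

end Pool.Agent.H9.Ram
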