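import Pool.Agent.H9.Ram.B7

/-!
# Module B8: the point counting theorem

Upper bound for all `j > 0`: large `q^j` by B7, small `q^j ≤ g₀² + 3 g₀ + 1` by the trivial bound
`|G| q^(2j) ≤ |G| (g₀² + 3 g₀ + 1) q^j`. Lower bound: `∑_σ N_σ = |G| (q^(2j) - 1)` (`sum_Cnt`), so
`N_σ ≥ |G| (q^(2j) - 1) - (|G| - 1)(q^(2j) + C₁ q^j) ≥ q^(2j) - |G| - (|G| - 1) C₁ q^j`.
-/

open Polynomial

noncomputable section

namespace Pool.Agent.H9.Ram

variable {F K M : Type*} [Field F] [Fintype F] [Field K] [Algebra F K] [IsAlgClosed K] [Field M]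
  [Algebra (RatFunc K) M] [FiniteDimensional (RatFunc K) M] [IsGalois (RatFunc K) M]

/-- The upper bound, for all `j > 0`, with a constant that does not depend on `σ` and `j`. -/
theorem b8_upper {φ : M ≃+* M} (hD : FrData F K φ) :
    ∃ C : ℕ, ∀ (σ : M ≃ₐ[RatFunc K] M) (j : ℕ), 0 < j →
      (Cnt F φ σ (2 * j)).ncard ≤ Fintype.card F ^ (2 * j) + C * Fintype.card F ^ j := by
  obtain ⟨ε₁, h₁⟩ := hD.emb 1 one_ne_zero
  let _ : Algebra K M := ((algebraMap (RatFunc K) M).comp (algebraMap K (RatFunc K))).toAlgebra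
  have _ : IsScalarTower K (RatFunc K) M := IsScalarTower.of_algebraMap_eq (fun _ => rfl)
  obtain ⟨g₀, hg⟩ := riemann_ineq ε₁ h₁
  refine ⟨Fintype.card (M ≃ₐ[RatFunc K] M) * (g₀ ^ 2 + 3 * g₀ + 1) + (2 * g₀ + 1) +
    Fintype.card (M ≃ₐ[RatFunc K] M), fun σ j hj => ?_⟩
  have hq : 0 < Fintype.card F := Fintype.card_pos
  have hqj : 1 ≤ Fintype.card F ^ j := Nat.one_le_iff_ne_zero.2 (pow_ne_zero _ hq.ne')
  generalize hN : Fintype.card (M ≃ₐ[RatFunc K] M) = N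
  have hsq : Fintype.card F ^ (2 * j) = Fintype.card F ^ j * Fintype.card F ^ j := by
    rw [two_mul, pow_add]
  rcases lt_or_ge (g₀ ^ 2 + 3 * g₀ + 1) (Fintype.card F ^ j) with hB | hB
  · have h := Cnt_le_of_large hD σ ε₁ h₁ g₀ hg j hj hB
    rw [hN] at h
    refine h.trans ?_
    have h2 : N ≤ N * Fintype.card F ^ j := Nat.le_mul_of_pos_right _ hqj
    have h3 : (N * (g₀ ^ 2 + 3 * g₀ + 1) + (2 * g₀ + 1) + N) * Fintype.card F ^ j =
        N * (g₀ ^ 2 + 3 * g₀ + 1) * Fintype.card F ^ j + (2 * g₀ + 1) * Fintype.card F ^ j +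
          N * Fintype.card F ^ j := by ring
    rw [h3]
    have h4 : 0 ≤ N * (g₀ ^ 2 + 3 * g₀ + 1) * Fintype.card F ^ j := Nat.zero_le _
    omega
  · have h := Cnt_le_trivial hD σ (k := 2 * j) (by omega)
    rw [hN] at h
    refine h.trans ?_
    have h2 : N * Fintype.card F ^ (2 * j) ≤
        N * (g₀ ^ 2 + 3 * g₀ + 1) * Fintype.card F ^ j := by
      rw [hsq, ← mul_assoc]
      exact Nat.mul_le_mul_right _ (Nat.mul_le_mul_left _ hB)
    have h3 : (N * (g₀ ^ 2 + 3 * g₀ + 1) + (2 * g₀ + 1) + N) * Fintype.card F ^ j =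
        N * (g₀ ^ 2 + 3 * g₀ + 1) * Fintype.card F ^ j + (2 * g₀ + 1) * Fintype.card F ^ j +
          N * Fintype.card F ^ j := by ring
    rw [h3]
    have h4 : 0 ≤ (2 * g₀ + 1) * Fintype.card F ^ j := Nat.zero_le _
    have h5 : 0 ≤ N * Fintype.card F ^ j := Nat.zero_le _
    omega

theorem Cnt_bound {φ : M ≃+* M} (hD : FrData F K φ) :
    ∃ C : ℝ, ∀ (σ : M ≃ₐ[RatFunc K] M) (j : ℕ), 0 < j →
      |((Cnt F φ σ (2 * j)).ncard : ℝ) - (Fintype.card F : ℝ) ^ (2 * j)| ≤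
        C * (Fintype.card F : ℝ) ^ j := by
  classical
  obtain ⟨C₁, hC₁⟩ := b8_upper hD
  refine ⟨(C₁ : ℝ) + (Fintype.card (M ≃ₐ[RatFunc K] M) : ℝ) * (1 + C₁), fun σ j hj => ?_⟩
  have hsum := sum_Cnt hD (k := 2 * j) (by omega)
  have hq : 0 < Fintype.card F := Fintype.card_pos
  have hqR : (1 : ℝ) ≤ (Fintype.card F : ℝ) := by exact_mod_cast hq
  have hqj : (1 : ℝ) ≤ (Fintype.card F : ℝ) ^ j := one_le_pow₀ hqR
  have hq2 : 1 ≤ Fintype.card F ^ (2 * j) := Nat.one_le_iff_ne_zero.2 (pow_ne_zero _ hq.ne')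
  -- the sum, in the reals
  have hsumR : ∑ τ : M ≃ₐ[RatFunc K] M, ((Cnt F φ τ (2 * j)).ncard : ℝ) =
      (Fintype.card (M ≃ₐ[RatFunc K] M) : ℝ) * ((Fintype.card F : ℝ) ^ (2 * j) - 1) := by
    have := congrArg (fun n : ℕ => (n : ℝ)) hsum
    simp only [Nat.cast_sum, Nat.cast_mul, Nat.cast_sub hq2, Nat.cast_pow, Nat.cast_one] at this
    exact this
  have hup : ∀ τ : M ≃ₐ[RatFunc K] M, ((Cnt F φ τ (2 * j)).ncard : ℝ) ≤
      (Fintype.card F : ℝ) ^ (2 * j) + C₁ * (Fintype.card F : ℝ) ^ j := by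
    intro τ
    exact_mod_cast hC₁ τ j hj
  have hN1 : 1 ≤ Fintype.card (M ≃ₐ[RatFunc K] M) := Fintype.card_pos
  have hrest : ∑ τ ∈ Finset.univ.erase σ, ((Cnt F φ τ (2 * j)).ncard : ℝ) ≤
      ((Fintype.card (M ≃ₐ[RatFunc K] M) : ℝ) - 1) *
        ((Fintype.card F : ℝ) ^ (2 * j) + C₁ * (Fintype.card F : ℝ) ^ j) := by
    refine (Finset.sum_le_card_nsmul _ _ _ fun τ _ => hup τ).trans (le_of_eq ?_)
    rw [Finset.card_erase_of_mem (Finset.mem_univ σ), Finset.card_univ, nsmul_eq_mul,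
      Nat.cast_sub hN1, Nat.cast_one]
  have hsplit := Finset.add_sum_erase Finset.univ
    (fun τ : M ≃ₐ[RatFunc K] M => ((Cnt F φ τ (2 * j)).ncard : ℝ)) (Finset.mem_univ σ)
  rw [hsumR] at hsplit
  have hNR : (1 : ℝ) ≤ (Fintype.card (M ≃ₐ[RatFunc K] M) : ℝ) := by exact_mod_cast hN1
  have hC₁0 : (0 : ℝ) ≤ C₁ := Nat.cast_nonneg _
  generalize (Fintype.card (M ≃ₐ[RatFunc K] M) : ℝ) = N at *
  generalize (Fintype.card F : ℝ) ^ (2 * j) = Q2 at *
  generalize (Fintype.card F : ℝ) ^ j = Q at *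
  have hσ := hup σ
  rw [abs_le]
  constructor
  · nlinarith [mul_nonneg hC₁0 (le_trans zero_le_one hqj), mul_nonneg (le_trans zero_le_one hNR)
      (sub_nonneg.2 hqj)]
  · nlinarith [mul_nonneg hC₁0 (le_trans zero_le_one hqj), mul_nonneg (le_trans zero_le_one hNR)
      (mul_nonneg (add_nonneg zero_le_one hC₁0) (le_trans zero_le_one hqj))]

end Pool.Agent.H9.Ram
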