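import Pool.Agent.H9.Ram.Defs

/-!
# Module C1: linear algebra of cyclic nilpotent submodules (`IsCyc`)

`L = span (ν^i y)`, `ν^(n+1) y = 0`, `ν^n y ≠ 0`. Then `y, ν y, …, ν^n y` is a basis of `L`
(independent: apply powers of `ν` to a relation), so `dim L = n + 1`, `L` is stable under `ν`, killed by
`ν^(n+1)`, and `L ⊓ ker ν^j` is spanned by `ν^(n+1-j) y, …, ν^n y` for `j ≤ n + 1`.
Conversely a finite dimensional `ν`-stable `L` with nilpotent `ν` and `dim (L ⊓ ker ν) ≤ 1` is cyclic:
`dim (L ⊓ ker ν^j) ≤ j` by induction (rank-nullity for `ν : L ⊓ ker ν^(j+1) → L ⊓ ker ν^j`), so some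
`y ∈ L` has `ν^n y ≠ 0` where `dim L = n + 1`; `L` is killed by `ν^(n+1)` (the kernels `L ⊓ ker ν^j`
strictly increase until they are everything, and everything is reached), and the span of the `ν^i y` has
dimension `n + 1`.
-/

noncomputable section

namespace Pool.Agent.H9.Ram

/-! ### auxiliary facts -/

private theorem c1_comm {F V : Type*} [Field F] [AddCommGroup V] [Module F V] (ν : Module.End F V)
    (i j : ℕ) (y : V) : (ν ^ i) ((ν ^ j) y) = (ν ^ (i + j)) y := by
  rw [pow_add]
  rfl

private theorem c1_succ {F V : Type*} [Field F] [AddCommGroup V] [Module F V] (ν : Module.End F V)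
    (i : ℕ) (y : V) : ν ((ν ^ i) y) = (ν ^ (i + 1)) y := by
  rw [pow_succ']
  rfl

private theorem c1_succ' {F V : Type*} [Field F] [AddCommGroup V] [Module F V] (ν : Module.End F V)
    (i : ℕ) (y : V) : (ν ^ i) (ν y) = (ν ^ (i + 1)) y := by
  rw [pow_succ]
  rfl

private theorem c1_mkCyc {F V : Type*} [Field F] [AddCommGroup V] [Module F V] (ν : Module.End F V)
    (n : ℕ) (y : V) (h1 : (ν ^ (n + 1)) y = 0) (h2 : (ν ^ n) y ≠ 0) :
    IsCyc ν n (Submodule.span F (Set.range fun i : ℕ => (ν ^ i) y)) := ⟨y, h1, h2, rfl⟩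

private theorem c1_rn {F V : Type*} [Field F] [AddCommGroup V] [Module F V] (g : Module.End F V)
    (L : Submodule F V) [FiniteDimensional F L] :
    Module.finrank F (L.map g) + Module.finrank F (L ⊓ LinearMap.ker g : Submodule F V)
      = Module.finrank F L := by
  have h1 := LinearMap.finrank_range_add_finrank_ker (g.domRestrict L)
  have h2 : LinearMap.range (g.domRestrict L) = L.map g := LinearMap.range_domRestrict L g
  have h3 : LinearMap.ker (g.domRestrict L) = (LinearMap.ker g).comap L.subtype := by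
    ext x
    rfl
  have h4 : Module.finrank F ((LinearMap.ker g).comap L.subtype)
      = Module.finrank F (L ⊓ LinearMap.ker g : Submodule F V) := by
    rw [← Submodule.finrank_map_subtype_eq, Submodule.map_comap_subtype]
  rw [h2, h3, h4] at h1
  exact h1

namespace IsCyc

variable {F V : Type*} [Field F] [AddCommGroup V] [Module F V] {ν : Module.End F V} {n : ℕ}
  {L : Submodule F V}

theorem map_le (h : IsCyc ν n L) : L.map ν ≤ L := by
  obtain ⟨y, h1, h2, h3⟩ := h
  rw [h3, Submodule.map_span, Submodule.span_le]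
  rintro _ ⟨_, ⟨i, rfl⟩, rfl⟩
  simp only
  rw [c1_succ]
  exact Submodule.subset_span ⟨i + 1, rfl⟩

theorem apply_mem (h : IsCyc ν n L) {y : V} (hy : y ∈ L) : ν y ∈ L :=
  h.map_le (Submodule.mem_map_of_mem hy)

theorem finiteDimensional (h : IsCyc ν n L) : FiniteDimensional F L := by
  obtain ⟨y, h1, h2, h3⟩ := h
  have hfin : (Set.range fun i : ℕ => (ν ^ i) y).Finite := by
    refine Set.Finite.subset ((Set.finite_Iio (n + 1)).image (fun i : ℕ => (ν ^ i) y) |>.union
      (Set.finite_singleton (0 : V))) ?_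
    rintro _ ⟨i, rfl⟩
    rcases lt_or_ge i (n + 1) with hi | hi
    · exact Or.inl ⟨i, hi, rfl⟩
    · right
      obtain ⟨k, rfl⟩ := Nat.exists_eq_add_of_le hi
      simp only [Set.mem_singleton_iff]
      rw [add_comm (n + 1) k, ← c1_comm, h1, map_zero]
  rw [h3]
  exact FiniteDimensional.span_of_finite F hfin

theorem le_ker (h : IsCyc ν n L) : L ≤ LinearMap.ker (ν ^ (n + 1)) := by
  obtain ⟨y, h1, h2, h3⟩ := h
  rw [h3, Submodule.span_le]
  rintro _ ⟨i, rfl⟩
  simp only [SetLike.mem_coe, LinearMap.mem_ker]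
  rw [c1_comm, add_comm, ← c1_comm, h1, map_zero]

private theorem c1_mapPow (h : IsCyc ν n L) {j : ℕ} (hj : j ≤ n) : IsCyc ν (n - j) (L.map (ν ^ j)) := by
  obtain ⟨y, h1, h2, h3⟩ := h
  refine ⟨(ν ^ j) y, ?_, ?_, ?_⟩
  · rw [c1_comm, show n - j + 1 + j = n + 1 by omega]
    exact h1
  · rw [c1_comm, show n - j + j = n by omega]
    exact h2
  · rw [h3, Submodule.map_span]
    congr 1
    ext x
    constructor
    · rintro ⟨_, ⟨i, rfl⟩, rfl⟩
      refine ⟨i, ?_⟩
      simp only
      rw [c1_comm, c1_comm, add_comm]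
    · rintro ⟨i, rfl⟩
      refine ⟨_, ⟨i, rfl⟩, ?_⟩
      simp only
      rw [c1_comm, c1_comm, add_comm]

theorem finrank_eq (h : IsCyc ν n L) : Module.finrank F L = n + 1 := by
  induction n generalizing L with
  | zero =>
    obtain ⟨y, h1, h2, h3⟩ := h
    have h4 : L = Submodule.span F {y} := by
      rw [h3]
      apply le_antisymm
      · rw [Submodule.span_le]
        rintro _ ⟨i, rfl⟩
        rcases Nat.eq_zero_or_pos i with rfl | hi
        · simp only [pow_zero, Module.End.one_apply, SetLike.mem_coe]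
          exact Submodule.mem_span_singleton_self y
        · obtain ⟨k, rfl⟩ := Nat.exists_eq_add_of_le hi
          simp only [SetLike.mem_coe]
          have : (ν ^ (0 + 1)) y = 0 := h1
          rw [Nat.succ_eq_add_one, add_comm (0 + 1) k, ← c1_comm, this, map_zero]
          exact Submodule.zero_mem _
      · rw [Submodule.span_le, Set.singleton_subset_iff]
        exact Submodule.subset_span ⟨0, rfl⟩
    have h5 : y ≠ 0 := by
      intro hy
      rw [hy, map_zero] at h2
      exact h2 rfl
    rw [h4, finrank_span_singleton h5]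
  | succ n ih =>
    have hfd := h.finiteDimensional
    have hm : IsCyc ν n (L.map ν) := by
      have := c1_mapPow h (j := 1) (by omega)
      rwa [pow_one, Nat.add_sub_cancel] at this
    have h0 := ih hm
    have hle := h.map_le
    have hk := hm.le_ker
    obtain ⟨y, h1, h2, h3⟩ := h
    have hy : y ∈ L := by
      rw [h3]
      exact Submodule.subset_span ⟨0, rfl⟩
    have hyn : y ∉ L.map ν := by
      intro hy'
      exact h2 (LinearMap.mem_ker.1 (hk hy'))
    have h5 : y ≠ 0 := by
      intro hy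
      rw [hy, map_zero] at h2
      exact h2 rfl
    have hsup : L = Submodule.span F {y} ⊔ L.map ν := by
      apply le_antisymm
      · conv_lhs => rw [h3]
        rw [Submodule.span_le]
        rintro _ ⟨i, rfl⟩
        rcases Nat.eq_zero_or_pos i with rfl | hi
        · simp only [pow_zero, Module.End.one_apply, SetLike.mem_coe]
          exact Submodule.mem_sup_left (Submodule.mem_span_singleton_self y)
        · obtain ⟨k, rfl⟩ := Nat.exists_eq_add_of_le hi
          simp only [SetLike.mem_coe]
          refine Submodule.mem_sup_right ⟨(ν ^ k) y, ?_, ?_⟩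
          · rw [h3]
            exact Submodule.subset_span ⟨k, rfl⟩
          · rw [c1_succ, Nat.succ_eq_add_one]
            congr 2
            omega
      · refine sup_le ?_ hle
        rw [Submodule.span_le, Set.singleton_subset_iff]
        exact hy
    have hinf : Submodule.span F {y} ⊓ L.map ν = ⊥ := by
      rw [eq_bot_iff]
      rintro x ⟨hx1, hx2⟩
      obtain ⟨c, rfl⟩ := Submodule.mem_span_singleton.1 hx1
      by_cases hc : c = 0
      · rw [hc, zero_smul]
        exact Submodule.zero_mem _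
      · exact absurd ((Submodule.smul_mem_iff _ hc).1 hx2) hyn
    have hfm : FiniteDimensional F (L.map ν) := hm.finiteDimensional
    have h6 := Submodule.finrank_sup_add_finrank_inf_eq (Submodule.span F {y}) (L.map ν)
    rw [hinf, ← hsup, finrank_bot, finrank_span_singleton h5, h0] at h6
    omega

theorem finrank_inf_ker_pow (h : IsCyc ν n L) {j : ℕ} (hj : j ≤ n + 1) :
    Module.finrank F (L ⊓ LinearMap.ker (ν ^ j) : Submodule F V) = j := by
  have hfd := h.finiteDimensional
  have h1 := c1_rn (ν ^ j) L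
  rw [h.finrank_eq] at h1
  rcases Nat.lt_or_ge n j with hlt | hle
  · have hjn : j = n + 1 := by omega
    have h2 : L.map (ν ^ j) = ⊥ := by
      rw [eq_bot_iff]
      rintro _ ⟨x, hx, rfl⟩
      rw [hjn]
      exact (Submodule.mem_bot F).2 (LinearMap.mem_ker.1 (h.le_ker hx))
    rw [h2, finrank_bot] at h1
    omega
  · have h2 := (c1_mapPow h hle).finrank_eq
    omega

theorem finrank_inf_ker (h : IsCyc ν n L) :
    Module.finrank F (L ⊓ LinearMap.ker ν : Submodule F V) = 1 := by
  have := h.finrank_inf_ker_pow (j := 1) (by omega)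
  rwa [pow_one] at this

private theorem c1_map_pow_le (h : IsCyc ν n L) (j : ℕ) : L.map (ν ^ j) ≤ L := by
  induction j with
  | zero =>
    rintro _ ⟨x, hx, rfl⟩
    exact hx
  | succ j ih =>
    rintro _ ⟨x, hx, rfl⟩
    rw [← c1_succ]
    exact h.apply_mem (ih (Submodule.mem_map_of_mem hx))

private theorem c1_inf_ker (h : IsCyc ν n L) {j : ℕ} (hj : j ≤ n) :
    L ⊓ LinearMap.ker (ν ^ (j + 1)) = L.map (ν ^ (n - j)) := by
  have hfd := h.finiteDimensional
  have h1 : L.map (ν ^ (n - j)) ≤ L ⊓ LinearMap.ker (ν ^ (j + 1)) := by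
    refine le_inf (c1_map_pow_le h _) ?_
    rintro _ ⟨x, hx, rfl⟩
    rw [LinearMap.mem_ker, c1_comm, show j + 1 + (n - j) = n + 1 by omega]
    exact LinearMap.mem_ker.1 (h.le_ker hx)
  have h2 := (c1_mapPow h (j := n - j) (by omega)).finrank_eq
  have h3 := h.finrank_inf_ker_pow (j := j + 1) (by omega)
  have hfd2 : FiniteDimensional F (L ⊓ LinearMap.ker (ν ^ (j + 1)) : Submodule F V) :=
    Submodule.finiteDimensional_of_le inf_le_left
  exact (Submodule.eq_of_le_of_finrank_eq h1 (by omega)).symm

/-- The submodules of lower level. -/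
theorem inf_ker_pow (h : IsCyc ν n L) {j : ℕ} (hj : j ≤ n) :
    IsCyc ν j (L ⊓ LinearMap.ker (ν ^ (j + 1))) := by
  rw [c1_inf_ker h hj]
  have := c1_mapPow h (j := n - j) (by omega)
  rwa [show n - (n - j) = j by omega] at this

/-- `ν L` is the submodule of level one less. -/
theorem map_eq (h : IsCyc ν (n + 1) L) : L.map ν = L ⊓ LinearMap.ker (ν ^ (n + 1)) := by
  rw [c1_inf_ker h (j := n) (by omega), show n + 1 - n = 1 by omega, pow_one]

/-- Two cyclic modules of the same level, one contained in the other, are equal. -/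
theorem eq_of_le (h : IsCyc ν n L) {L' : Submodule F V} (h' : IsCyc ν n L') (hle : L ≤ L') :
    L = L' := by
  have hfd := h'.finiteDimensional
  exact Submodule.eq_of_le_of_finrank_eq hle (by rw [h.finrank_eq, h'.finrank_eq])

private theorem c1_pow_mem (h : IsCyc ν n L) {y : V} (hy : y ∈ L) (i : ℕ) : (ν ^ i) y ∈ L :=
  c1_map_pow_le h i (Submodule.mem_map_of_mem hy)

/-- Any element of `L` not killed by `ν ^ n` generates `L`. -/
theorem eq_span_of_mem (h : IsCyc ν n L) {y : V} (hy : y ∈ L) (hn : (ν ^ n) y ≠ 0) :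
    L = Submodule.span F (Set.range fun i : ℕ => (ν ^ i) y) := by
  refine (eq_of_le (c1_mkCyc ν n y (LinearMap.mem_ker.1 (h.le_ker hy)) hn) h ?_).symm
  rw [Submodule.span_le]
  rintro _ ⟨i, rfl⟩
  exact c1_pow_mem h hy i

/-- Transport along a linear map injective on `L` (also between different spaces). -/
theorem map {V' : Type*} [AddCommGroup V'] [Module F V'] {ν' : Module.End F V'} (h : IsCyc ν n L)
    (f : V →ₗ[F] V') (hf : ∀ y ∈ L, f (ν y) = ν' (f y)) (hinj : ∀ y ∈ L, f y = 0 → y = 0) :
    IsCyc ν' n (L.map f) := by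
  have hmem := fun (y : V) (hy : y ∈ L) (i : ℕ) => c1_pow_mem h hy i
  obtain ⟨y, h1, h2, h3⟩ := h
  have hy : y ∈ L := by
    rw [h3]
    exact Submodule.subset_span ⟨0, rfl⟩
  have key : ∀ i : ℕ, (ν' ^ i) (f y) = f ((ν ^ i) y) := by
    intro i
    induction i with
    | zero => rfl
    | succ i ih => rw [← c1_succ, ih, ← hf _ (hmem y hy i), c1_succ]
  refine ⟨f y, ?_, ?_, ?_⟩
  · rw [key, h1, map_zero]
  · rw [key]
    intro h0
    exact h2 (hinj _ (hmem y hy n) h0)
  · rw [h3, Submodule.map_span]
    congr 1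
    ext x
    constructor
    · rintro ⟨_, ⟨i, rfl⟩, rfl⟩
      exact ⟨i, key i⟩
    · rintro ⟨i, rfl⟩
      exact ⟨_, ⟨i, rfl⟩, (key i).symm⟩

end IsCyc

/-- Recognition of cyclic modules. -/
theorem isCyc_of_finrank {F V : Type*} [Field F] [AddCommGroup V] [Module F V]
    {ν : Module.End F V} {n N : ℕ} {L : Submodule F V} [FiniteDimensional F L]
    (hmap : ∀ y ∈ L, ν y ∈ L) (hN : L ≤ LinearMap.ker (ν ^ N))
    (h1 : Module.finrank F (L ⊓ LinearMap.ker ν : Submodule F V) ≤ 1)
    (hn : Module.finrank F L = n + 1) : IsCyc ν n L := by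
  classical
  -- dimensions of the kernels
  have hdim : ∀ j : ℕ, Module.finrank F (L ⊓ LinearMap.ker (ν ^ j) : Submodule F V) ≤ j := by
    intro j
    induction j with
    | zero =>
      have : (L ⊓ LinearMap.ker (ν ^ 0) : Submodule F V) = ⊥ := by
        rw [eq_bot_iff]
        rintro x ⟨_, hx⟩
        exact hx
      rw [this, finrank_bot]
    | succ j ih =>
      have hfd : FiniteDimensional F (L ⊓ LinearMap.ker (ν ^ (j + 1)) : Submodule F V) :=
        Submodule.finiteDimensional_of_le inf_le_left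
      have hfd' : FiniteDimensional F (L ⊓ LinearMap.ker (ν ^ j) : Submodule F V) :=
        Submodule.finiteDimensional_of_le inf_le_left
      have hfd'' : FiniteDimensional F (L ⊓ LinearMap.ker ν : Submodule F V) :=
        Submodule.finiteDimensional_of_le inf_le_left
      have h2 := c1_rn ν (L ⊓ LinearMap.ker (ν ^ (j + 1)))
      have h3 : (L ⊓ LinearMap.ker (ν ^ (j + 1))).map ν ≤ L ⊓ LinearMap.ker (ν ^ j) := by
        rintro _ ⟨x, ⟨hx1, hx2⟩, rfl⟩
        refine ⟨hmap x hx1, ?_⟩
        rw [SetLike.mem_coe, LinearMap.mem_ker, c1_succ']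
        exact hx2
      have h4 : (L ⊓ LinearMap.ker (ν ^ (j + 1)) ⊓ LinearMap.ker ν : Submodule F V)
          ≤ L ⊓ LinearMap.ker ν := inf_le_inf_right _ inf_le_left
      have h5 := Submodule.finrank_mono h3
      have h6 := Submodule.finrank_mono h4
      omega
  -- the exact level
  have hex : ∃ M : ℕ, L ≤ LinearMap.ker (ν ^ M) := ⟨N, hN⟩
  obtain ⟨M, hM, hMmin⟩ : ∃ M, L ≤ LinearMap.ker (ν ^ M) ∧ ∀ k < M, ¬ L ≤ LinearMap.ker (ν ^ k) :=
    ⟨Nat.find hex, Nat.find_spec hex, fun k hk => Nat.find_min hex hk⟩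
  have hM0 : M ≠ 0 := by
    rintro rfl
    have h2 := hdim 0
    rw [inf_eq_left.2 hM] at h2
    omega
  obtain ⟨m, rfl⟩ := Nat.exists_eq_succ_of_ne_zero hM0
  have h3 := hMmin m (Nat.lt_succ_self m)
  obtain ⟨y, hy, hym⟩ := SetLike.not_le_iff_exists.1 h3
  rw [LinearMap.mem_ker] at hym
  have hy1 : (ν ^ (m + 1)) y = 0 := LinearMap.mem_ker.1 (hM hy)
  have hpow : ∀ i : ℕ, (ν ^ i) y ∈ L := by
    intro i
    induction i with
    | zero => exact hy
    | succ i ih =>
      rw [← c1_succ]
      exact hmap _ ih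
  have hle : Submodule.span F (Set.range fun i : ℕ => (ν ^ i) y) ≤ L := by
    rw [Submodule.span_le]
    rintro _ ⟨i, rfl⟩
    exact hpow i
  have hcyc := c1_mkCyc ν m y hy1 hym
  have h4 := hcyc.finrank_eq
  have h5 := Submodule.finrank_mono hle
  have h6 := hdim (m + 1)
  rw [inf_eq_left.2 hM] at h6
  have hmn : m = n := by omega
  subst hmn
  have h7 : Submodule.span F (Set.range fun i : ℕ => (ν ^ i) y) = L :=
    Submodule.eq_of_le_of_finrank_eq hle (by rw [h4, hn])
  rw [← h7]
  exact hcyc

/-- A map that commutes with `ν` on `L` and is invertible modulo nilpotents: if `f` is a polynomial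
in `ν` with nonzero constant term then `f` maps `L` onto itself. -/
theorem IsCyc.map_aeval_eq {F V : Type*} [Field F] [AddCommGroup V] [Module F V]
    {ν : Module.End F V} {n : ℕ} {L : Submodule F V} (h : IsCyc ν n L) (g : Polynomial F)
    (hg : g.coeff 0 ≠ 0) : L.map (Polynomial.aeval ν g) = L := by
  have hcomm : ∀ (p : Polynomial F) (x : V), Polynomial.aeval ν p (ν x) = ν (Polynomial.aeval ν p x) := by
    intro p x
    have h1 : Polynomial.aeval ν (p * Polynomial.X) = Polynomial.aeval ν (Polynomial.X * p) := by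
      rw [mul_comm]
    rw [map_mul, map_mul, Polynomial.aeval_X] at h1
    exact congrArg (fun f : Module.End F V => f x) h1
  have hcommp : ∀ (p : Polynomial F) (i : ℕ) (x : V),
      (ν ^ i) (Polynomial.aeval ν p x) = Polynomial.aeval ν p ((ν ^ i) x) := by
    intro p i x
    induction i with
    | zero => rfl
    | succ i ih => rw [← c1_succ, ih, ← hcomm, c1_succ]
  have hmem : ∀ x ∈ L, Polynomial.aeval ν g x ∈ L := by
    intro x hx
    rw [Polynomial.aeval_eq_sum_range, LinearMap.sum_apply]
    refine Submodule.sum_mem _ fun i _ => ?_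
    rw [LinearMap.smul_apply]
    exact Submodule.smul_mem _ _ (IsCyc.c1_pow_mem h hx i)
  have hinj : ∀ x ∈ L, Polynomial.aeval ν g x = 0 → x = 0 := by
    intro x hx h0
    have hdec : ∀ z : V, Polynomial.aeval ν g z
        = Polynomial.aeval ν g.divX (ν z) + g.coeff 0 • z := by
      intro z
      conv_lhs => rw [← Polynomial.divX_mul_X_add g]
      rw [map_add, map_mul, Polynomial.aeval_X, Polynomial.aeval_C]
      rfl
    have hz : ∀ k : ℕ, k ≤ n + 1 → (ν ^ (n + 1 - k)) x = 0 := by
      intro k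
      induction k with
      | zero =>
        intro _
        exact LinearMap.mem_ker.1 (h.le_ker hx)
      | succ k ih =>
        intro hk
        have h2 := ih (by omega)
        have h3 : Polynomial.aeval ν g ((ν ^ (n + 1 - (k + 1))) x) = 0 := by
          rw [← hcommp, h0, map_zero]
        rw [hdec, c1_succ, show n + 1 - (k + 1) + 1 = n + 1 - k by omega, h2, map_zero, zero_add] at h3
        exact (smul_eq_zero.1 h3).resolve_left hg
    have h4 := hz (n + 1) le_rfl
    rw [Nat.sub_self, pow_zero] at h4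
    exact h4
  refine IsCyc.eq_of_le (h.map (Polynomial.aeval ν g) (fun y _ => hcomm g y) hinj) h ?_
  rintro _ ⟨x, hx, rfl⟩
  exact hmem x hx

end Pool.Agent.H9.Ram
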