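import Pool.Agent.H9.Ram.C1

/-!
# Module C2: counting cyclic submodules

`F` finite with `q` elements, `dim ker ν ≤ 2`. The number of `L` with `IsCyc ν n L` is at most `(q + 1) q^n` (and finite).
Induction on `n`. `n = 0`: the `L` are lines in `ker ν`. Step: `L ↦ L₀ = L ⊓ ker ν^(n+1)` maps the cyclic modules of level `n + 1`
to those of level `n` (`IsCyc.inf_ker_pow`). Given `L₀`, all `L` above it satisfy `L₀ ≤ L ≤ W = ν⁻¹(L₀)` (as `ν L = L₀` by
`IsCyc.map_eq`), `dim W ≤ dim L₀ + 2 = n + 3`, `dim L = n + 2`: the `L / L₀` are lines in `W / L₀`, which has dimension at most two;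
there are at most `q + 1` such lines. If `dim W / L₀ = 2` (otherwise at most one `L`) then `dim (ker ν) = 2`, `L₀ + ker ν ≤ W` has
dimension `n + 2` and gives a line which is not of the form `L / L₀`, since `L ⊓ ker ν` has dimension one. So at most `q`.
-/

noncomputable section

namespace Pool.Agent.H9.Ram

theorem c2_ker_finite {F V : Type*} [Field F] [Finite F] [AddCommGroup V] [Module F V]
    (ν : Module.End F V) [FiniteDimensional F (LinearMap.ker ν)] (k : ℕ) :
    ((LinearMap.ker (ν ^ k) : Submodule F V) : Set V).Finite := by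
  have hker : ((LinearMap.ker ν : Submodule F V) : Set V).Finite := by
    have : Finite (LinearMap.ker ν) := Module.finite_of_finite F
    exact Set.toFinite _
  induction k with
  | zero =>
    have h : ((LinearMap.ker (ν ^ 0) : Submodule F V) : Set V) = {0} := by
      ext v
      simp
    rw [h]
    exact Set.finite_singleton 0
  | succ k ih =>
    have h : ((LinearMap.ker (ν ^ (k + 1)) : Submodule F V) : Set V) =
        (fun v => ν v) ⁻¹' ((LinearMap.ker (ν ^ k) : Submodule F V) : Set V) := by
      ext v
      simp only [SetLike.mem_coe, LinearMap.mem_ker, Set.mem_preimage, pow_succ,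
        Module.End.mul_apply]
    rw [h]
    apply ih.preimage'
    intro b _
    by_cases hb : ∃ a, ν a = b
    · obtain ⟨a, ha⟩ := hb
      apply (hker.image (fun v => v + a)).subset
      intro v hv
      refine ⟨v - a, ?_, by simp⟩
      show ν (v - a) = 0
      have hv' : ν v = b := hv
      rw [map_sub, hv', ha, sub_self]
    · have h0 : (fun v => ν v) ⁻¹' {b} = ∅ := by
        rw [Set.eq_empty_iff_forall_notMem]
        intro v hv
        exact hb ⟨v, hv⟩
      rw [h0]
      exact Set.finite_empty

theorem finite_isCyc {F V : Type*} [Field F] [Finite F] [AddCommGroup V] [Module F V]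
    (ν : Module.End F V) [FiniteDimensional F (LinearMap.ker ν)] (n : ℕ) :
    {L : Submodule F V | IsCyc ν n L}.Finite := by
  have h := (c2_ker_finite ν (n + 1)).finite_subsets
  have h2 := h.preimage (f := fun L : Submodule F V => (L : Set V))
    (SetLike.coe_injective.injOn)
  apply h2.subset
  intro L hL
  exact hL.le_ker

theorem c2_card {F V : Type*} [Field F] [Fintype F] [AddCommGroup V] [Module F V]
    (P : Submodule F V) [FiniteDimensional F P] (S : Finset V) (hS : ∀ v, v ∈ S ↔ v ∈ P) :
    S.card = Fintype.card F ^ Module.finrank F P := by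
  have h1 : Nat.card P = S.card := Nat.subtype_card S hS
  rw [← h1, Module.natCard_eq_pow_finrank (K := F), Nat.card_eq_fintype_card]

theorem c2_count {F V : Type*} [Field F] [AddCommGroup V] [Module F V]
    (A : Set (Submodule F V)) (hA : A.Finite) (L0 : Submodule F V) (X : Finset V) (c : ℕ)
    (g : Submodule F V → Finset V) (hg : ∀ L ∈ A, ∀ v, v ∈ g L ↔ v ∈ L ∧ v ∉ L0)
    (h1 : ∀ L ∈ A, g L ⊆ X) (h2 : ∀ L ∈ A, c ≤ (g L).card)
    (h3 : ∀ L ∈ A, ∀ L' ∈ A, ∀ v, v ∈ L → v ∈ L' → v ∉ L0 → L = L') :
    A.ncard * c ≤ X.card := by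
  classical
  rw [Set.ncard_eq_toFinset_card A hA]
  have hm : ∀ L, L ∈ hA.toFinset ↔ L ∈ A := fun L => hA.mem_toFinset
  have hdisj : ∀ L ∈ hA.toFinset, ∀ L' ∈ hA.toFinset, L ≠ L' → Disjoint (g L) (g L') := by
    intro L hL L' hL' hne
    rw [Finset.disjoint_left]
    intro v hv hv'
    have h4 := (hg L ((hm L).1 hL) v).1 hv
    have h5 := (hg L' ((hm L').1 hL') v).1 hv'
    exact hne (h3 L ((hm L).1 hL) L' ((hm L').1 hL') v h4.1 h5.1 h4.2)
  calc hA.toFinset.card * c = ∑ _L ∈ hA.toFinset, c := by rw [Finset.sum_const, smul_eq_mul]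
    _ ≤ ∑ L ∈ hA.toFinset, (g L).card := Finset.sum_le_sum (fun L hL => h2 L ((hm L).1 hL))
    _ = (hA.toFinset.biUnion g).card := (Finset.card_biUnion hdisj).symm
    _ ≤ X.card := by
      apply Finset.card_le_card
      rw [Finset.biUnion_subset]
      exact fun L hL => h1 L ((hm L).1 hL)

theorem c2_finrank_comap {F V : Type*} [Field F] [AddCommGroup V] [Module F V]
    (ν : Module.End F V) [FiniteDimensional F (LinearMap.ker ν)] (L0 : Submodule F V)
    [FiniteDimensional F L0] [FiniteDimensional F (L0.comap ν)] :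
    Module.finrank F (L0.comap ν) ≤ Module.finrank F L0 + Module.finrank F (LinearMap.ker ν) := by
  let f : (L0.comap ν) →ₗ[F] L0 :=
    (ν.domRestrict (L0.comap ν)).codRestrict L0 (fun v => v.2)
  have h := LinearMap.finrank_range_add_finrank_ker f
  have h1 : Module.finrank F (LinearMap.range f) ≤ Module.finrank F L0 :=
    Submodule.finrank_le _
  have hmem : ∀ v : LinearMap.ker f, ((v : L0.comap ν) : V) ∈ LinearMap.ker ν := by
    intro v
    have hv : f (v : L0.comap ν) = 0 := v.2
    have := congrArg (fun w : L0 => (w : V)) hv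
    exact this
  let g : LinearMap.ker f →ₗ[F] LinearMap.ker ν :=
    LinearMap.codRestrict (LinearMap.ker ν)
      ((L0.comap ν).subtype.comp (LinearMap.ker f).subtype) hmem
  have hg : Function.Injective g := by
    intro a b hab
    have := congrArg (fun w : LinearMap.ker ν => (w : V)) hab
    exact Subtype.ext (Subtype.ext this)
  have h2 := LinearMap.finrank_le_finrank_of_injective hg
  omega

theorem c2_zero {F V : Type*} [Field F] [Fintype F] [AddCommGroup V] [Module F V]
    (ν : Module.End F V) [FiniteDimensional F (LinearMap.ker ν)]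
    (h2 : Module.finrank F (LinearMap.ker ν) ≤ 2) :
    {L : Submodule F V | IsCyc ν 0 L}.ncard ≤ Fintype.card F + 1 := by
  classical
  have hq : 1 < Fintype.card F := Fintype.one_lt_card
  have hfin : ((LinearMap.ker ν : Submodule F V) : Set V).Finite := by
    simpa using c2_ker_finite ν 1
  let S : Finset V := hfin.toFinset
  have hS : ∀ v, v ∈ S ↔ v ∈ LinearMap.ker ν := fun v => hfin.mem_toFinset
  have hScard := c2_card (LinearMap.ker ν) S hS
  have hle : ∀ L : Submodule F V, IsCyc ν 0 L → L ≤ LinearMap.ker ν := by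
    intro L hL
    have := hL.le_ker
    simpa using this
  have hmain := c2_count {L : Submodule F V | IsCyc ν 0 L} (finite_isCyc ν 0) ⊥ (S.erase 0)
    (Fintype.card F - 1) (fun L => S.filter (fun v => v ∈ L ∧ v ∉ (⊥ : Submodule F V)))
    (by
      intro L hL v
      rw [Finset.mem_filter, hS]
      exact ⟨fun h => h.2, fun h => ⟨hle L hL h.1, h⟩⟩)
    (by
      intro L hL v hv
      rw [Finset.mem_filter] at hv
      rw [Finset.mem_erase]
      exact ⟨fun h => hv.2.2 (by rw [h]; exact Submodule.zero_mem _), hv.1⟩)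
    (by
      intro L hL
      have hfd := hL.finiteDimensional
      have hc := c2_card L (S.filter (fun v => v ∈ L)) (by
        intro v
        rw [Finset.mem_filter, hS]
        exact ⟨fun h => h.2, fun h => ⟨hle L hL h, h⟩⟩)
      rw [hL.finrank_eq] at hc
      have he : S.filter (fun v => v ∈ L ∧ v ∉ (⊥ : Submodule F V)) =
          (S.filter (fun v => v ∈ L)).erase 0 := by
        ext v
        simp only [Finset.mem_filter, Finset.mem_erase, Submodule.mem_bot]
        tauto
      rw [he, Finset.card_erase_of_mem (by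
        rw [Finset.mem_filter, hS]
        exact ⟨Submodule.zero_mem _, Submodule.zero_mem _⟩), hc]
      simp)
    (by
      intro L hL L' hL' v hv hv' hv0
      have h0 : (ν ^ 0) v ≠ 0 := by
        intro h
        apply hv0
        rw [pow_zero, Module.End.one_apply] at h
        rw [h]
        exact Submodule.zero_mem _
      rw [hL.eq_span_of_mem hv h0, ← hL'.eq_span_of_mem hv' h0])
  rw [Finset.card_erase_of_mem ((hS 0).2 (Submodule.zero_mem _)), hScard] at hmain
  have h3 : Fintype.card F ^ Module.finrank F (LinearMap.ker ν) ≤ Fintype.card F ^ 2 :=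
    Nat.pow_le_pow_right (by omega) h2
  obtain ⟨t, ht⟩ : ∃ t, Fintype.card F = t + 1 := ⟨Fintype.card F - 1, by omega⟩
  rw [ht] at hmain h3 hq ⊢
  have h4 : (t + 1) ^ 2 - 1 = (t + 1 + 1) * t := by
    have : (t + 1) ^ 2 = (t + 1 + 1) * t + 1 := by ring
    omega
  have h5 : {L : Submodule F V | IsCyc ν 0 L}.ncard * t ≤ (t + 1 + 1) * t := by
    rw [← h4]
    have h6 : t + 1 - 1 = t := by omega
    rw [h6] at hmain
    omega
  exact Nat.le_of_mul_le_mul_right h5 (by omega)

theorem c2_step {F V : Type*} [Field F] [Fintype F] [AddCommGroup V] [Module F V]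
    (ν : Module.End F V) [FiniteDimensional F (LinearMap.ker ν)]
    (h2 : Module.finrank F (LinearMap.ker ν) ≤ 2) (n : ℕ) (L0 : Submodule F V)
    (hL0 : IsCyc ν n L0) :
    {L : Submodule F V | IsCyc ν (n + 1) L ∧ L ⊓ LinearMap.ker (ν ^ (n + 1)) = L0}.ncard ≤
      Fintype.card F := by
  classical
  have hq : 1 < Fintype.card F := Fintype.one_lt_card
  set A : Set (Submodule F V) :=
    {L : Submodule F V | IsCyc ν (n + 1) L ∧ L ⊓ LinearMap.ker (ν ^ (n + 1)) = L0} with hAdef
  have hAfin : A.Finite := (finite_isCyc ν (n + 1)).subset (fun L hL => hL.1)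
  have hfd0 : FiniteDimensional F L0 := hL0.finiteDimensional
  set W : Submodule F V := L0.comap ν with hW
  set U : Submodule F V := L0 ⊔ LinearMap.ker ν with hU
  have hWker : W ≤ LinearMap.ker (ν ^ (n + 2)) := by
    intro v hv
    have h3 : ν v ∈ LinearMap.ker (ν ^ (n + 1)) := hL0.le_ker hv
    rw [LinearMap.mem_ker] at h3 ⊢
    rw [pow_succ, Module.End.mul_apply]
    exact h3
  have hWfin : (W : Set V).Finite := (c2_ker_finite ν (n + 2)).subset hWker
  have hfdW : FiniteDimensional F W := by
    have : Finite W := hWfin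
    exact Module.Finite.of_finite
  have hUW : U ≤ W := by
    rw [hU, sup_le_iff]
    refine ⟨fun v hv => hL0.apply_mem hv, fun v hv => ?_⟩
    show ν v ∈ L0
    rw [LinearMap.mem_ker] at hv
    rw [hv]
    exact Submodule.zero_mem _
  have hfdU : FiniteDimensional F U := Submodule.finiteDimensional_of_le hUW
  have hdimW : Module.finrank F W ≤ n + 1 + Module.finrank F (LinearMap.ker ν) := by
    have := c2_finrank_comap ν L0
    rw [hL0.finrank_eq] at this
    exact this
  have hdimU : Module.finrank F U + 1 = n + 1 + Module.finrank F (LinearMap.ker ν) := by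
    have := Submodule.finrank_sup_add_finrank_inf_eq L0 (LinearMap.ker ν)
    rw [hL0.finrank_eq, hL0.finrank_inf_ker] at this
    exact this
  let S : Finset V := hWfin.toFinset
  have hS : ∀ v, v ∈ S ↔ v ∈ W := fun v => hWfin.mem_toFinset
  have hScard := c2_card W S hS
  have hUcard := c2_card U (S.filter (fun v => v ∈ U)) (by
    intro v
    rw [Finset.mem_filter, hS]
    exact ⟨fun h => h.2, fun h => ⟨hUW h, h⟩⟩)
  have hXcard : (S.filter (fun v => v ∈ U)).card + (S.filter (fun v => ¬ v ∈ U)).card = S.card :=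
    Finset.card_filter_add_card_filter_not _
  -- facts about the members
  have hLW : ∀ L ∈ A, L ≤ W := by
    intro L hL v hv
    show ν v ∈ L0
    rw [← hL.2, ← hL.1.map_eq]
    exact Submodule.mem_map_of_mem hv
  have hL0L : ∀ L ∈ A, L0 ≤ L := by
    intro L hL
    rw [← hL.2]
    exact inf_le_left
  have hnotU : ∀ L ∈ A, ∀ v ∈ L, v ∉ L0 → v ∉ U := by
    intro L hL v hv hv0 hvU
    apply hv0
    obtain ⟨a, ha, b, hb, hab⟩ := Submodule.mem_sup.1 hvU
    have hbL : b ∈ L := by
      have : b = v - a := by rw [← hab]; abel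
      rw [this]
      exact L.sub_mem hv (hL0L L hL ha)
    have hb0 : b ∈ L0 := by
      rw [← hL.2]
      refine ⟨hbL, ?_⟩
      show (ν ^ (n + 1)) b = 0
      rw [LinearMap.mem_ker] at hb
      rw [pow_succ, Module.End.mul_apply, hb, map_zero]
    rw [← hab]
    exact L0.add_mem ha hb0
  have hmain := c2_count A hAfin L0 (S.filter (fun v => ¬ v ∈ U))
    (Fintype.card F ^ (n + 2) - Fintype.card F ^ (n + 1))
    (fun L => S.filter (fun v => v ∈ L ∧ v ∉ L0))
    (by
      intro L hL v
      rw [Finset.mem_filter, hS]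
      exact ⟨fun h => h.2, fun h => ⟨hLW L hL h.1, h⟩⟩)
    (by
      intro L hL v hv
      rw [Finset.mem_filter] at hv ⊢
      exact ⟨hv.1, hnotU L hL v hv.2.1 hv.2.2⟩)
    (by
      intro L hL
      have hfd := hL.1.finiteDimensional
      have hc := c2_card L (S.filter (fun v => v ∈ L)) (by
        intro v
        rw [Finset.mem_filter, hS]
        exact ⟨fun h => h.2, fun h => ⟨hLW L hL h, h⟩⟩)
      rw [hL.1.finrank_eq] at hc
      have hc0 := c2_card L0 ((S.filter (fun v => v ∈ L)).filter (fun v => v ∈ L0)) (by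
        intro v
        rw [Finset.mem_filter, Finset.mem_filter, hS]
        exact ⟨fun h => h.2, fun h => ⟨⟨hLW L hL (hL0L L hL h), hL0L L hL h⟩, h⟩⟩)
      rw [hL0.finrank_eq] at hc0
      have he : S.filter (fun v => v ∈ L ∧ v ∉ L0) =
          (S.filter (fun v => v ∈ L)).filter (fun v => ¬ v ∈ L0) := by
        rw [Finset.filter_filter]
      have hadd : ((S.filter (fun v => v ∈ L)).filter (fun v => v ∈ L0)).card +
          ((S.filter (fun v => v ∈ L)).filter (fun v => ¬ v ∈ L0)).card =
          (S.filter (fun v => v ∈ L)).card :=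
        Finset.card_filter_add_card_filter_not _
      rw [he]
      have h5 : n + 1 + 1 = n + 2 := rfl
      rw [h5] at hc
      omega)
    (by
      intro L hL L' hL' v hv hv' hv0
      have h0 : (ν ^ (n + 1)) v ≠ 0 := by
        intro h
        apply hv0
        rw [← hL.2]
        exact ⟨hv, h⟩
      rw [hL.1.eq_span_of_mem hv h0, ← hL'.1.eq_span_of_mem hv' h0])
  -- arithmetic
  set κ := Module.finrank F (LinearMap.ker ν) with hκ
  have hdU : Module.finrank F U = n + κ := by omega
  rw [hdU] at hUcard
  have hWle : Fintype.card F ^ Module.finrank F W ≤ Fintype.card F ^ (n + κ + 1) :=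
    Nat.pow_le_pow_right (by omega) (by omega)
  have hκ2 : Fintype.card F ^ (n + κ) ≤ Fintype.card F ^ (n + 2) :=
    Nat.pow_le_pow_right (by omega) (by omega)
  obtain ⟨t, ht⟩ : ∃ t, Fintype.card F = t + 1 := ⟨Fintype.card F - 1, by omega⟩
  have e1 : Fintype.card F ^ (n + 2) - Fintype.card F ^ (n + 1) =
      Fintype.card F ^ (n + 1) * t := by
    have : Fintype.card F ^ (n + 2) = Fintype.card F ^ (n + 1) * t + Fintype.card F ^ (n + 1) := by
      rw [pow_succ, ht]
      ring
    omega
  have e2 : Fintype.card F ^ (n + κ + 1) =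
      Fintype.card F ^ (n + κ) * t + Fintype.card F ^ (n + κ) := by
    rw [pow_succ, ht]
    ring
  have e3 : (S.filter (fun v => ¬ v ∈ U)).card ≤ Fintype.card F ^ (n + κ) * t := by
    omega
  have e4 : Fintype.card F ^ (n + κ) * t ≤ Fintype.card F * (Fintype.card F ^ (n + 1) * t) := by
    calc Fintype.card F ^ (n + κ) * t ≤ Fintype.card F ^ (n + 2) * t :=
          Nat.mul_le_mul_right t hκ2
      _ = Fintype.card F * (Fintype.card F ^ (n + 1) * t) := by
          rw [pow_succ (Fintype.card F) (n + 1)]
          ring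
  rw [e1] at hmain
  have hpos : 0 < Fintype.card F ^ (n + 1) * t := by
    have : 0 < Fintype.card F ^ (n + 1) := Nat.pow_pos (by omega)
    exact Nat.mul_pos this (by omega)
  exact Nat.le_of_mul_le_mul_right (hmain.trans (e3.trans e4)) hpos

theorem ncard_isCyc_le {F V : Type*} [Field F] [Fintype F] [AddCommGroup V] [Module F V]
    (ν : Module.End F V) [FiniteDimensional F (LinearMap.ker ν)]
    (h2 : Module.finrank F (LinearMap.ker ν) ≤ 2) (n : ℕ) :
    {L : Submodule F V | IsCyc ν n L}.ncard ≤ (Fintype.card F + 1) * Fintype.card F ^ n := by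
  classical
  induction n with
  | zero =>
    rw [pow_zero, mul_one]
    exact c2_zero ν h2
  | succ n ih =>
    have hfin := finite_isCyc ν (n + 1)
    have hfin0 := finite_isCyc ν n
    rw [Set.ncard_eq_toFinset_card _ hfin]
    rw [Set.ncard_eq_toFinset_card _ hfin0] at ih
    have h := Finset.card_le_mul_card_image_of_maps_to
      (s := hfin.toFinset) (t := hfin0.toFinset)
      (f := fun L : Submodule F V => L ⊓ LinearMap.ker (ν ^ (n + 1)))
      (by
        intro L hL
        have hL' : IsCyc ν (n + 1) L := hfin.mem_toFinset.1 hL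
        have := hL'.inf_ker_pow (j := n) (by omega)
        rw [hfin0.mem_toFinset]
        exact this)
      (Fintype.card F)
      (by
        intro L0 hL0
        have hL0' : IsCyc ν n L0 := hfin0.mem_toFinset.1 hL0
        have h3 := c2_step ν h2 n L0 hL0'
        have h4 : {L : Submodule F V | IsCyc ν (n + 1) L ∧
            L ⊓ LinearMap.ker (ν ^ (n + 1)) = L0} =
            ((hfin.toFinset.filter (fun L => L ⊓ LinearMap.ker (ν ^ (n + 1)) = L0) :
              Finset (Submodule F V)) : Set (Submodule F V)) := by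
          ext L
          simp only [Set.mem_ofPred_eq, Finset.coe_filter, Set.Finite.mem_toFinset]
        rw [h4, Set.ncard_coe_finset] at h3
        exact h3)
    calc hfin.toFinset.card ≤ Fintype.card F * hfin0.toFinset.card := h
      _ ≤ Fintype.card F * ((Fintype.card F + 1) * Fintype.card F ^ n) :=
        Nat.mul_le_mul_left _ ih
      _ = (Fintype.card F + 1) * Fintype.card F ^ (n + 1) := by ring

end Pool.Agent.H9.Ram
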