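import Pool.Agent.H9.Ram.T3

/-!
# Definitions of project RAM

`F` is a finite field with `q` elements, `K` a field over `F` (algebraically closed from some point on).
-/

open Polynomial

noncomputable section

namespace Pool.Agent.H9.Ram

/-! ## Cyclic nilpotent submodules -/

/-- `L` is the cyclic `F[ν]`-module generated by a vector `y` with `ν^(n+1) y = 0`, `ν^n y ≠ 0`
(so `L` has dimension `n + 1`). -/
def IsCyc {F V : Type*} [Field F] [AddCommGroup V] [Module F V] (ν : Module.End F V) (n : ℕ)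
    (L : Submodule F V) : Prop :=
  ∃ y : V, (ν ^ (n + 1)) y = 0 ∧ (ν ^ n) y ≠ 0 ∧
    L = Submodule.span F (Set.range fun i : ℕ => (ν ^ i) y)

/-! ## The automaton -/

/-- Parameters: `c ≠ d` nonzero in `F` and `a` with `a ^ (q + 1) = d`. -/
structure Par (F K : Type*) [Field F] [Fintype F] [Field K] [Algebra F K] where
  /-- the place of the generators -/
  c : F
  /-- the place of the tree -/
  d : F
  /-- the base point of the tree -/
  a : K
  hc : c ≠ 0
  hd : d ≠ 0
  hcd : c ≠ d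
  ha : a ^ (Fintype.card F + 1) = algebraMap F K d

namespace Par

variable {F K : Type*} [Field F] [Fintype F] [Field K] [Algebra F K] (p : Par F K)

/-- The states `u`, `u ^ (q + 1) = c`. -/
def St : Type _ := {u : K // u ^ (Fintype.card F + 1) = algebraMap F K p.c}

/-- The letters `b`, `b ^ (q + 1) = d`, `b ≠ - a ^ q`. -/
def Lt : Type _ :=
  {b : K // b ^ (Fintype.card F + 1) = algebraMap F K p.d ∧ b ≠ -(p.a ^ Fintype.card F)}

/-- `w = (u + a) ^ (q - 1)`. -/
def w (u : K) : K := (u + p.a) ^ (Fintype.card F - 1)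

/-- `-1 = 1` or `q` odd. -/
theorem neg_one_pow : (-1 : K) ^ (Fintype.card F + 1) = 1 := by
  have h : (-1 : F) ^ Fintype.card F = -1 := FiniteField.pow_card (-1)
  have h2 : (-1 : K) ^ Fintype.card F = -1 := by
    have := congrArg (algebraMap F K) h
    simpa using this
  rw [pow_succ, h2]; ring

theorem ne_zero_of_pow {x : K} {r : F} (hr : r ≠ 0)
    (h : x ^ (Fintype.card F + 1) = algebraMap F K r) : x ≠ 0 := by
  rintro rfl
  rw [zero_pow (by omega)] at h
  exact hr ((map_eq_zero (algebraMap F K)).1 h.symm)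

theorem a_ne_zero : p.a ≠ 0 := ne_zero_of_pow p.hd p.ha

/-- Elements with `x ^ (q + 1) ∈ F` are in `F_{q²}`. -/
theorem pow_card_sq_of_pow {x : K} {r : F}
    (h : x ^ (Fintype.card F + 1) = algebraMap F K r) : x ^ (Fintype.card F ^ 2) = x := by
  by_cases hx : x = 0
  · subst hx; rw [zero_pow]; exact pow_ne_zero _ Fintype.card_ne_zero
  · have hr : r ≠ 0 := by
      rintro rfl
      rw [map_zero] at h
      exact hx (pow_eq_zero_iff (by omega) |>.1 h)
    have hq : 0 < Fintype.card F := Fintype.card_pos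
    have h2 : (x ^ (Fintype.card F + 1)) ^ (Fintype.card F - 1) = 1 := by
      rw [h, ← map_pow, FiniteField.pow_card_sub_one_eq_one r hr, map_one]
    have h3 : Fintype.card F ^ 2 = (Fintype.card F + 1) * (Fintype.card F - 1) + 1 := by
      obtain ⟨m, hm⟩ : ∃ m, Fintype.card F = m + 1 := ⟨Fintype.card F - 1, by omega⟩
      rw [hm]; simp only [Nat.add_sub_cancel]; ring
    rw [h3, pow_succ, pow_mul, h2, one_mul]

theorem add_pow_card (x y : K) : (x + y) ^ Fintype.card F = x ^ Fintype.card F + y ^ Fintype.card F := by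
  have := map_add (fr F 1 : K →ₐ[F] K) x y
  simpa [fr_apply] using this

theorem u_add_a_ne_zero (u : p.St) : u.1 + p.a ≠ 0 := by
  intro h
  have h1 : u.1 = -p.a := eq_neg_of_add_eq_zero_left h
  have h2 := u.2
  rw [h1, neg_pow, neg_one_pow, one_mul, p.ha] at h2
  exact p.hcd (((algebraMap F K).injective h2).symm)

/-- In `F_{q²}^*`, the element `x ^ (q - 1)` has norm one. -/
theorem pow_sub_one_pow {x : K} (hx : x ≠ 0) (h : x ^ (Fintype.card F ^ 2) = x) :
    (x ^ (Fintype.card F - 1)) ^ (Fintype.card F + 1) = 1 := by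
  have hq : 0 < Fintype.card F := Fintype.card_pos
  have h3 : Fintype.card F ^ 2 = (Fintype.card F - 1) * (Fintype.card F + 1) + 1 := by
    obtain ⟨m, hm⟩ : ∃ m, Fintype.card F = m + 1 := ⟨Fintype.card F - 1, by omega⟩
    rw [hm]; simp only [Nat.add_sub_cancel]; ring
  rw [← pow_mul]
  rw [h3, pow_succ] at h
  exact mul_right_cancel₀ hx (by rw [one_mul]; exact h)

theorem fix_add {x y : K} (hx : x ^ (Fintype.card F ^ 2) = x) (hy : y ^ (Fintype.card F ^ 2) = y) :
    (x + y) ^ (Fintype.card F ^ 2) = x + y := by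
  have h := map_add (fr F 2 : K →ₐ[F] K) x y
  simp only [fr_apply] at h
  rw [h, hx, hy]

theorem w_pow (u : p.St) : (p.w u.1) ^ (Fintype.card F + 1) = 1 :=
  pow_sub_one_pow (p.u_add_a_ne_zero u) (fix_add (pow_card_sq_of_pow u.2) (pow_card_sq_of_pow p.ha))

theorem w_ne_zero (u : p.St) : p.w u.1 ≠ 0 := pow_ne_zero _ (p.u_add_a_ne_zero u)

theorem b_ne_zero (b : p.Lt) : b.1 ≠ 0 := ne_zero_of_pow p.hd b.2.1

/-- The next state `u' = u w a / b`. -/
def nxt (u : p.St) (b : p.Lt) : p.St :=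
  ⟨u.1 * p.w u.1 * p.a / b.1, by
    rw [div_pow, mul_pow, mul_pow, p.w_pow, u.2, p.ha, b.2.1, mul_one, mul_div_assoc,
      div_self ((map_ne_zero (algebraMap F K)).2 p.hd), mul_one]⟩

theorem uw_add_b_ne_zero (u : p.St) (b : p.Lt) : u.1 * p.w u.1 + b.1 ≠ 0 := by
  intro h
  have h1 := p.u_add_a_ne_zero (p.nxt u b)
  apply h1
  show u.1 * p.w u.1 * p.a / b.1 + p.a = 0
  have hb := p.b_ne_zero b
  field_simp
  linear_combination p.a * h

theorem w_mul (u : p.St) : p.w u.1 * (u.1 + p.a) = u.1 ^ Fintype.card F + p.a ^ Fintype.card F := by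
  have hq : 0 < Fintype.card F := Fintype.card_pos
  rw [w, ← pow_succ, Nat.sub_add_cancel hq, add_pow_card]

theorem out_eq (u : p.St) (b : p.Lt) :
    b.1 * p.w u.1 * (u.1 * p.w u.1 + b.1) ^ (Fintype.card F - 1) * (u.1 * p.w u.1 + b.1) =
      b.1 * u.1 ^ Fintype.card F + p.w u.1 * algebraMap F K p.d := by
  have hq : 0 < Fintype.card F := Fintype.card_pos
  rw [mul_assoc (b.1 * p.w u.1), ← pow_succ, Nat.sub_add_cancel hq, add_pow_card, mul_pow]
  have h1 := p.w_pow u
  have h2 := b.2.1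
  rw [pow_succ] at h1 h2
  linear_combination (b.1 * u.1 ^ Fintype.card F) * h1 + p.w u.1 * h2

/-- The output letter `b' = b w (u w + b) ^ (q - 1)`. -/
def out (u : p.St) (b : p.Lt) : p.Lt :=
  ⟨b.1 * p.w u.1 * (u.1 * p.w u.1 + b.1) ^ (Fintype.card F - 1), by
    have hwu : (u.1 * p.w u.1) ^ (Fintype.card F + 1) = algebraMap F K p.c := by
      rw [mul_pow, p.w_pow, u.2, mul_one]
    rw [mul_pow, mul_pow, pow_sub_one_pow (p.uw_add_b_ne_zero u b)
      (fix_add (pow_card_sq_of_pow hwu) (pow_card_sq_of_pow b.2.1)), p.w_pow, b.2.1, mul_one, mul_one],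
   by
    intro h
    have h1 := p.out_eq u b
    rw [h] at h1
    have h2 := p.w_mul u
    have h3 := p.ha
    rw [pow_succ] at h3
    apply b.2.2
    have h4 : (b.1 + p.a ^ Fintype.card F) * (p.w u.1 * (u.1 + p.a)) = 0 := by
      linear_combination (b.1) * h2 - h1 + p.w u.1 * h3
    rcases mul_eq_zero.1 h4 with h5 | h5
    · exact eq_neg_of_add_eq_zero_left h5
    · exact absurd h5 (mul_ne_zero (p.w_ne_zero u) (p.u_add_a_ne_zero u))⟩

/-- The inverse state `- u ^ q / w`. -/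
def inv (u : p.St) : p.St :=
  ⟨-(u.1 ^ Fintype.card F) / p.w u.1, by
    rw [div_pow, p.w_pow, div_one, neg_pow, neg_one_pow, one_mul, ← pow_mul, mul_comm, pow_mul, u.2,
      ← map_pow, FiniteField.pow_card]⟩

/-- The action of a state on words. -/
def act (p : Par F K) : p.St → List p.Lt → List p.Lt
  | _, [] => []
  | u, b :: x => p.out u b :: p.act (p.nxt u b) x

/-- The action of a word `u₁ … u_k` of states, the last one first. -/
def actW (v : List p.St) (x : List p.Lt) : List p.Lt := v.foldr (fun u y => p.act u y) x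

/-! ## The quaternion side -/

/-- `s_u = (u + a)⁻¹ (u + τ)`. -/
def s (u : p.St) : Tw F K := Tw.C (u.1 + p.a)⁻¹ * (Tw.C u.1 + Tw.T)

/-- The base line `ker (τ - a)`. -/
def Cstar : Submodule F K := LinearMap.ker (Tw.ev (Tw.T - Tw.C p.a : Tw F K))

/-- The product `γ_v = s_{u₁} ⋯ s_{u_k}`. -/
def gam (v : List p.St) : Tw F K := (v.map p.s).prod

end Par

/-! ## Reduced words -/

/-- Reduced words with respect to an inversion `inv`. -/
def Red {S : Type*} (inv : S → S) (v : List S) : Prop := List.IsChain (fun u u' => u' ≠ inv u) v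

/-- Cyclically reduced words: `v v` is reduced. -/
def CycRed {S : Type*} (inv : S → S) (v : List S) : Prop := Red inv (v ++ v)

/-- The number `N_k(n)` of pairs (cyclically reduced word of length `k`, fixed point on level `n`). -/
def Par.Nk {F K : Type*} [Field F] [Fintype F] [Field K] [Algebra F K] (p : Par F K) (n k : ℕ) : ℕ :=
  Set.ncard {z : List p.St × List p.Lt | z.1.length = k ∧ z.2.length = n ∧ CycRed p.inv z.1 ∧
    p.actW z.1 z.2 = z.2}

/-! ## Objects on the quaternion side -/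

section
variable {F K : Type*} [Field F] [Fintype F] [Field K] [Algebra F K]

/-- The nilpotent operator `P - d`. -/
def nu (P : Tw F K) (d : F) : Module.End F K := Tw.ev (P - algebraMap F (Tw F K) d)

/-- The pairs `(γ, L)` on the quaternion side, with `L` over the base line. -/
def DStar (p : Par F K) (n k : ℕ) : Set (Tw F K × Submodule F K) :=
  {o | (∀ i, (o.1.coeff i) ^ (Fintype.card F ^ 2) = o.1.coeff i) ∧ o.1.natDegree = k ∧
    (∃ (A : F[X]) (e : F), e ≠ 0 ∧ A.eval p.c ≠ 0 ∧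
      o.1 ^ 2 - Polynomial.aeval (Tw.T ^ 2 : Tw F K) A * o.1 +
        Polynomial.aeval (Tw.T ^ 2 : Tw F K) (Polynomial.C e * (X - Polynomial.C p.c) ^ k) = 0) ∧
    IsCyc (nu (Tw.T ^ 2 : Tw F K) p.d) n o.2 ∧ p.Cstar ≤ o.2 ∧ o.2.map (Tw.ev o.1) ≤ o.2}

/-! ## The other side -/

/-- `P_x = c + τ + x τ²`. -/
def Pt {R : Type*} [CommRing R] [Algebra F R] (c : F) (x : R) : Tw F R :=
  algebraMap F (Tw F R) c + Tw.T + Tw.C x * Tw.T ^ 2

/-- Triples `(x, ζ, L)`: `x ≠ 0`, `x ^ (q ^ k) = x`, `ζ ≠ 0`, `L` cyclic of level `n` for `P_x - d`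
and stable under `τ ^ k`. -/
def DrObj (K : Type*) [Field K] [Algebra F K] (c d : F) (n k : ℕ) : Set (K × F × Submodule F K) :=
  {o | o.1 ≠ 0 ∧ o.1 ^ (Fintype.card F ^ k) = o.1 ∧ o.2.1 ≠ 0 ∧
    IsCyc (nu (Pt c o.1) d) n o.2.2 ∧ o.2.2.map (Tw.ev (Tw.T ^ k : Tw F K)) ≤ o.2.2}

/-- A `τ ^ k`-stable line in the kernel of `P_x`. -/
def IsFixLine (c : F) (k : ℕ) (x : K) (l : Submodule F K) : Prop :=
  Module.finrank F l = 1 ∧ l ≤ LinearMap.ker (Tw.ev (Pt c x)) ∧
    l.map (Tw.ev (Tw.T ^ k : Tw F K)) ≤ l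

/-- Edges: an object together with a stable line. -/
def DrEdge (K : Type*) [Field K] [Algebra F K] (c d : F) (n k : ℕ) :
    Set ((K × F × Submodule F K) × Submodule F K) :=
  {z | z.1 ∈ DrObj K c d n k ∧ IsFixLine c k z.1.1 z.2}

/-- Pairs `(x, L)` (no scalar). -/
def OO (K : Type*) [Field K] [Algebra F K] (c d : F) (n k : ℕ) : Set (K × Submodule F K) :=
  {o | o.1 ≠ 0 ∧ o.1 ^ (Fintype.card F ^ k) = o.1 ∧
    IsCyc (nu (Pt c o.1) d) n o.2 ∧ o.2.map (Tw.ev (Tw.T ^ k : Tw F K)) ≤ o.2}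

/-- Triples `(x, L, l)` (no scalar). -/
def TT (K : Type*) [Field K] [Algebra F K] (c d : F) (n k : ℕ) :
    Set ((K × Submodule F K) × Submodule F K) :=
  {z | z.1 ∈ OO K c d n k ∧ IsFixLine c k z.1.1 z.2}

/-! ## Types -/

/-- A type: `Fr = α(P) + P ^ m Q`, `Q² - a(P) Q + b(P) = 0`. -/
structure Typ (F : Type*) [Field F] where
  /-- the polynomial part -/
  al : F[X]
  /-- the conductor exponent at `0` -/
  m : ℕ
  /-- the trace of `Q` -/
  a : F[X]
  /-- the norm of `Q` -/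
  b : F[X]

/-- `Q` is a witness that `(P, Fr)` has type `t`. -/
def IsWit {R : Type*} [CommRing R] [Algebra F R] (P Fr Q : Tw F R) (t : Typ F) : Prop :=
  (∀ i, t.m ≤ i → t.al.coeff i = 0) ∧ P * Q = Q * P ∧
  Fr = Polynomial.aeval P t.al + P ^ t.m * Q ∧
  Q ^ 2 - Polynomial.aeval P t.a * Q + Polynomial.aeval P t.b = 0 ∧
  ∀ (r : F) (h : Tw F R), Q ≠ algebraMap F (Tw F R) r + h * P

/-- `(P, Fr)` has type `t`. -/
def HasTyp {R : Type*} [CommRing R] [Algebra F R] (P Fr : Tw F R) (t : Typ F) : Prop :=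
  ∃ Q, IsWit P Fr Q t

namespace Typ

/-- The order is regular above `0`. -/
def Smooth (t : Typ F) : Prop :=
  ∀ r : F, X ∣ t.a - Polynomial.C (2 * r) →
    ¬ (X ^ 2 ∣ Polynomial.C (r ^ 2) - Polynomial.C r * t.a + t.b)

/-- The number of roots in `F` of `X² - a(0) X + b(0)`. -/
def rts (t : Typ F) : ℕ :=
  Set.ncard {r : F | r ^ 2 - t.a.coeff 0 * r + t.b.coeff 0 = 0}

/-- The norm condition `N(α + X^m Q) = e (X - c)^k` and the trace condition at `c`. -/
def Ok (t : Typ F) (c : F) (k : ℕ) : Prop :=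
  (∃ e : F, e ≠ 0 ∧ t.al ^ 2 + X ^ t.m * t.al * t.a + X ^ (2 * t.m) * t.b =
    Polynomial.C e * (X - Polynomial.C c) ^ k) ∧
  (2 * t.al + X ^ t.m * t.a).eval c ≠ 0

end Typ

end

end Pool.Agent.H9.Ram
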