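import Pool.Agent.H9.Ram.L0

/-!
# Definitions for the reduction part: valuation rings
-/

open Polynomial

noncomputable section

namespace Pool.Agent.H9.Ram

/-- `R` is a valuation ring of the field `Ω` (via `ι`) with residue map `π : R → κ`. -/
structure VR {F R Ω κ : Type*} [Field F] [CommRing R] [Field Ω] [Field κ] [Algebra F R]
    [Algebra F Ω] [Algebra F κ] (ι : R →ₐ[F] Ω) (π : R →ₐ[F] κ) : Prop where
  inj : Function.Injective ι
  surj : Function.Surjective π
  unit : ∀ r, π r ≠ 0 → IsUnit r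
  val : ∀ z : Ω, (∃ r, ι r = z) ∨ (∃ r, π r = 0 ∧ ι r * z = 1)

/-- Specialization of a submodule of torsion points: from `K` (the fibre at `s = 0`) through `K⟦s⟧`, `Ω`, `R` to `κ`. -/
def spec {F K R Ω κ : Type*} [Field F] [Fintype F] [Field K] [Algebra F K] [CommRing R] [Field Ω]
    [Field κ] [Algebra F R] [Algebra F Ω] [Algebra F κ] (ιW : PowerSeries K →ₐ[F] Ω)
    (ι : R →ₐ[F] Ω) (π : R →ₐ[F] κ) (A : Tw F (PowerSeries K)) (L : Submodule F K) :
    Submodule F κ :=
  ((((L.comap (cc F).toLinearMap) ⊓ LinearMap.ker (Tw.ev A)).map ιW.toLinearMap).comap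
    ι.toLinearMap).map π.toLinearMap

end Pool.Agent.H9.Ram
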