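import Pool.Agent.H9.Ram.G0

/-!
# Module G1: existence of the valuation ring

`Ω` algebraically closed over `F`, `t ∈ Ω` transcendental over the finite field `F`, `γ² - a(t) γ + b(t) = 0`, no
`h ∈ F[X]` with `h² - a h + b = 0`, and `ρ² - a(c) ρ + b(c) = 0`. The subring `A = F[t, γ]`: every element is
`f(t) + g(t) γ` with unique `f, g ∈ F[X]`: if `f(t) + g(t) γ = 0`, `g ≠ 0`, then `γ = - f/g (t)`, and
`f² + a f g + b g² = 0` in `F[X]` (transcendence), so `g ∣ f²`, and as `F[X]` is integrally closed (UFD) `g ∣ f`, so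
`h = - f/g` is a polynomial with `h² - a h + b = 0`, contradiction. Hence there is a ring morphism `A → F` with
`t ↦ c`, `γ ↦ ρ` (`A ≅ F[X][Y]/(Y² - a Y + b)`, e.g. via `AdjoinRoot`), so the ideal `I = (t - c, γ - ρ)` of `A` is
proper. By `Ideal.image_subset_nonunits_valuationSubring` there is a valuation subring `B ≥ A` of `Ω` with `t - c`,
`γ - ρ` nonunits. `R = B`, `κ` = its residue field (algebraically closed: lift a monic polynomial to `B`, a root in `Ω`
is integral over `B`, so in `B` by `integral_mem`-type argument). `F ⊆ A ⊆ B` gives the algebra structures.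
-/

open Polynomial

noncomputable section

namespace Pool.Agent.H9.Ram

universe u

/-- Valuation rings are integrally closed (auxiliary form). -/
theorem g1_integral {F R Ω κ : Type*} [Field F] [CommRing R] [Field Ω] [Field κ] [Algebra F R]
    [Algebra F Ω] [Algebra F κ] {ι : R →ₐ[F] Ω} {π : R →ₐ[F] κ} (h : VR ι π) (f : R[X])
    (hf : f.Monic) (z : Ω) (hz : f.eval₂ (ι : R →+* Ω) z = 0) : ∃ r, ι r = z := by
  rcases h.val z with h1 | ⟨r, hr, hrz⟩
  · exact h1
  · exfalso
    have hz0 : z ≠ 0 := by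
      rintro rfl
      simp at hrz
    let _ : Invertible z := ⟨ι r, hrz, by rw [mul_comm]; exact hrz⟩
    have h2 := eval₂_reverse_mul_pow (ι : R →+* Ω) z f
    rw [hz] at h2
    have h3 : eval₂ (ι : R →+* Ω) (ι r) (reverse f) = 0 := by
      rcases mul_eq_zero.mp h2 with h | h
      · exact h
      · exact absurd h (pow_ne_zero _ hz0)
    have h4 : (reverse f).eval r = 0 := by
      apply h.inj
      have := Polynomial.hom_eval₂ (reverse f) (RingHom.id R) (ι : R →+* Ω) r
      rw [RingHom.comp_id] at this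
      rw [map_zero]
      rw [← h3]
      exact this
    have h5 : π ((reverse f).eval r) = 1 := by
      have h6 := Polynomial.hom_eval₂ (reverse f) (RingHom.id R) (π : R →+* κ) r
      rw [RingHom.comp_id] at h6
      have h7 : (π : R →+* κ) r = 0 := hr
      rw [h7, Polynomial.eval₂_at_zero, Polynomial.coeff_zero_reverse, hf.leadingCoeff,
        map_one] at h6
      exact h6
    rw [h4, map_zero] at h5
    exact zero_ne_one h5

theorem g1_field {K : Type*} [Field K] (A B f g : K) (hg : g ≠ 0)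
    (h : f ^ 2 + A * f * g + B * g ^ 2 = 0) : (-f / g) ^ 2 - A * (-f / g) + B = 0 := by
  field_simp
  linear_combination h

theorem g1_quad {F : Type*} [Field F] (a b : F[X]) :
    (X ^ 2 - C a * X + C b : F[X][X]).Monic ∧ (X ^ 2 - C a * X + C b : F[X][X]).degree ≤ 2 := by
  have e : (X ^ 2 - C a * X + C b : F[X][X]) = X ^ 2 + (C (- a) * X + C b) := by
    rw [C_neg]; ring
  have h : (C (- a) * X + C b : F[X][X]).degree < 2 := by
    refine lt_of_le_of_lt (Polynomial.degree_add_le _ _) ?_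
    rw [max_lt_iff]
    constructor
    · exact lt_of_le_of_lt (Polynomial.degree_C_mul_X_le _) (by decide)
    · exact lt_of_le_of_lt (Polynomial.degree_C_le) (by decide)
  rw [e]
  refine ⟨Polynomial.monic_X_pow_add h, (Polynomial.degree_add_le _ _).trans (max_le ?_ h.le)⟩
  exact Polynomial.degree_X_pow_le 2

theorem g1_ker {F : Type*} [Field F] {Ω : Type u} [Field Ω]
    [Algebra F Ω] (t γ : Ω) (ht : Transcendental F t) (a b : F[X])
    (hγ : γ ^ 2 - aeval t a * γ + aeval t b = 0) (hirr : ∀ h : F[X], h ^ 2 - a * h + b ≠ 0)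
    (f g : F[X]) (hfg : aeval t f + aeval t g * γ = 0) : f = 0 ∧ g = 0 := by
  have hinj : ∀ p : F[X], aeval t p = 0 → p = 0 := fun p hp => by
    by_contra hne
    exact ht ⟨p, hne, hp⟩
  by_cases hg : g = 0
  · subst hg
    refine ⟨hinj f (by simpa using hfg), rfl⟩
  · exfalso
    have h1 : f ^ 2 + a * f * g + b * g ^ 2 = 0 := by
      apply hinj
      have e : aeval t f = - (aeval t g * γ) := by linear_combination hfg
      simp only [map_add, map_mul, map_pow]
      rw [e]
      linear_combination (aeval t g) ^ 2 * hγ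
    have hgK : algebraMap F[X] (FractionRing F[X]) g ≠ 0 := by
      rw [Ne, FaithfulSMul.algebraMap_eq_zero_iff]; exact hg
    have h1K := congrArg (algebraMap F[X] (FractionRing F[X])) h1
    simp only [map_add, map_mul, map_pow, map_zero] at h1K
    set K := FractionRing F[X]
    have hint : IsIntegral F[X] (-(algebraMap F[X] K f) / algebraMap F[X] K g) := by
      refine ⟨X ^ 2 - C a * X + C b, (g1_quad a b).1, ?_⟩
      simp only [eval₂_add, eval₂_sub, eval₂_pow, eval₂_X, eval₂_mul, eval₂_C]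
      exact g1_field _ _ _ _ hgK h1K
    obtain ⟨h, hh⟩ := IsIntegrallyClosed.algebraMap_eq_of_integral hint
    have h2 : algebraMap F[X] K h * algebraMap F[X] K g = - algebraMap F[X] K f := by
      rw [hh]; exact div_mul_cancel₀ _ hgK
    rw [← map_mul, ← map_neg] at h2
    have h3 : h * g = - f := FaithfulSMul.algebraMap_injective F[X] K h2
    have h4 : g ^ 2 * (h ^ 2 - a * h + b) = 0 := by
      have e : f = - (h * g) := by rw [h3]; ring
      rw [e] at h1
      linear_combination h1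
    rcases mul_eq_zero.mp h4 with h5 | h5
    · exact hg (pow_eq_zero_iff (two_ne_zero) |>.mp h5)
    · exact hirr h h5

theorem g1_kerle {F : Type*} [Field F] {Ω : Type u} [Field Ω]
    [Algebra F Ω] (t γ : Ω) (ht : Transcendental F t) (a b : F[X])
    (hγ : γ ^ 2 - aeval t a * γ + aeval t b = 0) (hirr : ∀ h : F[X], h ^ 2 - a * h + b ≠ 0)
    (c ρ : F) (hρ : ρ ^ 2 - a.eval c * ρ + b.eval c = 0) (p : F[X][X])
    (hp : eval₂RingHom ((aeval t : F[X] →ₐ[F] Ω) : F[X] →+* Ω) γ p = 0) :
    eval₂RingHom (evalRingHom c) ρ p = 0 := by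
  set q : F[X][X] := X ^ 2 - C a * X + C b with hq
  have hqm : q.Monic := (g1_quad a b).1
  have hqd : q.degree ≤ 2 := (g1_quad a b).2
  have hdiv := Polynomial.modByMonic_add_div p q
  have hr : (p %ₘ q).degree ≤ 1 := by
    have h1 := Polynomial.degree_modByMonic_lt p hqm
    have h2 : (p %ₘ q).degree < 2 := lt_of_lt_of_le h1 hqd
    exact Order.le_of_lt_succ h2
  obtain ⟨g, f, hgf⟩ : ∃ g f : F[X], p %ₘ q = C g * X + C f :=
    ⟨_, _, Polynomial.eq_X_add_C_of_degree_le_one hr⟩
  have hΦq : eval₂RingHom ((aeval t : F[X] →ₐ[F] Ω) : F[X] →+* Ω) γ q = 0 := by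
    simp only [hq, coe_eval₂RingHom, eval₂_add, eval₂_sub, eval₂_pow, eval₂_X, eval₂_mul, eval₂_C,
      RingHom.coe_coe]
    exact hγ
  have hΨq : eval₂RingHom (evalRingHom c) ρ q = 0 := by
    simp only [hq, coe_eval₂RingHom, eval₂_add, eval₂_sub, eval₂_pow, eval₂_X, eval₂_mul, eval₂_C,
      coe_evalRingHom]
    exact hρ
  have h1 : eval₂RingHom ((aeval t : F[X] →ₐ[F] Ω) : F[X] →+* Ω) γ (p %ₘ q) = 0 := by
    have := congrArg (eval₂RingHom ((aeval t : F[X] →ₐ[F] Ω) : F[X] →+* Ω) γ) hdiv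
    rw [map_add, map_mul, hΦq, zero_mul, add_zero, hp] at this
    exact this
  rw [hgf] at h1
  simp only [coe_eval₂RingHom, eval₂_add, eval₂_X, eval₂_mul, eval₂_C,
      RingHom.coe_coe] at h1
  obtain ⟨hf0, hg0⟩ := g1_ker t γ ht a b hγ hirr f g (by linear_combination h1)
  rw [← hdiv, hgf, hf0, hg0, map_add, map_mul (eval₂RingHom (evalRingHom c) ρ) q, hΨq]
  simp

theorem exists_VR {F : Type*} [Field F] [Fintype F] {Ω : Type u} [Field Ω] [IsAlgClosed Ω]
    [Algebra F Ω] (t γ : Ω) (ht : Transcendental F t) (a b : F[X])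
    (hγ : γ ^ 2 - aeval t a * γ + aeval t b = 0) (hirr : ∀ h : F[X], h ^ 2 - a * h + b ≠ 0)
    (c ρ : F) (hρ : ρ ^ 2 - a.eval c * ρ + b.eval c = 0) :
    ∃ (R : Type u) (_ : CommRing R) (_ : IsDomain R) (_ : Algebra F R) (κ : Type u) (_ : Field κ)
      (_ : Algebra F κ) (_ : IsAlgClosed κ) (ι : R →ₐ[F] Ω) (π : R →ₐ[F] κ), VR ι π ∧
      ∃ tR γR : R, ι tR = t ∧ ι γR = γ ∧ π tR = algebraMap F κ c ∧ π γR = algebraMap F κ ρ := by
  let Φ : F[X][X] →+* Ω := eval₂RingHom ((aeval t : F[X] →ₐ[F] Ω) : F[X] →+* Ω) γ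
  let Ψ : F[X][X] →+* F := eval₂RingHom (evalRingHom c) ρ
  have hker : ∀ p, Φ p = 0 → Ψ p = 0 := fun p hp => g1_kerle t γ ht a b hγ hirr c ρ hρ p hp
  let I : Ideal Φ.range := (RingHom.ker Ψ).map Φ.rangeRestrict
  have hI : I ≠ ⊤ := by
    intro hI
    have h1 : (1 : Φ.range) ∈ I := by rw [hI]; trivial
    obtain ⟨p, hp, hp1⟩ := (Ideal.mem_map_iff_of_surjective _ Φ.rangeRestrict_surjective).mp h1
    have h2 : Φ p = 1 := congrArg Subtype.val hp1
    have h3 : Ψ (p - 1) = 0 := hker _ (by rw [map_sub, h2, map_one, sub_self])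
    have h4 : Ψ p = 0 := hp
    rw [map_sub, h4, map_one, zero_sub, neg_eq_zero] at h3
    exact one_ne_zero h3
  obtain ⟨B, hAB, hIB⟩ := Ideal.image_subset_nonunits_valuationSubring I hI
  have hmemΦ : ∀ p, Φ p ∈ B := fun p => hAB ⟨p, rfl⟩
  have hnon : ∀ p, Ψ p = 0 → Φ p ∈ B.nonunits := by
    intro p hp
    apply hIB
    exact ⟨Φ.rangeRestrict p, Ideal.mem_map_of_mem _ hp, rfl⟩
  have hF : ∀ x : F, algebraMap F Ω x ∈ B := by
    intro x
    have := hmemΦ (C (C x))
    simpa [Φ] using this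
  let φF : F →+* B := (algebraMap F Ω).codRestrict B hF
  let algB : Algebra F B := φF.toAlgebra
  let κ := IsLocalRing.ResidueField B
  let algκ : Algebra F κ := ((IsLocalRing.residue B).comp φF).toAlgebra
  let ι : B →ₐ[F] Ω := { B.subtype with commutes' := fun x => rfl }
  let π : B →ₐ[F] κ := { IsLocalRing.residue B with commutes' := fun x => rfl }
  have hιv : ∀ r : B, ι r = (r : Ω) := fun r => rfl
  have hπv : ∀ r : B, π r = IsLocalRing.residue B r := fun r => rfl
  have hVR : VR ι π := by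
    refine ⟨fun x y h => Subtype.ext h, IsLocalRing.residue_surjective, ?_, ?_⟩
    · intro r hr
      exact (IsLocalRing.residue_ne_zero_iff_isUnit r).mp hr
    · intro z
      by_cases hz : z ∈ B
      · exact Or.inl ⟨⟨z, hz⟩, rfl⟩
      · right
        have hz' : z⁻¹ ∈ B := (B.mem_or_inv_mem z).resolve_left hz
        have hz0 : z ≠ 0 := by
          rintro rfl
          exact hz B.zero_mem
        refine ⟨⟨z⁻¹, hz'⟩, ?_, inv_mul_cancel₀ hz0⟩
        rw [hπv, IsLocalRing.residue_eq_zero_iff, IsLocalRing.mem_maximalIdeal, mem_nonunits_iff]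
        intro hu
        obtain ⟨w, hw⟩ := hu.exists_right_inv
        have hw' : z⁻¹ * (w : Ω) = 1 := congrArg Subtype.val hw
        have : (w : Ω) = z := by
          field_simp at hw'
          exact hw'
        exact hz (this ▸ w.2)
  have hclosed : IsAlgClosed κ := by
    apply IsAlgClosed.of_exists_root
    intro p hpm hpi
    have hlift : p ∈ Polynomial.lifts (IsLocalRing.residue B) := by
      rw [Polynomial.lifts_iff_coeff_lifts]
      intro n
      exact IsLocalRing.residue_surjective _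
    obtain ⟨f, hf1, hf2, hf3⟩ := Polynomial.lifts_and_natDegree_eq_and_monic hlift hpm
    have hdeg : (f.map (ι : B →+* Ω)).degree ≠ 0 := by
      rw [hf3.degree_map]
      have h0 : p.natDegree ≠ 0 := hpi.natDegree_pos.ne'
      rw [← hf2] at h0
      intro h
      exact h0 (Polynomial.natDegree_eq_of_degree_eq_some h)
    obtain ⟨z, hz⟩ := IsAlgClosed.exists_root _ hdeg
    rw [IsRoot, eval_map] at hz
    obtain ⟨r, hr⟩ := g1_integral hVR f hf3 z hz
    refine ⟨π r, ?_⟩
    have h4 : f.eval r = 0 := by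
      apply hVR.inj
      have := Polynomial.hom_eval₂ f (RingHom.id B) (ι : B →+* Ω) r
      rw [RingHom.comp_id] at this
      rw [map_zero]
      rw [← hz, ← hr]
      exact this
    rw [← hf1, eval_map]
    have h5 := Polynomial.hom_eval₂ f (RingHom.id B) (π : B →+* κ) r
    rw [RingHom.comp_id] at h5
    have h6 : (π : B →+* κ) (eval₂ (RingHom.id B) r f) = 0 := by
      have : eval₂ (RingHom.id B) r f = 0 := h4
      rw [this, map_zero]
    rw [h6] at h5
    exact h5.symm
  have hspec : ∀ p (x : F), Φ p ∈ B → Ψ p = x → ∀ r : B, (r : Ω) = Φ p →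
      π r = algebraMap F κ x := by
    intro p x _ hx r hr
    have h1 : Ψ (p - C (C x)) = 0 := by
      rw [map_sub, hx]
      simp [Ψ]
    have h2 := hnon _ h1
    have h3 : Φ (p - C (C x)) = ((r - φF x : B) : Ω) := by
      rw [map_sub]
      push_cast
      rw [hr]
      congr 1
      simp [Φ, φF]
    rw [h3, ValuationSubring.coe_mem_nonunits_iff] at h2
    have h4 : IsLocalRing.residue B (r - φF x) = 0 := (IsLocalRing.residue_eq_zero_iff _).mpr h2
    rw [map_sub, sub_eq_zero] at h4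
    exact h4
  have ht1 : Φ (C X) = t := by simp [Φ]
  have hγ1 : Φ X = γ := by simp [Φ]
  have ht2 : Ψ (C X) = c := by simp [Ψ]
  have hγ2 : Ψ X = ρ := by simp [Ψ]
  refine ⟨B, inferInstance, inferInstance, algB, κ, inferInstance, algκ, hclosed, ι, π, hVR,
    ⟨t, ht1 ▸ hmemΦ _⟩, ⟨γ, hγ1 ▸ hmemΦ _⟩, rfl, rfl, ?_, ?_⟩
  · exact hspec (C X) c (hmemΦ _) ht2 _ ht1.symm
  · exact hspec X ρ (hmemΦ _) hγ2 _ hγ1.symm

/-- Valuation rings are integrally closed. -/
theorem VR.integral {F R Ω κ : Type*} [Field F] [CommRing R] [Field Ω] [Field κ] [Algebra F R]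
    [Algebra F Ω] [Algebra F κ] {ι : R →ₐ[F] Ω} {π : R →ₐ[F] κ} (h : VR ι π) (f : R[X])
    (hf : f.Monic) (z : Ω) (hz : f.eval₂ (ι : R →+* Ω) z = 0) : ∃ r, ι r = z :=
  g1_integral h f hf z hz

/-- An algebraic extension of `F` inside `Ω` is contained in `R`. -/
theorem VR.exists_hom {F R Ω κ K : Type*} [Field F] [CommRing R] [Field Ω] [Field κ] [Field K]
    [Algebra F R] [Algebra F Ω] [Algebra F κ] [Algebra F K] [Algebra.IsAlgebraic F K]
    {ι : R →ₐ[F] Ω} {π : R →ₐ[F] κ} (h : VR ι π) (f : K →ₐ[F] Ω) :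
    ∃ j : K →ₐ[F] R, ∀ y, ι (j y) = f y := by
  have hmem : ∀ y, f y ∈ ι.range := by
    intro y
    have hy : IsIntegral F y := Algebra.IsIntegral.isIntegral y
    obtain ⟨p, hp, hp0⟩ := hy
    have h1 : (p.map (algebraMap F R)).eval₂ (ι : R →+* Ω) (f y) = 0 := by
      rw [eval₂_map]
      have h2 : (ι : R →+* Ω).comp (algebraMap F R) = algebraMap F Ω := by
        ext x
        exact ι.commutes x
      rw [h2]
      have h3 := Polynomial.hom_eval₂ p (algebraMap F K) (f : K →+* Ω) y
      rw [hp0, map_zero] at h3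
      have h4 : (f : K →+* Ω).comp (algebraMap F K) = algebraMap F Ω := by
        ext x
        exact f.commutes x
      rw [h4] at h3
      exact h3.symm
    obtain ⟨r, hr⟩ := g1_integral h _ (hp.map _) _ h1
    exact ⟨r, hr⟩
  refine ⟨((AlgEquiv.ofInjective ι h.inj).symm : ι.range →ₐ[F] R).comp (f.codRestrict ι.range hmem),
    fun y => ?_⟩
  have h1 := (AlgEquiv.ofInjective ι h.inj).apply_symm_apply (f.codRestrict ι.range hmem y)
  have h2 := congrArg Subtype.val h1
  exact h2

end Pool.Agent.H9.Ram
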