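import Pool.Agent.H9.Ram.G0

/-!
# Module G2: primitive parts and the integrality lemma

(a) Nonzero `f ∈ Ω{τ}`: among the finitely many nonzero coefficients choose one, `f_i`, dividing the others (total
divisibility preorder, `VR.val`): `f = f_i f₀` with `f₀ ∈ R{τ}`, whose `i`-th coefficient is `1`.
(b) `P ∈ R{τ}` with a coefficient of positive index `i` with nonzero residue, `Q ∈ Ω{τ}` commuting with `P`. Then
`Q ∈ R{τ}`. Assume `Q ≠ 0`, `Q = μ Q₀`, `Q₀` primitive. If `μ ∈ R` fine. Otherwise `μ⁻¹ = ι r`, `π r = 0`. Let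
`P₁ = μ⁻¹ P μ = ν R₀` with `R₀` primitive; its coefficients are `P_j μ^(q^j - 1)`. `ν ∉ R`: otherwise
`P_i μ^(q^i - 1) ∈ R`, `P_i` a unit, so `μ^(q^i-1) = ι s`, `1 = ι (r^(q^i-1) s)`, apply `π`: `1 = 0`. So `ν⁻¹ = ι r'`,
`π r' = 0`. `P μ Q₀ = μ Q₀ P` gives `P₁ Q₀ = Q₀ P`, `R₀ Q₀ = r' Q₀ P` in `R{τ}`; apply `π`: `R̄₀ Q̄₀ = 0` in `κ{τ}`,
which has no zero divisors: contradiction.
-/

open Polynomial

noncomputable section

namespace Pool.Agent.H9.Ram

variable {F R Ω κ : Type*} [Field F] [Fintype F] [CommRing R] [IsDomain R] [Field Ω] [Field κ]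
  [Algebra F R] [Algebra F Ω] [Algebra F κ] {ι : R →ₐ[F] Ω} {π : R →ₐ[F] κ}

theorem g2_min (h : VR ι π) (c : ℕ → Ω) (s : Finset ℕ) (hs : s.Nonempty)
    (hc : ∀ i ∈ s, c i ≠ 0) : ∃ i ∈ s, ∀ j ∈ s, ∃ r, ι r * c i = c j := by
  induction hs using Finset.Nonempty.cons_induction with
  | singleton a => exact ⟨a, by simp, fun j hj => ⟨1, by simp at hj; subst hj; simp⟩⟩
  | cons a s ha hs ih =>
    obtain ⟨i, hi, hij⟩ := ih (fun i hi => hc i (by simp [hi]))
    have hca : c a ≠ 0 := hc a (by simp)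
    have hci : c i ≠ 0 := hc i (by simp [hi])
    have key : (∃ r, ι r * c i = c a) ∨ (∃ r, ι r * c a = c i) := by
      rcases h.val (c a / c i) with ⟨r, hr⟩ | ⟨r, -, hr⟩
      · left; exact ⟨r, by rw [hr]; field_simp⟩
      · right
        refine ⟨r, ?_⟩
        field_simp at hr
        exact hr
    rcases key with ⟨r, hr⟩ | ⟨r, hr⟩
    · refine ⟨i, by simp [hi], fun j hj => ?_⟩
      rcases Finset.mem_cons.1 hj with rfl | hj
      · exact ⟨r, hr⟩
      · exact hij j hj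
    · refine ⟨a, by simp, fun j hj => ?_⟩
      rcases Finset.mem_cons.1 hj with rfl | hj
      · exact ⟨1, by simp⟩
      · obtain ⟨t, ht⟩ := hij j hj
        exact ⟨t * r, by rw [map_mul, mul_assoc, hr, ht]⟩

theorem VR.exists_primitive (h : VR ι π) (f : Tw F Ω) (hf : f ≠ 0) :
    ∃ (μ : Ω) (f₀ : Tw F R), μ ≠ 0 ∧ f = Tw.C μ * Tw.map ι f₀ ∧ Tw.map π f₀ ≠ 0 := by
  classical
  have hsup : (f.poly.support).Nonempty := by
    rw [Polynomial.support_nonempty]
    intro h0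
    exact hf (Tw.ext h0)
  obtain ⟨i, hi, hij⟩ := g2_min h f.coeff f.poly.support hsup
    (fun i hi => Polynomial.mem_support_iff.1 hi)
  have hci : f.coeff i ≠ 0 := Polynomial.mem_support_iff.1 hi
  have hall : ∀ j, ∃ r, ι r * f.coeff i = f.coeff j := by
    intro j
    by_cases hj : j ∈ f.poly.support
    · exact hij j hj
    · refine ⟨0, ?_⟩
      have : f.coeff j = 0 := Polynomial.notMem_support_iff.1 hj
      rw [this]; simp
  choose r hr using hall
  have hco : ∀ n, (∑ j ∈ Finset.range (f.natDegree + 1), Tw.C (r j) * Tw.T ^ j : Tw F R).coeff n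
      = if n ≤ f.natDegree then r n else 0 := by
    intro n
    rw [Tw.coeff_sum]
    by_cases hn : n ≤ f.natDegree
    · rw [if_pos hn, Finset.sum_eq_single n]
      · rw [Tw.coeff_C_mul, Tw.coeff_T_pow]; simp
      · intro b _ hb
        rw [Tw.coeff_C_mul, Tw.coeff_T_pow, if_neg (Ne.symm hb), mul_zero]
      · intro h2; exact absurd (Finset.mem_range.2 (by omega)) h2
    · rw [if_neg hn, Finset.sum_eq_zero]
      intro j hj
      rw [Tw.coeff_C_mul, Tw.coeff_T_pow, if_neg (by have := Finset.mem_range.1 hj; omega),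
        mul_zero]
  refine ⟨f.coeff i, ∑ j ∈ Finset.range (f.natDegree + 1), Tw.C (r j) * Tw.T ^ j, hci, ?_, ?_⟩
  · apply Tw.ext_coeff
    intro n
    rw [Tw.coeff_C_mul, Tw.coeff_map, hco]
    split_ifs with hn
    · rw [mul_comm, hr]
    · rw [map_zero, mul_zero, Tw.coeff_eq_zero_of_natDegree_lt (by omega)]
  · intro h0
    have h1 := congrArg (fun g : Tw F κ => g.coeff i) h0
    simp only [Tw.coeff_map, Tw.coeff_zero'] at h1
    have hin : i ≤ f.natDegree := by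
      by_contra hcon
      exact hci (Tw.coeff_eq_zero_of_natDegree_lt (by omega))
    rw [hco, if_pos hin] at h1
    have h2 : ι (r i) = 1 := mul_right_cancel₀ hci (by rw [hr, one_mul])
    have h3 : r i = 1 := h.inj (by rw [h2, map_one])
    rw [h3, map_one] at h1
    exact one_ne_zero h1

theorem VR.integral_of_comm (h : VR ι π) (P : Tw F R) (i : ℕ) (hi : 0 < i)
    (hP : π (P.coeff i) ≠ 0) (Q : Tw F Ω) (hc : Tw.map ι P * Q = Q * Tw.map ι P) :
    ∃ QR : Tw F R, Tw.map ι QR = Q := by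
  by_cases hQ : Q = 0
  · exact ⟨0, by rw [hQ, map_zero]⟩
  obtain ⟨μ, Q₀, hμ, hQ₀, hπQ⟩ := h.exists_primitive Q hQ
  rcases h.val μ with ⟨r, hr⟩ | ⟨r, hr0, hr⟩
  · exact ⟨Tw.C r * Q₀, by rw [map_mul, Tw.map_C, hr, hQ₀]⟩
  exfalso
  have hPi : P.coeff i ≠ 0 := by
    intro h0; rw [h0, map_zero] at hP; exact hP rfl
  have hr1 : r ≠ 0 := by
    intro h0; rw [h0, map_zero, zero_mul] at hr; exact zero_ne_one hr
  -- the conjugate of `P`
  set P₁ : Tw F Ω := Tw.C μ⁻¹ * Tw.map ι P * Tw.C μ with hP₁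
  have hco : ∀ n, P₁.coeff n = μ⁻¹ * ι (P.coeff n) * μ ^ (Fintype.card F ^ n) := by
    intro n
    rw [hP₁, Tw.coeff_mul_C, Tw.coeff_C_mul, Tw.coeff_map, fr_apply]
  have hP₁0 : P₁ ≠ 0 := by
    intro h0
    have h1 := hco i
    rw [h0, Tw.coeff_zero'] at h1
    have h2 : ι (P.coeff i) ≠ 0 := by
      intro h3; exact hPi (h.inj (by rw [h3, map_zero]))
    exact mul_ne_zero (mul_ne_zero (inv_ne_zero hμ) h2) (pow_ne_zero _ hμ) h1.symm
  obtain ⟨ν, R₀, hν, hR₀, hπR⟩ := h.exists_primitive P₁ hP₁0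
  have hinv : μ⁻¹ = ι r := by
    rw [inv_eq_iff_eq_inv]
    exact eq_inv_of_mul_eq_one_right hr
  rcases h.val ν with ⟨s, hs⟩ | ⟨r', hr'0, hr'⟩
  · -- `ν` integral: contradiction
    have h1 := hco i
    rw [hR₀, Tw.coeff_C_mul, Tw.coeff_map, ← hs, hinv] at h1
    have h2 : ι (r ^ (Fintype.card F ^ i) * (s * R₀.coeff i)) = ι (r * P.coeff i) := by
      rw [map_mul, map_mul, h1, map_pow, map_mul]
      have h3 : (ι r) ^ (Fintype.card F ^ i) * μ ^ (Fintype.card F ^ i) = 1 := by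
        rw [← mul_pow, hr, one_pow]
      calc (ι r) ^ (Fintype.card F ^ i) * (ι r * ι (P.coeff i) * μ ^ (Fintype.card F ^ i))
          = ((ι r) ^ (Fintype.card F ^ i) * μ ^ (Fintype.card F ^ i)) *
              (ι r * ι (P.coeff i)) := by ring
        _ = ι r * ι (P.coeff i) := by rw [h3, one_mul]
    have h4 := h.inj h2
    have hq : 2 ≤ Fintype.card F ^ i := by
      have h5 : 1 < Fintype.card F := Fintype.one_lt_card
      calc 2 ≤ Fintype.card F := h5
        _ = Fintype.card F ^ 1 := (pow_one _).symm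
        _ ≤ Fintype.card F ^ i := Nat.pow_le_pow_right (by omega) hi
    obtain ⟨k, hk⟩ : ∃ k, Fintype.card F ^ i = k + 2 := ⟨Fintype.card F ^ i - 2, by omega⟩
    rw [hk] at h4
    have h5 : r ^ (k + 1) * (s * R₀.coeff i) = P.coeff i := by
      apply mul_left_cancel₀ hr1
      rw [← h4]; ring
    rw [← h5, map_mul, map_pow, hr0, zero_pow (by omega), zero_mul] at hP
    exact hP rfl
  · -- `ν⁻¹` in the maximal ideal
    have hcm : P₁ * Tw.map ι Q₀ = Tw.map ι Q₀ * Tw.map ι P := by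
      have h1 : Tw.C (F := F) μ⁻¹ * Tw.C μ = 1 := by
        rw [← map_mul, inv_mul_cancel₀ hμ, map_one]
      calc P₁ * Tw.map ι Q₀ = Tw.C μ⁻¹ * (Tw.map ι P * (Tw.C μ * Tw.map ι Q₀)) := by
            rw [hP₁]; simp only [mul_assoc]
        _ = Tw.C μ⁻¹ * (Tw.C μ * Tw.map ι Q₀ * Tw.map ι P) := by rw [← hQ₀, hc]
        _ = (Tw.C μ⁻¹ * Tw.C μ) * (Tw.map ι Q₀ * Tw.map ι P) := by simp only [mul_assoc]
        _ = _ := by rw [h1, one_mul]
    have h2 : Tw.map ι (R₀ * Q₀) = Tw.map ι (Tw.C r' * (Q₀ * P)) := by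
      rw [map_mul, map_mul, map_mul, Tw.map_C, ← hcm, hR₀]
      have h1 : Tw.C (F := F) (ι r') * Tw.C ν = 1 := by
        rw [← map_mul, hr', map_one]
      rw [← mul_assoc, ← mul_assoc, h1, one_mul]
    have h3 := Tw.map_injective ι h.inj h2
    have h4 := congrArg (Tw.map π) h3
    rw [map_mul, map_mul, Tw.map_C, hr'0, map_zero, zero_mul] at h4
    rcases mul_eq_zero.1 h4 with h5 | h5
    · exact hπR h5
    · exact hπQ h5

end Pool.Agent.H9.Ram
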