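import Pool.Agent.H9.Ram.G2

/-!
# Module G3: good reduction

`P = t + g τ + τ²` over `Ω` with `t ∈ R`, `π t = c ∈ F`, `Q` commutes with `P`, `Q² - a(P) Q + b(P) = 0`, and no
`h ∈ F[X]` satisfies `h² - a h + b = 0`. Then `g ∈ R`. Suppose not; by `VR.val` `g⁻¹ = ι r`, `π r = 0`, `g ≠ 0`. Let
`λ^(q-1) = g` (`Ω` algebraically closed) and `P' = λ P λ⁻¹ = t + τ + g^(-(q+1)) τ²` (`λ^(1-q²) = g^(-(q+1))`), which is in
`R{τ}`, and reduces to `c + τ`. `Q' = λ Q λ⁻¹` commutes with `P'`; by `integral_of_comm` (index 1) `Q' ∈ R{τ}`. Its reduction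
`Q̄'` commutes with `c + τ`, so with `τ`, so its coefficients are in `F` (`Tw.T_pow_mul_comm_iff`,
`Tw.mem_range_of_pow_card_eq`): `Q̄' = h₀(τ) = h(c + τ)` for a polynomial `h ∈ F[X]` (`h = h₀(X - c)`). Reducing the
quadratic equation: `(h² - a h + b)(c + τ) = 0`, and `c + τ` has positive degree, so `h² - a h + b = 0`
(`Tw.aeval_eq_zero_iff`), contradiction.
-/

open Polynomial

noncomputable section

namespace Pool.Agent.H9.Ram

variable {F R Ω κ : Type*} [Field F] [Fintype F] [CommRing R] [IsDomain R] [Field Ω] [Field κ]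
  [Algebra F R] [Algebra F Ω] [Algebra F κ] {ι : R →ₐ[F] Ω} {π : R →ₐ[F] κ}

theorem g3_coeff_Pm {R : Type*} [CommRing R] [Algebra F R] (t g : R) (n : ℕ) :
    (Pm t g : Tw F R).coeff n = (if n = 0 then t else 0) + (if n = 1 then g else 0) +
      (if n = 2 then 1 else 0) := by
  unfold Pm
  rw [Tw.coeff_add, Tw.coeff_add, Tw.coeff_C, Tw.coeff_C_mul, Tw.coeff_T, Tw.coeff_T_pow]
  split_ifs <;> simp

theorem g3_map_Pm {R S : Type*} [CommRing R] [Algebra F R] [CommRing S] [Algebra F S]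
    (φ : R →ₐ[F] S) (t g : R) : Tw.map φ (Pm t g) = Pm (φ t) (φ g) := by
  unfold Pm
  rw [map_add, map_add, map_mul, map_pow, Tw.map_C, Tw.map_C, Tw.map_T]

theorem VR.good_reduction_Q (h : VR ι π) (tR gR : R) (Q : Tw F Ω)
    (hc : Pm (ι tR) (ι gR) * Q = Q * Pm (ι tR) (ι gR)) :
    ∃ QR : Tw F R, Tw.map ι QR = Q ∧ Pm tR gR * QR = QR * Pm tR gR := by
  have h2 : π ((Pm tR gR : Tw F R).coeff 2) ≠ 0 := by
    rw [g3_coeff_Pm]; simp
  obtain ⟨QR, hQR⟩ := h.integral_of_comm (Pm tR gR) 2 (by norm_num) h2 Q (by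
    rw [g3_map_Pm]; exact hc)
  refine ⟨QR, hQR, ?_⟩
  apply Tw.map_injective ι h.inj
  rw [map_mul, map_mul, hQR, g3_map_Pm, hc]

/-- Conjugation by a nonzero constant. -/
def g3_conj (l : Ω) (hl : l ≠ 0) : Tw F Ω →ₐ[F] Tw F Ω where
  toFun x := Tw.C l * x * Tw.C l⁻¹
  map_one' := by rw [mul_one, ← map_mul, mul_inv_cancel₀ hl, map_one]
  map_zero' := by simp
  map_add' x y := by rw [mul_add, add_mul]
  map_mul' x y := by
    have h1 : (Tw.C l⁻¹ : Tw F Ω) * Tw.C l = 1 := by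
      rw [← map_mul, inv_mul_cancel₀ hl, map_one]
    calc Tw.C l * (x * y) * Tw.C l⁻¹ = Tw.C l * x * 1 * y * Tw.C l⁻¹ := by
          rw [mul_one]; simp only [mul_assoc]
      _ = Tw.C l * x * (Tw.C l⁻¹ * Tw.C l) * y * Tw.C l⁻¹ := by rw [h1]
      _ = _ := by simp only [mul_assoc]
  commutes' r := by
    rw [← Algebra.commutes, mul_assoc, ← map_mul, mul_inv_cancel₀ hl, map_one, mul_one]

theorem g3_conj_apply (l : Ω) (hl : l ≠ 0) (x : Tw F Ω) :
    g3_conj l hl x = Tw.C l * x * Tw.C l⁻¹ := rfl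

theorem g3_exists_aeval_T (Q : Tw F κ) (hQ : (Tw.T : Tw F κ) * Q = Q * Tw.T) :
    ∃ h₀ : F[X], aeval (Tw.T : Tw F κ) h₀ = Q := by
  have h1 : ∀ i, (Q.coeff i) ^ (Fintype.card F ^ 1) = Q.coeff i := by
    rw [← Tw.T_pow_mul_comm_iff, pow_one]; exact hQ
  have h2 : ∀ i, ∃ r : F, algebraMap F κ r = Q.coeff i := by
    intro i
    exact Tw.mem_range_of_pow_card_eq (by simpa using h1 i)
  choose r hr using h2
  refine ⟨∑ i ∈ Finset.range (Q.natDegree + 1), Polynomial.C (r i) * X ^ i, ?_⟩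
  rw [map_sum]
  conv_rhs => rw [Tw.eq_sum (Nat.lt_succ_self Q.natDegree)]
  apply Finset.sum_congr rfl
  intro i _
  rw [map_mul, map_pow, aeval_X, aeval_C, Tw.algebraMap_apply, hr]

theorem VR.good_reduction [IsAlgClosed Ω] (h : VR ι π) (tR : R) (c : F)
    (ht : π tR = algebraMap F κ c) (g : Ω) (Q : Tw F Ω)
    (hc : Pm (ι tR) g * Q = Q * Pm (ι tR) g) (a b : F[X])
    (hq : Q ^ 2 - aeval (Pm (ι tR) g) a * Q + aeval (Pm (ι tR) g) b = 0)
    (hirr : ∀ h : F[X], h ^ 2 - a * h + b ≠ 0) : ∃ gR : R, ι gR = g := by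
  rcases h.val g with hg | ⟨r, hr0, hrg⟩
  · exact hg
  exfalso
  have hg0 : g ≠ 0 := by
    rintro rfl
    rw [mul_zero] at hrg
    exact zero_ne_one hrg
  have hq1 : 1 < Fintype.card F := Fintype.one_lt_card
  obtain ⟨l, hl⟩ := IsAlgClosed.exists_pow_nat_eq g (show 0 < Fintype.card F - 1 by omega)
  have hl0 : l ≠ 0 := by
    rintro rfl
    rw [zero_pow (by omega)] at hl
    exact hg0 hl.symm
  -- the integral model
  let PR : Tw F R := Tw.C tR + Tw.T + Tw.C (r ^ (Fintype.card F + 1)) * Tw.T ^ 2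
  have hPR : Tw.map ι PR = g3_conj l hl0 (Pm (ι tR) g) := by
    apply Tw.ext_coeff
    intro n
    rw [g3_conj_apply, Tw.coeff_mul_C, Tw.coeff_C_mul, g3_coeff_Pm, Tw.coeff_map]
    show ι ((Tw.C tR + Tw.T + Tw.C (r ^ (Fintype.card F + 1)) * Tw.T ^ 2 : Tw F R).coeff n) = _
    rw [Tw.coeff_add, Tw.coeff_add, Tw.coeff_C, Tw.coeff_C_mul, Tw.coeff_T, Tw.coeff_T_pow,
      fr_apply]
    rcases n with _ | n
    · simp
      field_simp
    rcases n with _ | n
    · have h1 : l ^ Fintype.card F = g * l := by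
        rw [← hl, ← pow_succ, Nat.sub_add_cancel hq1.le]
      simp
      rw [h1]
      field_simp
    rcases n with _ | n
    · have h1 : l ^ (Fintype.card F ^ 2) = g ^ (Fintype.card F + 1) * l := by
        rw [← hl, ← pow_mul, ← pow_succ]
        congr 1
        obtain ⟨m, hm⟩ : ∃ m, Fintype.card F = m + 1 := ⟨Fintype.card F - 1, by omega⟩
        rw [hm]; simp only [Nat.add_sub_cancel]; ring
      have h2 : ι r = g⁻¹ := eq_inv_of_mul_eq_one_left hrg
      simp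
      rw [h1, h2]
      field_simp
      rw [← mul_pow, one_div, inv_mul_cancel₀ hg0, one_pow]
    · simp
  have hπPR : Tw.map π PR = algebraMap F (Tw F κ) c + Tw.T := by
    show Tw.map π (Tw.C tR + Tw.T + Tw.C (r ^ (Fintype.card F + 1)) * Tw.T ^ 2) = _
    rw [map_add, map_add, map_mul, Tw.map_C, Tw.map_C, Tw.map_T, ht, map_pow π, hr0,
      zero_pow (by omega), map_zero, zero_mul, add_zero, Tw.algebraMap_apply]
  have hc1 : π (PR.coeff 1) ≠ 0 := by
    have : PR.coeff 1 = 1 := by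
      show (Tw.C tR + Tw.T + Tw.C (r ^ (Fintype.card F + 1)) * Tw.T ^ 2 : Tw F R).coeff 1 = _
      rw [Tw.coeff_add, Tw.coeff_add, Tw.coeff_C, Tw.coeff_C_mul, Tw.coeff_T, Tw.coeff_T_pow]
      simp
    rw [this, map_one]; exact one_ne_zero
  have hcQ : Tw.map ι PR * g3_conj l hl0 Q = g3_conj l hl0 Q * Tw.map ι PR := by
    rw [hPR, ← map_mul, ← map_mul, hc]
  obtain ⟨QR, hQR⟩ := h.integral_of_comm PR 1 one_pos hc1 _ hcQ
  have hinj := Tw.map_injective ι h.inj
  have hcomm : PR * QR = QR * PR := by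
    apply hinj
    rw [map_mul, map_mul, hQR, hcQ]
  have hquad : QR ^ 2 - aeval PR a * QR + aeval PR b = 0 := by
    apply hinj
    rw [map_add, map_sub, map_mul, map_pow, ← aeval_algHom_apply, ← aeval_algHom_apply, hQR, hPR,
      aeval_algHom_apply, aeval_algHom_apply, ← map_pow, ← map_mul, ← map_sub, ← map_add, hq,
      map_zero, map_zero]
  -- reduce
  have hcomm2 : (Tw.T : Tw F κ) * Tw.map π QR = Tw.map π QR * Tw.T := by
    have h1 := congrArg (Tw.map π) hcomm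
    rw [map_mul, map_mul, hπPR, add_mul, mul_add, Algebra.commutes] at h1
    exact add_left_cancel h1
  obtain ⟨h₀, hh₀⟩ := g3_exists_aeval_T _ hcomm2
  have hh : aeval (algebraMap F (Tw F κ) c + Tw.T) (h₀.comp (X - Polynomial.C c)) =
      Tw.map π QR := by
    rw [aeval_comp, map_sub, aeval_X, aeval_C, add_sub_cancel_left, hh₀]
  have hquad2 := congrArg (Tw.map π) hquad
  rw [map_add, map_sub, map_mul, map_pow, ← aeval_algHom_apply, ← aeval_algHom_apply, hπPR,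
    ← hh, ← map_pow, ← map_mul, ← map_sub, ← map_add, map_zero] at hquad2
  have hdeg : 0 < (algebraMap F (Tw F κ) c + Tw.T).natDegree := by
    have h1 : (algebraMap F (Tw F κ) c + Tw.T).coeff 1 ≠ 0 := by
      rw [Tw.coeff_add, Tw.algebraMap_apply, Tw.coeff_C, Tw.coeff_T]
      simp
    exact Tw.le_natDegree_of_coeff_ne_zero h1
  rw [Tw.aeval_eq_zero_iff _ hdeg] at hquad2
  exact hirr _ hquad2

end Pool.Agent.H9.Ram
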