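import Pool.Agent.H9.Ram.G0

/-!
# Module G4: the Frobenius element becomes a monomial; normalization

(a) degrees: `W` a domain, `φ : W → K'` to a field, `P = t + g τ + τ²`, `Fr` commutes with `P` and
`Fr² - A(P) Fr + e (P - c)^k = 0`, i.e. `Fr (A(P) - Fr) = e (P - c)^k`, and `φ Fr` has degree `k`. Then `Fr` has degree `k`:
the degrees of `Fr` and `A(P) - Fr` add up to `2k`; the same holds after `φ`, so `φ (A(P) - Fr)` has degree `k`; the
degrees over `W` are at least those after `φ`.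
(b) monomial: over the field `κ`, `P = c + g τ + τ²`, `Fr = α(P) + P^m Q` with constant coefficient
`α(c) + c^m ρ = 0`, `natDegree Fr ≤ k`, `k > 0`, `t.Ok c k`. From `Q² - a(P) Q + b(P) = 0`:
`Fr (A(P) - Fr) = e (P - c)^k`, `A = 2α + X^m a`. The constant coefficient of `A(P) - Fr` is `A(c) ≠ 0`, so its `ord` is
`0`; `P - c` has `ord ≥ 1`; so `ord Fr = k · ord (P - c) ≥ k ≥ natDegree Fr`, hence `Fr = ω τ^k` and `ord (P - c) = 1`, i.e.
`g ≠ 0`.
(c) normalization: `ω τ^k` commutes with `c + g τ + τ²`: `ω^(q²) = ω`, `ω g^(q^k) = g ω^q`. Choose `λ^(q-1) = g`. Then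
`λ P λ⁻¹ = c + τ + x τ²`, `x = λ^(1-q²)`, `λ ω τ^k λ⁻¹ = ω λ^(1-q^k) τ^k = ζ τ^k`; it commutes with `c + τ + x τ²`, so
`ζ^q = ζ` (`ζ ∈ F`) and `x^(q^k) = x`.
-/

open Polynomial

noncomputable section

namespace Pool.Agent.H9.Ram

variable {F : Type*} [Field F] [Fintype F]

theorem g4_coeff_Pm {R : Type*} [CommRing R] [Algebra F R] (t g : R) (n : ℕ) :
    (Pm t g : Tw F R).coeff n =
      (if n = 0 then t else 0) + g * (if n = 1 then 1 else 0) + (if n = 2 then 1 else 0) := by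
  unfold Pm
  rw [Tw.coeff_add, Tw.coeff_add, Tw.coeff_C, Tw.coeff_C_mul, Tw.coeff_T, Tw.coeff_T_pow]

theorem natDegree_Pm {R : Type*} [CommRing R] [Nontrivial R] [Algebra F R] (t g : R) :
    (Pm t g : Tw F R).natDegree = 2 := by
  apply le_antisymm
  · rw [Tw.natDegree_le_iff]
    intro n hn
    rw [g4_coeff_Pm, if_neg (by omega), if_neg (by omega), if_neg (by omega)]
    simp
  · apply Tw.le_natDegree_of_coeff_ne_zero
    rw [g4_coeff_Pm]
    simp

theorem map_Pm {R S : Type*} [CommRing R] [CommRing S] [Algebra F R] [Algebra F S] (φ : R →ₐ[F] S)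
    (t g : R) : Tw.map φ (Pm t g : Tw F R) = Pm (φ t) (φ g) := by
  unfold Pm
  simp only [map_add, map_mul, map_pow, Tw.map_C, Tw.map_T]

theorem g4_natDegree_map_le {R S : Type*} [CommRing R] [CommRing S] [Algebra F R] [Algebra F S]
    (φ : R →ₐ[F] S) (f : Tw F R) : (Tw.map φ f).natDegree ≤ f.natDegree := by
  rw [Tw.natDegree_le_iff]
  intro n hn
  rw [Tw.coeff_map, Tw.coeff_eq_zero_of_natDegree_lt hn, map_zero]

theorem g4_natDegree_norm (c e : F) (he : e ≠ 0) (k : ℕ) :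
    (Polynomial.C e * (X - Polynomial.C c) ^ k : F[X]).natDegree = k := by
  rw [Polynomial.natDegree_C_mul he, Polynomial.natDegree_pow, Polynomial.natDegree_X_sub_C,
    mul_one]

theorem g4_norm_ne_zero (c e : F) (he : e ≠ 0) (k : ℕ) :
    (Polynomial.C e * (X - Polynomial.C c) ^ k : F[X]) ≠ 0 :=
  mul_ne_zero (Polynomial.C_ne_zero.2 he) (pow_ne_zero _ (Polynomial.X_sub_C_ne_zero c))

/-- The degrees of the two factors of the norm add up to `2 k`. -/
theorem g4_sum_degrees {W : Type*} [CommRing W] [IsDomain W] [Algebra F W] (t g : W) (Fr : Tw F W)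
    (A : F[X]) (c e : F) (he : e ≠ 0) (k : ℕ)
    (hq : Fr ^ 2 - aeval (Pm t g) A * Fr +
      aeval (Pm t g) (Polynomial.C e * (X - Polynomial.C c) ^ k) = 0) :
    (aeval (Pm t g) A - Fr).natDegree + Fr.natDegree = k * 2 := by
  have hprod : (aeval (Pm t g) A - Fr) * Fr =
      aeval (Pm t g) (Polynomial.C e * (X - Polynomial.C c) ^ k) := by
    rw [sub_mul, ← pow_two]
    have := sub_eq_zero.2 hq
    rw [eq_comm, ← sub_eq_zero, ← hq]
    abel
  have hN : aeval (Pm t g : Tw F W) (Polynomial.C e * (X - Polynomial.C c) ^ k) ≠ 0 := by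
    intro h
    rw [Tw.aeval_eq_zero_iff _ (by rw [natDegree_Pm]; norm_num)] at h
    exact g4_norm_ne_zero c e he k h
  have h1 : aeval (Pm t g) A - Fr ≠ 0 := by
    intro h; rw [h, zero_mul] at hprod; exact hN hprod.symm
  have h2 : Fr ≠ 0 := by
    intro h; rw [h, mul_zero] at hprod; exact hN hprod.symm
  rw [← Tw.natDegree_mul h1 h2, hprod, Tw.natDegree_aeval _ (by rw [natDegree_Pm]; norm_num),
    natDegree_Pm, g4_natDegree_norm c e he k]

theorem natDegree_eq_of_map {W K' : Type*} [CommRing W] [IsDomain W] [Field K'] [Algebra F W]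
    [Algebra F K'] (φ : W →ₐ[F] K') (t g : W) (Fr : Tw F W) (hc : Pm t g * Fr = Fr * Pm t g)
    (A : F[X]) (c e : F) (he : e ≠ 0) (k : ℕ)
    (hq : Fr ^ 2 - aeval (Pm t g) A * Fr +
      aeval (Pm t g) (Polynomial.C e * (X - Polynomial.C c) ^ k) = 0)
    (hd : (Tw.map φ Fr).natDegree = k) : Fr.natDegree = k := by
  have h1 := g4_sum_degrees t g Fr A c e he k hq
  have hq' : (Tw.map φ Fr) ^ 2 - aeval (Pm (φ t) (φ g)) A * (Tw.map φ Fr) +
      aeval (Pm (φ t) (φ g)) (Polynomial.C e * (X - Polynomial.C c) ^ k) = 0 := by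
    have := congrArg (Tw.map φ) hq
    rw [map_add, map_sub, map_mul, map_pow, map_zero, ← Polynomial.aeval_algHom_apply,
      ← Polynomial.aeval_algHom_apply, map_Pm] at this
    exact this
  have h2 := g4_sum_degrees (φ t) (φ g) (Tw.map φ Fr) A c e he k hq'
  have h3 : aeval (Pm (φ t) (φ g)) A - Tw.map φ Fr = Tw.map φ (aeval (Pm t g) A - Fr) := by
    rw [map_sub, ← Polynomial.aeval_algHom_apply, map_Pm]
  have h4 := g4_natDegree_map_le φ (aeval (Pm t g) A - Fr)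
  have h5 := g4_natDegree_map_le φ Fr
  rw [h3] at h2
  omega

/-- The quadratic equation of `Fr = α(P) + P^m Q`. -/
theorem quadratic_of_wit {R : Type*} [CommRing R] [Algebra F R] (P Q : Tw F R) (t : Typ F)
    (hc : P * Q = Q * P) (hq : Q ^ 2 - aeval P t.a * Q + aeval P t.b = 0) :
    (aeval P t.al + P ^ t.m * Q) ^ 2 - aeval P (2 * t.al + X ^ t.m * t.a) *
      (aeval P t.al + P ^ t.m * Q) +
      aeval P (t.al ^ 2 + X ^ t.m * t.al * t.a + X ^ (2 * t.m) * t.b) = 0 := by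
  have hcomm : ∀ a : F[X], Commute ((aeval P : F[X] →ₐ[F] Tw F R) a) Q := by
    intro a
    induction a using Polynomial.induction_on' with
    | add p q hp hq => rw [map_add]; exact hp.add_left hq
    | monomial n r =>
      rw [Polynomial.aeval_monomial]
      exact (show Commute (algebraMap F (Tw F R) r) Q from Algebra.commutes r Q).mul_left
        ((show Commute P Q from hc).pow_left n)
  let Φ : (F[X])[X] →+* Tw F R :=
    Polynomial.eval₂RingHom' ((aeval P : F[X] →ₐ[F] Tw F R) : F[X] →+* Tw F R) Q hcomm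
  have hC : ∀ a : F[X], Φ (Polynomial.C a) = aeval P a := by
    intro a
    show Polynomial.eval₂ _ _ _ = _
    rw [Polynomial.eval₂_C]
    rfl
  have hX : Φ Polynomial.X = Q := by
    show Polynomial.eval₂ _ _ _ = _
    rw [Polynomial.eval₂_X]
  have hXm : aeval P (X ^ t.m : F[X]) = P ^ t.m := by
    rw [map_pow, Polynomial.aeval_X]
  have h1 : Φ ((Polynomial.C t.al + Polynomial.C (X ^ t.m) * Polynomial.X) ^ 2 -
      Polynomial.C (2 * t.al + X ^ t.m * t.a) *
        (Polynomial.C t.al + Polynomial.C (X ^ t.m) * Polynomial.X) +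
      Polynomial.C (t.al ^ 2 + X ^ t.m * t.al * t.a + X ^ (2 * t.m) * t.b)) =
      Φ (Polynomial.C (X ^ (2 * t.m)) * (Polynomial.X ^ 2 - Polynomial.C t.a * Polynomial.X +
        Polynomial.C t.b)) := by
    congr 1
    simp only [map_add, map_mul, map_pow, map_ofNat]
    ring
  have h2 : ∀ u : F[X], Φ (Polynomial.C u * (Polynomial.X ^ 2 - Polynomial.C t.a * Polynomial.X +
        Polynomial.C t.b)) = 0 := by
    intro u
    rw [Φ.map_mul, Φ.map_add, Φ.map_sub, Φ.map_mul, Φ.map_pow, hX, hC, hC, hC, hq, mul_zero]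
  rw [h2] at h1
  rw [Φ.map_add, Φ.map_sub, Φ.map_pow, Φ.map_mul, Φ.map_add, Φ.map_mul, hX, hC, hC, hC, hC,
    hXm] at h1
  exact h1

theorem g4_ord_eq_zero {κ : Type*} [CommRing κ] [Algebra F κ] {f : Tw F κ}
    (h : f.coeff 0 ≠ 0) : Tw.ord f = 0 := by
  by_contra h1
  exact h (Tw.coeff_eq_zero_of_lt_ord (Nat.pos_of_ne_zero h1))

theorem frob_monomial {κ : Type*} [Field κ] [Algebra F κ] (c : F) (g : κ) (Q : Tw F κ) (t : Typ F)
    {k : ℕ} (hk : 0 < k) (hOk : t.Ok c k)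
    (hc : Pm (algebraMap F κ c) g * Q = Q * Pm (algebraMap F κ c) g)
    (hq : Q ^ 2 - aeval (Pm (algebraMap F κ c) g) t.a * Q +
      aeval (Pm (algebraMap F κ c) g) t.b = 0)
    (hρ : algebraMap F κ (t.al.eval c) + algebraMap F κ c ^ t.m * Q.coeff 0 = 0)
    (hd : (aeval (Pm (algebraMap F κ c) g : Tw F κ) t.al +
      (Pm (algebraMap F κ c) g : Tw F κ) ^ t.m * Q).natDegree ≤ k) :
    g ≠ 0 ∧ ∃ ω : κ, ω ≠ 0 ∧ aeval (Pm (algebraMap F κ c) g : Tw F κ) t.al +
      (Pm (algebraMap F κ c) g : Tw F κ) ^ t.m * Q = Tw.C ω * Tw.T ^ k := by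
  obtain ⟨⟨e, he, hN⟩, hA⟩ := hOk
  have hquad := quadratic_of_wit _ Q t hc hq
  rw [hN] at hquad
  set P : Tw F κ := Pm (algebraMap F κ c) g with hP
  set Fr : Tw F κ := aeval P t.al + P ^ t.m * Q with hFr
  have hP0 : P.coeff 0 = algebraMap F κ c := by
    rw [hP, g4_coeff_Pm]; simp
  have hdP : 0 < P.natDegree := by rw [hP, natDegree_Pm]; norm_num
  have hprod : (aeval P (2 * t.al + X ^ t.m * t.a) - Fr) * Fr =
      aeval P (Polynomial.C e * (X - Polynomial.C c) ^ k) := by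
    rw [sub_mul, ← pow_two]
    rw [eq_comm, ← sub_eq_zero, ← hquad]
    abel
  have hNne : aeval P (Polynomial.C e * (X - Polynomial.C c) ^ k) ≠ 0 := by
    intro h
    rw [Tw.aeval_eq_zero_iff _ hdP] at h
    exact g4_norm_ne_zero c e he k h
  have hGne : aeval P (2 * t.al + X ^ t.m * t.a) - Fr ≠ 0 := by
    intro h; rw [h, zero_mul] at hprod; exact hNne hprod.symm
  have hFne : Fr ≠ 0 := by
    intro h; rw [h, mul_zero] at hprod; exact hNne hprod.symm
  have hal : ∀ a : F[X], (aeval P a).coeff 0 = algebraMap F κ (a.eval c) := by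
    intro a
    rw [Tw.coeff_aeval_zero, hP0, Polynomial.aeval_algebraMap_apply, Polynomial.coe_aeval_eq_eval]
  have hPm0 : (P ^ t.m).coeff 0 = algebraMap F κ c ^ t.m := by
    have := hal (X ^ t.m)
    rw [map_pow, Polynomial.aeval_X] at this
    rw [this]
    simp
  have hFr0 : Fr.coeff 0 = 0 := by
    rw [hFr, Tw.coeff_add, Tw.coeff_mul_zero, hal, hPm0, hρ]
  have hG0 : Tw.ord (aeval P (2 * t.al + X ^ t.m * t.a) - Fr) = 0 := by
    apply g4_ord_eq_zero
    rw [Tw.coeff_sub, hFr0, sub_zero, hal]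
    exact (map_ne_zero (algebraMap F κ)).2 hA
  have hNP : aeval P (Polynomial.C e * (X - Polynomial.C c) ^ k) =
      Tw.C (algebraMap F κ e) * (P - Tw.C (algebraMap F κ c)) ^ k := by
    rw [map_mul, map_pow, map_sub, Polynomial.aeval_X, Polynomial.aeval_C, Polynomial.aeval_C]
    rfl
  have he' : algebraMap F κ e ≠ 0 := (map_ne_zero (algebraMap F κ)).2 he
  have hCe : (Tw.C (algebraMap F κ e) : Tw F κ) ≠ 0 := by
    intro h
    have := congrArg (fun f : Tw F κ => f.coeff 0) h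
    simp only [Tw.coeff_C_zero, Tw.coeff_zero'] at this
    exact he' this
  have hordC : Tw.ord (Tw.C (algebraMap F κ e) : Tw F κ) = 0 := by
    apply g4_ord_eq_zero
    rw [Tw.coeff_C_zero]; exact he'
  have hpc : ((P - Tw.C (algebraMap F κ c)) ^ k : Tw F κ) ≠ 0 := by
    intro h
    rw [hNP, h, mul_zero] at hNne
    exact hNne rfl
  have hord : Tw.ord Fr = k * Tw.ord (P - Tw.C (algebraMap F κ c)) := by
    have h1 := Tw.ord_mul hGne hFne
    rw [hprod, hNP, Tw.ord_mul hCe hpc, Tw.ord_pow, hG0, hordC, zero_add, zero_add] at h1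
    exact h1.symm
  have hpc1 : (P - Tw.C (algebraMap F κ c) : Tw F κ) ≠ 0 := by
    intro h
    rw [h, zero_pow hk.ne'] at hpc
    exact hpc rfl
  have hle : Tw.ord Fr ≤ Fr.natDegree :=
    Tw.le_natDegree_of_coeff_ne_zero (Tw.coeff_ord_ne_zero hFne)
  have hpos : 0 < Tw.ord (P - Tw.C (algebraMap F κ c)) := by
    rcases Nat.eq_zero_or_pos (Tw.ord (P - Tw.C (algebraMap F κ c))) with h | h
    · have := Tw.coeff_ord_ne_zero hpc1
      rw [h, Tw.coeff_sub, hP0, Tw.coeff_C_zero, sub_self] at this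
      exact absurd rfl this
    · exact h
  have h1 : Tw.ord (P - Tw.C (algebraMap F κ c)) = 1 := by
    have h2 : k * Tw.ord (P - Tw.C (algebraMap F κ c)) ≤ k * 1 := by
      rw [← hord, mul_one]; exact hle.trans hd
    have := Nat.le_of_mul_le_mul_left h2 hk
    omega
  rw [h1, mul_one] at hord
  constructor
  · have := Tw.coeff_ord_ne_zero hpc1
    rw [h1, Tw.coeff_sub, hP, g4_coeff_Pm, Tw.coeff_C] at this
    simpa using this
  · refine ⟨Fr.coeff k, ?_, ?_⟩
    · have := Tw.coeff_ord_ne_zero hFne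
      rwa [hord] at this
    · apply Tw.ext_coeff
      intro n
      rw [Tw.coeff_C_mul, Tw.coeff_T_pow]
      rcases lt_trichotomy n k with h | h | h
      · rw [if_neg (by omega), mul_zero, Tw.coeff_eq_zero_of_lt_ord (by omega)]
      · subst h; simp
      · rw [if_neg (by omega), mul_zero, Tw.coeff_eq_zero_of_natDegree_lt (by omega)]

theorem g4_C_conj {κ : Type*} [Field κ] [Algebra F κ] (l a : κ) (i : ℕ) :
    (Tw.C l * (Tw.C a * Tw.T ^ i) * Tw.C l⁻¹ : Tw F κ) =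
      Tw.C (l * a * (l⁻¹) ^ (Fintype.card F ^ i)) * Tw.T ^ i := by
  rw [← mul_assoc, mul_assoc (Tw.C l * Tw.C a), Tw.T_pow_mul_C, fr_apply, ← mul_assoc, ← map_mul,
    ← map_mul]

theorem exists_normalization {κ : Type*} [Field κ] [IsAlgClosed κ] [Algebra F κ] (c : F) (g ω : κ)
    (hg : g ≠ 0) (hω : ω ≠ 0) (k : ℕ)
    (hc : (Pm (algebraMap F κ c) g : Tw F κ) * (Tw.C ω * Tw.T ^ k) =
      (Tw.C ω * Tw.T ^ k) * Pm (algebraMap F κ c) g) :
    ∃ (l x : κ) (z : F), l ≠ 0 ∧ l ^ (Fintype.card F - 1) = g ∧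
      x * l ^ (Fintype.card F ^ 2 - 1) = 1 ∧ z ≠ 0 ∧ x ^ (Fintype.card F ^ k) = x ∧
      Tw.C l * Pm (algebraMap F κ c) g * Tw.C l⁻¹ = Pt c x ∧
      Tw.C l * (Tw.C ω * Tw.T ^ k) * Tw.C l⁻¹ = algebraMap F (Tw F κ) z * Tw.T ^ k := by
  have hq1 : 1 < Fintype.card F := Fintype.one_lt_card
  obtain ⟨l, hl⟩ := IsAlgClosed.exists_pow_nat_eq g (n := Fintype.card F - 1) (by omega)
  have hl0 : l ≠ 0 := by
    rintro rfl
    rw [zero_pow (by omega)] at hl
    exact hg hl.symm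
  have hqq : 1 ≤ Fintype.card F ^ 2 := Nat.one_le_pow _ _ (by omega)
  set x : κ := (l ^ (Fintype.card F ^ 2 - 1))⁻¹ with hx
  have hx1 : x * l ^ (Fintype.card F ^ 2 - 1) = 1 := inv_mul_cancel₀ (pow_ne_zero _ hl0)
  have hx0 : x ≠ 0 := inv_ne_zero (pow_ne_zero _ hl0)
  have hCl : (Tw.C l⁻¹ * Tw.C l : Tw F κ) = 1 := by
    rw [← map_mul, inv_mul_cancel₀ hl0, map_one]
  have hPt : (Pt c x : Tw F κ) =
      Tw.C (algebraMap F κ c) * Tw.T ^ 0 + Tw.C 1 * Tw.T ^ 1 + Tw.C x * Tw.T ^ 2 := by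
    unfold Pt
    rw [Tw.algebraMap_apply, pow_zero, mul_one, map_one, one_mul, pow_one]
  have hPmd : (Pm (algebraMap F κ c) g : Tw F κ) =
      Tw.C (algebraMap F κ c) * Tw.T ^ 0 + Tw.C g * Tw.T ^ 1 + Tw.C 1 * Tw.T ^ 2 := by
    unfold Pm
    rw [pow_zero, mul_one, map_one, one_mul, pow_one]
  have hconjP : Tw.C l * Pm (algebraMap F κ c) g * Tw.C l⁻¹ = (Pt c x : Tw F κ) := by
    rw [hPmd, mul_add, mul_add, add_mul, add_mul, g4_C_conj, g4_C_conj, g4_C_conj, hPt]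
    congr 1
    · congr 1
      · congr 2
        rw [pow_zero, pow_one]
        field_simp
      · congr 2
        rw [pow_one, ← hl]
        have h3 : l * l ^ (Fintype.card F - 1) = l ^ Fintype.card F := by
          rw [← pow_succ']; congr 1; omega
        rw [h3, ← mul_pow, mul_inv_cancel₀ hl0, one_pow]
    · congr 2
      have h4 : (l⁻¹) ^ (Fintype.card F ^ 2) = (l⁻¹) ^ (Fintype.card F ^ 2 - 1) * l⁻¹ := by
        rw [← pow_succ]; congr 1; omega
      rw [h4, hx, inv_pow, mul_one]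
      field_simp
  set z' : κ := l * ω * (l⁻¹) ^ (Fintype.card F ^ k) with hz'
  have hz0 : z' ≠ 0 := mul_ne_zero (mul_ne_zero hl0 hω) (pow_ne_zero _ (inv_ne_zero hl0))
  have hconjF : Tw.C l * (Tw.C ω * Tw.T ^ k) * Tw.C l⁻¹ = (Tw.C z' * Tw.T ^ k : Tw F κ) :=
    g4_C_conj l ω k
  have hcomm : (Pt c x : Tw F κ) * (Tw.C z' * Tw.T ^ k) = (Tw.C z' * Tw.T ^ k) * Pt c x := by
    rw [← hconjP, ← hconjF]
    calc Tw.C l * Pm (algebraMap F κ c) g * Tw.C l⁻¹ * (Tw.C l * (Tw.C ω * Tw.T ^ k) * Tw.C l⁻¹)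
        = Tw.C l * Pm (algebraMap F κ c) g * (Tw.C l⁻¹ * Tw.C l) * (Tw.C ω * Tw.T ^ k) *
            Tw.C l⁻¹ := by simp only [mul_assoc]
      _ = Tw.C l * (Pm (algebraMap F κ c) g * (Tw.C ω * Tw.T ^ k)) * Tw.C l⁻¹ := by
          rw [hCl, mul_one]; simp only [mul_assoc]
      _ = Tw.C l * ((Tw.C ω * Tw.T ^ k) * Pm (algebraMap F κ c) g) * Tw.C l⁻¹ := by rw [hc]
      _ = Tw.C l * (Tw.C ω * Tw.T ^ k) * (Tw.C l⁻¹ * Tw.C l) * Pm (algebraMap F κ c) g *
            Tw.C l⁻¹ := by rw [hCl, mul_one]; simp only [mul_assoc]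
      _ = _ := by simp only [mul_assoc]
  have hcoef : ∀ n, ((Pt c x : Tw F κ) * (Tw.C z' * Tw.T ^ k)).coeff n =
      ((Tw.C z' * Tw.T ^ k) * Pt c x : Tw F κ).coeff n := fun n => by rw [hcomm]
  have hL : ∀ n, ((Pt c x : Tw F κ) * (Tw.C z' * Tw.T ^ k)).coeff (n + k) =
      (Pt c x : Tw F κ).coeff n * z' ^ (Fintype.card F ^ n) := by
    intro n
    rw [← mul_assoc, Tw.coeff_mul_T_pow, if_pos (by omega), Nat.add_sub_cancel, Tw.coeff_mul_C,
      fr_apply]
  have hR : ∀ n, ((Tw.C z' * Tw.T ^ k) * Pt c x : Tw F κ).coeff (n + k) =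
      z' * ((Pt c x : Tw F κ).coeff n) ^ (Fintype.card F ^ k) := by
    intro n
    rw [mul_assoc, Tw.coeff_C_mul, Tw.coeff_T_pow_mul, if_pos (by omega), Nat.add_sub_cancel,
      fr_apply]
  have hPtc : ∀ n, (Pt c x : Tw F κ).coeff n =
      (if n = 0 then algebraMap F κ c else 0) + (if n = 1 then 1 else 0) +
        x * (if n = 2 then 1 else 0) := by
    intro n
    unfold Pt
    rw [Tw.coeff_add, Tw.coeff_add, Tw.algebraMap_apply, Tw.coeff_C, Tw.coeff_T, Tw.coeff_C_mul,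
      Tw.coeff_T_pow]
  have hz1 : z' ^ Fintype.card F = z' := by
    have := hcoef (1 + k)
    rw [hL, hR, hPtc] at this
    simpa using this
  have hz2 : x ^ (Fintype.card F ^ k) = x := by
    have := hcoef (2 + k)
    rw [hL, hR, hPtc] at this
    simp only [OfNat.ofNat_ne_zero, if_false, OfNat.ofNat_ne_one, if_true, mul_one, zero_add]
      at this
    rw [pow_two, pow_mul, hz1, hz1] at this
    have h5 : z' * (x ^ (Fintype.card F ^ k) - x) = 0 := by rw [mul_sub, ← this]; ring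
    rcases mul_eq_zero.1 h5 with h6 | h6
    · exact absurd h6 hz0
    · exact sub_eq_zero.1 h6
  obtain ⟨z, hz⟩ := Tw.mem_range_of_pow_card_eq (F := F) hz1
  refine ⟨l, x, z, hl0, hl, hx1, ?_, hz2, hconjP, ?_⟩
  · rintro rfl
    rw [map_zero] at hz
    exact hz0 hz.symm
  · rw [hconjF, Tw.algebraMap_apply, hz]

end Pool.Agent.H9.Ram
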