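import Pool.Agent.H9.Ram.G2
import Pool.Agent.H9.Ram.G4

/-!
# Module G6: uniqueness of lifts

`P_i = t + g_i τ + τ²`, `Q_i ∈ R{τ}` commuting, same constant coefficient `γ` of `Q₁, Q₂`, same reductions; `π t = c`,
`π γ = ρ` in `F`; there is `w ≠ 0` in `κ` with `P̄ w = c w` and `Q̄ w ≠ ρ w`. Then `g₁ = g₂`, `Q₁ = Q₂`.
Suppose not. Apply `VR.exists_primitive` to `f = C (ι (g₂ - g₁)) + map ι (Q₂ - Q₁) * T ≠ 0`: `g₂ - g₁ = μ x₁`,
`Q₂ - Q₁ = μ y`, `x₁ ∈ R`, `y ∈ R{τ}`, with `x̄₁ ≠ 0` or `ȳ ≠ 0`; `μ ∈ R` with `π μ = 0` (write `z = μ · unit` for a coefficient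
`z` of `g₂ - g₁` or `Q₂ - Q₁` whose cofactor is a unit; `π z = 0`). `y.coeff 0 = 0`. With `x = x₁ τ`, `P = P₁`, `Q = Q₁`:
`0 = (P + μx)(Q + μy) - (Q + μy)(P + μx) = P μ y + μ x Q + μ x μ y - Q μ x - μ y P - μ y μ x`.
For `A ∈ R{τ}` let `A^μ = ∑ A_i μ^(q^i - 1) τ^i`, so `A μ = μ A^μ` and `A^μ ≡ A_0` modulo `π` (`π μ = 0`). Cancel `μ` on the left:
`P^μ y + x Q + x μ y - Q^μ x - y P - y μ x = 0`; apply `π`: `c ȳ + x̄ Q̄ - ρ x̄ - ȳ P̄ = 0` (`x μ ≡ 0`, `y μ ≡ 0` as `y_0 = 0`,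
anyway `π μ = 0`). So `x̄ (Q̄ - ρ) = ȳ (P̄ - c)`. Evaluate at `w`: `x̄₁ ((Q̄ - ρ) w)^q = 0`, so `x̄₁ = 0`, `x̄ = 0`,
`ȳ (P̄ - c) = 0`, `ȳ = 0` (`P̄ - c` is monic of degree 2): contradiction.
-/

open Polynomial

noncomputable section

namespace Pool.Agent.H9.Ram

variable {F R Ω κ : Type*} [Field F] [Fintype F] [CommRing R] [IsDomain R] [Field Ω] [Field κ]
  [Algebra F R] [Algebra F Ω] [Algebra F κ] {ι : R →ₐ[F] Ω} {π : R →ₐ[F] κ}

/-- `A μ = μ A'` with `A' ≡ A_0` if `π μ = 0`. -/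
theorem g6_twist {F R κ : Type*} [Field F] [Fintype F] [CommRing R] [Field κ]
    [Algebra F R] [Algebra F κ] (π : R →ₐ[F] κ) (μ : R) (hμ : π μ = 0) (A : Tw F R) :
    ∃ A' : Tw F R, A * Tw.C μ = Tw.C μ * A' ∧ Tw.map π A' = Tw.C (π (A.coeff 0)) := by
  classical
  have hq : 1 < Fintype.card F := Fintype.one_lt_card
  let A' : Tw F R := ⟨∑ i ∈ A.poly.support,
    Polynomial.monomial i (A.coeff i * μ ^ (Fintype.card F ^ i - 1))⟩
  have hA' : ∀ n, A'.coeff n = A.coeff n * μ ^ (Fintype.card F ^ n - 1) := by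
    intro n
    show (∑ i ∈ A.poly.support,
      Polynomial.monomial i (A.coeff i * μ ^ (Fintype.card F ^ i - 1))).coeff n = _
    simp only [Polynomial.finsetSum_coeff, Polynomial.coeff_monomial, Finset.sum_ite_eq']
    split_ifs with h
    · rfl
    · have h0 : A.coeff n = 0 := by
        show A.poly.coeff n = 0
        simpa using h
      rw [h0, zero_mul]
  refine ⟨A', ?_, ?_⟩
  · apply Tw.ext_coeff
    intro n
    rw [Tw.coeff_mul_C, Tw.coeff_C_mul, hA', fr_apply]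
    have h1 : μ ^ (Fintype.card F ^ n) = μ * μ ^ (Fintype.card F ^ n - 1) := by
      rw [← pow_succ']
      congr 1
      have : 0 < Fintype.card F ^ n := pow_pos (by omega) n
      omega
    rw [h1]
    ring
  · apply Tw.ext_coeff
    intro n
    rw [Tw.coeff_map, hA', Tw.coeff_C, map_mul, map_pow, hμ]
    split_ifs with h
    · subst h
      simp
    · have h2 : Fintype.card F ^ n - 1 ≠ 0 := by
        have : 1 < Fintype.card F ^ n := Nat.one_lt_pow h hq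
        omega
      rw [zero_pow h2, mul_zero]

theorem g6_coeff_Pm_zero {F R : Type*} [Field F] [Fintype F] [CommRing R] [Algebra F R]
    (t g : R) : (Pm t g : Tw F R).coeff 0 = t := by
  unfold Pm
  simp [Tw.coeff_C, Tw.coeff_C_mul, Tw.coeff_T, Tw.coeff_T_pow]

theorem g6_coeff_Pm_two {F R : Type*} [Field F] [Fintype F] [CommRing R] [Algebra F R]
    (t g : R) : (Pm t g : Tw F R).coeff 2 = 1 := by
  unfold Pm
  simp [Tw.coeff_C, Tw.coeff_C_mul, Tw.coeff_T, Tw.coeff_T_pow]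

theorem g6_C_cancel {F R : Type*} [Field F] [Fintype F] [CommRing R] [IsDomain R] [Algebra F R]
    {μ : R} (hμ : μ ≠ 0) {A : Tw F R} (h : Tw.C μ * A = 0) : A = 0 := by
  apply Tw.ext_coeff
  intro n
  have h1 : (Tw.C μ * A).coeff n = 0 := by rw [h]; exact Tw.coeff_zero' n
  rw [Tw.coeff_C_mul] at h1
  rw [Tw.coeff_zero']
  exact (mul_eq_zero.mp h1).resolve_left hμ

theorem VR.lift_unique (h : VR ι π) (t γ : R) (c ρ : F) (ht : π t = algebraMap F κ c)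
    (hγ : π γ = algebraMap F κ ρ) (g₁ g₂ : R) (Q₁ Q₂ : Tw F R)
    (hc₁ : Pm t g₁ * Q₁ = Q₁ * Pm t g₁) (hc₂ : Pm t g₂ * Q₂ = Q₂ * Pm t g₂)
    (h0₁ : Q₁.coeff 0 = γ) (h0₂ : Q₂.coeff 0 = γ) (hg : π g₁ = π g₂)
    (hQ : Tw.map π Q₁ = Tw.map π Q₂)
    (hnd : ∃ w : κ, w ≠ 0 ∧ Tw.ev (Pm (π t) (π g₁) : Tw F κ) w = algebraMap F κ c * w ∧
      Tw.ev (Tw.map π Q₁) w ≠ algebraMap F κ ρ * w) : g₁ = g₂ ∧ Q₁ = Q₂ := by
  classical
  by_contra hcon
  -- the common factor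
  set f : Tw F Ω := Tw.C (ι (g₂ - g₁)) + Tw.map ι (Q₂ - Q₁) * Tw.T with hfdef
  have hf0 : f.coeff 0 = ι (g₂ - g₁) := by
    rw [hfdef, Tw.coeff_add, Tw.coeff_C, Tw.coeff_mul_T]
    simp
  have hfs : ∀ n, f.coeff (n + 1) = ι ((Q₂ - Q₁).coeff n) := by
    intro n
    rw [hfdef, Tw.coeff_add, Tw.coeff_C, Tw.coeff_mul_T]
    simp
  have hf : f ≠ 0 := by
    intro h0
    apply hcon
    constructor
    · have h1 : ι (g₂ - g₁) = ι 0 := by rw [← hf0, h0, Tw.coeff_zero', map_zero]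
      have h2 := h.inj h1
      exact (sub_eq_zero.mp h2).symm
    · apply Tw.ext_coeff
      intro n
      have h1 : ι ((Q₂ - Q₁).coeff n) = ι 0 := by rw [← hfs, h0, Tw.coeff_zero', map_zero]
      have h2 := h.inj h1
      rw [Tw.coeff_sub] at h2
      exact (sub_eq_zero.mp h2).symm
  obtain ⟨μ', f₀, hμ', hff, hf₀⟩ := h.exists_primitive f hf
  have hco : ∀ n, f.coeff n = μ' * ι (f₀.coeff n) := by
    intro n
    rw [hff, Tw.coeff_C_mul, Tw.coeff_map]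
  obtain ⟨i, hi⟩ : ∃ i, π (f₀.coeff i) ≠ 0 := by
    by_contra hne
    push Not at hne
    apply hf₀
    apply Tw.ext_coeff
    intro n
    rw [Tw.coeff_map, Tw.coeff_zero', hne n]
  obtain ⟨u, hu⟩ := h.unit _ hi
  -- the coefficient `z` with `ι z = μ' * ι u`, `π z = 0`
  obtain ⟨z, hz, hπz⟩ : ∃ z : R, f.coeff i = ι z ∧ π z = 0 := by
    cases i with
    | zero => exact ⟨g₂ - g₁, hf0, by rw [map_sub, hg, sub_self]⟩
    | succ n =>
      refine ⟨(Q₂ - Q₁).coeff n, hfs n, ?_⟩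
      rw [Tw.coeff_sub, map_sub, ← Tw.coeff_map, ← Tw.coeff_map, hQ, sub_self]
  have hμι : μ' = ι (z * ((u⁻¹ : Rˣ) : R)) := by
    have h1 : ι z = μ' * ι (u : R) := by rw [← hz, hco, hu]
    rw [map_mul, h1, mul_assoc, ← map_mul, Units.mul_inv, map_one, mul_one]
  set μ : R := z * ((u⁻¹ : Rˣ) : R) with hμdef
  have hπμ : π μ = 0 := by rw [hμdef, map_mul, hπz, zero_mul]
  have hμ0 : μ ≠ 0 := by
    intro h0
    apply hμ'
    rw [hμι, h0, map_zero]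
  have hg' : g₂ - g₁ = μ * f₀.coeff 0 := by
    apply h.inj
    rw [← hf0, hco, hμι, ← map_mul]
  let y : Tw F R := ⟨f₀.poly.divX⟩
  have hyc : ∀ n, y.coeff n = f₀.coeff (n + 1) := by
    intro n
    show f₀.poly.divX.coeff n = f₀.poly.coeff (n + 1)
    rw [Polynomial.coeff_divX]
  have hQ' : Q₂ - Q₁ = Tw.C μ * y := by
    apply Tw.ext_coeff
    intro n
    apply h.inj
    rw [← hfs, hco, hμι, ← map_mul, Tw.coeff_C_mul, hyc]
  have hy0 : y.coeff 0 = 0 := by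
    have h1 : (Q₂ - Q₁).coeff 0 = μ * y.coeff 0 := by rw [hQ', Tw.coeff_C_mul]
    rw [Tw.coeff_sub, h0₁, h0₂, sub_self] at h1
    exact (mul_eq_zero.mp h1.symm).resolve_left hμ0
  clear_value y
  set x₁ : R := f₀.coeff 0 with hx₁
  set P : Tw F R := Pm t g₁ with hP
  set x : Tw F R := Tw.C x₁ * Tw.T with hx
  have hP₂ : (Pm t g₂ : Tw F R) = P + Tw.C μ * x := by
    have h1 : g₂ = g₁ + μ * x₁ := by rw [← hg']; ring
    rw [hP, hx, h1]
    unfold Pm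
    rw [map_add, map_mul, add_mul, ← mul_assoc]
    abel
  have hQ₂ : Q₂ = Q₁ + Tw.C μ * y := by rw [← hQ']; abel
  obtain ⟨P', hP'1, hP'2⟩ := g6_twist π μ hπμ P
  obtain ⟨Q', hQ'1, hQ'2⟩ := g6_twist π μ hπμ Q₁
  obtain ⟨x', hx'1, _⟩ := g6_twist π μ hπμ x
  obtain ⟨y', hy'1, _⟩ := g6_twist π μ hπμ y
  have key : Tw.C μ * (P' * y + x * Q₁ + Tw.C μ * (x' * y) - Q' * x - y * P -
      Tw.C μ * (y' * x)) = 0 := by
    have h1 : (P + Tw.C μ * x) * (Q₁ + Tw.C μ * y) = (Q₁ + Tw.C μ * y) * (P + Tw.C μ * x) := by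
      rw [← hP₂, ← hQ₂]; exact hc₂
    have e1 : P * (Tw.C μ * y) = Tw.C μ * (P' * y) := by
      rw [← mul_assoc, hP'1, mul_assoc]
    have e2 : Q₁ * (Tw.C μ * x) = Tw.C μ * (Q' * x) := by
      rw [← mul_assoc, hQ'1, mul_assoc]
    have e3 : Tw.C μ * x * (Tw.C μ * y) = Tw.C μ * (Tw.C μ * (x' * y)) := by
      rw [mul_assoc, ← mul_assoc x, hx'1, mul_assoc]
    have e4 : Tw.C μ * y * (Tw.C μ * x) = Tw.C μ * (Tw.C μ * (y' * x)) := by
      rw [mul_assoc, ← mul_assoc y, hy'1, mul_assoc]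
    have h2 : (P + Tw.C μ * x) * (Q₁ + Tw.C μ * y) =
        P * Q₁ + Tw.C μ * (P' * y) + Tw.C μ * (x * Q₁) + Tw.C μ * (Tw.C μ * (x' * y)) := by
      rw [add_mul, mul_add, mul_add, e1, e3, mul_assoc (Tw.C μ) x Q₁]
      abel
    have h3 : (Q₁ + Tw.C μ * y) * (P + Tw.C μ * x) =
        Q₁ * P + Tw.C μ * (Q' * x) + Tw.C μ * (y * P) + Tw.C μ * (Tw.C μ * (y' * x)) := by
      rw [add_mul, mul_add, mul_add, e2, e4, mul_assoc (Tw.C μ) y P]
      abel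
    rw [h2, h3, ← hc₁] at h1
    rw [mul_sub, mul_sub, mul_sub, mul_add, mul_add]
    have h4 := sub_eq_zero.mpr h1
    rw [← h4]
    abel
  have key2 := g6_C_cancel hμ0 key
  have key3 := congrArg (Tw.map π) key2
  simp only [map_sub, map_add, map_mul, map_zero, Tw.map_C, hπμ, zero_mul, add_zero,
    sub_zero, hP'2, hQ'2] at key3
  -- key3 : C (π t) ȳ + x̄ Q̄ - C (π γ) x̄ - ȳ P̄ = 0
  have hPt : P.coeff 0 = t := by rw [hP]; exact g6_coeff_Pm_zero t g₁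
  rw [hPt, h0₁, ht, hγ] at key3
  have hCc : (Tw.C (algebraMap F κ c) : Tw F κ) = algebraMap F (Tw F κ) c :=
    (Tw.algebraMap_apply c).symm
  have hCρ : (Tw.C (algebraMap F κ ρ) : Tw F κ) = algebraMap F (Tw F κ) ρ :=
    (Tw.algebraMap_apply ρ).symm
  rw [hCc, hCρ] at key3
  have key4 : Tw.map π x * (Tw.map π Q₁ - algebraMap F (Tw F κ) ρ) =
      Tw.map π y * (Tw.map π P - algebraMap F (Tw F κ) c) := by
    rw [mul_sub, mul_sub, ← Algebra.commutes ρ (Tw.map π x), ← Algebra.commutes c (Tw.map π y)]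
    rw [← sub_eq_zero, ← key3]
    abel
  obtain ⟨w, hw, hw1, hw2⟩ := hnd
  have hPbar : Tw.map π P = Pm (π t) (π g₁) := by rw [hP]; exact map_Pm π t g₁
  have hxbar : Tw.map π x = Tw.C (π x₁) * Tw.T := by rw [hx, map_mul, Tw.map_C, Tw.map_T]
  have hev : ∀ (a : F) (v : κ), Tw.ev (algebraMap F (Tw F κ) a) v = algebraMap F κ a * v := by
    intro a v
    rw [Tw.algebraMap_apply, Tw.ev_C]
  have hev1 : Tw.ev (Tw.map π y * (Tw.map π P - algebraMap F (Tw F κ) c)) w = 0 := by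
    rw [Tw.ev_mul, map_sub, LinearMap.sub_apply, hev, hPbar, hw1, sub_self, map_zero]
  have hev2 : Tw.ev (Tw.map π x * (Tw.map π Q₁ - algebraMap F (Tw F κ) ρ)) w =
      π x₁ * (Tw.ev (Tw.map π Q₁) w - algebraMap F κ ρ * w) ^ Fintype.card F := by
    rw [Tw.ev_mul, map_sub, LinearMap.sub_apply, hev, hxbar, Tw.ev_mul, Tw.ev_C, Tw.ev_T]
  have hx₁0 : π x₁ = 0 := by
    rw [key4, hev1] at hev2
    rcases mul_eq_zero.mp hev2.symm with h1 | h1
    · exact h1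
    · exact absurd (sub_eq_zero.mp (eq_zero_of_pow_eq_zero h1)) hw2
  have hybar : Tw.map π y = 0 := by
    have h1 : Tw.map π y * (Tw.map π P - algebraMap F (Tw F κ) c) = 0 := by
      rw [← key4, hxbar, hx₁0, map_zero, zero_mul, zero_mul]
    rcases mul_eq_zero.mp h1 with h2 | h2
    · exact h2
    · exfalso
      have h3 : (Tw.map π P - algebraMap F (Tw F κ) c).coeff 2 = 0 := by
        rw [h2]; exact Tw.coeff_zero' 2
      rw [Tw.coeff_sub, hPbar, g6_coeff_Pm_two, Tw.algebraMap_apply, Tw.coeff_C] at h3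
      norm_num at h3
  apply hf₀
  apply Tw.ext_coeff
  intro n
  rw [Tw.coeff_map, Tw.coeff_zero']
  cases n with
  | zero => exact hx₁0
  | succ n => rw [← hyc, ← Tw.coeff_map, hybar, Tw.coeff_zero']

end Pool.Agent.H9.Ram
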