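import Pool.Agent.H9.Ram.L0

/-!
# Module L1: leading coefficients with respect to `s`

`lm m A` has coefficients `coeff m (A_i)`. Since `s ^ m τ^i = …` and `τ^i s^m = s^(m q^i) τ^i` with `m q^i ≥ m + 1`
for `i, m ≥ 1` (`q ≥ 2`), for `A` with all coefficients divisible by `s ^ m`:
`lm m (B * A) = B_0(0) · lm m A`, `lm m (A * B) = lm m A * (B mod s)`. (Use `Tw.coeff_mul`; the Frobenius on
power series: `fr F i (s^m f) = s^(m q^i) fr F i f`.)
-/

open Polynomial

noncomputable section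

namespace Pool.Agent.H9.Ram

variable {F : Type*} {K : Type*} [Field F] [Fintype F] [Field K] [Algebra F K]

theorem cc_apply (f : PowerSeries K) : cc F f = PowerSeries.constantCoeff f := rfl
theorem cst_apply (a : K) : cst F a = PowerSeries.C a := rfl
theorem cc_cst (a : K) : cc F (cst F a) = a := by
  rw [cc_apply, cst_apply, PowerSeries.constantCoeff_C]
theorem map_cc_cst (y : Tw F K) : Tw.map (cc F) (Tw.map (cst F) y) = y := by
  apply Tw.ext_coeff; intro i
  rw [Tw.coeff_map, Tw.coeff_map, cc_cst]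

/-! ### Helper lemmas on power series -/

theorem l1_dvd_iff {m : ℕ} {f : PowerSeries K} :
    (∀ j, j < m → PowerSeries.coeff j f = 0) ↔ PowerSeries.X ^ m ∣ f :=
  PowerSeries.X_pow_dvd_iff.symm

theorem l1_coeff_mul {m : ℕ} {f : PowerSeries K} (hf : PowerSeries.X ^ m ∣ f) (g : PowerSeries K) :
    PowerSeries.coeff m (g * f) = PowerSeries.constantCoeff g * PowerSeries.coeff m f := by
  obtain ⟨h, rfl⟩ := hf
  have e : g * (PowerSeries.X ^ m * h) = PowerSeries.X ^ m * (g * h) := by ring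
  rw [e]
  have h1 := PowerSeries.coeff_X_pow_mul (g * h) m 0
  have h2 := PowerSeries.coeff_X_pow_mul h m 0
  rw [zero_add] at h1 h2
  rw [h1, h2, PowerSeries.coeff_zero_eq_constantCoeff_apply,
    PowerSeries.coeff_zero_eq_constantCoeff_apply, map_mul]

theorem l1_fr_dvd {m : ℕ} {i : ℕ} (hm : 1 ≤ m) (hi : 1 ≤ i) {f : PowerSeries K}
    (hf : PowerSeries.X ^ m ∣ f) : PowerSeries.X ^ (m + 1) ∣ fr F i f := by
  rw [fr_apply]
  have hq : 2 ≤ Fintype.card F := Fintype.one_lt_card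
  have hqi : 2 ≤ Fintype.card F ^ i := by
    calc 2 ≤ Fintype.card F := hq
      _ = Fintype.card F ^ 1 := (pow_one _).symm
      _ ≤ Fintype.card F ^ i := Nat.pow_le_pow_right (by omega) hi
  have h1 : (PowerSeries.X ^ m : PowerSeries K) ^ (Fintype.card F ^ i) ∣ f ^ (Fintype.card F ^ i) :=
    pow_dvd_pow_of_dvd hf _
  refine dvd_trans ?_ h1
  rw [← pow_mul]
  apply pow_dvd_pow
  calc m + 1 ≤ m * 2 := by omega
    _ ≤ m * Fintype.card F ^ i := Nat.mul_le_mul_left _ hqi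

theorem l1_fr_dvd' {m : ℕ} (i : ℕ) {f : PowerSeries K}
    (hf : PowerSeries.X ^ m ∣ f) : PowerSeries.X ^ m ∣ fr F i f := by
  rw [fr_apply]
  have hq : 0 < Fintype.card F ^ i := pow_pos Fintype.card_pos _
  exact dvd_trans hf (dvd_pow_self _ hq.ne')

theorem l1_cc_fr (i : ℕ) (f : PowerSeries K) : cc F (fr F i f) = fr F i (cc F f) := by
  rw [fr_apply, fr_apply, map_pow]

theorem l1_algebraMap (r : F) : algebraMap F (PowerSeries K) r = PowerSeries.C (algebraMap F K r) :=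
  PowerSeries.algebraMap_apply



theorem coeff_lm (m : ℕ) (A : Tw F (PowerSeries K)) (i : ℕ) :
    (lm m A).coeff i = PowerSeries.coeff m (A.coeff i) := by
  unfold lm
  rw [Tw.coeff_sum]
  have h : ∀ j, (Tw.C (PowerSeries.coeff m (A.coeff j)) * Tw.T ^ j : Tw F K).coeff i =
      if i = j then PowerSeries.coeff m (A.coeff j) else 0 := by
    intro j
    rw [Tw.coeff_C_mul, Tw.coeff_T_pow]
    split_ifs <;> simp
  rw [Finset.sum_congr rfl (fun j _ => h j), Finset.sum_ite_eq]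
  split_ifs with hi
  · rfl
  · rw [Finset.mem_range] at hi
    rw [Tw.coeff_eq_zero_of_natDegree_lt (by omega), map_zero]

theorem lm_zero_eq (A : Tw F (PowerSeries K)) : lm 0 A = Tw.map (cc F) A := by
  apply Tw.ext_coeff; intro i
  rw [coeff_lm, Tw.coeff_map, cc_apply, PowerSeries.coeff_zero_eq_constantCoeff_apply]
theorem lm_add (m : ℕ) (A B : Tw F (PowerSeries K)) : lm m (A + B) = lm m A + lm m B := by
  apply Tw.ext_coeff; intro i
  rw [coeff_lm, Tw.coeff_add, Tw.coeff_add, coeff_lm, coeff_lm, map_add]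
theorem lm_sub (m : ℕ) (A B : Tw F (PowerSeries K)) : lm m (A - B) = lm m A - lm m B := by
  apply Tw.ext_coeff; intro i
  rw [coeff_lm, Tw.coeff_sub, Tw.coeff_sub, coeff_lm, coeff_lm, map_sub]
theorem lm_smul (m : ℕ) (r : F) (A : Tw F (PowerSeries K)) :
    lm m (algebraMap F _ r * A) = algebraMap F _ r * lm m A := by
  apply Tw.ext_coeff; intro i
  rw [coeff_lm, Tw.algebraMap_apply, Tw.coeff_C_mul, Tw.algebraMap_apply, Tw.coeff_C_mul, coeff_lm,
    l1_algebraMap, PowerSeries.coeff_C_mul]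

theorem Dv_zero (A : Tw F (PowerSeries K)) : Dv 0 A := by
  intro i j hj
  exact absurd hj (Nat.not_lt_zero _)

theorem l1_Dv_iff {m : ℕ} {A : Tw F (PowerSeries K)} :
    Dv m A ↔ ∀ i, PowerSeries.X ^ m ∣ A.coeff i := by
  constructor
  · intro h i
    exact l1_dvd_iff.1 (fun j hj => h i j hj)
  · intro h i j hj
    exact l1_dvd_iff.2 (h i) j hj
theorem Dv_add {m : ℕ} {A B : Tw F (PowerSeries K)} (hA : Dv m A) (hB : Dv m B) : Dv m (A + B) := by
  intro i j hj
  rw [Tw.coeff_add, map_add, hA i j hj, hB i j hj, add_zero]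
theorem Dv_sub {m : ℕ} {A B : Tw F (PowerSeries K)} (hA : Dv m A) (hB : Dv m B) : Dv m (A - B) := by
  intro i j hj
  rw [Tw.coeff_sub, map_sub, hA i j hj, hB i j hj, sub_zero]
theorem Dv_mul_left {m : ℕ} {A : Tw F (PowerSeries K)} (hA : Dv m A) (B : Tw F (PowerSeries K)) :
    Dv m (B * A) := by
  rw [l1_Dv_iff] at hA ⊢
  intro n
  rw [Tw.coeff_mul]
  apply Finset.dvd_sum
  intro p _
  exact Dvd.dvd.mul_left (l1_fr_dvd' _ (hA p.2)) _
theorem Dv_mul_right {m : ℕ} {A : Tw F (PowerSeries K)} (hA : Dv m A) (B : Tw F (PowerSeries K)) :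
    Dv m (A * B) := by
  rw [l1_Dv_iff] at hA ⊢
  intro n
  rw [Tw.coeff_mul]
  apply Finset.dvd_sum
  intro p _
  exact Dvd.dvd.mul_right (hA p.1) _
theorem Dv_succ_iff {m : ℕ} {A : Tw F (PowerSeries K)} : Dv (m + 1) A ↔ Dv m A ∧ lm m A = 0 := by
  constructor
  · intro h
    refine ⟨fun i j hj => h i j (by omega), ?_⟩
    apply Tw.ext_coeff; intro i
    rw [coeff_lm, Tw.coeff_zero']
    exact h i m (by omega)
  · rintro ⟨h1, h2⟩ i j hj
    rcases Nat.lt_succ_iff_lt_or_eq.1 hj with h | h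
    · exact h1 i j h
    · subst h
      rw [← coeff_lm, h2, Tw.coeff_zero']
theorem Dv_mono {m m' : ℕ} (h : m ≤ m') {A : Tw F (PowerSeries K)} (hA : Dv m' A) : Dv m A := by
  intro i j hj
  exact hA i j (by omega)
theorem Dv_one_iff {A : Tw F (PowerSeries K)} : Dv 1 A ↔ Tw.map (cc F) A = 0 := by
  have h := Dv_succ_iff (m := 0) (A := A)
  rw [zero_add] at h
  rw [h, lm_zero_eq]
  exact ⟨fun h => h.2, fun h => ⟨Dv_zero A, h⟩⟩
theorem eq_zero_of_Dv {A : Tw F (PowerSeries K)} (h : ∀ m, Dv m A) : A = 0 := by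
  apply Tw.ext_coeff; intro i
  rw [Tw.coeff_zero']
  ext n
  rw [map_zero]
  exact h (n + 1) i n (by omega)

theorem lm_mul_left {m : ℕ} (hm : 1 ≤ m) {A : Tw F (PowerSeries K)} (hA : Dv m A)
    (B : Tw F (PowerSeries K)) : lm m (B * A) = Tw.C (cc F (B.coeff 0)) * lm m A := by
  rw [l1_Dv_iff] at hA
  apply Tw.ext_coeff; intro n
  rw [coeff_lm, Tw.coeff_C_mul, coeff_lm, Tw.coeff_mul, map_sum, Finset.sum_eq_single (0, n)]
  · rw [fr_zero]
    exact l1_coeff_mul (hA n) _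
  · rintro ⟨a, b⟩ hab hne
    simp only [Finset.HasAntidiagonal.mem_antidiagonal] at hab
    have ha : 1 ≤ a := by
      rcases Nat.eq_zero_or_pos a with h | h
      · exfalso; apply hne
        subst h
        rw [zero_add] at hab
        rw [hab]
      · exact h
    have h1 : PowerSeries.X ^ (m + 1) ∣ B.coeff a * fr F a (A.coeff b) :=
      Dvd.dvd.mul_left (l1_fr_dvd hm ha (hA b)) _
    exact l1_dvd_iff.2 h1 m (Nat.lt_succ_self m)
  · intro h
    exact absurd (Finset.HasAntidiagonal.mem_antidiagonal.2 (zero_add n)) h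

theorem lm_mul_right {m : ℕ} (hm : 1 ≤ m) {A : Tw F (PowerSeries K)} (hA : Dv m A)
    (B : Tw F (PowerSeries K)) : lm m (A * B) = lm m A * Tw.map (cc F) B := by
  rw [l1_Dv_iff] at hA
  apply Tw.ext_coeff; intro n
  rw [coeff_lm, Tw.coeff_mul, Tw.coeff_mul, map_sum]
  apply Finset.sum_congr rfl
  intro p _
  rw [mul_comm (A.coeff p.1), l1_coeff_mul (hA p.1), coeff_lm, Tw.coeff_map, ← l1_cc_fr, cc_apply,
    mul_comm]

theorem l1_emb_coeff (m : ℕ) (y : Tw F K) (i : ℕ) :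
    (emb m y).coeff i = PowerSeries.X ^ m * PowerSeries.C (y.coeff i) := by
  unfold emb
  rw [Tw.coeff_C_mul, Tw.coeff_map, cst_apply]

theorem Dv_emb (m : ℕ) (y : Tw F K) : Dv m (emb m y) := by
  rw [l1_Dv_iff]
  intro i
  rw [l1_emb_coeff]
  exact Dvd.intro _ rfl
theorem lm_emb (m : ℕ) (y : Tw F K) : lm m (emb m y) = y := by
  apply Tw.ext_coeff; intro i
  rw [coeff_lm, l1_emb_coeff]
  have h := PowerSeries.coeff_X_pow_mul (PowerSeries.C (y.coeff i)) m 0
  rw [zero_add] at h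
  rw [h, PowerSeries.coeff_zero_eq_constantCoeff_apply, PowerSeries.constantCoeff_C]
theorem emb_coeff (m : ℕ) (y : Tw F K) (i : ℕ) :
    (emb m y).coeff i = PowerSeries.X ^ m * PowerSeries.C (y.coeff i) := l1_emb_coeff m y i
theorem map_cc_emb {m : ℕ} (hm : 1 ≤ m) (y : Tw F K) : Tw.map (cc F) (emb m y) = 0 :=
  Dv_one_iff.1 (Dv_mono hm (Dv_emb m y))

/-! ### The common induction for the two linearization lemmas -/

theorem l1_Dv_zero' (m : ℕ) : Dv m (0 : Tw F (PowerSeries K)) := by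
  intro i j _
  rw [Tw.coeff_zero', map_zero]

theorem l1_lm_zero' (m : ℕ) : lm m (0 : Tw F (PowerSeries K)) = 0 := by
  apply Tw.ext_coeff; intro i
  rw [coeff_lm, Tw.coeff_zero', Tw.coeff_zero', map_zero]

theorem l1_coeff_zero_aeval (b : F[X]) :
    (aeval (Tw.T ^ 2 : Tw F K) b).coeff 0 = algebraMap F K (b.coeff 0) := by
  have h : aeval (Tw.T ^ 2 : Tw F K) b = aeval (Tw.T ^ 2 : Tw F K) b.divX * Tw.T ^ 2 +
      algebraMap F (Tw F K) (b.coeff 0) := by
    conv_lhs => rw [← Polynomial.divX_mul_X_add b]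
    rw [map_add, map_mul, aeval_X, aeval_C]
  rw [h, Tw.coeff_add, Tw.coeff_mul_T_pow, if_neg (by omega), zero_add, Tw.algebraMap_apply,
    Tw.coeff_C_zero]

theorem l1_map_aeval {P : Tw F (PowerSeries K)} (hcc : Tw.map (cc F) P = Tw.T ^ 2) (b : F[X]) :
    Tw.map (cc F) (aeval P b) = aeval (Tw.T ^ 2 : Tw F K) b := by
  rw [← hcc, Polynomial.aeval_algHom_apply]

theorem l1_induct {m : ℕ} (hm : 1 ≤ m) (P P' E : Tw F (PowerSeries K)) (hE : Dv m E)
    (hcc : Tw.map (cc F) P = Tw.T ^ 2) (hcc' : Tw.map (cc F) P' = Tw.T ^ 2)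
    (D : F[X] → Tw F (PowerSeries K)) (hD0 : ∀ r : F, D (Polynomial.C r) = 0)
    (hD1 : ∀ (b : F[X]) (r : F), D (b * X + Polynomial.C r) = D b * P' + aeval P b * E)
    (N : ℕ) : ∀ a : F[X], a.natDegree ≤ N →
      Dv m (D a) ∧ lm m (D a) = lm m E * aeval (Tw.T ^ 2 : Tw F K) a.divX := by
  induction N with
  | zero =>
    intro a ha
    have h1 : a = Polynomial.C (a.coeff 0) := Polynomial.eq_C_of_natDegree_le_zero ha
    rw [h1, hD0, Polynomial.divX_C, map_zero, mul_zero]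
    exact ⟨l1_Dv_zero' m, l1_lm_zero' m⟩
  | succ N ih =>
    intro a ha
    have hb : a.divX.natDegree ≤ N := by
      rw [Polynomial.natDegree_divX_eq_natDegree_tsub_one]
      omega
    obtain ⟨h1, h2⟩ := ih a.divX hb
    have h3 : D a = D a.divX * P' + aeval P a.divX * E := by
      conv_lhs => rw [← Polynomial.divX_mul_X_add a]
      exact hD1 _ _
    have h4 : Dv m (D a.divX * P') := Dv_mul_right h1 _
    have h5 : Dv m (aeval P a.divX * E) := Dv_mul_left hE _
    refine ⟨by rw [h3]; exact Dv_add h4 h5, ?_⟩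
    rw [h3, lm_add, lm_mul_right hm h1, lm_mul_left hm hE, h2, hcc']
    have h6 : cc F ((aeval P a.divX).coeff 0) = algebraMap F K (a.divX.coeff 0) := by
      rw [← Tw.coeff_map, l1_map_aeval hcc, l1_coeff_zero_aeval]
    rw [h6, ← Tw.algebraMap_apply, Algebra.commutes, mul_assoc, ← mul_add]
    congr 1
    conv_rhs => rw [← Polynomial.divX_mul_X_add a.divX]
    rw [map_add, map_mul, aeval_X, aeval_C]

/-- Linearization of `a(P)` in `P`. -/
theorem lm_aeval_sub {m : ℕ} (hm : 1 ≤ m) (P P' : Tw F (PowerSeries K)) (hD : Dv m (P' - P))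
    (hcc : Tw.map (cc F) P = Tw.T ^ 2) (a : F[X]) :
    Dv m (aeval P' a - aeval P a) ∧
      lm m (aeval P' a - aeval P a) = lm m (P' - P) * aeval (Tw.T ^ 2 : Tw F K) a.divX := by
  have hcc' : Tw.map (cc F) P' = Tw.T ^ 2 := by
    have h := Dv_one_iff.1 (Dv_mono hm hD)
    rw [map_sub, sub_eq_zero] at h
    rw [h, hcc]
  refine l1_induct hm P P' (P' - P) hD hcc hcc' (fun a => aeval P' a - aeval P a) ?_ ?_
    a.natDegree a le_rfl
  · intro r
    simp only [aeval_C, sub_self]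
  · intro b r
    simp only [map_add, map_mul, aeval_X, aeval_C]
    noncomm_ring

/-- Linearization of the commutator with `a(P)`. -/
theorem lm_aeval_comm {m : ℕ} (hm : 1 ≤ m) (P Q : Tw F (PowerSeries K)) (hD : Dv m (P * Q - Q * P))
    (hcc : Tw.map (cc F) P = Tw.T ^ 2) (a : F[X]) :
    Dv m (aeval P a * Q - Q * aeval P a) ∧
      lm m (aeval P a * Q - Q * aeval P a) =
        lm m (P * Q - Q * P) * aeval (Tw.T ^ 2 : Tw F K) a.divX := by
  refine l1_induct hm P P (P * Q - Q * P) hD hcc hcc (fun a => aeval P a * Q - Q * aeval P a) ?_ ?_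
    a.natDegree a le_rfl
  · intro r
    simp only [aeval_C]
    rw [Algebra.commutes, sub_self]
  · intro b r
    simp only [map_add, map_mul, aeval_X, aeval_C]
    rw [add_mul, mul_add, Algebra.commutes r Q]
    noncomm_ring

end Pool.Agent.H9.Ram
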