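import Pool.Agent.H9.Ram.G1
import Pool.Agent.H9.Ram.L1

/-!
# Module G7: reduction of torsion points is bijective

(a) valuation ring: `A ∈ R{τ}`, `N = natDegree A`, `π A_0 ≠ 0`, `π A_N ≠ 0`. A root `z ∈ Ω` of `∑ A_i z^(q^i) = 0` is
integral (divide by the unit `A_N`; `VR.integral`), so `z = ι r`, and `π r` is a root of the reduction; `z ↦ π r` is
`F`-linear; injective: if `π r = 0`, `r ≠ 0` then `0 = r (A_0 + A_1 r^(q-1) + …)` and the bracket has nonzero residue;
both kernels have dimension `N` over `F` (`Tw.finrank_ker`), so it is bijective.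
(b) the same for `W = K⟦s⟧`, any injective `ιW : K⟦s⟧ → Ω` and `π = cc`: for a root `y ∈ K` of the reduction there is a
unique root `w ∈ K⟦s⟧` with constant term `y` (Hensel for `Tw.addPoly A`, derivative `A_0` a unit; or solve for the
coefficients recursively); this gives an injective linear map from the kernel over `K` (dimension `N`) to the kernel over
`Ω` (dimension `N`), so a bijection; take the inverse.
-/

open Polynomial

noncomputable section

namespace Pool.Agent.H9.Ram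

variable {F R Ω κ : Type*} [Field F] [Fintype F] [CommRing R] [IsDomain R] [Field Ω] [Field κ]
  [Algebra F R] [Algebra F Ω] [Algebra F κ] {ι : R →ₐ[F] Ω} {π : R →ₐ[F] κ}

theorem g7_inj {R κ : Type*} [CommRing R] [IsDomain R] [Field κ] [Algebra F R] [Algebra F κ]
    (π : R →ₐ[F] κ) (A : Tw F R) (h0 : π (A.coeff 0) ≠ 0) {r : R} (hr : Tw.ev A r = 0)
    (hπ : π r = 0) : r = 0 := by
  by_contra hne
  rw [Tw.ev_eq_sum (Nat.lt_succ_self A.natDegree)] at hr
  have hq : ∀ i : ℕ, 1 ≤ Fintype.card F ^ i := fun i => Nat.one_le_pow _ _ Fintype.card_pos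
  have h1 : r * ∑ i ∈ Finset.range (A.natDegree + 1),
      A.coeff i * r ^ (Fintype.card F ^ i - 1) = 0 := by
    rw [← hr, Finset.mul_sum]
    refine Finset.sum_congr rfl fun i _ => ?_
    have h2 : r ^ (Fintype.card F ^ i) = r ^ (Fintype.card F ^ i - 1) * r := by
      rw [← pow_succ, Nat.sub_add_cancel (hq i)]
    rw [h2]; ring
  have h3 := (mul_eq_zero.1 h1).resolve_left hne
  have h4 := congrArg π h3
  rw [map_sum, map_zero, Finset.sum_range_succ', Finset.sum_eq_zero] at h4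
  · apply h0
    simpa using h4
  · intro i _
    rw [map_mul, map_pow, hπ, zero_pow, mul_zero]
    have h5 : 1 < Fintype.card F ^ (i + 1) := Nat.one_lt_pow (Nat.succ_ne_zero i)
      Fintype.one_lt_card
    omega

theorem g7_natDegree {R κ : Type*} [CommRing R] [CommRing κ] [Algebra F R] [Algebra F κ]
    (φ : R →ₐ[F] κ) (A : Tw F R) (hN : φ (A.coeff A.natDegree) ≠ 0) :
    (Tw.map φ A).natDegree = A.natDegree := by
  apply le_antisymm
  · rw [Tw.natDegree_le_iff]
    intro n hn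
    rw [Tw.coeff_map, Tw.coeff_eq_zero_of_natDegree_lt hn, map_zero]
  · apply Tw.le_natDegree_of_coeff_ne_zero
    rw [Tw.coeff_map]
    exact hN

theorem g7_ne_zero {R κ : Type*} [CommRing R] [CommRing κ] [Algebra F R] [Algebra F κ]
    (φ : R →ₐ[F] κ) (A : Tw F R) (h0 : φ (A.coeff 0) ≠ 0) : Tw.map φ A ≠ 0 := by
  intro h
  apply h0
  rw [← Tw.coeff_map, h, Tw.coeff_zero']

/-- The map induced on kernels. -/
def g7Map {R κ : Type*} [CommRing R] [CommRing κ] [Algebra F R] [Algebra F κ]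
    (φ : R →ₐ[F] κ) (A : Tw F R) :
    LinearMap.ker (Tw.ev A) →ₗ[F] LinearMap.ker (Tw.ev (Tw.map φ A)) :=
  LinearMap.restrict φ.toLinearMap (p := LinearMap.ker (Tw.ev A))
    (q := LinearMap.ker (Tw.ev (Tw.map φ A))) (by
      intro x hx
      rw [LinearMap.mem_ker] at hx ⊢
      show Tw.ev (Tw.map φ A) (φ x) = 0
      rw [Tw.ev_map, hx, map_zero])

theorem g7Map_apply {R κ : Type*} [CommRing R] [CommRing κ] [Algebra F R] [Algebra F κ]
    (φ : R →ₐ[F] κ) (A : Tw F R) (x : LinearMap.ker (Tw.ev A)) : (g7Map φ A x).1 = φ x.1 := rfl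

theorem g7Map_injective {R κ : Type*} [CommRing R] [CommRing κ] [Algebra F R] [Algebra F κ]
    (φ : R →ₐ[F] κ) (A : Tw F R) (h : ∀ r, Tw.ev A r = 0 → φ r = 0 → r = 0) :
    Function.Injective (g7Map φ A) := by
  rw [injective_iff_map_eq_zero]
  intro x hx
  apply Subtype.ext
  exact h x.1 x.2 (congrArg Subtype.val hx)

theorem g7_equiv {M N : Type*} [AddCommGroup M] [AddCommGroup N] [Module F M] [Module F N]
    (f : M →ₗ[F] N) (hf : Function.Bijective f) : ∃ e : M ≃ₗ[F] N, ∀ x, e x = f x :=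
  ⟨LinearEquiv.ofBijective f hf, fun _ => rfl⟩

theorem g7_finite {κ : Type*} [Field κ] [Algebra F κ] {A : Tw F κ} (hA : A ≠ 0) :
    Module.Finite F (LinearMap.ker (Tw.ev A)) := by
  have : Finite (LinearMap.ker (Tw.ev A)) := (Tw.finite_ker hA).to_subtype
  exact Module.Finite.of_finite

/-- The normalised additive polynomial. -/
theorem g7_monic {R : Type*} [CommRing R] [Nontrivial R] [Algebra F R] (A : Tw F R) (u : R)
    (hu : u * A.coeff A.natDegree = 1) : (Polynomial.C u * Tw.addPoly A).Monic := by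
  apply Polynomial.monic_C_mul_of_mul_leadingCoeff_eq_one
  rw [Tw.leadingCoeff_addPoly]
  · exact hu
  · rintro rfl
    rw [Tw.coeff_zero', mul_zero] at hu
    exact zero_ne_one hu

theorem VR.exists_tors_equiv [IsAlgClosed Ω] [IsAlgClosed κ] (h : VR ι π) (A : Tw F R)
    (h0 : π (A.coeff 0) ≠ 0) (hN : π (A.coeff A.natDegree) ≠ 0) :
    ∃ e : LinearMap.ker (Tw.ev (Tw.map ι A)) ≃ₗ[F] LinearMap.ker (Tw.ev (Tw.map π A)),
      ∀ z, ∃ r : R, Tw.ev A r = 0 ∧ ι r = z.1 ∧ π r = (e z).1 := by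
  have hι0 : ι (A.coeff 0) ≠ 0 := by
    intro h1
    rw [← map_zero ι] at h1
    rw [h.inj h1, map_zero] at h0
    exact h0 rfl
  have hιN : ι (A.coeff A.natDegree) ≠ 0 := by
    intro h1
    rw [← map_zero ι] at h1
    rw [h.inj h1, map_zero] at hN
    exact hN rfl
  have hinj1 : Function.Injective (g7Map ι A) := by
    apply g7Map_injective
    intro r _ hr
    rw [← map_zero ι] at hr
    exact h.inj hr
  have hsurj1 : Function.Surjective (g7Map ι A) := by
    intro z
    obtain ⟨u, hu⟩ := (h.unit _ hN).exists_left_inv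
    have hz : (Polynomial.C u * Tw.addPoly A).eval₂ (ι : R →+* Ω) z.1 = 0 := by
      rw [Polynomial.eval₂_mul, Tw.aeval_addPoly]
      rw [show Tw.ev (Tw.map ι A) z.1 = 0 from z.2, mul_zero]
    obtain ⟨r, hr⟩ := h.integral _ (g7_monic A u hu) z.1 hz
    refine ⟨⟨r, ?_⟩, Subtype.ext hr⟩
    rw [LinearMap.mem_ker]
    apply h.inj
    rw [← Tw.ev_map, hr, map_zero]
    exact z.2
  have hinj2 : Function.Injective (g7Map π A) :=
    g7Map_injective _ _ fun r hr hr' => g7_inj π A h0 hr hr'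
  obtain ⟨e1, he1⟩ : ∃ e1 : LinearMap.ker (Tw.ev A) ≃ₗ[F] LinearMap.ker (Tw.ev (Tw.map ι A)),
      ∀ x, e1 x = g7Map ι A x :=
    ⟨LinearEquiv.ofBijective (g7Map ι A) ⟨hinj1, hsurj1⟩, fun x => rfl⟩
  have hf1 : Module.Finite F (LinearMap.ker (Tw.ev (Tw.map ι A))) :=
    g7_finite (g7_ne_zero ι A hι0)
  have hf2 : Module.Finite F (LinearMap.ker (Tw.ev (Tw.map π A))) :=
    g7_finite (g7_ne_zero π A h0)
  have hfR : Module.Finite F (LinearMap.ker (Tw.ev A)) := Module.Finite.equiv e1.symm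
  have hrank : Module.finrank F (LinearMap.ker (Tw.ev A)) =
      Module.finrank F (LinearMap.ker (Tw.ev (Tw.map π A))) := by
    rw [e1.finrank_eq, Tw.finrank_ker (by rw [Tw.coeff_map]; exact hι0),
      Tw.finrank_ker (by rw [Tw.coeff_map]; exact h0), g7_natDegree ι A hιN, g7_natDegree π A hN]
  have hsurj2 : Function.Surjective (g7Map π A) :=
    (LinearMap.injective_iff_surjective_of_finrank_eq_finrank hrank).1 hinj2
  refine ⟨e1.symm.trans (LinearEquiv.ofBijective (g7Map π A) ⟨hinj2, hsurj2⟩), fun z => ?_⟩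
  refine ⟨(e1.symm z).1, (e1.symm z).2, ?_, rfl⟩
  have h1 := he1 (e1.symm z)
  rw [LinearEquiv.apply_symm_apply] at h1
  exact (congrArg Subtype.val h1).symm

theorem g7_hensel {K : Type*} [Field K] [Algebra F K] (A : Tw F (PowerSeries K))
    (h0 : cc F (A.coeff 0) ≠ 0) (hN : cc F (A.coeff A.natDegree) ≠ 0) (y : K)
    (hy : Tw.ev (Tw.map (cc F) A) y = 0) : ∃ w : PowerSeries K, Tw.ev A w = 0 ∧ cc F w = y := by
  have hunit : ∀ f : PowerSeries K, cc F f ≠ 0 → IsUnit f := by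
    intro f hf
    rw [PowerSeries.isUnit_iff_constantCoeff]
    exact isUnit_iff_ne_zero.2 hf
  obtain ⟨u, hu⟩ := (hunit _ hN).exists_left_inv
  have hu0 : IsUnit u := IsUnit.of_mul_eq_one _ hu
  have hmem : ∀ f : PowerSeries K, cc F f = 0 → f ∈ Ideal.span {(PowerSeries.X : PowerSeries K)} := by
    intro f hf
    rw [Ideal.mem_span_singleton, PowerSeries.X_dvd_iff]
    exact hf
  have heval : ∀ w : PowerSeries K, (Polynomial.C u * Tw.addPoly A).eval w = u * Tw.ev A w := by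
    intro w
    rw [Polynomial.eval_mul, Polynomial.eval_C, Tw.eval_addPoly]
  obtain ⟨w, hw1, hw2⟩ := HenselianRing.is_henselian
    (I := Ideal.span {(PowerSeries.X : PowerSeries K)}) (Polynomial.C u * Tw.addPoly A)
    (g7_monic A u hu) (PowerSeries.C y) (by
      apply hmem
      rw [heval, map_mul, ← Tw.ev_map, ← cst_apply (F := F), cc_cst, hy, mul_zero]) (by
      apply IsUnit.map
      rw [Polynomial.derivative_C_mul, Tw.derivative_addPoly, Polynomial.eval_mul,
        Polynomial.eval_C, Polynomial.eval_C]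
      exact hu0.mul (hunit _ h0))
  refine ⟨w, ?_, ?_⟩
  · have h1 : u * Tw.ev A w = 0 := by rw [← heval]; exact hw1
    exact (hu0.mul_right_eq_zero).1 h1
  · rw [Ideal.mem_span_singleton, PowerSeries.X_dvd_iff, map_sub, sub_eq_zero] at hw2
    rw [cc_apply, hw2, PowerSeries.constantCoeff_C]

theorem g7_general {W Ω κ : Type*} [CommRing W] [IsDomain W] [Field Ω] [Field κ] [Algebra F W]
    [Algebra F Ω] [Algebra F κ] [IsAlgClosed Ω] [IsAlgClosed κ]
    (φ : W →ₐ[F] Ω) (hφ : Function.Injective φ) (π : W →ₐ[F] κ) (A : Tw F W)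
    (h0 : π (A.coeff 0) ≠ 0) (hN : π (A.coeff A.natDegree) ≠ 0)
    (hlift : ∀ y, Tw.ev (Tw.map π A) y = 0 → ∃ w : W, Tw.ev A w = 0 ∧ π w = y) :
    ∃ e : LinearMap.ker (Tw.ev (Tw.map φ A)) ≃ₗ[F] LinearMap.ker (Tw.ev (Tw.map π A)),
      ∀ z, ∃ w : W, Tw.ev A w = 0 ∧ φ w = z.1 ∧ π w = (e z).1 := by
  have hι0 : φ (A.coeff 0) ≠ 0 := by
    intro h1
    rw [← map_zero φ] at h1
    rw [hφ h1, map_zero] at h0
    exact h0 rfl
  have hιN : φ (A.coeff A.natDegree) ≠ 0 := by
    intro h1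
    rw [← map_zero φ] at h1
    rw [hφ h1, map_zero] at hN
    exact hN rfl
  have hinj1 : Function.Injective (g7Map φ A) := by
    apply g7Map_injective
    intro r _ hr
    rw [← map_zero φ] at hr
    exact hφ hr
  have hinj2 : Function.Injective (g7Map π A) :=
    g7Map_injective _ _ fun r hr hr' => g7_inj π A h0 hr hr'
  have hsurj2 : Function.Surjective (g7Map π A) := by
    intro y
    obtain ⟨w, hw1, hw2⟩ := hlift y.1 y.2
    exact ⟨⟨w, hw1⟩, Subtype.ext hw2⟩
  obtain ⟨e2, he2⟩ := g7_equiv (g7Map π A) ⟨hinj2, hsurj2⟩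
  have hf1 : Module.Finite F (LinearMap.ker (Tw.ev (Tw.map φ A))) :=
    g7_finite (g7_ne_zero φ A hι0)
  have hf2 : Module.Finite F (LinearMap.ker (Tw.ev (Tw.map π A))) :=
    g7_finite (g7_ne_zero π A h0)
  have hfR : Module.Finite F (LinearMap.ker (Tw.ev A)) := Module.Finite.equiv e2.symm
  have hrank : Module.finrank F (LinearMap.ker (Tw.ev A)) =
      Module.finrank F (LinearMap.ker (Tw.ev (Tw.map φ A))) := by
    rw [e2.finrank_eq, Tw.finrank_ker (by rw [Tw.coeff_map]; exact h0),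
      Tw.finrank_ker (by rw [Tw.coeff_map]; exact hι0), g7_natDegree φ A hιN,
      g7_natDegree π A hN]
  have hsurj1 : Function.Surjective (g7Map φ A) :=
    (LinearMap.injective_iff_surjective_of_finrank_eq_finrank hrank).1 hinj1
  obtain ⟨e1, he1⟩ := g7_equiv (g7Map φ A) ⟨hinj1, hsurj1⟩
  refine ⟨e1.symm.trans e2, fun z => ?_⟩
  refine ⟨(e1.symm z).1, (e1.symm z).2, ?_, ?_⟩
  · have h1 := he1 (e1.symm z)
    rw [LinearEquiv.apply_symm_apply] at h1
    exact (congrArg Subtype.val h1).symm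
  · have h1 := he2 (e1.symm z)
    rw [LinearEquiv.trans_apply]
    exact (congrArg Subtype.val h1).symm

theorem exists_tors_equiv_W {K : Type*} [Field K] [Algebra F K] [IsAlgClosed K] [IsAlgClosed Ω]
    (ιW : PowerSeries K →ₐ[F] Ω) (hι : Function.Injective ιW) (A : Tw F (PowerSeries K))
    (h0 : cc F (A.coeff 0) ≠ 0) (hN : cc F (A.coeff A.natDegree) ≠ 0) :
    ∃ e : LinearMap.ker (Tw.ev (Tw.map ιW A)) ≃ₗ[F] LinearMap.ker (Tw.ev (Tw.map (cc F) A)),
      ∀ z, ∃ w : PowerSeries K, Tw.ev A w = 0 ∧ ιW w = z.1 ∧ cc F w = (e z).1 :=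
  g7_general ιW hι (cc F) A h0 hN (g7_hensel A h0 hN)

end Pool.Agent.H9.Ram
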