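import Pool.Agent.H9.Ram.G7

/-!
# Module G8: properties of `spec`

Data: `A ∈ K⟦s⟧{τ}`, `AR ∈ R{τ}` with the same image in `Ω{τ}`, both with unit constant and leading coefficients after
reduction. By G7 there are equivalences `e_W : ker_Ω A ≃ ker_K`, `e_R : ker_Ω A ≃ ker_κ`; let `E = e_R ∘ e_W⁻¹ : ker_K ≃ ker_κ`.
For `L ≤ ker_K`: `spec L = {E y | y ∈ L}`: indeed `w ∈ K⟦s⟧` with `A w = 0`, `cc w ∈ L`, `ιW w = ι r`; then `z = ιW w ∈ ker_Ω`,
`e_W z = cc w` and `e_R z = π r` (uniqueness of `w`, `r` by injectivity of `ιW`, `ι`).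
If `BW`, `BR` have the same image `B` in `Ω{τ}` and `BW` commutes with `A`, then `E (B_K y) = B_κ (E y)`.
-/

open Polynomial

noncomputable section

namespace Pool.Agent.H9.Ram

variable {F K R Ω κ : Type*} [Field F] [Fintype F] [Field K] [Algebra F K] [CommRing R]
  [IsDomain R] [Field Ω] [Field κ] [Algebra F R] [Algebra F Ω] [Algebra F κ]
  {ιW : PowerSeries K →ₐ[F] Ω} {ι : R →ₐ[F] Ω} {π : R →ₐ[F] κ}

/-- The hypotheses on the pair `A`, `AR`. -/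
structure SpecOK (ιW : PowerSeries K →ₐ[F] Ω) (ι : R →ₐ[F] Ω) (π : R →ₐ[F] κ)
    (A : Tw F (PowerSeries K)) (AR : Tw F R) : Prop where
  eq : Tw.map ιW A = Tw.map ι AR
  h0 : cc F (A.coeff 0) ≠ 0
  hN : cc F (A.coeff A.natDegree) ≠ 0
  h0' : π (AR.coeff 0) ≠ 0
  hN' : π (AR.coeff AR.natDegree) ≠ 0

theorem g8_mem_spec {A : Tw F (PowerSeries K)} {L : Submodule F K} {x : κ} :
    x ∈ spec ιW ι π A L ↔ ∃ (w : PowerSeries K) (r : R), cc F w ∈ L ∧ Tw.ev A w = 0 ∧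
      ιW w = ι r ∧ π r = x := by
  unfold spec
  constructor
  · intro hx
    obtain ⟨r, hr, hrx⟩ := Submodule.mem_map.1 hx
    obtain ⟨w, hw, hwr⟩ := Submodule.mem_map.1 (Submodule.mem_comap.1 hr)
    obtain ⟨hw1, hw2⟩ := Submodule.mem_inf.1 hw
    exact ⟨w, r, Submodule.mem_comap.1 hw1, LinearMap.mem_ker.1 hw2, hwr, hrx⟩
  · rintro ⟨w, r, h1, h2, h3, h4⟩
    refine Submodule.mem_map.2 ⟨r, Submodule.mem_comap.2 (Submodule.mem_map.2 ⟨w, ?_, h3⟩), h4⟩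
    exact Submodule.mem_inf.2 ⟨Submodule.mem_comap.2 h1, LinearMap.mem_ker.2 h2⟩

/-- The equivalence with its two characteristic properties. -/
theorem g8_exists_equiv [IsAlgClosed K] [IsAlgClosed Ω] [IsAlgClosed κ]
    (hι : Function.Injective ιW) (h : VR ι π) {A : Tw F (PowerSeries K)} {AR : Tw F R}
    (hA : SpecOK ιW ι π A AR) :
    ∃ E : LinearMap.ker (Tw.ev (Tw.map (cc F) A)) ≃ₗ[F] LinearMap.ker (Tw.ev (Tw.map π AR)),
      (∀ y, ∃ (w : PowerSeries K) (r : R), Tw.ev A w = 0 ∧ Tw.ev AR r = 0 ∧ ιW w = ι r ∧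
        cc F w = y.1 ∧ π r = (E y).1) ∧
      (∀ y, ∀ (w : PowerSeries K) (r : R), Tw.ev A w = 0 → ιW w = ι r →
        cc F w = y.1 → π r = (E y).1) := by
  have hW := exists_tors_equiv_W ιW hι A hA.h0 hA.hN
  rw [hA.eq] at hW
  obtain ⟨eW, heW⟩ := hW
  obtain ⟨eR, heR⟩ := h.exists_tors_equiv AR hA.h0' hA.hN'
  refine ⟨eW.symm.trans eR, ?_, ?_⟩
  · intro y
    obtain ⟨w, hw1, hw2, hw3⟩ := heW (eW.symm y)
    obtain ⟨r, hr1, hr2, hr3⟩ := heR (eW.symm y)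
    refine ⟨w, r, hw1, hr1, hw2.trans hr2.symm, ?_, hr3⟩
    rw [hw3, LinearEquiv.apply_symm_apply]
  · intro y w r hw hwr hy
    have hz : ιW w ∈ LinearMap.ker (Tw.ev (Tw.map ι AR)) := by
      rw [LinearMap.mem_ker, ← hA.eq, Tw.ev_map, hw, map_zero]
    obtain ⟨w', hw1, hw2, hw3⟩ := heW ⟨ιW w, hz⟩
    obtain ⟨r', hr1, hr2, hr3⟩ := heR ⟨ιW w, hz⟩
    have e1 : w' = w := hι hw2
    have e2 : r' = r := h.inj (hr2.trans hwr)
    subst e1 e2
    have e3 : eW.symm y = ⟨ιW w', hz⟩ := by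
      rw [LinearEquiv.symm_apply_eq]
      apply Subtype.ext
      rw [← hy, hw3]
    show π r' = (eR (eW.symm y)).1
    rw [e3, hr3]

theorem g8_mem_of_equiv {A : Tw F (PowerSeries K)} {AR : Tw F R}
    {E : LinearMap.ker (Tw.ev (Tw.map (cc F) A)) ≃ₗ[F] LinearMap.ker (Tw.ev (Tw.map π AR))}
    (hE1 : ∀ y, ∃ (w : PowerSeries K) (r : R), Tw.ev A w = 0 ∧ Tw.ev AR r = 0 ∧ ιW w = ι r ∧
        cc F w = y.1 ∧ π r = (E y).1)
    (hE2 : ∀ y, ∀ (w : PowerSeries K) (r : R), Tw.ev A w = 0 → ιW w = ι r →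
        cc F w = y.1 → π r = (E y).1)
    (L : Submodule F K) (x : κ) :
    x ∈ spec ιW ι π A L ↔ ∃ y, y.1 ∈ L ∧ (E y).1 = x := by
  rw [g8_mem_spec]
  constructor
  · rintro ⟨w, r, h1, h2, h3, h4⟩
    have hy : cc F w ∈ LinearMap.ker (Tw.ev (Tw.map (cc F) A)) := by
      rw [LinearMap.mem_ker, Tw.ev_map, h2, map_zero]
    exact ⟨⟨cc F w, hy⟩, h1, (hE2 ⟨cc F w, hy⟩ w r h2 h3 rfl).symm.trans h4⟩
  · rintro ⟨y, hy, hx⟩
    obtain ⟨w, r, h1, h2, h3, h4, h5⟩ := hE1 y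
    exact ⟨w, r, h4 ▸ hy, h1, h3, h5.trans hx⟩

theorem SpecOK.exists_equiv [IsAlgClosed K] [IsAlgClosed Ω] [IsAlgClosed κ]
    (hι : Function.Injective ιW) (h : VR ι π) {A : Tw F (PowerSeries K)} {AR : Tw F R}
    (hA : SpecOK ιW ι π A AR) :
    ∃ E : LinearMap.ker (Tw.ev (Tw.map (cc F) A)) ≃ₗ[F] LinearMap.ker (Tw.ev (Tw.map π AR)),
      (∀ y, ∃ (w : PowerSeries K) (r : R), Tw.ev A w = 0 ∧ Tw.ev AR r = 0 ∧ ιW w = ι r ∧
        cc F w = y.1 ∧ π r = (E y).1) ∧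
      ∀ L : Submodule F K, L ≤ LinearMap.ker (Tw.ev (Tw.map (cc F) A)) →
        spec ιW ι π A L = ((L.comap (LinearMap.ker (Tw.ev (Tw.map (cc F) A))).subtype).map
          (E : _ →ₗ[F] _)).map (LinearMap.ker (Tw.ev (Tw.map π AR))).subtype := by
  obtain ⟨E, hE1, hE2⟩ := g8_exists_equiv hι h hA
  refine ⟨E, hE1, ?_⟩
  intro L _
  ext x
  rw [g8_mem_of_equiv hE1 hE2]
  constructor
  · rintro ⟨y, hy, hx⟩
    exact Submodule.mem_map.2 ⟨E y, Submodule.mem_map.2 ⟨y, Submodule.mem_comap.2 hy, rfl⟩, hx⟩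
  · intro hx
    obtain ⟨z, hz, hzx⟩ := Submodule.mem_map.1 hx
    obtain ⟨y, hy, hyz⟩ := Submodule.mem_map.1 hz
    refine ⟨y, Submodule.mem_comap.1 hy, ?_⟩
    have e : E y = z := hyz
    rw [e]
    exact hzx

theorem SpecOK.injective [IsAlgClosed K] [IsAlgClosed Ω] [IsAlgClosed κ]
    (hι : Function.Injective ιW) (h : VR ι π) {A : Tw F (PowerSeries K)} {AR : Tw F R}
    (hA : SpecOK ιW ι π A AR) (L₁ L₂ : Submodule F K)
    (h₁ : L₁ ≤ LinearMap.ker (Tw.ev (Tw.map (cc F) A)))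
    (h₂ : L₂ ≤ LinearMap.ker (Tw.ev (Tw.map (cc F) A)))
    (heq : spec ιW ι π A L₁ = spec ιW ι π A L₂) : L₁ = L₂ := by
  obtain ⟨E, hE1, hE2⟩ := g8_exists_equiv hι h hA
  have key : ∀ L L' : Submodule F K, L ≤ LinearMap.ker (Tw.ev (Tw.map (cc F) A)) →
      spec ιW ι π A L = spec ιW ι π A L' → L ≤ L' := by
    intro L L' hL he y hy
    have h3 : (E ⟨y, hL hy⟩).1 ∈ spec ιW ι π A L :=
      (g8_mem_of_equiv hE1 hE2 L _).2 ⟨⟨y, hL hy⟩, hy, rfl⟩
    rw [he] at h3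
    obtain ⟨y', hy', hyy⟩ := (g8_mem_of_equiv hE1 hE2 L' _).1 h3
    have h4 : y' = ⟨y, hL hy⟩ := E.injective (Subtype.ext hyy)
    rw [h4] at hy'
    exact hy'
  exact le_antisymm (key L₁ L₂ h₁ heq) (key L₂ L₁ h₂ heq.symm)

theorem SpecOK.map_le [IsAlgClosed K] [IsAlgClosed Ω] [IsAlgClosed κ]
    (hι : Function.Injective ιW) (h : VR ι π) {A : Tw F (PowerSeries K)} {AR : Tw F R}
    (hA : SpecOK ιW ι π A AR) (L : Submodule F K)
    (hL : L ≤ LinearMap.ker (Tw.ev (Tw.map (cc F) A))) (BW : Tw F (PowerSeries K)) (BR : Tw F R)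
    (hB : Tw.map ιW BW = Tw.map ι BR) (hBA : BW * A = A * BW)
    (hLB : L.map (Tw.ev (Tw.map (cc F) BW)) ≤ L) :
    (spec ιW ι π A L).map (Tw.ev (Tw.map π BR)) ≤ spec ιW ι π A L := by
  intro x hx
  obtain ⟨x0, hx0, hxx⟩ := Submodule.mem_map.1 hx
  obtain ⟨w, r, h1, h2, h3, h4⟩ := g8_mem_spec.1 hx0
  refine g8_mem_spec.2 ⟨Tw.ev BW w, Tw.ev BR r, ?_, ?_, ?_, ?_⟩
  · rw [← Tw.ev_map]
    exact hLB (Submodule.mem_map.2 ⟨cc F w, h1, rfl⟩)
  · rw [← Tw.ev_mul, ← hBA, Tw.ev_mul, h2, map_zero]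
  · rw [← Tw.ev_map, ← Tw.ev_map, hB, h3]
  · rw [← Tw.ev_map, h4, hxx]

theorem g8_map_Pm {S S' : Type*} [CommRing S] [Algebra F S] [CommRing S'] [Algebra F S']
    (φ : S →ₐ[F] S') (t g : S) (d : F) (m : ℕ) :
    Tw.map φ ((Pm t g - algebraMap F _ d) ^ m) =
      (Pm (φ t) (φ g) - algebraMap F _ d) ^ m := by
  rw [map_pow, map_sub, AlgHom.commutes]
  unfold Pm
  simp

theorem g8_coeff_zero {S : Type*} [CommRing S] [Algebra F S] (t g : S) (d : F) (m : ℕ) :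
    ((Pm t g - algebraMap F (Tw F S) d) ^ m).coeff 0 = (t - algebraMap F S d) ^ m := by
  induction m with
  | zero => simp [Tw.coeff_one]
  | succ m ih =>
    rw [pow_succ, Tw.coeff_mul_zero, ih, pow_succ]
    congr 1
    unfold Pm
    rw [Tw.coeff_sub, Tw.coeff_add, Tw.coeff_add, Tw.algebraMap_apply, Tw.coeff_C_zero,
      Tw.coeff_C_zero, Tw.coeff_C_mul, Tw.coeff_T, Tw.coeff_T_pow]
    simp

theorem g8_natDegree_le {S : Type*} [CommRing S] [Algebra F S] (t g : S) (d : F) :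
    (Pm t g - algebraMap F (Tw F S) d).natDegree ≤ 2 := by
  rw [Tw.natDegree_le_iff]
  intro n hn
  unfold Pm
  rw [Tw.coeff_sub, Tw.coeff_add, Tw.coeff_add, Tw.algebraMap_apply, Tw.coeff_C, Tw.coeff_C,
    Tw.coeff_C_mul, Tw.coeff_T, Tw.coeff_T_pow, if_neg (by omega), if_neg (by omega),
    if_neg (by omega), if_neg (by omega)]
  simp

theorem g8_coeff_two {S : Type*} [CommRing S] [Algebra F S] (t g : S) (d : F) :
    (Pm t g - algebraMap F (Tw F S) d).coeff 2 = 1 := by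
  unfold Pm
  rw [Tw.coeff_sub, Tw.coeff_add, Tw.coeff_add, Tw.algebraMap_apply, Tw.coeff_C, Tw.coeff_C,
    Tw.coeff_C_mul, Tw.coeff_T, Tw.coeff_T_pow]
  simp

theorem g8_pow_top {S : Type*} [CommRing S] [Nontrivial S] [Algebra F S] (t g : S) (d : F)
    (m : ℕ) : ((Pm t g - algebraMap F (Tw F S) d) ^ m).natDegree ≤ 2 * m ∧
      ((Pm t g - algebraMap F (Tw F S) d) ^ m).coeff (2 * m) = 1 := by
  induction m with
  | zero =>
    constructor
    · rw [pow_zero, Tw.natDegree_le_iff]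
      intro n hn
      rw [Tw.coeff_one, if_neg (by omega)]
    · simp [Tw.coeff_one]
  | succ m ih =>
    constructor
    · rw [pow_succ]
      refine (Tw.natDegree_mul_le _ _).trans ?_
      have := g8_natDegree_le t g d
      have := ih.1
      omega
    · rw [pow_succ, show 2 * (m + 1) = 2 * m + 2 by ring,
        Tw.coeff_mul_of_le ih.1 (g8_natDegree_le t g d), ih.2, g8_coeff_two]
      simp

theorem g8_natDegree_eq {S : Type*} [CommRing S] [Nontrivial S] [Algebra F S] (t g : S) (d : F)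
    (m : ℕ) : ((Pm t g - algebraMap F (Tw F S) d) ^ m).natDegree = 2 * m := by
  apply le_antisymm (g8_pow_top t g d m).1
  apply Tw.le_natDegree_of_coeff_ne_zero
  rw [(g8_pow_top t g d m).2]
  exact one_ne_zero

theorem g8_span {V W : Type*} [AddCommGroup V] [Module F V] [AddCommGroup W] [Module F W]
    {KV : Submodule F V} {KW : Submodule F W} (E : KV ≃ₗ[F] KW) (L : Submodule F V)
    (S : Submodule F W) (hS : ∀ x, x ∈ S ↔ ∃ y, y.1 ∈ L ∧ (E y).1 = x) (f : ℕ → V)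
    (hf : ∀ i, f i ∈ KV) (g : ℕ → W) (hfg : ∀ i, (E ⟨f i, hf i⟩).1 = g i)
    (hL : L = Submodule.span F (Set.range f)) : S = Submodule.span F (Set.range g) := by
  set f' : ℕ → KV := fun i => ⟨f i, hf i⟩ with hf'
  have hL2 : L = (Submodule.span F (Set.range f')).map KV.subtype := by
    rw [Submodule.map_span, ← Set.range_comp, hL]
    rfl
  have hspec : S = (Submodule.span F (Set.range f')).map (KW.subtype ∘ₗ (E : KV →ₗ[F] KW)) := by
    ext x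
    rw [hS, Submodule.mem_map]
    constructor
    · rintro ⟨z, hz, hx⟩
      refine ⟨z, ?_, hx⟩
      rw [hL2] at hz
      obtain ⟨z', hz', hzz⟩ := Submodule.mem_map.1 hz
      have : z' = z := Subtype.ext hzz
      rw [← this]
      exact hz'
    · rintro ⟨z, hz, hx⟩
      refine ⟨z, ?_, hx⟩
      rw [hL2]
      exact Submodule.mem_map.2 ⟨z, hz, rfl⟩
  rw [hspec, Submodule.map_span, ← Set.range_comp]
  congr 2
  funext i
  exact hfg i

/-- Cyclic submodules specialize to cyclic submodules. -/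
theorem spec_isCyc [IsAlgClosed K] [IsAlgClosed Ω] [IsAlgClosed κ] (hι : Function.Injective ιW)
    (h : VR ι π) (c d : F) (hd : d ≠ 0) (hcd : c ≠ d) (n : ℕ) (tW gW : PowerSeries K) (tR gR : R)
    (ht : ιW tW = ι tR) (hg : ιW gW = ι gR) (htW : cc F tW = 0) (htR : π tR = algebraMap F κ c)
    (L : Submodule F K) (hL : IsCyc (nu (Pm (cc F tW) (cc F gW)) d) n L) :
    SpecOK ιW ι π ((Pm tW gW - algebraMap F _ d) ^ (n + 1)) ((Pm tR gR - algebraMap F _ d) ^ (n + 1)) ∧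
    IsCyc (nu (Pm (π tR) (π gR)) d) n
      (spec ιW ι π ((Pm tW gW - algebraMap F _ d) ^ (n + 1)) L) := by
  have hOK : SpecOK ιW ι π ((Pm tW gW - algebraMap F _ d) ^ (n + 1))
      ((Pm tR gR - algebraMap F _ d) ^ (n + 1)) := by
    constructor
    · rw [g8_map_Pm, g8_map_Pm, ht, hg]
    · rw [g8_coeff_zero, map_pow, map_sub, htW, AlgHom.commutes, zero_sub]
      exact pow_ne_zero _ (neg_ne_zero.2 ((map_ne_zero (algebraMap F K)).2 hd))
    · rw [g8_natDegree_eq, (g8_pow_top tW gW d (n + 1)).2, map_one]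
      exact one_ne_zero
    · rw [g8_coeff_zero, map_pow, map_sub, htR, AlgHom.commutes, ← map_sub]
      exact pow_ne_zero _ ((map_ne_zero (algebraMap F κ)).2 (sub_ne_zero.2 hcd))
    · rw [g8_natDegree_eq, (g8_pow_top tR gR d (n + 1)).2, map_one]
      exact one_ne_zero
  refine ⟨hOK, ?_⟩
  obtain ⟨E, hE1, hE2⟩ := g8_exists_equiv hι h hOK
  obtain ⟨y, hy1, hy2, hLy⟩ := hL
  have hkerK : ∀ x : K, x ∈ LinearMap.ker (Tw.ev (Tw.map (cc F)
      ((Pm tW gW - algebraMap F _ d) ^ (n + 1)))) ↔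
      ((nu (Pm (cc F tW) (cc F gW)) d) ^ (n + 1)) x = 0 := by
    intro x
    rw [LinearMap.mem_ker, g8_map_Pm, map_pow]
    rfl
  have hmem : ∀ i : ℕ, ((nu (Pm (cc F tW) (cc F gW)) d) ^ i) y ∈ LinearMap.ker (Tw.ev (Tw.map
      (cc F) ((Pm tW gW - algebraMap F _ d) ^ (n + 1)))) := by
    intro i
    rw [hkerK, ← Module.End.mul_apply, ← pow_add, add_comm, pow_add, Module.End.mul_apply, hy1,
      map_zero]
  have hmem0 : y ∈ LinearMap.ker (Tw.ev (Tw.map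
      (cc F) ((Pm tW gW - algebraMap F _ d) ^ (n + 1)))) := by
    have := hmem 0
    simpa using this
  obtain ⟨w, r, hw, hr, hwr, hwy, hry⟩ := hE1 ⟨y, hmem0⟩
  -- powers
  have hpow : ∀ i : ℕ, (E ⟨((nu (Pm (cc F tW) (cc F gW)) d) ^ i) y, hmem i⟩).1 =
      ((nu (Pm (π tR) (π gR)) d) ^ i) (E ⟨y, hmem0⟩).1 := by
    intro i
    have h1 : Tw.ev ((Pm tW gW - algebraMap F (Tw F (PowerSeries K)) d) ^ (n + 1))
        (Tw.ev ((Pm tW gW - algebraMap F (Tw F (PowerSeries K)) d) ^ i) w) = 0 := by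
      rw [← Tw.ev_mul, ← pow_add, add_comm, pow_add, Tw.ev_mul, hw, map_zero]
    have h2 : ιW (Tw.ev ((Pm tW gW - algebraMap F (Tw F (PowerSeries K)) d) ^ i) w) =
        ι (Tw.ev ((Pm tR gR - algebraMap F (Tw F R) d) ^ i) r) := by
      rw [← Tw.ev_map, ← Tw.ev_map, g8_map_Pm, g8_map_Pm, ht, hg, hwr]
    have h3 : ((nu (Pm (cc F tW) (cc F gW)) d) ^ i) y =
        cc F (Tw.ev ((Pm tW gW - algebraMap F (Tw F (PowerSeries K)) d) ^ i) w) := by
      rw [← Tw.ev_map, g8_map_Pm, map_pow, hwy]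
      rfl
    have h4 := hE2 ⟨((nu (Pm (cc F tW) (cc F gW)) d) ^ i) y, hmem i⟩ _ _ h1 h2 h3.symm
    rw [← h4, ← Tw.ev_map, g8_map_Pm, map_pow, hry]
    rfl
  refine ⟨(E ⟨y, hmem0⟩).1, ?_, ?_, ?_⟩
  · rw [← hpow (n + 1)]
    have : (⟨((nu (Pm (cc F tW) (cc F gW)) d) ^ (n + 1)) y, hmem (n + 1)⟩ :
        LinearMap.ker (Tw.ev (Tw.map (cc F) ((Pm tW gW - algebraMap F _ d) ^ (n + 1))))) = 0 :=
      Subtype.ext hy1
    rw [this, map_zero]
    rfl
  · rw [← hpow n]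
    intro h0
    have h1 : E ⟨((nu (Pm (cc F tW) (cc F gW)) d) ^ n) y, hmem n⟩ = 0 := Subtype.ext h0
    have h2 := (LinearEquiv.map_eq_zero_iff E).1 h1
    exact hy2 (congrArg Subtype.val h2)
  · -- the span
    exact g8_span E L _ (g8_mem_of_equiv hE1 hE2 L) _ hmem _ hpow hLy

/-- Scaling by an element `ν` of `K`. -/
theorem spec_scale (hι : Function.Injective ιW) (hι' : Function.Injective ι) (v : K) (vR vR' : R)
    (hv : v ≠ 0) (hvR : ι vR = ιW (cst F v)) (hvR' : ι vR' = ιW (cst F v⁻¹)) (A : Tw F (PowerSeries K)) (L : Submodule F K) :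
    spec ιW ι π (Tw.C (cst F v) * A * Tw.C (cst F v⁻¹)) (L.map (Tw.ev (Tw.C v : Tw F K))) =
      (spec ιW ι π A L).map (Tw.ev (Tw.C (π vR) : Tw F κ)) := by
  have hc1 : cst F v⁻¹ * cst F v = 1 := by
    rw [← map_mul, inv_mul_cancel₀ hv, map_one]
  have hc2 : cst F v * cst F v⁻¹ = 1 := by
    rw [← map_mul, mul_inv_cancel₀ hv, map_one]
  have hvv : vR * vR' = 1 := by
    apply hι'
    rw [map_mul, hvR, hvR', ← map_mul, hc2, map_one, map_one]
  have hev : ∀ w : PowerSeries K, Tw.ev (Tw.C (cst F v) * A * Tw.C (cst F v⁻¹)) w =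
      cst F v * Tw.ev A (cst F v⁻¹ * w) := by
    intro w
    rw [Tw.ev_mul, Tw.ev_mul, Tw.ev_C, Tw.ev_C]
  ext x
  rw [g8_mem_spec, Submodule.mem_map]
  constructor
  · rintro ⟨w, r, h1, h2, h3, h4⟩
    obtain ⟨y, hy, hyw⟩ := Submodule.mem_map.1 h1
    rw [Tw.ev_C] at hyw
    refine ⟨π (vR' * r), g8_mem_spec.2 ⟨cst F v⁻¹ * w, vR' * r, ?_, ?_, ?_, rfl⟩, ?_⟩
    · rw [map_mul, cc_cst, ← hyw, ← mul_assoc, inv_mul_cancel₀ hv, one_mul]
      exact hy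
    · rw [hev] at h2
      have h5 := congrArg (fun z => cst F v⁻¹ * z) h2
      simp only [mul_zero] at h5
      rw [← mul_assoc, hc1, one_mul] at h5
      exact h5
    · rw [map_mul, map_mul, hvR', h3]
    · rw [Tw.ev_C, ← map_mul, ← mul_assoc, hvv, one_mul, h4]
  · rintro ⟨x0, hx0, hx⟩
    obtain ⟨w, r, h1, h2, h3, h4⟩ := g8_mem_spec.1 hx0
    refine ⟨cst F v * w, vR * r, ?_, ?_, ?_, ?_⟩
    · refine Submodule.mem_map.2 ⟨cc F w, h1, ?_⟩
      rw [Tw.ev_C, map_mul, cc_cst]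
    · rw [hev, ← mul_assoc, hc1, one_mul, h2, mul_zero]
    · rw [map_mul, map_mul, hvR, h3]
    · rw [map_mul, h4, ← hx, Tw.ev_C]

end Pool.Agent.H9.Ram
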