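import Pool.Agent.H9.Ram.Defs

/-!
# Definitions for the Galois part
-/

open Polynomial

noncomputable section

namespace Pool.Agent.H9.Ram

/-- `c + g τ + h τ²`. -/
def Pg {F R : Type*} [Field F] [Fintype F] [CommRing R] [Algebra F R] (c : F) (g h : R) : Tw F R :=
  algebraMap F (Tw F R) c + Tw.C g * Tw.T + Tw.C h * Tw.T ^ 2

section
variable {F K M : Type*} [Field F] [Fintype F] [Field K] [Algebra F K] [Field M]
  [Algebra (RatFunc K) M] [Algebra F M] [IsScalarTower F (RatFunc K) M]

/-- The image of `x` in `M`. -/
def xM (K M : Type*) [Field K] [Field M] [Algebra (RatFunc K) M] : M :=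
  algebraMap (RatFunc K) M RatFunc.X

/-- The action of a field automorphism over `F` on `F`-submodules. -/
def fact (σ : M ≃ₐ[F] M) (L : Submodule F M) : Submodule F M := L.map σ.toLinearMap

/-- The action of the Galois group on `F`-submodules of `M`. -/
def gact (σ : M ≃ₐ[RatFunc K] M) (L : Submodule F M) : Submodule F M :=
  fact (σ.restrictScalars F) L

/-- `s` is the slope of `L`: `y ^ q = s y` on `L`. -/
def IsSlope (L : Submodule F M) (s : M) : Prop := ∀ y ∈ L, y ^ Fintype.card F = s * y

end

end Pool.Agent.H9.Ram
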