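import Pool.Agent.H9.Ram.I0

/-!
# Module I1: no rational root

`x a^(q+1) + a = e`, `e ≠ 0` in `K`, has no solution `a ∈ K(x)`, for `q ≥ 2`. Let `a = f / g` in lowest terms:
`x f^(q+1) + f g^q = e g^(q+1)`. So `f ∣ e g^(q+1)`, `f` is a unit (constant); `g^q ∣ x f^(q+1)`, so `g^q ∣ x`, `g` is a
constant by degrees (`q ≥ 2`). So `a ∈ K`, and comparing coefficients of the polynomial `x a^(q+1) + (a - e)`: `a = 0` and
`a = e`, contradiction. (Alternatively use degrees / valuations.)
-/

open Polynomial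

noncomputable section

namespace Pool.Agent.H9.Ram

theorem i1_intDegree_pow {K : Type*} [Field K] (a : RatFunc K) (ha : a ≠ 0) (n : ℕ) :
    (a ^ n).intDegree = n * a.intDegree := by
  induction n with
  | zero => simp
  | succ n ih =>
    rw [pow_succ, RatFunc.intDegree_mul (pow_ne_zero n ha) ha, ih]
    push_cast
    ring

theorem no_rational_root {K : Type*} [Field K] (q : ℕ) (hq : 2 ≤ q) (e : K) (he : e ≠ 0)
    (a : RatFunc K) : RatFunc.X * a ^ (q + 1) + a ≠ RatFunc.C e := by
  intro h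
  have hCe : (RatFunc.C e : RatFunc K) ≠ 0 := (_root_.map_ne_zero _).2 he
  have ha : a ≠ 0 := by
    rintro rfl
    rw [zero_pow (by omega), mul_zero, add_zero] at h
    exact hCe h.symm
  have hX : (RatFunc.X : RatFunc K) ≠ 0 := RatFunc.X_ne_zero
  have hXa : RatFunc.X * a ^ (q + 1) ≠ 0 := mul_ne_zero hX (pow_ne_zero _ ha)
  have hd : (RatFunc.X * a ^ (q + 1)).intDegree = 1 + ((q + 1 : ℕ) : ℤ) * a.intDegree := by
    rw [RatFunc.intDegree_mul hX (pow_ne_zero _ ha), RatFunc.intDegree_X,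
      i1_intDegree_pow a ha]
  have hq0 : (0 : ℤ) ≤ q := Int.natCast_nonneg q
  have hq2 : (2 : ℤ) ≤ q := by exact_mod_cast hq
  -- first inequality
  have h1 : (RatFunc.X * a ^ (q + 1)).intDegree ≤ max (RatFunc.C e).intDegree (-a).intDegree := by
    have h2 : RatFunc.X * a ^ (q + 1) = RatFunc.C e + -a := by rw [← h]; ring
    have h3 : RatFunc.C e + -a ≠ 0 := by rw [← h2]; exact hXa
    rw [h2]
    exact RatFunc.intDegree_add_le (neg_ne_zero.2 ha) h3
  rw [RatFunc.intDegree_neg, RatFunc.intDegree_C, hd] at h1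
  have h4 : (RatFunc.C e).intDegree ≤ max (RatFunc.X * a ^ (q + 1)).intDegree a.intDegree := by
    rw [← h]
    refine RatFunc.intDegree_add_le ha ?_
    rw [h]
    exact hCe
  rw [RatFunc.intDegree_C, hd] at h4
  push_cast at h1 h4
  rcases le_or_gt 0 a.intDegree with h5 | h5
  · rw [max_eq_right h5] at h1
    nlinarith
  · rcases le_max_iff.1 h4 with h6 | h6
    · nlinarith
    · omega

end Pool.Agent.H9.Ram
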