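import Pool.Agent.H9.Ram.I0

/-!
# Module I2: a valuation over `x = 0`, and the size of orbits

* existence: apply `Ideal.image_subset_nonunits_valuationSubring` to the subring `K[x]` of `M` and its proper ideal `(x)`. Nonzero
  constants are units of `K[x]`, so have valuation `1`. A polynomial `f` with `f(0) ≠ 0` is `f(0) + x (…)`, valuation `1`. A
  nonzero rational function is `x^m f/g`, `m ∈ ℤ`, `f(0) g(0) ≠ 0`.
* orbits: let `v(z)^N v(x) = 1`, `N ≥ 1`. Then `1, z, …, z^(N-1)` are linearly independent over `K(x)`: in a relation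
  `∑ f_i z^i = 0` the nonzero terms have valuations `v(x)^(m_i) v(z)^i`; two of them equal would give
  `v(x)^(m_i - m_j) = v(z)^(j - i)`, raise to the power `N`: `v(x)^(N (m_i - m_j)) = v(x)^(i - j)`, and since `v(x) < 1`
  (nonzero), `N (m_i - m_j) = i - j`, impossible for `0 < |i - j| < N`. So the terms have different valuations and cannot sum
  to `0` (the maximum is attained once). Hence the minimal polynomial of `z` over `K(x)` has degree `≥ N`; `M/K(x)` is Galois, so
  the minimal polynomial splits with distinct roots, which are the conjugates `σ z`: the orbit has at least `N` elements.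
-/

open Polynomial

noncomputable section

namespace Pool.Agent.H9.Ram

variable {K M : Type*} [Field K] [Field M] [Algebra (RatFunc K) M]

/-- A valuation over `x = 0`. -/
structure IsVal0 (K : Type*) {M : Type*} [Field K] [Field M] [Algebra (RatFunc K) M]
    (B : ValuationSubring M) : Prop where
  const : ∀ a : K, a ≠ 0 → B.valuation (algebraMap (RatFunc K) M (RatFunc.C a)) = 1
  x : B.valuation (xM K M) < 1
  rat : ∀ r : RatFunc K, r ≠ 0 →
    ∃ m : ℤ, B.valuation (algebraMap (RatFunc K) M r) = (B.valuation (xM K M)) ^ m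

/-- The embedding of polynomials. -/
def i2_io (K M : Type*) [Field K] [Field M] [Algebra (RatFunc K) M] : K[X] →+* M :=
  (algebraMap (RatFunc K) M).comp (algebraMap K[X] (RatFunc K))

theorem i2_io_X : i2_io K M X = xM K M := by
  simp [i2_io, xM, RatFunc.algebraMap_X]

theorem i2_io_C (a : K) : i2_io K M (Polynomial.C a) = algebraMap (RatFunc K) M (RatFunc.C a) := by
  simp [i2_io, RatFunc.algebraMap_C]

theorem i2_io_injective : Function.Injective (i2_io K M) :=
  (algebraMap (RatFunc K) M).injective.comp (IsFractionRing.injective K[X] (RatFunc K))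

theorem i2_xM_ne_zero : xM K M ≠ 0 := by
  rw [← i2_io_X]
  intro h
  exact X_ne_zero (i2_io_injective (h.trans (map_zero _).symm))

theorem exists_val0 : ∃ B : ValuationSubring M, IsVal0 K B := by
  let A : Subring M := (i2_io K M).range
  let xA : A := ⟨xM K M, X, i2_io_X⟩
  have hI : (Ideal.span {xA} : Ideal A) ≠ ⊤ := by
    intro h
    rw [Ideal.span_singleton_eq_top] at h
    obtain ⟨⟨yv, p, hp⟩, hy⟩ := h.exists_right_inv
    have h1 : xM K M * yv = 1 := congrArg Subtype.val hy
    rw [← hp, ← i2_io_X, ← map_mul, ← map_one (i2_io K M)] at h1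
    have h2 := i2_io_injective h1
    have h3 : IsUnit (X : K[X]) := IsUnit.of_mul_eq_one _ h2
    exact not_isUnit_X h3
  obtain ⟨B, hAB, hB⟩ := Ideal.image_subset_nonunits_valuationSubring _ hI
  have hle : ∀ p : K[X], B.valuation (i2_io K M p) ≤ 1 := by
    intro p
    rw [ValuationSubring.valuation_le_one_iff]
    exact hAB ⟨p, rfl⟩
  have hx : B.valuation (xM K M) < 1 := by
    rw [← ValuationSubring.mem_nonunits_iff]
    exact hB ⟨xA, Ideal.subset_span rfl, rfl⟩
  have hconst : ∀ a : K, a ≠ 0 → B.valuation (i2_io K M (Polynomial.C a)) = 1 := by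
    intro a ha
    have h1 := hle (Polynomial.C a)
    have h2 := hle (Polynomial.C a⁻¹)
    have h3 : B.valuation (i2_io K M (Polynomial.C a)) * B.valuation (i2_io K M (Polynomial.C a⁻¹))
        = 1 := by
      rw [← map_mul, ← map_mul, ← Polynomial.C_mul, mul_inv_cancel₀ ha, map_one, map_one, map_one]
    apply le_antisymm h1
    rw [← h3]
    exact mul_le_of_le_one_right' h2
  have hunit : ∀ p : K[X], p.coeff 0 ≠ 0 → B.valuation (i2_io K M p) = 1 := by
    intro p hp
    have h1 : p = Polynomial.C (p.coeff 0) + X * p.divX := by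
      conv_lhs => rw [← Polynomial.X_mul_divX_add p]
      ring
    rw [h1, map_add, map_mul, i2_io_X]
    have h2 : B.valuation (xM K M * i2_io K M p.divX) <
        B.valuation (i2_io K M (Polynomial.C (p.coeff 0))) := by
      rw [hconst _ hp, map_mul]
      calc B.valuation (xM K M) * B.valuation (i2_io K M p.divX) ≤ B.valuation (xM K M) * 1 :=
            mul_le_mul' le_rfl (hle _)
        _ < 1 := by rw [mul_one]; exact hx
    rw [Valuation.map_add_eq_of_lt_left _ h2, hconst _ hp]
  have hpoly : ∀ p : K[X], p ≠ 0 → ∃ n : ℕ, B.valuation (i2_io K M p) = B.valuation (xM K M) ^ n := by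
    intro p hp
    obtain ⟨r, hr, hnd⟩ := Polynomial.exists_eq_pow_rootMultiplicity_mul_and_not_dvd p hp 0
    refine ⟨p.rootMultiplicity 0, ?_⟩
    rw [Polynomial.C_0, sub_zero] at hr hnd
    have h1 : r.coeff 0 ≠ 0 := by
      intro h
      exact hnd (Polynomial.X_dvd_iff.2 h)
    conv_lhs => rw [hr]
    rw [map_mul, map_pow, i2_io_X, map_mul, map_pow, hunit r h1, mul_one]
  refine ⟨B, ⟨?_, hx, ?_⟩⟩
  · intro a ha
    rw [← i2_io_C]
    exact hconst a ha
  · intro r hr
    obtain ⟨a, b, hb, rfl⟩ := IsFractionRing.div_surjective K[X] r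
    have hb0 : b ≠ 0 := nonZeroDivisors.ne_zero hb
    have ha0 : a ≠ 0 := by
      rintro rfl
      simp at hr
    obtain ⟨n, hn⟩ := hpoly a ha0
    obtain ⟨m, hm⟩ := hpoly b hb0
    refine ⟨(n : ℤ) - m, ?_⟩
    have h1 : algebraMap (RatFunc K) M (algebraMap K[X] (RatFunc K) a / algebraMap K[X] (RatFunc K) b)
        = i2_io K M a / i2_io K M b := by
      rw [map_div₀]
      rfl
    have hx0 : B.valuation (xM K M) ≠ 0 := by
      rw [Valuation.ne_zero_iff]
      exact i2_xM_ne_zero
    rw [h1, map_div₀, hn, hm, zpow_sub₀ hx0, zpow_natCast, zpow_natCast]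

theorem i2_rootSet_eq [FiniteDimensional (RatFunc K) M] [IsGalois (RatFunc K) M] (z y : M)
    (hy : y ∈ (minpoly (RatFunc K) z).rootSet M) :
    y ∈ Set.range fun σ : M ≃ₐ[RatFunc K] M => σ z := by
  have hz : IsIntegral (RatFunc K) z := Algebra.IsIntegral.isIntegral z
  have h1 : aeval y (minpoly (RatFunc K) z) = 0 := Polynomial.aeval_eq_zero_of_mem_rootSet hy
  have h2 : minpoly (RatFunc K) z = minpoly (RatFunc K) y :=
    minpoly.eq_of_irreducible_of_monic (minpoly.irreducible hz) h1 (minpoly.monic hz)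
  have h3 := (Normal.minpoly_eq_iff_mem_orbit (F := RatFunc K) (E := M)).1 h2.symm
  obtain ⟨σ, hσ⟩ := h3
  exact ⟨σ, hσ⟩

theorem le_ncard_orbit [FiniteDimensional (RatFunc K) M] [IsGalois (RatFunc K) M]
    {B : ValuationSubring M} (hB : IsVal0 K B) (z : M) (N : ℕ) (hN : 0 < N)
    (hz : (B.valuation z) ^ N * B.valuation (xM K M) = 1) :
    N ≤ (Set.range fun σ : M ≃ₐ[RatFunc K] M => σ z).ncard := by
  classical
  have hint : IsIntegral (RatFunc K) z := Algebra.IsIntegral.isIntegral z
  set p := minpoly (RatFunc K) z with hp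
  have hp0 : p ≠ 0 := minpoly.ne_zero hint
  -- the number of conjugates
  have hcard : p.natDegree ≤ (Set.range fun σ : M ≃ₐ[RatFunc K] M => σ z).ncard := by
    have h1 : Fintype.card (p.rootSet M) = p.natDegree :=
      Polynomial.card_rootSet_eq_natDegree (IsGalois.separable (RatFunc K) z)
        (IsGalois.splits (RatFunc K) z)
    have h2 : (p.rootSet M).ncard = p.natDegree := by
      rw [← h1, ← Nat.card_eq_fintype_card]
      rfl
    rw [← h2]
    apply Set.ncard_le_ncard _ (Set.finite_range _)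
    intro y hy
    exact i2_rootSet_eq z y hy
  refine le_trans ?_ hcard
  by_contra hlt
  push Not at hlt
  -- valuations
  set ξ := B.valuation (xM K M) with hξ
  have hξ0 : ξ ≠ 0 := by
    rw [hξ, Valuation.ne_zero_iff]
    exact i2_xM_ne_zero
  have hξ1 : ξ < 1 := hB.x
  set ζ := B.valuation z with hζ
  have hζ0 : ζ ≠ 0 := by
    intro h
    rw [h, zero_pow hN.ne', zero_mul] at hz
    exact zero_ne_one hz
  have hζN : ζ ^ N = ξ⁻¹ := eq_inv_of_mul_eq_one_left hz
  have hsum : ∑ i ∈ p.support, algebraMap (RatFunc K) M (p.coeff i) * z ^ i = 0 := by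
    have h1 : aeval z p = 0 := minpoly.aeval _ _
    rw [Polynomial.aeval_eq_sum_range, ] at h1
    rw [← h1]
    simp only [Algebra.smul_def]
    apply Finset.sum_subset
    · intro i hi
      rw [Finset.mem_range]
      exact Nat.lt_succ_of_le (Polynomial.le_natDegree_of_mem_supp i hi)
    · intro i _ hi
      rw [Polynomial.notMem_support_iff.1 hi, map_zero, zero_mul]
  have hval : ∀ i ∈ p.support, ∃ m : ℤ,
      B.valuation (algebraMap (RatFunc K) M (p.coeff i) * z ^ i) = ξ ^ m * ζ ^ i := by
    intro i hi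
    obtain ⟨m, hm⟩ := hB.rat (p.coeff i) (Polynomial.mem_support_iff.1 hi)
    exact ⟨m, by rw [map_mul, hm, map_pow]⟩
  have hdist : ∀ i ∈ p.support, ∀ j ∈ p.support, i ≠ j →
      B.valuation (algebraMap (RatFunc K) M (p.coeff i) * z ^ i) ≠
        B.valuation (algebraMap (RatFunc K) M (p.coeff j) * z ^ j) := by
    intro i hi j hj hij heq
    obtain ⟨m, hm⟩ := hval i hi
    obtain ⟨m', hm'⟩ := hval j hj
    rw [hm, hm'] at heq
    have h1 := congrArg (fun t => t ^ N) heq
    simp only [mul_pow] at h1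
    rw [← pow_mul, ← pow_mul, mul_comm i N, mul_comm j N, pow_mul, pow_mul, hζN] at h1
    have h2 : ∀ (m : ℤ) (i : ℕ), (ξ ^ m) ^ N * ξ⁻¹ ^ i = ξ ^ (m * N - i : ℤ) := by
      intro m i
      rw [zpow_sub₀ hξ0, zpow_mul, zpow_natCast, zpow_natCast, inv_pow, div_eq_mul_inv]
    rw [h2, h2] at h1
    have h3 := zpow_right_injective₀ (zero_lt_iff.2 hξ0) hξ1.ne h1
    have hi' : i ≤ p.natDegree := Polynomial.le_natDegree_of_mem_supp i hi
    have hj' : j ≤ p.natDegree := Polynomial.le_natDegree_of_mem_supp j hj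
    have h4 : ((m - m') * N : ℤ) = i - j := by linarith
    have h5 : (N : ℤ) ∣ ((i : ℤ) - j) := ⟨m - m', by rw [← h4]; ring⟩
    have h6 : |(i : ℤ) - j| < N := by
      rw [abs_lt]
      constructor <;> omega
    have h7 := Int.eq_zero_of_abs_lt_dvd h5 h6
    omega
  have hne : p.support.Nonempty := Polynomial.support_nonempty.2 hp0
  obtain ⟨i0, hi0, hmax⟩ := Finset.exists_max_image p.support
    (fun i => B.valuation (algebraMap (RatFunc K) M (p.coeff i) * z ^ i)) hne
  have hi0ne : B.valuation (algebraMap (RatFunc K) M (p.coeff i0) * z ^ i0) ≠ 0 := by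
    obtain ⟨m, hm⟩ := hval i0 hi0
    rw [hm]
    exact mul_ne_zero (zpow_ne_zero _ hξ0) (pow_ne_zero _ hζ0)
  have hlt' : B.valuation (∑ i ∈ p.support.erase i0, algebraMap (RatFunc K) M (p.coeff i) * z ^ i) <
      B.valuation (algebraMap (RatFunc K) M (p.coeff i0) * z ^ i0) := by
    apply Valuation.map_sum_lt _ hi0ne
    intro i hi
    rw [Finset.mem_erase] at hi
    exact lt_of_le_of_ne (hmax i hi.2) (hdist i hi.2 i0 hi0 hi.1)
  rw [← Finset.add_sum_erase _ _ hi0] at hsum
  have h1 := eq_neg_of_add_eq_zero_right hsum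
  rw [h1, Valuation.map_neg] at hlt'
  exact lt_irrefl _ hlt'

end Pool.Agent.H9.Ram
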