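import Pool.Agent.H9.Ram.I0
import Pool.Agent.H9.Ram.C1

/-!
# Module I3: the quotient of a cyclic submodule by its first line

`P = c + g τ + h τ²` over a field `M`, `h ≠ 0`, `e = d - c ≠ 0`, `q = card F`.
(a) A line `l ≤ ker (P - d)` has a slope `a ≠ 0` (`a = y^(q-1)` for any `0 ≠ y ∈ l`; the elements of `l` are `F`-multiples of `y`),
   and `h a^(q+1) + g a = e` (evaluate `h y^(q²) + g y^q - e y = 0`).
(b) With `β = e / a` (so `β - h a^q = g`): `P - d = (h τ + β)(τ - a)` and `(τ - a)(P - d) = (P'' - d)(τ - a)` with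
   `P'' - d = (τ - a)(h τ + β)`, `P'' = c + g'' τ + h^q τ²`, `g'' = β^q - a h`.
(c) Let `L` be cyclic of level `n + 1` for `P - d` and `a` the slope of `L ⊓ ker (P - d)`. Then `L' = (τ - a) L` is cyclic of level
   `n` for `P'' - d`: if `y` generates `L` then `y' = (τ - a) y` generates `L'`; `ν'' (τ - a) = (τ - a) ν`; `ν''^(n+1) y' =
   (τ - a) ν^(n+1) y = 0` as `ν^(n+1) y ∈ L ⊓ ker ν`; `ν''^n y' = (τ - a) ν^n y ≠ 0` as `ν^n y ∉ ker ν` and the elements of `L`
   killed by `τ - a` are those of the line `L ⊓ ker ν` (`ker (τ - a)` has at most `q` elements).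
(d) Any slope `a''` of the line `L' ⊓ ker (P'' - d)` is different from `- e/(h a)`: let `L₁ = L ⊓ ker ν²` (dimension 2). The line
   `L' ⊓ ker ν''` is `(τ - a) L₁`. If `a'' = - e/(h a) = -β/h` then `h τ + β` kills `(τ - a) L₁`, so `P - d` kills `L₁`, but
   `L ⊓ ker ν` has dimension one.
(e) Galois equivariance: if `σ` is an automorphism of `M` over `F` with `σ g = g`, `σ h = h`, `σ L = L`, then `σ a = a`,
   `σ g'' = g''`, `σ (h^q) = h^q`, `σ L' = L'`.
-/

open Polynomial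

noncomputable section

namespace Pool.Agent.H9.Ram

variable {F M : Type*} [Field F] [Fintype F] [Field M] [Algebra F M]

theorem i3_nu_apply (c d : F) (g h y : M) : nu (Pg c g h) d y =
    h * (y ^ Fintype.card F) ^ Fintype.card F + g * y ^ Fintype.card F
      - algebraMap F M (d - c) * y := by
  have e1 : Tw.ev (algebraMap F (Tw F M) c) y = algebraMap F M c * y := by
    rw [Tw.algebraMap_apply, Tw.ev_C]
  have e2 : Tw.ev (algebraMap F (Tw F M) d) y = algebraMap F M d * y := by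
    rw [Tw.algebraMap_apply, Tw.ev_C]
  unfold nu Pg
  rw [map_sub, map_add, map_add, LinearMap.sub_apply, LinearMap.add_apply, LinearMap.add_apply,
    e1, e2, Tw.ev_mul, Tw.ev_T, Tw.ev_C, Tw.ev_mul, Tw.ev_T_pow, Tw.ev_C, ← pow_mul, ← sq, map_sub]
  ring

theorem i3_t_apply (a y : M) : Tw.ev (Tw.T - Tw.C a : Tw F M) y = y ^ Fintype.card F - a * y := by
  rw [map_sub, LinearMap.sub_apply, Tw.ev_T, Tw.ev_C]

theorem i3_add_pow (x y : M) :
    (x + y) ^ Fintype.card F = x ^ Fintype.card F + y ^ Fintype.card F := by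
  have := map_add (fr F 1 : M →ₐ[F] M) x y
  simpa [fr_apply] using this

theorem i3_sub_pow (x y : M) :
    (x - y) ^ Fintype.card F = x ^ Fintype.card F - y ^ Fintype.card F := by
  have := map_sub (fr F 1 : M →ₐ[F] M) x y
  simpa [fr_apply] using this

theorem i3_smul_pow (r : F) (y : M) :
    (r • y) ^ Fintype.card F = r • y ^ Fintype.card F := by
  rw [Algebra.smul_def, mul_pow, ← map_pow, FiniteField.pow_card, Algebra.smul_def]

theorem i3_base_pow (r : F) : (algebraMap F M r) ^ Fintype.card F = algebraMap F M r := by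
  rw [← map_pow, FiniteField.pow_card]

theorem exists_slope (L : Submodule F M) (hL : Module.finrank F L = 1) :
    ∃ a : M, a ≠ 0 ∧ IsSlope L a := by
  have hq : 0 < Fintype.card F := Fintype.card_pos
  obtain ⟨v, hv, hspan⟩ := finrank_eq_one_iff'.mp hL
  have hv0 : (v : M) ≠ 0 := fun h => hv (Subtype.ext h)
  refine ⟨(v : M) ^ (Fintype.card F - 1), pow_ne_zero _ hv0, fun y hy => ?_⟩
  obtain ⟨r, hr⟩ := hspan ⟨y, hy⟩
  have hr' : r • (v : M) = y := congrArg Subtype.val hr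
  rw [← hr', i3_smul_pow, mul_smul_comm]
  congr 1
  rw [← pow_succ, Nat.sub_add_cancel hq]

theorem slope_unique {L : Submodule F M} (hL : L ≠ ⊥) {a a' : M} (h : IsSlope L a)
    (h' : IsSlope L a') : a = a' := by
  obtain ⟨y, hy, hy0⟩ := Submodule.exists_mem_ne_zero_of_ne_bot hL
  have h1 := h y hy
  have h2 := h' y hy
  exact mul_right_cancel₀ hy0 (h1.symm.trans h2)

theorem slope_eq (c d : F) (g h a : M) (l : Submodule F M) (hl : l ≠ ⊥)
    (hle : l ≤ LinearMap.ker (nu (Pg c g h) d)) (ha : IsSlope l a) :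
    h * a ^ (Fintype.card F + 1) + g * a = algebraMap F M (d - c) := by
  obtain ⟨y, hy, hy0⟩ := Submodule.exists_mem_ne_zero_of_ne_bot hl
  have h1 : nu (Pg c g h) d y = 0 := LinearMap.mem_ker.mp (hle hy)
  rw [i3_nu_apply, ha y hy, mul_pow, ha y hy] at h1
  have h2 : (h * a ^ (Fintype.card F + 1) + g * a - algebraMap F M (d - c)) * y = 0 := by
    rw [← h1, pow_succ]
    ring
  rcases mul_eq_zero.mp h2 with h3 | h3
  · exact sub_eq_zero.mp h3
  · exact absurd h3 hy0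

theorem i3_a_ne {c d : F} (hcd : c ≠ d) {g h a : M}
    (ha : h * a ^ (Fintype.card F + 1) + g * a = algebraMap F M (d - c)) : a ≠ 0 := by
  rintro rfl
  rw [mul_zero, add_zero, zero_pow (Nat.succ_ne_zero _), mul_zero] at ha
  have h1 : d - c = 0 := by
    apply (algebraMap F M).injective
    rw [← ha, map_zero]
  exact hcd (sub_eq_zero.mp h1).symm

/-- `ν = u ∘ t` with `u z = h z ^ q + β z`. -/
theorem i3_factor {c d : F} {g h a : M} (ha0 : a ≠ 0)
    (ha : h * a ^ (Fintype.card F + 1) + g * a = algebraMap F M (d - c)) (z : M) :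
    nu (Pg c g h) d z = h * (Tw.ev (Tw.T - Tw.C a : Tw F M) z) ^ Fintype.card F
      + algebraMap F M (d - c) / a * (Tw.ev (Tw.T - Tw.C a : Tw F M) z) := by
  rw [i3_nu_apply, i3_t_apply, i3_sub_pow, mul_pow, ← ha, pow_succ]
  field_simp
  ring

/-- `ν'' ∘ t = t ∘ ν`. -/
theorem i3_comm {c d : F} {g h a : M} (ha0 : a ≠ 0)
    (ha : h * a ^ (Fintype.card F + 1) + g * a = algebraMap F M (d - c)) (z : M) :
    nu (Pg c ((algebraMap F M (d - c) / a) ^ Fintype.card F - a * h)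
      (h ^ Fintype.card F)) d (Tw.ev (Tw.T - Tw.C a : Tw F M) z)
      = Tw.ev (Tw.T - Tw.C a : Tw F M) (nu (Pg c g h) d z) := by
  rw [i3_factor ha0 ha]
  set w := Tw.ev (Tw.T - Tw.C a : Tw F M) z with hw
  rw [i3_nu_apply, i3_t_apply, i3_add_pow, mul_pow, mul_pow]
  field_simp
  ring

theorem i3_comm_pow {c d : F} {g h a : M} (ha0 : a ≠ 0)
    (ha : h * a ^ (Fintype.card F + 1) + g * a = algebraMap F M (d - c)) (i : ℕ) (z : M) :
    (nu (Pg c ((algebraMap F M (d - c) / a) ^ Fintype.card F - a * h)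
      (h ^ Fintype.card F)) d ^ i) (Tw.ev (Tw.T - Tw.C a : Tw F M) z)
      = Tw.ev (Tw.T - Tw.C a : Tw F M) ((nu (Pg c g h) d ^ i) z) := by
  induction i generalizing z with
  | zero => rfl
  | succ i ih =>
    rw [pow_succ, Module.End.mul_apply, i3_comm ha0 ha, ih, pow_succ, Module.End.mul_apply]

omit [Fintype F] in
theorem i3_gen {ν : Module.End F M} {L : Submodule F M} {y : M}
    (hL : L = Submodule.span F (Set.range fun i : ℕ => (ν ^ i) y)) (i : ℕ) : (ν ^ i) y ∈ L := by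
  rw [hL]
  exact Submodule.subset_span ⟨i, rfl⟩

theorem i3_line {c d : F} (hcd : c ≠ d) {g h a : M} {n : ℕ} {L : Submodule F M} {y : M}
    (h1 : ((nu (Pg c g h) d) ^ (n + 1 + 1)) y = 0) (h2 : ((nu (Pg c g h) d) ^ (n + 1)) y ≠ 0)
    (hL : L = Submodule.span F (Set.range fun i : ℕ => ((nu (Pg c g h) d) ^ i) y))
    (ha : IsSlope (L ⊓ LinearMap.ker (nu (Pg c g h) d)) a) :
    a ≠ 0 ∧ h * a ^ (Fintype.card F + 1) + g * a = algebraMap F M (d - c) ∧
      ((nu (Pg c g h) d) ^ (n + 1)) y ∈ L ⊓ LinearMap.ker (nu (Pg c g h) d) := by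
  have hmem : ((nu (Pg c g h) d) ^ (n + 1)) y ∈ L ⊓ LinearMap.ker (nu (Pg c g h) d) := by
    refine Submodule.mem_inf.mpr ⟨i3_gen hL _, ?_⟩
    rw [LinearMap.mem_ker, ← Module.End.mul_apply, ← pow_succ']
    exact h1
  have hne : L ⊓ LinearMap.ker (nu (Pg c g h) d) ≠ ⊥ := by
    intro hbot
    rw [hbot] at hmem
    exact h2 ((Submodule.mem_bot F).mp hmem)
  have he := slope_eq c d g h a _ hne inf_le_right ha
  exact ⟨i3_a_ne hcd he, he, hmem⟩

theorem isCyc_quotient (c d : F) (hcd : c ≠ d) (g h a : M) (hh : h ≠ 0) (n : ℕ)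
    (L : Submodule F M) (hL : IsCyc (nu (Pg c g h) d) (n + 1) L)
    (ha : IsSlope (L ⊓ LinearMap.ker (nu (Pg c g h) d)) a) :
    IsCyc (nu (Pg c ((algebraMap F M (d - c) / a) ^ Fintype.card F - a * h)
      (h ^ Fintype.card F)) d) n (L.map (Tw.ev (Tw.T - Tw.C a : Tw F M))) := by
  obtain ⟨y, h1, h2, h3⟩ := hL
  obtain ⟨ha0, he, hmem⟩ := i3_line hcd h1 h2 h3 ha
  refine ⟨Tw.ev (Tw.T - Tw.C a : Tw F M) y, ?_, ?_, ?_⟩
  · rw [i3_comm_pow ha0 he, i3_t_apply, ha _ hmem, sub_self]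
  · rw [i3_comm_pow ha0 he]
    intro h0
    apply h2
    rw [pow_succ', Module.End.mul_apply, i3_factor ha0 he, h0,
      zero_pow Fintype.card_ne_zero, mul_zero, mul_zero, add_zero]
  · rw [h3, Submodule.map_span, ← Set.range_comp]
    congr 2
    funext i
    exact (i3_comm_pow ha0 he i y).symm

theorem slope_ne_dual (c d : F) (hcd : c ≠ d) (g h a a'' : M) (hh : h ≠ 0) (n : ℕ)
    (L : Submodule F M) (hL : IsCyc (nu (Pg c g h) d) (n + 1) L)
    (ha : IsSlope (L ⊓ LinearMap.ker (nu (Pg c g h) d)) a)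
    (ha'' : IsSlope (L.map (Tw.ev (Tw.T - Tw.C a : Tw F M)) ⊓
      LinearMap.ker (nu (Pg c ((algebraMap F M (d - c) / a) ^ Fintype.card F - a * h)
      (h ^ Fintype.card F)) d)) a'') :
    a'' ≠ -(algebraMap F M (d - c)) / (h * a) := by
  obtain ⟨y, h1, h2, h3⟩ := hL
  obtain ⟨ha0, he, hmem⟩ := i3_line hcd h1 h2 h3 ha
  intro hcon
  set z := ((nu (Pg c g h) d) ^ n) y with hz
  have hνz : nu (Pg c g h) d z = ((nu (Pg c g h) d) ^ (n + 1)) y := by
    rw [hz, ← Module.End.mul_apply, ← pow_succ']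
  have hmem2 : Tw.ev (Tw.T - Tw.C a : Tw F M) z ∈ L.map (Tw.ev (Tw.T - Tw.C a : Tw F M)) ⊓
      LinearMap.ker (nu (Pg c ((algebraMap F M (d - c) / a) ^ Fintype.card F - a * h)
      (h ^ Fintype.card F)) d) := by
    refine Submodule.mem_inf.mpr ⟨Submodule.mem_map_of_mem (i3_gen h3 n), ?_⟩
    rw [LinearMap.mem_ker, i3_comm ha0 he, hνz, i3_t_apply, ha _ hmem, sub_self]
  apply h2
  rw [← hνz, i3_factor ha0 he, ha'' _ hmem2, hcon]
  field_simp
  ring

theorem fact_slope (σ : M ≃ₐ[F] M) (L : Submodule F M) (a : M) (ha : IsSlope L a) :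
    IsSlope (fact σ L) (σ a) := by
  intro y hy
  obtain ⟨z, hz, rfl⟩ := Submodule.mem_map.mp hy
  have h1 : (σ.toLinearMap z) = σ z := rfl
  rw [h1, ← map_pow, ha z hz, map_mul]

theorem i3_sig_nu (σ : M ≃ₐ[F] M) (c d : F) (g h : M) (hg : σ g = g) (hh : σ h = h) (y : M) :
    nu (Pg c g h) d (σ y) = σ (nu (Pg c g h) d y) := by
  rw [i3_nu_apply, i3_nu_apply]
  simp only [map_sub, map_add, map_mul, map_pow, hg, hh, AlgEquiv.commutes]

theorem fact_ker (σ : M ≃ₐ[F] M) (c d : F) (g h : M) (hg : σ g = g) (hh : σ h = h)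
    (L : Submodule F M) :
    fact σ (L ⊓ LinearMap.ker (nu (Pg c g h) d)) =
      fact σ L ⊓ LinearMap.ker (nu (Pg c g h) d) := by
  ext y
  constructor
  · intro hy
    obtain ⟨z, hz, rfl⟩ := Submodule.mem_map.mp hy
    obtain ⟨hz1, hz2⟩ := Submodule.mem_inf.mp hz
    refine Submodule.mem_inf.mpr ⟨Submodule.mem_map_of_mem hz1, ?_⟩
    rw [LinearMap.mem_ker] at hz2 ⊢
    have h1 : (σ.toLinearMap z) = σ z := rfl
    rw [h1, i3_sig_nu σ c d g h hg hh, hz2, map_zero]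
  · intro hy
    obtain ⟨hy1, hy2⟩ := Submodule.mem_inf.mp hy
    obtain ⟨z, hz, rfl⟩ := Submodule.mem_map.mp hy1
    refine Submodule.mem_map_of_mem (Submodule.mem_inf.mpr ⟨hz, ?_⟩)
    have h1 : (σ.toLinearMap z) = σ z := rfl
    rw [LinearMap.mem_ker, h1, i3_sig_nu σ c d g h hg hh] at hy2
    rw [LinearMap.mem_ker]
    exact (map_eq_zero_iff σ σ.injective).mp hy2

theorem fact_quotient (σ : M ≃ₐ[F] M) (a : M) (ha : σ a = a) (L : Submodule F M)
    (hL : fact σ L = L) :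
    fact σ (L.map (Tw.ev (Tw.T - Tw.C a : Tw F M))) = L.map (Tw.ev (Tw.T - Tw.C a : Tw F M)) := by
  have hcomm : ∀ z : M, σ (Tw.ev (Tw.T - Tw.C a : Tw F M) z)
      = Tw.ev (Tw.T - Tw.C a : Tw F M) (σ z) := by
    intro z
    rw [i3_t_apply, i3_t_apply, map_sub, map_pow, map_mul, ha]
  have h1 : fact σ (L.map (Tw.ev (Tw.T - Tw.C a : Tw F M)))
      = (fact σ L).map (Tw.ev (Tw.T - Tw.C a : Tw F M)) := by
    unfold fact
    rw [← Submodule.map_comp, ← Submodule.map_comp]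
    congr 1
    ext z
    exact hcomm z
  rw [h1, hL]

end Pool.Agent.H9.Ram
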