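import Pool.Agent.H9.Ram.I3

/-!
# Module I4: the chain of valuations

`q ≥ 2`, `B` a valuation subring of `M` in which the nonzero elements of `F` have valuation one (`v = B.valuation`), `e = d - c`.
For `(g, h, L)` with `L` cyclic of level `n` for `P - d`, `P = c + g τ + h τ²`, `h ≠ 0`, let `a` be the slope of `L ⊓ ker (P - d)` and
`z₀ = h a^(q+1)/e`. Claim: if `v(z₀) > 1` there is `z` with `v(z)^(q^n) = v(z₀)`, fixed by all `σ` over `F` with `σ g = g`,
`σ h = h`, `σ L = L`. Induction on `n`, for all `g, h, L`. `n = 0`: `z = z₀` (`σ a = a` by uniqueness of slopes).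
Step: pass to `(g'', h^q, L')` (I3) with slope `a''`, `z'' = h^q a''^(q+1)/e`. From `h a^(q+1) + g a = e`: `g a = e (1 - z₀)`,
`g'' = (e/a)^q - a h = (e - h a^(q+1))/a^q = e (1 - z₀)/a^q` (`e^q = e`); `h^q a''^(q+1) + g'' a'' = e` gives
`g'' a'' = e (1 - z'')`. Then `g''^(q+1) = e² (1-z₀)^(q+1) / (a^(q+1))^q = e (1-z₀)^(q+1) h^q / z₀^q` and
`e² (1-z'')^(q+1) = (g'' a'')^(q+1) = g''^(q+1) e z''/h^q`, so `z'' = κ (1 - z'')^(q+1)` with `κ = z₀^q/(1-z₀)^(q+1)` (`z₀ ≠ 1`).
Also `z₀⁻¹ = κ (1 - z₀⁻¹)^(q+1)` (`(-1)^(q+1) = 1` in `M`). And `z'' ≠ z₀⁻¹`: otherwise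
`a'' = e (1 - z'')/g'' = a^q (1 - z₀⁻¹)/(1 - z₀) = - a^q/z₀ = - e/(h a)`, excluded by `slope_ne_dual`. `v(κ) = v(z₀)⁻¹ < 1`
since `v(1 - z₀) = v(z₀)`. If `v(z'') ≤ 1`: subtract: `z'' - z₀⁻¹ = κ ((1-z'')^(q+1) - (1-z₀⁻¹)^(q+1)) = κ (z'' - z₀⁻¹) w` with
`v(w) ≤ 1`: contradiction. So `v(z'') > 1`, `v(1-z'') = v(z'')`, `v(z'') = v(κ) v(z'')^(q+1)`, i.e. `v(z'')^q = v(z₀)`.
Induction gives `z` with `v(z)^(q^n) = v(z'')`, so `v(z)^(q^(n+1)) = v(z₀)`; it is fixed by the `σ` as required (I3 (e)).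
* `chain_top`: for `g = 1`, `h = x`: `z₀ = e x (1 - z₀)^(q+1)` so for `v(z₀) > 1`: `v(z₀)^q v(x) = 1`.
* `bounded_unique`: if `v(x) < 1` and two slopes `a, a'` satisfy `x a^(q+1) + a = e` and `v(z₀), v(z₀') ≤ 1` then `a = a'`: same
  subtraction argument with `κ = e x`; and `a = e (1 - z₀)`.
-/

open Polynomial

noncomputable section

namespace Pool.Agent.H9.Ram

variable {F M : Type*} [Field F] [Fintype F] [Field M] [Algebra F M]

/-- `sub_pow` in the valuation ring. -/
theorem i4_contract {Γ : Type*} [LinearOrderedCommGroupWithZero Γ] (v : Valuation M Γ) (n : ℕ)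
    (κ s t : M) (hκ : v κ < 1) (hs : v s ≤ 1) (ht : v t ≤ 1) (es : s = κ * (1 - s) ^ n)
    (et : t = κ * (1 - t) ^ n) : s = t := by
  by_contra hne
  have h1s : v (1 - s) ≤ 1 := (v.map_sub 1 s).trans (by rw [map_one]; exact max_le le_rfl hs)
  have h1t : v (1 - t) ≤ 1 := (v.map_sub 1 t).trans (by rw [map_one]; exact max_le le_rfl ht)
  set w := ∑ i ∈ Finset.range n, (1 - s) ^ i * (1 - t) ^ (n - 1 - i) with hw
  have hwv : v w ≤ 1 := by
    apply v.map_sum_le
    intro i _
    rw [map_mul, map_pow, map_pow]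
    exact mul_le_one' (pow_le_one' h1s _) (pow_le_one' h1t _)
  have hg := geom_sum₂_mul (1 - s) (1 - t) n
  rw [← hw] at hg
  have h2 : s - t = κ * w * (t - s) := by
    calc s - t = κ * (1 - s) ^ n - κ * (1 - t) ^ n := by rw [← es, ← et]
      _ = κ * ((1 - s) ^ n - (1 - t) ^ n) := by ring
      _ = κ * (w * ((1 - s) - (1 - t))) := by rw [hg]
      _ = κ * w * (t - s) := by ring
  have h3 : v (s - t) = v κ * v w * v (s - t) := by
    conv_lhs => rw [h2]
    rw [map_mul, map_mul, v.map_sub_swap t s]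
  have h4 : v (s - t) ≠ 0 := by
    rw [Ne, Valuation.zero_iff]
    exact sub_ne_zero.mpr hne
  have h5 : v κ * v w = 1 := by
    have h6 : v κ * v w * v (s - t) = 1 * v (s - t) := by rw [← h3, one_mul]
    exact mul_right_cancel₀ h4 h6
  have h7 : v κ * v w < 1 := mul_lt_one_of_lt_of_le hκ hwv
  exact h7.ne h5

theorem i4_one_sub {Γ : Type*} [LinearOrderedCommGroupWithZero Γ] (v : Valuation M Γ) {z : M}
    (hz : 1 < v z) : v (1 - z) = v z :=
  v.map_sub_eq_of_lt_right (by rw [map_one]; exact hz)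

theorem i4_top {Γ : Type*} [LinearOrderedCommGroupWithZero Γ] (v : Valuation M Γ) (q : ℕ)
    (κ z : M) (hz : 1 < v z) (ez : z = κ * (1 - z) ^ (q + 1)) : v κ * (v z) ^ q = 1 := by
  have h1 := congrArg v ez
  rw [map_mul, map_pow, i4_one_sub v hz] at h1
  have h0 : v z ≠ 0 := (zero_lt_one.trans hz).ne'
  have h2 : v κ * (v z) ^ q * v z = 1 * v z := by
    rw [one_mul, mul_assoc, ← pow_succ, ← h1]
  exact mul_right_cancel₀ h0 h2

theorem i4_step {Γ : Type*} [LinearOrderedCommGroupWithZero Γ] (v : Valuation M Γ) (q : ℕ)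
    (z0 z2 : M) (hz : 1 < v z0)
    (hneg : (-1 : M) ^ (q + 1) = 1) (hne : z2 ≠ z0⁻¹)
    (e2 : z2 * (1 - z0) ^ (q + 1) = z0 ^ q * (1 - z2) ^ (q + 1)) :
    1 < v z2 ∧ (v z2) ^ q = v z0 := by
  have h0 : v z0 ≠ 0 := (zero_lt_one.trans hz).ne'
  have hz0 : z0 ≠ 0 := by
    rintro rfl
    simp at h0
  have h1 := i4_one_sub v hz
  have h10 : (1 - z0) ≠ 0 := by
    intro h
    rw [h, map_zero] at h1
    exact h0 h1.symm
  have hpow : (1 - z0) ^ (q + 1) ≠ 0 := pow_ne_zero _ h10
  set κ := z0 ^ q / (1 - z0) ^ (q + 1) with hκ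
  have hκv : v κ * v z0 = 1 := by
    rw [hκ, map_div₀, map_pow, map_pow, h1, pow_succ]
    have : (v z0) ^ q ≠ 0 := pow_ne_zero _ h0
    field_simp
  have hκ1 : v κ < 1 := by
    by_contra h
    push Not at h
    have : 1 < v κ * v z0 := lt_of_lt_of_le hz (le_mul_of_one_le_left' h)
    rw [hκv] at this
    exact lt_irrefl _ this
  have es : z2 = κ * (1 - z2) ^ (q + 1) := by
    rw [hκ, div_mul_eq_mul_div, eq_div_iff hpow]
    exact e2
  have et : z0⁻¹ = κ * (1 - z0⁻¹) ^ (q + 1) := by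
    have h2 : 1 - z0⁻¹ = (-1) * (1 - z0) / z0 := by
      field_simp
      ring
    rw [h2, div_pow, mul_pow, hneg, one_mul, hκ, pow_succ z0 q]
    field_simp
  have hgt : 1 < v z2 := by
    by_contra hle
    push Not at hle
    apply hne
    refine i4_contract v (q + 1) κ z2 z0⁻¹ hκ1 hle ?_ es et
    rw [map_inv₀]
    exact inv_le_one_of_one_le₀ hz.le
  refine ⟨hgt, ?_⟩
  have h3 := i4_top v q κ z2 hgt es
  have hκ0 : v κ ≠ 0 := by
    intro h
    rw [h, zero_mul] at hκv
    exact zero_ne_one hκv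
  exact mul_left_cancel₀ hκ0 (h3.trans hκv.symm)

theorem i4_alg (q : ℕ) (e h a a2 g2 z0 z2 : M) (he : e ≠ 0) (He : e ^ q = e)
    (H1 : h * a ^ (q + 1) = e * z0) (H2 : h ^ q * a2 ^ (q + 1) = e * z2)
    (H3 : a ^ q * g2 = e * (1 - z0)) (H4 : g2 * a2 = e * (1 - z2)) :
    z2 * (1 - z0) ^ (q + 1) = z0 ^ q * (1 - z2) ^ (q + 1) := by
  have h0 : e * e ^ (q + 1) ≠ 0 := mul_ne_zero he (pow_ne_zero _ he)
  apply mul_left_cancel₀ h0
  calc e * e ^ (q + 1) * (z2 * (1 - z0) ^ (q + 1)) = (e * z2) * (e * (1 - z0)) ^ (q + 1) := by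
        rw [mul_pow]; ring
    _ = (h ^ q * a2 ^ (q + 1)) * (a ^ q * g2) ^ (q + 1) := by rw [H2, H3]
    _ = (h * a ^ (q + 1)) ^ q * (g2 * a2) ^ (q + 1) := by
        rw [mul_pow (a ^ q), mul_pow h, mul_pow g2, ← pow_mul, ← pow_mul, mul_comm q (q + 1)]
        ring
    _ = (e * z0) ^ q * (e * (1 - z2)) ^ (q + 1) := by rw [H1, H4]
    _ = e * e ^ (q + 1) * (z0 ^ q * (1 - z2) ^ (q + 1)) := by
        rw [mul_pow e z0, mul_pow e (1 - z2), He]; ring

theorem i4_frob (r : F) : (algebraMap F M r) ^ Fintype.card F = algebraMap F M r := by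
  rw [← map_pow, FiniteField.pow_card]

theorem i4_neg : (-1 : M) ^ (Fintype.card F + 1) = 1 := by
  have h := i4_frob (M := M) (-1 : F)
  rw [map_neg, map_one] at h
  rw [pow_succ, h]
  ring

/-- the slope is fixed -/
theorem i4_fix (c d : F) (g h a : M) (n : ℕ) (L : Submodule F M)
    (hL : IsCyc (nu (Pg c g h) d) n L) (ha : IsSlope (L ⊓ LinearMap.ker (nu (Pg c g h) d)) a)
    (σ : M ≃ₐ[F] M) (hg : σ g = g) (hh : σ h = h) (hσ : fact σ L = L) : σ a = a := by
  have h1 := fact_slope σ _ a ha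
  rw [fact_ker σ c d g h hg hh L, hσ] at h1
  refine slope_unique ?_ h1 ha
  intro hbot
  have h2 := hL.finrank_inf_ker
  rw [hbot, finrank_bot] at h2
  exact zero_ne_one h2

theorem exists_chain (B : ValuationSubring M)
    (hF : ∀ r : F, r ≠ 0 → B.valuation (algebraMap F M r) = 1) (c d : F) (hcd : c ≠ d) (n : ℕ) :
    ∀ (g h a : M) (L : Submodule F M), h ≠ 0 → IsCyc (nu (Pg c g h) d) n L →
      IsSlope (L ⊓ LinearMap.ker (nu (Pg c g h) d)) a →
      1 < B.valuation (h * a ^ (Fintype.card F + 1) / algebraMap F M (d - c)) →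
      ∃ z : M, (B.valuation z) ^ (Fintype.card F ^ n) =
          B.valuation (h * a ^ (Fintype.card F + 1) / algebraMap F M (d - c)) ∧
        ∀ σ : M ≃ₐ[F] M, σ g = g → σ h = h → fact σ L = L → σ z = z := by
  set q := Fintype.card F with hq
  set e := algebraMap F M (d - c) with he
  have hdc : d - c ≠ 0 := sub_ne_zero.mpr (Ne.symm hcd)
  have he0 : e ≠ 0 := by
    rw [he, Ne, FaithfulSMul.algebraMap_eq_zero_iff]
    exact hdc
  have hee : e ^ q = e := i4_frob _
  induction n with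
  | zero =>
    intro g h a L hh hL ha hv
    refine ⟨h * a ^ (q + 1) / e, by rw [pow_zero, pow_one], fun σ hg hσh hσL => ?_⟩
    have h1 := i4_fix c d g h a 0 L hL ha σ hg hσh hσL
    rw [map_div₀, map_mul, map_pow, hσh, h1, he, AlgEquiv.commutes]
  | succ n ih =>
    intro g h a L hh hL ha hv
    set z0 := h * a ^ (q + 1) / e with hz0
    have hnb : L ⊓ LinearMap.ker (nu (Pg c g h) d) ≠ ⊥ := by
      intro hbot
      have h2 := hL.finrank_inf_ker
      rw [hbot, finrank_bot] at h2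
      exact zero_ne_one h2
    have hslope := slope_eq c d g h a _ hnb inf_le_right ha
    rw [← he, ← hq] at hslope
    have ha0 : a ≠ 0 := by
      rintro rfl
      rw [zero_pow (by omega), mul_zero, mul_zero, add_zero] at hslope
      exact he0 hslope.symm
    have hL' := isCyc_quotient c d hcd g h a hh n L hL ha
    rw [← he, ← hq] at hL'
    set g2 := (e / a) ^ q - a * h with hg2
    obtain ⟨a2, ha20, ha2⟩ := exists_slope _ hL'.finrank_inf_ker
    have hnd := slope_ne_dual c d hcd g h a a2 hh n L hL ha ha2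
    rw [← he] at hnd
    have hnb2 : L.map (Tw.ev (Tw.T - Tw.C a : Tw F M)) ⊓
        LinearMap.ker (nu (Pg c g2 (h ^ q)) d) ≠ ⊥ := by
      intro hbot
      have h2 := hL'.finrank_inf_ker
      rw [hbot, finrank_bot] at h2
      exact zero_ne_one h2
    have hslope2 := slope_eq c d g2 (h ^ q) a2 _ hnb2 inf_le_right ha2
    rw [← he, ← hq] at hslope2
    set z2 := h ^ q * a2 ^ (q + 1) / e with hz2
    have H1 : h * a ^ (q + 1) = e * z0 := by rw [hz0]; field_simp
    have H2 : h ^ q * a2 ^ (q + 1) = e * z2 := by rw [hz2]; field_simp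
    have H3 : a ^ q * g2 = e * (1 - z0) := by
      have h1 : a ^ q * g2 = e ^ q - h * a ^ (q + 1) := by
        rw [hg2, div_pow, mul_sub]
        field_simp
        ring
      rw [h1, hee, H1]; ring
    have H4 : g2 * a2 = e * (1 - z2) := by
      rw [H2] at hslope2
      linear_combination hslope2
    have e2 := i4_alg q e h a a2 g2 z0 z2 he0 hee H1 H2 H3 H4
    have h0 : B.valuation z0 ≠ 0 := (zero_lt_one.trans hv).ne'
    have hz00 : z0 ≠ 0 := by
      intro h
      rw [h, map_zero] at h0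
      exact h0 rfl
    have h1 := i4_one_sub B.valuation hv
    have h10 : (1 - z0) ≠ 0 := by
      intro h
      rw [h, map_zero] at h1
      exact h0 h1.symm
    have hne : z2 ≠ z0⁻¹ := by
      intro heq
      apply hnd
      have haq : a ^ q ≠ 0 := pow_ne_zero _ ha0
      have hg20 : g2 ≠ 0 := by
        intro h
        rw [h, mul_zero] at H3
        exact (mul_ne_zero he0 h10) H3.symm
      -- a2 * z0 = - a ^ q
      have h3 : a2 * z0 = - a ^ q := by
        apply mul_left_cancel₀ (mul_ne_zero hg20 (one_ne_zero (α := M)))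
        have h4 : g2 * a2 * z0 = e * (z0 - 1) := by
          rw [H4, heq]
          field_simp
        linear_combination h4 + H3
      have h5 : a2 * (h * a) = - e := by
        apply mul_left_cancel₀ haq
        have h6 : a ^ q * (a2 * (h * a)) = a2 * (e * z0) := by
          rw [← H1, pow_succ]; ring
        rw [h6]
        linear_combination e * h3
      rw [eq_div_iff (mul_ne_zero hh ha0)]
      exact h5
    obtain ⟨hgt, hpw⟩ := i4_step B.valuation q z0 z2 hv (i4_neg (F := F)) hne e2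
    obtain ⟨z, hz, hfix⟩ := ih g2 (h ^ q) a2 _ (pow_ne_zero _ hh) hL' ha2 hgt
    refine ⟨z, ?_, fun σ hg hσh hσL => ?_⟩
    · rw [pow_succ, pow_mul, hz, hpw]
    · have h7 := i4_fix c d g h a (n + 1) L hL ha σ hg hσh hσL
      apply hfix σ
      · rw [hg2, map_sub, map_pow, map_div₀, map_mul, h7, hσh, he, AlgEquiv.commutes]
      · rw [map_pow, hσh]
      · exact fact_quotient σ a h7 L hσL

theorem i4_eq (e : F) (he : e ≠ 0) (x a : M)
    (ha : x * a ^ (Fintype.card F + 1) + a = algebraMap F M e) :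
    x * a ^ (Fintype.card F + 1) / algebraMap F M e =
      algebraMap F M e * x * (1 - x * a ^ (Fintype.card F + 1) / algebraMap F M e) ^
        (Fintype.card F + 1) := by
  have he0 : algebraMap F M e ≠ 0 := by
    rw [Ne, FaithfulSMul.algebraMap_eq_zero_iff]
    exact he
  have hee := i4_frob (M := M) e
  have h1 : 1 - x * a ^ (Fintype.card F + 1) / algebraMap F M e = a / algebraMap F M e := by
    field_simp
    linear_combination -ha
  rw [h1, div_pow, pow_succ (algebraMap F M e), hee]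
  field_simp

theorem chain_top (B : ValuationSubring M)
    (hF : ∀ r : F, r ≠ 0 → B.valuation (algebraMap F M r) = 1) (e : F) (he : e ≠ 0) (x a : M)
    (hx : x ≠ 0) (ha : x * a ^ (Fintype.card F + 1) + a = algebraMap F M e)
    (hz : 1 < B.valuation (x * a ^ (Fintype.card F + 1) / algebraMap F M e)) :
    (B.valuation (x * a ^ (Fintype.card F + 1) / algebraMap F M e)) ^ Fintype.card F *
      B.valuation x = 1 := by
  have h1 := i4_top B.valuation (Fintype.card F) (algebraMap F M e * x) _ hz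
    (i4_eq e he x a ha)
  rw [map_mul, hF e he, one_mul] at h1
  rw [mul_comm]
  exact h1

theorem bounded_unique (B : ValuationSubring M)
    (hF : ∀ r : F, r ≠ 0 → B.valuation (algebraMap F M r) = 1) (e : F) (he : e ≠ 0) (x a a' : M)
    (hx : B.valuation x < 1)
    (ha : x * a ^ (Fintype.card F + 1) + a = algebraMap F M e)
    (ha' : x * a' ^ (Fintype.card F + 1) + a' = algebraMap F M e)
    (hz : B.valuation (x * a ^ (Fintype.card F + 1) / algebraMap F M e) ≤ 1)
    (hz' : B.valuation (x * a' ^ (Fintype.card F + 1) / algebraMap F M e) ≤ 1) : a = a' := by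
  have he0 : algebraMap F M e ≠ 0 := by
    rw [Ne, FaithfulSMul.algebraMap_eq_zero_iff]
    exact he
  have h1 := i4_contract B.valuation (Fintype.card F + 1) (algebraMap F M e * x) _ _
    (by rw [map_mul, hF e he, one_mul]; exact hx) hz hz' (i4_eq e he x a ha) (i4_eq e he x a' ha')
  have h2 : x * a ^ (Fintype.card F + 1) = x * a' ^ (Fintype.card F + 1) := by
    rw [div_left_inj' he0] at h1
    exact h1
  linear_combination ha - ha' - h2

end Pool.Agent.H9.Ram
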