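import Pool.Agent.H9.Ram.I1
import Pool.Agent.H9.Ram.I2
import Pool.Agent.H9.Ram.I4
import Pool.Agent.H9.Ram.C2

/-!
# Module I6: the Galois group is transitive on cyclic submodules

`M / K(x)` finite Galois, `P = c + τ + x τ²` over `M`, `c ≠ d`. Any two submodules `L, L'` of `M` cyclic of level `n` for `P - d` are
conjugate. (`Pt c x = Pg c 1 x`.) Let `B` be a valuation subring over `x = 0` (`exists_val0`); nonzero elements of `F` have valuation
one (they are constants of `K`). For `L` cyclic let `a(L)` be the slope of `L ⊓ ker ν`; `x a^(q+1) + a = e`, `e = d - c`. Call `L`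
unbounded if `v(x a^(q+1)/e) > 1`.
(1) `L` unbounded: `exists_chain` gives `z` with `v(z)^(q^n) = v(z₀)`, `chain_top`: `v(z)^(q^(n+1)) v(x) = 1`; so
    `q^(n+1) ≤ #{σ z}` (`le_ncard_orbit`). Since `σ L = σ' L` implies `σ z = σ' z` (`σ'⁻¹ σ` fixes `g = 1`, `h = x` and `L`),
    the orbit of `L` has at least `q^(n+1)` elements.
(2) The set of all cyclic `L` of level `n` has at most `(q+1) q^n < 2 q^(n+1)` elements (`ncard_isCyc_le`; the kernel of `P - d` in
    `M` has dimension `≤ 2` by `Tw.card_ker_le`), so any two unbounded ones are in the same orbit.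
(3) `L` bounded: `a(L) ∉ K(x)` (`no_rational_root`), so some `σ` moves it (Galois), `a(σ L) = σ a(L) ≠ a(L)`, and by
    `bounded_unique` `σ L` is unbounded. So all cyclic `L` are in one orbit.
-/

open Polynomial

noncomputable section

namespace Pool.Agent.H9.Ram

variable {F K M : Type*} [Field F] [Fintype F] [Field K] [Algebra F K] [IsAlgClosed K] [Field M]
  [Algebra (RatFunc K) M] [FiniteDimensional (RatFunc K) M] [IsGalois (RatFunc K) M]
  [Algebra F M] [IsScalarTower F (RatFunc K) M]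

theorem i6_Pt_eq {R : Type*} [CommRing R] [Algebra F R] (c : F) (x : R) :
    Pt c x = Pg c 1 x := by
  unfold Pt Pg
  rw [map_one, one_mul]

theorem i6_coeff {R : Type*} [CommRing R] [Algebra F R] (c d : F) (x : R) (n : ℕ) :
    (Pg c 1 x - algebraMap F (Tw F R) d).coeff n =
      if n = 0 then algebraMap F R c - algebraMap F R d else if n = 1 then 1
        else if n = 2 then x else 0 := by
  unfold Pg
  rw [Tw.coeff_sub, Tw.coeff_add, Tw.coeff_add, Tw.algebraMap_apply, Tw.algebraMap_apply,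
    Tw.coeff_C, Tw.coeff_C, Tw.coeff_C_mul, Tw.coeff_C_mul, Tw.coeff_T, Tw.coeff_T_pow]
  by_cases h0 : n = 0
  · subst h0; simp
  · by_cases h1 : n = 1
    · subst h1; simp
    · by_cases h2 : n = 2
      · subst h2; simp
      · simp [h0, h1, h2]

theorem i6_map {R S : Type*} [CommRing R] [Algebra F R] [CommRing S] [Algebra F S]
    (φ : R →ₐ[F] S) (c d : F) (x : R) :
    Tw.map φ (Pg c 1 x - algebraMap F (Tw F R) d) = Pg c 1 (φ x) - algebraMap F (Tw F S) d := by
  apply Tw.ext_coeff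
  intro n
  rw [Tw.coeff_map, i6_coeff, i6_coeff]
  split_ifs <;> simp

theorem i6_natDegree (c d : F) (x : M) :
    (Pg c 1 x - algebraMap F (Tw F M) d).natDegree ≤ 2 := by
  rw [Tw.natDegree_le_iff]
  intro n hn
  rw [i6_coeff, if_neg (by omega), if_neg (by omega), if_neg (by omega)]

theorem i6_ne_zero (c d : F) (x : M) : Pg c 1 x - algebraMap F (Tw F M) d ≠ 0 := by
  intro h
  have h1 := i6_coeff c d x 1
  rw [h] at h1
  simp at h1

theorem i6_finDim (c d : F) (x : M) :
    FiniteDimensional F (LinearMap.ker (nu (Pg c 1 x) d)) := by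
  have h : (LinearMap.ker (nu (Pg c 1 x) d) : Set M).Finite := Tw.finite_ker (i6_ne_zero c d x)
  have : Finite (LinearMap.ker (nu (Pg c 1 x) d)) := h
  exact Module.Finite.of_finite

theorem i6_finrank (c d : F) (x : M) :
    Module.finrank F (LinearMap.ker (nu (Pg c 1 x) d)) ≤ 2 := by
  have := i6_finDim c d x
  have h1 := Tw.card_ker_le (i6_ne_zero c d x)
  have h2 : Nat.card (LinearMap.ker (nu (Pg c 1 x) d)) =
      Nat.card F ^ Module.finrank F (LinearMap.ker (nu (Pg c 1 x) d)) :=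
    Module.natCard_eq_pow_finrank
  have h3 : Nat.card (LinearMap.ker (nu (Pg c 1 x) d)) ≤ Fintype.card F ^ 2 :=
    h1.trans (Nat.pow_le_pow_right Fintype.card_pos (i6_natDegree c d x))
  rw [h2, Nat.card_eq_fintype_card] at h3
  exact (Nat.pow_le_pow_iff_right (Fintype.one_lt_card)).mp h3

theorem finite_isCyc_M (c d : F) (n : ℕ) :
    {L : Submodule F M | IsCyc (nu (Pt c (xM K M)) d) n L}.Finite := by
  have := i6_finDim c d (xM K M)
  rw [i6_Pt_eq]
  exact finite_isCyc _ n

theorem i6_ncard (c d : F) (n : ℕ) (x : M) :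
    {L : Submodule F M | IsCyc (nu (Pg c 1 x) d) n L}.ncard ≤
      (Fintype.card F + 1) * Fintype.card F ^ n := by
  have := i6_finDim c d x
  exact ncard_isCyc_le _ (i6_finrank c d x) n

theorem i6_gact_mul (σ τ : M ≃ₐ[RatFunc K] M) (L : Submodule F M) :
    gact (σ * τ) L = gact σ (gact τ L) := by
  unfold gact fact
  rw [← Submodule.map_comp]
  rfl

theorem i6_gact_one (L : Submodule F M) : gact (1 : M ≃ₐ[RatFunc K] M) L = L := by
  unfold gact fact
  have : ((AlgEquiv.restrictScalars F (1 : M ≃ₐ[RatFunc K] M)).toLinearMap : M →ₗ[F] M) =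
      LinearMap.id := by
    ext y
    rfl
  rw [this, Submodule.map_id]

theorem i6_gact_inv (σ : M ≃ₐ[RatFunc K] M) (L : Submodule F M) :
    gact σ⁻¹ (gact σ L) = L := by
  rw [← i6_gact_mul, inv_mul_cancel, i6_gact_one]

theorem i6_sigma_x (σ : M ≃ₐ[RatFunc K] M) : σ (xM K M) = xM K M := σ.commutes _

theorem i6_gact_cyc (c d : F) (n : ℕ) (σ : M ≃ₐ[RatFunc K] M) (L : Submodule F M)
    (hL : IsCyc (nu (Pg c 1 (xM K M)) d) n L) :
    IsCyc (nu (Pg c 1 (xM K M)) d) n (gact σ L) := by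
  unfold gact fact
  apply hL.map
  · intro y _
    have h := Tw.ev_map (F := F) ((σ.restrictScalars F : M ≃ₐ[F] M) : M →ₐ[F] M)
      (Pg c 1 (xM K M) - algebraMap F (Tw F M) d) y
    rw [i6_map] at h
    have hx : ((σ.restrictScalars F : M ≃ₐ[F] M) : M →ₐ[F] M) (xM K M) = xM K M :=
      i6_sigma_x σ
    rw [hx] at h
    exact h.symm
  · intro y _ hy
    have h2 : σ y = 0 := hy
    exact (map_eq_zero_iff σ σ.injective).mp h2

theorem i6_val_F {B : ValuationSubring M} (hB : IsVal0 K B) (r : F) (hr : r ≠ 0) :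
    B.valuation (algebraMap F M r) = 1 := by
  have h1 : algebraMap F M r = algebraMap (RatFunc K) M (RatFunc.C (algebraMap F K r)) := by
    rw [IsScalarTower.algebraMap_apply F (RatFunc K) M]
    congr 1
  rw [h1]
  exact hB.const _ (fun h => hr ((map_eq_zero (algebraMap F K)).mp h))

theorem i6_x_ne : (xM K M) ≠ 0 := by
  unfold xM
  intro h
  exact RatFunc.X_ne_zero ((map_eq_zero (algebraMap (RatFunc K) M)).mp h)

/-- the orbit of an unbounded cyclic module is large -/
theorem i6_orbit (c d : F) (hcd : c ≠ d) (n : ℕ) (L : Submodule F M)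
    (hL : IsCyc (nu (Pg c 1 (xM K M)) d) n L) {B : ValuationSubring M} (hB : IsVal0 K B) (a : M)
    (ha : IsSlope (L ⊓ LinearMap.ker (nu (Pg c 1 (xM K M)) d)) a)
    (hu : 1 < B.valuation (xM K M * a ^ (Fintype.card F + 1) / algebraMap F M (d - c))) :
    Fintype.card F ^ (n + 1) ≤
      (Set.range fun σ : M ≃ₐ[RatFunc K] M => gact σ L).ncard := by
  have hF := fun r hr => i6_val_F (F := F) hB r hr
  have he : d - c ≠ 0 := sub_ne_zero.mpr (Ne.symm hcd)
  obtain ⟨z, hz, hfix⟩ := exists_chain B hF c d hcd n 1 (xM K M) a L i6_x_ne hL ha hu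
  have hline : L ⊓ LinearMap.ker (nu (Pg c 1 (xM K M)) d) ≠ ⊥ := by
    intro h
    have h1 := hL.finrank_inf_ker
    rw [h, finrank_bot] at h1
    exact absurd h1 (by norm_num)
  have hsl := slope_eq c d 1 (xM K M) a _ hline inf_le_right ha
  rw [one_mul] at hsl
  have htop := chain_top B hF (d - c) he (xM K M) a i6_x_ne hsl hu
  rw [← hz, ← pow_mul, ← pow_succ] at htop
  have hcount := le_ncard_orbit hB z (Fintype.card F ^ (n + 1))
    (pow_pos Fintype.card_pos _) htop
  refine hcount.trans ?_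
  have hcyc : ∀ σ : M ≃ₐ[RatFunc K] M, IsCyc (nu (Pg c 1 (xM K M)) d) n (gact σ L) :=
    fun σ => i6_gact_cyc c d n σ L hL
  have hfin : (Set.range fun σ : M ≃ₐ[RatFunc K] M => gact σ L).Finite := by
    apply (finite_isCyc_M (K := K) (M := M) c d n).subset
    rintro _ ⟨σ, rfl⟩
    show IsCyc (nu (Pt c (xM K M)) d) n (gact σ L)
    rw [i6_Pt_eq]
    exact hcyc σ
  have hkey : ∀ σ τ : M ≃ₐ[RatFunc K] M, gact σ L = gact τ L → σ z = τ z := by
    intro σ τ h
    have h1 : gact (τ⁻¹ * σ) L = L := by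
      rw [i6_gact_mul, h, i6_gact_inv]
    have h2 := hfix ((τ⁻¹ * σ : M ≃ₐ[RatFunc K] M).restrictScalars F) (map_one _)
      (i6_sigma_x (τ⁻¹ * σ)) h1
    have h3 : (τ⁻¹ * σ) z = z := h2
    have h4 : τ ((τ⁻¹ * σ) z) = σ z := by
      rw [← AlgEquiv.mul_apply, mul_inv_cancel_left]
    rw [← h4, h3]
  choose! s hs using fun (w : M) (hw : w ∈ Set.range fun σ : M ≃ₐ[RatFunc K] M => σ z) => hw
  apply Set.ncard_le_ncard_of_injOn (fun w => gact (s w) L)
  · intro w _
    exact ⟨s w, rfl⟩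
  · intro w hw w' hw' h
    have h1 := hkey _ _ h
    have h2 := hs w hw
    have h3 := hs w' hw'
    simp only [] at h2 h3
    rw [← h2, ← h3, h1]

/-- every cyclic module has an unbounded conjugate -/
theorem i6_unbounded (c d : F) (hcd : c ≠ d) (n : ℕ) (L : Submodule F M)
    (hL : IsCyc (nu (Pg c 1 (xM K M)) d) n L) {B : ValuationSubring M} (hB : IsVal0 K B) :
    ∃ (σ : M ≃ₐ[RatFunc K] M) (a : M),
      IsSlope (gact σ L ⊓ LinearMap.ker (nu (Pg c 1 (xM K M)) d)) a ∧
      1 < B.valuation (xM K M * a ^ (Fintype.card F + 1) / algebraMap F M (d - c)) := by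
  have hF := fun r hr => i6_val_F (F := F) hB r hr
  have he : d - c ≠ 0 := sub_ne_zero.mpr (Ne.symm hcd)
  have hline : L ⊓ LinearMap.ker (nu (Pg c 1 (xM K M)) d) ≠ ⊥ := by
    intro h
    have h1 := hL.finrank_inf_ker
    rw [h, finrank_bot] at h1
    exact absurd h1 (by norm_num)
  obtain ⟨a, ha0, ha⟩ := exists_slope _ hL.finrank_inf_ker
  have hsl := slope_eq c d 1 (xM K M) a _ hline inf_le_right ha
  rw [one_mul] at hsl
  by_cases hu : 1 < B.valuation (xM K M * a ^ (Fintype.card F + 1) / algebraMap F M (d - c))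
  · refine ⟨1, a, ?_, hu⟩
    rw [i6_gact_one]
    exact ha
  · push Not at hu
    have hmove : ∃ σ : M ≃ₐ[RatFunc K] M, σ a ≠ a := by
      by_contra hcon
      push Not at hcon
      have h1 : a ∈ Set.range (algebraMap (RatFunc K) M) :=
        (IsGalois.mem_range_algebraMap_iff_fixed a).mpr hcon
      obtain ⟨r, hr⟩ := h1
      have heK : algebraMap F K (d - c) ≠ 0 := fun h => he ((map_eq_zero (algebraMap F K)).mp h)
      apply no_rational_root (Fintype.card F) Fintype.one_lt_card (algebraMap F K (d - c)) heK r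
      apply (algebraMap (RatFunc K) M).injective
      rw [map_add, map_mul, map_pow, hr]
      have h2 : algebraMap F M (d - c) =
          algebraMap (RatFunc K) M (RatFunc.C (algebraMap F K (d - c))) := by
        rw [IsScalarTower.algebraMap_apply F (RatFunc K) M]
        congr 1
      rw [← h2]
      exact hsl
    obtain ⟨σ, hσ⟩ := hmove
    have hx : (σ.restrictScalars F : M ≃ₐ[F] M) (xM K M) = xM K M := i6_sigma_x σ
    have hslope : IsSlope (gact σ L ⊓ LinearMap.ker (nu (Pg c 1 (xM K M)) d)) (σ a) := by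
      have h1 := fact_slope (σ.restrictScalars F) _ a ha
      rw [fact_ker (σ.restrictScalars F) c d 1 (xM K M) (map_one _) hx] at h1
      exact h1
    refine ⟨σ, σ a, hslope, ?_⟩
    by_contra hb
    push Not at hb
    have hsl2 : xM K M * (σ a) ^ (Fintype.card F + 1) + σ a = algebraMap F M (d - c) := by
      have h1 := congrArg σ hsl
      rw [map_add, map_mul, map_pow, i6_sigma_x] at h1
      rw [h1]
      exact (σ.restrictScalars F).commutes (d - c)
    exact hσ (bounded_unique B hF (d - c) he (xM K M) (σ a) a hB.x hsl2 hsl hb hu)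

theorem transitive_isCyc (c d : F) (hcd : c ≠ d) (n : ℕ) (L L' : Submodule F M)
    (hL : IsCyc (nu (Pt c (xM K M)) d) n L) (hL' : IsCyc (nu (Pt c (xM K M)) d) n L') :
    ∃ σ : M ≃ₐ[RatFunc K] M, gact σ L = L' := by
  rw [i6_Pt_eq] at hL hL'
  obtain ⟨B, hB⟩ := exists_val0 (K := K) (M := M)
  obtain ⟨σ₁, a₁, ha₁, hu₁⟩ := i6_unbounded c d hcd n L hL hB
  obtain ⟨σ₂, a₂, ha₂, hu₂⟩ := i6_unbounded c d hcd n L' hL' hB
  have hc₁ := i6_gact_cyc c d n σ₁ L hL
  have hc₂ := i6_gact_cyc c d n σ₂ L' hL'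
  have ho₁ := i6_orbit c d hcd n _ hc₁ hB a₁ ha₁ hu₁
  have ho₂ := i6_orbit c d hcd n _ hc₂ hB a₂ ha₂ hu₂
  have hfin : {L : Submodule F M | IsCyc (nu (Pg c 1 (xM K M)) d) n L}.Finite := by
    have := finite_isCyc_M (K := K) (M := M) c d n
    rw [i6_Pt_eq] at this
    exact this
  have hs₁ : (Set.range fun σ : M ≃ₐ[RatFunc K] M => gact σ (gact σ₁ L)) ⊆
      {L : Submodule F M | IsCyc (nu (Pg c 1 (xM K M)) d) n L} := by
    rintro _ ⟨σ, rfl⟩
    exact i6_gact_cyc c d n σ _ hc₁
  have hs₂ : (Set.range fun σ : M ≃ₐ[RatFunc K] M => gact σ (gact σ₂ L')) ⊆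
      {L : Submodule F M | IsCyc (nu (Pg c 1 (xM K M)) d) n L} := by
    rintro _ ⟨σ, rfl⟩
    exact i6_gact_cyc c d n σ _ hc₂
  by_cases hdis : Disjoint (Set.range fun σ : M ≃ₐ[RatFunc K] M => gact σ (gact σ₁ L))
      (Set.range fun σ : M ≃ₐ[RatFunc K] M => gact σ (gact σ₂ L'))
  · exfalso
    have h1 := Set.ncard_union_eq hdis (hfin.subset hs₁) (hfin.subset hs₂)
    have h2 := Set.ncard_le_ncard (Set.union_subset hs₁ hs₂) hfin
    have h3 := i6_ncard c d n (xM K M)
    have hq : 1 < Fintype.card F := Fintype.one_lt_card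
    have hpos : 0 < Fintype.card F ^ n := pow_pos Fintype.card_pos _
    rw [pow_succ] at ho₁ ho₂
    have h4 : 2 * (Fintype.card F ^ n * Fintype.card F) ≤
        (Fintype.card F + 1) * Fintype.card F ^ n := by omega
    have h5 : (Fintype.card F + 1) * Fintype.card F ^ n <
        2 * (Fintype.card F ^ n * Fintype.card F) := by
      calc (Fintype.card F + 1) * Fintype.card F ^ n
          < (Fintype.card F + Fintype.card F) * Fintype.card F ^ n :=
            Nat.mul_lt_mul_of_pos_right (by omega) hpos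
        _ = 2 * (Fintype.card F ^ n * Fintype.card F) := by ring
    omega
  · rw [Set.not_disjoint_iff] at hdis
    obtain ⟨L₀, ⟨σ, hσ⟩, ⟨τ, hτ⟩⟩ := hdis
    simp only [] at hσ hτ
    refine ⟨σ₂⁻¹ * (τ⁻¹ * (σ * σ₁)), ?_⟩
    rw [i6_gact_mul, i6_gact_mul, i6_gact_mul, hσ, ← hτ, i6_gact_inv, i6_gact_inv]

end Pool.Agent.H9.Ram
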