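import Pool.Agent.H9.Ram.Defs

/-!
# Definitions for the lifting part: twisted polynomials over `W = K⟦s⟧`
-/

open Polynomial

noncomputable section

namespace Pool.Agent.H9.Ram

variable (F : Type*) {K : Type*} [Field F] [Fintype F] [Field K] [Algebra F K]

/-- Constant coefficient, as an `F`-algebra morphism. -/
def cc : PowerSeries K →ₐ[F] K where
  toRingHom := PowerSeries.constantCoeff
  commutes' r := by
    show PowerSeries.constantCoeff (algebraMap F (PowerSeries K) r) = _
    rw [PowerSeries.algebraMap_apply]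
    simp

/-- Constants, as an `F`-algebra morphism. -/
def cst : K →ₐ[F] PowerSeries K where
  toRingHom := PowerSeries.C
  commutes' r := by
    show PowerSeries.C (algebraMap F K r) = _
    rw [PowerSeries.algebraMap_apply]

variable {F}

/-- `t + g τ + τ²`. -/
def Pm {R : Type*} [CommRing R] [Algebra F R] (t g : R) : Tw F R :=
  Tw.C t + Tw.C g * Tw.T + Tw.T ^ 2

/-- All coefficients are divisible by `s ^ m`. -/
def Dv (m : ℕ) (A : Tw F (PowerSeries K)) : Prop := ∀ i j, j < m → PowerSeries.coeff j (A.coeff i) = 0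

/-- The `s ^ m`-coefficient of `A`. -/
def lm (m : ℕ) (A : Tw F (PowerSeries K)) : Tw F K :=
  ∑ i ∈ Finset.range (A.natDegree + 1), Tw.C (PowerSeries.coeff m (A.coeff i)) * Tw.T ^ i

/-- `s ^ m y`. -/
def emb (m : ℕ) (y : Tw F K) : Tw F (PowerSeries K) :=
  Tw.C (PowerSeries.X ^ m) * Tw.map (cst F) y

end Pool.Agent.H9.Ram
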