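import Pool.Agent.H9.Ram.L0

/-!
# Module L2: solving the linearized equations

In `H = K{τ}`: `G = G₀` commutes with `T² = τ²`, `θ = G.coeff 0`, `G² - a(T²) G + b(T²) = 0`. Write `a₁ = a.divX`,
`b₁ = b.divX`, so `a = a(0) + X a₁`. Consider the commuting operators on `H`: `R_G` (right multiplication by `G`),
`R_{T²}`, `L_θ` (left multiplication by `θ`), and `𝒢 = R_G - L_θ`, `Δ₂ = R_G + L_θ - a(0)`,
`Δ₁ = - R_{a₁(T²)} R_G + R_{b₁(T²)}`. Then `𝒢 Δ₂ + R_{T²} Δ₁ = 0` (quadratic equation of `G`, and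
`θ² - a(0) θ + b(0) = 0`, its constant coefficient). Note `f * a₁(T²) * G = f * G * a₁(T²)`.
Given `E, N ∈ H` with zero constant coefficient, `natDegree E ≤ d + 1`, `d = natDegree G`, and the compatibility conditions
 (I1) `𝒢 N = Δ₁ E`, (I2) `N T² = - Δ₂ E`, we solve
 (1) `E + 𝒢 x - y T² = 0`, (2) `N + Δ₂ y + Δ₁ x = 0` with `x = x₁ τ`, `y.coeff 0 = 0`, `y.coeff i = 0` for `i ≥ d`.
Case `D = 2θ - a(0) ≠ 0`: `x = D⁻¹ E`, `y = - D⁻¹ N` (left multiplication by `D⁻¹` commutes with everything;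
 `𝒢 - Δ₂ = - L_D`): (1) `E + D⁻¹ 𝒢E + D⁻¹ N T² = E + D⁻¹(𝒢 E - Δ₂ E) = 0`;
 (2) `N - D⁻¹ Δ₂ N + D⁻¹ Δ₁ E = N - D⁻¹ (Δ₂ N - 𝒢 N) = 0`.
Case `θ ∈ F`, `a(0) = 2 θ`, `D = - a₁(0) θ + b₁(0) ≠ 0` (in `F`): then `Δ₂ = 𝒢`,
 `Δ₁ = - R_{a₁(T²)} 𝒢 + D + R_{T² v(T²)}`, where `- θ a₁ + b₁ = D + X v` (`v = (-θ a₁ + b₁).divX`). Take
 `x = - D⁻¹ (E a₁(T²) + N)`, `y = - D⁻¹ E v(T²)`:
 (1) `E - D⁻¹(𝒢 E a₁ + 𝒢 N - E v T²) = E - D⁻¹ (𝒢 a₁ + Δ₁ - v T²) E = E - D⁻¹ D E = 0`;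
 (2) `N - D⁻¹ [𝒢 E v + Δ₁ E a₁ + Δ₁ N]`, `Δ₁ N = - a₁ 𝒢 N + D N + N T² v = - a₁ Δ₁ E + D N - v Δ₂ E`, so the
 bracket is `D N` (`Δ₂ = 𝒢`).
Both solutions have zero constant coefficients. Reduction: `x = x₁ τ + z T²` with `z_i = x_{i+2}`; replace `(x, y)`
by `(x - z T², y - 𝒢 z)`; (1) is unchanged (`𝒢 (z T²) = (𝒢 z) T²`) and (2) too (`Δ₂ 𝒢 z + Δ₁ z T² = 0`); the constant
coefficient of `𝒢 z = z G - θ z` is `0`. Finally from (1), `y T² = E + x₁ τ G - θ x₁ τ` has degree `≤ d + 1`, so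
`y_i = 0` for `i + 2 > d + 1`, i.e. for `i ≥ d`.
-/

open Polynomial

noncomputable section

namespace Pool.Agent.H9.Ram

variable {F : Type*} {K : Type*} [Field F] [Fintype F] [Field K] [Algebra F K]


theorem l2_red1 {A : Type*} [Ring A] (E x y z G S Θ : A) (hSG : S * G = G * S)
    (h1 : E + (x * G - Θ * x) - y * S = 0) :
    E + ((x - z * S) * G - Θ * (x - z * S)) - (y - (z * G - Θ * z)) * S = 0 := by
  linear_combination (norm := noncomm_ring) h1 - z * hSG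

theorem l2_red2 {A : Type*} [Ring A] (N x y z G S Θ a0 b0 A1 B1 : A)
    (ha0 : a0 * z = z * a0) (hb0 : b0 * z = z * b0)
    (hSA : S * A1 = A1 * S) (hSB : S * B1 = B1 * S)
    (hq : G * G - (A1 * S + a0) * G + (B1 * S + b0) = 0)
    (hθ : Θ * Θ - a0 * Θ + b0 = 0)
    (h2 : N + (y * G + Θ * y - a0 * y) + (-(x * A1 * G) + x * B1) = 0) :
    N + ((y - (z * G - Θ * z)) * G + Θ * (y - (z * G - Θ * z)) - a0 * (y - (z * G - Θ * z))) +
      (-((x - z * S) * A1 * G) + (x - z * S) * B1) = 0 := by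
  linear_combination (norm := noncomm_ring) h2 - z * hq + hθ * z + ha0 * G - hb0 + z * hSA * G - z * hSB

theorem l2_case1a {A : Type*} [Ring A] (E N G S Θ a0 δ D : A) (hδΘ : δ * Θ = Θ * δ) (hD : δ * D = 1) (hD2 : D = 2 * Θ - a0)
    (hI2 : N * S = -(E * G + Θ * E - a0 * E)) :
    E + (δ * E * G - Θ * (δ * E)) - (-(δ * N)) * S = 0 := by
  subst hD2
  linear_combination (norm := noncomm_ring) δ * hI2 + hδΘ * E - hD * E

theorem l2_case1b {A : Type*} [Ring A] (E N G Θ a0 δ D A1 B1 : A) (hδΘ : δ * Θ = Θ * δ) (hδa : δ * a0 = a0 * δ)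
    (hD : δ * D = 1) (hD2 : D = 2 * Θ - a0)
    (hI1 : N * G - Θ * N = -(E * A1 * G) + E * B1) :
    N + ((-(δ * N)) * G + Θ * (-(δ * N)) - a0 * (-(δ * N))) + (-(δ * E * A1 * G) + δ * E * B1) = 0 := by
  subst hD2
  linear_combination (norm := noncomm_ring) - δ * hI1 + hδΘ * N - hD * N - hδa * N

theorem l2_case2a {A : Type*} [Ring A] (E N G S Θ Di Dc A1 B1 V : A) (hΘE : Θ * E = E * Θ)  
    (hD : Di * Dc = 1) (hDcE : Dc * E = E * Dc) (hDiΘ : Di * Θ = Θ * Di)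
    (hV : -(Θ * A1) + B1 = V * S + Dc)
    (hI1 : N * G - Θ * N = -(E * A1 * G) + E * B1) :
    E + ((-(Di * (E * A1 + N))) * G - Θ * (-(Di * (E * A1 + N)))) - (-(Di * (E * V))) * S = 0 := by
  linear_combination (norm := noncomm_ring) - Di * hI1 - Di * E * hV + Di * hΘE * A1 - hD * E 
    + Di * hDcE - hDiΘ * E * A1 - hDiΘ * N

theorem l2_case2b {A : Type*} [Ring A] (E N G S Θ a0 Di Dc A1 B1 V : A) (_hΘE : Θ * E = E * Θ) (hΘN : Θ * N = N * Θ)
    (hD : Di * Dc = 1) (hDcN : Dc * N = N * Dc) (hDiΘ : Di * Θ = Θ * Di)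
    (ha0 : a0 = 2 * Θ) (hAG : A1 * G = G * A1) (hAB : A1 * B1 = B1 * A1) (hVG : V * G = G * V)
    (hVS : V * S = S * V)
    (hV : -(Θ * A1) + B1 = V * S + Dc)
    (hI1 : N * G - Θ * N = -(E * A1 * G) + E * B1)
    (hI2 : N * S = -(E * G + Θ * E - a0 * E)) :
    N + ((-(Di * (E * V))) * G + Θ * (-(Di * (E * V))) - a0 * (-(Di * (E * V)))) +
      (-((-(Di * (E * A1 + N))) * A1 * G) + (-(Di * (E * A1 + N))) * B1) = 0 := by
  subst ha0
  linear_combination (norm := noncomm_ring) Di * hI1 * A1 - Di * N * hV - Di * hI2 * V - Di * N * hVS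
    + Di * N * hAG + Di * E * A1 * hAG - Di * E * hAB + Di * hΘN * A1 - hD * N + Di * hDcN
    - Di * E * hVG - hDiΘ * E * V

theorem l2_comm {A : Type*} [Ring A] [Algebra F A] (S G : A) (h : S * G = G * S) (p : F[X]) :
    aeval S p * G = G * aeval S p := by
  induction p using Polynomial.induction_on' with
  | add p q hp hq => rw [map_add, add_mul, mul_add, hp, hq]
  | monomial n r =>
    rw [Polynomial.aeval_monomial, mul_assoc, ← mul_assoc G, ← Algebra.commutes r G, mul_assoc]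
    congr 1
    exact (Commute.pow_left h n)

theorem l2_split (x : Tw F K) (h0 : x.coeff 0 = 0) :
    ∃ z : Tw F K, x = Tw.C (x.coeff 1) * Tw.T + z * Tw.T ^ 2 := by
  refine ⟨⟨x.poly.divX.divX⟩, ?_⟩
  apply Tw.ext_coeff
  intro n
  have hz : ∀ i, (⟨x.poly.divX.divX⟩ : Tw F K).coeff i = x.coeff (i + 2) := by
    intro i
    show (x.poly.divX.divX).coeff i = x.poly.coeff (i + 2)
    rw [Polynomial.coeff_divX, Polynomial.coeff_divX]
  rw [Tw.coeff_add, Tw.coeff_C_mul, Tw.coeff_T, Tw.coeff_mul_T_pow]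
  rcases n with _ | _ | n
  · simp [h0]
  · simp
  · rw [if_neg (by omega), if_pos (by omega), hz]
    simp

theorem l2_coeff_zero_divX (p : F[X]) (S : Tw F K) :
    aeval S p = aeval S p.divX * S + algebraMap F (Tw F K) (p.coeff 0) := by
  conv_lhs => rw [← Polynomial.divX_mul_X_add p]
  rw [map_add, map_mul, Polynomial.aeval_X, Polynomial.aeval_C]

theorem l2_const (G : Tw F K) (a b : F[X])
    (hquad : G ^ 2 - aeval (Tw.T ^ 2 : Tw F K) a * G + aeval (Tw.T ^ 2 : Tw F K) b = 0) :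
    (G.coeff 0) * (G.coeff 0) - algebraMap F K (a.coeff 0) * G.coeff 0 +
      algebraMap F K (b.coeff 0) = 0 := by
  have h := congrArg (fun f : Tw F K => f.coeff 0) hquad
  simp only [Tw.coeff_add, Tw.coeff_sub, pow_two, Tw.coeff_mul_zero, Tw.coeff_zero'] at h
  have hs : ((Tw.T * Tw.T : Tw F K)).coeff 0 = 0 := by
    rw [Tw.coeff_mul_zero, Tw.coeff_T]; simp
  rw [Tw.coeff_aeval_zero, Tw.coeff_aeval_zero, hs, ← Polynomial.coeff_zero_eq_aeval_zero',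
    ← Polynomial.coeff_zero_eq_aeval_zero'] at h
  exact h

theorem solve_linear (G : Tw F K) (a b : F[X]) (hcomm : Tw.T ^ 2 * G = G * Tw.T ^ 2)
    (hquad : G ^ 2 - aeval (Tw.T ^ 2 : Tw F K) a * G + aeval (Tw.T ^ 2 : Tw F K) b = 0)
    (hcase : 2 * G.coeff 0 - algebraMap F K (a.coeff 0) ≠ 0 ∨
      ∃ r : F, algebraMap F K r = G.coeff 0 ∧ a.coeff 0 = 2 * r ∧ -(r * a.coeff 1) + b.coeff 1 ≠ 0)
    (E N : Tw F K) (hE0 : E.coeff 0 = 0) (hN0 : N.coeff 0 = 0) (hEd : E.natDegree ≤ G.natDegree + 1)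
    (hI1 : N * G - Tw.C (G.coeff 0) * N =
      -(E * aeval (Tw.T ^ 2 : Tw F K) a.divX * G) + E * aeval (Tw.T ^ 2 : Tw F K) b.divX)
    (hI2 : N * Tw.T ^ 2 = -(E * G + Tw.C (G.coeff 0) * E - algebraMap F (Tw F K) (a.coeff 0) * E)) :
    ∃ (x₁ : K) (y : Tw F K), y.coeff 0 = 0 ∧ (∀ i, G.natDegree ≤ i → y.coeff i = 0) ∧
      E + (Tw.C x₁ * Tw.T * G - Tw.C (G.coeff 0) * (Tw.C x₁ * Tw.T)) - y * Tw.T ^ 2 = 0 ∧
      N + (y * G + Tw.C (G.coeff 0) * y - algebraMap F (Tw F K) (a.coeff 0) * y) +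
        (-(Tw.C x₁ * Tw.T * aeval (Tw.T ^ 2 : Tw F K) a.divX * G) +
          Tw.C x₁ * Tw.T * aeval (Tw.T ^ 2 : Tw F K) b.divX) = 0 := by
  set S : Tw F K := Tw.T ^ 2 with hS
  set Θ : Tw F K := Tw.C (G.coeff 0) with hΘ
  set A1 : Tw F K := aeval S a.divX with hA1
  set B1 : Tw F K := aeval S b.divX with hB1
  set a0 : Tw F K := algebraMap F (Tw F K) (a.coeff 0) with ha0
  set b0 : Tw F K := algebraMap F (Tw F K) (b.coeff 0) with hb0
  have ha0c : a0 = Tw.C (algebraMap F K (a.coeff 0)) := Tw.algebraMap_apply _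
  have hb0c : b0 = Tw.C (algebraMap F K (b.coeff 0)) := Tw.algebraMap_apply _
  have hca : ∀ z : Tw F K, a0 * z = z * a0 := fun z => Algebra.commutes _ z
  have hcb : ∀ z : Tw F K, b0 * z = z * b0 := fun z => Algebra.commutes _ z
  have hAG : A1 * G = G * A1 := l2_comm S G hcomm _
  have hSA : S * A1 = A1 * S := (l2_comm S S rfl _).symm
  have hSB : S * B1 = B1 * S := (l2_comm S S rfl _).symm
  have hAB : A1 * B1 = B1 * A1 := l2_comm S B1 hSB _
  have hq : G * G - (A1 * S + a0) * G + (B1 * S + b0) = 0 := by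
    have h := hquad
    rw [l2_coeff_zero_divX a S, l2_coeff_zero_divX b S, pow_two] at h
    exact h
  have hθ : Θ * Θ - a0 * Θ + b0 = 0 := by
    have h := l2_const G a b hquad
    rw [ha0c, hb0c, hΘ, ← map_mul, ← map_mul, ← map_sub, ← map_add, h, map_zero]
  have hgen : ∃ x y : Tw F K, x.coeff 0 = 0 ∧ y.coeff 0 = 0 ∧
      E + (x * G - Θ * x) - y * S = 0 ∧
      N + (y * G + Θ * y - a0 * y) + (-(x * A1 * G) + x * B1) = 0 := by
    rcases hcase with hD | ⟨r, hr, har, hD⟩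
    · set d : K := 2 * G.coeff 0 - algebraMap F K (a.coeff 0) with hd
      set δ : Tw F K := Tw.C d⁻¹ with hδ
      have h1 : δ * Θ = Θ * δ := by rw [hδ, hΘ, ← map_mul, ← map_mul, mul_comm]
      have h2 : δ * a0 = a0 * δ := (hca δ).symm
      have h3 : δ * Tw.C d = 1 := by rw [hδ, ← map_mul, inv_mul_cancel₀ hD, map_one]
      have h4 : Tw.C d = 2 * Θ - a0 := by
        rw [hd, map_sub, map_mul, ha0c, hΘ]
        congr 2
      refine ⟨δ * E, -(δ * N), ?_, ?_, ?_, ?_⟩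
      · rw [hδ, Tw.coeff_C_mul, hE0, mul_zero]
      · rw [hδ, Tw.coeff_neg, Tw.coeff_C_mul, hN0, mul_zero, neg_zero]
      · exact l2_case1a E N G S Θ a0 δ (Tw.C d) h1 h3 h4 hI2
      · exact l2_case1b E N G Θ a0 δ (Tw.C d) A1 B1 h1 h2 h3 h4 hI1
    · have hΘr : Θ = algebraMap F (Tw F K) r := by
        rw [hΘ, ← hr]; exact (Tw.algebraMap_apply r).symm
      have hcΘ : ∀ z : Tw F K, Θ * z = z * Θ := fun z => by
        rw [hΘr]; exact Algebra.commutes _ z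
      set D : F := -(r * a.coeff 1) + b.coeff 1 with hDdef
      set Dc : Tw F K := algebraMap F (Tw F K) D with hDc
      set Di : Tw F K := algebraMap F (Tw F K) D⁻¹ with hDi
      have hcD : ∀ z : Tw F K, Dc * z = z * Dc := fun z => Algebra.commutes _ z
      have hcDi : ∀ z : Tw F K, Di * z = z * Di := fun z => Algebra.commutes _ z
      have hDD : Di * Dc = 1 := by rw [hDi, hDc, ← map_mul, inv_mul_cancel₀ hD, map_one]
      set w : F[X] := -(Polynomial.C r * a.divX) + b.divX with hw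
      set V : Tw F K := aeval S w.divX with hV
      have hVG : V * G = G * V := l2_comm S G hcomm _
      have hVS : V * S = S * V := l2_comm S S rfl _
      have hVeq : -(Θ * A1) + B1 = V * S + Dc := by
        have h5 := l2_coeff_zero_divX w S
        have h6 : w.coeff 0 = D := by
          rw [hw, hDdef, Polynomial.coeff_add, Polynomial.coeff_neg, Polynomial.coeff_C_mul,
            Polynomial.coeff_divX, Polynomial.coeff_divX]
        rw [h6] at h5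
        rw [← h5, hw, map_add, map_neg, map_mul, Polynomial.aeval_C, hΘr]
      have ha2 : a0 = 2 * Θ := by
        rw [ha0, har, map_mul, hΘr]
        congr 1
        exact map_ofNat _ 2
      refine ⟨-(Di * (E * A1 + N)), -(Di * (E * V)), ?_, ?_, ?_, ?_⟩
      · rw [Tw.coeff_neg, Tw.coeff_mul_zero, Tw.coeff_add, Tw.coeff_mul_zero, hE0, hN0]
        simp
      · rw [Tw.coeff_neg, Tw.coeff_mul_zero, Tw.coeff_mul_zero, hE0]
        simp
      · exact l2_case2a E N G S Θ Di Dc A1 B1 V (hcΘ E) hDD (hcD E) (hcDi Θ) hVeq hI1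
      · exact l2_case2b E N G S Θ a0 Di Dc A1 B1 V (hcΘ E) (hcΘ N) hDD (hcD N) (hcDi Θ) ha2 hAG hAB
          hVG hVS hVeq hI1 hI2
  obtain ⟨x, y, hx0, hy0, h1, h2⟩ := hgen
  obtain ⟨z, hz⟩ := l2_split x hx0
  have hxz : Tw.C (x.coeff 1) * Tw.T = x - z * S := by
    rw [eq_sub_iff_add_eq]; exact hz.symm
  have h1' := l2_red1 E x y z G S Θ hcomm h1
  have h2' := l2_red2 N x y z G S Θ a0 b0 A1 B1 (hca z) (hcb z) hSA hSB hq hθ h2
  rw [← hxz] at h1' h2'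
  refine ⟨x.coeff 1, y - (z * G - Θ * z), ?_, ?_, h1', h2'⟩
  · rw [Tw.coeff_sub, Tw.coeff_sub, Tw.coeff_mul_zero, Tw.coeff_mul_zero, hy0, hΘ, Tw.coeff_C_zero]
    ring
  · intro i hi
    have h3 := congrArg (fun f : Tw F K => f.coeff (i + 2)) h1'
    simp only [Tw.coeff_sub, Tw.coeff_add, Tw.coeff_zero'] at h3
    rw [hS, Tw.coeff_mul_T_pow, if_pos (by omega), Tw.coeff_eq_zero_of_natDegree_lt (by omega : E.natDegree < i + 2),
      mul_assoc (Tw.C (x.coeff 1)) Tw.T G, Tw.coeff_C_mul, Tw.coeff_T_mul, if_neg (by omega),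
      Tw.coeff_eq_zero_of_natDegree_lt (by omega : G.natDegree < i + 2 - 1), map_zero, hΘ, Tw.coeff_C_mul,
      Tw.coeff_C_mul, Tw.coeff_T, if_neg (by omega)] at h3
    simp only [Nat.add_sub_cancel, Tw.coeff_sub] at h3 ⊢
    linear_combination -h3


end Pool.Agent.H9.Ram
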