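import Pool.Agent.H9.Ram.L1
import Pool.Agent.H9.Ram.L2

/-!
# Module L3: one lifting step

Data: `tW` with zero constant term, `γW` with constant term `θ = G.coeff 0` on the curve
`γW² - a(tW) γW + b(tW) = 0`. `P = Pm tW g`, `g(0) = 0`, `Q ∈ K⟦s⟧{τ}` with `Q.coeff 0 = γW`, `Q ≡ G mod s`,
`Q.coeff i = 0` for `i > d = natDegree G`, `Q.coeff d = C (G.coeff d)`. Let `E = P Q - Q P`, `N = Q² - a(P) Q + b(P)`,
both divisible by `s^m` (`m ≥ 1`). Then
* `E.coeff 0 = 0`, `N.coeff 0 = 0` (constant coefficients are multiplicative, `Tw.coeff_aeval_zero`).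
* `natDegree E ≤ d + 1`: the coefficient of index `d + 2` is `Q_d^(q²) - Q_d = 0` (`Q_d` is a constant of `F_{q²}`,
  because `G` commutes with `τ²`, `Tw.T_pow_mul_comm_iff`).
* with `Ē = lm m E`, `N̄ = lm m N`: (I2) from `P N - N P = E Q + Q E - a(P) E`; (I1) from
  `Q N - N Q = (a(P) Q - Q a(P)) Q - (b(P) Q - Q b(P))` and `lm_aeval_comm`, using `lm_mul_left/right`.
* take `x₁, y` from `solve_linear` and put `P' = Pm tW (g + s^m x₁)`, `Q' = Q + emb m y`. Then
  `lm m (P'Q' - Q'P') = Ē + x G - θ x - y T² = 0` with `x = x₁ τ`, and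
  `lm m (Q'² - a(P')Q' + b(P')) = N̄ + y G + θ y - a(0) y - x a₁(T²) G + x b₁(T²) = 0` (`lm_aeval_sub`), so both are
  divisible by `s^(m+1)`.
-/

open Polynomial

noncomputable section

namespace Pool.Agent.H9.Ram

variable {F : Type*} {K : Type*} [Field F] [Fintype F] [Field K] [Algebra F K]

/-- An approximate lift modulo `s ^ m`. -/
def Approx (G : Tw F K) (a b : F[X]) (tW γW : PowerSeries K) (m : ℕ) (g : PowerSeries K)
    (Q : Tw F (PowerSeries K)) : Prop :=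
  cc F g = 0 ∧ Q.coeff 0 = γW ∧ Tw.map (cc F) Q = G ∧ (∀ i, G.natDegree < i → Q.coeff i = 0) ∧
  Q.coeff G.natDegree = PowerSeries.C (G.coeff G.natDegree) ∧
  Dv m (Pm tW g * Q - Q * Pm tW g) ∧ Dv m (Q ^ 2 - aeval (Pm tW g) a * Q + aeval (Pm tW g) b)

theorem l3_algC {R : Type*} [CommRing R] [Algebra F R] (r : F) :
    algebraMap F (Tw F R) r = Tw.C (algebraMap F R r) := rfl

theorem l3_Pm_coeff {R : Type*} [CommRing R] [Algebra F R] (t g : R) (n : ℕ) :
    (Pm t g : Tw F R).coeff n =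
      (if n = 0 then t else 0) + g * (if n = 1 then 1 else 0) + (if n = 2 then 1 else 0) := by
  rw [Pm, Tw.coeff_add, Tw.coeff_add, Tw.coeff_C, Tw.coeff_C_mul, Tw.coeff_T, Tw.coeff_T_pow]

theorem l3_Pm_zero {R : Type*} [CommRing R] [Algebra F R] (t g : R) :
    (Pm t g : Tw F R).coeff 0 = t := by rw [l3_Pm_coeff]; simp

theorem l3_Pm_two {R : Type*} [CommRing R] [Algebra F R] (t g : R) :
    (Pm t g : Tw F R).coeff 2 = 1 := by rw [l3_Pm_coeff]; simp

theorem l3_Pm_deg {R : Type*} [CommRing R] [Algebra F R] (t g : R) :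
    (Pm t g : Tw F R).natDegree ≤ 2 := by
  rw [Tw.natDegree_le_iff]
  intro n hn
  rw [l3_Pm_coeff, if_neg (by omega), if_neg (by omega), if_neg (by omega)]
  simp

theorem l3_map_Pm {tW g : PowerSeries K} (htW : cc F tW = 0) (hg : cc F g = 0) :
    Tw.map (cc F) (Pm tW g) = Tw.T ^ 2 := by
  rw [Pm, map_add, map_add, map_mul, map_pow, Tw.map_C, Tw.map_C, Tw.map_T, htW, hg, map_zero]
  simp

theorem l3_map_aeval (P : Tw F (PowerSeries K)) (a : F[X]) :
    Tw.map (cc F) (aeval P a) = aeval (Tw.map (cc F) P) a :=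
  (Polynomial.aeval_algHom_apply (Tw.map (cc F)) P a).symm

theorem l3_cc_aeval (tW : PowerSeries K) (htW : cc F tW = 0) (a : F[X]) :
    cc F (aeval tW a) = algebraMap F K (a.coeff 0) := by
  rw [← Polynomial.aeval_algHom_apply, htW, Polynomial.aeval_def, Polynomial.eval₂_at_zero]

theorem approx_one (G : Tw F K) (a b : F[X]) (tW γW : PowerSeries K)
    (hcomm : Tw.T ^ 2 * G = G * Tw.T ^ 2)
    (hquad : G ^ 2 - aeval (Tw.T ^ 2 : Tw F K) a * G + aeval (Tw.T ^ 2 : Tw F K) b = 0)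
    (htW : cc F tW = 0) (hγW : cc F γW = G.coeff 0)
    (hd : G.natDegree = 0 → γW = PowerSeries.C (G.coeff 0)) :
    ∃ (g : PowerSeries K) (Q : Tw F (PowerSeries K)), Approx G a b tW γW 1 g Q := by
  have hmap : Tw.map (cc F) (Tw.C (γW - PowerSeries.C (G.coeff 0)) + Tw.map (cst F) G) = G := by
    rw [map_add, map_cc_cst, Tw.map_C, map_sub, hγW, ← cst_apply (F := F), cc_cst, sub_self,
      map_zero, zero_add]
  refine ⟨0, Tw.C (γW - PowerSeries.C (G.coeff 0)) + Tw.map (cst F) G, map_zero _, ?_, hmap, ?_, ?_,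
    ?_, ?_⟩
  · rw [Tw.coeff_add, Tw.coeff_C_zero, Tw.coeff_map, cst_apply, sub_add_cancel]
  · intro i hi
    rw [Tw.coeff_add, Tw.coeff_C, if_neg (by omega), Tw.coeff_map,
      Tw.coeff_eq_zero_of_natDegree_lt hi, map_zero, add_zero]
  · by_cases h0 : G.natDegree = 0
    · rw [h0, Tw.coeff_add, Tw.coeff_C_zero, Tw.coeff_map, cst_apply, sub_add_cancel]
      exact hd h0
    · rw [Tw.coeff_add, Tw.coeff_C, if_neg h0, Tw.coeff_map, cst_apply, zero_add]
  · rw [Dv_one_iff, map_sub, map_mul, map_mul, hmap, l3_map_Pm htW (map_zero _), hcomm, sub_self]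
  · rw [Dv_one_iff, map_add, map_sub, map_mul, map_pow, hmap, l3_map_aeval, l3_map_aeval,
      l3_map_Pm htW (map_zero _), hquad]

theorem l3_E_coeff (G : Tw F K) (hcomm : Tw.T ^ 2 * G = G * Tw.T ^ 2) (tW g : PowerSeries K)
    (Q : Tw F (PowerSeries K)) (hQ : ∀ i, G.natDegree < i → Q.coeff i = 0)
    (hQd : Q.coeff G.natDegree = PowerSeries.C (G.coeff G.natDegree)) (n : ℕ)
    (hn : G.natDegree + 1 < n) : (Pm tW g * Q - Q * Pm tW g).coeff n = 0 := by
  have hQdeg : Q.natDegree ≤ G.natDegree := Tw.natDegree_le_iff.2 hQ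
  have hP := l3_Pm_deg (F := F) tW g
  rw [Tw.coeff_sub]
  by_cases h : n = G.natDegree + 2
  · subst h
    have h1 : (Pm tW g * Q).coeff (G.natDegree + 2) = PowerSeries.C (G.coeff G.natDegree) := by
      rw [add_comm, Tw.coeff_mul_of_le hP hQdeg, l3_Pm_two, one_mul, hQd, ← map_pow,
        (Tw.T_pow_mul_comm_iff 2 G).1 hcomm]
    have h2 : (Q * Pm tW g).coeff (G.natDegree + 2) = PowerSeries.C (G.coeff G.natDegree) := by
      rw [Tw.coeff_mul_of_le hQdeg hP, l3_Pm_two, one_pow, mul_one, hQd]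
    rw [h1, h2, sub_self]
  · rw [Tw.coeff_eq_zero_of_natDegree_lt, Tw.coeff_eq_zero_of_natDegree_lt, sub_self]
    · have := Tw.natDegree_mul_le Q (Pm tW g); omega
    · have := Tw.natDegree_mul_le (Pm tW g) Q; omega

theorem approx_succ (G : Tw F K) (a b : F[X]) (tW γW : PowerSeries K)
    (hcomm : Tw.T ^ 2 * G = G * Tw.T ^ 2)
    (hquad : G ^ 2 - aeval (Tw.T ^ 2 : Tw F K) a * G + aeval (Tw.T ^ 2 : Tw F K) b = 0)
    (hcase : 2 * G.coeff 0 - algebraMap F K (a.coeff 0) ≠ 0 ∨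
      ∃ r : F, algebraMap F K r = G.coeff 0 ∧ a.coeff 0 = 2 * r ∧ -(r * a.coeff 1) + b.coeff 1 ≠ 0)
    (htW : cc F tW = 0) (hγW : cc F γW = G.coeff 0)
    (hcurve : γW ^ 2 - aeval tW a * γW + aeval tW b = 0)
    (m : ℕ) (hm : 1 ≤ m) (g : PowerSeries K) (Q : Tw F (PowerSeries K))
    (h : Approx G a b tW γW m g Q) :
    ∃ (g' : PowerSeries K) (Q' : Tw F (PowerSeries K)), Approx G a b tW γW (m + 1) g' Q' ∧
      (∀ j, j < m → PowerSeries.coeff j g' = PowerSeries.coeff j g) ∧ Dv m (Q' - Q) := by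
  obtain ⟨hg, hQ0, hQG, hQi, hQd, hE, hN⟩ := h
  obtain ⟨P, hP⟩ : ∃ P : Tw F (PowerSeries K), P = Pm tW g := ⟨_, rfl⟩
  obtain ⟨E, hEdef⟩ : ∃ E : Tw F (PowerSeries K), E = Pm tW g * Q - Q * Pm tW g := ⟨_, rfl⟩
  obtain ⟨N, hNdef⟩ : ∃ N : Tw F (PowerSeries K),
    N = Q ^ 2 - aeval (Pm tW g) a * Q + aeval (Pm tW g) b := ⟨_, rfl⟩
  rw [← hEdef] at hE
  rw [← hNdef] at hN
  rw [← hP] at hEdef hNdef
  have hP0 : P.coeff 0 = tW := by rw [hP, l3_Pm_zero]
  have hPcc : Tw.map (cc F) P = Tw.T ^ 2 := by rw [hP]; exact l3_map_Pm htW hg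
  have hA0 : ∀ f : F[X], cc F ((aeval P f).coeff 0) = algebraMap F K (f.coeff 0) := by
    intro f
    rw [Tw.coeff_aeval_zero, hP0, l3_cc_aeval tW htW]
  have hPa : ∀ f : F[X], P * aeval P f = aeval P f * P := by
    intro f
    have h0 : P = aeval P (X : F[X]) := (Polynomial.aeval_X (R := F) P).symm
    calc P * aeval P f = aeval P (X : F[X]) * aeval P f := by rw [← h0]
      _ = aeval P f * aeval P (X : F[X]) := by rw [← map_mul, ← map_mul, mul_comm]
      _ = aeval P f * P := by rw [← h0]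
  have hEc := lm_aeval_comm hm P Q (by rw [← hEdef]; exact hE) hPcc
  rw [← hEdef] at hEc
  -- the linearized equations
  have hI1 : lm m N * G - Tw.C (G.coeff 0) * lm m N =
      -(lm m E * aeval (Tw.T ^ 2 : Tw F K) a.divX * G) + lm m E * aeval (Tw.T ^ 2 : Tw F K) b.divX := by
    have h1 : Q * N - N * Q = (aeval P a * Q - Q * aeval P a) * Q -
        (aeval P b * Q - Q * aeval P b) := by
      rw [hNdef]; noncomm_ring
    have h2 := congrArg (lm m) h1
    rw [lm_sub, lm_sub, lm_mul_left hm hN, lm_mul_right hm hN, lm_mul_right hm (hEc a).1, (hEc a).2,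
      (hEc b).2, hQ0, hγW, hQG] at h2
    rw [← neg_sub, h2]
    abel
  have hI2 : lm m N * Tw.T ^ 2 = -(lm m E * G + Tw.C (G.coeff 0) * lm m E -
      algebraMap F (Tw F K) (a.coeff 0) * lm m E) := by
    have h1 : P * N - N * P = E * Q + Q * E - aeval P a * E := by
      have e1 : P * N = P * Q * Q - P * aeval P a * Q + P * aeval P b := by
        rw [hNdef]; noncomm_ring
      have e2 : N * P = Q * Q * P - aeval P a * Q * P + aeval P b * P := by
        rw [hNdef]; noncomm_ring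
      rw [e1, e2, hPa, hPa, hEdef]; noncomm_ring
    have h2 := congrArg (lm m) h1
    rw [lm_sub, lm_sub, lm_add, lm_mul_left hm hN, lm_mul_right hm hN, lm_mul_right hm hE,
      lm_mul_left hm hE, lm_mul_left hm hE, hP0, htW, hQ0, hγW, hQG, hPcc, hA0, map_zero,
      zero_mul, zero_sub] at h2
    rw [l3_algC, ← h2, neg_neg]
  have hE0 : (lm m E).coeff 0 = 0 := by
    rw [coeff_lm, hEdef, Tw.coeff_sub, Tw.coeff_mul_zero, Tw.coeff_mul_zero, mul_comm, sub_self,
      map_zero]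
  have hN0 : (lm m N).coeff 0 = 0 := by
    rw [coeff_lm, hNdef, Tw.coeff_add, Tw.coeff_sub, pow_two, Tw.coeff_mul_zero, Tw.coeff_mul_zero,
      Tw.coeff_aeval_zero, Tw.coeff_aeval_zero, hP0, hQ0, ← pow_two, hcurve, map_zero]
  have hEd : (lm m E).natDegree ≤ G.natDegree + 1 := by
    rw [Tw.natDegree_le_iff]
    intro n hn
    rw [coeff_lm, hEdef, hP, l3_E_coeff G hcomm tW g Q hQi hQd n hn, map_zero]
  obtain ⟨x₁, y, hy0, hyd, h1, h2⟩ := solve_linear G a b hcomm hquad hcase _ _ hE0 hN0 hEd hI1 hI2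
  obtain ⟨p, hp⟩ : ∃ p : Tw F (PowerSeries K), p = emb m (Tw.C x₁ * Tw.T) := ⟨_, rfl⟩
  obtain ⟨r, hr⟩ : ∃ r : Tw F (PowerSeries K), r = emb m y := ⟨_, rfl⟩
  have hDp : Dv m p := by rw [hp]; exact Dv_emb m _
  have hDr : Dv m r := by rw [hr]; exact Dv_emb m _
  have hlp : lm m p = Tw.C x₁ * Tw.T := by rw [hp, lm_emb]
  have hlr : lm m r = y := by rw [hr, lm_emb]
  have hcp : Tw.map (cc F) p = 0 := by rw [hp]; exact map_cc_emb hm _
  have hcr : Tw.map (cc F) r = 0 := by rw [hr]; exact map_cc_emb hm _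
  have hP' : Pm tW (g + PowerSeries.X ^ m * PowerSeries.C x₁) = P + p := by
    rw [hP, hp, Pm, Pm, emb, map_mul, Tw.map_C, Tw.map_T, cst_apply, map_add, add_mul, ← mul_assoc,
      ← map_mul]
    abel
  have hpc0 : p.coeff 0 = 0 := by
    rw [hp, emb_coeff, Tw.coeff_C_mul, Tw.coeff_T]; simp
  refine ⟨g + PowerSeries.X ^ m * PowerSeries.C x₁, Q + r, ⟨?_, ?_, ?_, ?_, ?_, ?_, ?_⟩, ?_, ?_⟩
  · rw [map_add, hg, map_mul, map_pow, cc_apply, PowerSeries.constantCoeff_X, zero_pow (by omega),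
      zero_mul, add_zero]
  · rw [Tw.coeff_add, hQ0, hr, emb_coeff, hy0, map_zero, mul_zero, add_zero]
  · rw [map_add, hQG, hcr, add_zero]
  · intro i hi
    rw [Tw.coeff_add, hQi i hi, hr, emb_coeff, hyd i hi.le, map_zero, mul_zero, add_zero]
  · rw [Tw.coeff_add, hQd, hr, emb_coeff, hyd _ le_rfl, map_zero, mul_zero, add_zero]
  · rw [hP']
    have e : (P + p) * (Q + r) - (Q + r) * (P + p) =
        E + (P * r + p * Q + p * r) - (r * P + Q * p + r * p) := by
      rw [hEdef]; noncomm_ring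
    rw [e, Dv_succ_iff]
    constructor
    · exact Dv_sub (Dv_add hE (Dv_add (Dv_add (Dv_mul_left hDr P) (Dv_mul_right hDp Q))
        (Dv_mul_right hDp r))) (Dv_add (Dv_add (Dv_mul_right hDr P) (Dv_mul_left hDp Q))
        (Dv_mul_right hDr p))
    · rw [lm_sub, lm_add, lm_add, lm_add, lm_add, lm_add, lm_mul_left hm hDr, lm_mul_right hm hDp,
        lm_mul_right hm hDp, lm_mul_right hm hDr, lm_mul_left hm hDp, lm_mul_right hm hDr, hP0, htW,
        hlp, hlr, hQG, hcr, hPcc, hQ0, hγW, hcp, map_zero, zero_mul, mul_zero, mul_zero]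
      refine Eq.trans ?_ h1
      abel
  · rw [hP']
    have hsub : P + p - P = p := by abel
    have ha := lm_aeval_sub hm P (P + p) (by rw [hsub]; exact hDp) hPcc a
    have hb := lm_aeval_sub hm P (P + p) (by rw [hsub]; exact hDp) hPcc b
    rw [hsub, hlp] at ha hb
    obtain ⟨δa, hδa⟩ : ∃ δ : Tw F (PowerSeries K), δ = aeval (P + p) a - aeval P a := ⟨_, rfl⟩
    obtain ⟨δb, hδb⟩ : ∃ δ : Tw F (PowerSeries K), δ = aeval (P + p) b - aeval P b := ⟨_, rfl⟩
    rw [← hδa] at ha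
    rw [← hδb] at hb
    have ea : aeval (P + p) a = aeval P a + δa := by rw [hδa]; abel
    have eb : aeval (P + p) b = aeval P b + δb := by rw [hδb]; abel
    have e : (Q + r) ^ 2 - aeval (P + p) a * (Q + r) + aeval (P + p) b =
        N + (Q * r + r * Q + r * r) - (aeval P a * r + δa * Q + δa * r) + δb := by
      rw [ea, eb, hNdef]; noncomm_ring
    rw [e, Dv_succ_iff]
    constructor
    · exact Dv_add (Dv_sub (Dv_add hN (Dv_add (Dv_add (Dv_mul_left hDr Q) (Dv_mul_right hDr Q))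
        (Dv_mul_right hDr r))) (Dv_add (Dv_add (Dv_mul_left hDr _) (Dv_mul_right ha.1 Q))
        (Dv_mul_right ha.1 r))) hb.1
    · rw [lm_add, lm_sub, lm_add, lm_add, lm_add, lm_add, lm_add, lm_mul_left hm hDr,
        lm_mul_right hm hDr, lm_mul_right hm hDr, lm_mul_left hm hDr, lm_mul_right hm ha.1,
        lm_mul_right hm ha.1, ha.2, hb.2, hQ0, hγW, hlr, hQG, hcr, hA0, mul_zero, mul_zero]
      refine Eq.trans ?_ h2
      rw [l3_algC]
      abel
  · intro j hj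
    rw [map_add, PowerSeries.coeff_X_pow_mul', if_neg (by omega), add_zero]
  · have : Q + r - Q = r := by abel
    rw [this]; exact hDr

end Pool.Agent.H9.Ram
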