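import Pool.Agent.H9.Ram.L3

/-!
# Module L4: the lift

Iterate `approx_succ` (dependent choice) from `approx_one`: sequences `g_m`, `Q_m` (`m ≥ 1`) with `g_{m+1} ≡ g_m`,
`Q_{m+1} ≡ Q_m mod s^m`. Limits: `g = ∑ coeff j (g_{j+1}) s^j`, `Q` with coefficients
`∑_j coeff j ((Q_{j+1}).coeff i) s^j` for `i ≤ natDegree G` and zero above. Then `g ≡ g_m`, `Q ≡ Q_m mod s^m`, so
`P Q - Q P` and `Q² - a(P) Q + b(P)` are divisible by all `s^m` (congruences are compatible with sums and products,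
`Dv_mul_left`, `Dv_mul_right`, for `a(P)`: differences of powers), hence zero (`eq_zero_of_Dv`).
-/

open Polynomial

noncomputable section

namespace Pool.Agent.H9.Ram

variable {F : Type*} {K : Type*} [Field F] [Fintype F] [Field K] [Algebra F K]

theorem l4_coeff_sum (Qc : ℕ → PowerSeries K) (d : ℕ) (i : ℕ) :
    (∑ k ∈ Finset.range (d + 1), Tw.C (Qc k) * Tw.T ^ k : Tw F (PowerSeries K)).coeff i =
      if i ≤ d then Qc i else 0 := by
  rw [Tw.coeff_sum]
  by_cases hi : i ≤ d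
  · rw [if_pos hi, Finset.sum_eq_single i]
    · rw [Tw.coeff_C_mul, Tw.coeff_T_pow]; simp
    · intro k _ hk
      rw [Tw.coeff_C_mul, Tw.coeff_T_pow, if_neg (Ne.symm hk), mul_zero]
    · intro h; exact absurd (Finset.mem_range.2 (by omega)) h
  · rw [if_neg hi, Finset.sum_eq_zero]
    intro k hk
    rw [Tw.coeff_C_mul, Tw.coeff_T_pow, if_neg (by have := Finset.mem_range.1 hk; omega), mul_zero]

theorem l4_map_Pm {t g : PowerSeries K} (ht : cc F t = 0) (hg : cc F g = 0) :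
    Tw.map (cc F) (Pm t g : Tw F (PowerSeries K)) = Tw.T ^ 2 := by
  unfold Pm
  rw [map_add, map_add, map_mul, map_pow, Tw.map_C, Tw.map_C, Tw.map_T, ht, hg]
  simp

theorem l4_Dv_Pm {m : ℕ} (t g g' : PowerSeries K)
    (h : ∀ j, j < m → PowerSeries.coeff j g' = PowerSeries.coeff j g) :
    Dv m (Pm t g' - Pm t g : Tw F (PowerSeries K)) := by
  have h1 : (Pm t g' - Pm t g : Tw F (PowerSeries K)) = Tw.C (g' - g) * Tw.T := by
    unfold Pm
    rw [map_sub]
    noncomm_ring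
  rw [h1]
  refine Dv_mul_right ?_ _
  intro i j hj
  rw [Tw.coeff_C]
  split_ifs
  · rw [map_sub, h j hj, sub_self]
  · simp

theorem l4_limit (G : Tw F K) (a b : F[X]) (tW γW : PowerSeries K) (htW : cc F tW = 0)
    (f : ℕ → PowerSeries K × Tw F (PowerSeries K))
    (hA : ∀ m, Approx G a b tW γW (m + 1) (f m).1 (f m).2)
    (hg : ∀ m j, j < m + 1 → PowerSeries.coeff j (f (m + 1)).1 = PowerSeries.coeff j (f m).1)
    (hQ : ∀ m, Dv (m + 1) ((f (m + 1)).2 - (f m).2)) :
    ∃ (g : PowerSeries K) (Q : Tw F (PowerSeries K)),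
      cc F g = 0 ∧ Q.coeff 0 = γW ∧ Tw.map (cc F) Q = G ∧ Pm tW g * Q = Q * Pm tW g ∧
      Q ^ 2 - aeval (Pm tW g) a * Q + aeval (Pm tW g) b = 0 := by
  have hg' : ∀ m n j, j < m + 1 →
      PowerSeries.coeff j (f (m + n)).1 = PowerSeries.coeff j (f m).1 := by
    intro m n j hj
    induction n with
    | zero => rfl
    | succ n ih => rw [← add_assoc, hg (m + n) j (by omega), ih]
  have hQ' : ∀ m n, Dv (m + 1) ((f (m + n)).2 - (f m).2) := by
    intro m n
    induction n with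
    | zero =>
      intro i j _
      simp
    | succ n ih =>
      have h1 : (f (m + (n + 1))).2 - (f m).2 =
          ((f (m + n + 1)).2 - (f (m + n)).2) + ((f (m + n)).2 - (f m).2) := by
        rw [← add_assoc]; abel
      rw [h1]
      exact Dv_add (Dv_mono (by omega) (hQ (m + n))) ih
  have hQc : ∀ m n i j, j < m + 1 → PowerSeries.coeff j ((f (m + n)).2.coeff i) =
      PowerSeries.coeff j ((f m).2.coeff i) := by
    intro m n i j hj
    have := hQ' m n i j hj
    rw [Tw.coeff_sub, map_sub, sub_eq_zero] at this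
    exact this
  set g : PowerSeries K := PowerSeries.mk fun j => PowerSeries.coeff j (f j).1 with hgdef
  set Qc : ℕ → PowerSeries K :=
    fun i => PowerSeries.mk fun j => PowerSeries.coeff j ((f j).2.coeff i) with hQcdef
  set Q : Tw F (PowerSeries K) :=
    ∑ k ∈ Finset.range (G.natDegree + 1), Tw.C (Qc k) * Tw.T ^ k with hQdef
  have hQcoeff : ∀ i, Q.coeff i = Qc i := by
    intro i
    rw [hQdef, l4_coeff_sum]
    split_ifs with hi
    · rfl
    · symm
      rw [hQcdef]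
      ext j
      simp only [PowerSeries.coeff_mk]
      rw [(hA j).2.2.2.1 i (by omega)]
  have hgm : ∀ m j, j < m + 1 → PowerSeries.coeff j g = PowerSeries.coeff j (f m).1 := by
    intro m j hj
    rw [hgdef, PowerSeries.coeff_mk]
    obtain ⟨n, rfl⟩ : ∃ n, m = j + n := ⟨m - j, by omega⟩
    rw [hg' j n j (by omega)]
  have hQm : ∀ m, Dv (m + 1) (Q - (f m).2) := by
    intro m i j hj
    rw [Tw.coeff_sub, map_sub, hQcoeff, hQcdef]
    simp only [PowerSeries.coeff_mk]
    obtain ⟨n, rfl⟩ : ∃ n, m = j + n := ⟨m - j, by omega⟩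
    rw [hQc j n i j (by omega), sub_self]
  have hccg : cc F g = 0 := by
    have h1 := (hA 0).1
    rw [cc_apply, ← PowerSeries.coeff_zero_eq_constantCoeff_apply] at h1 ⊢
    rw [hgm 0 0 (by omega)]
    exact h1
  refine ⟨g, Q, hccg, ?_, ?_, ?_, ?_⟩
  · rw [hQcoeff, hQcdef]
    ext j
    simp only [PowerSeries.coeff_mk]
    rw [(hA j).2.1]
  · apply Tw.ext_coeff
    intro i
    rw [Tw.coeff_map, hQcoeff, ← (hA 0).2.2.1, Tw.coeff_map, cc_apply, cc_apply,
      ← PowerSeries.coeff_zero_eq_constantCoeff_apply,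
      ← PowerSeries.coeff_zero_eq_constantCoeff_apply, hQcdef]
    simp only [PowerSeries.coeff_mk]
  · rw [← sub_eq_zero]
    apply eq_zero_of_Dv
    intro m
    apply Dv_mono (Nat.le_succ m)
    have hP : Dv (m + 1) (Pm tW g - Pm tW (f m).1 : Tw F (PowerSeries K)) :=
      l4_Dv_Pm tW (f m).1 g (hgm m)
    have h1 : Pm tW g * Q - Q * Pm tW g =
        (Pm tW (f m).1 * (f m).2 - (f m).2 * Pm tW (f m).1) +
        (((Pm tW g - Pm tW (f m).1) * Q + Pm tW (f m).1 * (Q - (f m).2)) -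
        ((Q - (f m).2) * Pm tW g + (f m).2 * (Pm tW g - Pm tW (f m).1))) := by
      noncomm_ring
    rw [h1]
    exact Dv_add (hA m).2.2.2.2.2.1 (Dv_sub
      (Dv_add (Dv_mul_right hP _) (Dv_mul_left (hQm m) _))
      (Dv_add (Dv_mul_right (hQm m) _) (Dv_mul_left hP _)))
  · apply eq_zero_of_Dv
    intro m
    apply Dv_mono (Nat.le_succ m)
    have hP : Dv (m + 1) (Pm tW g - Pm tW (f m).1 : Tw F (PowerSeries K)) :=
      l4_Dv_Pm tW (f m).1 g (hgm m)
    have hcc : Tw.map (cc F) (Pm tW (f m).1 : Tw F (PowerSeries K)) = Tw.T ^ 2 :=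
      l4_map_Pm htW (hA m).1
    have hab : ∀ c : F[X], Dv (m + 1) (aeval (Pm tW g : Tw F (PowerSeries K)) c -
        aeval (Pm tW (f m).1 : Tw F (PowerSeries K)) c) := fun c =>
      (lm_aeval_sub (by omega) (Pm tW (f m).1) (Pm tW g) hP hcc c).1
    have h1 : Q ^ 2 - aeval (Pm tW g) a * Q + aeval (Pm tW g) b =
        ((f m).2 ^ 2 - aeval (Pm tW (f m).1) a * (f m).2 + aeval (Pm tW (f m).1) b) +
        ((((Q - (f m).2) * Q + (f m).2 * (Q - (f m).2)) -
          ((aeval (Pm tW g) a - aeval (Pm tW (f m).1) a) * Q +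
            aeval (Pm tW (f m).1) a * (Q - (f m).2))) +
        (aeval (Pm tW g) b - aeval (Pm tW (f m).1) b)) := by
      noncomm_ring
    rw [h1]
    exact Dv_add (hA m).2.2.2.2.2.2 (Dv_add (Dv_sub
      (Dv_add (Dv_mul_right (hQm m) _) (Dv_mul_left (hQm m) _))
      (Dv_add (Dv_mul_right (hab a) _) (Dv_mul_left (hQm m) _))) (hab b))

theorem exists_lift (G : Tw F K) (a b : F[X]) (tW γW : PowerSeries K)
    (hcomm : Tw.T ^ 2 * G = G * Tw.T ^ 2)
    (hquad : G ^ 2 - aeval (Tw.T ^ 2 : Tw F K) a * G + aeval (Tw.T ^ 2 : Tw F K) b = 0)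
    (hcase : 2 * G.coeff 0 - algebraMap F K (a.coeff 0) ≠ 0 ∨
      ∃ r : F, algebraMap F K r = G.coeff 0 ∧ a.coeff 0 = 2 * r ∧ -(r * a.coeff 1) + b.coeff 1 ≠ 0)
    (htW : cc F tW = 0) (hγW : cc F γW = G.coeff 0)
    (hcurve : γW ^ 2 - aeval tW a * γW + aeval tW b = 0)
    (hd : G.natDegree = 0 → γW = PowerSeries.C (G.coeff 0)) :
    ∃ (g : PowerSeries K) (Q : Tw F (PowerSeries K)),
      cc F g = 0 ∧ Q.coeff 0 = γW ∧ Tw.map (cc F) Q = G ∧ Pm tW g * Q = Q * Pm tW g ∧
      Q ^ 2 - aeval (Pm tW g) a * Q + aeval (Pm tW g) b = 0 := by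
  obtain ⟨g1, Q1, h1⟩ := approx_one G a b tW γW hcomm hquad htW hγW hd
  have hstep : ∀ (m : ℕ) (p : PowerSeries K × Tw F (PowerSeries K)),
      ∃ p' : PowerSeries K × Tw F (PowerSeries K), Approx G a b tW γW (m + 1) p.1 p.2 →
        Approx G a b tW γW (m + 2) p'.1 p'.2 ∧
        (∀ j, j < m + 1 → PowerSeries.coeff j p'.1 = PowerSeries.coeff j p.1) ∧
        Dv (m + 1) (p'.2 - p.2) := by
    intro m p
    by_cases hp : Approx G a b tW γW (m + 1) p.1 p.2
    · obtain ⟨g', Q', h2, h3, h4⟩ := approx_succ G a b tW γW hcomm hquad hcase htW hγW hcurve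
        (m + 1) (by omega) p.1 p.2 hp
      exact ⟨(g', Q'), fun _ => ⟨h2, h3, h4⟩⟩
    · exact ⟨p, fun h => absurd h hp⟩
  choose nxt hn using hstep
  let f : ℕ → PowerSeries K × Tw F (PowerSeries K) := fun m =>
    Nat.rec (g1, Q1) (fun m p => nxt m p) m
  have hf : ∀ m, f (m + 1) = nxt m (f m) := fun m => rfl
  have hA : ∀ m, Approx G a b tW γW (m + 1) (f m).1 (f m).2 := by
    intro m
    induction m with
    | zero => exact h1
    | succ m ih =>
      rw [hf]
      exact (hn m (f m) ih).1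
  exact l4_limit G a b tW γW htW f hA
    (fun m => by rw [hf]; exact (hn m (f m) (hA m)).2.1)
    (fun m => by rw [hf]; exact (hn m (f m) (hA m)).2.2)

end Pool.Agent.H9.Ram
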