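import Pool.Agent.H9.Ram.Defs

/-!
# Module V3: types, uniqueness and existence

`K` a field, `P` of positive degree. `H = Tw F K` has no zero divisors (T1), `Tw.natDegree_aeval`.

(a) `eq_zero_of_aeval_mul_eq`: if `Q` commutes with `P`, is not `≡` a scalar of `F` modulo `H P`, and
`δ(P) Q = β(P)` then `δ = β = 0`. Proof: suppose `δ ≠ 0`, `δ = X^j δ₀`, `δ₀(0) ≠ 0`. Write `β = X^j β₁ + β₂`,
`deg β₂ < j`. Then `β₂(P) = P^j (δ₀(P) Q - β₁(P))`, so `β₂ = 0` for degree reasons; cancel `P^j`:
`δ₀(P) Q = β₁(P)`; hence `δ₀(0) Q - β₁(0) ∈ H P`, contradiction. So `δ = 0`, then `β(P) = 0`, `β = 0`.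
(b) uniqueness of the type and of the witness: let `Fr = α(P) + P^m Q = α'(P) + P^m' Q'`, `m ≤ m'`. If `m < m'`:
`P^m Q = (α' - α)(P) + P^m' Q'`, write `α' - α = X^m β + β₂`, `deg β₂ < m`, as before `β₂ = 0`, cancel:
`Q = β(P) + P^(m'-m) Q'`, `≡ β(0)` modulo `H P`: contradiction. If `m = m'`: `deg (α' - α) < m` gives `α = α'`,
`Q = Q'`; the difference of the two quadratic equations is `(a - a')(P) Q = (b - b')(P)`, so `a = a'`, `b = b'` by (a).
(c) existence. Let `Fr` commute with `P`, `Fr ∉ F[P]`, and suppose every `Q` commuting with `P` satisfies a monic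
quadratic equation over `F[P]`. Let `Fr² - A(P) Fr + B(P) = 0`. If `Fr = α(P) + P^m Q` with `deg α < m`,
`P Q = Q P`, `Q² - a(P) Q + b(P) = 0`, then also `Fr² - (2α + X^m a)(P) Fr + (α² + X^m α a + X^(2m) b)(P) = 0`.
As `Fr ∉ F[P]`, the quadratic equation of `Fr` is unique (difference: `δ(P) Fr = β(P)`; if `δ ≠ 0`, then, `Q`
being in the commutative domain generated ... simply: multiply the equation: `Fr` satisfies
`β² - A β δ + B δ² = 0` in `F[X]`, so `δ ∣ β²` ..., and as `F[X]` is integrally closed `δ ∣ β`, so `Fr = (β/δ)(P)`,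
contradiction). So `A = 2α + X^m a`, `B = α² + X^m α a + X^(2m) b`. If `m > natDegree A` then `a = 0`, and if also
`2 m > natDegree B + 2 m - 1`... precisely: if `m > natDegree A` and `m > natDegree B`: from
`A - 2α = X^m a`, `deg (A - 2α) < m`, get `a = 0`, `A = 2α`; and `B - α² = X^(2m) b` (using `a = 0`),
`deg < 2m`, so `b = 0`, `B = α²`; so `Q² = 0`, `Q = 0`, `Fr = α(P)`, contradiction. Hence the set of `m` for which
a decomposition `Fr = α(P) + P^m Q`, `deg α < m`, `P Q = Q P` exists is bounded (it contains `0`: `α = 0`,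
`Q = Fr`); take the largest `m`. If `Q = r + h P`, `r ∈ F`, then `h` commutes with `P` (cancel `P` on the right)
and `Fr = (α + r X^m)(P) + P^(m+1) h`: contradiction to maximality.
(d) `ok_of_quadratic`: by the uniqueness of quadratic equations as in (c).
-/

open Polynomial

noncomputable section

namespace Pool.Agent.H9.Ram

variable {F K : Type*} [Field F] [Fintype F] [Field K] [Algebra F K]

theorem v3_comm (P Q : Tw F K) (hc : P * Q = Q * P) (a : F[X]) :
    Commute (Polynomial.aeval P a) Q := by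
  induction a using Polynomial.induction_on' with
  | add p q hp hq => rw [map_add]; exact hp.add_left hq
  | monomial n r =>
    rw [← Polynomial.C_mul_X_pow_eq_monomial, map_mul, Polynomial.aeval_C, map_pow,
      Polynomial.aeval_X]
    have h1 : Commute P Q := hc
    exact (Algebra.commute_algebraMap_left r Q).mul_left (h1.pow_left n)

/-- The ring morphism from polynomials in two commuting variables. -/
def v3_psi (P Q : Tw F K) (hc : P * Q = Q * P) : F[X][X] →+* Tw F K :=
  Polynomial.eval₂RingHom' ((Polynomial.aeval P : F[X] →ₐ[F] Tw F K) : F[X] →+* Tw F K) Q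
    (fun a => v3_comm P Q hc a)

theorem v3_psi_C (P Q : Tw F K) (hc : P * Q = Q * P) (a : F[X]) :
    v3_psi P Q hc (Polynomial.C a) = Polynomial.aeval P a := by
  simp [v3_psi, Polynomial.eval₂RingHom']

theorem v3_psi_X (P Q : Tw F K) (hc : P * Q = Q * P) :
    v3_psi P Q hc Polynomial.X = Q := by
  simp [v3_psi, Polynomial.eval₂RingHom']

/-- Low degree part. -/
theorem v3_low (P : Tw F K) (hP : 0 < P.natDegree) (j : ℕ) (β : F[X])
    (hβ : ∀ i, j ≤ i → β.coeff i = 0) (R : Tw F K)
    (h : Polynomial.aeval P β = P ^ j * R) : β = 0 ∧ R = 0 := by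
  have hP0 : P ≠ 0 := by
    rintro rfl
    have : (0 : Tw F K).natDegree = 0 := by
      show (0 : K[X]).natDegree = 0
      simp
    omega
  have hPj : P ^ j ≠ 0 := pow_ne_zero j hP0
  have hβ0 : β = 0 := by
    by_contra hne
    have h1 : β.natDegree < j := by
      by_contra hlt
      push Not at hlt
      have h2 := hβ _ hlt
      exact hne (Polynomial.leadingCoeff_eq_zero.mp h2)
    have hR : R ≠ 0 := by
      rintro rfl
      rw [mul_zero, Tw.aeval_eq_zero_iff P hP] at h
      exact hne h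
    have h3 := congrArg Tw.natDegree h
    rw [Tw.natDegree_aeval P hP, Tw.natDegree_mul hPj hR, Tw.natDegree_pow] at h3
    have h4 : β.natDegree * P.natDegree < j * P.natDegree :=
      Nat.mul_lt_mul_of_pos_right h1 hP
    omega
  refine ⟨hβ0, ?_⟩
  rw [hβ0, map_zero] at h
  rcases mul_eq_zero.mp h.symm with h5 | h5
  · exact absurd h5 hPj
  · exact h5

theorem v3_aeval_divX (P : Tw F K) (a : F[X]) :
    Polynomial.aeval P a = algebraMap F (Tw F K) (a.coeff 0) + Polynomial.aeval P a.divX * P := by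
  conv_lhs => rw [← Polynomial.divX_mul_X_add a]
  rw [map_add, map_mul, Polynomial.aeval_X, Polynomial.aeval_C, add_comm]

theorem eq_zero_of_aeval_mul_eq (P Q : Tw F K) (hP : 0 < P.natDegree) (hc : P * Q = Q * P)
    (hns : ∀ (r : F) (h : Tw F K), Q ≠ algebraMap F (Tw F K) r + h * P) (δ β : F[X])
    (h : Polynomial.aeval P δ * Q = Polynomial.aeval P β) : δ = 0 ∧ β = 0 := by
  have key : ∀ n : ℕ, ∀ δ β : F[X], δ.natDegree ≤ n →
      Polynomial.aeval P δ * Q = Polynomial.aeval P β → δ = 0 := by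
    intro n
    induction n with
    | zero =>
      intro δ β hd h
      have h1 : δ = Polynomial.C (δ.coeff 0) :=
        Polynomial.eq_C_of_natDegree_le_zero hd
      by_contra hne
      have h2 : δ.coeff 0 ≠ 0 := by
        intro h0
        rw [h0, map_zero] at h1
        exact hne h1
      rw [h1, Polynomial.aeval_C, v3_aeval_divX P β] at h
      apply hns ((δ.coeff 0)⁻¹ * β.coeff 0)
        (algebraMap F (Tw F K) (δ.coeff 0)⁻¹ * Polynomial.aeval P β.divX)
      calc Q = algebraMap F (Tw F K) (δ.coeff 0)⁻¹ * (algebraMap F (Tw F K) (δ.coeff 0) * Q) := by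
            rw [← mul_assoc, ← map_mul, inv_mul_cancel₀ h2, map_one, one_mul]
        _ = _ := by
            rw [h, mul_add, ← map_mul, mul_assoc]
    | succ n ih =>
      intro δ β hd h
      by_contra hne
      by_cases h0 : δ.coeff 0 = 0
      · -- divide by `X`
        have e1 : Polynomial.aeval P δ = P * Polynomial.aeval P δ.divX := by
          have hcc := v3_comm P P rfl δ.divX
          rw [v3_aeval_divX P δ, h0, map_zero, zero_add]
          exact hcc
        have e2 : Polynomial.aeval P β = algebraMap F (Tw F K) (β.coeff 0) +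
            P * Polynomial.aeval P β.divX := by
          have hcc := v3_comm P P rfl β.divX
          rw [v3_aeval_divX P β]
          congr 1
        have h3 : Polynomial.aeval P (Polynomial.C (β.coeff 0)) =
            P ^ 1 * (Polynomial.aeval P δ.divX * Q - Polynomial.aeval P β.divX) := by
          rw [Polynomial.aeval_C, pow_one, mul_sub, ← mul_assoc, ← e1, h, e2]
          abel
        obtain ⟨-, h4⟩ := v3_low P hP 1 (Polynomial.C (β.coeff 0))
          (fun i hi => by rw [Polynomial.coeff_C, if_neg (by omega)]) _ h3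
        have h5 : δ.divX = 0 := by
          apply ih δ.divX β.divX
          · rw [Polynomial.natDegree_divX_eq_natDegree_tsub_one]
            omega
          · exact sub_eq_zero.mp h4
        apply hne
        rw [← Polynomial.divX_mul_X_add δ, h5, h0]
        simp
      · rw [v3_aeval_divX P δ, v3_aeval_divX P β] at h
        have hcc := v3_comm P Q hc δ.divX
        have h6 : algebraMap F (Tw F K) (δ.coeff 0) * Q = algebraMap F (Tw F K) (β.coeff 0) +
            (Polynomial.aeval P β.divX - Polynomial.aeval P δ.divX * Q) * P := by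
          have h7 : Polynomial.aeval P δ.divX * P * Q = Polynomial.aeval P δ.divX * Q * P := by
            rw [mul_assoc, hc, ← mul_assoc]
          rw [add_mul, h7] at h
          rw [sub_mul, ← add_sub_assoc, ← h]
          abel
        apply hns ((δ.coeff 0)⁻¹ * β.coeff 0)
          (algebraMap F (Tw F K) (δ.coeff 0)⁻¹ *
            (Polynomial.aeval P β.divX - Polynomial.aeval P δ.divX * Q))
        calc Q = algebraMap F (Tw F K) (δ.coeff 0)⁻¹ *
              (algebraMap F (Tw F K) (δ.coeff 0) * Q) := by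
              rw [← mul_assoc, ← map_mul, inv_mul_cancel₀ h0, map_one, one_mul]
          _ = _ := by
              rw [h6, mul_add, ← map_mul, mul_assoc]
  have h1 := key δ.natDegree δ β le_rfl h
  refine ⟨h1, ?_⟩
  rw [h1, map_zero, zero_mul] at h
  exact (Tw.aeval_eq_zero_iff P hP β).mp h.symm

/-- Uniqueness, ordered version. -/
theorem v3_wit_le (P Fr Q Q' : Tw F K) (hP : 0 < P.natDegree) (t t' : Typ F)
    (h : IsWit P Fr Q t) (h' : IsWit P Fr Q' t') (hm : t.m ≤ t'.m) : t = t' ∧ Q = Q' := by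
  obtain ⟨h1, hc, h2, h3, h4⟩ := h
  obtain ⟨h1', hc', h2', h3', h4'⟩ := h'
  have hPP := v3_comm P P rfl
  rcases Nat.lt_or_ge t.m t'.m with hlt | hge
  · exfalso
    obtain ⟨n, hn⟩ : ∃ n, t'.m = t.m + (n + 1) := ⟨t'.m - t.m - 1, by omega⟩
    obtain ⟨g, hg⟩ : ∃ g, g = t'.al - t.al := ⟨_, rfl⟩
    have hX : (X ^ t.m : F[X]).Monic := monic_X_pow _
    have hdiv := modByMonic_add_div g (X ^ t.m)
    have e1 : Polynomial.aeval P g = P ^ t.m * (Q - P ^ (n + 1) * Q') := by
      rw [hg, map_sub, mul_sub, ← mul_assoc, ← pow_add, ← hn]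
      have := h2.symm.trans h2'
      rw [eq_comm] at this
      have h5 : Polynomial.aeval P t'.al = Polynomial.aeval P t.al + P ^ t.m * Q -
          P ^ t'.m * Q' := by rw [← this]; abel
      rw [h5]; abel
    have e2 : Polynomial.aeval P (g %ₘ X ^ t.m) =
        P ^ t.m * (Q - P ^ (n + 1) * Q' - Polynomial.aeval P (g /ₘ X ^ t.m)) := by
      have h5 : Polynomial.aeval P g = Polynomial.aeval P (g %ₘ X ^ t.m) +
          P ^ t.m * Polynomial.aeval P (g /ₘ X ^ t.m) := by
        conv_lhs => rw [← hdiv]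
        rw [map_add, map_mul, map_pow, Polynomial.aeval_X]
      rw [mul_sub, ← e1, h5]; abel
    obtain ⟨-, e3⟩ := v3_low P hP t.m (g %ₘ X ^ t.m) (fun i hi => by
      apply Polynomial.coeff_eq_zero_of_degree_lt
      refine lt_of_lt_of_le (degree_modByMonic_lt g hX) ?_
      rw [degree_X_pow]
      exact_mod_cast hi) _ e2
    rw [v3_aeval_divX P (g /ₘ X ^ t.m), sub_eq_zero] at e3
    apply h4 ((g /ₘ X ^ t.m).coeff 0)
      (Polynomial.aeval P (g /ₘ X ^ t.m).divX + P ^ n * Q')
    rw [add_mul, ← add_assoc, ← e3, mul_assoc (P ^ n), ← hc', ← mul_assoc (P ^ n), ← pow_succ]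
    abel
  · have hmm : t.m = t'.m := le_antisymm hm hge
    have e1 : Polynomial.aeval P (t'.al - t.al) = P ^ t.m * (Q - Q') := by
      rw [map_sub, mul_sub]
      have := h2.symm.trans h2'
      rw [← hmm] at this
      rw [eq_comm] at this
      have h5 : Polynomial.aeval P t'.al = Polynomial.aeval P t.al + P ^ t.m * Q -
          P ^ t.m * Q' := by rw [← this]; abel
      rw [h5]; abel
    obtain ⟨e2, e3⟩ := v3_low P hP t.m (t'.al - t.al) (fun i hi => by
      rw [Polynomial.coeff_sub, h1 i hi, h1' i (hmm ▸ hi), sub_zero]) _ e1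
    have hal : t.al = t'.al := (sub_eq_zero.mp e2).symm
    have hQ : Q = Q' := sub_eq_zero.mp e3
    subst hQ
    have e4 : Polynomial.aeval P (t.a - t'.a) * Q = Polynomial.aeval P (t.b - t'.b) := by
      rw [map_sub, map_sub, sub_mul]
      have h6 : Polynomial.aeval P t.a * Q = Q ^ 2 + Polynomial.aeval P t.b := by
        rw [← sub_eq_zero, ← neg_eq_zero, ← h3]; abel
      have h7 : Polynomial.aeval P t'.a * Q = Q ^ 2 + Polynomial.aeval P t'.b := by
        rw [← sub_eq_zero, ← neg_eq_zero, ← h3']; abel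
      rw [h6, h7]; abel
    obtain ⟨e5, e6⟩ := eq_zero_of_aeval_mul_eq P Q hP hc h4 _ _ e4
    refine ⟨?_, rfl⟩
    cases t
    cases t'
    simp only at hmm hal e5 e6
    rw [hmm, hal, sub_eq_zero.mp e5, sub_eq_zero.mp e6]

theorem typ_unique (P Fr : Tw F K) (hP : 0 < P.natDegree) (t t' : Typ F) (h : HasTyp P Fr t)
    (h' : HasTyp P Fr t') : t = t' := by
  obtain ⟨Q, hQ⟩ := h
  obtain ⟨Q', hQ'⟩ := h'
  rcases le_total t.m t'.m with hm | hm
  · exact (v3_wit_le P Fr Q Q' hP t t' hQ hQ' hm).1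
  · exact (v3_wit_le P Fr Q' Q hP t' t hQ' hQ hm).1.symm

theorem wit_unique (P Fr Q Q' : Tw F K) (hP : 0 < P.natDegree) (t t' : Typ F)
    (h : IsWit P Fr Q t) (h' : IsWit P Fr Q' t') : t = t' ∧ Q = Q' := by
  rcases le_total t.m t'.m with hm | hm
  · exact v3_wit_le P Fr Q Q' hP t t' h h' hm
  · obtain ⟨h1, h2⟩ := v3_wit_le P Fr Q' Q hP t' t h' h hm
    exact ⟨h1.symm, h2.symm⟩

theorem exists_typ (P Fr : Tw F K) (hP : 0 < P.natDegree) (hc : P * Fr = Fr * P)
    (hn : ∀ α : F[X], Fr ≠ Polynomial.aeval P α)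
    (hCH : ∀ Q : Tw F K, P * Q = Q * P →
      ∃ a b : F[X], Q ^ 2 - Polynomial.aeval P a * Q + Polynomial.aeval P b = 0) :
    ∃ t : Typ F, HasTyp P Fr t := by
  classical
  have hP0 : P ≠ 0 := by
    rintro rfl
    have : (0 : Tw F K).natDegree = 0 := by
      show (0 : K[X]).natDegree = 0
      simp
    omega
  obtain ⟨S, hS⟩ : ∃ S : ℕ → Prop, S = fun m => ∃ (α : F[X]) (Q : Tw F K),
    (∀ i, m ≤ i → α.coeff i = 0) ∧ P * Q = Q * P ∧
      Fr = Polynomial.aeval P α + P ^ m * Q := ⟨_, rfl⟩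
  have hS0 : S 0 := by
    rw [hS]
    exact ⟨0, Fr, by simp, hc, by simp⟩
  have hSb : ∀ m, S m → m ≤ Fr.natDegree := by
    intro m hm
    rw [hS] at hm
    obtain ⟨α, Q, hα, hQ, hFr⟩ := hm
    have hQ0 : Q ≠ 0 := by
      rintro rfl
      rw [mul_zero, add_zero] at hFr
      exact hn α hFr
    have hPm : P ^ m ≠ 0 := pow_ne_zero m hP0
    have hd : (P ^ m * Q).natDegree = m * P.natDegree + Q.natDegree := by
      rw [Tw.natDegree_mul hPm hQ0, Tw.natDegree_pow]
    have hne : P ^ m * Q ≠ 0 := mul_ne_zero hPm hQ0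
    have htop := Tw.coeff_natDegree_ne_zero hne
    have hα0 : (Polynomial.aeval P α).coeff (P ^ m * Q).natDegree = 0 := by
      by_cases h0 : α = 0
      · rw [h0, map_zero, Tw.coeff_zero']
      · apply Tw.coeff_eq_zero_of_natDegree_lt
        rw [Tw.natDegree_aeval P hP, hd]
        have h1 : α.natDegree < m := by
          by_contra hlt
          push Not at hlt
          exact h0 (Polynomial.leadingCoeff_eq_zero.mp (hα _ hlt))
        have h4 : α.natDegree * P.natDegree < m * P.natDegree :=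
          Nat.mul_lt_mul_of_pos_right h1 hP
        omega
    have h5 : Fr.coeff (P ^ m * Q).natDegree ≠ 0 := by
      rw [hFr, Tw.coeff_add, hα0, zero_add]
      exact htop
    have h6 := Tw.le_natDegree_of_coeff_ne_zero h5
    rw [hd] at h6
    have h7 : m * 1 ≤ m * P.natDegree := Nat.mul_le_mul_left m hP
    omega
  obtain ⟨m, hm, hmax⟩ : ∃ m, S m ∧ ¬ S (m + 1) := by
    by_contra hcon
    push Not at hcon
    have hall : ∀ m, S m := by
      intro m
      induction m with
      | zero => exact hS0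
      | succ n ih => exact hcon n ih
    have := hSb _ (hall (Fr.natDegree + 1))
    omega
  rw [hS] at hm hmax
  obtain ⟨α, Q, hα, hQ, hFr⟩ := hm
  obtain ⟨a, b, hab⟩ := hCH Q hQ
  refine ⟨⟨α, m, a, b⟩, Q, hα, hQ, hFr, hab, ?_⟩
  intro r h hQr
  apply hmax
  have hh : P * h = h * P := by
    have h1 : P * Q = Q * P := hQ
    rw [hQr, mul_add, add_mul] at h1
    have h2 : P * algebraMap F (Tw F K) r = algebraMap F (Tw F K) r * P :=
      (Algebra.commutes r P).symm
    rw [h2] at h1
    have h3 := add_left_cancel h1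
    rw [← mul_assoc] at h3
    have h4 : (P * h - h * P) * P = 0 := by rw [sub_mul, h3, sub_self]
    rcases mul_eq_zero.mp h4 with h5 | h5
    · exact sub_eq_zero.mp h5
    · exact absurd h5 hP0
  refine ⟨α + Polynomial.C r * X ^ m, h, ?_, hh, ?_⟩
  · intro i hi
    rw [Polynomial.coeff_add, hα i (by omega), Polynomial.coeff_C_mul, Polynomial.coeff_X_pow,
      if_neg (by omega), mul_zero, add_zero]
  · rw [map_add, map_mul, map_pow, Polynomial.aeval_X, Polynomial.aeval_C]
    conv_lhs => rw [hFr, hQr]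
    rw [mul_add, ← (Algebra.commutes r (P ^ m)), ← hh, ← mul_assoc, ← pow_succ, add_assoc]

theorem ok_of_quadratic (P Fr : Tw F K) (hP : 0 < P.natDegree) (t : Typ F) (ht : HasTyp P Fr t)
    (c : F) (k : ℕ) (A : F[X]) (e : F) (he : e ≠ 0) (hA : A.eval c ≠ 0)
    (h : Fr ^ 2 - Polynomial.aeval P A * Fr +
      Polynomial.aeval P (Polynomial.C e * (X - Polynomial.C c) ^ k) = 0) : t.Ok c k := by
  obtain ⟨Q, h1, hc, h2, h3, h4⟩ := ht
  obtain ⟨N, hN⟩ : ∃ N, N = Polynomial.C e * (X - Polynomial.C c) ^ k := ⟨_, rfl⟩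
  rw [← hN] at h
  have hFr : Fr = v3_psi P Q hc (Polynomial.C t.al + Polynomial.C (X ^ t.m) * X) := by
    rw [map_add, map_mul, v3_psi_C, v3_psi_C, v3_psi_X, map_pow, Polynomial.aeval_X, ← h2]
  have h5 : v3_psi P Q hc ((Polynomial.C t.al + Polynomial.C (X ^ t.m) * X) ^ 2 -
      Polynomial.C A * (Polynomial.C t.al + Polynomial.C (X ^ t.m) * X) + Polynomial.C N) = 0 := by
    rw [map_add, map_sub, map_pow, map_mul, ← hFr, v3_psi_C, v3_psi_C]
    exact h
  have h6 : v3_psi P Q hc (X ^ 2 - Polynomial.C t.a * X + Polynomial.C t.b) = 0 := by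
    rw [map_add, map_sub, map_pow, map_mul, v3_psi_C, v3_psi_C, v3_psi_X]
    exact h3
  have e1 : (Polynomial.C t.al + Polynomial.C (X ^ t.m) * X) ^ 2 -
      Polynomial.C A * (Polynomial.C t.al + Polynomial.C (X ^ t.m) * X) + Polynomial.C N =
      Polynomial.C ((X ^ t.m) ^ 2) * (X ^ 2 - Polynomial.C t.a * X + Polynomial.C t.b) +
      (Polynomial.C (X ^ t.m * (2 * t.al + X ^ t.m * t.a - A)) * X -
        Polynomial.C (A * t.al - t.al ^ 2 - N + (X ^ t.m) ^ 2 * t.b)) := by
    simp only [map_add, map_sub, map_mul, map_pow, map_ofNat]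
    ring
  rw [e1, map_add, map_mul, h6, mul_zero, zero_add, map_sub, map_mul, v3_psi_C, v3_psi_C,
    v3_psi_X, sub_eq_zero] at h5
  obtain ⟨h7, h8⟩ := eq_zero_of_aeval_mul_eq P Q hP hc h4 _ _ h5
  have h9 : 2 * t.al + X ^ t.m * t.a - A = 0 := by
    rcases mul_eq_zero.mp h7 with h10 | h10
    · exact absurd h10 (pow_ne_zero _ X_ne_zero)
    · exact h10
  have hA' : A = 2 * t.al + X ^ t.m * t.a := (sub_eq_zero.mp h9).symm
  refine ⟨⟨e, he, ?_⟩, ?_⟩
  · rw [← hN]
    rw [hA'] at h8
    have : N = (2 * t.al + X ^ t.m * t.a) * t.al - t.al ^ 2 + (X ^ t.m) ^ 2 * t.b := by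
      linear_combination -h8
    rw [this]
    ring
  · rw [← hA']
    exact hA

end Pool.Agent.H9.Ram
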