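import Pool.Agent.H9.Ram.L1
import Pool.Agent.H9.Ram.V3

/-!
# Module L5: points of the curve `Y² - a(X) Y + b(X) = 0` over `K⟦s⟧`

`θ ∈ K`, `θ² - a(0) θ + b(0) = 0`.
* If `2θ ≠ a(0)`: `tW = s`, and `γW` is the root with constant term `θ` of `Y² - a(s) Y + b(s)` (simple root modulo `s`;
  Hensel, or solve recursively for the coefficients: the coefficient of `s^j` is an equation
  `(2θ - a(0)) y_j + (terms in y_i, i < j) = 0`).
* If `θ = r ∈ F`, `a(0) = 2r`, `D = - r a₁ + b₁ ≠ 0` (`a₁ = a.coeff 1`): `γW = θ + s`, and `tW` is the root with zero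
  constant term of `f(X) = (θ+s)² - a(X)(θ+s) + b(X)`; `f(0) ≡ 0 mod s`, `f'(0) ≡ D mod s`.
* `tW` is transcendental over `F`: an element of `K⟦s⟧` algebraic over `F` is a root of a nonzero polynomial over `F`;
  if `K` is algebraically closed this polynomial splits into linear factors over `K` and `K⟦s⟧` is a domain, so the
  element is a constant. In the first case `s` is not a constant; in the second, if `tW` is constant it is `0`, so
  `(θ+s)² - a(0)(θ+s) + b(0) = 0`, so `θ + s` is algebraic over `F`, a contradiction.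
* `exists_lift'`: combine with smoothness: for a smooth type and `θ = Q.coeff 0` in the second case
  `X² ∤ r² - r a + b` says `- r a₁ + b₁ ≠ 0`.
* if `G` has degree `0`, i.e. `G = θ`, commutes with everything and is not in `F`+multiples: then `a`, `b` are constant
  polynomials (`eq_zero_of_aeval_mul_eq` of V3: `(a - a(0))(T²) θ = (b - b(0))(T²)`), and so
  `γW² - a(0) γW + b(0) = 0`, `γW` is algebraic over `F`, hence constant, `γW = θ`.
-/

open Polynomial

noncomputable section

namespace Pool.Agent.H9.Ram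

variable {F : Type*} {K : Type*} [Field F] [Fintype F] [Field K] [Algebra F K] [IsAlgClosed K]

theorem l5_cc (f : PowerSeries K) : cc F f = PowerSeries.constantCoeff f := rfl

theorem l5_algebraMap (r : F) :
    algebraMap F (PowerSeries K) r = PowerSeries.C (algebraMap F K r) := by
  rw [PowerSeries.algebraMap_apply]

/-- One step of the approximation of a root. -/
def l5step (p : (PowerSeries K)[X]) (δ : K) (n : ℕ) (y : PowerSeries K) : PowerSeries K :=
  y + PowerSeries.C (-(PowerSeries.coeff (n + 1) (p.eval y) * δ⁻¹)) * PowerSeries.X ^ (n + 1)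

/-- The approximations of a root. -/
def l5seq (p : (PowerSeries K)[X]) (δ θ : K) : ℕ → PowerSeries K
  | 0 => PowerSeries.C θ
  | n + 1 => l5step p δ n (l5seq p δ θ n)

omit [IsAlgClosed K] in
theorem l5_dvd_succ (p : (PowerSeries K)[X]) (δ θ : K) (n : ℕ) :
    (PowerSeries.X : PowerSeries K) ^ (n + 1) ∣ l5seq p δ θ (n + 1) - l5seq p δ θ n := by
  have h : l5seq p δ θ (n + 1) - l5seq p δ θ n =
      PowerSeries.X ^ (n + 1) *
        PowerSeries.C (-(PowerSeries.coeff (n + 1) (p.eval (l5seq p δ θ n)) * δ⁻¹)) := by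
    show l5step p δ n (l5seq p δ θ n) - l5seq p δ θ n = _
    unfold l5step
    ring
  rw [h]
  exact dvd_mul_right _ _

omit [IsAlgClosed K] in
theorem l5_const (p : (PowerSeries K)[X]) (δ θ : K) (n : ℕ) :
    PowerSeries.constantCoeff (l5seq p δ θ n) = θ := by
  induction n with
  | zero => simp [l5seq]
  | succ n ih =>
    obtain ⟨u, hu⟩ := l5_dvd_succ p δ θ n
    have h : l5seq p δ θ (n + 1) = l5seq p δ θ n + PowerSeries.X ^ (n + 1) * u := by
      rw [← hu]; ring
    rw [h, map_add, ih, map_mul, map_pow, PowerSeries.constantCoeff_X, zero_pow (by omega),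
      zero_mul, add_zero]

omit [IsAlgClosed K] in
theorem l5_eval_const (p : (PowerSeries K)[X]) (y z : PowerSeries K)
    (h : PowerSeries.constantCoeff y = PowerSeries.constantCoeff z) :
    PowerSeries.constantCoeff (p.eval y) = PowerSeries.constantCoeff (p.eval z) := by
  have h1 : y - z ∣ p.eval y - p.eval z := Polynomial.sub_dvd_eval_sub y z p
  have h2 : (PowerSeries.X : PowerSeries K) ∣ y - z := by
    rw [PowerSeries.X_dvd_iff, map_sub, h, sub_self]
  have h3 := PowerSeries.X_dvd_iff.1 (h2.trans h1)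
  rw [map_sub] at h3
  exact sub_eq_zero.1 h3

omit [IsAlgClosed K] in
theorem l5_dvd_eval (p : (PowerSeries K)[X]) (δ θ : K) (hδ : δ ≠ 0)
    (h0 : PowerSeries.constantCoeff (p.eval (PowerSeries.C θ)) = 0)
    (h1 : PowerSeries.constantCoeff (p.derivative.eval (PowerSeries.C θ)) = δ) (n : ℕ) :
    (PowerSeries.X : PowerSeries K) ^ (n + 1) ∣ p.eval (l5seq p δ θ n) := by
  induction n with
  | zero =>
    rw [zero_add, pow_one, PowerSeries.X_dvd_iff]
    exact h0
  | succ n ih =>
    obtain ⟨u, hu⟩ := ih
    set y := l5seq p δ θ n with hy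
    set c := PowerSeries.coeff (n + 1) (p.eval y) * δ⁻¹ with hc
    have hstep : l5seq p δ θ (n + 1) = y + PowerSeries.C (-c) * PowerSeries.X ^ (n + 1) := rfl
    obtain ⟨k, hk⟩ := p.binomExpansion y (PowerSeries.C (-c) * PowerSeries.X ^ (n + 1))
    rw [hstep, hk, hu]
    have hδ' : PowerSeries.constantCoeff (p.derivative.eval y) = δ := by
      rw [← h1]
      apply l5_eval_const
      rw [l5_const p δ θ n]
      simp
    have hu0 : PowerSeries.constantCoeff u = c * δ := by
      rw [hc, hu, mul_assoc, inv_mul_cancel₀ hδ, mul_one, PowerSeries.coeff_X_pow_mul']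
      simp
    obtain ⟨v, hv⟩ := PowerSeries.X_dvd_iff.2 (show PowerSeries.constantCoeff
      (u + p.derivative.eval y * PowerSeries.C (-c)) = 0 by
        rw [map_add, map_mul, hδ', hu0]
        simp
        ring)
    have e : PowerSeries.X ^ (n + 1) * u +
        p.derivative.eval y * (PowerSeries.C (-c) * PowerSeries.X ^ (n + 1)) +
        k * (PowerSeries.C (-c) * PowerSeries.X ^ (n + 1)) ^ 2 =
        PowerSeries.X ^ (n + 1 + 1) * (v + k * PowerSeries.C (-c) ^ 2 * PowerSeries.X ^ n) := by
      have e1 : PowerSeries.X ^ (n + 1) * u +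
        p.derivative.eval y * (PowerSeries.C (-c) * PowerSeries.X ^ (n + 1)) =
        PowerSeries.X ^ (n + 1) * (u + p.derivative.eval y * PowerSeries.C (-c)) := by ring
      rw [e1, hv]
      ring
    rw [e]
    exact dvd_mul_right _ _

omit [IsAlgClosed K] in
theorem l5_dvd_of_le (p : (PowerSeries K)[X]) (δ θ : K) (n m : ℕ) (h : n ≤ m) :
    (PowerSeries.X : PowerSeries K) ^ (n + 1) ∣ l5seq p δ θ m - l5seq p δ θ n := by
  induction m, h using Nat.le_induction with
  | base => rw [sub_self]; exact dvd_zero _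
  | succ m hm ih =>
    have h1 := l5_dvd_succ p δ θ m
    have h2 : (PowerSeries.X : PowerSeries K) ^ (n + 1) ∣ PowerSeries.X ^ (m + 1) :=
      pow_dvd_pow _ (by omega)
    have h3 := dvd_add (h2.trans h1) ih
    rwa [sub_add_sub_cancel] at h3

omit [IsAlgClosed K] in
/-- A simple root modulo `s` lifts. -/
theorem l5_hensel (p : (PowerSeries K)[X]) (θ : K)
    (h0 : PowerSeries.constantCoeff (p.eval (PowerSeries.C θ)) = 0)
    (h1 : PowerSeries.constantCoeff (p.derivative.eval (PowerSeries.C θ)) ≠ 0) :
    ∃ y : PowerSeries K, PowerSeries.constantCoeff y = θ ∧ p.eval y = 0 := by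
  set δ := PowerSeries.constantCoeff (p.derivative.eval (PowerSeries.C θ)) with hδ
  set y : PowerSeries K := PowerSeries.mk fun n => PowerSeries.coeff n (l5seq p δ θ n) with hy
  have hdvd : ∀ n, (PowerSeries.X : PowerSeries K) ^ (n + 1) ∣ y - l5seq p δ θ n := by
    intro n
    rw [PowerSeries.X_pow_dvd_iff]
    intro j hj
    have h2 := PowerSeries.X_pow_dvd_iff.1 (l5_dvd_of_le p δ θ j n (by omega)) j (by omega)
    rw [map_sub, sub_eq_zero] at h2
    rw [map_sub, h2, hy, PowerSeries.coeff_mk, sub_self]
  refine ⟨y, ?_, ?_⟩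
  · have h2 := hdvd 0
    rw [zero_add, pow_one, PowerSeries.X_dvd_iff, map_sub, l5_const] at h2
    exact sub_eq_zero.1 h2
  · ext n
    have h2 := (hdvd n).trans (Polynomial.sub_dvd_eval_sub y (l5seq p δ θ n) p)
    have h3 := l5_dvd_eval p δ θ h1 h0 hδ.symm n
    have h4 := dvd_add h2 h3
    rw [sub_add_cancel] at h4
    rw [PowerSeries.X_pow_dvd_iff.1 h4 n (by omega), map_zero]

theorem constant_of_isAlgebraic (f : PowerSeries K) (hf : IsAlgebraic F f) :
    f = PowerSeries.C (PowerSeries.constantCoeff f) := by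
  have hK : IsAlgebraic K f := by
    obtain ⟨p, hp, hpf⟩ := hf
    refine ⟨p.map (algebraMap F K), (Polynomial.map_ne_zero_iff (algebraMap F K).injective).2 hp, ?_⟩
    rw [Polynomial.aeval_def, Polynomial.eval₂_map]
    rw [Polynomial.aeval_def] at hpf
    rw [← hpf]
    congr 1
    refine RingHom.ext fun r => ?_
    rw [RingHom.comp_apply, PowerSeries.algebraMap_apply, PowerSeries.algebraMap_apply]
    rfl
  have hint : IsIntegral K f := hK.isIntegral
  have hdeg := IsAlgClosed.degree_eq_one_of_irreducible K (minpoly.irreducible hint)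
  obtain ⟨c, hc⟩ := minpoly.mem_range_of_degree_eq_one K f hdeg
  have hc' : f = PowerSeries.C c := hc.symm
  rw [hc']
  simp

theorem exists_point (a b : F[X]) (θ : K)
    (hθ : θ ^ 2 - algebraMap F K (a.coeff 0) * θ + algebraMap F K (b.coeff 0) = 0)
    (hcase : 2 * θ - algebraMap F K (a.coeff 0) ≠ 0 ∨
      ∃ r : F, algebraMap F K r = θ ∧ a.coeff 0 = 2 * r ∧ -(r * a.coeff 1) + b.coeff 1 ≠ 0) :
    ∃ tW γW : PowerSeries K, cc F tW = 0 ∧ cc F γW = θ ∧
      γW ^ 2 - aeval tW a * γW + aeval tW b = 0 ∧ Transcendental F tW := by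
  have hcc : ∀ (t : PowerSeries K) (g : F[X]), PowerSeries.constantCoeff t = 0 →
      PowerSeries.constantCoeff (aeval t g) = algebraMap F K (g.coeff 0) := by
    intro t g ht
    have h1 : cc F (aeval t g) = aeval (cc F t) g := (Polynomial.aeval_algHom_apply (cc F) t g).symm
    have h2 : cc F t = 0 := ht
    rw [h2] at h1
    rw [← l5_cc (F := F), h1, Polynomial.coeff_zero_eq_aeval_zero']
  rcases hcase with hc | ⟨r, hr, ha0, hD⟩
  · -- `tW = s`
    set A : PowerSeries K := aeval (PowerSeries.X : PowerSeries K) a with hA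
    set B : PowerSeries K := aeval (PowerSeries.X : PowerSeries K) b with hB
    have hA0 : PowerSeries.constantCoeff A = algebraMap F K (a.coeff 0) :=
      hcc _ a PowerSeries.constantCoeff_X
    have hB0 : PowerSeries.constantCoeff B = algebraMap F K (b.coeff 0) :=
      hcc _ b PowerSeries.constantCoeff_X
    obtain ⟨y, hy0, hy⟩ := l5_hensel (Polynomial.X ^ 2 - Polynomial.C A * Polynomial.X +
      Polynomial.C B) θ (by
        simp [hA0, hB0, hθ]) (by
        simp only [Polynomial.derivative_add, Polynomial.derivative_sub,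
          Polynomial.derivative_X_pow, Polynomial.derivative_C_mul, Polynomial.derivative_X,
          Polynomial.derivative_C]
        simp [hA0]
        exact hc)
    refine ⟨PowerSeries.X, y, PowerSeries.constantCoeff_X, hy0, ?_, ?_⟩
    · simpa using hy
    · intro halg
      have h1 := constant_of_isAlgebraic _ halg
      rw [PowerSeries.constantCoeff_X, map_zero] at h1
      exact PowerSeries.X_ne_zero h1
  · set γ : PowerSeries K := PowerSeries.C θ + PowerSeries.X with hγ
    have hγ0 : PowerSeries.constantCoeff γ = θ := by simp [hγ]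
    set p : (PowerSeries K)[X] := Polynomial.C (γ ^ 2) - a.map (algebraMap F (PowerSeries K)) *
      Polynomial.C γ + b.map (algebraMap F (PowerSeries K)) with hp
    have hpe : ∀ t : PowerSeries K, p.eval t = γ ^ 2 - aeval t a * γ + aeval t b := by
      intro t
      simp [hp, Polynomial.aeval_def, Polynomial.eval_map]
    obtain ⟨y, hy0, hy⟩ := l5_hensel p 0 (by
        rw [hpe, map_add, map_sub, map_mul, map_pow, hcc _ a (by simp), hcc _ b (by simp), hγ0]
        exact hθ) (by
        have h1 : p.derivative = - ((a.map (algebraMap F (PowerSeries K))).derivative *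
            Polynomial.C γ) + (b.map (algebraMap F (PowerSeries K))).derivative := by
          rw [hp, Polynomial.derivative_add, Polynomial.derivative_sub, Polynomial.derivative_C,
            Polynomial.derivative_mul, Polynomial.derivative_C]
          ring
        have h2 : ∀ g : F[X], (g.map (algebraMap F (PowerSeries K))).derivative.eval
            (PowerSeries.C (0 : K)) = algebraMap F (PowerSeries K) (g.coeff 1) := by
          intro g
          rw [map_zero, ← Polynomial.coeff_zero_eq_eval_zero, Polynomial.coeff_derivative]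
          simp
        rw [h1, Polynomial.eval_add, Polynomial.eval_neg, Polynomial.eval_mul, h2, h2,
          Polynomial.eval_C, map_add, map_neg, map_mul, hγ0, l5_algebraMap, l5_algebraMap,
          PowerSeries.constantCoeff_C, PowerSeries.constantCoeff_C, ← hr]
        intro h3
        apply hD
        apply (algebraMap F K).injective
        rw [map_add, map_neg, map_mul, map_zero, ← h3]
        ring)
    refine ⟨y, γ, hy0, hγ0, ?_, ?_⟩
    · rw [← hpe]
      exact hy
    · intro halg
      have h1 := constant_of_isAlgebraic _ halg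
      rw [hy0, map_zero] at h1
      have h2 : IsAlgebraic F γ := by
        refine ⟨Polynomial.X ^ 2 - Polynomial.C (a.coeff 0) * Polynomial.X +
          Polynomial.C (b.coeff 0), ?_, ?_⟩
        · intro h
          have := congrArg (fun g => g.coeff 2) h
          simp at this
        · have h3 : p.eval y = 0 := hy
          rw [hpe, h1, ← Polynomial.coeff_zero_eq_aeval_zero',
            ← Polynomial.coeff_zero_eq_aeval_zero'] at h3
          simpa using h3
      have h4 := constant_of_isAlgebraic _ h2
      rw [hγ0, hγ] at h4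
      exact PowerSeries.X_ne_zero (add_eq_left.1 h4)

/-- The case distinction holds for smooth types. -/
theorem case_of_smooth (t : Typ F) (hs : t.Smooth) (θ : K)
    (hθ : θ ^ 2 - algebraMap F K (t.a.coeff 0) * θ + algebraMap F K (t.b.coeff 0) = 0)
    (h2 : θ ^ (Fintype.card F ^ 2) = θ) (h3 : (∃ r : F, algebraMap F K r = θ) →
      algebraMap F K (t.a.coeff 0) = 2 * θ) :
    2 * θ - algebraMap F K (t.a.coeff 0) ≠ 0 ∨
      ∃ r : F, algebraMap F K r = θ ∧ t.a.coeff 0 = 2 * r ∧
        -(r * t.a.coeff 1) + t.b.coeff 1 ≠ 0 := by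
  by_cases hc : 2 * θ - algebraMap F K (t.a.coeff 0) = 0
  · right
    have hr : ∃ r : F, algebraMap F K r = θ := by
      by_cases h2F : (2 : F) = 0
      · have hchar : ringChar F = 2 := by
          have : Fact (Nat.Prime 2) := ⟨Nat.prime_two⟩
          have : CharP F 2 := CharTwo.of_one_ne_zero_of_two_eq_zero one_ne_zero h2F
          exact ringChar.eq F 2
        obtain ⟨r, hr⟩ := FiniteField.isSquare_of_char_two hchar (t.b.coeff 0)
        have h2K : (2 : K) = 0 := by
          rw [← map_ofNat (algebraMap F K) 2, h2F, map_zero]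
        have e1 : θ ^ 2 = algebraMap F K r ^ 2 := by
          have e2 : algebraMap F K (t.b.coeff 0) = algebraMap F K r ^ 2 := by
            rw [hr, map_mul, sq]
          rw [e2] at hθ
          linear_combination hθ - θ * hc + (θ ^ 2 - algebraMap F K r ^ 2) * h2K
        rcases sq_eq_sq_iff_eq_or_eq_neg.1 e1 with h | h
        · exact ⟨r, h.symm⟩
        · exact ⟨-r, by rw [map_neg, h]⟩
      · have h2K : (2 : K) ≠ 0 := by
          intro h
          apply h2F
          apply (algebraMap F K).injective
          rw [map_zero, map_ofNat]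
          exact h
        refine ⟨t.a.coeff 0 / 2, ?_⟩
        have e1 : algebraMap F K (t.a.coeff 0 / 2) = algebraMap F K (t.a.coeff 0) / 2 := by
          rw [map_div₀, map_ofNat]
        rw [e1, div_eq_iff h2K]
        linear_combination -hc
    obtain ⟨r, hr⟩ := hr
    have ha : t.a.coeff 0 = 2 * r := by
      apply (algebraMap F K).injective
      rw [map_mul, hr]
      rw [map_ofNat]
      linear_combination -hc
    refine ⟨r, hr, ha, ?_⟩
    intro hD
    refine hs r ?_ ?_
    · rw [Polynomial.X_dvd_iff, Polynomial.coeff_sub, Polynomial.coeff_C_zero, ha, sub_self]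
    · rw [Polynomial.X_pow_dvd_iff]
      intro d hd
      interval_cases d
      · apply (algebraMap F K).injective
        rw [Polynomial.coeff_add, Polynomial.coeff_sub, Polynomial.coeff_C_mul,
          Polynomial.coeff_C_zero, map_add, map_sub, map_mul, map_pow, hr, map_zero, ← hθ]
        ring
      · rw [Polynomial.coeff_add, Polynomial.coeff_sub, Polynomial.coeff_C_mul,
          Polynomial.coeff_C_of_ne_zero one_ne_zero]
        linear_combination hD
  · exact Or.inl hc

theorem eq_const_of_natDegree_zero (G : Tw F K) (a b : F[X]) (hG : G.natDegree = 0)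
    (hcomm : Tw.T ^ 2 * G = G * Tw.T ^ 2)
    (hns : ∀ (r : F) (h : Tw F K), G ≠ algebraMap F (Tw F K) r + h * Tw.T ^ 2)
    (hquad : G ^ 2 - aeval (Tw.T ^ 2 : Tw F K) a * G + aeval (Tw.T ^ 2 : Tw F K) b = 0)
    (tW γW : PowerSeries K) (hγW : cc F γW = G.coeff 0)
    (hcurve : γW ^ 2 - aeval tW a * γW + aeval tW b = 0) :
    γW = PowerSeries.C (G.coeff 0) := by
  set θ := G.coeff 0 with hθ
  have hGC : G = Tw.C θ := by
    apply Tw.ext_coeff
    intro i
    rw [Tw.coeff_C]
    rcases Nat.eq_zero_or_pos i with h | h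
    · rw [if_pos h, h]
    · rw [if_neg h.ne']
      exact Tw.coeff_eq_zero_of_natDegree_lt (by omega)
  have hT0 : (Tw.T ^ 2 : Tw F K).coeff 0 = 0 := by
    rw [Tw.coeff_T_pow]
    simp
  have h0 : θ ^ 2 - algebraMap F K (a.coeff 0) * θ + algebraMap F K (b.coeff 0) = 0 := by
    have h1 := congrArg (fun f => Tw.coeff f 0) hquad
    simp only [Tw.coeff_add, Tw.coeff_sub, Tw.coeff_zero', sq G, Tw.coeff_mul_zero,
      Tw.coeff_aeval_zero, hT0, ← Polynomial.coeff_zero_eq_aeval_zero'] at h1
    rw [← hθ] at h1
    rw [sq]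
    exact h1
  have h1 : G ^ 2 - algebraMap F (Tw F K) (a.coeff 0) * G + algebraMap F (Tw F K) (b.coeff 0) = 0 := by
    rw [hGC, Tw.algebraMap_apply, Tw.algebraMap_apply, ← map_pow, ← map_mul, ← map_sub, ← map_add,
      h0, map_zero]
  have h2 : aeval (Tw.T ^ 2 : Tw F K) (a - Polynomial.C (a.coeff 0)) * G =
      aeval (Tw.T ^ 2 : Tw F K) (b - Polynomial.C (b.coeff 0)) := by
    rw [map_sub, map_sub, Polynomial.aeval_C, Polynomial.aeval_C, sub_mul]
    have h3 := h1.trans hquad.symm
    have h4 : aeval (Tw.T ^ 2 : Tw F K) a * G - algebraMap F (Tw F K) (a.coeff 0) * G -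
      (aeval (Tw.T ^ 2 : Tw F K) b - algebraMap F (Tw F K) (b.coeff 0)) =
      (G ^ 2 - algebraMap F (Tw F K) (a.coeff 0) * G + algebraMap F (Tw F K) (b.coeff 0)) -
      (G ^ 2 - aeval (Tw.T ^ 2 : Tw F K) a * G + aeval (Tw.T ^ 2 : Tw F K) b) := by abel
    rw [h1, hquad, sub_zero] at h4
    exact sub_eq_zero.1 h4
  have hdeg : 0 < (Tw.T ^ 2 : Tw F K).natDegree := by
    rw [Tw.natDegree_T_pow]
    norm_num
  obtain ⟨ha, hb⟩ := eq_zero_of_aeval_mul_eq _ G hdeg hcomm hns _ _ h2
  have ha' : a = Polynomial.C (a.coeff 0) := sub_eq_zero.1 ha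
  have hb' : b = Polynomial.C (b.coeff 0) := sub_eq_zero.1 hb
  rw [ha', hb', Polynomial.aeval_C, Polynomial.aeval_C] at hcurve
  have halg : IsAlgebraic F γW := by
    refine ⟨Polynomial.X ^ 2 - Polynomial.C (a.coeff 0) * Polynomial.X +
      Polynomial.C (b.coeff 0), ?_, ?_⟩
    · intro h
      have := congrArg (fun g => g.coeff 2) h
      simp at this
    · simpa using hcurve
  have h5 := constant_of_isAlgebraic _ halg
  have h6 : PowerSeries.constantCoeff γW = θ := hγW
  rw [h6] at h5
  exact h5

end Pool.Agent.H9.Ram
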