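import Pool.Agent.H9.Ram.B0
import Pool.Agent.H9.Ram.I0

/-!
# Definitions: the torsion field
-/

open Polynomial

noncomputable section

namespace Pool.Agent.H9.Ram

section
variable {F R : Type*} [Field F] [Fintype F] [CommRing R] [Algebra F R]

/-- The operator `P (P - d)^(n+1)`, `P = c + τ + x τ²`. -/
def Aop (c d : F) (n : ℕ) (x : R) : Tw F R := Pt c x * (Pt c x - algebraMap F (Tw F R) d) ^ (n + 1)

end

variable {F : Type*} (K : Type*) [Field F] [Fintype F] [Field K] [Algebra F K]

/-- The torsion field. -/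
abbrev TM (c d : F) (n : ℕ) : Type _ :=
  (Tw.addPoly (Aop c d n (RatFunc.X : RatFunc K))).SplittingField

/-- `M` is the splitting field of `P (P - d)^(n+1)` and contains all the torsion. -/
structure TorsField (F K M : Type*) [Field F] [Fintype F] [Field K] [Algebra F K] [Field M]
    [Algebra (RatFunc K) M] [Algebra F M] (c d : F) (n : ℕ) : Prop where
  split : Polynomial.IsSplittingField (RatFunc K) M (Tw.addPoly (Aop c d n (RatFunc.X : RatFunc K)))
  card : Nat.card (LinearMap.ker (Tw.ev (Aop c d n (xM K M)))) = Fintype.card F ^ (2 * (n + 2))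

/-- The number of `σ`-fixed cyclic submodules. -/
def fC {F K M : Type*} [Field F] [Fintype F] [Field K] [Algebra F K] [Field M]
    [Algebra (RatFunc K) M] [Algebra F M] [IsScalarTower F (RatFunc K) M] (c d : F) (n : ℕ)
    (σ : M ≃ₐ[RatFunc K] M) : ℕ :=
  {L : Submodule F M | IsCyc (nu (Pt c (xM K M)) d) n L ∧ gact σ L = L}.ncard

/-- The number of `σ`-fixed lines in the kernel of `P`. -/
def fR {F K M : Type*} [Field F] [Fintype F] [Field K] [Algebra F K] [Field M]
    [Algebra (RatFunc K) M] [Algebra F M] [IsScalarTower F (RatFunc K) M] (c : F)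
    (σ : M ≃ₐ[RatFunc K] M) : ℕ :=
  {l : Submodule F M | Module.finrank F l = 1 ∧ l ≤ LinearMap.ker (Tw.ev (Pt c (xM K M))) ∧
    gact σ l = l}.ncard

end Pool.Agent.H9.Ram
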