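import Pool.Agent.H9.Ram.M0

/-!
# Module M1: the splitting field is Galois and contains the torsion

`A = P (P - d)^(n+1)`, `P = c + τ + x τ²` over `K(x)`: constant coefficient `c (c - d)^(n+1) ≠ 0`, degree `2 (n + 2)` with leading
coefficient a power of `x` times ..., nonzero (`Tw.natDegree_mul`, `Tw.natDegree_pow`). So `Tw.addPoly A` is separable
(`Tw.separable_addPoly`) of degree `q^(2(n+2))` (`Tw.natDegree_addPoly`), its splitting field is Galois
(`IsGalois.of_separable_splitting_field`) and contains `q^(2(n+2))` roots, which are the elements of `ker (ev A_M)`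
(`Tw.aeval_addPoly`; `A_M = Aop c d n (xM K M)` is the image of `A` under `Tw.map`).
-/

open Polynomial

noncomputable section

namespace Pool.Agent.H9.Ram

section
variable {F R : Type*} [Field F] [Fintype F]

theorem m1_coeff_Pt {R : Type*} [CommRing R] [Algebra F R] (c : F) (x : R) (i : ℕ) :
    (Pt c x).coeff i = if i = 0 then algebraMap F R c else if i = 1 then 1 else if i = 2 then x else 0 := by
  unfold Pt
  rw [Tw.algebraMap_apply, Tw.coeff_add, Tw.coeff_add, Tw.coeff_C, Tw.coeff_T, Tw.coeff_C_mul,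
    Tw.coeff_T_pow]
  rcases i with _ | _ | _ | i
  · simp
  · simp
  · simp
  · simp

theorem m1_coeff_Pd {R : Type*} [CommRing R] [Algebra F R] (c d : F) (x : R) (i : ℕ) :
    (Pt c x - algebraMap F (Tw F R) d).coeff i =
      if i = 0 then algebraMap F R (c - d) else if i = 1 then 1 else if i = 2 then x else 0 := by
  rw [Tw.coeff_sub, m1_coeff_Pt, Tw.algebraMap_apply, Tw.coeff_C]
  rcases i with _ | _ | _ | i
  · simp
  · simp
  · simp
  · simp

theorem m1_natDegree_Pt {R : Type*} [CommRing R] [Algebra F R] (c : F) (x : R) :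
    (Pt c x).natDegree ≤ 2 := by
  rw [Tw.natDegree_le_iff]
  intro n hn
  rw [m1_coeff_Pt, if_neg (by omega), if_neg (by omega), if_neg (by omega)]

theorem m1_natDegree_Pd {R : Type*} [CommRing R] [Algebra F R] (c d : F) (x : R) :
    (Pt c x - algebraMap F (Tw F R) d).natDegree ≤ 2 := by
  rw [Tw.natDegree_le_iff]
  intro n hn
  rw [m1_coeff_Pd, if_neg (by omega), if_neg (by omega), if_neg (by omega)]

theorem m1_pow_natDegree {R : Type*} [CommRing R] [Algebra F R] (f : Tw F R)
    (hf : f.natDegree ≤ 2) (m : ℕ) : (f ^ m).natDegree ≤ 2 * m := by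
  induction m with
  | zero =>
    rw [pow_zero, Tw.natDegree_le_iff]
    intro n hn
    rw [Tw.coeff_one, if_neg (by omega)]
  | succ m ih =>
    rw [pow_succ]
    refine (Tw.natDegree_mul_le _ _).trans ?_
    omega

theorem m1_pow_lead (F : Type*) [Field F] [Fintype F] (m : ℕ) :
    ∃ N : ℕ, ∀ (R : Type*) [CommRing R] [Algebra F R] (c d : F) (x : R),
      ((Pt c x - algebraMap F (Tw F R) d) ^ m).coeff (2 * m) = x ^ N := by
  induction m with
  | zero =>
    refine ⟨0, fun R _ _ c d x => ?_⟩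
    rw [pow_zero, pow_zero, Tw.coeff_one, if_pos (by omega)]
  | succ m ih =>
    obtain ⟨N, hN⟩ := ih
    refine ⟨N + Fintype.card F ^ (2 * m), fun R _ _ c d x => ?_⟩
    rw [pow_succ, show 2 * (m + 1) = 2 * m + 2 by ring,
      Tw.coeff_mul_of_le (m1_pow_natDegree _ (m1_natDegree_Pd c d x) m) (m1_natDegree_Pd c d x),
      hN R c d x, m1_coeff_Pd, if_neg (by omega), if_neg (by omega), if_pos rfl, pow_add]

theorem m1_natDegree_Aop_le {R : Type*} [CommRing R] [Algebra F R] (c d : F) (n : ℕ) (x : R) :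
    (Aop c d n x).natDegree ≤ 2 * (n + 2) := by
  unfold Aop
  refine (Tw.natDegree_mul_le _ _).trans ?_
  have h1 := m1_natDegree_Pt c x
  have h2 := m1_pow_natDegree _ (m1_natDegree_Pd c d x) (n + 1)
  omega

theorem m1_leading (F : Type*) [Field F] [Fintype F] (n : ℕ) :
    ∃ N : ℕ, ∀ (R : Type*) [CommRing R] [Algebra F R] (c d : F) (x : R),
      (Aop c d n x).coeff (2 * (n + 2)) = x ^ N ∧ ∀ i, 2 * (n + 2) < i → (Aop c d n x).coeff i = 0 := by
  obtain ⟨N, hN⟩ := m1_pow_lead F (n + 1)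
  refine ⟨1 + N * Fintype.card F ^ 2, fun R _ _ c d x => ⟨?_, ?_⟩⟩
  · unfold Aop
    rw [show 2 * (n + 2) = 2 + 2 * (n + 1) by ring,
      Tw.coeff_mul_of_le (m1_natDegree_Pt c x)
        (m1_pow_natDegree _ (m1_natDegree_Pd c d x) (n + 1)),
      hN R c d x, m1_coeff_Pt, if_neg (by omega), if_neg (by omega), if_pos rfl, ← pow_mul,
      pow_add, pow_one]
  · intro i hi
    exact Tw.natDegree_le_iff.1 (m1_natDegree_Aop_le c d n x) i hi

theorem natDegree_Aop {M : Type*} [Field M] [Algebra F M] (c d : F) (n : ℕ) {x : M} (hx : x ≠ 0) :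
    (Aop c d n x).natDegree = 2 * (n + 2) := by
  obtain ⟨N, hN⟩ := m1_leading F n
  apply le_antisymm (m1_natDegree_Aop_le c d n x)
  apply Tw.le_natDegree_of_coeff_ne_zero
  rw [(hN M c d x).1]
  exact pow_ne_zero _ hx

theorem coeff_zero_Aop {R : Type*} [CommRing R] [Algebra F R] (c d : F) (n : ℕ) (x : R) :
    (Aop c d n x).coeff 0 = algebraMap F R (c * (c - d) ^ (n + 1)) := by
  have hpow : ∀ (f : Tw F R) (m : ℕ), (f ^ m).coeff 0 = (f.coeff 0) ^ m := by
    intro f m
    induction m with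
    | zero => rw [pow_zero, pow_zero, Tw.coeff_one, if_pos rfl]
    | succ m ih => rw [pow_succ, Tw.coeff_mul_zero, ih, pow_succ]
  unfold Aop
  rw [Tw.coeff_mul_zero, hpow, m1_coeff_Pt, m1_coeff_Pd, if_pos rfl, if_pos rfl, map_mul, map_pow]

theorem map_Aop {R S : Type*} [CommRing R] [CommRing S] [Algebra F R] [Algebra F S]
    (φ : R →ₐ[F] S) (c d : F) (n : ℕ) (x : R) : Tw.map φ (Aop c d n x) = Aop c d n (φ x) := by
  unfold Aop Pt
  simp only [map_mul, map_add, map_pow, map_sub, AlgHom.commutes, Tw.map_T, Tw.map_C]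

/-- The leading coefficient is a power of `x`, with an exponent independent of the ring. -/
theorem exists_leading_Aop (F : Type*) [Field F] [Fintype F] (n : ℕ) :
    ∃ N : ℕ, ∀ (R : Type*) [CommRing R] [Algebra F R] (c d : F) (x : R),
      (Aop c d n x).coeff (2 * (n + 2)) = x ^ N ∧ ∀ i, 2 * (n + 2) < i → (Aop c d n x).coeff i = 0 :=
  m1_leading F n

end

variable {F K : Type*} [Field F] [Fintype F] [Field K] [Algebra F K]

theorem m1_separable (c d : F) (hc : c ≠ 0) (hcd : c ≠ d) (n : ℕ) :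
    (Tw.addPoly (Aop c d n (RatFunc.X : RatFunc K))).Separable := by
  apply Tw.separable_addPoly
  rw [coeff_zero_Aop]
  intro h
  rw [map_eq_zero] at h
  exact mul_ne_zero hc (pow_ne_zero _ (sub_ne_zero.mpr hcd)) h

theorem isGalois_TM (c d : F) (hc : c ≠ 0) (hcd : c ≠ d) (n : ℕ) :
    IsGalois (RatFunc K) (TM K c d n) :=
  IsGalois.of_separable_splitting_field (m1_separable c d hc hcd n)

theorem torsField_TM (c d : F) (hc : c ≠ 0) (hcd : c ≠ d) (n : ℕ) :
    TorsField F K (TM K c d n) c d n := by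
  have hsep := m1_separable (K := K) c d hc hcd n
  have hX : (RatFunc.X : RatFunc K) ≠ 0 := RatFunc.X_ne_zero
  have hdeg : (Aop c d n (RatFunc.X : RatFunc K)).natDegree = 2 * (n + 2) := natDegree_Aop c d n hX
  have hA0 : Aop c d n (RatFunc.X : RatFunc K) ≠ 0 := by
    intro h
    have h1 := coeff_zero_Aop c d n (RatFunc.X : RatFunc K)
    rw [h, Tw.coeff_zero'] at h1
    have h2 := h1.symm
    rw [map_eq_zero] at h2
    exact mul_ne_zero hc (pow_ne_zero _ (sub_ne_zero.mpr hcd)) h2
  have hp0 : Tw.addPoly (Aop c d n (RatFunc.X : RatFunc K)) ≠ 0 := hsep.ne_zero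
  refine ⟨Polynomial.IsSplittingField.splittingField _, ?_⟩
  have hsplit := Polynomial.SplittingField.splits (Tw.addPoly (Aop c d n (RatFunc.X : RatFunc K)))
  have hcard := Polynomial.card_rootSet_eq_natDegree hsep hsplit
  rw [Tw.natDegree_addPoly hA0, hdeg] at hcard
  rw [← hcard, ← Nat.card_eq_fintype_card]
  apply Nat.card_congr
  refine Equiv.subtypeEquivRight ?_
  intro y
  have h1 : (Tw.addPoly (Aop c d n (RatFunc.X : RatFunc K))).aeval y =
      Tw.ev (Aop c d n (xM K (TM K c d n))) y := by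
    have h2 := Tw.aeval_addPoly (IsScalarTower.toAlgHom F (RatFunc K) (TM K c d n))
      (Aop c d n (RatFunc.X : RatFunc K)) y
    rw [map_Aop] at h2
    exact h2
  rw [LinearMap.mem_ker, Polynomial.mem_rootSet, h1]
  exact ⟨fun h => ⟨hp0, h⟩, fun h => h.2⟩

end Pool.Agent.H9.Ram
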