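import Pool.Agent.H9.Ram.M1
import Pool.Agent.H9.Ram.B1

/-!
# Module M2: the Frobenius lift

`f = Tw.addPoly (Aop c d n x) ∈ K(x)[Y]` has coefficients in the image of `F[x]`, fixed by `frR F 1` (write `Aop c d n X =
Tw.map (F(x) → K(x)) …`, or: the coefficients of `Aop c d n X` are polynomials in `x` with coefficients in `F`; e.g. the set of
`A ∈ K(x){τ}` all of whose coefficients are fixed by the ring morphism `frR F 1` is a subring, because `frR F 1` commutes with
the `q`-power map, and contains `P`, `P - d`). Hence `M`, with the `K(x)`-algebra structure twisted by `frR F 1` (bijective,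
`frR_bijective`), is again a splitting field of `f`, and by uniqueness of splitting fields there is a ring automorphism
`φ` of `M` with `φ r = frR F 1 r` for `r ∈ K(x)`. `φ` permutes the finite set of roots of `f`, i.e. `ker (ev A_M)`, so some power
`φ^e`, `e > 0`, fixes all of them.
-/

open Polynomial

noncomputable section

namespace Pool.Agent.H9.Ram

/-- `frR F 1` as a morphism of `F`-algebras. -/
def m2_frA (F K : Type*) [Field F] [Fintype F] [Field K] [Algebra F K] :
    RatFunc K →ₐ[F] RatFunc K :=
  { (frR F 1 : RatFunc K →+* RatFunc K) with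
    commutes' := by
      intro a
      have h1 : algebraMap F (RatFunc K) a = RatFunc.C (algebraMap F K a) := by
        rw [IsScalarTower.algebraMap_apply F K (RatFunc K)]
        rfl
      show frR F 1 (algebraMap F (RatFunc K) a) = algebraMap F (RatFunc K) a
      rw [h1, frR_C, pow_one, ← map_pow, FiniteField.pow_card] }

theorem m2_frA_apply {F K : Type*} [Field F] [Fintype F] [Field K] [Algebra F K] (r : RatFunc K) :
    m2_frA F K r = frR F 1 r := rfl

theorem m2_map_addPoly {F K : Type*} [Field F] [Fintype F] [Field K] [Algebra F K] (c d : F) (n : ℕ) :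
    (Tw.addPoly (Aop c d n (RatFunc.X : RatFunc K))).map (frR F 1 : RatFunc K →+* RatFunc K) =
      Tw.addPoly (Aop c d n (RatFunc.X : RatFunc K)) := by
  have h1 : Tw.map (m2_frA F K) (Aop c d n (RatFunc.X : RatFunc K)) =
      Aop c d n (RatFunc.X : RatFunc K) := by
    rw [map_Aop, m2_frA_apply, frR_X]
  have h2 : ∀ i, frR F 1 ((Aop c d n (RatFunc.X : RatFunc K)).coeff i) =
      (Aop c d n (RatFunc.X : RatFunc K)).coeff i := by
    intro i
    have h3 := congrArg (fun g : Tw F (RatFunc K) => g.coeff i) h1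
    simp only [Tw.coeff_map] at h3
    exact h3
  unfold Tw.addPoly
  rw [Polynomial.map_sum]
  apply Finset.sum_congr rfl
  intro i _
  rw [Polynomial.map_mul, Polynomial.map_C, Polynomial.map_pow, Polynomial.map_X, h2]

/-- A copy of `M`. -/
def m2T (M : Type*) : Type _ := M

instance {M : Type*} [Field M] : Field (m2T M) := inferInstanceAs (Field M)

/-- The twisted algebra structure. -/
@[reducible] def m2_alg (F K M : Type*) [Field F] [Fintype F] [Field K] [Algebra F K] [Field M]
    [Algebra (RatFunc K) M] : Algebra (RatFunc K) (m2T M) :=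
  RingHom.toAlgebra (S := m2T M) (((algebraMap (RatFunc K) M).comp (frR F 1) : RatFunc K →+* M) :
    RatFunc K →+* m2T M)

variable {F K M : Type*} [Field F] [Fintype F] [Field K] [Algebra F K] [IsAlgClosed K] [Field M]
  [Algebra (RatFunc K) M] [FiniteDimensional (RatFunc K) M] [IsGalois (RatFunc K) M]
  [Algebra F M] [IsScalarTower F (RatFunc K) M]

section
omit [FiniteDimensional (RatFunc K) M] [IsGalois (RatFunc K) M] [IsScalarTower F (RatFunc K) M]

theorem m2_split (c d : F) (n : ℕ) (hM : TorsField F K M c d n) :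
    @Polynomial.IsSplittingField (RatFunc K) (m2T M) _ _ (m2_alg F K M)
      (Tw.addPoly (Aop c d n (RatFunc.X : RatFunc K))) := by
  let _ := m2_alg F K M
  have hs := hM.split
  set f := Tw.addPoly (Aop c d n (RatFunc.X : RatFunc K)) with hf
  have hmap : f.map (algebraMap (RatFunc K) (m2T M)) = (f.map (algebraMap (RatFunc K) M) : M[X]) := by
    have h1 : f.map (algebraMap (RatFunc K) (m2T M)) =
        ((f.map (frR F 1 : RatFunc K →+* RatFunc K)).map (algebraMap (RatFunc K) M) : M[X]) := by
      rw [Polynomial.map_map]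
      rfl
    rw [h1, hf, m2_map_addPoly]
  have hroots : ∀ x : M, x ∈ f.rootSet M → @Membership.mem (m2T M) (Set (m2T M)) _
      (f.rootSet (m2T M)) x := by
    intro x hx
    have hx' := (Polynomial.mem_rootSet').1 hx
    refine (Polynomial.mem_rootSet').2 ⟨?_, ?_⟩
    · rw [hmap]
      exact hx'.1
    · have h3 := hx'.2
      rw [Polynomial.aeval_def, ← Polynomial.eval_map] at h3
      have h4 : ∀ z : m2T M, Polynomial.eval z (f.map (algebraMap (RatFunc K) (m2T M))) =
          Polynomial.aeval z f := by
        intro z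
        rw [Polynomial.aeval_def, ← Polynomial.eval_map]
      refine (h4 x).symm.trans ?_
      rw [hmap]
      exact h3
  refine ⟨?_, ?_⟩
  · rw [hmap]
    exact hs.splits'
  · rw [eq_top_iff]
    rintro (x : M) -
    have hx : x ∈ Algebra.adjoin (RatFunc K) (f.rootSet M) := by
      rw [hs.adjoin_rootSet']
      exact Algebra.mem_top
    induction hx using Algebra.adjoin_induction with
    | mem y hy => exact Algebra.subset_adjoin (hroots y hy)
    | algebraMap r =>
      obtain ⟨r', hr'⟩ := (frR_bijective (F := F) (K := K) 1).2 r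
      have h2 : (algebraMap (RatFunc K) M r : m2T M) = algebraMap (RatFunc K) (m2T M) r' := by
        rw [← hr']
        rfl
      rw [h2]
      exact Subalgebra.algebraMap_mem _ r'
    | add y z _ _ h1 h2 => exact Subalgebra.add_mem _ h1 h2
    | mul y z _ _ h1 h2 => exact Subalgebra.mul_mem _ h1 h2

theorem m2_exists_lift (c d : F) (n : ℕ) (hM : TorsField F K M c d n) :
    ∃ φ : M ≃+* M, (∀ r : RatFunc K, φ (algebraMap (RatFunc K) M r) =
      algebraMap (RatFunc K) M (frR F 1 r)) := by
  have hs := hM.split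
  let _ := m2_alg F K M
  have hs' := m2_split c d n hM
  let e1 := Polynomial.IsSplittingField.algEquiv M
    (Tw.addPoly (Aop c d n (RatFunc.X : RatFunc K)))
  let e2 := Polynomial.IsSplittingField.algEquiv (m2T M)
    (Tw.addPoly (Aop c d n (RatFunc.X : RatFunc K)))
  let e := e1.trans e2.symm
  refine ⟨(e.toRingEquiv : M ≃+* m2T M), ?_⟩
  intro r
  exact e.commutes r

end

theorem exists_frobenius (c d : F) (n : ℕ) (hM : TorsField F K M c d n) :
    ∃ φ : M ≃+* M, (∀ r : RatFunc K, φ (algebraMap (RatFunc K) M r) =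
      algebraMap (RatFunc K) M (frR F 1 r)) ∧
      ∃ e : ℕ, 0 < e ∧ ∀ v ∈ LinearMap.ker (Tw.ev (Aop c d n (xM K M))), (φ ^ e) v = v := by
  obtain ⟨φ, hφ⟩ := m2_exists_lift c d n hM
  refine ⟨φ, hφ, ?_⟩
  have hF : ∀ a : F, φ (algebraMap F M a) = algebraMap F M a := by
    intro a
    rw [IsScalarTower.algebraMap_apply F (RatFunc K) M, hφ]
    exact congrArg _ ((m2_frA F K).commutes a)
  let ψ : M →ₐ[F] M := { (φ : M →+* M) with commutes' := hF }
  have hψ : ∀ y, ψ y = φ y := fun y => rfl
  have hx : ψ (xM K M) = xM K M := by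
    show φ (algebraMap (RatFunc K) M RatFunc.X) = algebraMap (RatFunc K) M RatFunc.X
    rw [hφ, frR_X]
  have hmap : Tw.map ψ (Aop c d n (xM K M)) = Aop c d n (xM K M) := by
    rw [map_Aop, hx]
  have hker : ∀ v, v ∈ LinearMap.ker (Tw.ev (Aop c d n (xM K M))) →
      φ v ∈ LinearMap.ker (Tw.ev (Aop c d n (xM K M))) := by
    intro v hv
    rw [LinearMap.mem_ker] at hv ⊢
    have h1 := Tw.ev_map ψ (Aop c d n (xM K M)) v
    rw [hmap, hψ, hψ, hv, map_zero] at h1
    exact h1
  have hfin : Finite (LinearMap.ker (Tw.ev (Aop c d n (xM K M)))) := by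
    apply Nat.finite_of_card_ne_zero
    rw [hM.card]
    exact pow_ne_zero _ Fintype.card_ne_zero
  let g : LinearMap.ker (Tw.ev (Aop c d n (xM K M))) → LinearMap.ker (Tw.ev (Aop c d n (xM K M))) :=
    fun v => ⟨φ v.1, hker v.1 v.2⟩
  have hg : Function.Injective g := by
    intro v w h
    have h2 := congrArg Subtype.val h
    exact Subtype.ext (φ.injective h2)
  let σ : Equiv.Perm (LinearMap.ker (Tw.ev (Aop c d n (xM K M)))) :=
    Equiv.ofBijective g (Finite.injective_iff_bijective.1 hg)
  have hσ : ∀ k : ℕ, ∀ v : LinearMap.ker (Tw.ev (Aop c d n (xM K M))),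
      ((σ ^ k) v).1 = (φ ^ k) v.1 := by
    intro k
    induction k with
    | zero => intro v; rfl
    | succ k ih =>
      intro v
      rw [pow_succ', pow_succ', Equiv.Perm.mul_apply, RingAut.mul_apply, ← ih]
      rfl
  have hord : IsOfFinOrder σ := isOfFinOrder_of_finite σ
  refine ⟨orderOf σ, hord.orderOf_pos, ?_⟩
  intro v hv
  rw [← hσ (orderOf σ) ⟨v, hv⟩, pow_orderOf_eq_one]
  rfl

end Pool.Agent.H9.Ram
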