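import Pool.Agent.H9.Ram.M1
import Pool.Agent.H9.Ram.B1
import Pool.Agent.H9.Ram.G7

/-!
# Module M3: embeddings over every `x₀ ≠ 0`, and specialization of torsion

Let `x₀ ≠ 0`, `X₀ = x₀ + s ∈ K⟦s⟧` (a unit), `A_s = Aop c d n X₀ ∈ K⟦s⟧{τ}`: constant coefficient `c (c-d)^(n+1)`, leading
coefficient `X₀^N` (`exists_leading_Aop`), a unit. Reduction modulo `s`: `Aop c d n x₀`. By `exists_tors_equiv_W` (G7) with `Ω` an
algebraic closure of `K((s))`, all the roots in `Ω` lie in `K⟦s⟧`, and reduction is a bijection of `ker (ev A_s)` (in `K⟦s⟧`) onto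
`ker (ev (Aop c d n x₀))` in `K`, with `q^(2(n+2))` elements.
* So the polynomial `Tw.addPoly (Aop c d n X)` splits in `K((s))` after `shift x₀`, and `M` (a splitting field) embeds
  (`Polynomial.IsSplittingField.lift`): `Emb M x₀` is nonempty.
* Let `ε ∈ Emb M x₀`. It maps `ker (ev A_M)` injectively to roots in `K((s))`, which lie in `K⟦s⟧` (no negative coefficients), and
  `v ↦ (ε v).coeff 0` is an `F`-linear map to `ker (ev (Aop c d n x₀))`, injective (a root in `s K⟦s⟧` is zero), and bijective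
  by counting (`TorsField.card`, `Tw.card_ker`). It commutes with `P` (constant coefficient of `ε (P_M v)`; `ε xM = x₀ + s`).
* If `(x₀, ε) ∈ Cnt F φ σ k` and `φ^k` is the identity on the torsion then `(E v)^(q^k) = E (σ v)`: take constant coefficients
  in `frL k (ε v) = ε (σ (φ^k v))`.
-/

open Polynomial

noncomputable section

namespace Pool.Agent.H9.Ram

section m3
variable {F K : Type*} [Field F] [Fintype F] [Field K] [Algebra F K]

/-- A copy of an algebraic closure of `K((s))`. -/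
def m3Om (K : Type*) [Field K] : Type _ := AlgebraicClosure (LaurentSeries K)

instance m3Field (K : Type*) [Field K] : Field (m3Om K) :=
  inferInstanceAs (Field (AlgebraicClosure (LaurentSeries K)))

instance m3Closed (K : Type*) [Field K] : IsAlgClosed (m3Om K) :=
  inferInstanceAs (IsAlgClosed (AlgebraicClosure (LaurentSeries K)))

/-- `K((s)) → Ω`. -/
def m3i (K : Type*) [Field K] : LaurentSeries K →+* m3Om K :=
  algebraMap (LaurentSeries K) (AlgebraicClosure (LaurentSeries K))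

instance m3Alg (F K : Type*) [Field F] [Field K] [Algebra F K] : Algebra F (m3Om K) :=
  ((m3i K).comp ((HahnSeries.ofPowerSeries ℤ K).comp (algebraMap F (PowerSeries K)))).toAlgebra

/-- `K⟦s⟧ → Ω`. -/
def m3W (F K : Type*) [Field F] [Field K] [Algebra F K] : PowerSeries K →ₐ[F] m3Om K where
  toRingHom := (m3i K).comp (HahnSeries.ofPowerSeries ℤ K)
  commutes' _ := rfl

omit [Fintype F] in
theorem m3W_apply (w : PowerSeries K) :
    m3W F K w = m3i K (HahnSeries.ofPowerSeries ℤ K w) := rfl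

omit [Fintype F] in
theorem m3W_injective : Function.Injective (m3W F K) := by
  intro a b h
  rw [m3W_apply, m3W_apply] at h
  exact HahnSeries.ofPowerSeries_injective ((m3i K).injective h)

omit [Fintype F] in
theorem m3_algebraMap (r : F) :
    HahnSeries.ofPowerSeries ℤ K (algebraMap F (PowerSeries K) r) =
      HahnSeries.C (algebraMap F K r) := by
  rw [PowerSeries.algebraMap_apply, HahnSeries.ofPowerSeries_C]

/-- `x₀ + s`. -/
def m3X (x0 : K) : PowerSeries K := PowerSeries.C x0 + PowerSeries.X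

theorem m3_ofX (x0 : K) : HahnSeries.ofPowerSeries ℤ K (m3X x0) = shift x0 RatFunc.X := by
  rw [shift_X, m3X, map_add, HahnSeries.ofPowerSeries_C, HahnSeries.ofPowerSeries_X]

theorem m3_cc_X (x0 : K) : cc F (m3X x0) = x0 := by
  rw [cc_apply, m3X, map_add, PowerSeries.constantCoeff_C, PowerSeries.constantCoeff_X, add_zero]

/-- `K(x) → Ω` through `shift x₀`. -/
def m3S (F : Type*) [Field F] [Algebra F K] (x0 : K) : RatFunc K →ₐ[F] m3Om K where
  toRingHom := (m3i K).comp (shift x0)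
  commutes' r := by
    show m3i K (shift x0 (RatFunc.C (algebraMap F K r))) =
      m3i K (HahnSeries.ofPowerSeries ℤ K (algebraMap F (PowerSeries K) r))
    rw [shift_C, m3_algebraMap]

theorem m3_natDegree (c d : F) (n : ℕ) (x0 : K) (hx : x0 ≠ 0) :
    (Aop c d n (m3X x0)).natDegree = 2 * (n + 2) ∧
      cc F ((Aop c d n (m3X x0)).coeff (Aop c d n (m3X x0)).natDegree) ≠ 0 := by
  obtain ⟨N, hN⟩ := exists_leading_Aop F n
  obtain ⟨h1, h2⟩ := hN (PowerSeries K) c d (m3X x0)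
  have h3 : cc F ((Aop c d n (m3X x0)).coeff (2 * (n + 2))) ≠ 0 := by
    rw [h1, map_pow, m3_cc_X]
    exact pow_ne_zero _ hx
  have h4 : (Aop c d n (m3X x0)).coeff (2 * (n + 2)) ≠ 0 := by
    intro h
    rw [h, map_zero] at h3
    exact h3 rfl
  have h5 : (Aop c d n (m3X x0)).natDegree = 2 * (n + 2) :=
    le_antisymm (Tw.natDegree_le_iff.2 h2) (Tw.le_natDegree_of_coeff_ne_zero h4)
  refine ⟨h5, ?_⟩
  rw [h5]
  exact h3

theorem m3_coeff_zero (c d : F) (hc : c ≠ 0) (hcd : c ≠ d) (n : ℕ) (x0 : K) :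
    cc F ((Aop c d n (m3X x0)).coeff 0) ≠ 0 := by
  rw [coeff_zero_Aop, AlgHom.commutes]
  rw [Ne, map_eq_zero]
  exact mul_ne_zero hc (pow_ne_zero _ (sub_ne_zero.2 hcd))

/-- All roots in `Ω` come from `K⟦s⟧`, and are zero if their constant term is zero. -/
theorem m3_roots [IsAlgClosed K] (c d : F) (hc : c ≠ 0) (hcd : c ≠ d) (n : ℕ) (x0 : K)
    (hx : x0 ≠ 0) (z : m3Om K) (hz : Tw.ev (Aop c d n (m3W F K (m3X x0))) z = 0) :
    ∃ w : PowerSeries K, Tw.ev (Aop c d n (m3X x0)) w = 0 ∧ m3W F K w = z ∧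
      (cc F w = 0 → z = 0) := by
  obtain ⟨e, he⟩ := exists_tors_equiv_W (m3W F K) m3W_injective (Aop c d n (m3X x0))
    (m3_coeff_zero c d hc hcd n x0) (m3_natDegree c d n x0 hx).2
  have hz' : z ∈ LinearMap.ker (Tw.ev (Tw.map (m3W F K) (Aop c d n (m3X x0)))) := by
    rw [map_Aop, LinearMap.mem_ker]
    exact hz
  obtain ⟨w, hw1, hw2, hw3⟩ := he ⟨z, hz'⟩
  refine ⟨w, hw1, hw2, fun h => ?_⟩
  rw [h] at hw3
  have h1 : e ⟨z, hz'⟩ = 0 := Subtype.ext hw3.symm
  have h2 : (⟨z, hz'⟩ : LinearMap.ker (Tw.ev (Tw.map (m3W F K) (Aop c d n (m3X x0))))) = 0 :=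
    (LinearEquiv.map_eq_zero_iff e).1 h1
  exact congrArg Subtype.val h2

theorem m3_ev_cc (c d : F) (n : ℕ) (x0 : K) (w : PowerSeries K)
    (hw : Tw.ev (Aop c d n (m3X x0)) w = 0) : Tw.ev (Aop c d n x0) (cc F w) = 0 := by
  have h := Tw.ev_map (cc F) (Aop c d n (m3X x0)) w
  rw [hw, map_zero, map_Aop, m3_cc_X] at h
  exact h

theorem m3_coeff_ofPS (w : PowerSeries K) (i : ℤ) (hi : i < 0) :
    (HahnSeries.ofPowerSeries ℤ K w).coeff i = 0 := by
  have h := PowerSeries.coeff_coe w i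
  rw [if_pos hi] at h
  exact h

theorem m3_coeff_ofPS_zero (w : PowerSeries K) :
    (HahnSeries.ofPowerSeries ℤ K w).coeff 0 = cc F w := by
  have h := HahnSeries.ofPowerSeries_apply_coeff (Γ := ℤ) w 0
  rw [Nat.cast_zero] at h
  rw [h, cc_apply, PowerSeries.coeff_zero_eq_constantCoeff_apply]

end m3

variable {F K M : Type*} [Field F] [Fintype F] [Field K] [Algebra F K] [IsAlgClosed K] [Field M]
  [Algebra (RatFunc K) M] [FiniteDimensional (RatFunc K) M] [IsGalois (RatFunc K) M]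
  [Algebra F M] [IsScalarTower F (RatFunc K) M]

theorem Emb_nonempty (c d : F) (hc : c ≠ 0) (hcd : c ≠ d) (n : ℕ) (hM : TorsField F K M c d n)
    (x0 : K) (hx : x0 ≠ 0) : (Emb M x0).Nonempty := by
  let _ : Algebra (RatFunc K) (LaurentSeries K) := (shift x0).toAlgebra
  have := hM.split
  have hsplit : ((Tw.addPoly (Aop c d n (RatFunc.X : RatFunc K))).map
      (algebraMap (RatFunc K) (LaurentSeries K))).Splits := by
    apply Polynomial.Splits.of_splits_map (m3i K) (IsAlgClosed.splits _)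
    intro a ha
    have h1 := (Polynomial.mem_roots'.1 ha).2
    rw [Polynomial.IsRoot.def, Polynomial.map_map, Polynomial.eval_map] at h1
    have h2 := Tw.aeval_addPoly (m3S F x0) (Aop c d n (RatFunc.X : RatFunc K)) a
    have h3 : Tw.ev (Tw.map (m3S F x0) (Aop c d n (RatFunc.X : RatFunc K))) a = 0 := by
      rw [← h2]
      exact h1
    have h4 : m3S F x0 (RatFunc.X : RatFunc K) = m3W F K (m3X x0) := by
      show m3i K (shift x0 RatFunc.X) = m3i K (HahnSeries.ofPowerSeries ℤ K (m3X x0))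
      rw [m3_ofX]
    rw [map_Aop, h4] at h3
    obtain ⟨w, _, hw2, _⟩ := m3_roots c d hc hcd n x0 hx a h3
    exact ⟨HahnSeries.ofPowerSeries ℤ K w, hw2⟩
  have f : M →ₐ[RatFunc K] LaurentSeries K :=
    Polynomial.IsSplittingField.lift M (Tw.addPoly (Aop c d n (RatFunc.X : RatFunc K))) hsplit
  exact ⟨f.toRingHom, fun r => f.commutes r⟩

omit [Fintype F] [IsAlgClosed K] [FiniteDimensional (RatFunc K) M] [IsGalois (RatFunc K) M] in
theorem m3_emb_algebraMap {x0 : K} {ε : M →+* LaurentSeries K} (hε : ε ∈ Emb M x0) (r : F) :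
    ε (algebraMap F M r) = HahnSeries.C (algebraMap F K r) := by
  rw [IsScalarTower.algebraMap_apply F (RatFunc K) M, hε]
  exact shift_C x0 (algebraMap F K r)

/-- `ε` followed by `K((s)) → Ω`. -/
def m3E {x0 : K} {ε : M →+* LaurentSeries K} (hε : ε ∈ Emb M x0) : M →ₐ[F] m3Om K where
  toRingHom := (m3i K).comp ε
  commutes' r := by
    show m3i K (ε (algebraMap F M r)) =
      m3i K (HahnSeries.ofPowerSeries ℤ K (algebraMap F (PowerSeries K) r))
    rw [m3_emb_algebraMap hε, m3_algebraMap]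

theorem m3E_apply {x0 : K} {ε : M →+* LaurentSeries K} (hε : ε ∈ Emb M x0) (v : M) :
    m3E (F := F) hε v = m3i K (ε v) := rfl

theorem m3E_X {x0 : K} {ε : M →+* LaurentSeries K} (hε : ε ∈ Emb M x0) :
    m3E (F := F) hε (xM K M) = m3W F K (m3X x0) := by
  rw [m3E_apply, m3W_apply, m3_ofX, xM, hε]

/-- The power series behind a torsion point. -/
theorem m3_key (c d : F) (hc : c ≠ 0) (hcd : c ≠ d) (n : ℕ)
    (x0 : K) (hx : x0 ≠ 0) (ε : M →+* LaurentSeries K) (hε : ε ∈ Emb M x0) (v : M)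
    (hv : Tw.ev (Aop c d n (xM K M)) v = 0) :
    ∃ w : PowerSeries K, Tw.ev (Aop c d n (m3X x0)) w = 0 ∧
      HahnSeries.ofPowerSeries ℤ K w = ε v ∧ (cc F w = 0 → v = 0) := by
  have h1 : Tw.ev (Aop c d n (m3W F K (m3X x0))) (m3E (F := F) hε v) = 0 := by
    have h := Tw.ev_map (m3E (F := F) hε) (Aop c d n (xM K M)) v
    rw [hv, map_zero, map_Aop, m3E_X] at h
    exact h
  obtain ⟨w, hw1, hw2, hw3⟩ := m3_roots c d hc hcd n x0 hx _ h1
  refine ⟨w, hw1, ?_, fun h => ?_⟩
  · rw [m3W_apply, m3E_apply] at hw2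
    exact (m3i K).injective hw2
  · have h2 := hw3 h
    rw [map_eq_zero] at h2
    exact h2

theorem exists_specEmb (c d : F) (hc : c ≠ 0) (hcd : c ≠ d) (n : ℕ) (hM : TorsField F K M c d n)
    (x0 : K) (hx : x0 ≠ 0) (ε : M →+* LaurentSeries K) (hε : ε ∈ Emb M x0) :
    ∃ E : LinearMap.ker (Tw.ev (Aop c d n (xM K M))) ≃ₗ[F]
        LinearMap.ker (Tw.ev (Aop c d n x0)),
      (∀ v : LinearMap.ker (Tw.ev (Aop c d n (xM K M))), (E v).1 = (ε v.1).coeff 0) ∧
      (∀ v : LinearMap.ker (Tw.ev (Aop c d n (xM K M))), ∀ i : ℤ, i < 0 → (ε v.1).coeff i = 0) ∧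
      (∀ v w : LinearMap.ker (Tw.ev (Aop c d n (xM K M))),
        w.1 = Tw.ev (Pt c (xM K M)) v.1 → (E w).1 = Tw.ev (Pt c x0) (E v).1) := by
  have hkey := fun (v : LinearMap.ker (Tw.ev (Aop c d n (xM K M)))) =>
    m3_key c d hc hcd n x0 hx ε hε v.1 (LinearMap.mem_ker.1 v.2)
  let E0 : LinearMap.ker (Tw.ev (Aop c d n (xM K M))) →ₗ[F] LinearMap.ker (Tw.ev (Aop c d n x0)) :=
    { toFun := fun v => ⟨(ε v.1).coeff 0, by
        obtain ⟨w, hw1, hw2, _⟩ := hkey v
        rw [LinearMap.mem_ker, ← hw2, m3_coeff_ofPS_zero (F := F)]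
        exact m3_ev_cc c d n x0 w hw1⟩
      map_add' := by
        intro v w
        apply Subtype.ext
        show (ε (v.1 + w.1)).coeff 0 = (ε v.1).coeff 0 + (ε w.1).coeff 0
        rw [map_add, HahnSeries.coeff_add]
      map_smul' := by
        intro r v
        apply Subtype.ext
        show (ε (r • v.1)).coeff 0 = r • (ε v.1).coeff 0
        rw [Algebra.smul_def, map_mul, m3_emb_algebraMap hε, HahnSeries.C_mul_eq_smul,
          HahnSeries.coeff_smul, smul_eq_mul, Algebra.smul_def] }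
  have hinj : Function.Injective E0 := by
    rw [← LinearMap.ker_eq_bot, LinearMap.ker_eq_bot']
    intro v hv
    obtain ⟨w, _, hw2, hw3⟩ := hkey v
    apply Subtype.ext
    apply hw3
    rw [← m3_coeff_ofPS_zero, hw2]
    exact congrArg Subtype.val hv
  have hc0 : (Aop c d n x0).coeff 0 ≠ 0 := by
    rw [coeff_zero_Aop, Ne, map_eq_zero]
    exact mul_ne_zero hc (pow_ne_zero _ (sub_ne_zero.2 hcd))
  have hcard : Nat.card (LinearMap.ker (Tw.ev (Aop c d n x0))) =
      Fintype.card F ^ (2 * (n + 2)) := by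
    rw [Tw.card_ker hc0, natDegree_Aop c d n hx]
  have hfin : Finite (LinearMap.ker (Tw.ev (Aop c d n x0))) := by
    apply Nat.finite_of_card_ne_zero
    rw [hcard]
    exact pow_ne_zero _ Fintype.card_ne_zero
  have hbij : Function.Bijective E0 :=
    hinj.bijective_of_nat_card_le (by rw [hcard, hM.card])
  refine ⟨LinearEquiv.ofBijective E0 hbij, fun v => rfl, fun v i hi => ?_, fun v w hvw => ?_⟩
  · obtain ⟨w, _, hw2, _⟩ := hkey v
    rw [← hw2]
    exact m3_coeff_ofPS w i hi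
  · obtain ⟨u, _, hu2, _⟩ := hkey v
    show (ε w.1).coeff 0 = Tw.ev (Pt c x0) ((ε v.1).coeff 0)
    have h1 : HahnSeries.ofPowerSeries ℤ K (Tw.ev (Pt c (m3X x0)) u) = ε w.1 := by
      apply (m3i K).injective
      have h2 := Tw.ev_map (m3W F K) (Pt c (m3X x0)) u
      have h3 := Tw.ev_map (m3E (F := F) hε) (Pt c (xM K M)) v.1
      have h4 : Tw.map (m3W F K) (Pt c (m3X x0)) = Tw.map (m3E (F := F) hε) (Pt c (xM K M)) := by
        unfold Pt
        rw [map_add, map_add, map_add, map_add, map_mul, map_mul, map_pow, map_pow,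
          AlgHom.commutes, AlgHom.commutes, Tw.map_T, Tw.map_T, Tw.map_C, Tw.map_C, m3E_X]
      have h5 : m3W F K u = m3E (F := F) hε v.1 := by
        rw [m3W_apply, m3E_apply, hu2]
      rw [← m3W_apply (F := F), ← m3E_apply (F := F) hε, ← h2, hvw, ← h3, h4, h5]
    rw [← h1, ← hu2, m3_coeff_ofPS_zero (F := F), m3_coeff_ofPS_zero (F := F)]
    have h6 := Tw.ev_map (cc F) (Pt c (m3X x0)) u
    have h7 : Tw.map (cc F) (Pt c (m3X x0)) = Pt c x0 := by
      unfold Pt
      rw [map_add, map_add, map_mul, map_pow, AlgHom.commutes, Tw.map_T, Tw.map_C, m3_cc_X]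
    rw [← h6, h7]

theorem specEmb_frob (c d : F) (n : ℕ) (φ : M ≃+* M) (σ : M ≃ₐ[RatFunc K] M) (k : ℕ)
    (hφ : ∀ v ∈ LinearMap.ker (Tw.ev (Aop c d n (xM K M))), (φ ^ k) v = v)
    (z : K × (M →+* LaurentSeries K)) (hz : z ∈ Cnt F φ σ k) (v : M)
    (hv : v ∈ LinearMap.ker (Tw.ev (Aop c d n (xM K M)))) :
    σ v ∈ LinearMap.ker (Tw.ev (Aop c d n (xM K M))) ∧
      ((z.2 v).coeff 0) ^ (Fintype.card F ^ k) = (z.2 (σ v)).coeff 0 := by
  constructor
  · have h := Tw.ev_map ((σ.restrictScalars F : M ≃ₐ[F] M) : M →ₐ[F] M) (Aop c d n (xM K M)) v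
    rw [LinearMap.mem_ker.1 hv, map_zero, map_Aop] at h
    have hX : ((σ.restrictScalars F : M ≃ₐ[F] M) : M →ₐ[F] M) (xM K M) = xM K M :=
      σ.commutes RatFunc.X
    rw [hX] at h
    rw [LinearMap.mem_ker]
    exact h
  · have h := hz.2.2.2 v
    rw [hφ v hv] at h
    rw [← h, coeff_frL]

end Pool.Agent.H9.Ram
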