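import Pool.Agent.H9.Ram.M3

/-!
# Module M5: fixed points of `τ^k` and of `σ`

Let `z = (x₀, ε) ∈ Cnt F φ σ k`, `φ^k` the identity on the torsion. With `E` from `exists_specEmb` the map `L ↦ E(L)` is a
bijection between the submodules of `ker (ev A_M)` and those of `ker (ev (Aop c d n x₀))`, compatible with `P`, and
`τ^k E(v) = E(σ v)` (`specEmb_frob`). The submodules cyclic of level `n` for `P - d` and the lines in `ker P` are contained in
these kernels (`A = P (P-d)^(n+1) = (P-d)^(n+1) P`); `IsCyc` is transported in both directions (`IsCyc.map`);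
`L.map τ^k ≤ L` iff `L.map τ^k = L` (finite, injective) iff `gact σ` fixes the corresponding submodule.
-/

open Polynomial

noncomputable section

namespace Pool.Agent.H9.Ram

/-! ### Linear algebra -/

private theorem m5_cyc_mem {F V : Type*} [Field F] [AddCommGroup V] [Module F V]
    {ν : Module.End F V} {n : ℕ} {L : Submodule F V} (h : IsCyc ν n L) :
    L ≤ LinearMap.ker (ν ^ (n + 1)) := by
  obtain ⟨y, h1, -, rfl⟩ := h
  rw [Submodule.span_le]
  rintro _ ⟨i, rfl⟩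
  show (ν ^ (n + 1)) ((ν ^ i) y) = 0
  rw [← Module.End.mul_apply, ← pow_add, add_comm, pow_add, Module.End.mul_apply, h1, map_zero]

private theorem m5_cyc_fd {F V : Type*} [Field F] [AddCommGroup V] [Module F V]
    {ν : Module.End F V} {n : ℕ} {L : Submodule F V} (h : IsCyc ν n L) :
    FiniteDimensional F L := by
  obtain ⟨y, h1, -, rfl⟩ := h
  have hfin : (Set.range fun i : ℕ => (ν ^ i) y) ⊆
      ((fun i : ℕ => (ν ^ i) y) '' (Finset.range (n + 2) : Set ℕ)) := by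
    rintro _ ⟨i, rfl⟩
    by_cases hi : i < n + 2
    · exact ⟨i, by simpa using hi, rfl⟩
    · refine ⟨n + 1, by simp, ?_⟩
      show (ν ^ (n + 1)) y = (ν ^ i) y
      obtain ⟨j, rfl⟩ : ∃ j, i = j + (n + 1) := ⟨i - (n + 1), by omega⟩
      rw [pow_add ν j (n + 1), Module.End.mul_apply, h1, map_zero]
  exact FiniteDimensional.span_of_finite F (((Finset.finite_toSet _).image _).subset hfin)

private theorem m5_cyc_map {F V V' : Type*} [Field F] [AddCommGroup V] [Module F V]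
    [AddCommGroup V'] [Module F V'] {ν : Module.End F V} {ν' : Module.End F V'} {n : ℕ}
    {L : Submodule F V} (h : IsCyc ν n L) (f : V →ₗ[F] V')
    (hf : ∀ y ∈ L, f (ν y) = ν' (f y)) (hinj : ∀ y ∈ L, f y = 0 → y = 0) :
    IsCyc ν' n (L.map f) := by
  obtain ⟨y, h1, h2, rfl⟩ := h
  have hmem : ∀ i : ℕ, (ν ^ i) y ∈ Submodule.span F (Set.range fun i : ℕ => (ν ^ i) y) :=
    fun i => Submodule.subset_span ⟨i, rfl⟩
  have hpow : ∀ i : ℕ, f ((ν ^ i) y) = (ν' ^ i) (f y) := by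
    intro i
    induction i with
    | zero => simp
    | succ i ih =>
      rw [pow_succ', pow_succ', Module.End.mul_apply, Module.End.mul_apply, hf _ (hmem i), ih]
  refine ⟨f y, ?_, ?_, ?_⟩
  · rw [← hpow, h1, map_zero]
  · rw [← hpow]
    intro h0
    exact h2 (hinj _ (hmem n) h0)
  · rw [Submodule.map_span, ← Set.range_comp]
    congr 1
    ext w
    constructor
    · rintro ⟨i, rfl⟩; exact ⟨i, (hpow i).symm⟩
    · rintro ⟨i, rfl⟩; exact ⟨i, hpow i⟩

private theorem m5_finrank_map {F V V' : Type*} [Field F] [AddCommGroup V] [Module F V]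
    [AddCommGroup V'] [Module F V'] (L : Submodule F V) (f : V →ₗ[F] V')
    (hinj : ∀ y ∈ L, f y = 0 → y = 0) :
    Module.finrank F (L.map f : Submodule F V') = Module.finrank F L := by
  rw [← LinearMap.range_domRestrict]
  apply LinearMap.finrank_range_of_inj
  rw [injective_iff_map_eq_zero]
  intro y hy
  exact Subtype.ext (hinj y.1 y.2 hy)

section m5general

variable {F R : Type*} [Field F] [Fintype F] [Field R] [Algebra F R]

private theorem m5_comm (c d : F) (n : ℕ) (x : R) :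
    Commute (Pt c x) ((Pt c x - algebraMap F (Tw F R) d) ^ (n + 1)) := by
  apply Commute.pow_right
  apply Commute.sub_right (Commute.refl _)
  exact (Algebra.commutes d (Pt c x)).symm

/-- Submodules killed by a power of `P - d` are in the kernel of `A`. -/
private theorem m5_ker_nu (c d : F) (n : ℕ) (x : R) :
    LinearMap.ker ((nu (Pt c x) d) ^ (n + 1)) ≤ LinearMap.ker (Tw.ev (Aop c d n x)) := by
  intro y hy
  have h1 : (nu (Pt c x) d) ^ (n + 1) =
      Tw.ev ((Pt c x - algebraMap F (Tw F R) d) ^ (n + 1)) := by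
    rw [nu, map_pow]
  rw [LinearMap.mem_ker, h1] at hy
  rw [LinearMap.mem_ker, Aop, Tw.ev_mul, hy, map_zero]

private theorem m5_ker_P (c d : F) (n : ℕ) (x : R) :
    LinearMap.ker (Tw.ev (Pt c x)) ≤ LinearMap.ker (Tw.ev (Aop c d n x)) := by
  intro y hy
  rw [LinearMap.mem_ker] at hy
  rw [LinearMap.mem_ker, Aop, (m5_comm c d n x).eq, Tw.ev_mul, hy, map_zero]

private theorem m5_P_mem (c d : F) (n : ℕ) (x : R) {y : R}
    (hy : y ∈ LinearMap.ker (Tw.ev (Aop c d n x))) :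
    Tw.ev (Pt c x) y ∈ LinearMap.ker (Tw.ev (Aop c d n x)) := by
  rw [LinearMap.mem_ker] at hy ⊢
  rw [← Tw.ev_mul]
  have hc : Aop c d n x * Pt c x = Pt c x * Aop c d n x := by
    rw [Aop, mul_assoc, ← (m5_comm c d n x).eq]
  rw [hc, Tw.ev_mul, hy, map_zero]

private theorem m5_nu_apply (c d : F) (x : R) (y : R) :
    nu (Pt c x) d y = Tw.ev (Pt c x) y - d • y := by
  rw [nu, map_sub, AlgHom.commutes]
  rfl

end m5general

variable {F K M : Type*} [Field F] [Fintype F] [Field K] [Algebra F K] [IsAlgClosed K] [Field M]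
  [Algebra (RatFunc K) M] [FiniteDimensional (RatFunc K) M] [IsGalois (RatFunc K) M]
  [Algebra F M] [IsScalarTower F (RatFunc K) M]

/-- The transport data. -/
private structure M5Tr (c d : F) (n : ℕ) (σ : M ≃ₐ[RatFunc K] M) (k : ℕ) (x0 : K)
    (f : M →ₗ[F] K) (g : K →ₗ[F] M) : Prop where
  gf : ∀ v ∈ LinearMap.ker (Tw.ev (Aop c d n (xM K M))), g (f v) = v
  fg : ∀ w ∈ LinearMap.ker (Tw.ev (Aop c d n x0)), f (g w) = w
  fm : ∀ v ∈ LinearMap.ker (Tw.ev (Aop c d n (xM K M))),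
    f v ∈ LinearMap.ker (Tw.ev (Aop c d n x0))
  gm : ∀ w ∈ LinearMap.ker (Tw.ev (Aop c d n x0)),
    g w ∈ LinearMap.ker (Tw.ev (Aop c d n (xM K M)))
  P : ∀ v ∈ LinearMap.ker (Tw.ev (Aop c d n (xM K M))),
    f (Tw.ev (Pt c (xM K M)) v) = Tw.ev (Pt c x0) (f v)
  sm : ∀ v ∈ LinearMap.ker (Tw.ev (Aop c d n (xM K M))),
    σ v ∈ LinearMap.ker (Tw.ev (Aop c d n (xM K M)))
  s : ∀ v ∈ LinearMap.ker (Tw.ev (Aop c d n (xM K M))),
    Tw.ev (Tw.T ^ k : Tw F K) (f v) = f (σ v)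

private theorem m5_exists (c d : F) (hc : c ≠ 0) (hcd : c ≠ d) (n : ℕ) (hM : TorsField F K M c d n)
    (φ : M ≃+* M) (σ : M ≃ₐ[RatFunc K] M) (k : ℕ)
    (hφ : ∀ v ∈ LinearMap.ker (Tw.ev (Aop c d n (xM K M))), (φ ^ k) v = v)
    (z : K × (M →+* LaurentSeries K)) (hz : z ∈ Cnt F φ σ k) :
    ∃ f : M →ₗ[F] K, ∃ g : K →ₗ[F] M, M5Tr c d n σ k z.1 f g := by
  obtain ⟨E, hE1, -, hE3⟩ := exists_specEmb c d hc hcd n hM z.1 hz.1 z.2 hz.2.2.1
  obtain ⟨f, hf⟩ := LinearMap.exists_extend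
    ((LinearMap.ker (Tw.ev (Aop c d n z.1))).subtype ∘ₗ E.toLinearMap)
  obtain ⟨g, hg⟩ := LinearMap.exists_extend
    ((LinearMap.ker (Tw.ev (Aop c d n (xM K M)))).subtype ∘ₗ E.symm.toLinearMap)
  have hf' : ∀ v : LinearMap.ker (Tw.ev (Aop c d n (xM K M))), f v.1 = (E v).1 := by
    intro v
    exact LinearMap.congr_fun hf v
  have hg' : ∀ w : LinearMap.ker (Tw.ev (Aop c d n z.1)), g w.1 = (E.symm w).1 := by
    intro w
    exact LinearMap.congr_fun hg w
  refine ⟨f, g, ?_, ?_, ?_, ?_, ?_, ?_, ?_⟩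
  · intro v hv
    rw [hf' ⟨v, hv⟩, hg' (E ⟨v, hv⟩), LinearEquiv.symm_apply_apply]
  · intro w hw
    rw [hg' ⟨w, hw⟩, hf' (E.symm ⟨w, hw⟩), LinearEquiv.apply_symm_apply]
  · intro v hv
    rw [hf' ⟨v, hv⟩]
    exact (E ⟨v, hv⟩).2
  · intro w hw
    rw [hg' ⟨w, hw⟩]
    exact (E.symm ⟨w, hw⟩).2
  · intro v hv
    have h1 := hE3 ⟨v, hv⟩ ⟨Tw.ev (Pt c (xM K M)) v, m5_P_mem c d n _ hv⟩ rfl
    rw [hf' ⟨v, hv⟩, ← h1]
    exact hf' ⟨Tw.ev (Pt c (xM K M)) v, m5_P_mem c d n _ hv⟩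
  · intro v hv
    exact (specEmb_frob c d n φ σ k hφ z hz v hv).1
  · intro v hv
    obtain ⟨h1, h2⟩ := specEmb_frob c d n φ σ k hφ z hz v hv
    rw [Tw.ev_T_pow, hf' ⟨v, hv⟩, hE1 ⟨v, hv⟩, h2, hf' ⟨σ v, h1⟩, hE1 ⟨σ v, h1⟩]

section transport

variable {c d : F} {n : ℕ} {σ : M ≃ₐ[RatFunc K] M} {k : ℕ} {x0 : K}
  {f : M →ₗ[F] K} {g : K →ₗ[F] M}

private theorem m5_map_map (h : M5Tr c d n σ k x0 f g) {L : Submodule F M}
    (hL : L ≤ LinearMap.ker (Tw.ev (Aop c d n (xM K M)))) : (L.map f).map g = L := by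
  ext v
  constructor
  · rintro ⟨w, ⟨u, hu, rfl⟩, rfl⟩
    rw [h.gf u (hL hu)]; exact hu
  · intro hv
    exact ⟨f v, ⟨v, hv, rfl⟩, h.gf v (hL hv)⟩

private theorem m5_map_map' (h : M5Tr c d n σ k x0 f g) {L : Submodule F K}
    (hL : L ≤ LinearMap.ker (Tw.ev (Aop c d n x0))) : (L.map g).map f = L := by
  ext v
  constructor
  · rintro ⟨w, ⟨u, hu, rfl⟩, rfl⟩
    rw [h.fg u (hL hu)]; exact hu
  · intro hv
    exact ⟨g v, ⟨v, hv, rfl⟩, h.fg v (hL hv)⟩

private theorem m5_inj (h : M5Tr c d n σ k x0 f g) {L : Submodule F M}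
    (hL : L ≤ LinearMap.ker (Tw.ev (Aop c d n (xM K M)))) : ∀ y ∈ L, f y = 0 → y = 0 := by
  intro y hy h0
  rw [← h.gf y (hL hy), h0, map_zero]

private theorem m5_inj' (h : M5Tr c d n σ k x0 f g) {L : Submodule F K}
    (hL : L ≤ LinearMap.ker (Tw.ev (Aop c d n x0))) : ∀ y ∈ L, g y = 0 → y = 0 := by
  intro y hy h0
  rw [← h.fg y (hL hy), h0, map_zero]

private theorem m5_P' (h : M5Tr c d n σ k x0 f g) {w : K}
    (hw : w ∈ LinearMap.ker (Tw.ev (Aop c d n x0))) :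
    g (Tw.ev (Pt c x0) w) = Tw.ev (Pt c (xM K M)) (g w) := by
  have h1 := h.P (g w) (h.gm w hw)
  rw [h.fg w hw] at h1
  rw [← h1]
  exact h.gf _ (m5_P_mem c d n _ (h.gm w hw))

private theorem m5_gact_le (h : M5Tr c d n σ k x0 f g) {L : Submodule F M}
    (hL : L ≤ LinearMap.ker (Tw.ev (Aop c d n (xM K M)))) :
    gact σ L ≤ LinearMap.ker (Tw.ev (Aop c d n (xM K M))) := by
  rintro _ ⟨v, hv, rfl⟩
  exact h.sm v (hL hv)

private theorem m5_map_T (h : M5Tr c d n σ k x0 f g) {L : Submodule F M}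
    (hL : L ≤ LinearMap.ker (Tw.ev (Aop c d n (xM K M)))) :
    (L.map f).map (Tw.ev (Tw.T ^ k : Tw F K)) = (gact σ L).map f := by
  ext w
  constructor
  · rintro ⟨_, ⟨v, hv, rfl⟩, rfl⟩
    exact ⟨σ v, ⟨v, hv, rfl⟩, (h.s v (hL hv)).symm⟩
  · rintro ⟨_, ⟨v, hv, rfl⟩, rfl⟩
    exact ⟨f v, ⟨v, hv, rfl⟩, h.s v (hL hv)⟩

private theorem m5_fix_iff (h : M5Tr c d n σ k x0 f g) {L : Submodule F M}
    [FiniteDimensional F L]
    (hL : L ≤ LinearMap.ker (Tw.ev (Aop c d n (xM K M)))) :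
    (L.map f).map (Tw.ev (Tw.T ^ k : Tw F K)) ≤ L.map f ↔ gact σ L = L := by
  rw [m5_map_T h hL]
  constructor
  · intro h1
    have h2 : gact σ L ≤ L := by
      intro v hv
      obtain ⟨u, hu, huv⟩ := h1 ⟨v, hv, rfl⟩
      have h3 : g (f u) = g (f v) := by rw [huv]
      rw [h.gf u (hL hu), h.gf v (m5_gact_le h hL hv)] at h3
      rw [← h3]; exact hu
    apply Submodule.eq_of_le_of_finrank_eq h2
    exact LinearEquiv.finrank_eq
      (Submodule.equivMapOfInjective (σ.restrictScalars F).toLinearMap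
        (σ.restrictScalars F).injective L).symm
  · intro h1
    rw [h1]

end transport

theorem ncard_fixC (c d : F) (hc : c ≠ 0) (hcd : c ≠ d) (n : ℕ) (hM : TorsField F K M c d n)
    (φ : M ≃+* M) (σ : M ≃ₐ[RatFunc K] M) (k : ℕ)
    (hφ : ∀ v ∈ LinearMap.ker (Tw.ev (Aop c d n (xM K M))), (φ ^ k) v = v)
    (z : K × (M →+* LaurentSeries K)) (hz : z ∈ Cnt F φ σ k) :
    {L : Submodule F K | IsCyc (nu (Pt c z.1) d) n L ∧
      L.map (Tw.ev (Tw.T ^ k : Tw F K)) ≤ L}.ncard = fC c d n σ := by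
  obtain ⟨f, g, h⟩ := m5_exists c d hc hcd n hM φ σ k hφ z hz
  rw [fC]
  symm
  have hker : ∀ L : Submodule F M, IsCyc (nu (Pt c (xM K M)) d) n L →
      L ≤ LinearMap.ker (Tw.ev (Aop c d n (xM K M))) := fun L hL =>
    (m5_cyc_mem hL).trans (m5_ker_nu c d n _)
  have hker' : ∀ L : Submodule F K, IsCyc (nu (Pt c z.1) d) n L →
      L ≤ LinearMap.ker (Tw.ev (Aop c d n z.1)) := fun L hL =>
    (m5_cyc_mem hL).trans (m5_ker_nu c d n _)
  refine Set.ncard_congr (fun L _ => L.map f) ?_ ?_ ?_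
  · rintro L ⟨hL, hσ⟩
    have : FiniteDimensional F L := m5_cyc_fd hL
    refine ⟨m5_cyc_map hL f ?_ (m5_inj h (hker L hL)), (m5_fix_iff h (hker L hL)).2 hσ⟩
    intro y hy
    rw [m5_nu_apply, m5_nu_apply, map_sub, map_smul, h.P y (hker L hL hy)]
  · rintro L L' ⟨hL, -⟩ ⟨hL', -⟩ he
    have he' : L.map f = L'.map f := he
    rw [← m5_map_map h (hker L hL), he', m5_map_map h (hker L' hL')]
  · rintro L' ⟨hL', hT⟩
    have hcyc : IsCyc (nu (Pt c (xM K M)) d) n (L'.map g) := by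
      refine m5_cyc_map hL' g ?_ (m5_inj' h (hker' L' hL'))
      intro y hy
      rw [m5_nu_apply, m5_nu_apply, map_sub, map_smul, m5_P' h (hker' L' hL' hy)]
    have : FiniteDimensional F (L'.map g : Submodule F M) := m5_cyc_fd hcyc
    refine ⟨L'.map g, ⟨hcyc, ?_⟩, m5_map_map' h (hker' L' hL')⟩
    rw [← m5_fix_iff h (hker _ hcyc), m5_map_map' h (hker' L' hL')]
    exact hT

theorem ncard_fixR (c d : F) (hc : c ≠ 0) (hcd : c ≠ d) (n : ℕ) (hM : TorsField F K M c d n)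
    (φ : M ≃+* M) (σ : M ≃ₐ[RatFunc K] M) (k : ℕ)
    (hφ : ∀ v ∈ LinearMap.ker (Tw.ev (Aop c d n (xM K M))), (φ ^ k) v = v)
    (z : K × (M →+* LaurentSeries K)) (hz : z ∈ Cnt F φ σ k) :
    {l : Submodule F K | IsFixLine c k z.1 l}.ncard = fR c σ := by
  obtain ⟨f, g, h⟩ := m5_exists c d hc hcd n hM φ σ k hφ z hz
  rw [fR]
  symm
  have hker : ∀ l : Submodule F M, l ≤ LinearMap.ker (Tw.ev (Pt c (xM K M))) →
      l ≤ LinearMap.ker (Tw.ev (Aop c d n (xM K M))) := fun l hl => hl.trans (m5_ker_P c d n _)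
  have hker' : ∀ l : Submodule F K, l ≤ LinearMap.ker (Tw.ev (Pt c z.1)) →
      l ≤ LinearMap.ker (Tw.ev (Aop c d n z.1)) := fun l hl => hl.trans (m5_ker_P c d n _)
  refine Set.ncard_congr (fun L _ => L.map f) ?_ ?_ ?_
  · rintro L ⟨h1, hL, hσ⟩
    have : FiniteDimensional F L := FiniteDimensional.of_finrank_pos (by omega)
    refine ⟨?_, ?_, (m5_fix_iff h (hker L hL)).2 hσ⟩
    · rw [m5_finrank_map L f (m5_inj h (hker L hL)), h1]
    · rintro _ ⟨y, hy, rfl⟩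
      rw [LinearMap.mem_ker, ← h.P y (hker L hL hy), LinearMap.mem_ker.1 (hL hy), map_zero]
  · rintro L L' ⟨-, hL, -⟩ ⟨-, hL', -⟩ he
    have he' : L.map f = L'.map f := he
    rw [← m5_map_map h (hker L hL), he', m5_map_map h (hker L' hL')]
  · rintro L' ⟨h1, hL', hT⟩
    have h2 : L'.map g ≤ LinearMap.ker (Tw.ev (Pt c (xM K M))) := by
      rintro _ ⟨y, hy, rfl⟩
      rw [LinearMap.mem_ker, ← m5_P' h (hker' L' hL' hy), LinearMap.mem_ker.1 (hL' hy), map_zero]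
    have h3 : Module.finrank F (L'.map g : Submodule F M) = 1 := by
      rw [m5_finrank_map L' g (m5_inj' h (hker' L' hL')), h1]
    have : FiniteDimensional F (L'.map g : Submodule F M) :=
      FiniteDimensional.of_finrank_pos (by omega)
    refine ⟨L'.map g, ⟨h3, h2, ?_⟩, m5_map_map' h (hker' L' hL')⟩
    rw [← m5_fix_iff h (hker _ h2), m5_map_map' h (hker' L' hL')]
    exact hT

end Pool.Agent.H9.Ram
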