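import Pool.Agent.H9.Ram.V5
import Pool.Agent.H9.Ram.C1

/-!
# Module V6: the dual involution on edges

For an edge `z = ((x, ζ, L), l)` choose `x', U, V` with `DualRel c x x' U V`, `ker U = l` (`exists_dual`) and `v` from
`DualRel.frob`. The dual edge is `((x', ζ v, U L), ker V)`. `U L` is cyclic of level `n` for `P_{x'} - d`:
`IsCyc.map` with `f = ev U` (`U P_x = P_{x'} U`), `U` is injective on `L` because `V U = P_x` is (on `L` the
operator `P_x - d` is nilpotent and `d ≠ 0`, so `P_x` is injective on `L`). It is `τ^k`-stable since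
`τ^k U = v⁻¹ U τ^k`. Membership of the dual edge in `DrEdge`: V5.
Injectivity: suppose `z₁, z₂` have the same dual edge. `DualRel.symm` and `DualRel.unique` (with `V₁`, `V₂` of the
same kernel, starting from `x'`) give `x₁ = x₂` and `V₂ = f V₁`, `U₁ = f U₂`, `f ∈ F^*`. So `l₁ = ker U₁ = ker U₂ = l₂`,
`v₁ = v₂` (the relation `U τ^k = v τ^k U` scales; and cancel), so `ζ₁ = ζ₂`; `U₁ L₁ = U₂ L₂ = U₁ L₂` (an `F`-multiple),
apply `V₁`: `P_x L₁ = P_x L₂`, and `P_x L_i = L_i` (`IsCyc.map_aeval_eq`, `P_x = ν + d`), so `L₁ = L₂`.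
-/

open Polynomial

noncomputable section

namespace Pool.Agent.H9.Ram

variable {F K : Type*} [Field F] [Fintype F] [Field K] [Algebra F K] [IsAlgClosed K]

/-- The edge `z'` is the dual of the edge `z`. -/
def IsDualEdge (c : F) (k : ℕ) (z z' : (K × F × Submodule F K) × Submodule F K) : Prop :=
  ∃ (U V : Tw F K) (v : F), DualRel c z.1.1 z'.1.1 U V ∧ LinearMap.ker (Tw.ev U) = z.2 ∧
    LinearMap.ker (Tw.ev V) = z'.2 ∧ v ≠ 0 ∧
    U * Tw.T ^ k = algebraMap F (Tw F K) v * (Tw.T ^ k * U) ∧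
    algebraMap F (Tw F K) v * (V * Tw.T ^ k) = Tw.T ^ k * V ∧
    z'.1.2.1 = z.1.2.1 * v ∧ z'.1.2.2 = z.1.2.2.map (Tw.ev U)

theorem v6_alg_comm (d : F) (U : Tw F K) :
    U * algebraMap F (Tw F K) d = algebraMap F (Tw F K) d * U := (Algebra.commutes d U).symm

theorem v6_ev_alg (d : F) (y : K) : Tw.ev (algebraMap F (Tw F K) d) y = d • y := by
  rw [Tw.algebraMap_apply, Tw.ev_C, Algebra.smul_def]

theorem v6_nu_apply (P : Tw F K) (d : F) (y : K) : nu P d y = Tw.ev P y - d • y := by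
  rw [nu, map_sub, LinearMap.sub_apply, v6_ev_alg]

theorem v6_ev_alg_mul (d : F) (U : Tw F K) (y : K) :
    Tw.ev (algebraMap F (Tw F K) d * U) y = d • Tw.ev U y := by
  rw [Tw.ev_mul, v6_ev_alg]

/-- `P` is injective on a cyclic module for `P - d`, `d ≠ 0`. -/
theorem v6_inj {P : Tw F K} {d : F} (hd : d ≠ 0) {n : ℕ} {L : Submodule F K}
    (h : IsCyc (nu P d) n L) {y : K} (hy : y ∈ L) (h0 : Tw.ev P y = 0) : y = 0 := by
  have h1 : nu P d y = (-d) • y := by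
    rw [v6_nu_apply, h0, zero_sub, neg_smul]
  have h2 : ∀ m : ℕ, (nu P d ^ m) y = (-d) ^ m • y := by
    intro m
    induction m with
    | zero => simp
    | succ m ih =>
      rw [pow_succ, Module.End.mul_apply, h1, map_smul, ih, smul_smul, pow_succ, mul_comm]
  have h3 := h.le_ker hy
  rw [LinearMap.mem_ker, h2] at h3
  exact (smul_eq_zero.1 h3).resolve_left (pow_ne_zero _ (neg_ne_zero.2 hd))

theorem v6_U_P {c : F} {x x' : K} {U V : Tw F K} (h : DualRel c x x' U V) :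
    U * Pt c x = Pt c x' * U := by
  rw [← h.2.2.1, ← h.2.2.2, mul_assoc]

theorem v6_intertwine {c d : F} {x x' : K} {U V : Tw F K} (h : DualRel c x x' U V) (y : K) :
    Tw.ev U (nu (Pt c x) d y) = nu (Pt c x') d (Tw.ev U y) := by
  rw [v6_nu_apply, v6_nu_apply, map_sub, map_smul, ← Tw.ev_mul, ← Tw.ev_mul, v6_U_P h]

theorem v6_isCyc_map {c d : F} (hd : d ≠ 0) {n : ℕ} {x x' : K} {U V : Tw F K}
    (h : DualRel c x x' U V) {L : Submodule F K} (hL : IsCyc (nu (Pt c x) d) n L) :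
    IsCyc (nu (Pt c x') d) n (L.map (Tw.ev U)) := by
  apply hL.map (Tw.ev U) (fun y _ => v6_intertwine h y)
  intro y hy h0
  apply v6_inj hd hL hy
  rw [← h.2.2.1, Tw.ev_mul, h0, map_zero]

theorem exists_dualEdge {c d : F} (hc : c ≠ 0) (hd : d ≠ 0) {n k : ℕ}
    (z : (K × F × Submodule F K) × Submodule F K) (hz : z ∈ DrEdge K c d n k) :
    ∃ z' ∈ DrEdge K c d n k, IsDualEdge c k z z' := by
  obtain ⟨⟨x, ζ, L⟩, l⟩ := z
  obtain ⟨⟨hx, hxk, hζ, hL, hLk⟩, hl1, hl2, hl3⟩ := hz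
  simp only at hx hxk hζ hL hLk hl1 hl2 hl3
  obtain ⟨x', U, V, hD, hker⟩ := exists_dual hc hx l hl1 hl2
  obtain ⟨hx', v, hv, hU, hV⟩ := hD.frob hc hxk (by rw [hker]; exact hl3)
  refine ⟨((x', ζ * v, L.map (Tw.ev U)), LinearMap.ker (Tw.ev V)), ⟨⟨hD.ne_zero.2, hx',
    mul_ne_zero hζ hv, v6_isCyc_map hd hD hL, ?_⟩, hD.isFixLine hc hv hV⟩,
    U, V, v, hD, hker, rfl, hv, hU, hV, rfl, rfl⟩
  show (L.map (Tw.ev U)).map (Tw.ev (Tw.T ^ k : Tw F K)) ≤ L.map (Tw.ev U)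
  rintro _ ⟨_, ⟨y, hy, rfl⟩, rfl⟩
  have h1 : Tw.ev U (Tw.ev (Tw.T ^ k : Tw F K) y) = v • Tw.ev (Tw.T ^ k : Tw F K) (Tw.ev U y) := by
    rw [← Tw.ev_mul, hU, v6_ev_alg_mul, Tw.ev_mul]
  have h2 : Tw.ev (Tw.T ^ k : Tw F K) (Tw.ev U y) =
      Tw.ev U (v⁻¹ • Tw.ev (Tw.T ^ k : Tw F K) y) := by
    rw [map_smul, h1, smul_smul, inv_mul_cancel₀ hv, one_smul]
  rw [h2]
  exact Submodule.mem_map_of_mem (L.smul_mem _ (hLk (Submodule.mem_map_of_mem hy)))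

/-- `P_x` maps a cyclic module onto itself. -/
theorem v6_map_P {P : Tw F K} {d : F} (hd : d ≠ 0) {n : ℕ} {L : Submodule F K}
    (hL : IsCyc (nu P d) n L) : L.map (Tw.ev P) = L := by
  have h := hL.map_aeval_eq (Polynomial.X + Polynomial.C d) (by simpa using hd)
  have h2 : Polynomial.aeval (nu P d) (Polynomial.X + Polynomial.C d) = Tw.ev P := by
    ext y
    rw [map_add, Polynomial.aeval_X, Polynomial.aeval_C, LinearMap.add_apply, v6_nu_apply,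
      Module.algebraMap_end_apply, sub_add_cancel]
  rw [h2] at h
  exact h

theorem v6_map_alg_mul {f : F} (hf : f ≠ 0) (U : Tw F K) (L : Submodule F K) :
    L.map (Tw.ev (algebraMap F (Tw F K) f * U)) = L.map (Tw.ev U) := by
  ext w
  constructor
  · rintro ⟨y, hy, rfl⟩
    rw [v6_ev_alg_mul, ← map_smul]
    exact Submodule.mem_map_of_mem (L.smul_mem _ hy)
  · rintro ⟨y, hy, rfl⟩
    refine ⟨f⁻¹ • y, L.smul_mem _ hy, ?_⟩
    rw [v6_ev_alg_mul, map_smul, smul_smul, mul_inv_cancel₀ hf, one_smul]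

theorem v6_ker_alg_mul {f : F} (hf : f ≠ 0) (U : Tw F K) :
    LinearMap.ker (Tw.ev (algebraMap F (Tw F K) f * U)) = LinearMap.ker (Tw.ev U) := by
  ext y
  rw [LinearMap.mem_ker, LinearMap.mem_ker, v6_ev_alg_mul, smul_eq_zero]
  exact ⟨fun h => h.resolve_left hf, fun h => Or.inr h⟩

theorem v6_map_mul (V U : Tw F K) (L : Submodule F K) :
    (L.map (Tw.ev U)).map (Tw.ev V) = L.map (Tw.ev (V * U)) := by
  ext w
  constructor
  · rintro ⟨_, ⟨y, hy, rfl⟩, rfl⟩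
    exact ⟨y, hy, by rw [Tw.ev_mul]⟩
  · rintro ⟨y, hy, rfl⟩
    exact ⟨_, ⟨y, hy, rfl⟩, by rw [Tw.ev_mul]⟩

theorem dualEdge_injective {c d : F} (hc : c ≠ 0) (hd : d ≠ 0) {n k : ℕ}
    (z₁ z₂ z' : (K × F × Submodule F K) × Submodule F K) (h₁ : z₁ ∈ DrEdge K c d n k)
    (h₂ : z₂ ∈ DrEdge K c d n k) (hd₁ : IsDualEdge c k z₁ z') (hd₂ : IsDualEdge c k z₂ z') :
    z₁ = z₂ := by
  obtain ⟨⟨x₁, ζ₁, L₁⟩, l₁⟩ := z₁
  obtain ⟨⟨x₂, ζ₂, L₂⟩, l₂⟩ := z₂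
  obtain ⟨⟨x', ζ', L'⟩, l'⟩ := z'
  obtain ⟨⟨_, _, _, hL₁, _⟩, _⟩ := h₁
  obtain ⟨⟨_, _, _, hL₂, _⟩, _⟩ := h₂
  obtain ⟨U₁, V₁, v₁, hD₁, hk₁, hk₁', hv₁, _, hV₁, hζ₁, hLL₁⟩ := hd₁
  obtain ⟨U₂, V₂, v₂, hD₂, hk₂, hk₂', hv₂, _, hV₂, hζ₂, hLL₂⟩ := hd₂
  simp only at hL₁ hL₂ hD₁ hD₂ hk₁ hk₂ hk₁' hk₂' hζ₁ hζ₂ hLL₁ hLL₂
  obtain ⟨hxx, f, hf, hVf, hUf⟩ := hD₁.symm.unique hc hD₂.symm (hk₁'.trans hk₂'.symm)
  subst hxx
  have hl : l₁ = l₂ := by rw [← hk₁, ← hk₂, hUf, v6_ker_alg_mul hf]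
  have hV₁0 : V₁ ≠ 0 := by
    rintro rfl
    have := (hD₁.coeff_zero_ne hc).2
    simp at this
  have hTk : (Tw.T ^ k : Tw F K) ≠ 0 := by
    intro h
    have := Tw.coeff_T_pow (F := F) (R := K) k k
    rw [h] at this
    simp at this
  have hv : v₁ = v₂ := by
    have h3 : algebraMap F (Tw F K) (f * (v₂ - v₁)) * (V₁ * Tw.T ^ k) = 0 := by
      rw [hVf] at hV₂
      have h4 : Tw.T ^ k * (algebraMap F (Tw F K) f * V₁) =
          algebraMap F (Tw F K) f * (algebraMap F (Tw F K) v₁ * (V₁ * Tw.T ^ k)) := by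
        rw [hV₁, ← mul_assoc, v6_alg_comm, mul_assoc]
      rw [h4] at hV₂
      have h5 : algebraMap F (Tw F K) v₂ * (algebraMap F (Tw F K) f * V₁ * Tw.T ^ k) =
          algebraMap F (Tw F K) (f * v₂) * (V₁ * Tw.T ^ k) := by
        rw [map_mul, mul_assoc, ← mul_assoc (algebraMap F (Tw F K) v₂), v6_alg_comm]
      rw [h5] at hV₂
      rw [mul_sub, map_sub, sub_mul, hV₂, map_mul, mul_assoc, sub_self]
    have h6 : algebraMap F (Tw F K) (f * (v₂ - v₁)) = 0 := by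
      rcases mul_eq_zero.1 h3 with h | h
      · exact h
      · exact absurd h (mul_ne_zero hV₁0 hTk)
    have h7 : f * (v₂ - v₁) = 0 := by
      have h8 := congrArg (fun g : Tw F K => g.coeff 0) h6
      simp only [Tw.algebraMap_apply, Tw.coeff_C_zero, Tw.coeff_zero'] at h8
      exact (map_eq_zero (algebraMap F K)).1 h8
    rcases mul_eq_zero.1 h7 with h | h
    · exact absurd h hf
    · exact (sub_eq_zero.1 h).symm
  subst hv
  have hζ : ζ₁ = ζ₂ := mul_right_cancel₀ hv₁ (hζ₁.symm.trans hζ₂)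
  have hL : L₁ = L₂ := by
    have h3 : L₁.map (Tw.ev U₁) = L₂.map (Tw.ev U₁) := by
      rw [← hLL₁, hLL₂]
      rw [hUf, v6_map_alg_mul hf]
    have h4 := congrArg (fun M : Submodule F K => M.map (Tw.ev V₁)) h3
    simp only [v6_map_mul, hD₁.2.2.1] at h4
    rw [v6_map_P hd hL₁, v6_map_P hd hL₂] at h4
    exact h4
  rw [hl, hζ, hL]

theorem v6_fin_x (k : ℕ) (hk : 0 < k) : {x : K | x ^ (Fintype.card F ^ k) = x}.Finite := by
  have hq : 1 < Fintype.card F ^ k := Nat.one_lt_pow hk.ne' Fintype.one_lt_card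
  have hne : (Polynomial.X ^ (Fintype.card F ^ k) - Polynomial.X : K[X]) ≠ 0 :=
    FiniteField.X_pow_card_sub_X_ne_zero K hq
  refine (Polynomial.X ^ (Fintype.card F ^ k) - Polynomial.X : K[X]).rootSet_finite K |>.subset ?_
  intro x hx
  rw [Polynomial.mem_rootSet]
  exact ⟨hne, by simp [show x ^ (Fintype.card F ^ k) = x from hx]⟩

theorem v6_fin_sub {f : Tw F K} (hf : f ≠ 0) :
    {L : Submodule F K | L ≤ LinearMap.ker (Tw.ev f)}.Finite := by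
  have h1 : {b : Set K | b ⊆ (LinearMap.ker (Tw.ev f) : Set K)}.Finite :=
    (Tw.finite_ker hf).finite_subsets
  exact h1.preimage (SetLike.coe_injective.injOn)

theorem v6_Pt_coeff_two (c : F) (x : K) : (Pt c x).coeff 2 = x := by
  rw [Pt, Tw.coeff_add, Tw.coeff_add, Tw.algebraMap_apply, Tw.coeff_C, Tw.coeff_T, Tw.coeff_C_mul,
    Tw.coeff_T_pow]
  simp

theorem v6_Pt_ne_zero (c : F) {x : K} (hx : x ≠ 0) : Pt c x ≠ 0 := by
  intro h
  have := v6_Pt_coeff_two c x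
  rw [h, Tw.coeff_zero'] at this
  exact hx this.symm

theorem v6_Pt_sub_ne_zero (c d : F) {x : K} (hx : x ≠ 0) :
    Pt c x - algebraMap F (Tw F K) d ≠ 0 := by
  intro h
  have := congrArg (fun g : Tw F K => g.coeff 2) h
  simp only [Tw.coeff_sub, v6_Pt_coeff_two, Tw.algebraMap_apply, Tw.coeff_C, Tw.coeff_zero'] at this
  rw [if_neg (by omega), sub_zero] at this
  exact hx this

theorem v6_cyc_le (c d : F) (n : ℕ) {x : K} {L : Submodule F K}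
    (hL : IsCyc (nu (Pt c x) d) n L) :
    L ≤ LinearMap.ker (Tw.ev ((Pt c x - algebraMap F (Tw F K) d) ^ (n + 1))) := by
  have := hL.le_ker
  rw [map_pow]
  exact this

theorem v6_fin_cyc (c d : F) (n : ℕ) {x : K} (hx : x ≠ 0) :
    {L : Submodule F K | IsCyc (nu (Pt c x) d) n L}.Finite :=
  (v6_fin_sub (pow_ne_zero (n + 1) (v6_Pt_sub_ne_zero c d hx))).subset
    fun _ hL => v6_cyc_le c d n hL

theorem finite_OO (c d : F) (n k : ℕ) (hk : 0 < k) : (OO K c d n k).Finite := by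
  have h : (⋃ x ∈ {x : K | x ^ (Fintype.card F ^ k) = x ∧ x ≠ 0},
      (fun L : Submodule F K => (x, L)) '' {L | IsCyc (nu (Pt c x) d) n L}).Finite := by
    apply Set.Finite.biUnion
    · exact (v6_fin_x k hk).subset fun x hx => hx.1
    · intro x hx
      exact (v6_fin_cyc c d n hx.2).image _
  refine h.subset ?_
  rintro ⟨x, L⟩ ⟨hx, hxk, hL, _⟩
  exact Set.mem_biUnion (show x ∈ {x : K | x ^ (Fintype.card F ^ k) = x ∧ x ≠ 0} from ⟨hxk, hx⟩)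
    ⟨L, hL, rfl⟩

theorem finite_TT (c d : F) (hc : c ≠ 0) (n k : ℕ) (hk : 0 < k) : (TT K c d n k).Finite := by
  have h : (⋃ o ∈ OO K c d n k,
      (fun l : Submodule F K => (o, l)) '' {l | l ≤ LinearMap.ker (Tw.ev (Pt c o.1))}).Finite := by
    apply Set.Finite.biUnion (finite_OO c d n k hk)
    intro o ho
    exact (v6_fin_sub (v6_Pt_ne_zero c ho.1)).image _
  refine h.subset ?_
  rintro ⟨o, l⟩ ⟨ho, hl⟩
  exact Set.mem_biUnion (show o ∈ OO K c d n k from ho) ⟨l, hl.2.1, rfl⟩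

theorem v6_DrObj_eq (c d : F) (n k : ℕ) : DrObj K c d n k =
    (fun p : F × (K × Submodule F K) => (p.2.1, p.1, p.2.2)) ''
      ({ζ : F | ζ ≠ 0} ×ˢ OO K c d n k) := by
  ext o
  obtain ⟨x, ζ, L⟩ := o
  constructor
  · rintro ⟨hx, hxk, hζ, hL, hLk⟩
    exact ⟨(ζ, (x, L)), ⟨hζ, hx, hxk, hL, hLk⟩, rfl⟩
  · rintro ⟨⟨ζ', ⟨x', L'⟩⟩, ⟨hζ, hx, hxk, hL, hLk⟩, heq⟩
    simp only [Prod.mk.injEq] at heq
    obtain ⟨rfl, rfl, rfl⟩ := heq
    exact ⟨hx, hxk, hζ, hL, hLk⟩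

theorem v6_DrEdge_eq (c d : F) (n k : ℕ) : DrEdge K c d n k =
    (fun p : F × ((K × Submodule F K) × Submodule F K) => ((p.2.1.1, p.1, p.2.1.2), p.2.2)) ''
      ({ζ : F | ζ ≠ 0} ×ˢ TT K c d n k) := by
  ext o
  obtain ⟨⟨x, ζ, L⟩, l⟩ := o
  constructor
  · rintro ⟨⟨hx, hxk, hζ, hL, hLk⟩, hl⟩
    exact ⟨(ζ, ((x, L), l)), ⟨hζ, ⟨hx, hxk, hL, hLk⟩, hl⟩, rfl⟩
  · rintro ⟨⟨ζ', ⟨⟨x', L'⟩, l'⟩⟩, ⟨hζ, ⟨hx, hxk, hL, hLk⟩, hl⟩, heq⟩
    simp only [Prod.mk.injEq] at heq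
    obtain ⟨⟨rfl, rfl, rfl⟩, rfl⟩ := heq
    exact ⟨⟨hx, hxk, hζ, hL, hLk⟩, hl⟩

theorem finite_DrObj (c d : F) (n k : ℕ) (hk : 0 < k) : (DrObj K c d n k).Finite := by
  rw [v6_DrObj_eq]
  exact ((Set.toFinite _).prod (finite_OO c d n k hk)).image _

theorem finite_DrEdge (c d : F) (hc : c ≠ 0) (n k : ℕ) (hk : 0 < k) :
    (DrEdge K c d n k).Finite := by
  rw [v6_DrEdge_eq]
  exact ((Set.toFinite _).prod (finite_TT c d hc n k hk)).image _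

theorem v6_ncard_ne_zero : {ζ : F | ζ ≠ 0}.ncard = Fintype.card F - 1 := by
  classical
  have h : {ζ : F | ζ ≠ 0} = (({0} : Set F)ᶜ) := by ext; simp
  rw [h, Set.ncard_compl, Set.ncard_singleton, Nat.card_eq_fintype_card]

/-- The scalar is free. -/
theorem ncard_DrObj (c d : F) (n k : ℕ) (hk : 0 < k) :
    (DrObj K c d n k).ncard = (Fintype.card F - 1) * (OO K c d n k).ncard := by
  rw [v6_DrObj_eq, Set.ncard_image_of_injective, Set.ncard_prod, v6_ncard_ne_zero]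
  rintro ⟨ζ, ⟨x, L⟩⟩ ⟨ζ', ⟨x', L'⟩⟩ h
  simp only [Prod.mk.injEq] at h
  obtain ⟨rfl, rfl, rfl⟩ := h
  rfl

theorem ncard_DrEdge (c d : F) (hc : c ≠ 0) (n k : ℕ) (hk : 0 < k) :
    (DrEdge K c d n k).ncard = (Fintype.card F - 1) * (TT K c d n k).ncard := by
  rw [v6_DrEdge_eq, Set.ncard_image_of_injective, Set.ncard_prod, v6_ncard_ne_zero]
  rintro ⟨ζ, ⟨⟨x, L⟩, l⟩⟩ ⟨ζ', ⟨⟨x', L'⟩, l'⟩⟩ h
  simp only [Prod.mk.injEq] at h
  obtain ⟨⟨rfl, rfl, rfl⟩, rfl⟩ := h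
  rfl

end Pool.Agent.H9.Ram
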