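import Pool.Agent.H9.Ram.M5
import Pool.Agent.H9.Ram.V6

/-!
# Module M6: the class function identity

`|G| (2 #OO - #TT) = ∑_σ #Cnt σ k · fC σ (2 - fR σ)` (in `ℤ`), if `φ^k` is the identity on the torsion, `k > 0`. Count the triples:
`#OO = ∑_{x₀} fC(x₀)`, `#TT = ∑_{x₀} fC(x₀) fR(x₀)` over the `x₀ ≠ 0` with `x₀^(q^k) = x₀`, where `fC(x₀)`, `fR(x₀)` are the numbers of
`τ^k`-stable cyclic submodules and lines. For each `x₀` there are `|G|` embeddings `ε`, each in `Cnt σ k` for exactly one `σ`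
(B1: `Emb.ncard`, `Emb.frob`, `Emb.exists_aut`, `Emb.aut_unique`), and then `fC(x₀) = fC σ`, `fR(x₀) = fR σ` (M5).
-/

open Polynomial

noncomputable section

namespace Pool.Agent.H9.Ram

theorem m6_ncard_fib {α β : Type*} (A : Set (α × β)) (hA : A.Finite) (S : Finset α)
    (h : ∀ z ∈ A, z.1 ∈ S) : A.ncard = ∑ a ∈ S, {b | (a, b) ∈ A}.ncard := by
  classical
  rw [Set.ncard_eq_toFinset_card A hA,
    Finset.card_eq_sum_card_fiberwise (f := fun z : α × β => z.1) (t := S)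
      (fun z hz => h z (by simpa using hz))]
  refine Finset.sum_congr rfl fun a _ => ?_
  rw [← Set.ncard_coe_finset]
  refine Set.ncard_congr (fun z _ => z.2) ?_ ?_ ?_
  · rintro ⟨a', b⟩ hz
    simp only [Finset.coe_filter, Set.Finite.mem_toFinset, Set.mem_ofPred_eq] at hz ⊢
    obtain ⟨h1, rfl⟩ := hz
    exact h1
  · rintro ⟨a1, b1⟩ ⟨a2, b2⟩ h1 h2 hb
    simp only [Finset.coe_filter, Set.Finite.mem_toFinset, Set.mem_ofPred_eq] at h1 h2 hb
    rw [h1.2, h2.2, hb]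
  · intro b hb
    exact ⟨(a, b), by simpa using hb, rfl⟩

variable {F K M : Type*} [Field F] [Fintype F] [Field K] [Algebra F K] [IsAlgClosed K] [Field M]
  [Algebra (RatFunc K) M] [FiniteDimensional (RatFunc K) M] [IsGalois (RatFunc K) M]
  [Algebra F M] [IsScalarTower F (RatFunc K) M]

omit [Algebra F M] [IsScalarTower F (RatFunc K) M] in
/-- every embedding belongs to exactly one `σ` -/
theorem m6_sum_emb (φ : M ≃+* M) (hD : FrData F K φ) (k : ℕ) (x0 : K) (hx : x0 ≠ 0)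
    (hxk : x0 ^ (Fintype.card F ^ k) = x0) :
    ∑ σ : M ≃ₐ[RatFunc K] M, {ε | (x0, ε) ∈ Cnt F φ σ k}.ncard =
      Fintype.card (M ≃ₐ[RatFunc K] M) := by
  classical
  have hfin : (Emb M x0).Finite := Emb.finite x0
  let A : Set ((M ≃ₐ[RatFunc K] M) × (M →+* LaurentSeries K)) := {z | (x0, z.2) ∈ Cnt F φ z.1 k}
  have hA : A.Finite := by
    refine (Set.finite_univ.prod hfin).subset ?_
    rintro ⟨σ, ε⟩ hz
    exact ⟨Set.mem_univ _, hz.2.2.1⟩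
  have h1 := m6_ncard_fib A hA Finset.univ (fun z _ => Finset.mem_univ _)
  have h2 : A.ncard = (Emb M x0).ncard := by
    refine Set.ncard_congr (fun z _ => z.2) ?_ ?_ ?_
    · rintro ⟨σ, ε⟩ hz
      exact hz.2.2.1
    · rintro ⟨σ, ε⟩ ⟨σ', ε'⟩ hz hz' (rfl : ε = ε')
      have : σ = σ' := by
        refine Emb.aut_unique (hz.2.2.1 : ε ∈ Emb M x0) σ σ' fun y => ?_
        have e1 := hz.2.2.2 ((φ ^ k).symm y)
        have e2 := hz'.2.2.2 ((φ ^ k).symm y)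
        simp only [RingEquiv.apply_symm_apply] at e1 e2
        rw [← e1, ← e2]
      rw [this]
    · intro ε hε
      obtain ⟨ε', hε', h3⟩ := Emb.frob hD hε k
      rw [hxk] at hε'
      obtain ⟨σ, hσ⟩ := Emb.exists_aut hε hε'
      exact ⟨(σ, ε), ⟨hx, hxk, hε, fun y => by rw [h3, hσ]⟩, rfl⟩
  rw [Emb.ncard (hD.emb x0 hx)] at h2
  rw [← h2, h1]
  rfl

theorem card_identity (c d : F) (hc : c ≠ 0) (hcd : c ≠ d) (n : ℕ) (hM : TorsField F K M c d n)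
    (φ : M ≃+* M) (hD : FrData F K φ) (k : ℕ) (hk : 0 < k)
    (hφ : ∀ v ∈ LinearMap.ker (Tw.ev (Aop c d n (xM K M))), (φ ^ k) v = v) :
    (Fintype.card (M ≃ₐ[RatFunc K] M) : ℤ) *
      (2 * ((OO K c d n k).ncard : ℤ) - ((TT K c d n k).ncard : ℤ)) =
      ∑ σ : M ≃ₐ[RatFunc K] M, ((Cnt F φ σ k).ncard : ℤ) *
        ((fC c d n σ : ℤ) * (2 - (fR c σ : ℤ))) := by
  classical
  -- the base points
  have hS : {x0 : K | x0 ≠ 0 ∧ x0 ^ (Fintype.card F ^ k) = x0}.Finite := by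
    have hf : (⋃ σ : M ≃ₐ[RatFunc K] M, (Cnt F φ σ k)).Finite :=
      Set.finite_iUnion fun σ => finite_Cnt σ hk
    refine (hf.image Prod.fst).subset ?_
    rintro x0 ⟨hx, hxk⟩
    obtain ⟨ε, hε⟩ := hD.emb x0 hx
    obtain ⟨ε', hε', h3⟩ := Emb.frob hD hε k
    rw [hxk] at hε'
    obtain ⟨σ, hσ⟩ := Emb.exists_aut hε hε'
    exact ⟨(x0, ε), Set.mem_iUnion.2 ⟨σ, ⟨hx, hxk, hε, fun y => by rw [h3, hσ]⟩⟩, rfl⟩
  let S : Finset K := hS.toFinset
  have hmem : ∀ x0, x0 ∈ S ↔ x0 ≠ 0 ∧ x0 ^ (Fintype.card F ^ k) = x0 := fun x0 => by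
    simp [S]
  let gC : K → ℕ := fun x0 => {L : Submodule F K | IsCyc (nu (Pt c x0) d) n L ∧
      L.map (Tw.ev (Tw.T ^ k : Tw F K)) ≤ L}.ncard
  let gR : K → ℕ := fun x0 => {l : Submodule F K | IsFixLine c k x0 l}.ncard
  have hOO : (OO K c d n k).ncard = ∑ x0 ∈ S, gC x0 := by
    rw [m6_ncard_fib (OO K c d n k) (finite_OO c d n k hk) S
      (fun z hz => (hmem z.1).2 ⟨hz.1, hz.2.1⟩)]
    refine Finset.sum_congr rfl fun x0 hx0 => ?_
    rw [hmem] at hx0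
    congr 1
    ext L
    exact ⟨fun h => h.2.2, fun h => ⟨hx0.1, hx0.2, h⟩⟩
  have hTT : (TT K c d n k).ncard = ∑ x0 ∈ S, gC x0 * gR x0 := by
    have hfin := finite_TT (K := K) c d hc n k hk
    -- reassociate
    let B : Set (K × (Submodule F K × Submodule F K)) :=
      {z | ((z.1, z.2.1), z.2.2) ∈ TT K c d n k}
    have hB : (TT K c d n k).ncard = B.ncard := by
      refine Set.ncard_congr (fun z _ => (z.1.1, (z.1.2, z.2))) ?_ ?_ ?_
      · rintro ⟨⟨x, L⟩, l⟩ hz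
        exact hz
      · rintro ⟨⟨x, L⟩, l⟩ ⟨⟨x', L'⟩, l'⟩ _ _ h
        simp only [Prod.mk.injEq] at h ⊢
        exact ⟨⟨h.1, h.2.1⟩, h.2.2⟩
      · rintro ⟨x, L, l⟩ hz
        exact ⟨((x, L), l), hz, rfl⟩
    have hBfin : B.Finite := by
      have : B = (fun z : (K × Submodule F K) × Submodule F K => (z.1.1, (z.1.2, z.2))) ''
          (TT K c d n k) := by
        ext ⟨x, L, l⟩
        constructor
        · intro hz
          exact ⟨((x, L), l), hz, rfl⟩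
        · rintro ⟨⟨⟨x', L'⟩, l'⟩, hz, h⟩
          simp only [Prod.mk.injEq] at h
          obtain ⟨rfl, rfl, rfl⟩ := h
          exact hz
      rw [this]
      exact hfin.image _
    rw [hB, m6_ncard_fib B hBfin S (fun z hz => (hmem z.1).2 ⟨hz.1.1, hz.1.2.1⟩)]
    refine Finset.sum_congr rfl fun x0 hx0 => ?_
    rw [hmem] at hx0
    rw [← Set.ncard_prod]
    congr 1
    ext ⟨L, l⟩
    exact ⟨fun h => ⟨h.1.2.2, h.2⟩, fun h => ⟨⟨hx0.1, hx0.2, h.1⟩, h.2⟩⟩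
  have hCnt : ∀ σ : M ≃ₐ[RatFunc K] M, (Cnt F φ σ k).ncard =
      ∑ x0 ∈ S, {ε | (x0, ε) ∈ Cnt F φ σ k}.ncard := fun σ =>
    m6_ncard_fib (Cnt F φ σ k) (finite_Cnt σ hk) S (fun z hz => (hmem z.1).2 ⟨hz.1, hz.2.1⟩)
  have hterm : ∀ (σ : M ≃ₐ[RatFunc K] M) (x0 : K),
      (({ε | (x0, ε) ∈ Cnt F φ σ k}.ncard : ℕ) : ℤ) * ((fC c d n σ : ℤ) * (2 - (fR c σ : ℤ))) =
      (({ε | (x0, ε) ∈ Cnt F φ σ k}.ncard : ℕ) : ℤ) * ((gC x0 : ℤ) * (2 - (gR x0 : ℤ))) := by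
    intro σ x0
    rcases Set.eq_empty_or_nonempty {ε | (x0, ε) ∈ Cnt F φ σ k} with h | ⟨ε, hε⟩
    · rw [h, Set.ncard_empty]; simp
    · have h1 : gC x0 = fC c d n σ := ncard_fixC c d hc hcd n hM φ σ k hφ (x0, ε) hε
      have h2 : gR x0 = fR c σ := ncard_fixR c d hc hcd n hM φ σ k hφ (x0, ε) hε
      rw [h1, h2]
  calc (Fintype.card (M ≃ₐ[RatFunc K] M) : ℤ) *
      (2 * ((OO K c d n k).ncard : ℤ) - ((TT K c d n k).ncard : ℤ))
      = ∑ x0 ∈ S, (Fintype.card (M ≃ₐ[RatFunc K] M) : ℤ) *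
          ((gC x0 : ℤ) * (2 - (gR x0 : ℤ))) := by
        rw [hOO, hTT]
        push_cast
        rw [Finset.mul_sum, ← Finset.sum_sub_distrib, Finset.mul_sum]
        refine Finset.sum_congr rfl fun x0 _ => ?_
        ring
    _ = ∑ x0 ∈ S, ∑ σ : M ≃ₐ[RatFunc K] M,
          (({ε | (x0, ε) ∈ Cnt F φ σ k}.ncard : ℕ) : ℤ) *
            ((gC x0 : ℤ) * (2 - (gR x0 : ℤ))) := by
        refine Finset.sum_congr rfl fun x0 hx0 => ?_
        rw [hmem] at hx0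
        rw [← Finset.sum_mul, ← m6_sum_emb φ hD k x0 hx0.1 hx0.2]
        push_cast
        rfl
    _ = ∑ σ : M ≃ₐ[RatFunc K] M, ∑ x0 ∈ S,
          (({ε | (x0, ε) ∈ Cnt F φ σ k}.ncard : ℕ) : ℤ) *
            ((fC c d n σ : ℤ) * (2 - (fR c σ : ℤ))) := by
        rw [Finset.sum_comm]
        refine Finset.sum_congr rfl fun σ _ => Finset.sum_congr rfl fun x0 _ => ?_
        rw [hterm]
    _ = ∑ σ : M ≃ₐ[RatFunc K] M, ((Cnt F φ σ k).ncard : ℤ) *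
        ((fC c d n σ : ℤ) * (2 - (fR c σ : ℤ))) := by
        refine Finset.sum_congr rfl fun σ _ => ?_
        rw [hCnt σ]
        push_cast
        rw [← Finset.sum_mul]

end Pool.Agent.H9.Ram
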