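import Pool.Agent.H9.Ram.M0
import Pool.Agent.H9.Ram.I6

/-!
# Module M7: Burnside

Let `𝒞` = submodules of `M` cyclic of level `n` for `P - d`, `ℛ` = lines in `ker P`. `G` acts on both finite sets (`P` has coefficients
in `K(x)`). By Burnside's lemma (`MulAction.sum_card_fixedBy_eq_card_orbits_mul_card_group`)
`∑_σ fC σ = |G| #orbits(𝒞)` and `∑_σ fC σ fR σ = |G| #orbits(𝒞 × ℛ)`. `G` is transitive on `𝒞` (I6). If `𝒞` is empty both sums
vanish. If `𝒞` is nonempty then `∑ fC = |G|`, and `ℛ` is nonempty (full torsion: `ker P_M` has `q²` elements; e.g. the kernel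
of `ev A_M` has `q^(2(n+2))` elements, `(P-d)^(n+1)` maps it to `ker P` with kernel of at most `q^(2(n+1))` elements), so the second
sum is at least `|G|`. So `∑_σ fC σ (2 - fR σ) ≤ |G|`.
-/

open Polynomial

noncomputable section

namespace Pool.Agent.H9.Ram

/-- The counting argument for two finite `G`-sets, the first one transitive. -/
theorem m7_generic {G A B : Type*} [Group G] [Fintype G] [MulAction G A] [MulAction G B]
    [Finite A] [Finite B] (htrans : ∀ a a' : A, ∃ g : G, g • a = a')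
    (hB : Nonempty A → Nonempty B) :
    ∑ g : G, ((Nat.card (MulAction.fixedBy A g) : ℤ) *
      (2 - (Nat.card (MulAction.fixedBy B g) : ℤ))) ≤ (Fintype.card G : ℤ) := by
  classical
  have : Fintype A := Fintype.ofFinite A
  have : Fintype B := Fintype.ofFinite B
  have h1 := MulAction.sum_card_fixedBy_eq_card_orbits_mul_card_group G A
  have h2 := MulAction.sum_card_fixedBy_eq_card_orbits_mul_card_group G (A × B)
  have h3 : ∀ g : G, Fintype.card (MulAction.fixedBy (A × B) g) =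
      Nat.card (MulAction.fixedBy A g) * Nat.card (MulAction.fixedBy B g) := by
    intro g
    rw [← Nat.card_eq_fintype_card, ← Nat.card_prod]
    refine Nat.card_congr
      { toFun := fun z => (⟨z.1.1, ?_⟩, ⟨z.1.2, ?_⟩)
        invFun := fun z => ⟨(z.1.1, z.2.1), ?_⟩
        left_inv := fun z => rfl
        right_inv := fun z => rfl }
    · have := z.2
      rw [MulAction.mem_fixedBy] at this ⊢
      exact congrArg Prod.fst this
    · have := z.2
      rw [MulAction.mem_fixedBy] at this ⊢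
      exact congrArg Prod.snd this
    · rw [MulAction.mem_fixedBy]
      exact Prod.ext z.1.2 z.2.2
  have h4 : Fintype.card (Quotient (MulAction.orbitRel G A)) ≤ 1 := by
    rw [Fintype.card_le_one_iff_subsingleton]
    refine ⟨fun x y => ?_⟩
    induction x using Quotient.inductionOn with
    | h x =>
      induction y using Quotient.inductionOn with
      | h y =>
        obtain ⟨g, hg⟩ := htrans y x
        exact Quotient.sound ((MulAction.orbitRel_apply).2 ⟨g, hg⟩)
  have h5 : Nonempty A → 1 ≤ Fintype.card (Quotient (MulAction.orbitRel G (A × B))) := by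
    intro hA
    obtain ⟨a⟩ := hA
    obtain ⟨b⟩ := hB ⟨a⟩
    exact Fintype.card_pos_iff.2 ⟨Quotient.mk _ (a, b)⟩
  have h6 : ∑ g : G, ((Nat.card (MulAction.fixedBy A g) : ℤ) *
      (2 - (Nat.card (MulAction.fixedBy B g) : ℤ))) =
      2 * ((∑ g : G, Fintype.card (MulAction.fixedBy A g) : ℕ) : ℤ) -
        ((∑ g : G, Fintype.card (MulAction.fixedBy (A × B) g) : ℕ) : ℤ) := by
    push_cast
    rw [Finset.mul_sum, ← Finset.sum_sub_distrib]
    apply Finset.sum_congr rfl
    intro g _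
    rw [h3 g, ← Nat.card_eq_fintype_card]
    push_cast
    ring
  rw [h6, h1, h2]
  by_cases hA : Nonempty A
  · have h7 := h5 hA
    push_cast
    have h8 : ((Fintype.card (Quotient (MulAction.orbitRel G A)) : ℕ) : ℤ) ≤ 1 := by
      exact_mod_cast h4
    have h9 : (1 : ℤ) ≤ ((Fintype.card (Quotient (MulAction.orbitRel G (A × B))) : ℕ) : ℤ) := by
      exact_mod_cast h7
    have h10 : (0 : ℤ) ≤ (Fintype.card G : ℤ) := by positivity
    nlinarith
  · have h7 : Fintype.card (Quotient (MulAction.orbitRel G A)) = 0 := by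
      rw [Fintype.card_eq_zero_iff]
      refine ⟨fun x => ?_⟩
      induction x using Quotient.inductionOn with
      | h x => exact hA ⟨x⟩
    rw [h7]
    push_cast
    have h10 : (0 : ℤ) ≤ (Fintype.card G : ℤ) := by positivity
    have h11 : (0 : ℤ) ≤ ((Fintype.card (Quotient (MulAction.orbitRel G (A × B))) : ℕ) : ℤ) := by
      positivity
    nlinarith

variable {F K M : Type*} [Field F] [Fintype F] [Field K] [Algebra F K] [IsAlgClosed K] [Field M]
  [Algebra (RatFunc K) M] [FiniteDimensional (RatFunc K) M] [IsGalois (RatFunc K) M]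
  [Algebra F M] [IsScalarTower F (RatFunc K) M]

section
omit [IsAlgClosed K] [FiniteDimensional (RatFunc K) M] [IsGalois (RatFunc K) M]

theorem m7_mem_gact (σ : M ≃ₐ[RatFunc K] M) (L : Submodule F M) (x : M) :
    x ∈ gact σ L ↔ ∃ y ∈ L, σ y = x := by
  unfold gact fact
  rw [Submodule.mem_map]
  rfl

theorem m7_gact_one (L : Submodule F M) : gact (1 : M ≃ₐ[RatFunc K] M) L = L := by
  ext x
  rw [m7_mem_gact]
  constructor
  · rintro ⟨y, hy, rfl⟩
    exact hy
  · intro hx
    exact ⟨x, hx, rfl⟩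

theorem m7_gact_mul (σ τ : M ≃ₐ[RatFunc K] M) (L : Submodule F M) :
    gact (σ * τ) L = gact σ (gact τ L) := by
  ext x
  simp only [m7_mem_gact]
  constructor
  · rintro ⟨y, hy, rfl⟩
    exact ⟨τ y, ⟨y, hy, rfl⟩, rfl⟩
  · rintro ⟨_, ⟨y, hy, rfl⟩, rfl⟩
    exact ⟨y, hy, rfl⟩

theorem m7_gact_xM (σ : M ≃ₐ[RatFunc K] M) : σ (xM K M) = xM K M := by
  unfold xM
  exact σ.commutes _

/-- The automorphisms commute with operators fixed by them. -/
theorem m7_ev_comm (σ : M ≃ₐ[RatFunc K] M) (f : Tw F M)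
    (hf : Tw.map ((σ.restrictScalars F : M ≃ₐ[F] M) : M →ₐ[F] M) f = f) (y : M) :
    Tw.ev f (σ y) = σ (Tw.ev f y) := by
  have h := Tw.ev_map ((σ.restrictScalars F : M ≃ₐ[F] M) : M →ₐ[F] M) f y
  rw [hf] at h
  exact h

theorem m7_map_Pt (σ : M ≃ₐ[RatFunc K] M) (c : F) :
    Tw.map ((σ.restrictScalars F : M ≃ₐ[F] M) : M →ₐ[F] M) (Pt c (xM K M)) = Pt c (xM K M) := by
  unfold Pt
  have h : ((σ.restrictScalars F : M ≃ₐ[F] M) : M →ₐ[F] M) (xM K M) = xM K M := m7_gact_xM σ
  rw [map_add, map_add, AlgHom.commutes, Tw.map_T, map_mul, Tw.map_C, map_pow, Tw.map_T, h]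

theorem m7_nu_comm (σ : M ≃ₐ[RatFunc K] M) (c d : F) (y : M) :
    nu (Pt c (xM K M)) d (σ y) = σ (nu (Pt c (xM K M)) d y) := by
  unfold nu
  apply m7_ev_comm
  rw [map_sub, m7_map_Pt, AlgHom.commutes]

theorem m7_nu_pow_comm (σ : M ≃ₐ[RatFunc K] M) (c d : F) (i : ℕ) (y : M) :
    (nu (Pt c (xM K M)) d ^ i) (σ y) = σ ((nu (Pt c (xM K M)) d ^ i) y) := by
  induction i with
  | zero => simp
  | succ i ih =>
    rw [pow_succ', Module.End.mul_apply, Module.End.mul_apply, ih, m7_nu_comm]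

theorem m7_isCyc_gact (σ : M ≃ₐ[RatFunc K] M) (c d : F) (n : ℕ) {L : Submodule F M}
    (h : IsCyc (nu (Pt c (xM K M)) d) n L) : IsCyc (nu (Pt c (xM K M)) d) n (gact σ L) := by
  obtain ⟨y, h1, h2, h3⟩ := h
  refine ⟨σ y, ?_, ?_, ?_⟩
  · rw [m7_nu_pow_comm, h1, map_zero]
  · rw [m7_nu_pow_comm]
    intro h4
    exact h2 ((map_eq_zero_iff σ σ.injective).1 h4)
  · rw [h3]
    unfold gact fact
    rw [Submodule.map_span]
    congr 1
    ext x
    simp only [Set.mem_image, Set.mem_range, exists_exists_eq_and]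
    constructor
    · rintro ⟨i, hi⟩
      exact ⟨i, by rw [m7_nu_pow_comm]; exact hi⟩
    · rintro ⟨i, hi⟩
      refine ⟨i, ?_⟩
      rw [m7_nu_pow_comm] at hi
      exact hi

theorem m7_line_gact (σ : M ≃ₐ[RatFunc K] M) (c : F) {l : Submodule F M}
    (h : Module.finrank F l = 1 ∧ l ≤ LinearMap.ker (Tw.ev (Pt c (xM K M)))) :
    Module.finrank F (gact σ l : Submodule F M) = 1 ∧
      gact σ l ≤ LinearMap.ker (Tw.ev (Pt c (xM K M))) := by
  constructor
  · unfold gact fact
    have h2 := LinearEquiv.finrank_map_eq (σ.restrictScalars F).toLinearEquiv l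
    rw [← h.1]
    exact h2
  · intro x hx
    obtain ⟨y, hy, rfl⟩ := (m7_mem_gact σ l x).1 hx
    have h3 := h.2 hy
    rw [LinearMap.mem_ker] at h3 ⊢
    rw [m7_ev_comm σ _ (m7_map_Pt σ c), h3, map_zero]

/-- The action on cyclic submodules. -/
@[reducible] def m7_actC (c d : F) (n : ℕ) : MulAction (M ≃ₐ[RatFunc K] M)
    {L : Submodule F M // IsCyc (nu (Pt c (xM K M)) d) n L} where
  smul σ L := ⟨gact σ L.1, m7_isCyc_gact σ c d n L.2⟩
  one_smul L := Subtype.ext (m7_gact_one L.1)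
  mul_smul σ τ L := Subtype.ext (m7_gact_mul σ τ L.1)

/-- The action on lines. -/
@[reducible] def m7_actR (c : F) : MulAction (M ≃ₐ[RatFunc K] M)
    {l : Submodule F M // Module.finrank F l = 1 ∧ l ≤ LinearMap.ker (Tw.ev (Pt c (xM K M)))} where
  smul σ L := ⟨gact σ L.1, m7_line_gact σ c L.2⟩
  one_smul L := Subtype.ext (m7_gact_one L.1)
  mul_smul σ τ L := Subtype.ext (m7_gact_mul σ τ L.1)

theorem m7_xM_ne_zero : xM K M ≠ 0 := by
  unfold xM
  exact (map_ne_zero_iff _ (algebraMap (RatFunc K) M).injective).2 RatFunc.X_ne_zero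

theorem m7_coeff_Pt (c : F) (x : M) (i : ℕ) : (Pt c x).coeff i =
    (if i = 0 then algebraMap F M c else 0) + (if i = 1 then 1 else 0) +
      (if i = 2 then x else 0) := by
  unfold Pt
  rw [Tw.coeff_add, Tw.coeff_add, Tw.algebraMap_apply, Tw.coeff_C, Tw.coeff_T, Tw.coeff_C_mul,
    Tw.coeff_T_pow]
  split_ifs <;> simp

theorem m7_natDegree_Pt_sub_le (c d : F) (x : M) :
    (Pt c x - algebraMap F (Tw F M) d).natDegree ≤ 2 := by
  rw [Tw.natDegree_le_iff]
  intro i hi
  rw [Tw.coeff_sub, m7_coeff_Pt, Tw.algebraMap_apply, Tw.coeff_C]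
  rw [if_neg (by omega), if_neg (by omega), if_neg (by omega), if_neg (by omega)]
  simp

theorem m7_Pt_sub_ne_zero (c d : F) (x : M) : Pt c x - algebraMap F (Tw F M) d ≠ 0 := by
  intro h
  have h1 := congrArg (fun f : Tw F M => f.coeff 1) h
  simp only [Tw.coeff_sub, m7_coeff_Pt, Tw.algebraMap_apply, Tw.coeff_C, Tw.coeff_zero'] at h1
  simp at h1

theorem m7_Pt_ne_zero (c : F) (x : M) : Pt c x ≠ 0 := by
  intro h
  have h1 := congrArg (fun f : Tw F M => f.coeff 1) h
  simp only [m7_coeff_Pt, Tw.coeff_zero'] at h1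
  simp at h1

end

/-- The kernel of `P` is not zero. -/
theorem m7_exists_line (c d : F) (n : ℕ) (hM : TorsField F K M c d n) :
    ∃ l : Submodule F M, Module.finrank F l = 1 ∧
      l ≤ LinearMap.ker (Tw.ev (Pt c (xM K M))) := by
  have hne : LinearMap.ker (Tw.ev (Pt c (xM K M))) ≠ ⊥ := by
    intro hbot
    have h0 : (Pt c (xM K M) - algebraMap F (Tw F M) d) ^ (n + 1) ≠ 0 :=
      pow_ne_zero _ (m7_Pt_sub_ne_zero c d _)
    have h1 : LinearMap.ker (Tw.ev (Aop c d n (xM K M))) =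
        LinearMap.ker (Tw.ev ((Pt c (xM K M) - algebraMap F (Tw F M) d) ^ (n + 1))) := by
      ext y
      rw [LinearMap.mem_ker, LinearMap.mem_ker]
      unfold Aop
      rw [Tw.ev_mul]
      constructor
      · intro h
        have h2 : Tw.ev ((Pt c (xM K M) - algebraMap F (Tw F M) d) ^ (n + 1)) y ∈
            LinearMap.ker (Tw.ev (Pt c (xM K M))) := h
        rw [hbot] at h2
        exact (Submodule.mem_bot F).1 h2
      · intro h
        rw [h, map_zero]
    have h2 := hM.card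
    rw [h1] at h2
    have h3 := Tw.card_ker_le h0
    rw [h2, Tw.natDegree_pow] at h3
    have h4 : (n + 1) * (Pt c (xM K M) - algebraMap F (Tw F M) d).natDegree ≤ (n + 1) * 2 :=
      Nat.mul_le_mul_left _ (m7_natDegree_Pt_sub_le c d _)
    have hq : 1 < Fintype.card F := Fintype.one_lt_card
    have h5 := (Nat.pow_le_pow_iff_right hq).1 h3
    omega
  obtain ⟨v, hv, hv0⟩ := Submodule.exists_mem_ne_zero_of_ne_bot hne
  refine ⟨F ∙ v, finrank_span_singleton hv0, ?_⟩
  rw [Submodule.span_singleton_le_iff_mem]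
  exact hv

theorem burnside_bound (c d : F) (hc : c ≠ 0) (hcd : c ≠ d) (n : ℕ)
    (hM : TorsField F K M c d n) :
    ∑ σ : M ≃ₐ[RatFunc K] M, ((fC c d n σ : ℤ) * (2 - (fR c σ : ℤ))) ≤
      (Fintype.card (M ≃ₐ[RatFunc K] M) : ℤ) := by
  let _ := m7_actC (F := F) (K := K) (M := M) c d n
  let _ := m7_actR (F := F) (K := K) (M := M) c
  have hfA : Finite {L : Submodule F M // IsCyc (nu (Pt c (xM K M)) d) n L} :=
    (finite_isCyc_M (K := K) (M := M) c d n).to_subtype
  have hfB : Finite {l : Submodule F M // Module.finrank F l = 1 ∧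
      l ≤ LinearMap.ker (Tw.ev (Pt c (xM K M)))} := by
    have h1 : (LinearMap.ker (Tw.ev (Pt c (xM K M))) : Set M).Finite :=
      Tw.finite_ker (m7_Pt_ne_zero c _)
    have h2 : {s : Set M | s ⊆ (LinearMap.ker (Tw.ev (Pt c (xM K M))) : Set M)}.Finite :=
      h1.finite_subsets
    have h4 : Finite ({s : Set M | s ⊆ (LinearMap.ker (Tw.ev (Pt c (xM K M))) : Set M)} :
        Set (Set M)) := h2.to_subtype
    refine Finite.of_injective (β := ({s : Set M |
      s ⊆ (LinearMap.ker (Tw.ev (Pt c (xM K M))) : Set M)} : Set (Set M)))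
      (fun l => ⟨(l.1 : Set M), fun x hx => l.2.2 hx⟩) ?_
    intro l l' h
    have h3 := congrArg Subtype.val h
    exact Subtype.ext (SetLike.coe_injective h3)
  have key := m7_generic (G := M ≃ₐ[RatFunc K] M)
    (A := {L : Submodule F M // IsCyc (nu (Pt c (xM K M)) d) n L})
    (B := {l : Submodule F M // Module.finrank F l = 1 ∧
      l ≤ LinearMap.ker (Tw.ev (Pt c (xM K M)))})
    (fun a a' => by
      obtain ⟨σ, hσ⟩ := transitive_isCyc c d hcd n a.1 a'.1 a.2 a'.2
      exact ⟨σ, Subtype.ext hσ⟩)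
    (fun _ => by
      obtain ⟨l, hl⟩ := m7_exists_line c d n hM
      exact ⟨⟨l, hl⟩⟩)
  refine le_trans (le_of_eq ?_) key
  apply Finset.sum_congr rfl
  intro σ _
  have e1 : fC c d n σ = Nat.card (MulAction.fixedBy
      {L : Submodule F M // IsCyc (nu (Pt c (xM K M)) d) n L} σ) := by
    unfold fC
    rw [← Nat.card_coe_set_eq]
    refine Nat.card_congr
      { toFun := fun z => ⟨⟨z.1, z.2.1⟩, Subtype.ext z.2.2⟩
        invFun := fun z => ⟨z.1.1, z.1.2, congrArg Subtype.val z.2⟩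
        left_inv := fun z => rfl
        right_inv := fun z => rfl }
  have e2 : fR c σ = Nat.card (MulAction.fixedBy
      {l : Submodule F M // Module.finrank F l = 1 ∧
        l ≤ LinearMap.ker (Tw.ev (Pt c (xM K M)))} σ) := by
    unfold fR
    rw [← Nat.card_coe_set_eq]
    refine Nat.card_congr
      { toFun := fun z => ⟨⟨z.1, z.2.1, z.2.2.1⟩, Subtype.ext z.2.2.2⟩
        invFun := fun z => ⟨z.1.1, z.1.2.1, z.1.2.2, congrArg Subtype.val z.2⟩
        left_inv := fun z => rfl
        right_inv := fun z => rfl }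
  rw [e1, e2]

end Pool.Agent.H9.Ram
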