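import Pool.Agent.H9.Ram.M6
import Pool.Agent.H9.Ram.M7
import Pool.Agent.H9.Ram.M2
import Pool.Agent.H9.Ram.B8

/-!
# Module M8: the upper bound for `2 #OO - #TT`

Let `M = TM K c d n` (M1: Galois, `TorsField`), `φ, e` from M2, `FrData` by M3 (`Emb_nonempty`). For `j > 0` with `e ∣ j`:
`φ^(2j)` is the identity on the torsion (`e ∣ 2j`). By M6, `Cnt_bound` (B8): `#Cnt σ (2j) = q^(2j) + O(q^j)` uniformly, so
`|G| (2 #OO - #TT) = ∑_σ #Cnt σ · w σ ≤ q^(2j) ∑_σ w σ + C q^j ∑_σ |w σ| ≤ |G| q^(2j) + C' q^j` with `w σ = fC σ (2 - fR σ)`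
(M7). Divide by `|G|`.
-/

open Polynomial

noncomputable section

namespace Pool.Agent.H9.Ram

/-- The averaging step: `G (2 O - T) = ∑ N w`, `|N - Q| ≤ C R`, `∑ w ≤ G`. -/
theorem m8_avg {ι : Type*} [Fintype ι] (N : ι → ℝ) (w : ι → ℝ) (G y Q C R : ℝ)
    (hG : 1 ≤ G) (hQ : 0 ≤ Q) (hR : 0 ≤ R) (h1 : G * y = ∑ i, N i * w i)
    (h2 : ∀ i, |N i - Q| ≤ C * R) (h3 : ∑ i, w i ≤ G) :
    y ≤ Q + |C| * (∑ i, |w i|) * R := by
  have h4 : ∑ i, N i * w i = ∑ i, (N i - Q) * w i + Q * ∑ i, w i := by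
    rw [Finset.mul_sum, ← Finset.sum_add_distrib]
    exact Finset.sum_congr rfl fun i _ => by ring
  have h5 : ∑ i, (N i - Q) * w i ≤ ∑ i, |C| * R * |w i| := by
    refine Finset.sum_le_sum fun i _ => ?_
    calc (N i - Q) * w i ≤ |(N i - Q) * w i| := le_abs_self _
      _ = |N i - Q| * |w i| := abs_mul _ _
      _ ≤ |C| * R * |w i| := by
          refine mul_le_mul_of_nonneg_right ((h2 i).trans ?_) (abs_nonneg _)
          exact mul_le_mul_of_nonneg_right (le_abs_self C) hR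
  rw [← Finset.mul_sum] at h5
  have h6 : Q * ∑ i, w i ≤ Q * G := mul_le_mul_of_nonneg_left h3 hQ
  have h7 : 0 ≤ |C| * R * ∑ i, |w i| :=
    mul_nonneg (mul_nonneg (abs_nonneg _) hR) (Finset.sum_nonneg fun i _ => abs_nonneg _)
  have h8 : G * y ≤ G * (Q + |C| * (∑ i, |w i|) * R) := by
    rw [h1, h4]
    nlinarith
  exact le_of_mul_le_mul_left h8 (by linarith)

theorem final_bound {F : Type*} (K : Type*) [Field F] [Fintype F] [Field K] [Algebra F K]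
    [IsAlgClosed K] (c d : F) (hc : c ≠ 0) (hcd : c ≠ d) (n : ℕ) :
    ∃ (C : ℝ) (e : ℕ), 0 < e ∧ ∀ j : ℕ, 0 < j → e ∣ j →
      2 * ((OO K c d n (2 * j)).ncard : ℝ) - ((TT K c d n (2 * j)).ncard : ℝ) ≤
        (Fintype.card F : ℝ) ^ (2 * j) + C * (Fintype.card F : ℝ) ^ j := by
  have : IsGalois (RatFunc K) (TM K c d n) := isGalois_TM c d hc hcd n
  have hM : TorsField F K (TM K c d n) c d n := torsField_TM (K := K) c d hc hcd n
  obtain ⟨φ, hφ, e, he, hfix⟩ := exists_frobenius (M := TM K c d n) c d n hM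
  have hD : FrData F K φ := ⟨hφ, fun x0 hx => Emb_nonempty c d hc hcd n hM x0 hx⟩
  obtain ⟨C, hC⟩ := Cnt_bound hD
  refine ⟨|C| * ∑ σ : (TM K c d n) ≃ₐ[RatFunc K] (TM K c d n),
    |(fC c d n σ : ℝ) * (2 - (fR c σ : ℝ))|, e, he, ?_⟩
  intro j hj hej
  have hpow : ∀ v ∈ LinearMap.ker (Tw.ev (Aop c d n (xM K (TM K c d n)))),
      (φ ^ (2 * j)) v = v := by
    intro v hv
    obtain ⟨m, rfl⟩ := hej
    have h1 : 2 * (e * m) = e * (2 * m) := by ring
    rw [h1, pow_mul]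
    generalize 2 * m = t
    induction t with
    | zero => rw [pow_zero]; rfl
    | succ t ih =>
      rw [pow_succ, RingAut.mul_apply, hfix v hv, ih]
  have hid := card_identity c d hc hcd n hM φ hD (2 * j) (by omega) hpow
  have hb := burnside_bound c d hc hcd n hM
  have hid' := congrArg (Int.cast : ℤ → ℝ) hid
  push_cast at hid'
  have hb' : (∑ σ : (TM K c d n) ≃ₐ[RatFunc K] (TM K c d n),
      ((fC c d n σ : ℝ) * (2 - (fR c σ : ℝ)))) ≤
      (Fintype.card ((TM K c d n) ≃ₐ[RatFunc K] (TM K c d n)) : ℝ) := by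
    exact_mod_cast hb
  exact m8_avg (fun σ => ((Cnt F φ σ (2 * j)).ncard : ℝ)) (fun σ => (fC c d n σ : ℝ) * (2 - (fR c σ : ℝ)))
    (Fintype.card ((TM K c d n) ≃ₐ[RatFunc K] (TM K c d n)) : ℝ) _ _ C _
    (by exact_mod_cast Fintype.card_pos) (by positivity) (by positivity) hid' (fun σ => hC σ j hj) hb'

end Pool.Agent.H9.Ram
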