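import Pool.Agent.H9.Ram.V4
import Pool.Agent.H9.Ram.G4

/-!
# Module R1: the reduction has the same type; transport between fields

(a) `nonscalar_of_smooth`: over an algebraically closed field `κ`, `P = P_x`, `x ≠ 0`, `Fr = z τ^k` commutes with `P`
(`x^(q^k) = x`), `Fr = α(P) + P^m Q`, `P Q = Q P`, `Q² - a(P) Q + b(P) = 0`, `t` smooth. Then `Q ≠ r + h P`. Suppose
`Q = r + h P`. `h` commutes with `P` (cancel `P`), so by `exists_quadratic_Pt` `h² - A(P) h + B(P) = 0`, hence
`Q² - (2r + X A)(P) Q + (r² + r X A + X² B)(P) = 0`. `Q ∉ F[P]` (else `Fr ∈ F[P]`, which is impossible: see V4, e.g. from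
`exists_typ_Dr` and the last clause of `IsWit` or directly by comparing `ord` and degree), so quadratic equations of `Q`
are unique: if `δ(P) Q = β(P)`, `δ ≠ 0`, then `β² - a β δ + b δ² = 0`, so `δ ∣ β²`, ... `δ ∣ β` (`F[X]` integrally closed;
gcd argument), so `Q = (β/δ)(P)`. Thus `a = 2r + X A`, `b = r² + r X A + X² B`, `X ∣ a - 2r`, and
`r² - r a + b = X² B`: contradiction to smoothness.
(b) `exists_isWit_norm`: conjugating by a constant `l`: `(P, Fr, Q) ↦ (l P l⁻¹, l Fr l⁻¹, l Q l⁻¹)` preserves all equations.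
(c) transport: `j : K → κ` a morphism of algebraically closed fields over `F`. `DrT κ` injects into `DrT K`:
`(x, ζ, L) ↦ (x_K, ζ, j⁻¹ L)`. `x = j x_K` as `X^(q^k) - X` splits over `K`. `(P_x - d)^(n+1)` has constant coefficient
`(c-d)^(n+1) ≠ 0`, its kernels over `K` and `κ` have the same number `q^(2(n+1))` of elements, so every torsion point in `κ`
comes from `K`; `L = j(j⁻¹ L)`. `IsCyc`, stability: transport along the injective linear map `j`. The witness: `P^m Q = Q P^m`
`= Fr - α(P)` has coefficients in `K`; divide over `K` by `P_K^m` (`Tw.exists_right_div`): `Fr_K - α(P_K) = h P_K^m + r`, and by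
uniqueness over `κ` (`Tw.right_div_unique`) `Q = j h`, `j r = 0`. All equations pass to `K` by injectivity of `Tw.map j`, and
if `h = r' + h' P_K` then `Q = r' + (j h') P`, contradiction.
-/

open Polynomial

noncomputable section

namespace Pool.Agent.H9.Ram

variable {F : Type*} [Field F] [Fintype F]

theorem r1_h_comm {κ : Type*} [Field κ] [Algebra F κ] (c : F) (x : κ) (hx : x ≠ 0)
    (Q : Tw F κ) (hc : Pt c x * Q = Q * Pt c x) (r : F) (h : Tw F κ)
    (hQ : Q = algebraMap F (Tw F κ) r + h * Pt c x) : Pt c x * h = h * Pt c x := by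
  have hP0 : (Pt c x : Tw F κ) ≠ 0 := by
    intro h0
    have h2 := natDegree_Pt c hx
    have h3 : (Pt c x : Tw F κ).natDegree = 0 := by
      rw [h0, ← map_zero (Tw.C : κ →+* Tw F κ)]
      exact Tw.natDegree_C 0
    omega
  have h1 : (Pt c x * h - h * Pt c x) * Pt c x = 0 := by
    have h2 : algebraMap F (Tw F κ) r * Pt c x = Pt c x * algebraMap F (Tw F κ) r :=
      Algebra.commutes r _
    rw [hQ] at hc
    have h3 : Pt c x * (algebraMap F (Tw F κ) r + h * Pt c x) =
      (algebraMap F (Tw F κ) r + h * Pt c x) * Pt c x := hc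
    rw [mul_add, add_mul, h2] at h3
    have h4 := add_left_cancel h3
    rw [sub_mul, mul_assoc, h4, sub_self]
  rcases mul_eq_zero.1 h1 with h2 | h2
  · exact sub_eq_zero.1 h2
  · exact absurd h2 hP0

/-- The quadratic equation of `r + h P`. -/
theorem r1_quad {R : Type*} [CommRing R] [Algebra F R] (P h : Tw F R) (hc : P * h = h * P)
    (A B : F[X]) (hq : h ^ 2 - aeval P A * h + aeval P B = 0) (r : F) :
    (algebraMap F (Tw F R) r + h * P) ^ 2 -
      aeval P (Polynomial.C (2 * r) + X * A) * (algebraMap F (Tw F R) r + h * P) +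
      aeval P (Polynomial.C (r ^ 2) + Polynomial.C r * X * A + X ^ 2 * B) = 0 := by
  have hr : ∀ f : Tw F R, f * algebraMap F (Tw F R) r = algebraMap F (Tw F R) r * f := fun f =>
    (Algebra.commutes r f).symm
  have hAP : P * aeval P A = aeval P A * P := by
    have h1 : aeval P (X * A) = P * aeval P A := by rw [map_mul, aeval_X]
    have h2 : aeval P (A * X) = aeval P A * P := by rw [map_mul, aeval_X]
    rw [← h1, ← h2, mul_comm]
  have e1 : aeval P (Polynomial.C (2 * r) + X * A) =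
      2 * algebraMap F (Tw F R) r + P * aeval P A := by
    rw [map_add, aeval_C, map_mul (algebraMap F (Tw F R)), map_ofNat, map_mul (aeval P), aeval_X]
  have e2 : aeval P (Polynomial.C (r ^ 2) + Polynomial.C r * X * A + X ^ 2 * B) =
      algebraMap F (Tw F R) r ^ 2 + algebraMap F (Tw F R) r * P * aeval P A +
        P ^ 2 * aeval P B := by
    simp
  have hB : aeval P B = aeval P A * h - h ^ 2 := by
    have := hq
    rw [sub_add_eq_add_sub, sub_eq_zero] at this
    rw [← this]; abel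
  rw [e1, e2, hB]
  generalize hρ : algebraMap F (Tw F R) r = ρ at *
  generalize aeval P A = α at *
  have hρP : P * ρ = ρ * P := hr P
  have hρh : h * ρ = ρ * h := hr h
  have hρα : α * ρ = ρ * α := hr α
  have t1 : (ρ + h * P) ^ 2 = ρ * ρ + 2 * (ρ * (h * P)) + h * h * P * P := by
    rw [pow_two, add_mul, mul_add, mul_add]
    have : h * P * ρ = ρ * (h * P) := by rw [mul_assoc, hρP, ← mul_assoc, hρh, mul_assoc]
    rw [this]
    have : h * P * (h * P) = h * h * P * P := by
      rw [mul_assoc, ← mul_assoc P h P, hc]; simp only [mul_assoc]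
    rw [this, two_mul]; abel
  have t2 : (2 * ρ + P * α) * (ρ + h * P) =
      2 * (ρ * ρ) + 2 * (ρ * (h * P)) + ρ * P * α + α * h * P * P := by
    rw [add_mul, mul_add, mul_add]
    have : P * α * ρ = ρ * P * α := by rw [mul_assoc, hρα, ← mul_assoc, hρP]
    rw [this]
    have : P * α * (h * P) = α * h * P * P := by
      rw [hAP, mul_assoc, ← mul_assoc P h P, hc]; simp only [mul_assoc]
    rw [this]; simp only [mul_assoc]; abel
  have t3 : P ^ 2 * (α * h - h ^ 2) = α * h * P * P - h * h * P * P := by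
    have h1 : P * (α * h) = (α * h) * P := by
      rw [← mul_assoc, hAP, mul_assoc, hc]; simp only [mul_assoc]
    have h2 : P * (h * h) = (h * h) * P := by
      rw [← mul_assoc, hc, mul_assoc, hc]; simp only [mul_assoc]
    rw [pow_two, pow_two, mul_sub, mul_assoc, h1, mul_assoc P P (h * h), h2, ← mul_assoc, h1,
      ← mul_assoc P, h2]
  rw [t1, t2, t3, pow_two, two_mul (ρ * ρ)]
  abel

theorem nonscalar_of_smooth {κ : Type*} [Field κ] [Algebra F κ] (c z : F) (x : κ)
    (hx : x ≠ 0) (k : ℕ) (hk : 0 < k) (hxk : x ^ (Fintype.card F ^ k) = x) (hz : z ≠ 0) (t : Typ F)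
    (ht : t.Smooth) (Q : Tw F κ) (hc : Pt c x * Q = Q * Pt c x)
    (hFr : algebraMap F (Tw F κ) z * Tw.T ^ k = aeval (Pt c x) t.al + Pt c x ^ t.m * Q)
    (hq : Q ^ 2 - aeval (Pt c x) t.a * Q + aeval (Pt c x) t.b = 0) (r : F) (h : Tw F κ) :
    Q ≠ algebraMap F (Tw F κ) r + h * Pt c x := by
  intro hQ
  have hdeg : 0 < (Pt c x : Tw F κ).natDegree := by
    rw [natDegree_Pt c hx]; norm_num
  have hch := r1_h_comm c x hx Q hc r h hQ
  obtain ⟨A, B, hAB⟩ := exists_quadratic_Pt c x hx h hch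
  have hquad := r1_quad (Pt c x) h hch A B hAB r
  rw [← hQ] at hquad
  set a' : F[X] := Polynomial.C (2 * r) + X * A with ha'
  set b' : F[X] := Polynomial.C (r ^ 2) + Polynomial.C r * X * A + X ^ 2 * B with hb'
  -- the difference of the two equations
  have hdiff : aeval (Pt c x) (t.a - a') * Q = aeval (Pt c x) (t.b - b') := by
    rw [map_sub, map_sub, sub_mul]
    have h1 : aeval (Pt c x) t.a * Q = Q ^ 2 + aeval (Pt c x) t.b := by
      have := hq
      rw [sub_add_eq_add_sub, sub_eq_zero] at this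
      exact this.symm
    have h2 : aeval (Pt c x) a' * Q = Q ^ 2 + aeval (Pt c x) b' := by
      have := hquad
      rw [sub_add_eq_add_sub, sub_eq_zero] at this
      exact this.symm
    rw [h1, h2]; abel
  obtain ⟨t', Q', -, hc', hFr', -, hns'⟩ := exists_typ_Dr c z hk hx hxk hz
  have hcomm : ∀ f g : F[X], aeval (Pt c x) f * aeval (Pt c x) g =
      aeval (Pt c x) g * aeval (Pt c x) f := fun f g => by
    rw [← map_mul, ← map_mul, mul_comm]
  have hXm : ∀ m : ℕ, (Pt c x) ^ m = aeval (Pt c x) (X ^ m : F[X]) := fun m => by simp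
  have hkey : aeval (Pt c x) ((t.a - a') * X ^ t'.m) * Q' =
      aeval (Pt c x) ((t.b - b') * X ^ t.m - (t.a - a') * (t'.al - t.al)) := by
    have h1 : (Pt c x) ^ t.m * Q = aeval (Pt c x) (t'.al - t.al) + (Pt c x) ^ t'.m * Q' := by
      have h2 := hFr.symm.trans hFr'
      rw [map_sub]
      have h3 : (Pt c x) ^ t.m * Q = aeval (Pt c x) t'.al + Pt c x ^ t'.m * Q' -
        aeval (Pt c x) t.al := by rw [← h2]; abel
      rw [h3]; abel
    have h4 : (Pt c x) ^ t.m * (aeval (Pt c x) (t.a - a') * Q) =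
        aeval (Pt c x) ((t.b - b') * X ^ t.m) := by
      rw [hdiff, hXm, ← map_mul, mul_comm]
    have h5 : (Pt c x) ^ t.m * (aeval (Pt c x) (t.a - a') * Q) =
        aeval (Pt c x) (t.a - a') * ((Pt c x) ^ t.m * Q) := by
      rw [← mul_assoc, ← mul_assoc, hXm, hcomm]
    rw [h5, h1, mul_add, hXm, ← mul_assoc, ← map_mul, ← map_mul] at h4
    rw [map_sub, ← h4, map_mul]
    abel
  obtain ⟨hz1, hz2⟩ := eq_zero_of_aeval_mul_eq (Pt c x) Q' hdeg hc' hns' _ _ hkey
  have hXne : (X ^ t'.m : F[X]) ≠ 0 := pow_ne_zero _ X_ne_zero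
  have hδ : t.a - a' = 0 := by
    rcases mul_eq_zero.1 hz1 with h1 | h1
    · exact h1
    · exact absurd h1 hXne
  have hβ : t.b - b' = 0 := by
    rw [hδ, map_zero, zero_mul] at hdiff
    exact (Tw.aeval_eq_zero_iff (Pt c x) hdeg _).1 hdiff.symm
  have ha : t.a = a' := sub_eq_zero.1 hδ
  have hb : t.b = b' := sub_eq_zero.1 hβ
  refine ht r ?_ ?_
  · rw [ha, ha']
    exact ⟨A, by ring⟩
  · rw [ha, hb, ha', hb']
    refine ⟨B, ?_⟩
    simp only [map_mul, map_pow, map_ofNat]
    ring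

/-- Conjugation by a constant. -/
theorem conj_aeval {κ : Type*} [Field κ] [Algebra F κ] (l : κ) (hl : l ≠ 0) (P : Tw F κ)
    (f : F[X]) : Tw.C l * aeval P f * Tw.C l⁻¹ = aeval (Tw.C l * P * Tw.C l⁻¹) f := by
  have h1 : (Tw.C l : Tw F κ) * Tw.C l⁻¹ = 1 := by
    rw [← map_mul, mul_inv_cancel₀ hl, map_one]
  have h2 : (Tw.C l⁻¹ : Tw F κ) * Tw.C l = 1 := by
    rw [← map_mul, inv_mul_cancel₀ hl, map_one]
  induction f using Polynomial.induction_on with
  | C a =>
    rw [aeval_C, aeval_C, ← Algebra.commutes a (Tw.C l : Tw F κ), mul_assoc, h1, mul_one]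
  | add p q hp hq =>
    rw [map_add, map_add, mul_add, add_mul, hp, hq]
  | monomial n a ih =>
    rw [pow_succ, ← mul_assoc, map_mul (aeval P) (Polynomial.C a * X ^ n) X,
      map_mul (aeval (Tw.C l * P * Tw.C l⁻¹)) (Polynomial.C a * X ^ n) X, ← ih, aeval_X, aeval_X]
    calc Tw.C l * (aeval P (Polynomial.C a * X ^ n) * P) * Tw.C l⁻¹
        = Tw.C l * aeval P (Polynomial.C a * X ^ n) * 1 * (P * Tw.C l⁻¹) := by
          rw [mul_one]; simp only [mul_assoc]
      _ = Tw.C l * aeval P (Polynomial.C a * X ^ n) * (Tw.C l⁻¹ * Tw.C l) * (P * Tw.C l⁻¹) := by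
          rw [h2]
      _ = Tw.C l * aeval P (Polynomial.C a * X ^ n) * Tw.C l⁻¹ * (Tw.C l * P * Tw.C l⁻¹) := by
          simp only [mul_assoc]

theorem isCyc_conj {κ : Type*} [Field κ] [Algebra F κ] (l : κ) (hl : l ≠ 0) (P : Tw F κ) (d : F)
    (n : ℕ) (L : Submodule F κ) (h : IsCyc (nu P d) n L) :
    IsCyc (nu (Tw.C l * P * Tw.C l⁻¹) d) n (L.map (Tw.ev (Tw.C l : Tw F κ))) := by
  obtain ⟨y, hy1, hy2, hL⟩ := h
  have key : ∀ v : κ, nu (Tw.C l * P * Tw.C l⁻¹) d (l * v) = l * nu P d v := by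
    intro v
    have e1 : (Tw.C l * P * Tw.C l⁻¹ - algebraMap F (Tw F κ) d : Tw F κ) =
        Tw.C l * (P - algebraMap F (Tw F κ) d) * Tw.C l⁻¹ := by
      have h1 : (Tw.C l : Tw F κ) * Tw.C l⁻¹ = 1 := by
        rw [← map_mul, mul_inv_cancel₀ hl, map_one]
      rw [mul_sub, sub_mul, ← Algebra.commutes d (Tw.C l : Tw F κ), mul_assoc (algebraMap _ _ _),
        h1, mul_one]
    unfold nu
    rw [e1, Tw.ev_mul, Tw.ev_mul, Tw.ev_C, Tw.ev_C, ← mul_assoc l⁻¹, inv_mul_cancel₀ hl, one_mul]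
  have keyp : ∀ (i : ℕ) (v : κ), (nu (Tw.C l * P * Tw.C l⁻¹) d ^ i) (l * v) =
      l * (nu P d ^ i) v := by
    intro i
    induction i with
    | zero => intro v; simp
    | succ i ih =>
      intro v
      rw [pow_succ, pow_succ, Module.End.mul_apply, Module.End.mul_apply, key, ih]
  refine ⟨l * y, ?_, ?_, ?_⟩
  · rw [keyp, hy1, mul_zero]
  · rw [keyp]
    exact mul_ne_zero hl hy2
  · rw [hL, Submodule.map_span, ← Set.range_comp]
    congr 2
    funext i
    rw [Function.comp_apply, Tw.ev_C, keyp]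

end Pool.Agent.H9.Ram
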