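import Pool.Agent.H9.Ram.V8

/-!
# Module R2: transport of objects between algebraically closed fields

See part (c) of the header of R1: `j : K → κ` a morphism of algebraically closed fields over `F`. `DrT κ` injects into
`DrT K`: `(x, ζ, L) ↦ (x_K, ζ, j⁻¹ L)`. `x = j x_K` as `X^(q^k) - X` splits over `K`. `(P_x - d)^(n+1)` has constant
coefficient `(c-d)^(n+1) ≠ 0`, its kernels over `K` and `κ` have the same number `q^(2(n+1))` of elements (`Tw.card_ker`), so
every torsion point in `κ` comes from `K`; `L = j(j⁻¹ L)`. `IsCyc` and stability: transport along the injective linear map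
`j` (a generator `y` of `L` is `j y_K`). The witness: `P^m Q = Q P^m = Fr - α(P)` has coefficients in `K`; divide over `K`
by `P_K^m` (`Tw.exists_right_div`): `Fr_K - α(P_K) = h P_K^m + r`, and by uniqueness over `κ` (`Tw.right_div_unique`)
`Q = j h`, `j r = 0`. All equations pass to `K` by injectivity of `Tw.map j`, and if `h = r' + h' P_K` then
`Q = r' + (j h') P`, contradiction. `DrT K` is finite (`finite_DrObj`).
-/

open Polynomial

noncomputable section

namespace Pool.Agent.H9.Ram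

section aux

variable {F K κ : Type*} [Field F] [Fintype F] [Field K] [Algebra F K]
  [Field κ] [Algebra F κ]

theorem r2_map_Pt (j : K →ₐ[F] κ) (c : F) (x : K) : Tw.map j (Pt c x) = Pt c (j x) := by
  unfold Pt
  rw [map_add, map_add, map_mul, map_pow, AlgHom.commutes, Tw.map_T, Tw.map_C]

theorem r2_map_nu (j : K →ₐ[F] κ) (P : Tw F K) (d : F) (y : K) :
    nu (Tw.map j P) d (j y) = j (nu P d y) := by
  unfold nu
  rw [← Tw.ev_map, map_sub (Tw.map j), AlgHom.commutes]

theorem r2_map_nu_pow (j : K →ₐ[F] κ) (P : Tw F K) (d : F) (i : ℕ) (y : K) :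
    (nu (Tw.map j P) d ^ i) (j y) = j ((nu P d ^ i) y) := by
  induction i generalizing y with
  | zero => simp
  | succ i ih => rw [pow_succ, pow_succ, Module.End.mul_apply, Module.End.mul_apply, r2_map_nu, ih]

theorem r2_nu_pow (P : Tw F K) (d : F) (i : ℕ) :
    nu P d ^ i = Tw.ev ((P - algebraMap F (Tw F K) d) ^ i) := by
  unfold nu
  rw [map_pow]

/-- roots of an additive polynomial over an algebraically closed field -/
theorem r2_root [IsAlgClosed K] (j : K →ₐ[F] κ) (f : Tw F K) (hf : f ≠ 0) (y : κ)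
    (hy : Tw.ev (Tw.map j f) y = 0) : ∃ z : K, j z = y := by
  have h0 : Tw.addPoly f ≠ 0 := by
    intro h
    have h1 := Tw.natDegree_addPoly hf
    rw [h, Polynomial.natDegree_zero] at h1
    exact (pow_pos Fintype.card_pos _).ne h1
  have h1 : ((Tw.addPoly f).map (j : K →+* κ)).IsRoot y := by
    rw [Polynomial.IsRoot.def, Polynomial.eval_map, Tw.aeval_addPoly, hy]
  obtain ⟨z, hz⟩ := (IsAlgClosed.splits (Tw.addPoly f)).mem_range_of_isRoot h0 h1
  exact ⟨z, hz⟩

theorem r2_fix [IsAlgClosed K] (j : K →ₐ[F] κ) {k : ℕ} (hk : 0 < k) (x : κ)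
    (hx : x ^ (Fintype.card F ^ k) = x) : ∃ z : K, j z = x := by
  refine r2_root j (Tw.T ^ k - 1 : Tw F K) ?_ x ?_
  · intro h
    have h1 : (Tw.T ^ k - 1 : Tw F K).coeff k = 0 := by rw [h, Tw.coeff_zero']
    rw [Tw.coeff_sub, Tw.coeff_T_pow, Tw.coeff_one, if_pos rfl, if_neg hk.ne', sub_zero] at h1
    exact one_ne_zero h1
  · rw [map_sub, map_pow, Tw.map_T, map_one, map_sub, LinearMap.sub_apply, Tw.ev_T_pow, map_one,
      Module.End.one_apply, hx, sub_self]

/-- the witness comes from `K` -/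
theorem r2_typ (j : K →ₐ[F] κ) (c z : F) (x : K) (hx : x ≠ 0) (k : ℕ) (t : Typ F)
    (h : HasTyp (Pt c (j x)) (algebraMap F (Tw F κ) z * Tw.T ^ k) t) :
    HasTyp (Pt c x) (algebraMap F (Tw F K) z * Tw.T ^ k) t := by
  obtain ⟨Q, h1, h2, h3, h4, h5⟩ := h
  have hj : Function.Injective j := j.toRingHom.injective
  have hmj := Tw.map_injective (F := F) j hj
  have hP : Tw.map j (Pt c x) = Pt c (j x) := r2_map_Pt j c x
  have hae : ∀ f : F[X], Tw.map j (aeval (Pt c x) f) = aeval (Pt c (j x)) f := by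
    intro f
    rw [← hP]
    exact (Polynomial.aeval_algHom_apply (Tw.map j) (Pt c x) f).symm
  have hFr : Tw.map j (algebraMap F (Tw F K) z * Tw.T ^ k) =
      algebraMap F (Tw F κ) z * Tw.T ^ k := by
    rw [map_mul, map_pow, AlgHom.commutes, Tw.map_T]
  have hPne : Pt c x ≠ 0 := by
    intro h
    have h1 := natDegree_Pt (K := K) c hx
    rw [h] at h1
    have h2 : (0 : Tw F K).natDegree = 0 := by
      show (0 : K[X]).natDegree = 0
      exact Polynomial.natDegree_zero
    omega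
  have hPm : Pt c x ^ t.m ≠ 0 := pow_ne_zero _ hPne
  obtain ⟨g, r, e1, e2, _⟩ := Tw.exists_right_div (Pt c x ^ t.m) (Pt c x ^ t.m).natDegree le_rfl
    (isUnit_iff_ne_zero.2 (Tw.coeff_natDegree_ne_zero hPm))
    (algebraMap F (Tw F K) z * Tw.T ^ k - aeval (Pt c x) t.al)
  have hcomm : Pt c (j x) ^ t.m * Q = Q * Pt c (j x) ^ t.m := (Commute.pow_left h2 t.m).eq
  have hmapm : Tw.map j (Pt c x ^ t.m) = Pt c (j x) ^ t.m := by rw [map_pow, hP]
  have e3 : Tw.map j g * Pt c (j x) ^ t.m + Tw.map j r = Q * Pt c (j x) ^ t.m + 0 := by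
    have := congrArg (Tw.map j) e1
    rw [map_sub, hFr, hae, map_add, map_mul, hmapm] at this
    rw [← this, h3, hcomm, add_zero, add_sub_cancel_left]
  have hdeg : (Pt c (j x) ^ t.m).natDegree = (Pt c x ^ t.m).natDegree := by
    rw [← hmapm, Tw.natDegree_map_of_injective j hj]
  obtain ⟨e4, e5⟩ := Tw.right_div_unique (Pt c (j x) ^ t.m) (Pt c x ^ t.m).natDegree hdeg.le
    (by
      rw [← hmapm, Tw.coeff_map]
      exact isUnit_iff_ne_zero.2 ((map_ne_zero j).2 (Tw.coeff_natDegree_ne_zero hPm)))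
    (Tw.map j g) Q (Tw.map j r) 0 e3
    (fun n hn => by rw [Tw.coeff_map, e2 n hn, map_zero]) (fun n _ => Tw.coeff_zero' n)
  have hc : Pt c x * g = g * Pt c x := by
    apply hmj
    rw [map_mul, map_mul, hP, e4, h2]
  have hr : r = 0 := by
    apply hmj
    rw [e5, map_zero]
  refine ⟨g, h1, hc, ?_, ?_, ?_⟩
  · have hcg : Pt c x ^ t.m * g = g * Pt c x ^ t.m := (Commute.pow_left hc t.m).eq
    rw [hr, add_zero, ← hcg] at e1
    rw [← e1, add_sub_cancel]
  · apply hmj
    rw [map_add, map_sub, map_pow, map_mul, hae, hae, e4, h4, map_zero]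
  · intro s h' hs
    refine h5 s (Tw.map j h') ?_
    rw [← e4, hs, map_add, map_mul, AlgHom.commutes, hP]

end aux

variable {F K κ : Type*} [Field F] [Fintype F] [Field K] [Algebra F K] [IsAlgClosed K]
  [Field κ] [Algebra F κ] [IsAlgClosed κ]

omit [IsAlgClosed κ] in
theorem r2_lift (j : K →ₐ[F] κ) {c d : F} (hcd : c ≠ d) {n k : ℕ} (hk : 0 < k) (t : Typ F)
    (o : κ × F × Submodule F κ) (ho : o ∈ DrT κ c d n k t) :
    ∃ o' ∈ DrT K c d n k t, (j o'.1, o'.2.1, o'.2.2.map j.toLinearMap) = o := by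
  obtain ⟨x, z, L⟩ := o
  obtain ⟨⟨hx0, hxk, hz, ⟨y, hy1, hy2, hL⟩, hst⟩, ht⟩ := ho
  simp only at hx0 hxk hz hy1 hy2 hL hst ht
  have hj : Function.Injective j := j.toRingHom.injective
  obtain ⟨x, rfl⟩ := r2_fix j hk x hxk
  have hx0' : x ≠ 0 := by
    rintro rfl
    exact hx0 (map_zero j)
  have hP : Tw.map j (Pt c x) = Pt c (j x) := r2_map_Pt j c x
  rw [← hP] at hy1 hy2 hL
  have hne : Pt c x - algebraMap F (Tw F K) d ≠ 0 := by
    intro h
    have h1 : (Pt c x - algebraMap F (Tw F K) d).coeff 0 = 0 := by rw [h, Tw.coeff_zero']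
    rw [Tw.coeff_sub, coeff_Pt_zero, Tw.algebraMap_apply, Tw.coeff_C_zero, sub_eq_zero] at h1
    exact hcd ((algebraMap F K).injective h1)
  obtain ⟨y, rfl⟩ := r2_root j ((Pt c x - algebraMap F (Tw F K) d) ^ (n + 1)) (pow_ne_zero _ hne) y
    (by
      rw [map_pow, map_sub, AlgHom.commutes, ← r2_nu_pow]
      exact hy1)
  have hLm : (Submodule.span F (Set.range fun i : ℕ => (nu (Pt c x) d ^ i) y)).map j.toLinearMap =
      L := by
    rw [hL, Submodule.map_span, ← Set.range_comp]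
    congr 2
    funext i
    exact (r2_map_nu_pow j (Pt c x) d i y).symm
  refine ⟨(x, z, Submodule.span F (Set.range fun i : ℕ => (nu (Pt c x) d ^ i) y)),
    ⟨⟨hx0', ?_, hz, ⟨y, ?_, ?_, rfl⟩, ?_⟩, ?_⟩, ?_⟩
  · apply hj
    rw [map_pow]
    exact hxk
  · apply hj
    rw [← r2_map_nu_pow, hy1, map_zero]
  · intro h
    apply hy2
    rw [r2_map_nu_pow, h, map_zero]
  · rintro _ ⟨w, hw, rfl⟩
    have h1 : j w ∈ L := by
      rw [← hLm]
      exact ⟨w, hw, rfl⟩
    have h2 : Tw.ev (Tw.T ^ k : Tw F κ) (j w) ∈ L := hst ⟨j w, h1, rfl⟩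
    rw [← hLm] at h2
    obtain ⟨w', hw', h3⟩ := h2
    have h4 : j w' = j (Tw.ev (Tw.T ^ k : Tw F K) w) := by
      rw [← Tw.ev_map, map_pow, Tw.map_T]
      exact h3
    rw [← hj h4]
    exact hw'
  · exact r2_typ j c z x hx0' k t ht
  · exact Prod.ext rfl (Prod.ext rfl hLm)

theorem ncard_DrT_le (j : K →ₐ[F] κ) {c d : F} (hcd : c ≠ d) {n k : ℕ} (hk : 0 < k) (t : Typ F) :
    (DrT κ c d n k t).ncard ≤ (DrT K c d n k t).ncard := by
  have hfin : (DrT K c d n k t).Finite :=
    (finite_DrObj c d n k hk).subset fun o ho => ho.1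
  have hsub : DrT κ c d n k t ⊆
      (fun o : K × F × Submodule F K => (j o.1, o.2.1, o.2.2.map j.toLinearMap)) ''
        DrT K c d n k t := by
    intro o ho
    obtain ⟨o', h1, h2⟩ := r2_lift j hcd hk t o ho
    exact ⟨o', h1, h2⟩
  exact (Set.ncard_le_ncard hsub (hfin.image _)).trans (Set.ncard_image_le hfin)

end Pool.Agent.H9.Ram
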