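import Pool.Agent.H9.Ram.V7

/-!
# Module V8: the volcano inequality

Every object `o = (x, ζ, L) ∈ DrObj` has a type `t(o)` (`exists_typ_Dr`, unique by `typ_unique`) and a unique witness
`Q_o` (`wit_unique`). An edge `(o, l)` is good if `Q_o l ≤ l`. By V7 the number of good edges at `o` is `≤ rts (t o)`;
the map bad edge ↦ dual edge (V6) is injective with values in the good edges at objects whose type is not smooth, which
are at most `∑_{o not smooth} rts (t o) = #{o not smooth}`. So
`#DrEdge ≤ ∑_o rts (t o) + #{o not smooth}` and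
`∑_{o smooth} (2 - rts (t o)) + #DrEdge ≤ 2 #{o smooth} + ∑_{o not smooth} rts (t o) + #{o not smooth} = 2 #DrObj`.
Finally `∑_{t ∈ s} (2 - rts t) #DrT t ≤ ∑_{o smooth} (2 - rts (t o))` for a finite set `s` of smooth types, since
the sets `DrT t` are disjoint for different `t` and `rts ≤ 2`.
-/

open Polynomial

noncomputable section

namespace Pool.Agent.H9.Ram

variable {F K : Type*} [Field F] [Fintype F] [Field K] [Algebra F K]

/-- The objects of a given type. -/
def DrT (K : Type*) [Field K] [Algebra F K] (c d : F) (n k : ℕ) (t : Typ F) :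
    Set (K × F × Submodule F K) :=
  {o | o ∈ DrObj K c d n k ∧ HasTyp (Pt c o.1) (algebraMap F (Tw F K) o.2.1 * Tw.T ^ k) t}

theorem rts_le_two (t : Typ F) : t.rts ≤ 2 := by
  unfold Typ.rts
  by_contra hcon
  rw [not_le] at hcon
  obtain ⟨r1, r2, r3, h1, h2, h3, h12, h13, h23⟩ :=
    (Set.two_lt_ncard_iff (Set.toFinite _)).1 hcon
  simp only [Set.mem_ofPred_eq] at h1 h2 h3
  have e1 : (r1 - r2) * (r1 + r2 - t.a.coeff 0) = 0 := by linear_combination h1 - h2
  have e2 : (r1 - r3) * (r1 + r3 - t.a.coeff 0) = 0 := by linear_combination h1 - h3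
  have f1 := (mul_eq_zero.1 e1).resolve_left (sub_ne_zero.2 h12)
  have f2 := (mul_eq_zero.1 e2).resolve_left (sub_ne_zero.2 h13)
  apply h23
  linear_combination f1 - f2

theorem volcano [IsAlgClosed K] {c d : F} (hc : c ≠ 0) (hd : d ≠ 0) {n k : ℕ} (hk : 0 < k)
    (s : Finset (Typ F)) (hs : ∀ t ∈ s, t.Smooth) :
    (∑ t ∈ s, (2 - (t.rts : ℤ)) * ((DrT K c d n k t).ncard : ℤ)) + ((DrEdge K c d n k).ncard : ℤ) ≤
      2 * ((DrObj K c d n k).ncard : ℤ) := by
  classical
  have hO : (DrObj K c d n k).Finite := finite_DrObj c d n k hk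
  have hE : (DrEdge K c d n k).Finite := finite_DrEdge c d hc n k hk
  -- types and witnesses
  have hex : ∀ o : K × F × Submodule F K, ∃ (t : Typ F) (Q : Tw F K), o ∈ DrObj K c d n k →
      IsWit (Pt c o.1) (algebraMap F (Tw F K) o.2.1 * Tw.T ^ k) Q t := by
    intro o
    by_cases ho : o ∈ DrObj K c d n k
    · obtain ⟨t, Q, hQ⟩ := exists_typ_Dr c o.2.1 hk ho.1 ho.2.1 ho.2.2.1
      exact ⟨t, Q, fun _ => hQ⟩
    · exact ⟨⟨0, 0, 0, 0⟩, 0, fun h => absurd h ho⟩
  choose tt QQ hw using hex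
  have hpos : ∀ o ∈ DrObj K c d n k, 0 < (Pt c o.1 : Tw F K).natDegree := by
    intro o ho
    rw [natDegree_Pt c ho.1]
    norm_num
  -- dual edges
  have hdu : ∀ z : (K × F × Submodule F K) × Submodule F K,
      ∃ z' : (K × F × Submodule F K) × Submodule F K, z ∈ DrEdge K c d n k →
      z' ∈ DrEdge K c d n k ∧ IsDualEdge c k z z' := by
    intro z
    by_cases hz : z ∈ DrEdge K c d n k
    · obtain ⟨z', h1, h2⟩ := exists_dualEdge hc hd z hz
      exact ⟨z', fun _ => ⟨h1, h2⟩⟩
    · exact ⟨z, fun h => absurd h hz⟩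
  choose du hdu using hdu
  -- finsets
  obtain ⟨Of, hOf⟩ : ∃ Of : Finset (K × F × Submodule F K), (Of : Set _) = DrObj K c d n k :=
    ⟨hO.toFinset, hO.coe_toFinset⟩
  obtain ⟨Ef, hEf⟩ : ∃ Ef : Finset ((K × F × Submodule F K) × Submodule F K),
      (Ef : Set _) = DrEdge K c d n k := ⟨hE.toFinset, hE.coe_toFinset⟩
  have memO : ∀ o, o ∈ Of ↔ o ∈ DrObj K c d n k := fun o => by rw [← hOf, Finset.mem_coe]
  have memE : ∀ z, z ∈ Ef ↔ z ∈ DrEdge K c d n k := fun z => by rw [← hEf, Finset.mem_coe]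
  obtain ⟨Gf, hGf⟩ : ∃ Gf : Finset ((K × F × Submodule F K) × Submodule F K),
      Gf = Ef.filter (fun z => z.2.map (Tw.ev (QQ z.1)) ≤ z.2) := ⟨_, rfl⟩
  have memG : ∀ z, z ∈ Gf ↔ z ∈ DrEdge K c d n k ∧ z.2.map (Tw.ev (QQ z.1)) ≤ z.2 := by
    intro z
    rw [hGf, Finset.mem_filter, memE]
  have hfib : ∀ o ∈ Of, (Gf.filter (fun z => z.1 = o)).card ≤ (tt o).rts := by
    intro o ho
    have ho' := (memO o).1 ho
    have h1 := ncard_good_le hc ho'.1 _ (QQ o) (tt o) (hw o ho')
      (((Gf.filter (fun z => z.1 = o)).image Prod.snd : Finset (Submodule F K)) :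
        Set (Submodule F K)) (by
        intro l hl
        rw [Finset.mem_coe, Finset.mem_image] at hl
        obtain ⟨z, hz, rfl⟩ := hl
        rw [Finset.mem_filter, memG] at hz
        obtain ⟨⟨⟨_, hz1⟩, hz2⟩, rfl⟩ := hz
        exact ⟨hz1.1, hz1.2.1, hz2⟩)
    have h2 := h1.2
    rw [Set.ncard_coe_finset, Finset.card_image_of_injOn] at h2
    · exact h2
    · intro z hz z' hz' h
      rw [Finset.mem_coe, Finset.mem_filter] at hz hz'
      exact Prod.ext (hz.2.trans hz'.2.symm) h
  have hGcard : Gf.card ≤ ∑ o ∈ Of, (tt o).rts := by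
    have h1 : Gf.card = ∑ o ∈ Of, (Gf.filter (fun z => z.1 = o)).card :=
      Finset.card_eq_sum_card_fiberwise (f := Prod.fst) (by
        intro z hz
        rw [Finset.mem_coe, memG] at hz
        rw [Finset.mem_coe, memO]
        exact hz.1.1)
    rw [h1]
    exact Finset.sum_le_sum hfib
  obtain ⟨Bf, hBf⟩ : ∃ Bf : Finset ((K × F × Submodule F K) × Submodule F K),
      Bf = Ef.filter (fun z => ¬ z.2.map (Tw.ev (QQ z.1)) ≤ z.2) := ⟨_, rfl⟩
  have memB : ∀ z, z ∈ Bf ↔ z ∈ DrEdge K c d n k ∧ ¬ z.2.map (Tw.ev (QQ z.1)) ≤ z.2 := by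
    intro z
    rw [hBf, Finset.mem_filter, memE]
  have hEcard : Ef.card = Gf.card + Bf.card := by
    rw [hGf, hBf]
    exact (Finset.card_filter_add_card_filter_not _).symm
  obtain ⟨Hf, hHf⟩ : ∃ Hf : Finset ((K × F × Submodule F K) × Submodule F K),
      Hf = Gf.filter (fun z => ¬ (tt z.1).Smooth) := ⟨_, rfl⟩
  have hBH : Bf.card ≤ Hf.card := by
    apply Finset.card_le_card_of_injOn du
    · intro z hz
      rw [Finset.mem_coe, memB] at hz
      obtain ⟨hz1, hz2⟩ := hz
      obtain ⟨hz3, hz4⟩ := hdu z hz1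
      obtain ⟨Q', t', h1, h2, h3⟩ := bad_edge hc hd hk z (du z) hz1 hz3 hz4 (QQ z.1) (tt z.1)
        (hw z.1 hz1.1) hz2
      obtain ⟨rfl, rfl⟩ := wit_unique _ _ _ _ (hpos _ hz3.1) _ _ h1 (hw _ hz3.1)
      rw [Finset.mem_coe, hHf, Finset.mem_filter, memG]
      exact ⟨⟨hz3, h3⟩, h2⟩
    · intro z hz z' hz' h
      rw [Finset.mem_coe, memB] at hz hz'
      have h1 := hdu z hz.1
      have h2 := hdu z' hz'.1
      rw [← h] at h2
      exact dualEdge_injective hc hd z z' (du z) hz.1 hz'.1 h1.2 h2.2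
  have hHcard : Hf.card ≤ (Of.filter (fun o => ¬ (tt o).Smooth)).card := by
    have h1 : Hf.card = ∑ o ∈ Of.filter (fun o => ¬ (tt o).Smooth),
        (Hf.filter (fun z => z.1 = o)).card :=
      Finset.card_eq_sum_card_fiberwise (f := Prod.fst) (by
        intro z hz
        rw [Finset.mem_coe, hHf, Finset.mem_filter, memG] at hz
        rw [Finset.mem_coe, Finset.mem_filter, memO]
        exact ⟨hz.1.1.1, hz.2⟩)
    rw [h1]
    calc ∑ o ∈ Of.filter (fun o => ¬ (tt o).Smooth), (Hf.filter (fun z => z.1 = o)).card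
        ≤ ∑ o ∈ Of.filter (fun o => ¬ (tt o).Smooth), 1 := by
          apply Finset.sum_le_sum
          intro o ho
          rw [Finset.mem_filter] at ho
          calc (Hf.filter (fun z => z.1 = o)).card ≤ (Gf.filter (fun z => z.1 = o)).card := by
                apply Finset.card_le_card
                rw [hHf]
                exact Finset.filter_subset_filter _ (Finset.filter_subset _ _)
            _ ≤ (tt o).rts := hfib o ho.1
            _ = 1 := rts_of_not_smooth _ ho.2
      _ = (Of.filter (fun o => ¬ (tt o).Smooth)).card := by simp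
  -- split the sum of the number of roots
  have hsplit : ∑ o ∈ Of, (tt o).rts = ∑ o ∈ Of.filter (fun o => (tt o).Smooth), (tt o).rts +
      (Of.filter (fun o => ¬ (tt o).Smooth)).card := by
    rw [← Finset.sum_filter_add_sum_filter_not Of (fun o => (tt o).Smooth)]
    congr 1
    rw [Finset.card_eq_sum_ones]
    apply Finset.sum_congr rfl
    intro o ho
    rw [Finset.mem_filter] at ho
    exact rts_of_not_smooth _ ho.2
  have hOcard : Of.card = (Of.filter (fun o => (tt o).Smooth)).card +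
      (Of.filter (fun o => ¬ (tt o).Smooth)).card :=
    (Finset.card_filter_add_card_filter_not _).symm
  -- the sum over the types
  have hDrT : ∀ t, (DrT K c d n k t).ncard = (Of.filter (fun o => tt o = t)).card := by
    intro t
    rw [← Set.ncard_coe_finset]
    congr 1
    ext o
    rw [Finset.mem_coe, Finset.mem_filter, memO]
    constructor
    · rintro ⟨h1, h2⟩
      exact ⟨h1, typ_unique _ _ (hpos o h1) _ _ ⟨_, hw o h1⟩ h2⟩
    · rintro ⟨h1, rfl⟩
      exact ⟨h1, _, hw o h1⟩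
  have hsum : (∑ t ∈ s, (2 - (t.rts : ℤ)) * ((DrT K c d n k t).ncard : ℤ)) ≤
      ∑ o ∈ Of.filter (fun o => (tt o).Smooth), (2 - ((tt o).rts : ℤ)) := by
    have h1 : (∑ t ∈ s, (2 - (t.rts : ℤ)) * ((DrT K c d n k t).ncard : ℤ)) =
        ∑ t ∈ s, ∑ o ∈ (Of.filter (fun o => tt o ∈ s)).filter (fun o => tt o = t),
          (2 - ((tt o).rts : ℤ)) := by
      apply Finset.sum_congr rfl
      intro t ht
      have h2 : (Of.filter (fun o => tt o ∈ s)).filter (fun o => tt o = t) =
          Of.filter (fun o => tt o = t) := by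
        ext o
        simp only [Finset.mem_filter]
        constructor
        · rintro ⟨⟨h3, _⟩, h4⟩
          exact ⟨h3, h4⟩
        · rintro ⟨h3, rfl⟩
          exact ⟨⟨h3, ht⟩, rfl⟩
      rw [h2, hDrT t, Finset.sum_congr rfl (g := fun _ => 2 - (t.rts : ℤ))]
      · rw [Finset.sum_const, nsmul_eq_mul, mul_comm]
      · intro o ho
        rw [Finset.mem_filter] at ho
        rw [ho.2]
    have h5 := Finset.sum_fiberwise_of_maps_to (s := Of.filter (fun o => tt o ∈ s)) (t := s)
      (g := tt) (fun o ho => (Finset.mem_filter.1 ho).2) (fun o => (2 - ((tt o).rts : ℤ)))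
    rw [h1, h5]
    apply Finset.sum_le_sum_of_subset_of_nonneg
    · intro o ho
      rw [Finset.mem_filter] at ho ⊢
      exact ⟨ho.1, hs _ ho.2⟩
    · intro o _ _
      have := rts_le_two (tt o)
      omega
  have hsum2 : ∑ o ∈ Of.filter (fun o => (tt o).Smooth), (2 - ((tt o).rts : ℤ)) =
      2 * ((Of.filter (fun o => (tt o).Smooth)).card : ℤ) -
        ((∑ o ∈ Of.filter (fun o => (tt o).Smooth), (tt o).rts : ℕ) : ℤ) := by
    rw [Finset.sum_sub_distrib, Finset.sum_const, nsmul_eq_mul]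
    push_cast
    ring
  have hEn : (DrEdge K c d n k).ncard = Ef.card := by rw [← hEf, Set.ncard_coe_finset]
  have hOn : (DrObj K c d n k).ncard = Of.card := by rw [← hOf, Set.ncard_coe_finset]
  rw [hEn, hOn]
  rw [hsum2] at hsum
  omega

end Pool.Agent.H9.Ram
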