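import Pool.Agent.H9.Ram.R1
import Pool.Agent.H9.Ram.V8
import Pool.Agent.H9.Ram.L5
import Pool.Agent.H9.Ram.L4
import Pool.Agent.H9.Ram.G3
import Pool.Agent.H9.Ram.G6
import Pool.Agent.H9.Ram.G8

/-!
# Module R3: every quaternion object lifts and reduces (existence)

`Rel o o'`: `o = (γ, L)` on the quaternion side (over `K`) with witness `Q₀`, lifted to `(Pm tW gW, QW)` over `K⟦s⟧`, which over
`Ω` comes from `(Pm tR gR, QR)` over the valuation ring `R`, reduced to `κ`, normalized by the constant `l`, gives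
`o' = (x, ζ, L')`.

Existence. Let `o = (γ, L) ∈ DStar`, `Q₀` its witness with `Q₀.coeff 0 = θ`. `γ² - A(T²) γ + e (T²-c)^k = 0` holds with
`A = 2α + X^m a` by `t.Ok` and `quadratic_of_wit`. Lift: `exists_lift` (L4) for `G = Q₀` with the given point `(tW, γW)`; the
hypotheses: `hcase` (given), `hd` (from `eq_const_of_natDegree_zero`). `Pm 0 0 = T²`. No `h ∈ F[X]` satisfies
`h² - a h + b = 0`: otherwise `(Q₀ - h(T²)) (Q₀ - (a - h)(T²)) = 0`, so `Q₀ ∈ F[T²]`, contradicting the last clause of `IsWit`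
(`f(P) = f(0) + f.divX(P) P`). `good_reduction` and `good_reduction_Q` (G3): `gW`, `QW` come from `gR`, `QR` over `R`; the
quadratic equation holds over `R` (injectivity) and so over `κ`. Degree: `FrW = α(P) + P^m QW` reduces (`cc`) to `γ` of degree
`k`, so `FrW` has degree `k` (`natDegree_eq_of_map`), so does its image in `Ω{τ}` and `FrR`, so `Fr̄` has degree `≤ k`.
`frob_monomial`: with `ρ`: `Q̄.coeff 0 = π γR = ρ`, `α(c) + c^m ρ = 0`. So `ḡ ≠ 0` and `Fr̄ = ω τ^k`. `exists_normalization`: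
`l, x, ζ`. `L' = l · spec L`: cyclic by `spec_isCyc` and `isCyc_conj`; stable under `ζ τ^k` (so under `τ^k`) by `SpecOK.map_le`
with `BW = FrW`, `BR = FrR` and conjugation. `HasTyp`: witness `l Q̄ l⁻¹`, last clause by `nonscalar_of_smooth`.
`x ≠ 0` since `x l^(q²-1) = 1`.
-/

open Polynomial

noncomputable section

namespace Pool.Agent.H9.Ram

variable {F K R Ω κ : Type*} [Field F] [Fintype F] [Field K] [Algebra F K] [CommRing R]
  [IsDomain R] [Field Ω] [Field κ] [Algebra F R] [Algebra F Ω] [Algebra F κ]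

/-- The correspondence between the two sides. -/
def Rel (ιW : PowerSeries K →ₐ[F] Ω) (ι : R →ₐ[F] Ω) (π : R →ₐ[F] κ) (tW γW : PowerSeries K)
    (tR : R) (d : F) (n k : ℕ) (t : Typ F) (o : Tw F K × Submodule F K)
    (o' : κ × F × Submodule F κ) : Prop :=
  ∃ (Q0 : Tw F K) (gW : PowerSeries K) (QW : Tw F (PowerSeries K)) (gR : R) (QR : Tw F R) (l : κ),
    IsWit (Tw.T ^ 2 : Tw F K) o.1 Q0 t ∧ cc F gW = 0 ∧ QW.coeff 0 = γW ∧ Tw.map (cc F) QW = Q0 ∧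
    Pm tW gW * QW = QW * Pm tW gW ∧ ι gR = ιW gW ∧ Tw.map ι QR = Tw.map ιW QW ∧ l ≠ 0 ∧
    l ^ (Fintype.card F - 1) = π gR ∧ o'.1 * l ^ (Fintype.card F ^ 2 - 1) = 1 ∧
    Tw.C l * (aeval (Pm (π tR) (π gR) : Tw F κ) t.al +
      (Pm (π tR) (π gR) : Tw F κ) ^ t.m * Tw.map π QR) * Tw.C l⁻¹ =
      algebraMap F (Tw F κ) o'.2.1 * Tw.T ^ k ∧
    o'.2.2 = (spec ιW ι π ((Pm tW gW - algebraMap F _ d) ^ (n + 1)) o.2).map
      (Tw.ev (Tw.C l : Tw F κ))

/-! ### Helpers -/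

theorem r3_map_Pm {R S : Type*} [CommRing R] [CommRing S] [Algebra F R] [Algebra F S]
    (φ : R →ₐ[F] S) (t g : R) : Tw.map φ (Pm t g : Tw F R) = Pm (φ t) (φ g) := map_Pm φ t g

theorem r3_map_aeval {R S : Type*} [CommRing R] [CommRing S] [Algebra F R] [Algebra F S]
    (φ : R →ₐ[F] S) (P : Tw F R) (f : F[X]) :
    Tw.map φ (aeval P f) = aeval (Tw.map φ P) f := (Polynomial.aeval_algHom_apply _ _ _).symm

theorem r3_map_sub {R S : Type*} [CommRing R] [CommRing S] [Algebra F R] [Algebra F S]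
    (φ : R →ₐ[F] S) (x y : Tw F R) : Tw.map φ (x - y) = Tw.map φ x - Tw.map φ y :=
  map_sub (Tw.map φ) x y

theorem r3_Pm_zero {R : Type*} [CommRing R] [Algebra F R] :
    (Pm (0 : R) 0 : Tw F R) = Tw.T ^ 2 := by
  unfold Pm
  rw [map_zero, zero_mul, zero_add, zero_add]

theorem r3_map_quad {R S : Type*} [CommRing R] [CommRing S] [Algebra F R] [Algebra F S]
    (φ : R →ₐ[F] S) (P Q : Tw F R) (a b : F[X])
    (h : Q ^ 2 - aeval P a * Q + aeval P b = 0) :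
    (Tw.map φ Q) ^ 2 - aeval (Tw.map φ P) a * Tw.map φ Q + aeval (Tw.map φ P) b = 0 := by
  have h1 := congrArg (Tw.map φ) h
  rw [map_add, r3_map_sub, map_pow, map_mul, r3_map_aeval, r3_map_aeval, map_zero] at h1
  exact h1

theorem r3_map_comm {R S : Type*} [CommRing R] [CommRing S] [Algebra F R] [Algebra F S]
    (φ : R →ₐ[F] S) (P Q : Tw F R) (h : P * Q = Q * P) :
    Tw.map φ P * Tw.map φ Q = Tw.map φ Q * Tw.map φ P := by
  rw [← map_mul, ← map_mul, h]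

theorem r3_natDegree_map_le {R S : Type*} [CommRing R] [CommRing S] [Algebra F R] [Algebra F S]
    (φ : R →ₐ[F] S) (f : Tw F R) : (Tw.map φ f).natDegree ≤ f.natDegree := by
  rw [Tw.natDegree_le_iff]
  intro n hn
  rw [Tw.coeff_map, Tw.coeff_eq_zero_of_natDegree_lt hn, map_zero]

theorem r3_aeval_comm {R : Type*} [CommRing R] [Algebra F R] (P Q : Tw F R) (h : P * Q = Q * P)
    (f : F[X]) : aeval P f * Q = Q * aeval P f := by
  have h1 : Commute Q P := h.symm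
  induction f using Polynomial.induction_on' with
  | add f g hf hg => rw [map_add, add_mul, mul_add, hf, hg]
  | monomial n a =>
    rw [aeval_monomial]
    have h0 : Commute Q (algebraMap F (Tw F R) a) := (Algebra.commutes a Q).symm
    have h2 : Commute Q (algebraMap F (Tw F R) a * P ^ n) := h0.mul_right (h1.pow_right n)
    exact h2.symm.eq

/-- `Fr` commutes with `P`. -/
theorem r3_fr_comm {R : Type*} [CommRing R] [Algebra F R] (P Q : Tw F R) (h : P * Q = Q * P)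
    (f : F[X]) (m : ℕ) : P * (aeval P f + P ^ m * Q) = (aeval P f + P ^ m * Q) * P := by
  have h1 : aeval P f * P = P * aeval P f := r3_aeval_comm P P rfl f
  have h2 : P * (P ^ m * Q) = P ^ m * Q * P := by
    rw [← mul_assoc, ← pow_succ', pow_succ, mul_assoc, h, mul_assoc]
  rw [mul_add, add_mul, h1, h2]

theorem r3_map_fr {R S : Type*} [CommRing R] [CommRing S] [Algebra F R] [Algebra F S]
    (φ : R →ₐ[F] S) (P Q : Tw F R) (f : F[X]) (m : ℕ) :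
    Tw.map φ (aeval P f + P ^ m * Q) =
      aeval (Tw.map φ P) f + (Tw.map φ P) ^ m * Tw.map φ Q := by
  rw [map_add, map_mul, map_pow, r3_map_aeval]

/-- No polynomial satisfies the quadratic equation of a nonscalar `Q`. -/
theorem r3_irr {K : Type*} [Field K] [Algebra F K] (P Q : Tw F K) (a b : F[X])
    (hc : P * Q = Q * P) (hq : Q ^ 2 - aeval P a * Q + aeval P b = 0)
    (hns : ∀ (r : F) (h : Tw F K), Q ≠ algebraMap F (Tw F K) r + h * P) (h : F[X]) :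
    h ^ 2 - a * h + b ≠ 0 := by
  intro h0
  have hb : b = h * (a - h) := by linear_combination h0
  have hne : ∀ f : F[X], Q ≠ aeval P f := by
    intro f hf
    apply hns (f.coeff 0) (aeval P f.divX)
    rw [hf]
    conv_lhs => rw [← Polynomial.divX_mul_X_add f]
    rw [map_add, map_mul, aeval_X, aeval_C, add_comm]
  have hc1 : aeval P h * Q = Q * aeval P h := r3_aeval_comm P Q hc h
  have hc2 : aeval P (a - h) * Q = Q * aeval P (a - h) := r3_aeval_comm P Q hc (a - h)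
  have hprod : (Q - aeval P h) * (Q - aeval P (a - h)) = 0 := by
    have h1 : aeval P b = aeval P h * aeval P (a - h) := by rw [hb, map_mul]
    have h2 : aeval P a = aeval P h + aeval P (a - h) := by rw [← map_add]; congr 1; ring
    rw [h1, h2] at hq
    rw [sub_mul, mul_sub, mul_sub, ← hc2, ← hq]
    noncomm_ring
  rcases mul_eq_zero.1 hprod with h1 | h1
  · exact hne h (sub_eq_zero.1 h1)
  · exact hne (a - h) (sub_eq_zero.1 h1)

section conj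
variable {κ : Type*} [Field κ] [Algebra F κ]

theorem r3_Cinv {l : κ} (hl : l ≠ 0) : (Tw.C l⁻¹ : Tw F κ) * Tw.C l = 1 := by
  rw [← map_mul, inv_mul_cancel₀ hl, map_one]

theorem r3_conj_mul {l : κ} (hl : l ≠ 0) (f g : Tw F κ) :
    Tw.C l * (f * g) * Tw.C l⁻¹ = (Tw.C l * f * Tw.C l⁻¹) * (Tw.C l * g * Tw.C l⁻¹) := by
  have h := r3_Cinv (F := F) hl
  calc Tw.C l * (f * g) * Tw.C l⁻¹ = Tw.C l * f * 1 * g * Tw.C l⁻¹ := by
        rw [mul_one, mul_assoc (Tw.C l) f g]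
    _ = Tw.C l * f * (Tw.C l⁻¹ * Tw.C l) * g * Tw.C l⁻¹ := by rw [h]
    _ = _ := by simp only [mul_assoc]

theorem r3_conj_pow {l : κ} (hl : l ≠ 0) (f : Tw F κ) (n : ℕ) :
    Tw.C l * f ^ n * Tw.C l⁻¹ = (Tw.C l * f * Tw.C l⁻¹) ^ n := by
  induction n with
  | zero =>
    rw [pow_zero, pow_zero, mul_one, ← map_mul, mul_inv_cancel₀ hl, map_one]
  | succ n ih => rw [pow_succ, pow_succ, r3_conj_mul hl, ih]

theorem r3_conj_add (l : κ) (f g : Tw F κ) :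
    Tw.C l * (f + g) * Tw.C l⁻¹ = Tw.C l * f * Tw.C l⁻¹ + Tw.C l * g * Tw.C l⁻¹ := by
  rw [mul_add, add_mul]

theorem r3_conj_sub (l : κ) (f g : Tw F κ) :
    Tw.C l * (f - g) * Tw.C l⁻¹ = Tw.C l * f * Tw.C l⁻¹ - Tw.C l * g * Tw.C l⁻¹ := by
  rw [mul_sub, sub_mul]

theorem r3_conj_quad {l : κ} (hl : l ≠ 0) (P Q : Tw F κ) (a b : F[X])
    (h : Q ^ 2 - aeval P a * Q + aeval P b = 0) :
    (Tw.C l * Q * Tw.C l⁻¹) ^ 2 - aeval (Tw.C l * P * Tw.C l⁻¹) a * (Tw.C l * Q * Tw.C l⁻¹) +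
      aeval (Tw.C l * P * Tw.C l⁻¹) b = 0 := by
  have h1 : Tw.C l * (Q ^ 2 - aeval P a * Q + aeval P b) * Tw.C l⁻¹ = 0 := by
    rw [h, mul_zero, zero_mul]
  rw [r3_conj_add, r3_conj_sub, r3_conj_pow hl, r3_conj_mul hl, conj_aeval l hl,
    conj_aeval l hl] at h1
  exact h1

theorem r3_conj_fr {l : κ} (hl : l ≠ 0) (P Q : Tw F κ) (f : F[X]) (m : ℕ) :
    Tw.C l * (aeval P f + P ^ m * Q) * Tw.C l⁻¹ =
      aeval (Tw.C l * P * Tw.C l⁻¹) f + (Tw.C l * P * Tw.C l⁻¹) ^ m *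
        (Tw.C l * Q * Tw.C l⁻¹) := by
  rw [r3_conj_add, r3_conj_mul hl, r3_conj_pow hl, conj_aeval l hl]

/-- Stability under `τ^k` of the scaled submodule. -/
theorem r3_stable {l : κ} (hl : l ≠ 0) (z : F) (hz : z ≠ 0) (k : ℕ) (Fr : Tw F κ)
    (hFr : Tw.C l * Fr * Tw.C l⁻¹ = algebraMap F (Tw F κ) z * Tw.T ^ k) (S : Submodule F κ)
    (hS : S.map (Tw.ev Fr) ≤ S) :
    (S.map (Tw.ev (Tw.C l : Tw F κ))).map (Tw.ev (Tw.T ^ k : Tw F κ)) ≤
      S.map (Tw.ev (Tw.C l : Tw F κ)) := by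
  rintro _ ⟨_, ⟨y, hy, rfl⟩, rfl⟩
  have h1 : Tw.ev (algebraMap F (Tw F κ) z * Tw.T ^ k) (Tw.ev (Tw.C l : Tw F κ) y) =
      Tw.ev (Tw.C l : Tw F κ) (Tw.ev Fr y) := by
    rw [← hFr, Tw.ev_mul, Tw.ev_mul, ← Tw.ev_mul (Tw.C l⁻¹), r3_Cinv hl, map_one,
      Module.End.one_apply]
  have h2 : Tw.ev (algebraMap F (Tw F κ) z * Tw.T ^ k) (Tw.ev (Tw.C l : Tw F κ) y) =
      z • Tw.ev (Tw.T ^ k : Tw F κ) (Tw.ev (Tw.C l : Tw F κ) y) := by
    rw [Tw.ev_mul, AlgHom.commutes, Module.algebraMap_end_apply]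
  have h3 : Tw.ev (Tw.T ^ k : Tw F κ) (Tw.ev (Tw.C l : Tw F κ) y) =
      z⁻¹ • Tw.ev (Tw.C l : Tw F κ) (Tw.ev Fr y) := by
    rw [← h1, h2, smul_smul, inv_mul_cancel₀ hz, one_smul]
  rw [h3]
  exact Submodule.smul_mem _ _ ⟨_, hS ⟨y, hy, rfl⟩, rfl⟩

end conj

omit [Fintype F] in
/-- A cyclic submodule is contained in the kernel of the power of the operator. -/
theorem r3_cyc_le_ker {V : Type*} [AddCommGroup V] [Module F V] (ν : Module.End F V) (n : ℕ)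
    (L : Submodule F V) (h : IsCyc ν n L) : L ≤ LinearMap.ker (ν ^ (n + 1)) := by
  obtain ⟨y, hy, _, rfl⟩ := h
  rw [Submodule.span_le]
  rintro _ ⟨i, rfl⟩
  show (ν ^ (n + 1)) ((ν ^ i) y) = 0
  rw [← Module.End.mul_apply, ← pow_add, add_comm, pow_add, Module.End.mul_apply, hy, map_zero]

theorem exists_rel [IsAlgClosed K] [IsAlgClosed Ω] [IsAlgClosed κ] {ιW : PowerSeries K →ₐ[F] Ω}
    (hι : Function.Injective ιW) {ι : R →ₐ[F] Ω} {π : R →ₐ[F] κ} (hVR : VR ι π) (p : Par F K)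
    (n k : ℕ) (hk : 0 < k) (t : Typ F) (hOk : t.Ok p.c k) (hs : t.Smooth) (θ : K) (ρ : F)
    (hρ : t.al.eval p.c + p.c ^ t.m * ρ = 0) (tW γW : PowerSeries K) (htW : cc F tW = 0)
    (hγW : cc F γW = θ) (hcurve : γW ^ 2 - aeval tW t.a * γW + aeval tW t.b = 0)
    (hcase : 2 * θ - algebraMap F K (t.a.coeff 0) ≠ 0 ∨
      ∃ r : F, algebraMap F K r = θ ∧ t.a.coeff 0 = 2 * r ∧ -(r * t.a.coeff 1) + t.b.coeff 1 ≠ 0)
    (tR γR : R) (htR : ι tR = ιW tW) (hγR : ι γR = ιW γW) (hπt : π tR = algebraMap F κ p.c)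
    (hπγ : π γR = algebraMap F κ ρ) (o : Tw F K × Submodule F K) (ho : o ∈ DStar p n k)
    (hw : ∃ Q, IsWit (Tw.T ^ 2 : Tw F K) o.1 Q t ∧ Q.coeff 0 = θ) :
    ∃ o' ∈ DrT κ p.c p.d n k t, Rel ιW ι π tW γW tR p.d n k t o o' := by
  obtain ⟨Q0, hwit, hQ00⟩ := hw
  obtain ⟨hal, hcomm, hFr0, hquad, hns⟩ := id hwit
  obtain ⟨_, hdeg, _, hcyc, _, hstab⟩ := id ho
  -- the lift
  have hcase' : 2 * Q0.coeff 0 - algebraMap F K (t.a.coeff 0) ≠ 0 ∨
      ∃ r : F, algebraMap F K r = Q0.coeff 0 ∧ t.a.coeff 0 = 2 * r ∧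
        -(r * t.a.coeff 1) + t.b.coeff 1 ≠ 0 := by rw [hQ00]; exact hcase
  have hγW' : cc F γW = Q0.coeff 0 := by rw [hQ00]; exact hγW
  obtain ⟨gW, QW, hgW, hQW0, hQWG, hcW, hqW⟩ := exists_lift Q0 t.a t.b tW γW hcomm hquad hcase'
    htW hγW' hcurve
    (fun hG => eq_const_of_natDegree_zero Q0 t.a t.b hG hcomm hns hquad tW γW hγW' hcurve)
  -- over the big field
  have hirr : ∀ h : F[X], h ^ 2 - t.a * h + t.b ≠ 0 := r3_irr _ _ _ _ hcomm hquad hns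
  have hcΩ : Pm (ι tR) (ιW gW) * Tw.map ιW QW = Tw.map ιW QW * Pm (ι tR) (ιW gW) := by
    have h1 := r3_map_comm ιW _ _ hcW
    rw [r3_map_Pm, ← htR] at h1
    exact h1
  have hqΩ : (Tw.map ιW QW) ^ 2 - aeval (Pm (ι tR) (ιW gW)) t.a * Tw.map ιW QW +
      aeval (Pm (ι tR) (ιW gW)) t.b = 0 := by
    have h1 := r3_map_quad ιW _ _ _ _ hqW
    rw [r3_map_Pm, ← htR] at h1
    exact h1
  obtain ⟨gR, hgR⟩ := hVR.good_reduction tR p.c hπt (ιW gW) (Tw.map ιW QW) hcΩ t.a t.b hqΩ hirr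
  rw [← hgR] at hcΩ hqΩ
  obtain ⟨QR, hQR, hcR⟩ := hVR.good_reduction_Q tR gR (Tw.map ιW QW) hcΩ
  have hqR : QR ^ 2 - aeval (Pm tR gR) t.a * QR + aeval (Pm tR gR) t.b = 0 := by
    apply Tw.map_injective ι hVR.inj
    rw [map_add, r3_map_sub, map_pow, map_mul, r3_map_aeval, r3_map_aeval, map_zero, r3_map_Pm,
      hQR]
    exact hqΩ
  have hQR0 : QR.coeff 0 = γR := by
    apply hVR.inj
    rw [← Tw.coeff_map, hQR, Tw.coeff_map, hQW0, hγR]
  -- the degree of the Frobenius elements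
  obtain ⟨⟨e, he, hN⟩, htr⟩ := id hOk
  have hFrW : Tw.map (cc F) (aeval (Pm tW gW) t.al + (Pm tW gW) ^ t.m * QW) = o.1 := by
    rw [r3_map_fr, r3_map_Pm, htW, hgW, r3_Pm_zero, hQWG]
    exact hFr0.symm
  have hFrWc := r3_fr_comm (Pm tW gW) QW hcW t.al t.m
  have hqFr := quadratic_of_wit (Pm tW gW) QW t hcW hqW
  rw [hN] at hqFr
  have hdegW : (aeval (Pm tW gW) t.al + (Pm tW gW) ^ t.m * QW).natDegree = k :=
    natDegree_eq_of_map (cc F) tW gW _ hFrWc (2 * t.al + X ^ t.m * t.a) p.c e he k hqFr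
      (by rw [hFrW]; exact hdeg)
  have hFrΩ : Tw.map ι (aeval (Pm tR gR) t.al + (Pm tR gR) ^ t.m * QR) =
      Tw.map ιW (aeval (Pm tW gW) t.al + (Pm tW gW) ^ t.m * QW) := by
    rw [r3_map_fr, r3_map_fr, r3_map_Pm, r3_map_Pm, hQR, htR, hgR]
  have hdegR : (aeval (Pm tR gR) t.al + (Pm tR gR) ^ t.m * QR).natDegree = k := by
    rw [← Tw.natDegree_map_of_injective ι hVR.inj, hFrΩ, Tw.natDegree_map_of_injective ιW hι,
      hdegW]
  -- over the residue field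
  have hcκ : Pm (algebraMap F κ p.c) (π gR) * Tw.map π QR =
      Tw.map π QR * Pm (algebraMap F κ p.c) (π gR) := by
    have h1 := r3_map_comm π _ _ hcR
    rw [r3_map_Pm, hπt] at h1
    exact h1
  have hqκ : (Tw.map π QR) ^ 2 - aeval (Pm (algebraMap F κ p.c) (π gR)) t.a * Tw.map π QR +
      aeval (Pm (algebraMap F κ p.c) (π gR)) t.b = 0 := by
    have h1 := r3_map_quad π _ _ _ _ hqR
    rw [r3_map_Pm, hπt] at h1
    exact h1
  have hρκ : algebraMap F κ (t.al.eval p.c) + algebraMap F κ p.c ^ t.m *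
      (Tw.map π QR).coeff 0 = 0 := by
    rw [Tw.coeff_map, hQR0, hπγ, ← map_pow, ← map_mul, ← map_add, hρ, map_zero]
  have hFrκ : Tw.map π (aeval (Pm tR gR) t.al + (Pm tR gR) ^ t.m * QR) =
      aeval (Pm (algebraMap F κ p.c) (π gR) : Tw F κ) t.al +
        (Pm (algebraMap F κ p.c) (π gR) : Tw F κ) ^ t.m * Tw.map π QR := by
    rw [r3_map_fr, r3_map_Pm, hπt]
  have hdκ : (aeval (Pm (algebraMap F κ p.c) (π gR) : Tw F κ) t.al +
      (Pm (algebraMap F κ p.c) (π gR) : Tw F κ) ^ t.m * Tw.map π QR).natDegree ≤ k := by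
    rw [← hFrκ, ← hdegR]
    exact r3_natDegree_map_le π _
  obtain ⟨hg0, ω, hω, hFrω⟩ := frob_monomial p.c (π gR) (Tw.map π QR) t hk hOk hcκ hqκ hρκ hdκ
  have hcω : (Pm (algebraMap F κ p.c) (π gR) : Tw F κ) * (Tw.C ω * Tw.T ^ k) =
      (Tw.C ω * Tw.T ^ k) * Pm (algebraMap F κ p.c) (π gR) := by
    rw [← hFrω]
    exact r3_fr_comm _ _ hcκ _ _
  obtain ⟨l, x, z, hl, hlg, hxl, hz, hxk, hPt, hzT⟩ :=
    exists_normalization p.c (π gR) ω hg0 hω k hcω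
  have hx0 : x ≠ 0 := by
    rintro rfl
    rw [zero_mul] at hxl
    exact zero_ne_one hxl
  -- the torsion submodule
  have hP0 : Pm (cc F tW) (cc F gW) = (Tw.T ^ 2 : Tw F K) := by rw [htW, hgW, r3_Pm_zero]
  have hcycW : IsCyc (nu (Pm (cc F tW) (cc F gW) : Tw F K) p.d) n o.2 := by
    rw [hP0]; exact hcyc
  obtain ⟨hA, hcycR⟩ := spec_isCyc hι hVR p.c p.d p.hd p.hcd n tW gW tR gR htR.symm hgR.symm
    htW hπt o.2 hcycW
  rw [hπt] at hcycR
  have hcycκ := isCyc_conj l hl _ p.d n _ hcycR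
  rw [hPt] at hcycκ
  have hmapA : Tw.map (cc F) ((Pm tW gW - algebraMap F _ p.d) ^ (n + 1)) =
      ((Tw.T ^ 2 : Tw F K) - algebraMap F _ p.d) ^ (n + 1) := by
    rw [map_pow, r3_map_sub, r3_map_Pm, hP0, AlgHom.commutes]
  have hLker : o.2 ≤ LinearMap.ker (Tw.ev (Tw.map (cc F)
      ((Pm tW gW - algebraMap F _ p.d) ^ (n + 1)))) := by
    rw [hmapA, map_pow]
    exact r3_cyc_le_ker _ n o.2 hcyc
  have hBA : (aeval (Pm tW gW) t.al + (Pm tW gW) ^ t.m * QW) *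
      (Pm tW gW - algebraMap F _ p.d) ^ (n + 1) =
      (Pm tW gW - algebraMap F _ p.d) ^ (n + 1) *
        (aeval (Pm tW gW) t.al + (Pm tW gW) ^ t.m * QW) := by
    have h1 : Commute (aeval (Pm tW gW) t.al + (Pm tW gW) ^ t.m * QW) (Pm tW gW) := hFrWc.symm
    have h2 : Commute (aeval (Pm tW gW) t.al + (Pm tW gW) ^ t.m * QW)
        (algebraMap F (Tw F (PowerSeries K)) p.d) := (Algebra.commutes _ _).symm
    exact ((h1.sub_right h2).pow_right (n + 1)).eq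
  have hstabS := SpecOK.map_le hι hVR hA o.2 hLker _ _ hFrΩ.symm hBA (by rw [hFrW]; exact hstab)
  rw [hFrκ] at hstabS
  have hFrz : Tw.C l * (aeval (Pm (algebraMap F κ p.c) (π gR) : Tw F κ) t.al +
      (Pm (algebraMap F κ p.c) (π gR) : Tw F κ) ^ t.m * Tw.map π QR) * Tw.C l⁻¹ =
      algebraMap F (Tw F κ) z * Tw.T ^ k := by rw [hFrω]; exact hzT
  have hstabκ := r3_stable hl z hz k _ hFrz _ hstabS
  -- the type of the reduction
  have hcκ' : Pt p.c x * (Tw.C l * Tw.map π QR * Tw.C l⁻¹) =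
      (Tw.C l * Tw.map π QR * Tw.C l⁻¹) * Pt p.c x := by
    rw [← hPt, ← r3_conj_mul hl, ← r3_conj_mul hl, hcκ]
  have hFrκ' : algebraMap F (Tw F κ) z * Tw.T ^ k =
      aeval (Pt p.c x) t.al + Pt p.c x ^ t.m * (Tw.C l * Tw.map π QR * Tw.C l⁻¹) := by
    rw [← hFrz, r3_conj_fr hl, hPt]
  have hqκ' : (Tw.C l * Tw.map π QR * Tw.C l⁻¹) ^ 2 -
      aeval (Pt p.c x) t.a * (Tw.C l * Tw.map π QR * Tw.C l⁻¹) + aeval (Pt p.c x) t.b = 0 := by
    have h1 := r3_conj_quad hl _ _ _ _ hqκ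
    rw [hPt] at h1
    exact h1
  refine ⟨(x, z, (spec ιW ι π ((Pm tW gW - algebraMap F _ p.d) ^ (n + 1)) o.2).map
      (Tw.ev (Tw.C l : Tw F κ))), ⟨⟨hx0, hxk, hz, hcycκ, hstabκ⟩, ?_⟩, ?_⟩
  · exact ⟨Tw.C l * Tw.map π QR * Tw.C l⁻¹, hal, hcκ', hFrκ', hqκ',
      fun r h => nonscalar_of_smooth p.c z x hx0 k hk hxk hz t hs _ hcκ' hFrκ' hqκ' r h⟩
  · refine ⟨Q0, gW, QW, gR, QR, l, hwit, hgW, hQW0, hQWG, hcW, hgR, hQR, hl, hlg, hxl, ?_, rfl⟩
    rw [hπt]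
    exact hFrz

end Pool.Agent.H9.Ram
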