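import Pool.Agent.H9.Ram.R3
import Pool.Agent.H9.Ram.A1

/-!
# Module R4: the correspondence is injective

Let `Rel o₁ o'`, `Rel o₂ o'` with data `(Q0ᵢ, gWᵢ, QWᵢ, gRᵢ, QRᵢ, lᵢ)`, `o₁, o₂ ∈ DStar`, and `j : K → R` with `ι ∘ j = ιW ∘ cst`
(`VR.exists_hom`). From `x lᵢ^(q²-1) = 1`: `ν̄ = l₂ / l₁` satisfies `ν̄^(q²-1) = 1`; the polynomial `X^(q²-1) - 1` splits over `K`,
so `ν̄ = π (j ν)` with `ν ∈ K`, `ν^(q²-1) = 1`. Conjugate the second set of data by `ν` (by `cst ν` over `K⟦s⟧`, by `j ν` over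
`R`): `g₂' = g₂ ν^(1-q)`, `Q₂' = ν Q₂ ν⁻¹`, `Pm t g₂' = ν (Pm t g₂) ν⁻¹` (`ν^(1-q²) = 1`). The reductions at `R` agree:
`π g₂' = l₂^(q-1) (l₂/l₁)^(1-q) = l₁^(q-1) = π g₁`; `Fr̄ᵢ = lᵢ⁻¹ ζ τ^k lᵢ = ζ lᵢ^(q^k-1) τ^k` and `ν̄ Fr̄₂ ν̄⁻¹ = Fr̄₁`, so
`P̄^m Q̄₂' = P̄^m Q̄₁` and `Q̄₂' = Q̄₁`. The constant coefficients of `Q₁`, `Q₂'` are `γR` (the lift of `γW`). The
nondegeneracy hypothesis of `VR.lift_unique`: `P̄ = c + ḡ τ + τ²`, `ḡ = l₁^(q-1) ≠ 0`; choose `w ≠ 0` with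
`w^(q²-q) = - ḡ`, so `P̄ w = c w`; if `Q̄ w = ρ w` then `Fr̄ w = α(c) w + c^m ρ w = 0`, but `Fr̄ w = ζ l₁^(q^k-1) w^(q^k) ≠ 0`.
So `gR₁ = gR₂'`, `QR₁ = QR₂'`, hence `gW₁ = gW₂ ν^(1-q)`, `QW₁ = ν QW₂ ν⁻¹` (injectivity of `ιW`). Apply `cc`:
`Q0₁ = ν Q0₂ ν⁻¹`, `γ₁ = ν γ₂ ν⁻¹` (`ν` commutes with `T²`). From `l₁ spec₁ L₁ = l₂ spec₂ L₂`: `spec₁ L₁ = ν̄ spec₂ L₂ =
spec₁ (ν L₂)` (`spec_scale`), so `L₁ = ν L₂` (`SpecOK.injective`; `spec_isCyc` gives `SpecOK`, `L ≤ ker` from `IsCyc.le_ker`).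
`C_* ≤ L₁`, `ν C_* ≤ ν L₂ = L₁`, both lie in `ker ν_{T²}`... i.e. in `L₁ ⊓ ker (T² - d)`, of dimension one
(`IsCyc.finrank_inf_ker`), so `ν C_* = C_*`: for `0 ≠ y ∈ C_*`, `(ν y)^q = a ν y` and `y^q = a y` give `ν^(q-1) = 1`, `ν ∈ F^*`.
Then `γ₁ = γ₂` and `L₁ = L₂`.
-/

open Polynomial

noncomputable section

namespace Pool.Agent.H9.Ram

variable {F K R Ω κ : Type*} [Field F] [Fintype F] [Field K] [Algebra F K] [CommRing R]
  [IsDomain R] [Field Ω] [Field κ] [Algebra F R] [Algebra F Ω] [Algebra F κ]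

section helpers

theorem r4_root {K κ : Type*} [Field K] [Field κ] [IsAlgClosed K] (φ : K →+* κ) {N : ℕ}
    (hN : 0 < N) {z : κ} (hz : z ^ N = 1) : ∃ v : K, v ^ N = 1 ∧ φ v = z := by
  have hs : (X ^ N - 1 : K[X]).Splits := IsAlgClosed.splits _
  have hne : (X ^ N - 1 : K[X]) ≠ 0 := by
    have := Polynomial.X_pow_sub_C_ne_zero hN (1 : K)
    rwa [Polynomial.C_1] at this
  have hroot : ((X ^ N - 1 : K[X]).map φ).IsRoot z := by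
    simp [Polynomial.IsRoot, hz]
  obtain ⟨v, hv⟩ := hs.mem_range_of_isRoot hne hroot
  refine ⟨v, ?_, hv⟩
  apply φ.injective
  rw [map_pow, hv, hz, map_one]

theorem r4_conj_pow {A : Type*} [Ring A] (u v P : A) (hvu : v * u = 1) (huv : u * v = 1) (m : ℕ) :
    u * P ^ m * v = (u * P * v) ^ m := by
  induction m with
  | zero => rw [pow_zero, pow_zero, mul_one, huv]
  | succ m ih =>
    rw [pow_succ (u * P * v), ← ih]
    calc u * P ^ (m + 1) * v = u * P ^ m * (1 * (P * v)) := by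
          rw [one_mul, pow_succ]; simp only [mul_assoc]
      _ = u * P ^ m * v * (u * P * v) := by rw [← hvu]; simp only [mul_assoc]

theorem r4_conj_mul {A : Type*} [Ring A] (u v P Q : A) (hvu : v * u = 1) :
    u * (P * Q) * v = (u * P * v) * (u * Q * v) := by
  calc u * (P * Q) * v = u * P * (1 * (Q * v)) := by rw [one_mul]; simp only [mul_assoc]
    _ = _ := by rw [← hvu]; simp only [mul_assoc]

variable {F : Type*} [Field F] [Fintype F]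

theorem r4_C_mul_C {S : Type*} [CommRing S] [Algebra F S] {v v' : S} (hv : v * v' = 1) :
    (Tw.C v : Tw F S) * Tw.C v' = 1 := by
  rw [← map_mul, hv, map_one]

theorem r4_conj_Pm {S : Type*} [CommRing S] [Algebra F S] (t g v v' : S) (hv : v * v' = 1)
    (hv' : v' ^ (Fintype.card F ^ 2 - 1) = 1) :
    (Tw.C v * Pm t g * Tw.C v' : Tw F S) = Pm t (g * v' ^ (Fintype.card F - 1)) := by
  have hq : 0 < Fintype.card F := Fintype.card_pos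
  have hq2 : 0 < Fintype.card F ^ 2 := pow_pos hq 2
  have e1 : v * v' ^ Fintype.card F = v' ^ (Fintype.card F - 1) := by
    conv_lhs => rw [show Fintype.card F = (Fintype.card F - 1) + 1 by omega]
    rw [pow_succ']
    calc v * (v' * v' ^ (Fintype.card F - 1)) = (v * v') * v' ^ (Fintype.card F - 1) := by ring
      _ = _ := by rw [hv, one_mul]
  have e2 : v * v' ^ (Fintype.card F ^ 2) = 1 := by
    conv_lhs => rw [show Fintype.card F ^ 2 = (Fintype.card F ^ 2 - 1) + 1 by omega]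
    rw [pow_succ', hv', mul_one, hv]
  have h1 : (Tw.T : Tw F S) * Tw.C v' = Tw.C (v' ^ Fintype.card F) * Tw.T := by
    rw [Tw.T_mul_C, fr_apply, pow_one]
  have h2 : (Tw.T ^ 2 : Tw F S) * Tw.C v' = Tw.C (v' ^ (Fintype.card F ^ 2)) * Tw.T ^ 2 := by
    rw [Tw.T_pow_mul_C, fr_apply]
  unfold Pm
  have h3 : (Tw.C v * (Tw.C t + Tw.C g * Tw.T + Tw.T ^ 2) * Tw.C v' : Tw F S) =
      Tw.C v * Tw.C t * Tw.C v' + Tw.C v * Tw.C g * (Tw.T * Tw.C v') +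
        Tw.C v * (Tw.T ^ 2 * Tw.C v') := by
    simp only [mul_add, add_mul, mul_assoc]
  rw [h3, h1, h2, ← mul_assoc, ← mul_assoc (Tw.C v), ← map_mul, ← map_mul, ← map_mul, ← map_mul,
    ← map_mul, e2, map_one, one_mul]
  congr 3
  · calc v * t * v' = (v * v') * t := by ring
      _ = t := by rw [hv, one_mul]
  · congr 1
    calc v * g * v' ^ Fintype.card F = g * (v * v' ^ Fintype.card F) := by ring
      _ = _ := by rw [e1]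

theorem r4_ev_Pm {S : Type*} [CommRing S] [Algebra F S] (t g w : S) :
    Tw.ev (Pm t g : Tw F S) w = t * w + g * w ^ Fintype.card F + w ^ (Fintype.card F ^ 2) := by
  unfold Pm
  rw [map_add, map_add, LinearMap.add_apply, LinearMap.add_apply, Tw.ev_C, Tw.ev_mul, Tw.ev_C,
    Tw.ev_T, Tw.ev_T_pow]

/-- eigenvectors -/
theorem r4_aeval_apply {S : Type*} [CommRing S] [Algebra F S] (P : Tw F S) (c : F) (w : S)
    (hw : Tw.ev P w = c • w) (f : F[X]) : Tw.ev (aeval P f) w = f.eval c • w := by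
  rw [← Polynomial.aeval_algHom_apply]
  by_cases hw0 : w = 0
  · rw [hw0, map_zero, smul_zero]
  · exact Module.End.aeval_apply_of_hasEigenvector
      (Module.End.hasEigenvector_iff.2 ⟨Module.End.mem_eigenspace_iff.2 hw, hw0⟩)

theorem r4_pow_apply {S : Type*} [CommRing S] [Algebra F S] (P : Tw F S) (c : F) (w : S)
    (hw : Tw.ev P w = c • w) (m : ℕ) : Tw.ev (P ^ m) w = c ^ m • w := by
  have := r4_aeval_apply P c w hw (X ^ m)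
  rwa [map_pow, Polynomial.aeval_X, Polynomial.eval_pow, Polynomial.eval_X] at this

end helpers

section helpers2

variable {F : Type*} [Field F] [Fintype F]

theorem r4_Pm_zero {S : Type*} [CommRing S] [Algebra F S] : (Pm (0 : S) 0 : Tw F S) = Tw.T ^ 2 := by
  unfold Pm
  rw [map_zero, zero_mul, add_zero, zero_add]

theorem r4_Pm_ne_zero {S : Type*} [CommRing S] [Nontrivial S] [Algebra F S] (t g : S) :
    (Pm t g : Tw F S) ≠ 0 := by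
  intro h
  have h1 := natDegree_Pm (F := F) t g
  rw [h] at h1
  have h2 : (0 : Tw F S).natDegree ≤ 0 := by
    rw [Tw.natDegree_le_iff]
    intro n _
    exact Tw.coeff_zero' n
  omega

theorem r4_comm_R {K R Ω : Type*} [Field K] [Algebra F K] [CommRing R] [Field Ω] [Algebra F R]
    [Algebra F Ω] (ιW : PowerSeries K →ₐ[F] Ω) (ι : R →ₐ[F] Ω) (hι' : Function.Injective ι)
    (tW gW : PowerSeries K) (tR gR : R) (QW : Tw F (PowerSeries K)) (QR : Tw F R)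
    (ht : ι tR = ιW tW) (hg : ι gR = ιW gW) (hQ : Tw.map ι QR = Tw.map ιW QW)
    (hc : Pm tW gW * QW = QW * Pm tW gW) : Pm tR gR * QR = QR * Pm tR gR := by
  apply Tw.map_injective ι hι'
  rw [map_mul, map_mul, map_Pm, hQ, ht, hg, ← map_Pm, ← map_mul, ← map_mul, hc]

theorem r4_conj_comm {A : Type*} [Ring A] (u v P Q : A) (hvu : v * u = 1) (h : P * Q = Q * P) :
    (u * P * v) * (u * Q * v) = (u * Q * v) * (u * P * v) := by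
  rw [← r4_conj_mul u v P Q hvu, ← r4_conj_mul u v Q P hvu, h]

/-- the witness equation is compatible with conjugation -/
theorem r4_conj_wit {κ : Type*} [Field κ] [Algebra F κ] (l : κ) (hl : l ≠ 0) (P Q : Tw F κ)
    (f : F[X]) (m : ℕ) :
    Tw.C l * (aeval P f + P ^ m * Q) * Tw.C l⁻¹ =
      aeval (Tw.C l * P * Tw.C l⁻¹) f + (Tw.C l * P * Tw.C l⁻¹) ^ m * (Tw.C l * Q * Tw.C l⁻¹) := by
  have h1 : (Tw.C l⁻¹ : Tw F κ) * Tw.C l = 1 := r4_C_mul_C (inv_mul_cancel₀ hl)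
  have h2 : (Tw.C l : Tw F κ) * Tw.C l⁻¹ = 1 := r4_C_mul_C (mul_inv_cancel₀ hl)
  rw [mul_add, add_mul, conj_aeval l hl, r4_conj_mul _ _ _ _ h1, r4_conj_pow _ _ _ h1 h2]

theorem r4_frob_apply {κ : Type*} [Field κ] [Algebra F κ] (l w : κ) (z : F) (k : ℕ) :
    Tw.ev (Tw.C l⁻¹ * (algebraMap F (Tw F κ) z * Tw.T ^ k) * Tw.C l) w =
      l⁻¹ * (algebraMap F κ z * (l * w) ^ (Fintype.card F ^ k)) := by
  rw [Tw.ev_mul, Tw.ev_mul, Tw.ev_mul, Tw.ev_C, Tw.ev_C, Tw.ev_T_pow, Tw.algebraMap_apply, Tw.ev_C]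

theorem r4_exists_w {κ : Type*} [Field κ] [IsAlgClosed κ] (g : κ) (hg : g ≠ 0) :
    ∃ w : κ, w ≠ 0 ∧ g * w ^ Fintype.card F + w ^ (Fintype.card F ^ 2) = 0 := by
  have hq1 : 1 < Fintype.card F := Fintype.one_lt_card
  have hlt : Fintype.card F < Fintype.card F ^ 2 := by
    rw [pow_two]
    exact lt_mul_self hq1
  obtain ⟨w, hw⟩ := IsAlgClosed.exists_pow_nat_eq (-g)
    (n := Fintype.card F ^ 2 - Fintype.card F) (by omega)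
  refine ⟨w, ?_, ?_⟩
  · rintro rfl
    rw [zero_pow (by omega)] at hw
    exact hg (neg_eq_zero.1 hw.symm)
  · have h1 : w ^ (Fintype.card F ^ 2) =
        w ^ (Fintype.card F ^ 2 - Fintype.card F) * w ^ Fintype.card F := by
      rw [← pow_add]; congr 1; omega
    rw [h1, hw]
    ring

/-- `ν y` for a generator `y` of the base line gives `ν ∈ F`. -/
theorem r4_scalar {K : Type*} [Field K] [Algebra F K] [IsAlgClosed K] (p : Par F K) (n : ℕ)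
    (L : Submodule F K) (hL : IsCyc (nu (Tw.T ^ 2 : Tw F K) p.d) n L) (v : K)
    (hv : v ^ (Fintype.card F ^ 2) = v) (h1 : p.Cstar ≤ L)
    (h2 : ∀ y ∈ p.Cstar, v * y ∈ L) : ∃ r : F, algebraMap F K r = v := by
  have hne : p.Cstar ≠ ⊥ := by
    intro h
    have := p.finrank_Cstar
    rw [h, finrank_bot] at this
    omega
  obtain ⟨y, hy, hy0⟩ := Submodule.exists_mem_ne_zero_of_ne_bot hne
  have hyq : y ^ (Fintype.card F ^ 2) = algebraMap F K p.d * y := by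
    have h3 := (p.mem_Cstar y).1 hy
    rw [pow_two, pow_mul, h3, mul_pow, h3, ← p.ha, pow_succ]
    ring
  have hnu : ∀ z : K, nu (Tw.T ^ 2 : Tw F K) p.d z =
      z ^ (Fintype.card F ^ 2) - algebraMap F K p.d * z := by
    intro z
    unfold nu
    rw [map_sub, LinearMap.sub_apply, Tw.ev_T_pow, Tw.algebraMap_apply, Tw.ev_C]
  have hy1 : y ∈ L ⊓ LinearMap.ker (nu (Tw.T ^ 2 : Tw F K) p.d) := by
    refine ⟨h1 hy, LinearMap.mem_ker.2 ?_⟩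
    rw [hnu, hyq, sub_self]
  have hy2 : v * y ∈ L ⊓ LinearMap.ker (nu (Tw.T ^ 2 : Tw F K) p.d) := by
    refine ⟨h2 y hy, LinearMap.mem_ker.2 ?_⟩
    rw [hnu, mul_pow, hv, hyq]
    ring
  have hfin := hL.finrank_inf_ker
  obtain ⟨r, hr⟩ := (finrank_eq_one_iff_of_nonzero' (⟨y, hy1⟩ :
    (L ⊓ LinearMap.ker (nu (Tw.T ^ 2 : Tw F K) p.d) : Submodule F K))
    (by intro h; exact hy0 (congrArg Subtype.val h))).1 hfin ⟨v * y, hy2⟩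
  refine ⟨r, ?_⟩
  have h3 : r • y = v * y := congrArg Subtype.val hr
  rw [Algebra.smul_def] at h3
  exact mul_right_cancel₀ hy0 h3

end helpers2

theorem rel_injective [IsAlgClosed K] [IsAlgClosed Ω] [IsAlgClosed κ] {ιW : PowerSeries K →ₐ[F] Ω}
    (hι : Function.Injective ιW) {ι : R →ₐ[F] Ω} {π : R →ₐ[F] κ} (hVR : VR ι π) (p : Par F K)
    (j : K →ₐ[F] R) (hj : ∀ y, ι (j y) = ιW (cst F y))
    (n k : ℕ) (t : Typ F) (ρ : F)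
    (hρ : t.al.eval p.c + p.c ^ t.m * ρ = 0) (tW γW : PowerSeries K) (htW : cc F tW = 0)
    (tR γR : R) (htR : ι tR = ιW tW) (hγR : ι γR = ιW γW) (hπt : π tR = algebraMap F κ p.c)
    (hπγ : π γR = algebraMap F κ ρ) (o₁ o₂ : Tw F K × Submodule F K) (h₁ : o₁ ∈ DStar p n k)
    (h₂ : o₂ ∈ DStar p n k) (o' : κ × F × Submodule F κ) (hz : o'.2.1 ≠ 0)
    (hr₁ : Rel ιW ι π tW γW tR p.d n k t o₁ o') (hr₂ : Rel ιW ι π tW γW tR p.d n k t o₂ o') :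
    o₁ = o₂ := by
  obtain ⟨Q0₁, gW₁, QW₁, gR₁, QR₁, l₁, hw₁, hgW₁, hQW0₁, hQ0₁, hcW₁, hιg₁, hιQ₁, hl₁, hlg₁, hx₁,
    hF₁, hL₁⟩ := hr₁
  obtain ⟨Q0₂, gW₂, QW₂, gR₂, QR₂, l₂, hw₂, hgW₂, hQW0₂, hQ0₂, hcW₂, hιg₂, hιQ₂, hl₂, hlg₂, hx₂,
    hF₂, hL₂⟩ := hr₂
  have hq1 : 1 < Fintype.card F := Fintype.one_lt_card
  have hqq : 1 < Fintype.card F ^ 2 := one_lt_pow₀ hq1 (by norm_num)
  have hq2 : 0 < Fintype.card F ^ 2 - 1 := by omega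
  have hνκ : (l₂ / l₁) ^ (Fintype.card F ^ 2 - 1) = 1 := by
    rw [div_pow]
    have hx0 : o'.1 ≠ 0 := left_ne_zero_of_mul (by rw [hx₁]; exact one_ne_zero)
    have h3 : l₂ ^ (Fintype.card F ^ 2 - 1) = l₁ ^ (Fintype.card F ^ 2 - 1) :=
      mul_left_cancel₀ hx0 (by rw [hx₁, hx₂])
    rw [h3, div_self (pow_ne_zero _ hl₁)]
  obtain ⟨ν, hν1, hνπ⟩ := r4_root ((π.comp j : K →ₐ[F] κ) : K →+* κ) hq2 hνκ
  have hνπ' : π (j ν) = l₂ / l₁ := hνπ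
  have hν0 : ν ≠ 0 := by
    rintro rfl
    rw [zero_pow hq2.ne'] at hν1
    exact zero_ne_one hν1
  have hνinv : ν⁻¹ ^ (Fintype.card F ^ 2 - 1) = 1 := by rw [inv_pow, hν1, inv_one]
  have hπinv : π (j ν⁻¹) = (l₂ / l₁)⁻¹ := by
    have h3 : ((π.comp j : K →ₐ[F] κ) : K →+* κ) ν⁻¹ =
      (((π.comp j : K →ₐ[F] κ) : K →+* κ) ν)⁻¹ := map_inv₀ _ _
    rw [hνπ] at h3
    exact h3
  have hlne : l₂ / l₁ ≠ 0 := div_ne_zero hl₂ hl₁
  have hnR : j ν * j ν⁻¹ = 1 := by rw [← map_mul, mul_inv_cancel₀ hν0, map_one]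
  have hnR2 : j ν⁻¹ * j ν = 1 := by rw [mul_comm, hnR]
  have hnR' : (j ν⁻¹) ^ (Fintype.card F ^ 2 - 1) = 1 := by rw [← map_pow, hνinv, map_one]
  have hnW : cst F ν * cst F ν⁻¹ = 1 := by rw [← map_mul, mul_inv_cancel₀ hν0, map_one]
  have hnW2 : cst F ν⁻¹ * cst F ν = 1 := by rw [mul_comm, hnW]
  have hnW' : (cst F ν⁻¹) ^ (Fintype.card F ^ 2 - 1) = 1 := by rw [← map_pow, hνinv, map_one]
  -- the conjugated second set of data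
  have hPR : Tw.C (j ν) * Pm tR gR₂ * Tw.C (j ν⁻¹) =
      Pm tR (gR₂ * (j ν⁻¹) ^ (Fintype.card F - 1)) := r4_conj_Pm _ _ _ _ hnR hnR'
  have hcR₁ : Pm tR gR₁ * QR₁ = QR₁ * Pm tR gR₁ :=
    r4_comm_R ιW ι hVR.inj tW gW₁ tR gR₁ QW₁ QR₁ htR hιg₁ hιQ₁ hcW₁
  have hcR₂ : Pm tR gR₂ * QR₂ = QR₂ * Pm tR gR₂ :=
    r4_comm_R ιW ι hVR.inj tW gW₂ tR gR₂ QW₂ QR₂ htR hιg₂ hιQ₂ hcW₂
  have hcR₂' : Pm tR (gR₂ * (j ν⁻¹) ^ (Fintype.card F - 1)) *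
      (Tw.C (j ν) * QR₂ * Tw.C (j ν⁻¹)) = (Tw.C (j ν) * QR₂ * Tw.C (j ν⁻¹)) *
      Pm tR (gR₂ * (j ν⁻¹) ^ (Fintype.card F - 1)) := by
    rw [← hPR]
    exact r4_conj_comm _ _ _ _ (r4_C_mul_C hnR2) hcR₂
  have hR0₁ : QR₁.coeff 0 = γR := hVR.inj (by
    rw [← Tw.coeff_map, hιQ₁, Tw.coeff_map, hQW0₁, hγR])
  have hR0₂ : QR₂.coeff 0 = γR := hVR.inj (by
    rw [← Tw.coeff_map, hιQ₂, Tw.coeff_map, hQW0₂, hγR])
  have hR0₂' : (Tw.C (j ν) * QR₂ * Tw.C (j ν⁻¹)).coeff 0 = γR := by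
    rw [Tw.coeff_mul_C, Tw.coeff_C_mul, fr_zero, hR0₂]
    calc j ν * γR * j ν⁻¹ = (j ν * j ν⁻¹) * γR := by ring
      _ = γR := by rw [hnR, one_mul]
  have hg : π gR₁ = π (gR₂ * (j ν⁻¹) ^ (Fintype.card F - 1)) := by
    rw [map_mul, map_pow, hπinv, ← hlg₂, ← hlg₁, ← mul_pow]
    congr 1
    field_simp
  have hPκ : Tw.C (l₂ / l₁) * Pm (π tR) (π gR₂) * Tw.C (l₂ / l₁)⁻¹ =
      (Pm (π tR) (π gR₁) : Tw F κ) := by
    have h3 := congrArg (Tw.map π) hPR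
    rw [map_mul, map_mul, map_Pm, map_Pm, Tw.map_C, Tw.map_C, hνπ', hπinv, ← hg] at h3
    exact h3
  have hQκ : Tw.map π (Tw.C (j ν) * QR₂ * Tw.C (j ν⁻¹)) =
      Tw.C (l₂ / l₁) * Tw.map π QR₂ * Tw.C (l₂ / l₁)⁻¹ := by
    rw [map_mul, map_mul, Tw.map_C, Tw.map_C, hνπ', hπinv]
  have hFr₁ : aeval (Pm (π tR) (π gR₁) : Tw F κ) t.al +
      (Pm (π tR) (π gR₁) : Tw F κ) ^ t.m * Tw.map π QR₁ =
      Tw.C l₁⁻¹ * (algebraMap F (Tw F κ) o'.2.1 * Tw.T ^ k) * Tw.C l₁ := by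
    rw [← hF₁]
    have h1 : (Tw.C l₁⁻¹ : Tw F κ) * Tw.C l₁ = 1 := r4_C_mul_C (inv_mul_cancel₀ hl₁)
    generalize aeval (Pm (π tR) (π gR₁) : Tw F κ) t.al +
      (Pm (π tR) (π gR₁) : Tw F κ) ^ t.m * Tw.map π QR₁ = A
    calc A = 1 * A * 1 := by rw [one_mul, mul_one]
      _ = Tw.C l₁⁻¹ * (Tw.C l₁ * A * Tw.C l₁⁻¹) * Tw.C l₁ := by
        rw [← h1]; simp only [mul_assoc]
  have hFr₂ : aeval (Pm (π tR) (π gR₁) : Tw F κ) t.al +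
      (Pm (π tR) (π gR₁) : Tw F κ) ^ t.m * Tw.map π (Tw.C (j ν) * QR₂ * Tw.C (j ν⁻¹)) =
      Tw.C l₁⁻¹ * (algebraMap F (Tw F κ) o'.2.1 * Tw.T ^ k) * Tw.C l₁ := by
    rw [hQκ, ← hPκ, ← r4_conj_wit _ hlne, ← hF₂]
    generalize aeval (Pm (π tR) (π gR₂) : Tw F κ) t.al +
      (Pm (π tR) (π gR₂) : Tw F κ) ^ t.m * Tw.map π QR₂ = A
    have h3 : (Tw.C (l₂ / l₁) : Tw F κ) = Tw.C l₁⁻¹ * Tw.C l₂ := by
      rw [← map_mul]; congr 1; field_simp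
    have h4 : (Tw.C (l₂ / l₁)⁻¹ : Tw F κ) = Tw.C l₂⁻¹ * Tw.C l₁ := by
      rw [← map_mul]; congr 1; field_simp
    rw [h3, h4]
    simp only [mul_assoc]
  have hQ : Tw.map π QR₁ = Tw.map π (Tw.C (j ν) * QR₂ * Tw.C (j ν⁻¹)) := by
    have h3 := add_left_cancel (hFr₁.trans hFr₂.symm)
    have h4 : (Pm (π tR) (π gR₁) : Tw F κ) ^ t.m *
        (Tw.map π QR₁ - Tw.map π (Tw.C (j ν) * QR₂ * Tw.C (j ν⁻¹))) = 0 := by
      rw [mul_sub, h3, sub_self]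
    rcases mul_eq_zero.1 h4 with h5 | h5
    · exact absurd h5 (pow_ne_zero _ (r4_Pm_ne_zero _ _))
    · exact sub_eq_zero.1 h5
  have hg0 : π gR₁ ≠ 0 := by
    rw [← hlg₁]
    exact pow_ne_zero _ hl₁
  have hnd : ∃ w : κ, w ≠ 0 ∧ Tw.ev (Pm (π tR) (π gR₁) : Tw F κ) w = algebraMap F κ p.c * w ∧
      Tw.ev (Tw.map π QR₁) w ≠ algebraMap F κ ρ * w := by
    obtain ⟨w, hw0, hw⟩ := r4_exists_w (F := F) (π gR₁) hg0
    have hPw : Tw.ev (Pm (π tR) (π gR₁) : Tw F κ) w = algebraMap F κ p.c * w := by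
      rw [r4_ev_Pm, hπt, add_assoc, hw, add_zero]
    refine ⟨w, hw0, hPw, ?_⟩
    intro hQw
    have hPw' : Tw.ev (Pm (π tR) (π gR₁) : Tw F κ) w = p.c • w := by
      rw [hPw, Algebra.smul_def]
    have hQw' : Tw.ev (Tw.map π QR₁) w = ρ • w := by
      rw [hQw, Algebra.smul_def]
    have h3 : Tw.ev (aeval (Pm (π tR) (π gR₁) : Tw F κ) t.al +
      (Pm (π tR) (π gR₁) : Tw F κ) ^ t.m * Tw.map π QR₁) w = 0 := by
      rw [map_add, LinearMap.add_apply, Tw.ev_mul, hQw', map_smul, r4_pow_apply _ _ _ hPw',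
        r4_aeval_apply _ _ _ hPw', smul_smul, ← add_smul, mul_comm ρ, hρ, zero_smul]
    rw [hFr₁, r4_frob_apply] at h3
    have h4 : l₁⁻¹ * (algebraMap F κ o'.2.1 * (l₁ * w) ^ (Fintype.card F ^ k)) ≠ 0 :=
      mul_ne_zero (inv_ne_zero hl₁) (mul_ne_zero ((map_ne_zero (algebraMap F κ)).2 hz)
        (pow_ne_zero _ (mul_ne_zero hl₁ hw0)))
    exact h4 h3
  obtain ⟨hgeq, hQeq⟩ := hVR.lift_unique tR γR p.c ρ hπt hπγ gR₁ _ QR₁ _ hcR₁ hcR₂' hR0₁ hR0₂'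
    hg hQ hnd
  have hgW : gW₁ = gW₂ * (cst F ν⁻¹) ^ (Fintype.card F - 1) := hι (by
    rw [← hιg₁, hgeq, map_mul, map_mul, map_pow, map_pow, hιg₂, hj])
  have hQW : QW₁ = Tw.C (cst F ν) * QW₂ * Tw.C (cst F ν⁻¹) := Tw.map_injective ιW hι (by
    rw [← hιQ₁, hQeq, map_mul, map_mul, map_mul, map_mul, hιQ₂, Tw.map_C, Tw.map_C, Tw.map_C,
      Tw.map_C, hj, hj])
  have hPW : (Tw.C (cst F ν) * Pm tW gW₂ * Tw.C (cst F ν⁻¹) : Tw F (PowerSeries K)) =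
      Pm tW gW₁ := by
    rw [r4_conj_Pm _ _ _ _ hnW hnW', ← hgW]
  have hQ0 : Q0₁ = Tw.C ν * Q0₂ * Tw.C ν⁻¹ := by
    rw [← hQ0₁, hQW, map_mul, map_mul, Tw.map_C, Tw.map_C, hQ0₂, cc_cst, cc_cst]
  have hT2 : (Tw.C ν * Tw.T ^ 2 * Tw.C ν⁻¹ : Tw F K) = Tw.T ^ 2 := by
    have h3 := r4_conj_Pm (F := F) (0 : K) 0 ν ν⁻¹ (mul_inv_cancel₀ hν0) hνinv
    rw [zero_mul, r4_Pm_zero] at h3
    exact h3
  have hγ : o₁.1 = Tw.C ν * o₂.1 * Tw.C ν⁻¹ := by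
    rw [hw₁.2.2.1, hw₂.2.2.1, r4_conj_wit _ hν0, hT2, ← hQ0]
  -- the submodules
  have hC₁ := h₁.2.2.2.1
  have hC₂ := h₂.2.2.2.1
  have hνq : ν ^ (Fintype.card F ^ 2) = ν := by
    conv_lhs => rw [show Fintype.card F ^ 2 = (Fintype.card F ^ 2 - 1) + 1 by omega]
    rw [pow_succ, hν1, one_mul]
  have hcomm : ∀ y : K, Tw.ev (Tw.C ν : Tw F K) (nu (Tw.T ^ 2 : Tw F K) p.d y) =
      nu (Tw.T ^ 2 : Tw F K) p.d (Tw.ev (Tw.C ν : Tw F K) y) := by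
    intro y
    unfold nu
    rw [map_sub, LinearMap.sub_apply, LinearMap.sub_apply, Tw.ev_T_pow, Tw.ev_T_pow,
      Tw.algebraMap_apply, Tw.ev_C, Tw.ev_C, Tw.ev_C, Tw.ev_C, mul_pow, hνq]
    ring
  have hC₂' : IsCyc (nu (Tw.T ^ 2 : Tw F K) p.d) n (o₂.2.map (Tw.ev (Tw.C ν : Tw F K))) := by
    apply hC₂.map (Tw.ev (Tw.C ν : Tw F K)) (fun y _ => hcomm y)
    intro y _ hy
    rw [Tw.ev_C] at hy
    exact (mul_eq_zero.1 hy).resolve_left hν0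
  have hker : LinearMap.ker (Tw.ev (Tw.map (cc F) ((Pm tW gW₁ - algebraMap F _ p.d) ^ (n + 1)))) =
      LinearMap.ker ((nu (Tw.T ^ 2 : Tw F K) p.d) ^ (n + 1)) := by
    rw [map_pow, map_pow, map_sub, map_Pm, AlgHom.commutes, htW, hgW₁, r4_Pm_zero]
    rfl
  have hspecA : (Tw.C (cst F ν) * (Pm tW gW₂ - algebraMap F _ p.d) ^ (n + 1) * Tw.C (cst F ν⁻¹) :
      Tw F (PowerSeries K)) = (Pm tW gW₁ - algebraMap F _ p.d) ^ (n + 1) := by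
    rw [r4_conj_pow _ _ _ (r4_C_mul_C hnW2) (r4_C_mul_C hnW), mul_sub, sub_mul, hPW,
      ← Algebra.commutes, mul_assoc, r4_C_mul_C hnW, mul_one]
  obtain ⟨hS, -⟩ := spec_isCyc hι hVR p.c p.d p.hd p.hcd n tW gW₁ tR gR₁ htR.symm hιg₁.symm htW hπt
    o₁.2 (by rw [htW, hgW₁, r4_Pm_zero]; exact hC₁)
  have hsc := spec_scale (π := π) hι hVR.inj ν (j ν) (j ν⁻¹) hν0 (hj ν) (hj ν⁻¹)
    ((Pm tW gW₂ - algebraMap F _ p.d) ^ (n + 1)) o₂.2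
  rw [hspecA, hνπ'] at hsc
  have hinj : Function.Injective (Tw.ev (Tw.C l₁ : Tw F κ)) := by
    intro a b hab
    rw [Tw.ev_C, Tw.ev_C] at hab
    exact mul_left_cancel₀ hl₁ hab
  have hspec : spec ιW ι π ((Pm tW gW₁ - algebraMap F _ p.d) ^ (n + 1)) o₁.2 =
      spec ιW ι π ((Pm tW gW₁ - algebraMap F _ p.d) ^ (n + 1))
        (o₂.2.map (Tw.ev (Tw.C ν : Tw F K))) := by
    apply Submodule.map_injective_of_injective hinj
    rw [← hL₁, hL₂, hsc, ← Submodule.map_comp]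
    congr 1
    ext y
    rw [LinearMap.comp_apply, Tw.ev_C, Tw.ev_C, Tw.ev_C]
    field_simp
  have hLeq : o₁.2 = o₂.2.map (Tw.ev (Tw.C ν : Tw F K)) :=
    hS.injective hι hVR _ _ (by rw [hker]; exact hC₁.le_ker) (by rw [hker]; exact hC₂'.le_ker) hspec
  obtain ⟨r, hr⟩ := r4_scalar p n o₁.2 hC₁ ν hνq h₁.2.2.2.2.1 (by
    intro y hy
    rw [hLeq]
    exact ⟨y, h₂.2.2.2.2.1 hy, Tw.ev_C _ _⟩)
  have hr0 : r ≠ 0 := by
    rintro rfl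
    rw [map_zero] at hr
    exact hν0 hr.symm
  apply Prod.ext
  · rw [hγ, ← hr, ← Tw.algebraMap_apply, Algebra.commutes, mul_assoc, Tw.algebraMap_apply,
      r4_C_mul_C (mul_inv_cancel₀ ((map_ne_zero (algebraMap F K)).2 hr0)), mul_one]
  · rw [hLeq]
    ext y
    constructor
    · rintro ⟨z, hz', rfl⟩
      rw [Tw.ev_C, ← hr, ← Algebra.smul_def]
      exact o₂.2.smul_mem r hz'
    · intro hy
      refine ⟨r⁻¹ • y, o₂.2.smul_mem _ hy, ?_⟩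
      rw [Tw.ev_C, ← hr, ← Algebra.smul_def, smul_smul, mul_inv_cancel₀ hr0, one_smul]

end Pool.Agent.H9.Ram
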