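import Pool.Agent.H9.Ram.R4
import Pool.Agent.H9.Ram.R2
import Pool.Agent.H9.Ram.A5

/-!
# Module R5: comparison of the two sides, and the final inequality of the geometric part

(a) `ncard_fibre_le`: if the set is empty, trivial. Otherwise `θ ∈ ThSet K t` (`wit_coeff_zero_mem`), `case_of_smooth`, `exists_point`
(L5) gives `(tW, γW)`. Let `Ω = AlgebraicClosure (FractionRing (PowerSeries K))` with `ιW` the natural injection (give
`Ω` the `F`-algebra structure through `PowerSeries K`). `ρ = - α(c) / c^m` (`c ≠ 0`); `ρ² - a(c) ρ + b(c) = 0` from `t.Ok`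
(evaluate at `c`, `k > 0`). No `h` with `h² - a h + b = 0` (as in R3, from the witness of an element). `exists_VR` (G1) gives
`R, κ, ι, π, tR, γR`. `ιW tW` is transcendental over `F`. `VR.exists_hom` applied to `ιW ∘ cst` gives `j`. By `exists_rel` and
`rel_injective` there is an injection of the fibre into `DrT κ`, and `ncard_DrT_le` for `π ∘ j : K → κ`. `DrT κ` is finite
(`finite_DrObj`).
(b) `ncard_DStar_le`: for each type `t`: `#{o ∈ DStar | HasTyp o t} ≤ ∑_θ (fibre) ≤ #ThSet · #DrT ≤ (2 - rts t) #DrT`.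
(c) final: `DStar` is finite; each of its elements has a type (`exists_typ_DStar`), admissible and smooth; let `s` be the finite
set of types that occur. `#DStar ≤ ∑_{t∈s} (2 - rts t) #DrT t ≤ 2 #DrObj - #DrEdge` (`volcano`)
`= (q - 1)(2 #OO - #TT)` (`ncard_DrObj`, `ncard_DrEdge`), and `(q-1) Nk ≤ #DStar` (`Nk_le_DStar`). Divide by `q - 1 > 0`.
-/

open Polynomial

noncomputable section

namespace Pool.Agent.H9.Ram

variable {F K : Type*} [Field F] [Fintype F] [Field K] [Algebra F K] [IsAlgClosed K]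
  [Algebra.IsAlgebraic F K]

omit [IsAlgClosed K] [Algebra.IsAlgebraic F K] in
/-- the quadratic equation of a witness is irreducible -/
theorem r5_irr (Fr Q : Tw F K) (t : Typ F) (h : IsWit (Tw.T ^ 2 : Tw F K) Fr Q t) (f : F[X]) :
    f ^ 2 - t.a * f + t.b ≠ 0 := by
  intro hf
  obtain ⟨_, hcomm, _, hquad, hns⟩ := h
  have hb : t.b = f * (t.a - f) := by linear_combination hf
  have hcf : ∀ g : F[X], aeval (Tw.T ^ 2 : Tw F K) g * Q = Q * aeval (Tw.T ^ 2 : Tw F K) g := by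
    intro g
    have : Commute (aeval (Tw.T ^ 2 : Tw F K) g) Q := by
      induction g using Polynomial.induction_on' with
      | add p q hp hq => rw [map_add]; exact hp.add_left hq
      | monomial n a =>
        rw [Polynomial.aeval_monomial]
        exact Commute.mul_left (show Commute (algebraMap F (Tw F K) a) Q from Algebra.commutes a Q)
          ((show Commute (Tw.T ^ 2 : Tw F K) Q from hcomm).pow_left n)
    exact this
  have hprod : (Q - aeval (Tw.T ^ 2 : Tw F K) f) * (Q - aeval (Tw.T ^ 2 : Tw F K) (t.a - f)) = 0 := by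
    have e1 := hcf (t.a - f)
    rw [map_sub] at e1
    rw [← hquad, hb, map_mul, map_sub]
    generalize aeval (Tw.T ^ 2 : Tw F K) t.a = A at e1 ⊢
    generalize aeval (Tw.T ^ 2 : Tw F K) f = B at e1 ⊢
    have e2 : (Q - B) * (Q - (A - B)) = Q ^ 2 - Q * (A - B) - B * Q + B * (A - B) := by
      noncomm_ring
    rw [e2, ← e1]
    noncomm_ring
  have hfin : ∀ g : F[X], Q ≠ aeval (Tw.T ^ 2 : Tw F K) g := by
    intro g hg
    apply hns (g.coeff 0) (aeval (Tw.T ^ 2 : Tw F K) g.divX)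
    rw [hg]
    conv_lhs => rw [← Polynomial.divX_mul_X_add g]
    rw [map_add, map_mul, Polynomial.aeval_X, Polynomial.aeval_C, add_comm]
  rcases mul_eq_zero.1 hprod with h1 | h1
  · exact hfin _ (sub_eq_zero.1 h1)
  · exact hfin _ (sub_eq_zero.1 h1)

omit [IsAlgClosed K] [Algebra.IsAlgebraic F K] [Algebra F K] [Field K] in
theorem r5_rho (t : Typ F) (c : F) (hc : c ≠ 0) (k : ℕ) (hk : 0 < k) (hOk : t.Ok c k) :
    ∃ ρ : F, t.al.eval c + c ^ t.m * ρ = 0 ∧ ρ ^ 2 - t.a.eval c * ρ + t.b.eval c = 0 := by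
  obtain ⟨⟨e, _, he⟩, _⟩ := hOk
  have hcm : c ^ t.m ≠ 0 := pow_ne_zero _ hc
  refine ⟨-(t.al.eval c) / c ^ t.m, ?_, ?_⟩
  · field_simp
    ring
  · have h1 := congrArg (Polynomial.eval c) he
    simp only [Polynomial.eval_add, Polynomial.eval_mul, Polynomial.eval_pow, Polynomial.eval_X,
      Polynomial.eval_C, Polynomial.eval_sub, sub_self, zero_pow hk.ne', mul_zero] at h1
    have h2 : c ^ (2 * t.m) = (c ^ t.m) ^ 2 := by rw [mul_comm, pow_mul]
    rw [h2] at h1
    field_simp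
    linear_combination h1

theorem ncard_fibre_le (p : Par F K) (n k : ℕ) (hk : 0 < k) (t : Typ F) (hOk : t.Ok p.c k)
    (hs : t.Smooth) (θ : K) :
    {o ∈ DStar p n k | ∃ Q, IsWit (Tw.T ^ 2 : Tw F K) o.1 Q t ∧ Q.coeff 0 = θ}.ncard ≤
      (DrT K p.c p.d n k t).ncard := by
  classical
  rcases Set.eq_empty_or_nonempty
    {o ∈ DStar p n k | ∃ Q, IsWit (Tw.T ^ 2 : Tw F K) o.1 Q t ∧ Q.coeff 0 = θ} with hemp | hne
  · rw [hemp, Set.ncard_empty]; exact Nat.zero_le _
  obtain ⟨o0, ho0, Q0, hQ0, hθ0⟩ := hne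
  have hth := wit_coeff_zero_mem o0.1 Q0 t hQ0
  rw [hθ0] at hth
  obtain ⟨hth1, hth2, hth3⟩ := hth
  have hcase := case_of_smooth t hs θ hth2 hth1 hth3
  obtain ⟨tW, γW, htW, hγW, hcurve, htr⟩ := exists_point t.a t.b θ hth2 hcase
  let Ω := AlgebraicClosure (FractionRing (PowerSeries K))
  let ιW : PowerSeries K →ₐ[F] Ω :=
    (IsScalarTower.toAlgHom F (FractionRing (PowerSeries K)) Ω).comp
      (IsScalarTower.toAlgHom F (PowerSeries K) (FractionRing (PowerSeries K)))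
  have hι : Function.Injective ιW := by
    have h1 : Function.Injective (algebraMap (FractionRing (PowerSeries K)) Ω) :=
      (algebraMap (FractionRing (PowerSeries K)) Ω).injective
    have h2 : Function.Injective (algebraMap (PowerSeries K) (FractionRing (PowerSeries K))) :=
      IsFractionRing.injective (PowerSeries K) (FractionRing (PowerSeries K))
    exact h1.comp h2
  obtain ⟨ρ, hρ, hρ2⟩ := r5_rho t p.c p.hc k hk hOk
  have hΩtr : Transcendental F (ιW tW) := fun hal =>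
    htr ((isAlgebraic_algHom_iff ιW hι).1 hal)
  have hΩγ : (ιW γW) ^ 2 - aeval (ιW tW) t.a * ιW γW + aeval (ιW tW) t.b = 0 := by
    rw [Polynomial.aeval_algHom_apply, Polynomial.aeval_algHom_apply, ← map_pow, ← map_mul,
      ← map_sub, ← map_add, hcurve, map_zero]
  obtain ⟨R, _, _, _, κ, _, _, _, ι, π, hVR, tR, γR, htR, hγR, hπt, hπγ⟩ :=
    exists_VR (ιW tW) (ιW γW) hΩtr t.a t.b hΩγ (r5_irr o0.1 Q0 t hQ0) p.c ρ hρ2
  obtain ⟨j, hj⟩ := hVR.exists_hom (ιW.comp (cst F))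
  have hex : ∀ o ∈ {o ∈ DStar p n k | ∃ Q, IsWit (Tw.T ^ 2 : Tw F K) o.1 Q t ∧ Q.coeff 0 = θ},
      ∃ o' : κ × F × Submodule F κ, o' ∈ DrT κ p.c p.d n k t ∧
        Rel ιW ι π tW γW tR p.d n k t o o' := by
    intro o ho
    exact exists_rel hι hVR p n k hk t hOk hs θ ρ hρ tW γW htW hγW hcurve hcase tR γR htR hγR
      hπt hπγ o ho.1 ho.2
  choose! f hf using hex
  have hfin : (DrT κ p.c p.d n k t).Finite :=
    (finite_DrObj p.c p.d n k hk).subset fun o ho => ho.1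
  refine le_trans (Set.ncard_le_ncard_of_injOn f (fun o ho => (hf o ho).1) ?_ hfin)
    (ncard_DrT_le (π.comp j) p.hcd hk t)
  intro o₁ h₁ o₂ h₂ heq
  have hr₂ := (hf o₂ h₂).2
  rw [← heq] at hr₂
  exact rel_injective hι hVR p j hj n k t ρ hρ tW γW htW tR γR htR hγR hπt hπγ o₁ o₂ h₁.1 h₂.1
    (f o₁) (hf o₁ h₁).1.1.2.2.1 (hf o₁ h₁).2 hr₂

theorem ncard_DStar_typ_le (p : Par F K) (n k : ℕ) (hk : 0 < k) (t : Typ F) (hOk : t.Ok p.c k)
    (hs : t.Smooth) :
    ({o ∈ DStar p n k | HasTyp (Tw.T ^ 2 : Tw F K) o.1 t}.ncard : ℤ) ≤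
      (2 - (t.rts : ℤ)) * ((DrT K p.c p.d n k t).ncard : ℤ) := by
  classical
  have hfinD := p.finite_DStar n k
  have hfinT := finite_ThSet (K := K) t
  have hfinS : {o ∈ DStar p n k | HasTyp (Tw.T ^ 2 : Tw F K) o.1 t}.Finite :=
    hfinD.subset fun o ho => ho.1
  have hcard : {o ∈ DStar p n k | HasTyp (Tw.T ^ 2 : Tw F K) o.1 t}.ncard ≤
      (ThSet K t).ncard * (DrT K p.c p.d n k t).ncard := by
    have hex : ∀ o ∈ {o ∈ DStar p n k | HasTyp (Tw.T ^ 2 : Tw F K) o.1 t}, ∃ θ : K,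
        ∃ Q, IsWit (Tw.T ^ 2 : Tw F K) o.1 Q t ∧ Q.coeff 0 = θ := by
      rintro o ⟨_, Q, hQ⟩
      exact ⟨Q.coeff 0, Q, hQ, rfl⟩
    choose! g hg using hex
    rw [Set.ncard_eq_toFinset_card _ hfinS, Set.ncard_eq_toFinset_card _ hfinT]
    have hmaps : ∀ o ∈ hfinS.toFinset, g o ∈ hfinT.toFinset := by
      intro o ho
      rw [Set.Finite.mem_toFinset] at ho ⊢
      obtain ⟨Q, hQ, hQ0⟩ := hg o ho
      rw [← hQ0]
      exact wit_coeff_zero_mem o.1 Q t hQ
    rw [mul_comm]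
    refine Finset.card_le_mul_card_image_of_maps_to hmaps _ ?_
    intro θ _
    have hsub : (((hfinS.toFinset.filter fun o => g o = θ) : Finset (Tw F K × Submodule F K)) :
        Set (Tw F K × Submodule F K)) ⊆
        {o ∈ DStar p n k | ∃ Q, IsWit (Tw.T ^ 2 : Tw F K) o.1 Q t ∧ Q.coeff 0 = θ} := by
      intro o ho
      rw [Finset.mem_coe, Finset.mem_filter, Set.Finite.mem_toFinset] at ho
      obtain ⟨Q, hQ, hQ0⟩ := hg o ho.1
      exact ⟨ho.1.1, Q, hQ, hQ0.trans ho.2⟩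
    have h1 := Set.ncard_le_ncard hsub (hfinD.subset fun o ho => ho.1)
    rw [Set.ncard_coe_finset] at h1
    exact h1.trans (ncard_fibre_le p n k hk t hOk hs θ)
  have h2 := ncard_ThSet_add_rts_le (K := K) t
  have h3 : ((ThSet K t).ncard : ℤ) ≤ 2 - (t.rts : ℤ) := by
    have : (((ThSet K t).ncard + t.rts : ℕ) : ℤ) ≤ 2 := by exact_mod_cast h2
    push_cast at this
    linarith
  calc ({o ∈ DStar p n k | HasTyp (Tw.T ^ 2 : Tw F K) o.1 t}.ncard : ℤ)
      ≤ ((ThSet K t).ncard : ℤ) * ((DrT K p.c p.d n k t).ncard : ℤ) := by exact_mod_cast hcard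
    _ ≤ (2 - (t.rts : ℤ)) * ((DrT K p.c p.d n k t).ncard : ℤ) :=
      mul_le_mul_of_nonneg_right h3 (Nat.cast_nonneg _)

theorem Nk_le (p : Par F K) (n k : ℕ) (hk : 0 < k) :
    (p.Nk n k : ℤ) ≤ 2 * ((OO K p.c p.d n k).ncard : ℤ) - ((TT K p.c p.d n k).ncard : ℤ) := by
  classical
  have hfinD := p.finite_DStar n k
  have hex : ∀ o ∈ DStar p n k, ∃ t : Typ F,
      HasTyp (Tw.T ^ 2 : Tw F K) o.1 t ∧ t.Ok p.c k ∧ t.Smooth := fun o ho =>
    exists_typ_DStar p n k hk o ho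
  haveI : Nonempty (Typ F) := ⟨⟨0, 0, 0, 0⟩⟩
  choose! τ hτ using hex
  set s : Finset (Typ F) := hfinD.toFinset.image τ with hsdef
  have hs : ∀ t ∈ s, t.Ok p.c k ∧ t.Smooth := by
    intro t ht
    obtain ⟨o, ho, rfl⟩ := Finset.mem_image.1 ht
    rw [Set.Finite.mem_toFinset] at ho
    exact (hτ o ho).2
  have h1 : ((DStar p n k).ncard : ℤ) ≤
      ∑ t ∈ s, (2 - (t.rts : ℤ)) * ((DrT K p.c p.d n k t).ncard : ℤ) := by
    rw [Set.ncard_eq_toFinset_card _ hfinD, Finset.card_eq_sum_card_fiberwise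
      (f := τ) (t := s) (fun o ho => Finset.mem_image_of_mem τ ho)]
    push_cast
    refine Finset.sum_le_sum fun t ht => ?_
    refine le_trans ?_ (ncard_DStar_typ_le p n k hk t (hs t ht).1 (hs t ht).2)
    have hsub : (((hfinD.toFinset.filter fun o => τ o = t) : Finset (Tw F K × Submodule F K)) :
        Set (Tw F K × Submodule F K)) ⊆
        {o ∈ DStar p n k | HasTyp (Tw.T ^ 2 : Tw F K) o.1 t} := by
      intro o ho
      rw [Finset.mem_coe, Finset.mem_filter, Set.Finite.mem_toFinset] at ho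
      refine ⟨ho.1, ?_⟩
      rw [← ho.2]
      exact (hτ o ho.1).1
    have h2 := Set.ncard_le_ncard hsub (hfinD.subset fun o ho => ho.1)
    rw [Set.ncard_coe_finset] at h2
    exact_mod_cast h2
  have h2 := volcano (K := K) p.hc p.hd (n := n) hk s (fun t ht => (hs t ht).2)
  have h3 := ncard_DrObj (K := K) p.c p.d n k hk
  have h4 := ncard_DrEdge (K := K) p.c p.d p.hc n k hk
  have h5 := p.Nk_le_DStar n k hk
  have hq : 0 < Fintype.card F - 1 := Nat.sub_pos_of_lt Fintype.one_lt_card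
  set m := Fintype.card F - 1 with hm
  have h5' : (m : ℤ) * (p.Nk n k : ℤ) ≤ ((DStar p n k).ncard : ℤ) := by exact_mod_cast h5
  rw [h3, h4] at h2
  push_cast at h2
  have hmpos : (0 : ℤ) < m := by exact_mod_cast hq
  have h6 : (m : ℤ) * (p.Nk n k : ℤ) ≤
      (m : ℤ) * (2 * ((OO K p.c p.d n k).ncard : ℤ) - ((TT K p.c p.d n k).ncard : ℤ)) := by
    linarith
  exact le_of_mul_le_mul_left h6 hmpos

end Pool.Agent.H9.Ram
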