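import Pool.Agent.H9.Ram.Defs

/-!
# Definitions for the spectral part (abstract): a finite symmetric set of generators acting on a finite set
-/

noncomputable section

namespace Pool.Agent.H9.Ram

/-- A set `S` of generators, closed under inverse, acting on `V`. -/
structure GAct (S V : Type*) where
  /-- the inversion -/
  inv : S → S
  /-- the action -/
  act : S → V → V
  inv_inv : ∀ s, inv (inv s) = s
  act_inv : ∀ s x, act (inv s) (act s x) = x

namespace GAct

variable {S V : Type*} (g : GAct S V)

/-- The action of a word, last letter first. -/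
def actW (v : List S) (x : V) : V := v.foldr g.act x

/-- Number of (reduced word of length `k`, fixed point). -/
def tk (k : ℕ) : ℕ :=
  Set.ncard {z : List S × V | z.1.length = k ∧ Red g.inv z.1 ∧ g.actW z.1 z.2 = z.2}

/-- Number of (cyclically reduced word of length `k`, fixed point). -/
def nk (k : ℕ) : ℕ :=
  Set.ncard {z : List S × V | z.1.length = k ∧ CycRed g.inv z.1 ∧ g.actW z.1 z.2 = z.2}

/-- The matrix counting reduced words of length `k` from `y` to `x`. -/
def Ak (k : ℕ) : Matrix V V ℝ :=
  Matrix.of fun x y => (Set.ncard {v : List S | v.length = k ∧ Red g.inv v ∧ g.actW v y = x} : ℝ)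

/-- The adjacency matrix. -/
def A : Matrix V V ℝ := Matrix.of fun x y => (Set.ncard {s : S | g.act s y = x} : ℝ)

end GAct

/-- `c_0 = 2`, `c_1 = X`, `c_{k+2} = X c_{k+1} - q c_k`. -/
def cheb (q : ℕ) : ℕ → Polynomial ℝ
  | 0 => 2
  | 1 => Polynomial.X
  | (k + 2) => Polynomial.X * cheb q (k + 1) - Polynomial.C (q : ℝ) * cheb q k

end Pool.Agent.H9.Ram
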