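import Pool.Agent.H9.Ram.S0

/-!
# Module S1: matrices of reduced words

Count pairs `(s, v)` with `v` reduced of length `k`, `s · v · y = x`. If `v = []` or the first letter of `v`
is not `inv s` then `s :: v` is reduced of length `k + 1`. Otherwise `v = inv s :: v'` with `v'` reduced of
length `k - 1` not starting with `s = inv (inv s)`, and `s · v · y = v' · y`; for given `v'` there are `q`
choices of `s` if `v'` is nonempty (`s ≠` first letter of `v'`) and `q + 1` if `v' = []`.
`S` has `q + 1` elements. Finiteness of the sets: lists of fixed length over a finite type.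
-/

noncomputable section

namespace Pool.Agent.H9.Ram.GAct

variable {S V : Type*} [Finite S] [Fintype V] [DecidableEq V] (g : GAct S V)

omit [Finite S] [Fintype V] [DecidableEq V] in
theorem s1_act_act_inv (s : S) (x : V) : g.act s (g.act (g.inv s) x) = x := by
  have h := g.act_inv (g.inv s) x
  rwa [g.inv_inv] at h

omit [Finite S] [Fintype V] [DecidableEq V] in
theorem s1_act_eq_iff (s : S) (y x : V) : g.act s y = x ↔ y = g.act (g.inv s) x := by
  constructor
  · intro h
    rw [← h, g.act_inv]
  · intro h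
    rw [h, g.s1_act_act_inv]

omit [Fintype V] [DecidableEq V] in
theorem s1_ncard_cons [Fintype S] (k : ℕ) (P : List S → Prop) :
    ({v : List S | v.length = k + 1 ∧ P v}).ncard
      = ∑ u : S, ({v : List S | v.length = k ∧ P (u :: v)}).ncard := by
  have hfin : ∀ u : S, Finite ↥({v : List S | v.length = k ∧ P (u :: v)}) := by
    intro u
    exact ((List.finite_length_eq S k).subset (fun v hv => hv.1)).to_subtype
  have h1 : Nat.card ↥({v : List S | v.length = k + 1 ∧ P v})
      = Nat.card (Σ u : S, ↥({v : List S | v.length = k ∧ P (u :: v)})) := by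
    symm
    refine Nat.card_congr (Equiv.ofBijective
      (fun z => ⟨z.1 :: z.2.1, by
        have hz := z.2.2
        refine ⟨?_, hz.2⟩
        have := hz.1
        simp only [List.length_cons]
        rw [this]⟩) ⟨?_, ?_⟩)
    · rintro ⟨u, v, hv⟩ ⟨u', v', hv'⟩ h
      simp only [Subtype.mk.injEq, List.cons.injEq] at h
      obtain ⟨h1, h2⟩ := h
      subst h1
      subst h2
      rfl
    · rintro ⟨v, hv⟩
      cases v with
      | nil =>
        exfalso
        have := hv.1
        simp at this
      | cons u v =>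
        refine ⟨⟨u, v, ?_, hv.2⟩, rfl⟩
        have := hv.1
        simpa using this
  rw [Nat.card_sigma] at h1
  simpa [Nat.card_coe_set_eq] using h1

/-- number of words `s :: v` reduced, with `v` of length `k`, from `y` to `x` -/
def s1C (k : ℕ) (s : S) (x y : V) : ℕ :=
  ({v : List S | v.length = k ∧ (Red g.inv (s :: v) ∧ g.actW (s :: v) y = x)}).ncard

omit [DecidableEq V] [Fintype V] in
theorem s1C_zero [DecidableEq V] (s : S) (x y : V) :
    g.s1C 0 s x y = if y = g.act (g.inv s) x then 1 else 0 := by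
  unfold s1C
  split_ifs with h
  · have : {v : List S | v.length = 0 ∧ (Red g.inv (s :: v) ∧ g.actW (s :: v) y = x)} = {[]} := by
      ext v
      simp only [Set.mem_setOf_eq, Set.mem_singleton_iff]
      constructor
      · intro hv
        exact List.length_eq_zero_iff.mp hv.1
      · intro hv
        subst hv
        refine ⟨rfl, ?_, ?_⟩
        · exact List.isChain_singleton _
        · show g.act s y = x
          rw [g.s1_act_eq_iff]
          exact h
    rw [this, Set.ncard_singleton]
  · have : {v : List S | v.length = 0 ∧ (Red g.inv (s :: v) ∧ g.actW (s :: v) y = x)} = ∅ := by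
      ext v
      simp only [Set.mem_setOf_eq, Set.mem_empty_iff_false, iff_false]
      rintro ⟨h1, -, h3⟩
      have h1' := List.length_eq_zero_iff.mp h1
      subst h1'
      apply h
      rw [← g.s1_act_eq_iff]
      exact h3
    rw [this, Set.ncard_empty]

omit [DecidableEq V] [Fintype V] in
theorem s1C_succ [Fintype S] [DecidableEq S] (k : ℕ) (s : S) (x y : V) :
    g.s1C (k + 1) s x y = ∑ u : S, if u ≠ g.inv s then g.s1C k u (g.act (g.inv s) x) y else 0 := by
  unfold s1C
  rw [s1_ncard_cons]
  refine Finset.sum_congr rfl fun u _ => ?_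
  split_ifs with h
  · congr 1
    ext v
    simp only [Set.mem_setOf_eq]
    have e1 : Red g.inv (s :: u :: v) ↔ Red g.inv (u :: v) := by
      unfold Red
      rw [List.isChain_cons_cons]
      exact ⟨fun hh => hh.2, fun hh => ⟨h, hh⟩⟩
    have e2 : g.actW (s :: u :: v) y = x ↔ g.actW (u :: v) y = g.act (g.inv s) x := by
      show g.act s (g.actW (u :: v) y) = x ↔ _
      rw [g.s1_act_eq_iff]
    rw [e1, e2]
  · have : {v : List S | v.length = k ∧ (Red g.inv (s :: u :: v) ∧ g.actW (s :: u :: v) y = x)} = ∅ := by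
      ext v
      simp only [Set.mem_setOf_eq, Set.mem_empty_iff_false, iff_false]
      rintro ⟨-, h2, -⟩
      unfold Red at h2
      rw [List.isChain_cons_cons] at h2
      exact h h2.1
    rw [this, Set.ncard_empty]

theorem s1_Ak_succ_apply [Fintype S] (k : ℕ) (x y : V) :
    g.Ak (k + 1) x y = ∑ s : S, (g.s1C k s x y : ℝ) := by
  unfold Ak s1C
  rw [Matrix.of_apply, s1_ncard_cons]
  push_cast
  rfl

theorem s1_A_apply [Fintype S] (x y : V) :
    g.A x y = ∑ s : S, if y = g.act (g.inv s) x then (1 : ℝ) else 0 := by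
  unfold A
  rw [Matrix.of_apply]
  have : {s : S | g.act s y = x} = ((Finset.univ.filter fun s : S => y = g.act (g.inv s) x : Finset S) : Set S) := by
    ext s
    simp only [Set.mem_setOf_eq, Finset.coe_filter, Finset.mem_univ, true_and]
    exact g.s1_act_eq_iff s y x
  rw [this, Set.ncard_coe_finset, Finset.card_filter]
  push_cast
  rfl

theorem s1_A_mul [Fintype S] (M : Matrix V V ℝ) (x y : V) :
    (g.A * M) x y = ∑ s : S, M (g.act (g.inv s) x) y := by
  rw [Matrix.mul_apply]
  simp_rw [g.s1_A_apply, Finset.sum_mul]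
  rw [Finset.sum_comm]
  refine Finset.sum_congr rfl fun s _ => ?_
  simp

theorem Ak_zero : g.Ak 0 = 1 := by
  ext x y
  unfold Ak
  rw [Matrix.of_apply, Matrix.one_apply]
  split_ifs with h
  · have : {v : List S | v.length = 0 ∧ Red g.inv v ∧ g.actW v y = x} = {[]} := by
      ext v
      simp only [Set.mem_setOf_eq, Set.mem_singleton_iff]
      constructor
      · intro hv
        exact List.length_eq_zero_iff.mp hv.1
      · intro hv
        subst hv
        refine ⟨rfl, ?_, ?_⟩
        · exact List.isChain_nil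
        · exact h.symm
    rw [this, Set.ncard_singleton]
    norm_num
  · have : {v : List S | v.length = 0 ∧ Red g.inv v ∧ g.actW v y = x} = ∅ := by
      ext v
      simp only [Set.mem_setOf_eq, Set.mem_empty_iff_false, iff_false]
      rintro ⟨h1, -, h3⟩
      have h1' := List.length_eq_zero_iff.mp h1
      subst h1'
      exact h h3.symm
    rw [this, Set.ncard_empty]
    norm_num

theorem Ak_one : g.Ak 1 = g.A := by
  classical
  haveI := Fintype.ofFinite S
  ext x y
  rw [show (1 : ℕ) = 0 + 1 from rfl, g.s1_Ak_succ_apply 0 x y, g.s1_A_apply]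
  refine Finset.sum_congr rfl fun s _ => ?_
  rw [g.s1C_zero]
  push_cast
  rfl

theorem s1_sum_split [Fintype S] (k : ℕ) (x y : V) :
    (g.A * g.Ak (k + 1)) x y = g.Ak (k + 2) x y
      + ∑ s : S, (g.s1C k (g.inv s) (g.act (g.inv s) x) y : ℝ) := by
  classical
  rw [g.s1_A_mul, show k + 2 = (k + 1) + 1 from rfl, g.s1_Ak_succ_apply (k + 1) x y,
    ← Finset.sum_add_distrib]
  refine Finset.sum_congr rfl fun s _ => ?_
  rw [g.s1_Ak_succ_apply, g.s1C_succ]
  push_cast
  rw [← Finset.sum_filter, ← Finset.sum_filter_add_sum_filter_not Finset.univ (fun u : S => u ≠ g.inv s)]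
  congr 1
  have : (Finset.univ.filter fun u : S => ¬ u ≠ g.inv s) = {g.inv s} := by
    ext u
    simp
  rw [this, Finset.sum_singleton]

theorem Ak_two (q : ℕ) (hq : Nat.card S = q + 1) :
    g.Ak 2 = g.A * g.A - ((q : ℝ) + 1) • (1 : Matrix V V ℝ) := by
  classical
  haveI := Fintype.ofFinite S
  ext x y
  have h := g.s1_sum_split 0 x y
  rw [show g.Ak (0 + 1) = g.A from g.Ak_one] at h
  rw [Matrix.sub_apply, Matrix.smul_apply, Matrix.one_apply, h]
  have hs : ∑ s : S, (g.s1C 0 (g.inv s) (g.act (g.inv s) x) y : ℝ)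
      = ((q : ℝ) + 1) • (if x = y then (1 : ℝ) else 0) := by
    have : ∀ s : S, (g.s1C 0 (g.inv s) (g.act (g.inv s) x) y : ℝ) = if x = y then (1 : ℝ) else 0 := by
      intro s
      rw [g.s1C_zero, g.inv_inv, g.s1_act_act_inv]
      push_cast
      by_cases hxy : x = y
      · rw [if_pos hxy, if_pos hxy.symm]
      · rw [if_neg hxy, if_neg (fun e => hxy e.symm)]
    simp_rw [this]
    rw [Finset.sum_const, Finset.card_univ, ← Nat.card_eq_fintype_card, hq, nsmul_eq_mul, smul_eq_mul]
    push_cast
    ring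
  rw [hs]
  ring

theorem Ak_succ (q : ℕ) (hq : Nat.card S = q + 1) (k : ℕ) (hk : 1 ≤ k) :
    g.Ak (k + 2) = g.A * g.Ak (k + 1) - (q : ℝ) • g.Ak k := by
  classical
  haveI := Fintype.ofFinite S
  obtain ⟨j, rfl⟩ : ∃ j, k = j + 1 := ⟨k - 1, by omega⟩
  ext x y
  have h := g.s1_sum_split (j + 1) x y
  rw [Matrix.sub_apply, Matrix.smul_apply, h]
  have hs : ∑ s : S, (g.s1C (j + 1) (g.inv s) (g.act (g.inv s) x) y : ℝ)
      = (q : ℝ) • g.Ak (j + 1) x y := by
    have h1 : ∀ s : S, (g.s1C (j + 1) (g.inv s) (g.act (g.inv s) x) y : ℝ)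
        = ∑ u : S, if u ≠ s then (g.s1C j u x y : ℝ) else 0 := by
      intro s
      rw [g.s1C_succ, g.inv_inv, g.s1_act_act_inv]
      push_cast
      rfl
    simp_rw [h1]
    rw [Finset.sum_comm, g.s1_Ak_succ_apply, smul_eq_mul, Finset.mul_sum]
    refine Finset.sum_congr rfl fun u _ => ?_
    rw [← Finset.sum_filter, Finset.sum_const, nsmul_eq_mul]
    congr 1
    have : (Finset.univ.filter fun s : S => u ≠ s) = Finset.univ.erase u := by
      ext s
      simp [eq_comm]
    rw [this, Finset.card_erase_of_mem (Finset.mem_univ _), Finset.card_univ,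
      ← Nat.card_eq_fintype_card, hq]
    simp
  rw [hs]
  ring

theorem trace_Ak (k : ℕ) : (g.Ak k).trace = g.tk k := by
  classical
  unfold Matrix.trace tk
  have hfin : ∀ x : V, Finite ↥({v : List S | v.length = k ∧ Red g.inv v ∧ g.actW v x = x}) := by
    intro x
    exact ((List.finite_length_eq S k).subset (fun v hv => hv.1)).to_subtype
  have h1 : Nat.card ↥({z : List S × V | z.1.length = k ∧ Red g.inv z.1 ∧ g.actW z.1 z.2 = z.2})
      = Nat.card (Σ x : V, ↥({v : List S | v.length = k ∧ Red g.inv v ∧ g.actW v x = x})) := by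
    symm
    refine Nat.card_congr (Equiv.ofBijective
      (fun z => ⟨(z.2.1, z.1), z.2.2⟩) ⟨?_, ?_⟩)
    · rintro ⟨x, v, hv⟩ ⟨x', v', hv'⟩ h
      simp only [Subtype.mk.injEq, Prod.mk.injEq] at h
      obtain ⟨h1, h2⟩ := h
      subst h1
      subst h2
      rfl
    · rintro ⟨⟨v, x⟩, hv⟩
      exact ⟨⟨x, v, hv⟩, rfl⟩
  rw [Nat.card_sigma] at h1
  have h2 : ({z : List S × V | z.1.length = k ∧ Red g.inv z.1 ∧ g.actW z.1 z.2 = z.2}).ncard
      = ∑ x : V, ({v : List S | v.length = k ∧ Red g.inv v ∧ g.actW v x = x}).ncard := by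
    simpa [Nat.card_coe_set_eq] using h1
  rw [h2]
  push_cast
  rfl

theorem A_symm : g.A.transpose = g.A := by
  ext x y
  rw [Matrix.transpose_apply]
  unfold A
  rw [Matrix.of_apply, Matrix.of_apply]
  congr 1
  refine Set.ncard_congr (fun s _ => g.inv s) ?_ ?_ ?_
  · intro s hs
    simp only [Set.mem_setOf_eq] at hs ⊢
    rw [← hs, g.act_inv]
  · intro s t _ _ h
    have := congrArg g.inv h
    rwa [g.inv_inv, g.inv_inv] at this
  · intro s hs
    refine ⟨g.inv s, ?_, g.inv_inv s⟩
    simp only [Set.mem_setOf_eq] at hs ⊢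
    rw [← hs, g.act_inv]

/-- Action of the adjacency matrix on functions. -/
theorem A_mulVec [Fintype S] (f : V → ℝ) (x : V) : g.A.mulVec f x = ∑ s : S, f (g.act s x) := by
  classical
  unfold Matrix.mulVec dotProduct
  simp_rw [g.s1_A_apply, Finset.sum_mul]
  rw [Finset.sum_comm]
  let e : S ≃ S := ⟨g.inv, g.inv, g.inv_inv, g.inv_inv⟩
  rw [← Equiv.sum_comp e]
  refine Finset.sum_congr rfl fun s _ => ?_
  have : g.inv (e s) = s := g.inv_inv s
  simp [this]

end Pool.Agent.H9.Ram.GAct
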