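import Pool.Agent.H9.Ram.S0

/-!
# Module S2: reduced words that are not cyclically reduced

For `k ≥ 1`, a reduced word of length `k + 2` that is not cyclically reduced is `u :: (w ++ [inv u])`
with `w` reduced of length `k`, first letter of `w` `≠ inv u`, last letter of `w` `≠ u`
(not cyclically reduced means: first letter `= inv` (last letter)). For a given `w` the number of such `u`
is `q - 1` if `w` is cyclically reduced (the two forbidden values `inv (first w)` and `last w` are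
different) and `q` otherwise (they are equal). The fixed points of `u w u⁻¹` correspond to those of `w`
via `x ↦ act (inv u) x`. (`CycRed inv w` means `Red inv (w ++ w)`; for `w ≠ []` this is: `w` reduced and
first letter `≠ inv` (last letter).) Words of length two: `[u, v]` is cyclically reduced iff reduced.
-/

noncomputable section

namespace Pool.Agent.H9.Ram.GAct

variable {S V : Type*} [Finite S] [Finite V] (g : GAct S V)

omit [Finite S] [Finite V] in
theorem s2_red_cons (inv : S → S) (u : S) (w : List S) :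
    Red inv (u :: w) ↔ (∀ y ∈ w.head?, y ≠ inv u) ∧ Red inv w := by
  unfold Red
  exact List.isChain_cons

omit [Finite S] [Finite V] in
theorem s2_red_append (inv : S → S) (v w : List S) :
    Red inv (v ++ w) ↔ Red inv v ∧ Red inv w ∧
      ∀ x ∈ v.getLast?, ∀ y ∈ w.head?, y ≠ inv x := by
  unfold Red
  exact List.isChain_append

omit [Finite S] [Finite V] in
theorem s2_cyc_red {inv : S → S} {v : List S} (h : CycRed inv v) : Red inv v :=
  ((s2_red_append inv v v).1 h).1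

theorem s2_finite (k : ℕ) (P : List S × V → Prop) :
    {z : List S × V | z.1.length = k ∧ P z}.Finite := by
  apply Set.Finite.subset (s := {l : List S | l.length = k} ×ˢ (Set.univ : Set V))
  · exact (List.finite_length_eq S k).prod Set.finite_univ
  · rintro z ⟨h, -⟩
    exact ⟨h, Set.mem_univ _⟩

theorem nk_le_tk (k : ℕ) : g.nk k ≤ g.tk k := by
  unfold nk tk
  apply Set.ncard_le_ncard
  · rintro z ⟨h1, h2, h3⟩
    exact ⟨h1, s2_cyc_red h2, h3⟩
  · exact s2_finite k _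

omit [Finite S] [Finite V] in
theorem s2_cyc_iff {inv : S → S} {w : List S} {a b : S} (ha : w.head? = some a)
    (hb : w.getLast? = some b) : CycRed inv w ↔ Red inv w ∧ a ≠ inv b := by
  unfold CycRed
  rw [s2_red_append, ha, hb]
  simp

theorem nk_two : g.nk 2 = g.tk 2 := by
  unfold nk tk
  congr 1
  ext z
  constructor
  · rintro ⟨h1, h2, h3⟩
    exact ⟨h1, s2_cyc_red h2, h3⟩
  · rintro ⟨h1, h2, h3⟩
    refine ⟨h1, ?_, h3⟩
    obtain ⟨v, x⟩ := z
    obtain ⟨a, b, rfl⟩ := List.length_eq_two.1 h1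
    rw [s2_cyc_iff (a := a) (b := b) rfl rfl]
    refine ⟨h2, ?_⟩
    have h4 := ((s2_red_cons g.inv a [b]).1 h2).1 b rfl
    intro h5
    apply h4
    rw [h5, g.inv_inv]

omit [Finite V] in
theorem s2_ncard_fib {W : Type*} (T : Set W) (hT : T.Finite) (B : W → Set S) (c : ℤ)
    (hB : ∀ w ∈ T, ((B w).ncard : ℤ) = c) :
    (Set.ncard {p : S × W | p.2 ∈ T ∧ p.1 ∈ B p.2} : ℤ) = c * T.ncard := by
  classical
  have := Fintype.ofFinite S
  lift T to Finset W using hT
  have h1 : {p : S × W | p.2 ∈ (T : Set W) ∧ p.1 ∈ B p.2} =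
      (((T.sigma fun w => (B w).toFinset).image fun z => (z.2, z.1) : Finset (S × W)) :
        Set (S × W)) := by
    ext ⟨s, w⟩
    simp only [Set.mem_ofPred_eq, Finset.coe_image, Set.mem_image, Finset.mem_coe,
      Finset.mem_sigma, Set.mem_toFinset, Prod.mk.injEq]
    constructor
    · rintro ⟨h1, h2⟩
      exact ⟨⟨w, s⟩, ⟨h1, h2⟩, rfl, rfl⟩
    · rintro ⟨⟨w', s'⟩, ⟨h1, h2⟩, rfl, rfl⟩
      exact ⟨h1, h2⟩
  rw [h1, Set.ncard_coe_finset, Finset.card_image_of_injective, Finset.card_sigma,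
    Set.ncard_coe_finset]
  · push_cast
    rw [Finset.sum_congr rfl (g := fun _ => c)]
    · simp [mul_comm]
    · intro w hw
      rw [← hB w hw, Set.ncard_eq_toFinset_card']
  · rintro ⟨w, s⟩ ⟨w', s'⟩ h
    simp only [Prod.mk.injEq] at h
    obtain ⟨rfl, rfl⟩ := h
    rfl

/-- The allowed conjugating letters. -/
def s2_B (w : List S) : Set S :=
  {u | (∀ y ∈ w.head?, y ≠ g.inv u) ∧ ∀ x ∈ w.getLast?, g.inv u ≠ g.inv x}

omit [Finite S] [Finite V] in
theorem s2_inv_inj {a b : S} (h : g.inv a = g.inv b) : a = b := by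
  rw [← g.inv_inv a, h, g.inv_inv]

omit [Finite S] [Finite V] in
theorem s2_B_eq {w : List S} {a b : S} (ha : w.head? = some a) (hb : w.getLast? = some b) :
    g.s2_B w = {g.inv a, b}ᶜ := by
  ext u
  unfold s2_B
  rw [ha, hb]
  simp only [Option.mem_def, Option.some.injEq, forall_eq', Set.mem_ofPred_eq, Set.mem_compl_iff,
    Set.mem_insert_iff, Set.mem_singleton_iff, not_or]
  constructor
  · rintro ⟨h1, h2⟩
    refine ⟨?_, ?_⟩
    · rintro rfl
      exact h1 (g.inv_inv a).symm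
    · rintro rfl
      exact h2 rfl
  · rintro ⟨h1, h2⟩
    refine ⟨?_, ?_⟩
    · rintro rfl
      exact h1 (g.inv_inv u).symm
    · intro h
      exact h2 (g.s2_inv_inj h)

omit [Finite V] in
theorem s2_B_card_cyc (q : ℕ) (hq : Nat.card S = q + 1) {w : List S} (hw : w ≠ [])
    (h : CycRed g.inv w) : ((g.s2_B w).ncard : ℤ) = q - 1 := by
  obtain ⟨a, ha⟩ : ∃ a, w.head? = some a := ⟨_, List.head?_eq_some_head hw⟩
  obtain ⟨b, hb⟩ : ∃ b, w.getLast? = some b := ⟨_, List.getLast?_eq_some_getLast hw⟩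
  have h1 := ((s2_cyc_iff ha hb).1 h).2
  have h2 : g.inv a ≠ b := by
    rintro rfl
    exact h1 (g.inv_inv a).symm
  have h3 := Set.ncard_add_ncard_compl ({g.inv a, b} : Set S)
  rw [hq, Set.ncard_pair h2, ← g.s2_B_eq ha hb] at h3
  omega

omit [Finite V] in
theorem s2_B_card_not_cyc (q : ℕ) (hq : Nat.card S = q + 1) {w : List S} (hw : w ≠ [])
    (hr : Red g.inv w) (h : ¬ CycRed g.inv w) : ((g.s2_B w).ncard : ℤ) = q := by
  obtain ⟨a, ha⟩ : ∃ a, w.head? = some a := ⟨_, List.head?_eq_some_head hw⟩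
  obtain ⟨b, hb⟩ : ∃ b, w.getLast? = some b := ⟨_, List.getLast?_eq_some_getLast hw⟩
  have h1 : a = g.inv b := by
    by_contra h2
    exact h ((s2_cyc_iff ha hb).2 ⟨hr, h2⟩)
  have h2 : g.inv a = b := by rw [h1, g.inv_inv]
  have h3 := Set.ncard_add_ncard_compl ({g.inv a, b} : Set S)
  rw [← g.s2_B_eq ha hb, h2, Set.pair_eq_singleton, hq, Set.ncard_singleton] at h3
  omega

omit [Finite S] [Finite V] in
theorem s2_actW_conj (u : S) (w : List S) (x : V) :
    g.actW (u :: (w ++ [g.inv u])) x = g.act u (g.actW w (g.act (g.inv u) x)) := by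
  simp [actW]

omit [Finite S] [Finite V] in
theorem s2_act_inv' (s : S) (x : V) : g.act s (g.act (g.inv s) x) = x := by
  have := g.act_inv (g.inv s) x
  rwa [g.inv_inv] at this

omit [Finite S] [Finite V] in
/-- Reduced words `u :: (w ++ [z])`. -/
theorem s2_red_conj {u z : S} {w : List S} (hw : w ≠ []) :
    Red g.inv (u :: (w ++ [z])) ↔
      (∀ y ∈ w.head?, y ≠ g.inv u) ∧ Red g.inv w ∧ ∀ x ∈ w.getLast?, z ≠ g.inv x := by
  rw [s2_red_cons, s2_red_append, List.head?_append_of_ne_nil _ hw]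
  constructor
  · rintro ⟨h1, h2, -, h3⟩
    exact ⟨h1, h2, fun x hx => h3 x hx z rfl⟩
  · rintro ⟨h1, h2, h3⟩
    refine ⟨h1, h2, ?_, fun x hx y hy => ?_⟩
    · unfold Red
      exact List.isChain_singleton _
    · simp only [List.head?_cons, Option.mem_def, Option.some.injEq] at hy
      subst hy
      exact h3 x hx

omit [Finite S] [Finite V] in
theorem s2_cyc_conj {u z : S} {w : List S} (hr : Red g.inv (u :: (w ++ [z]))) :
    ¬ CycRed g.inv (u :: (w ++ [z])) ↔ z = g.inv u := by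
  have ha : (u :: (w ++ [z])).head? = some u := rfl
  have hb : (u :: (w ++ [z])).getLast? = some z := by
    rw [← List.cons_append, List.getLast?_append]
    simp
  rw [s2_cyc_iff ha hb]
  constructor
  · intro h
    by_contra h2
    apply h
    refine ⟨hr, ?_⟩
    rintro rfl
    exact h2 (g.inv_inv z).symm
  · rintro rfl ⟨-, h⟩
    exact h (g.inv_inv u).symm

theorem tk_sub_nk (q : ℕ) (hq : Nat.card S = q + 1) (k : ℕ) (hk : 1 ≤ k) :
    (g.tk (k + 2) : ℤ) - g.nk (k + 2) = (q - 1) * g.nk k + q * ((g.tk k : ℤ) - g.nk k) := by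
  classical
  -- the difference sets
  have hdiff : ∀ j : ℕ, ((Set.ncard {z : List S × V | z.1.length = j ∧ (Red g.inv z.1 ∧
      ¬ CycRed g.inv z.1 ∧ g.actW z.1 z.2 = z.2)} : ℕ) : ℤ) = (g.tk j : ℤ) - g.nk j := by
    intro j
    have h1 : {z : List S × V | z.1.length = j ∧ (Red g.inv z.1 ∧
        ¬ CycRed g.inv z.1 ∧ g.actW z.1 z.2 = z.2)} =
        {z : List S × V | z.1.length = j ∧ Red g.inv z.1 ∧ g.actW z.1 z.2 = z.2} \
        {z : List S × V | z.1.length = j ∧ CycRed g.inv z.1 ∧ g.actW z.1 z.2 = z.2} := by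
      ext z
      simp only [Set.mem_ofPred_eq, Set.mem_sdiff]
      constructor
      · rintro ⟨h1, h2, h3, h4⟩
        exact ⟨⟨h1, h2, h4⟩, fun h => h3 h.2.1⟩
      · rintro ⟨⟨h1, h2, h3⟩, h4⟩
        exact ⟨h1, h2, fun h => h4 ⟨h1, h, h3⟩, h3⟩
    have h2 : {z : List S × V | z.1.length = j ∧ CycRed g.inv z.1 ∧ g.actW z.1 z.2 = z.2} ⊆
        {z : List S × V | z.1.length = j ∧ Red g.inv z.1 ∧ g.actW z.1 z.2 = z.2} := by
      rintro z ⟨h1, h2, h3⟩
      exact ⟨h1, s2_cyc_red h2, h3⟩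
    rw [h1, Set.ncard_sdiff h2 (s2_finite j _),
      Nat.cast_sub (Set.ncard_le_ncard h2 (s2_finite j _))]
    rfl
  rw [← hdiff (k + 2)]
  -- the parametrization
  have hpar : {z : List S × V | z.1.length = k + 2 ∧ (Red g.inv z.1 ∧
      ¬ CycRed g.inv z.1 ∧ g.actW z.1 z.2 = z.2)} =
      (fun p : S × (List S × V) => (p.1 :: (p.2.1 ++ [g.inv p.1]), g.act p.1 p.2.2)) ''
      ({p : S × (List S × V) | p.2 ∈ {z : List S × V | z.1.length = k ∧ CycRed g.inv z.1 ∧
        g.actW z.1 z.2 = z.2} ∧ p.1 ∈ g.s2_B p.2.1} ∪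
       {p : S × (List S × V) | p.2 ∈ {z : List S × V | z.1.length = k ∧ (Red g.inv z.1 ∧
        ¬ CycRed g.inv z.1 ∧ g.actW z.1 z.2 = z.2)} ∧ p.1 ∈ g.s2_B p.2.1}) := by
    ext ⟨v, x⟩
    simp only [Set.mem_ofPred_eq, Set.mem_image, Set.mem_union]
    constructor
    · rintro ⟨h1, h2, h3, h4⟩
      obtain ⟨u, v', rfl⟩ : ∃ u v', v = u :: v' := List.exists_cons_of_length_eq_add_one h1
      have hv' : v' ≠ [] := by
        rintro rfl
        simp at h1
      obtain ⟨w, z, rfl⟩ : ∃ w z, v' = w ++ [z] :=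
        ⟨_, _, (List.dropLast_append_getLast hv').symm⟩
      have hwk : w.length = k := by simpa using h1
      have hw : w ≠ [] := by
        rintro rfl
        simp at hwk
        omega
      obtain rfl : z = g.inv u := (g.s2_cyc_conj h2).1 h3
      obtain ⟨r1, r2, r3⟩ := (g.s2_red_conj hw).1 h2
      rw [g.s2_actW_conj] at h4
      have hfix : g.actW w (g.act (g.inv u) x) = g.act (g.inv u) x := by
        conv_rhs => rw [← h4]
        rw [g.act_inv]
      refine ⟨(u, (w, g.act (g.inv u) x)), ?_, ?_⟩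
      · by_cases hc : CycRed g.inv w
        · left
          exact ⟨⟨hwk, hc, hfix⟩, ⟨r1, r3⟩⟩
        · right
          exact ⟨⟨hwk, r2, hc, hfix⟩, ⟨r1, r3⟩⟩
      · simp only [g.s2_act_inv']
    · rintro ⟨⟨u, w, y⟩, h, h'⟩
      simp only at h h'
      simp only [Prod.mk.injEq] at h'
      obtain ⟨rfl, rfl⟩ := h'
      have h1 : w.length = k ∧ Red g.inv w ∧ g.actW w y = y ∧ u ∈ g.s2_B w := by
        rcases h with ⟨⟨h1, h2, h3⟩, h4⟩ | ⟨⟨h1, h2, h3, h4⟩, h5⟩
        · exact ⟨h1, s2_cyc_red h2, h3, h4⟩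
        · exact ⟨h1, h2, h4, h5⟩
      obtain ⟨hwk, hr, hfix, hB⟩ := h1
      have hw : w ≠ [] := by
        rintro rfl
        simp at hwk
        omega
      have hr2 : Red g.inv (u :: (w ++ [g.inv u])) := (g.s2_red_conj hw).2 ⟨hB.1, hr, hB.2⟩
      refine ⟨by simp [hwk], hr2, (g.s2_cyc_conj hr2).2 rfl, ?_⟩
      rw [g.s2_actW_conj, g.act_inv, hfix]
  have hinj : Function.Injective
      (fun p : S × (List S × V) => (p.1 :: (p.2.1 ++ [g.inv p.1]), g.act p.1 p.2.2)) := by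
    rintro ⟨u, w, y⟩ ⟨u', w', y'⟩ h
    simp only [Prod.mk.injEq, List.cons.injEq] at h
    obtain ⟨⟨rfl, h2⟩, h3⟩ := h
    have h4 : w = w' := List.append_cancel_right h2
    have h5 : y = y' := by
      rw [← g.act_inv u y, h3, g.act_inv]
    rw [h4, h5]
  have hf1 : {p : S × (List S × V) | p.2 ∈ {z : List S × V | z.1.length = k ∧
      CycRed g.inv z.1 ∧ g.actW z.1 z.2 = z.2} ∧ p.1 ∈ g.s2_B p.2.1}.Finite :=
    (Set.Finite.prod Set.finite_univ (s2_finite k (fun z => CycRed g.inv z.1 ∧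
      g.actW z.1 z.2 = z.2))).subset (fun p hp => ⟨Set.mem_univ _, hp.1⟩)
  have hf2 : {p : S × (List S × V) | p.2 ∈ {z : List S × V | z.1.length = k ∧
      (Red g.inv z.1 ∧ ¬ CycRed g.inv z.1 ∧ g.actW z.1 z.2 = z.2)} ∧
      p.1 ∈ g.s2_B p.2.1}.Finite :=
    (Set.Finite.prod Set.finite_univ (s2_finite k (fun z => Red g.inv z.1 ∧
      ¬ CycRed g.inv z.1 ∧ g.actW z.1 z.2 = z.2))).subset (fun p hp => ⟨Set.mem_univ _, hp.1⟩)
  rw [hpar, Set.ncard_image_of_injective _ hinj, Set.ncard_union_eq ?_ hf1 hf2]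
  · push_cast
    rw [s2_ncard_fib _ (s2_finite k _) (fun z => g.s2_B z.1) ((q : ℤ) - 1),
      s2_ncard_fib _ (s2_finite k _) (fun z => g.s2_B z.1) (q : ℤ), hdiff k]
    · rfl
    · rintro ⟨w, y⟩ ⟨h1, h2, h3, h4⟩
      refine g.s2_B_card_not_cyc q hq ?_ h2 h3
      rintro rfl
      simp at h1
      omega
    · rintro ⟨w, y⟩ ⟨h1, h2, h3⟩
      refine g.s2_B_card_cyc q hq ?_ h2
      rintro rfl
      simp at h1
      omega
  · rw [Set.disjoint_left]
    rintro ⟨u, w, y⟩ ⟨⟨-, h2, -⟩, -⟩ ⟨⟨-, -, h3, -⟩, -⟩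
    exact h3 h2

end Pool.Agent.H9.Ram.GAct

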