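import Pool.Agent.H9.Ram.S1
import Pool.Agent.H9.Ram.S2

/-!
# Module S3: the trace formula for cyclically reduced words

Let `U_0 = 1, U_1 = X, U_{k+2} = X U_{k+1} - q U_k`. Then (S1) `A_k = (U_k - U_{k-2})(A)` for `k ≥ 2`,
and `c_k = U_k - q U_{k-2}` for `k ≥ 2` (`c = cheb q`). With `D_k = t_k - N_k` for even `k`: `D_2 = 0` and by S2
`D_{k+2} = (q - 1) N_k + q D_k = (q - 1) t_k + D_k`, so `D_k = (q-1) ∑_{2 ≤ j ≤ k-2, j even} t_j`, and
the sum telescopes: `∑_{2 ≤ j ≤ k-2, j even} (U_j - U_{j-2}) = U_{k-2} - 1`. Hence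
`N_k = tr (U_k - U_{k-2} - (q-1)(U_{k-2} - 1))(A) = tr c_k(A) + (q - 1) |V|`.
(Clean induction: prove `D_{2j+2} = (q-1) (tr U_{2j}(A) - |V|)` by induction on `j`.)
-/

noncomputable section

namespace Pool.Agent.H9.Ram.GAct

/-- the polynomials `U_0 = 1`, `U_1 = X`, `U_{k+2} = X U_{k+1} - q U_k` -/
private def s3_U (q : ℕ) : ℕ → Polynomial ℝ
  | 0 => 1
  | 1 => Polynomial.X
  | (k + 2) => Polynomial.X * s3_U q (k + 1) - Polynomial.C (q : ℝ) * s3_U q k

private theorem s3_U_succ (q k : ℕ) :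
    s3_U q (k + 2) = Polynomial.X * s3_U q (k + 1) - Polynomial.C (q : ℝ) * s3_U q k := rfl

private theorem s3_cheb_succ (q k : ℕ) :
    cheb q (k + 2) = Polynomial.X * cheb q (k + 1) - Polynomial.C (q : ℝ) * cheb q k := rfl

private theorem s3_cheb (q k : ℕ) :
    cheb q (k + 2) = s3_U q (k + 2) - Polynomial.C (q : ℝ) * s3_U q k ∧
      cheb q (k + 3) = s3_U q (k + 3) - Polynomial.C (q : ℝ) * s3_U q (k + 1) := by
  induction k with
  | zero =>
    constructor
    · show Polynomial.X * Polynomial.X - Polynomial.C (q : ℝ) * 2 =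
        (Polynomial.X * Polynomial.X - Polynomial.C (q : ℝ) * 1) - Polynomial.C (q : ℝ) * 1
      ring
    · show Polynomial.X * (Polynomial.X * Polynomial.X - Polynomial.C (q : ℝ) * 2) -
        Polynomial.C (q : ℝ) * Polynomial.X =
        (Polynomial.X * (Polynomial.X * Polynomial.X - Polynomial.C (q : ℝ) * 1) -
          Polynomial.C (q : ℝ) * Polynomial.X) - Polynomial.C (q : ℝ) * Polynomial.X
      ring
  | succ k ih =>
    refine ⟨ih.2, ?_⟩
    rw [show k + 1 + 3 = (k + 2) + 2 from rfl, s3_cheb_succ q (k + 2), s3_U_succ q (k + 2)]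
    rw [show k + 2 + 1 = k + 3 from rfl, ih.1, ih.2]
    rw [show k + 1 + 1 = k + 2 from rfl, s3_U_succ q k]
    ring

variable {S V : Type*} [Finite S] [Fintype V] [DecidableEq V] (g : GAct S V)

private theorem s3_Ak (q : ℕ) (hq : Nat.card S = q + 1) (k : ℕ) :
    g.Ak (k + 2) = Polynomial.aeval g.A (s3_U q (k + 2) - s3_U q k) ∧
      g.Ak (k + 3) = Polynomial.aeval g.A (s3_U q (k + 3) - s3_U q (k + 1)) := by
  induction k with
  | zero =>
    have h2 : g.Ak 2 = Polynomial.aeval g.A (s3_U q 2 - s3_U q 0) := by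
      rw [g.Ak_two q hq]
      show _ = Polynomial.aeval g.A
        ((Polynomial.X * Polynomial.X - Polynomial.C (q : ℝ) * 1) - (1 : Polynomial ℝ))
      simp only [map_sub, map_mul, Polynomial.aeval_X, Polynomial.aeval_C, map_one, mul_one,
        Algebra.algebraMap_eq_smul_one]
      rw [add_smul, one_smul]
      abel
    refine ⟨h2, ?_⟩
    rw [g.Ak_succ q hq 1 le_rfl, show 1 + 1 = 2 from rfl, h2, g.Ak_one]
    show _ = Polynomial.aeval g.A
      ((Polynomial.X * s3_U q 2 - Polynomial.C (q : ℝ) * Polynomial.X) - Polynomial.X)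
    show g.A * Polynomial.aeval g.A (s3_U q 2 - 1) - (q : ℝ) • g.A = _
    simp only [map_sub, map_mul, Polynomial.aeval_X, Polynomial.aeval_C, map_one,
      Algebra.algebraMap_eq_smul_one, smul_mul_assoc, one_mul, mul_sub, mul_one]
    abel
  | succ k ih =>
    refine ⟨ih.2, ?_⟩
    rw [show k + 1 + 3 = (k + 2) + 2 from rfl, g.Ak_succ q hq (k + 2) (by omega),
      show k + 2 + 1 = k + 3 from rfl, ih.1, ih.2, s3_U_succ q (k + 2),
      show k + 2 + 1 = k + 3 from rfl, show k + 1 + 1 = k + 2 from rfl]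
    have e : Polynomial.X * s3_U q (k + 3) - Polynomial.C (q : ℝ) * s3_U q (k + 2) -
        s3_U q (k + 2) = Polynomial.X * (s3_U q (k + 3) - s3_U q (k + 1)) -
          Polynomial.C (q : ℝ) * (s3_U q (k + 2) - s3_U q k) := by
      linear_combination (-1 : Polynomial ℝ) * (s3_U_succ q k)
    rw [e]
    simp only [map_sub, map_mul, Polynomial.aeval_X, Polynomial.aeval_C,
      Algebra.algebraMap_eq_smul_one, smul_mul_assoc, one_mul]

private theorem s3_D (q : ℕ) (hq : Nat.card S = q + 1) (j : ℕ) :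
    (g.tk (2 * j + 2) : ℝ) - g.nk (2 * j + 2) =
      ((q : ℝ) - 1) * ((Polynomial.aeval g.A (s3_U q (2 * j))).trace - Fintype.card V) := by
  induction j with
  | zero =>
    show (g.tk 2 : ℝ) - g.nk 2 =
      ((q : ℝ) - 1) * ((Polynomial.aeval g.A (1 : Polynomial ℝ)).trace - Fintype.card V)
    rw [g.nk_two, map_one, Matrix.trace_one]
    ring
  | succ j ih =>
    have h1 := g.tk_sub_nk q hq (2 * j + 2) (by omega)
    have h2 : (g.tk (2 * j + 2 + 2) : ℝ) - g.nk (2 * j + 2 + 2) =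
        ((q : ℝ) - 1) * g.nk (2 * j + 2) + q * ((g.tk (2 * j + 2) : ℝ) - g.nk (2 * j + 2)) := by
      exact_mod_cast h1
    have h3 : (g.tk (2 * j + 2) : ℝ) = (Polynomial.aeval g.A (s3_U q (2 * j + 2))).trace -
        (Polynomial.aeval g.A (s3_U q (2 * j))).trace := by
      rw [← g.trace_Ak, (s3_Ak g q hq (2 * j)).1, map_sub, Matrix.trace_sub]
    have h4 : 2 * (j + 1) = 2 * j + 2 := by ring
    rw [h4, h2, ih]
    have h5 : (g.nk (2 * j + 2) : ℝ) = g.tk (2 * j + 2) -
        ((q : ℝ) - 1) * ((Polynomial.aeval g.A (s3_U q (2 * j))).trace - Fintype.card V) := by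
      linarith
    rw [h5, h3]
    ring

theorem nk_eq_trace (q : ℕ) (hq : Nat.card S = q + 1) (j : ℕ) (hj : 1 ≤ j) :
    (g.nk (2 * j) : ℝ) = (Polynomial.aeval g.A (cheb q (2 * j))).trace +
      ((q : ℝ) - 1) * Fintype.card V := by
  obtain ⟨i, rfl⟩ : ∃ i, j = i + 1 := ⟨j - 1, by omega⟩
  have h0 : 2 * (i + 1) = 2 * i + 2 := by ring
  have h1 := s3_D g q hq i
  have h3 : (g.tk (2 * i + 2) : ℝ) = (Polynomial.aeval g.A (s3_U q (2 * i + 2))).trace -
      (Polynomial.aeval g.A (s3_U q (2 * i))).trace := by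
    rw [← g.trace_Ak, (s3_Ak g q hq (2 * i)).1, map_sub, Matrix.trace_sub]
  have h4 : (Polynomial.aeval g.A (cheb q (2 * i + 2))).trace =
      (Polynomial.aeval g.A (s3_U q (2 * i + 2))).trace -
        (q : ℝ) * (Polynomial.aeval g.A (s3_U q (2 * i))).trace := by
    rw [(s3_cheb q (2 * i)).1, map_sub, map_mul, Polynomial.aeval_C, Matrix.trace_sub,
      Algebra.algebraMap_eq_smul_one, smul_mul_assoc, one_mul, Matrix.trace_smul, smul_eq_mul]
  rw [h0, h4]
  linarith

end Pool.Agent.H9.Ram.GAct
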