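import Pool.Agent.H9.Ram.S0

/-!
# Module S4: Chebyshev polynomials and a trace inequality

* `c_m c_n = c_{m+n} + q^n c_{m-n}` for `n ≤ m` (induction on `n`); so `c_j² = c_{2j} + 2 q^j`.
* `c_j(q + 1) = q^j + 1`.
* For a symmetric real matrix `B` with orthogonal nonzero eigenvectors `v₁, v₂` with eigenvalues `μ₁, μ₂`:
  `μ₁² + μ₂² ≤ tr B²`. Proof: normalize; `B' = B - μ₁ v₁ v₁ᵀ - μ₂ v₂ v₂ᵀ` is symmetric,
  `tr B'^2 = tr B² - μ₁² - μ₂² ≥ 0`.
* growth: if `|λ| > 2 √q` (`q > 0`) then `c_j(λ)² / q^j` is unbounded along the multiples of `e > 0`: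
  `λ = √q (z + z⁻¹)` with `z` real, `|z| > 1`, and `c_j(λ)² = q^j (z^j + z^(-j))²` (`√q ^ j` squared).
-/

open Polynomial

noncomputable section

namespace Pool.Agent.H9.Ram

theorem s4_cheb_mul_aux (q : ℕ) : ∀ n k : ℕ,
    cheb q (n + k) * cheb q n = cheb q (n + n + k) + C ((q : ℝ) ^ n) * cheb q k
  | 0, k => by simp [cheb]; ring
  | 1, k => by
    have h : cheb q (1 + 1 + k) = X * cheb q (k + 1) - C (q : ℝ) * cheb q k := by
      rw [show 1 + 1 + k = k + 2 by ring]; rfl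
    rw [h, show 1 + k = k + 1 by ring, show cheb q 1 = X from rfl, pow_one]
    ring
  | (n + 2), k => by
    have h1 := s4_cheb_mul_aux q (n + 1) (k + 1)
    have h2 := s4_cheb_mul_aux q n (k + 2)
    have e1 : cheb q (n + 2) = X * cheb q (n + 1) - C (q : ℝ) * cheb q n := rfl
    have e2 : cheb q (k + 2) = X * cheb q (k + 1) - C (q : ℝ) * cheb q k := rfl
    have e3 : cheb q (n + 2 + (n + 2) + k) =
        X * cheb q (n + 1 + (n + 1) + (k + 1)) - C (q : ℝ) * cheb q (n + n + (k + 2)) := by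
      rw [show n + 2 + (n + 2) + k = (n + n + (k + 2)) + 2 by ring,
        show n + 1 + (n + 1) + (k + 1) = (n + n + (k + 2)) + 1 by ring]
      rfl
    rw [show n + 1 + (k + 1) = n + 2 + k by ring] at h1
    rw [show n + (k + 2) = n + 2 + k by ring] at h2
    have e4 : (C ((q : ℝ) ^ (n + 1)) : ℝ[X]) = C (q : ℝ) * C ((q : ℝ) ^ n) := by
      rw [← C_mul, pow_succ, mul_comm]
    have e5 : (C ((q : ℝ) ^ (n + 2)) : ℝ[X]) = C (q : ℝ) * (C (q : ℝ) * C ((q : ℝ) ^ n)) := by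
      rw [← C_mul, ← C_mul, pow_add]; congr 1; ring
    rw [e3, e1, e5]
    rw [e4] at h1
    rw [e2] at h2
    calc cheb q (n + 2 + k) * (X * cheb q (n + 1) - C (q : ℝ) * cheb q n)
        = X * (cheb q (n + 2 + k) * cheb q (n + 1)) -
          C (q : ℝ) * (cheb q (n + 2 + k) * cheb q n) := by ring
      _ = _ := by rw [h1, h2]; ring

theorem cheb_mul (q m n : ℕ) (h : n ≤ m) :
    cheb q m * cheb q n = cheb q (m + n) + C ((q : ℝ) ^ n) * cheb q (m - n) := by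
  obtain ⟨k, rfl⟩ := Nat.exists_eq_add_of_le h
  have := s4_cheb_mul_aux q n k
  rw [show n + k + n = n + n + k by ring, Nat.add_sub_cancel_left]
  exact this

theorem cheb_sq (q j : ℕ) : cheb q j ^ 2 = cheb q (2 * j) + C (2 * (q : ℝ) ^ j) := by
  have := cheb_mul q j j le_rfl
  rw [Nat.sub_self, show cheb q 0 = 2 from rfl] at this
  rw [pow_two, this, two_mul j, C_mul]
  congr 1
  rw [mul_comm]
  congr 1

theorem s4_cheb_eval_top (q : ℕ) : ∀ j : ℕ, (cheb q j).eval ((q : ℝ) + 1) = (q : ℝ) ^ j + 1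
  | 0 => by
    rw [show cheb q 0 = 2 from rfl]
    norm_num
  | 1 => by
    rw [show cheb q 1 = X from rfl]
    simp
  | (j + 2) => by
    rw [show cheb q (j + 2) = X * cheb q (j + 1) - C (q : ℝ) * cheb q j from rfl]
    rw [eval_sub, eval_mul, eval_mul, eval_X, eval_C, s4_cheb_eval_top q (j + 1),
      s4_cheb_eval_top q j]
    ring

theorem cheb_eval_top (q j : ℕ) : (cheb q j).eval ((q : ℝ) + 1) = (q : ℝ) ^ j + 1 :=
  s4_cheb_eval_top q j

theorem s4_quad {V : Type*} [Fintype V] (B : Matrix V V ℝ) (v : V → ℝ) (μ : ℝ)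
    (he : B.mulVec v = μ • v) : ∑ x, ∑ y, B x y * v x * v y = μ * ∑ x, v x * v x := by
  rw [Finset.mul_sum]
  refine Finset.sum_congr rfl fun x _ => ?_
  have h := congrFun he x
  simp only [Matrix.mulVec, dotProduct, Pi.smul_apply, smul_eq_mul] at h
  calc ∑ y, B x y * v x * v y = v x * ∑ y, B x y * v y := by
        rw [Finset.mul_sum]; exact Finset.sum_congr rfl fun y _ => by ring
    _ = μ * (v x * v x) := by rw [h]; ring

theorem sq_add_sq_le_trace {V : Type*} [Fintype V] [DecidableEq V] (B : Matrix V V ℝ)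
    (hB : B.transpose = B) (v₁ v₂ : V → ℝ) (h₁ : v₁ ≠ 0) (h₂ : v₂ ≠ 0)
    (horth : ∑ x, v₁ x * v₂ x = 0) (μ₁ μ₂ : ℝ) (he₁ : B.mulVec v₁ = μ₁ • v₁)
    (he₂ : B.mulVec v₂ = μ₂ • v₂) : μ₁ ^ 2 + μ₂ ^ 2 ≤ (B * B).trace := by
  have hpos : ∀ v : V → ℝ, v ≠ 0 → 0 < ∑ x, v x * v x := by
    intro v hv
    obtain ⟨x, hx⟩ := Function.ne_iff.1 hv
    refine Finset.sum_pos' (fun y _ => mul_self_nonneg _) ⟨x, Finset.mem_univ _, ?_⟩
    exact mul_self_pos.2 hx
  have htr : (B * B).trace = ∑ x, ∑ y, B x y * B x y := by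
    simp only [Matrix.trace, Matrix.diag, Matrix.mul_apply]
    refine Finset.sum_congr rfl fun x _ => Finset.sum_congr rfl fun y _ => ?_
    have : B y x = B x y := by
      conv_lhs => rw [← hB]
      rfl
    rw [this]
  set n₁ : ℝ := ∑ x, v₁ x * v₁ x with hn₁
  set n₂ : ℝ := ∑ x, v₂ x * v₂ x with hn₂
  have hp₁ : 0 < n₁ := hpos v₁ h₁
  have hp₂ : 0 < n₂ := hpos v₂ h₂
  set a : ℝ := μ₁ / n₁ with ha
  set b : ℝ := μ₂ / n₂ with hb
  have ha' : a * n₁ = μ₁ := div_mul_cancel₀ _ hp₁.ne'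
  have hb' : b * n₂ = μ₂ := div_mul_cancel₀ _ hp₂.ne'
  have q₁ := s4_quad B v₁ μ₁ he₁
  have q₂ := s4_quad B v₂ μ₂ he₂
  rw [← hn₁] at q₁
  rw [← hn₂] at q₂
  have hprod : ∀ f g h k : V → ℝ, ∑ x, ∑ y, f x * g y * (h x * k y) =
      (∑ x, f x * h x) * ∑ y, g y * k y := by
    intro f g h k
    rw [Finset.sum_mul_sum]
    exact Finset.sum_congr rfl fun x _ => Finset.sum_congr rfl fun y _ => by ring
  have hexp : ∑ x, ∑ y, (B x y - a * (v₁ x * v₁ y) - b * (v₂ x * v₂ y)) ^ 2 =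
      (∑ x, ∑ y, B x y * B x y) - 2 * a * (∑ x, ∑ y, B x y * v₁ x * v₁ y)
        - 2 * b * (∑ x, ∑ y, B x y * v₂ x * v₂ y)
        + a ^ 2 * (∑ x, ∑ y, v₁ x * v₁ y * (v₁ x * v₁ y))
        + b ^ 2 * (∑ x, ∑ y, v₂ x * v₂ y * (v₂ x * v₂ y))
        + 2 * a * b * (∑ x, ∑ y, v₁ x * v₁ y * (v₂ x * v₂ y)) := by
    simp only [Finset.mul_sum, ← Finset.sum_add_distrib, ← Finset.sum_sub_distrib]
    exact Finset.sum_congr rfl fun x _ => Finset.sum_congr rfl fun y _ => by ring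
  rw [hprod, hprod, hprod, horth, q₁, q₂, ← hn₁, ← hn₂, ← htr] at hexp
  have hnn : 0 ≤ ∑ x, ∑ y, (B x y - a * (v₁ x * v₁ y) - b * (v₂ x * v₂ y)) ^ 2 :=
    Finset.sum_nonneg fun x _ => Finset.sum_nonneg fun y _ => sq_nonneg _
  rw [hexp] at hnn
  have e : (B * B).trace - 2 * a * (μ₁ * n₁) - 2 * b * (μ₂ * n₂) + a ^ 2 * (n₁ * n₁) +
      b ^ 2 * (n₂ * n₂) + 2 * a * b * (0 * 0) =
      (B * B).trace - 2 * μ₁ * (a * n₁) - 2 * μ₂ * (b * n₂) + (a * n₁) ^ 2 + (b * n₂) ^ 2 := by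
    ring
  rw [e, ha', hb'] at hnn
  nlinarith

theorem aeval_mulVec {V : Type*} [Fintype V] [DecidableEq V] (B : Matrix V V ℝ) (v : V → ℝ) (μ : ℝ)
    (he : B.mulVec v = μ • v) (f : ℝ[X]) : (aeval B f).mulVec v = f.eval μ • v := by
  have hpow : ∀ n : ℕ, (B ^ n).mulVec v = μ ^ n • v := by
    intro n
    induction n with
    | zero => simp
    | succ n ih =>
      rw [pow_succ, ← Matrix.mulVec_mulVec, he, Matrix.mulVec_smul, ih, smul_smul, pow_succ,
        mul_comm]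
  induction f using Polynomial.induction_on' with
  | add p r hp hr => rw [map_add, Matrix.add_mulVec, hp, hr, eval_add, add_smul]
  | monomial n a =>
    rw [aeval_monomial, eval_monomial, ← Algebra.smul_def, Matrix.smul_mulVec, hpow, smul_smul]

theorem aeval_transpose {V : Type*} [Fintype V] [DecidableEq V] (B : Matrix V V ℝ)
    (hB : B.transpose = B) (f : ℝ[X]) : (aeval B f).transpose = aeval B f := by
  induction f using Polynomial.induction_on' with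
  | add p r hp hr => rw [map_add, Matrix.transpose_add, hp, hr]
  | monomial n a =>
    rw [aeval_monomial, ← Algebra.smul_def, Matrix.transpose_smul, Matrix.transpose_pow, hB]

theorem s4_cheb_roots (q : ℕ) (lam α β : ℝ) (hs : α + β = lam) (hp : α * β = q) :
    ∀ j : ℕ, (cheb q j).eval lam = α ^ j + β ^ j
  | 0 => by
    rw [show cheb q 0 = 2 from rfl]
    norm_num
  | 1 => by
    rw [show cheb q 1 = X from rfl]
    simp [hs]
  | (j + 2) => by
    rw [show cheb q (j + 2) = X * cheb q (j + 1) - C (q : ℝ) * cheb q j from rfl]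
    rw [eval_sub, eval_mul, eval_mul, eval_X, eval_C, s4_cheb_roots q lam α β hs hp (j + 1),
      s4_cheb_roots q lam α β hs hp j, ← hs, ← hp]
    ring

theorem s4_growth (q r M : ℝ) (hq : 0 < q) (hr : q < r) (e : ℕ) (he : 0 < e) :
    ∃ j : ℕ, 0 < j ∧ e ∣ j ∧ M * q ^ j < r ^ j := by
  have h1 : 1 < (r / q) ^ e := one_lt_pow₀ ((one_lt_div hq).2 hr) he.ne'
  obtain ⟨n, hn⟩ := pow_unbounded_of_one_lt (max M 1) h1
  have hn0 : n ≠ 0 := by
    rintro rfl
    rw [pow_zero] at hn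
    exact absurd hn (not_lt.2 (le_max_right _ _))
  refine ⟨e * n, Nat.mul_pos he (Nat.pos_of_ne_zero hn0), Dvd.intro _ rfl, ?_⟩
  rw [← pow_mul] at hn
  have h2 : M < (r / q) ^ (e * n) := lt_of_le_of_lt (le_max_left _ _) hn
  rw [div_pow, lt_div_iff₀ (pow_pos hq _)] at h2
  exact h2

theorem le_of_cheb_bounded (q e : ℕ) (hq : 0 < q) (he : 0 < e) (lam M : ℝ)
    (h : ∀ j : ℕ, 0 < j → e ∣ j → ((cheb q j).eval lam) ^ 2 ≤ M * (q : ℝ) ^ j) :
    |lam| ≤ 2 * √(q : ℝ) := by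
  by_contra hcon
  push Not at hcon
  have hq' : (0 : ℝ) < q := by exact_mod_cast hq
  have hsq : √(q : ℝ) * √(q : ℝ) = q := Real.mul_self_sqrt hq'.le
  have hl : 4 * (q : ℝ) < lam ^ 2 := by
    have h1 : (2 * √(q : ℝ)) ^ 2 < |lam| ^ 2 :=
      pow_lt_pow_left₀ hcon (by positivity) (by norm_num)
    rw [sq_abs] at h1
    nlinarith
  set D : ℝ := √(lam ^ 2 - 4 * q) with hD
  have hD2 : D * D = lam ^ 2 - 4 * q := Real.mul_self_sqrt (by linarith)
  set α : ℝ := (lam + D) / 2 with hα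
  set β : ℝ := (lam - D) / 2 with hβ
  have hs : α + β = lam := by rw [hα, hβ]; ring
  have hp : α * β = q := by rw [hα, hβ]; nlinarith
  have hroots := s4_cheb_roots q lam α β hs hp
  have hsum : 2 * (q : ℝ) < α ^ 2 + β ^ 2 := by
    have : (α + β) ^ 2 = lam ^ 2 := by rw [hs]
    nlinarith
  have hexp : ∀ j : ℕ, ((cheb q j).eval lam) ^ 2 = (α ^ 2) ^ j + (β ^ 2) ^ j + 2 * (q : ℝ) ^ j := by
    intro j
    rw [hroots, ← hp, mul_pow, ← pow_mul, ← pow_mul, mul_comm 2 j, pow_mul, pow_mul]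
    ring
  have hqj : ∀ j : ℕ, 0 ≤ (q : ℝ) ^ j := fun j => pow_nonneg hq'.le _
  have ha : ∀ j : ℕ, 0 ≤ (α ^ 2) ^ j := fun j => pow_nonneg (sq_nonneg _) _
  have hb : ∀ j : ℕ, 0 ≤ (β ^ 2) ^ j := fun j => pow_nonneg (sq_nonneg _) _
  by_cases hc : (q : ℝ) < α ^ 2
  · obtain ⟨j, hj0, hej, hj⟩ := s4_growth q (α ^ 2) M hq' hc e he
    have h1 := h j hj0 hej
    rw [hexp] at h1
    linarith [hqj j, hb j]
  · have hc' : (q : ℝ) < β ^ 2 := by linarith [not_lt.1 hc]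
    obtain ⟨j, hj0, hej, hj⟩ := s4_growth q (β ^ 2) M hq' hc' e he
    have h1 := h j hj0 hej
    rw [hexp] at h1
    linarith [hqj j, ha j]

end Pool.Agent.H9.Ram
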