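import Pool.Agent.H9.Ram.S3
import Pool.Agent.H9.Ram.S4

/-!
# Module S5: from the count to the spectral bound

Let `f ≠ 0`, `∑ f = 0`, `A f = λ f`. For `j > 0` with `e ∣ j`: `B = c_j(A)` is symmetric, `B² = c_{2j}(A) + 2 q^j`,
so `tr B² = N_{2j} - (q-1)|V| + 2 q^j |V| ≤ q^(2j) + (C + 2|V|) q^j`; `B 1 = (q^j + 1) 1` (`A 1 = (q+1) 1`)
and `B f = c_j(λ) f`; by S4 `(q^j+1)² + c_j(λ)² ≤ tr B²`; so `c_j(λ)² ≤ (C + 2 |V|) q^j` (with `q ≥ 1`) and
`le_of_cheb_bounded` applies.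
-/

noncomputable section

namespace Pool.Agent.H9.Ram.GAct

theorem spectral_bound {S V : Type*} [Fintype S] [Fintype V] (g : GAct S V) (q e : ℕ) (hq : 1 ≤ q)
    (he : 0 < e) (hS : Fintype.card S = q + 1) (C : ℝ)
    (hN : ∀ j : ℕ, 0 < j → e ∣ j → (g.nk (2 * j) : ℝ) ≤ (q : ℝ) ^ (2 * j) + C * (q : ℝ) ^ j)
    (f : V → ℝ) (lam : ℝ) (hf : f ≠ 0) (hsum : ∑ x, f x = 0)
    (hlam : ∀ x, ∑ s : S, f (g.act s x) = lam * f x) : |lam| ≤ 2 * √(q : ℝ) := by
  classical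
  have hcard : Nat.card S = q + 1 := by rw [Nat.card_eq_fintype_card, hS]
  have hV : Nonempty V := by
    by_contra hV
    rw [not_nonempty_iff] at hV
    exact hf (Subsingleton.elim _ _)
  have hAf : g.A.mulVec f = lam • f := by
    funext x
    rw [g.A_mulVec f x, hlam x]
    rfl
  have hA1 : g.A.mulVec (fun _ => (1 : ℝ)) = ((q : ℝ) + 1) • (fun _ => (1 : ℝ)) := by
    funext x
    rw [g.A_mulVec (fun _ => (1 : ℝ)) x]
    simp [hS]
  have h1 : (fun _ : V => (1 : ℝ)) ≠ 0 := by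
    intro h
    obtain ⟨x⟩ := hV
    have := congrFun h x
    simp at this
  refine le_of_cheb_bounded q e (by omega) he lam (C + 2 * Fintype.card V) ?_
  intro j hj hej
  set B := Polynomial.aeval g.A (cheb q j) with hB
  have hBt : B.transpose = B := aeval_transpose g.A g.A_symm _
  have hB1 : B.mulVec (fun _ => (1 : ℝ)) = ((q : ℝ) ^ j + 1) • (fun _ => (1 : ℝ)) := by
    have := aeval_mulVec g.A (fun _ => (1 : ℝ)) _ hA1 (cheb q j)
    rw [cheb_eval_top] at this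
    exact this
  have hBf : B.mulVec f = ((cheb q j).eval lam) • f := aeval_mulVec g.A f _ hAf (cheb q j)
  have horth : ∑ x, (fun _ : V => (1 : ℝ)) x * f x = 0 := by simpa using hsum
  have hineq := sq_add_sq_le_trace B hBt (fun _ => (1 : ℝ)) f h1 hf horth _ _ hB1 hBf
  have hBB : B * B = Polynomial.aeval g.A (cheb q (2 * j)) + (2 * (q : ℝ) ^ j) • (1 : Matrix V V ℝ) := by
    rw [hB, ← map_mul, ← pow_two, cheb_sq, map_add, Polynomial.aeval_C, Algebra.algebraMap_eq_smul_one]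
  have htr : (B * B).trace = (g.nk (2 * j) : ℝ) - ((q : ℝ) - 1) * Fintype.card V
      + 2 * (q : ℝ) ^ j * Fintype.card V := by
    rw [hBB, Matrix.trace_add, Matrix.trace_smul, Matrix.trace_one, g.nk_eq_trace q hcard j hj]
    simp only [smul_eq_mul]
    ring
  rw [htr] at hineq
  have hN' := hN j hj hej
  have hq1 : (1 : ℝ) ≤ q := by exact_mod_cast hq
  have hqj : (0 : ℝ) < (q : ℝ) ^ j := pow_pos (by linarith) j
  have hVn : (0 : ℝ) ≤ (Fintype.card V : ℝ) := Nat.cast_nonneg _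
  have h2j : (q : ℝ) ^ (2 * j) = ((q : ℝ) ^ j) ^ 2 := by rw [mul_comm, pow_mul]
  rw [h2j] at hN'
  nlinarith [mul_nonneg (sub_nonneg.2 hq1) hVn]

end Pool.Agent.H9.Ram.GAct
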