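import Pool.Agent.H9.Ram.Tw

/-!
# Module T1: degrees and lowest terms in `R{τ}`, `R` a domain

Everything follows from `Tw.coeff_mul` (sum over the antidiagonal): the coefficient of `f * g` at
`natDegree f + natDegree g` is `f.coeff (natDegree f) * (g.coeff (natDegree g)) ^ (q ^ natDegree f)`,
and at `ord f + ord g` it is `f.coeff (ord f) * (g.coeff (ord g)) ^ (q ^ ord f)`; in a domain these
are nonzero if `f` and `g` are nonzero.
-/

noncomputable section

namespace Pool.Agent.H9.Ram.Tw

variable {F R : Type*} [Field F] [Fintype F] [CommRing R] [Algebra F R]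

theorem natDegree_add_le_of_le {f g : Tw F R} {N : ℕ} (hf : f.natDegree ≤ N)
    (hg : g.natDegree ≤ N) : (f + g).natDegree ≤ N := by
  rw [natDegree_le_iff] at *
  intro n hn
  rw [coeff_add, hf n hn, hg n hn, add_zero]

theorem natDegree_sub_le_of_le {f g : Tw F R} {N : ℕ} (hf : f.natDegree ≤ N)
    (hg : g.natDegree ≤ N) : (f - g).natDegree ≤ N := by
  rw [natDegree_le_iff] at *
  intro n hn
  rw [coeff_sub, hf n hn, hg n hn, sub_zero]

theorem natDegree_mul_le (f g : Tw F R) : (f * g).natDegree ≤ f.natDegree + g.natDegree := by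
  rw [natDegree_le_iff]
  intro n hn
  rw [coeff_mul]
  refine Finset.sum_eq_zero fun p hp => ?_
  rw [Finset.HasAntidiagonal.mem_antidiagonal] at hp
  by_cases h1 : f.natDegree < p.1
  · rw [coeff_eq_zero_of_natDegree_lt h1, zero_mul]
  · rw [coeff_eq_zero_of_natDegree_lt (show g.natDegree < p.2 by omega), map_zero, mul_zero]

theorem natDegree_C (a : R) : (C a : Tw F R).natDegree = 0 := by
  rw [← Nat.le_zero, natDegree_le_iff]
  intro n hn
  rw [coeff_C, if_neg (by omega)]

theorem natDegree_T_pow [Nontrivial R] (n : ℕ) : (T ^ n : Tw F R).natDegree = n := by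
  apply le_antisymm
  · rw [natDegree_le_iff]
    intro m hm
    rw [coeff_T_pow, if_neg (by omega)]
  · by_contra hcon
    have h1 := coeff_eq_zero_of_natDegree_lt (not_le.1 hcon)
    rw [coeff_T_pow, if_pos rfl] at h1
    exact one_ne_zero h1

theorem coeff_natDegree_ne_zero {f : Tw F R} (h : f ≠ 0) : f.coeff f.natDegree ≠ 0 := by
  have h1 : f.poly ≠ 0 := fun h2 => h (poly_injective h2)
  exact Polynomial.leadingCoeff_ne_zero.2 h1

theorem le_natDegree_of_coeff_ne_zero {f : Tw F R} {n : ℕ} (h : f.coeff n ≠ 0) :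
    n ≤ f.natDegree := by
  by_contra hcon
  exact h (coeff_eq_zero_of_natDegree_lt (not_le.1 hcon))

/-- The top coefficient of a product (also when the degrees are only bounds). -/
theorem coeff_mul_of_le {f g : Tw F R} {A B : ℕ} (hf : f.natDegree ≤ A) (hg : g.natDegree ≤ B) :
    (f * g).coeff (A + B) = f.coeff A * (g.coeff B) ^ (Fintype.card F ^ A) := by
  rw [coeff_mul, Finset.sum_eq_single (A, B)]
  · rw [fr_apply]
  · rintro ⟨i, j⟩ hp hne
    rw [Finset.HasAntidiagonal.mem_antidiagonal] at hp
    have hp' : i + j = A + B := hp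
    rcases lt_trichotomy i A with h | h | h
    · rw [coeff_eq_zero_of_natDegree_lt (show g.natDegree < j by omega), map_zero, mul_zero]
    · exfalso
      apply hne
      rw [h, show j = B by omega]
    · rw [coeff_eq_zero_of_natDegree_lt (show f.natDegree < i by omega), zero_mul]
  · intro h
    exact (h (Finset.HasAntidiagonal.mem_antidiagonal.2 (by rfl))).elim

instance [Nontrivial R] : Nontrivial (Tw F R) := by
  refine ⟨⟨0, 1, fun h => ?_⟩⟩
  have h1 : (0 : Tw F R).coeff 0 = (1 : Tw F R).coeff 0 := by rw [h]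
  rw [coeff_zero', coeff_one, if_pos rfl] at h1
  exact zero_ne_one h1

private theorem t1_mul_coeff_ne_zero [IsDomain R] {f g : Tw F R} (hf : f ≠ 0) (hg : g ≠ 0) :
    (f * g).coeff (f.natDegree + g.natDegree) ≠ 0 := by
  rw [coeff_mul_of_le le_rfl le_rfl]
  exact mul_ne_zero (coeff_natDegree_ne_zero hf) (pow_ne_zero _ (coeff_natDegree_ne_zero hg))

instance [IsDomain R] : NoZeroDivisors (Tw F R) := by
  refine ⟨fun {f g} h => ?_⟩
  by_contra hcon
  push Not at hcon
  apply t1_mul_coeff_ne_zero hcon.1 hcon.2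
  rw [h, coeff_zero']

theorem natDegree_mul [IsDomain R] {f g : Tw F R} (hf : f ≠ 0) (hg : g ≠ 0) :
    (f * g).natDegree = f.natDegree + g.natDegree :=
  le_antisymm (natDegree_mul_le f g) (le_natDegree_of_coeff_ne_zero (t1_mul_coeff_ne_zero hf hg))

private theorem t1_natDegree_one : (1 : Tw F R).natDegree = 0 := by
  rw [← Nat.le_zero, natDegree_le_iff]
  intro n hn
  rw [coeff_one, if_neg (by omega)]

private theorem t1_natDegree_zero : (0 : Tw F R).natDegree = 0 := by
  rw [← Nat.le_zero, natDegree_le_iff]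
  intro n _
  rw [coeff_zero']

theorem natDegree_pow [IsDomain R] (f : Tw F R) (n : ℕ) : (f ^ n).natDegree = n * f.natDegree := by
  by_cases hf : f = 0
  · subst hf
    rcases Nat.eq_zero_or_pos n with rfl | hn
    · rw [pow_zero, t1_natDegree_one, zero_mul]
    · rw [zero_pow hn.ne', t1_natDegree_zero, mul_zero]
  · induction n with
    | zero => rw [pow_zero, t1_natDegree_one, zero_mul]
    | succ n ih => rw [pow_succ, natDegree_mul (pow_ne_zero n hf) hf, ih, add_mul, one_mul]

/-- The lowest index with nonzero coefficient (`0` for the zero element). -/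
def ord (f : Tw F R) : ℕ := sInf {n | f.coeff n ≠ 0}

theorem coeff_ord_ne_zero {f : Tw F R} (h : f ≠ 0) : f.coeff (ord f) ≠ 0 := by
  have h1 : ({n | f.coeff n ≠ 0} : Set ℕ).Nonempty := ⟨f.natDegree, coeff_natDegree_ne_zero h⟩
  exact Nat.sInf_mem h1

theorem coeff_eq_zero_of_lt_ord {f : Tw F R} {n : ℕ} (h : n < ord f) : f.coeff n = 0 := by
  by_contra hcon
  have h1 : ord f ≤ n := Nat.sInf_le hcon
  omega

private theorem t1_le_ord {f : Tw F R} {n : ℕ} (hf : f ≠ 0) (h : ∀ m < n, f.coeff m = 0) :
    n ≤ ord f := by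
  by_contra hcon
  exact coeff_ord_ne_zero hf (h _ (not_le.1 hcon))

private theorem t1_ord_le {f : Tw F R} {n : ℕ} (h : f.coeff n ≠ 0) : ord f ≤ n :=
  Nat.sInf_le h

theorem ord_mul [IsDomain R] {f g : Tw F R} (hf : f ≠ 0) (hg : g ≠ 0) :
    ord (f * g) = ord f + ord g := by
  apply le_antisymm
  · apply t1_ord_le
    rw [coeff_mul, Finset.sum_eq_single (ord f, ord g)]
    · rw [fr_apply]
      exact mul_ne_zero (coeff_ord_ne_zero hf) (pow_ne_zero _ (coeff_ord_ne_zero hg))
    · rintro ⟨i, j⟩ hp hne
      rw [Finset.HasAntidiagonal.mem_antidiagonal] at hp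
      have hp' : i + j = ord f + ord g := hp
      rcases lt_trichotomy i (ord f) with h | h | h
      · rw [coeff_eq_zero_of_lt_ord h, zero_mul]
      · exfalso
        apply hne
        rw [h, show j = ord g by omega]
      · rw [coeff_eq_zero_of_lt_ord (show j < ord g by omega), map_zero, mul_zero]
    · intro h
      exact (h (Finset.HasAntidiagonal.mem_antidiagonal.2 (by rfl))).elim
  · apply t1_le_ord (mul_ne_zero hf hg)
    intro m hm
    rw [coeff_mul]
    refine Finset.sum_eq_zero fun p hp => ?_
    rw [Finset.HasAntidiagonal.mem_antidiagonal] at hp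
    by_cases h1 : p.1 < ord f
    · rw [coeff_eq_zero_of_lt_ord h1, zero_mul]
    · rw [coeff_eq_zero_of_lt_ord (show p.2 < ord g by omega), map_zero, mul_zero]

private theorem t1_ord_one [Nontrivial R] : ord (1 : Tw F R) = 0 := by
  rw [← Nat.le_zero]
  apply t1_ord_le
  rw [coeff_one, if_pos rfl]
  exact one_ne_zero

private theorem t1_ord_zero : ord (0 : Tw F R) = 0 := by
  unfold ord
  simp

theorem ord_pow [IsDomain R] (f : Tw F R) (n : ℕ) : ord (f ^ n) = n * ord f := by
  by_cases hf : f = 0
  · subst hf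
    rcases Nat.eq_zero_or_pos n with rfl | hn
    · rw [pow_zero, t1_ord_one, zero_mul]
    · rw [zero_pow hn.ne', t1_ord_zero, mul_zero]
  · induction n with
    | zero => rw [pow_zero, t1_ord_one, zero_mul]
    | succ n ih => rw [pow_succ, ord_mul (pow_ne_zero n hf) hf, ih, add_mul, one_mul]

theorem coeff_mul_zero (f g : Tw F R) : (f * g).coeff 0 = f.coeff 0 * g.coeff 0 := by
  rw [coeff_mul, Finset.Nat.antidiagonal_zero, Finset.sum_singleton, fr_zero]

/-- the constant coefficient as a morphism of algebras -/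
private def t1_coeffZero : Tw F R →ₐ[F] R where
  toFun f := f.coeff 0
  map_one' := by rw [coeff_one, if_pos rfl]
  map_mul' := coeff_mul_zero
  map_zero' := coeff_zero' 0
  map_add' f g := coeff_add f g 0
  commutes' r := by
    rw [algebraMap_apply]
    exact coeff_C_zero _

/-- The constant coefficient of `a(P)` is `a(P.coeff 0)`. -/
theorem coeff_aeval_zero (P : Tw F R) (a : Polynomial F) :
    (Polynomial.aeval P a).coeff 0 = Polynomial.aeval (P.coeff 0) a :=
  (Polynomial.aeval_algHom_apply (t1_coeffZero (F := F) (R := R)) P a).symm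

private theorem t1_coeff_aeval (P : Tw F R) (a : Polynomial F) (n : ℕ) :
    (Polynomial.aeval P a).coeff n =
      ∑ i ∈ Finset.range (a.natDegree + 1), algebraMap F R (a.coeff i) * (P ^ i).coeff n := by
  rw [Polynomial.aeval_eq_sum_range, coeff_sum]
  exact Finset.sum_congr rfl fun i _ => coeff_smul _ _ _

private theorem t1_coeff_aeval_top [IsDomain R] (P : Tw F R) (hP : 0 < P.natDegree)
    (a : Polynomial F) (ha : a ≠ 0) :
    (Polynomial.aeval P a).coeff (a.natDegree * P.natDegree) ≠ 0 := by
  have hP0 : P ≠ 0 := by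
    rintro rfl
    rw [t1_natDegree_zero] at hP
    exact lt_irrefl _ hP
  rw [t1_coeff_aeval, Finset.sum_range_succ, Finset.sum_eq_zero, zero_add]
  · apply mul_ne_zero
    · intro h
      have h1 : a.coeff a.natDegree = 0 :=
        (FaithfulSMul.algebraMap_injective F R) (by rw [h, map_zero])
      exact ha (Polynomial.leadingCoeff_eq_zero.1 h1)
    · rw [← natDegree_pow]
      exact coeff_natDegree_ne_zero (pow_ne_zero _ hP0)
  · intro i hi
    have hi' := Finset.mem_range.1 hi
    rw [coeff_eq_zero_of_natDegree_lt, mul_zero]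
    rw [natDegree_pow]
    exact Nat.mul_lt_mul_of_pos_right hi' hP

/-- Degree of `a(P)` for `P` of degree `D` with unit leading coefficient (domain). -/
theorem natDegree_aeval [IsDomain R] (P : Tw F R) (hP : 0 < P.natDegree) (a : Polynomial F) :
    (Polynomial.aeval P a).natDegree = a.natDegree * P.natDegree := by
  by_cases ha : a = 0
  · subst ha
    rw [map_zero, t1_natDegree_zero, Polynomial.natDegree_zero, zero_mul]
  · apply le_antisymm
    · rw [natDegree_le_iff]
      intro n hn
      rw [t1_coeff_aeval]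
      refine Finset.sum_eq_zero fun i hi => ?_
      have hi' := Finset.mem_range.1 hi
      rw [coeff_eq_zero_of_natDegree_lt, mul_zero]
      rw [natDegree_pow]
      exact lt_of_le_of_lt (Nat.mul_le_mul_right _ (by omega)) hn
    · exact le_natDegree_of_coeff_ne_zero (t1_coeff_aeval_top P hP a ha)

/-- `a(P) = 0` only for `a = 0` if `P` has positive degree. -/
theorem aeval_eq_zero_iff [IsDomain R] (P : Tw F R) (hP : 0 < P.natDegree) (a : Polynomial F) :
    Polynomial.aeval P a = 0 ↔ a = 0 := by
  constructor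
  · intro h
    by_contra ha
    apply t1_coeff_aeval_top P hP a ha
    rw [h, coeff_zero']
  · rintro rfl
    exact map_zero _

/-- An element with coefficients fixed by `x ↦ x ^ (q ^ j)` commutes with `τ ^ j`, and conversely. -/
theorem T_pow_mul_comm_iff (j : ℕ) (f : Tw F R) :
    T ^ j * f = f * T ^ j ↔ ∀ i, (f.coeff i) ^ (Fintype.card F ^ j) = f.coeff i := by
  constructor
  · intro h i
    have h1 : (T ^ j * f).coeff (i + j) = (f * T ^ j).coeff (i + j) := by rw [h]
    rw [coeff_T_pow_mul, coeff_mul_T_pow, if_pos (by omega), if_pos (by omega),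
      Nat.add_sub_cancel, fr_apply] at h1
    exact h1
  · intro h
    apply ext_coeff
    intro n
    rw [coeff_T_pow_mul, coeff_mul_T_pow]
    split_ifs
    · rw [fr_apply, h]
    · rfl

theorem natDegree_map_of_injective {S : Type*} [CommRing S] [Algebra F S] (φ : R →ₐ[F] S)
    (hφ : Function.Injective φ) (f : Tw F R) : (map φ f).natDegree = f.natDegree :=
  Polynomial.natDegree_map_eq_of_injective (f := (φ : R →+* S)) hφ f.poly

theorem map_injective {S : Type*} [CommRing S] [Algebra F S] (φ : R →ₐ[F] S)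
    (hφ : Function.Injective φ) : Function.Injective (map (F := F) φ) := by
  intro f g h
  apply ext_coeff
  intro n
  apply hφ
  rw [← coeff_map, ← coeff_map, h]

end Pool.Agent.H9.Ram.Tw
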