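import Pool.Agent.H9.Ram.T1

/-!
# Module T2: right division in `R{τ}`

If the leading coefficient of `P` (degree `D`) is a unit, every `f` is uniquely `h * P + r` with
`r` of degree `< D` (all coefficients of index `≥ D` vanish): subtract
`C (f_n * (P_D ^ (q ^ (n - D)))⁻¹) * T ^ (n - D) * P` and use induction on the degree.
Note `(C x * T ^ i * P).coeff (i + D) = x * (P_D) ^ (q ^ i)`.
-/

noncomputable section

namespace Pool.Agent.H9.Ram.Tw

variable {F R : Type*} [Field F] [Fintype F] [CommRing R] [Algebra F R]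

theorem t2_coeff (c : R) (i : ℕ) (P : Tw F R) (n : ℕ) :
    (C c * T ^ i * P).coeff n = c * (if i ≤ n then fr F i (P.coeff (n - i)) else 0) := by
  rw [mul_assoc, coeff_C_mul, coeff_T_pow_mul]

theorem t2_div_aux (P : Tw F R) (D : ℕ) (hD : P.natDegree ≤ D) (hu : IsUnit (P.coeff D)) (N : ℕ) :
    ∀ f : Tw F R, (∀ n, N ≤ n → f.coeff n = 0) → ∃ h r : Tw F R, f = h * P + r ∧
      (∀ n, D ≤ n → r.coeff n = 0) ∧ (∀ n, N - D ≤ n → h.coeff n = 0) := by
  induction N with
  | zero =>
    intro f hf
    exact ⟨0, f, by simp, fun n _ => hf n (Nat.zero_le n), fun n _ => coeff_zero' n⟩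
  | succ M ih =>
    intro f hf
    rcases Nat.lt_or_ge M D with hM | hM
    · exact ⟨0, f, by simp, fun n hn => hf n (by omega), fun n _ => coeff_zero' n⟩
    · have hu2 : IsUnit (fr F (M - D) (P.coeff D)) := hu.map (fr F (M - D))
      obtain ⟨v, hv⟩ := hu2.exists_left_inv
      obtain ⟨h, r, hfg, hr, hh⟩ := ih (f - C (f.coeff M * v) * T ^ (M - D) * P) (by
        intro n hn
        rw [coeff_sub, t2_coeff]
        rcases Nat.eq_or_lt_of_le hn with rfl | hlt
        · rw [if_pos (by omega), show M - (M - D) = D by omega, mul_assoc, hv, mul_one, sub_self]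
        · rw [if_pos (by omega), coeff_eq_zero_of_natDegree_lt (f := P) (by omega), map_zero,
            mul_zero, sub_zero]
          exact hf n hlt)
      refine ⟨C (f.coeff M * v) * T ^ (M - D) + h, r, ?_, hr, ?_⟩
      · rw [add_mul, add_assoc, ← hfg]
        abel
      · intro n hn
        rw [coeff_add, coeff_C_mul, coeff_T_pow, if_neg (by omega), mul_zero, zero_add]
        exact hh n (by omega)

theorem exists_right_div (P : Tw F R) (D : ℕ) (hD : P.natDegree ≤ D) (hu : IsUnit (P.coeff D))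
    (f : Tw F R) : ∃ h r : Tw F R, f = h * P + r ∧ (∀ n, D ≤ n → r.coeff n = 0) ∧
      h.natDegree ≤ f.natDegree - D := by
  obtain ⟨h, r, h1, h2, h3⟩ := t2_div_aux P D hD hu (f.natDegree + 1) f
    (fun n hn => coeff_eq_zero_of_natDegree_lt (by omega))
  exact ⟨h, r, h1, h2, natDegree_le_iff.2 fun n hn => h3 n (by omega)⟩

theorem right_div_unique [IsDomain R] (P : Tw F R) (D : ℕ) (hD : P.natDegree ≤ D)
    (hu : IsUnit (P.coeff D)) (h h' r r' : Tw F R) (heq : h * P + r = h' * P + r')
    (hr : ∀ n, D ≤ n → r.coeff n = 0) (hr' : ∀ n, D ≤ n → r'.coeff n = 0) :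
    h = h' ∧ r = r' := by
  have h1 : (h - h') * P = r' - r := by
    rw [sub_mul, sub_eq_sub_iff_add_eq_add, heq, add_comm]
  have h2 : h = h' := by
    by_contra hne
    have h3 : h - h' ≠ 0 := sub_ne_zero.2 hne
    have h4 := coeff_mul_of_le (f := h - h') (g := P) (A := (h - h').natDegree) (B := D) le_rfl hD
    rw [h1, coeff_sub, hr _ (by omega), hr' _ (by omega), sub_zero] at h4
    have h5 := mul_ne_zero (coeff_natDegree_ne_zero h3)
      (pow_ne_zero (Fintype.card F ^ (h - h').natDegree) hu.ne_zero)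
    exact h5 h4.symm
  refine ⟨h2, ?_⟩
  rw [h2] at heq
  exact add_left_cancel heq

end Pool.Agent.H9.Ram.Tw
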