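import Pool.Agent.H9.Ram.T2

/-!
# Module T3: evaluation on a field

The function `x ↦ ev f x` is given by the polynomial `addPoly f = ∑ f_i X ^ (q ^ i)`, whose
derivative is the constant `f.coeff 0`. Over an algebraically closed field `K`: if `f.coeff 0 ≠ 0`
the polynomial is separable of degree `q ^ natDegree f`, so the kernel has `q ^ natDegree f`
elements; every nonzero `f` acts surjectively; and if the kernel of `g` (`g.coeff 0 ≠ 0`) is
contained in the kernel of `f` then `f = h * g` (divide with remainder `f = h * g + r`; `r` has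
degree `< natDegree g` and at least `q ^ natDegree g` zeros, so `r = 0`).
-/

open Polynomial

noncomputable section

namespace Pool.Agent.H9.Ram.Tw

variable {F R : Type*} [Field F] [Fintype F] [CommRing R] [Algebra F R]

/-- The additive polynomial `∑ f_i X ^ (q ^ i)`. -/
def addPoly (f : Tw F R) : R[X] :=
  ∑ i ∈ Finset.range (f.natDegree + 1), Polynomial.C (f.coeff i) * Polynomial.X ^ (Fintype.card F ^ i)

theorem eval_addPoly (f : Tw F R) (x : R) : (addPoly f).eval x = ev f x := by
  rw [ev_eq_sum (Nat.lt_succ_self _), addPoly, Polynomial.eval_finsetSum]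
  simp

theorem aeval_addPoly {S : Type*} [CommRing S] [Algebra F S] (φ : R →ₐ[F] S) (f : Tw F R) (x : S) :
    (addPoly f).eval₂ (φ : R →+* S) x = ev (map φ f) x := by
  have h : (map φ f).natDegree < f.natDegree + 1 := by
    rw [Nat.lt_succ_iff, natDegree_le_iff]
    intro n hn
    rw [coeff_map, coeff_eq_zero_of_natDegree_lt hn, map_zero]
  rw [ev_eq_sum h, addPoly, Polynomial.eval₂_finsetSum]
  simp

theorem t3_card_cast : ((Fintype.card F : ℕ) : R) = 0 := by
  have h := FiniteField.cast_card_eq_zero F
  have h2 : algebraMap F R ((Fintype.card F : ℕ) : F) = 0 := by rw [h, map_zero]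
  rwa [map_natCast] at h2

theorem derivative_addPoly (f : Tw F R) :
    derivative (addPoly f) = Polynomial.C (f.coeff 0) := by
  unfold addPoly
  rw [Polynomial.derivative_sum, Finset.sum_eq_single 0]
  · simp
  · intro i _ hi
    rw [Polynomial.derivative_C_mul, Polynomial.derivative_X_pow]
    have : ((Fintype.card F ^ i : ℕ) : R) = 0 := by
      rw [Nat.cast_pow, t3_card_cast, zero_pow hi]
    rw [this]
    simp
  · intro h
    exact absurd (Finset.mem_range.2 (Nat.succ_pos _)) h

theorem t3_coeff (f : Tw F R) (j : ℕ) :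
    (addPoly f).coeff (Fintype.card F ^ j) = f.coeff j := by
  have hq : 2 ≤ Fintype.card F := Fintype.one_lt_card
  unfold addPoly
  rw [Polynomial.finsetSum_coeff]
  simp only [Polynomial.coeff_C_mul, Polynomial.coeff_X_pow]
  by_cases hj : j ∈ Finset.range (f.natDegree + 1)
  · rw [Finset.sum_eq_single j]
    · simp
    · intro i _ hi
      rw [if_neg, mul_zero]
      intro h
      exact hi (Nat.pow_right_injective hq h).symm
    · intro h
      exact absurd hj h
  · rw [Finset.sum_eq_zero]
    · rw [coeff_eq_zero_of_natDegree_lt]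
      simpa using hj
    · intro i hi
      rw [if_neg, mul_zero]
      intro h
      have h2 : j = i := Nat.pow_right_injective hq h
      exact hj (h2 ▸ hi)

theorem natDegree_addPoly [Nontrivial R] {f : Tw F R} (hf : f ≠ 0) :
    (addPoly f).natDegree = Fintype.card F ^ f.natDegree := by
  have hq : 1 < Fintype.card F := Fintype.one_lt_card
  apply Polynomial.natDegree_eq_of_le_of_coeff_ne_zero
  · unfold addPoly
    apply Polynomial.natDegree_sum_le_of_forall_le
    intro i hi
    refine (Polynomial.natDegree_C_mul_X_pow_le _ _).trans ?_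
    exact Nat.pow_le_pow_right hq.le (by have := Finset.mem_range.1 hi; omega)
  · rw [t3_coeff]
    exact coeff_natDegree_ne_zero hf

theorem leadingCoeff_addPoly [Nontrivial R] {f : Tw F R} (hf : f ≠ 0) :
    (addPoly f).leadingCoeff = f.coeff f.natDegree := by
  rw [Polynomial.leadingCoeff, natDegree_addPoly hf, t3_coeff]

section field
variable {K : Type*} [Field K] [Algebra F K]

theorem t3_addPoly_ne_zero {f : Tw F K} (hf : f ≠ 0) : addPoly f ≠ 0 := by
  intro h
  have h2 := natDegree_addPoly hf
  rw [h, Polynomial.natDegree_zero] at h2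
  have hq : 0 < Fintype.card F := Fintype.card_pos
  have := Nat.pow_pos (n := f.natDegree) hq
  omega

theorem separable_addPoly {f : Tw F K} (h0 : f.coeff 0 ≠ 0) : (addPoly f).Separable := by
  rw [Polynomial.separable_def, derivative_addPoly]
  refine ⟨0, Polynomial.C (f.coeff 0)⁻¹, ?_⟩
  rw [zero_mul, zero_add, ← Polynomial.C_mul, inv_mul_cancel₀ h0, Polynomial.C_1]

theorem t3_ker_eq {f : Tw F K} (hf : f ≠ 0) :
    (LinearMap.ker (ev f) : Set K) = {x | x ∈ (addPoly f).roots} := by
  ext x
  rw [SetLike.mem_coe, LinearMap.mem_ker, Set.mem_ofPred_eq,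
    Polynomial.mem_roots (t3_addPoly_ne_zero hf), Polynomial.IsRoot.def, eval_addPoly]

/-- The kernel is finite. -/
theorem finite_ker {f : Tw F K} (hf : f ≠ 0) : (LinearMap.ker (ev f) : Set K).Finite := by
  classical
  rw [t3_ker_eq hf]
  have : {x | x ∈ (addPoly f).roots} = ((addPoly f).roots.toFinset : Set K) := by
    ext x
    simp
  rw [this]
  exact Finset.finite_toSet _

theorem t3_natCard [DecidableEq K] {f : Tw F K} (hf : f ≠ 0) :
    Nat.card (LinearMap.ker (ev f)) = (addPoly f).roots.toFinset.card := by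
  have h1 : (LinearMap.ker (ev f) : Set K) = ((addPoly f).roots.toFinset : Set K) := by
    rw [t3_ker_eq hf]
    ext x
    simp
  have h2 : Nat.card (LinearMap.ker (ev f)) = (LinearMap.ker (ev f) : Set K).ncard := rfl
  rw [h2, h1, Set.ncard_coe_finset]

theorem card_ker_le {f : Tw F K} (hf : f ≠ 0) :
    Nat.card (LinearMap.ker (ev f)) ≤ Fintype.card F ^ f.natDegree := by
  classical
  rw [t3_natCard hf]
  refine (Multiset.toFinset_card_le _).trans ?_
  rw [← natDegree_addPoly hf]
  exact Polynomial.card_roots' _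

theorem ev_injective_of_infinite [Infinite K] {f : Tw F K} (h : ∀ x, ev f x = 0) : f = 0 := by
  by_contra hf
  have h1 := finite_ker hf
  have h2 : (LinearMap.ker (ev f) : Set K) = Set.univ := by
    ext x
    simp [h x]
  rw [h2] at h1
  exact Set.infinite_univ h1

theorem card_ker [IsAlgClosed K] {f : Tw F K} (h0 : f.coeff 0 ≠ 0) :
    Nat.card (LinearMap.ker (ev f)) = Fintype.card F ^ f.natDegree := by
  classical
  have hf : f ≠ 0 := by
    rintro rfl
    exact h0 (coeff_zero' 0)
  rw [t3_natCard hf, Multiset.toFinset_card_of_nodup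
    (Polynomial.nodup_roots (separable_addPoly h0)), IsAlgClosed.card_roots_eq_natDegree,
    natDegree_addPoly hf]

theorem finrank_ker [IsAlgClosed K] {f : Tw F K} (h0 : f.coeff 0 ≠ 0) :
    Module.finrank F (LinearMap.ker (ev f)) = f.natDegree := by
  have hf : f ≠ 0 := by
    rintro rfl
    exact h0 (coeff_zero' 0)
  have hfin : Finite (LinearMap.ker (ev f)) := (finite_ker hf).to_subtype
  have := Fintype.ofFinite (LinearMap.ker (ev f))
  have h1 := card_ker h0
  rw [Nat.card_eq_fintype_card, Module.card_eq_pow_finrank (K := F)] at h1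
  exact Nat.pow_right_injective (Fintype.one_lt_card (α := F)) h1

theorem ev_surjective [IsAlgClosed K] {f : Tw F K} (hf : f ≠ 0) : Function.Surjective (ev f) := by
  intro y
  have hdeg : (addPoly f - Polynomial.C y).natDegree = Fintype.card F ^ f.natDegree := by
    rw [Polynomial.natDegree_sub_C, natDegree_addPoly hf]
  have hpos : 0 < Fintype.card F ^ f.natDegree := Nat.pow_pos Fintype.card_pos
  obtain ⟨x, hx⟩ := IsAlgClosed.exists_root (addPoly f - Polynomial.C y) (by
    intro h
    have := Polynomial.natDegree_eq_zero_iff_degree_le_zero.2 h.le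
    omega)
  refine ⟨x, ?_⟩
  rw [Polynomial.IsRoot.def, Polynomial.eval_sub, Polynomial.eval_C, eval_addPoly, sub_eq_zero] at hx
  exact hx

theorem exists_right_factor [IsAlgClosed K] {f g : Tw F K} (h0 : g.coeff 0 ≠ 0)
    (h : LinearMap.ker (ev g) ≤ LinearMap.ker (ev f)) : ∃ h' : Tw F K, f = h' * g := by
  have hg : g ≠ 0 := by
    rintro rfl
    exact h0 (coeff_zero' 0)
  obtain ⟨h', r, hfr, hr, -⟩ := exists_right_div g g.natDegree le_rfl
    (IsUnit.mk0 _ (coeff_natDegree_ne_zero hg)) f
  refine ⟨h', ?_⟩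
  have hr0 : r = 0 := by
    by_contra hrne
    have hker : LinearMap.ker (ev g) ≤ LinearMap.ker (ev r) := by
      intro x hx
      have h1 := h hx
      rw [LinearMap.mem_ker] at hx h1 ⊢
      rw [hfr, map_add, LinearMap.add_apply, ev_mul, hx, map_zero, zero_add] at h1
      exact h1
    have h2 : Nat.card (LinearMap.ker (ev g)) ≤ Nat.card (LinearMap.ker (ev r)) := by
      have hfin : Finite (LinearMap.ker (ev r)) := (finite_ker hrne).to_subtype
      exact Nat.card_le_card_of_injective _ (Submodule.inclusion_injective hker)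
    rw [card_ker h0] at h2
    have h3 := h2.trans (card_ker_le hrne)
    have h4 : g.natDegree ≤ r.natDegree :=
      (Nat.pow_le_pow_iff_right (Fintype.one_lt_card (α := F))).1 h3
    exact coeff_natDegree_ne_zero hrne (hr _ h4)
  rw [hfr, hr0, add_zero]

theorem t3_eq_C {f : Tw F K} (h : f.natDegree = 0) : f = C (f.coeff 0) := by
  apply ext_coeff
  intro n
  rw [coeff_C]
  by_cases hn : n = 0
  · rw [if_pos hn, hn]
  · rw [if_neg hn]
    exact coeff_eq_zero_of_natDegree_lt (by omega)

/-- Two elements of degree one with the same kernel are proportional. -/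
theorem eq_C_mul_of_ker_eq [IsAlgClosed K] {f g : Tw F K} (hf : f.natDegree = 1)
    (hg : g.natDegree = 1) (h0 : g.coeff 0 ≠ 0)
    (h : LinearMap.ker (ev g) ≤ LinearMap.ker (ev f)) : ∃ l : K, l ≠ 0 ∧ f = C l * g := by
  obtain ⟨h', rfl⟩ := exists_right_factor h0 h
  have hg0 : g ≠ 0 := by
    rintro rfl
    exact h0 (coeff_zero' 0)
  have hh : h' ≠ 0 := by
    rintro rfl
    rw [zero_mul] at hf
    have h1 : (0 : Tw F K).natDegree ≤ 0 := by
      rw [natDegree_le_iff]
      intro n _
      exact coeff_zero' n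
    omega
  rw [natDegree_mul hh hg0, hg] at hf
  have hC := t3_eq_C (f := h') (by omega)
  refine ⟨h'.coeff 0, ?_, ?_⟩
  · intro h1
    rw [h1, map_zero] at hC
    exact hh hC
  · rw [← hC]

theorem t3_natDegree_T_sub_C (s : K) : (T - C s : Tw F K).natDegree = 1 := by
  apply le_antisymm
  · rw [natDegree_le_iff]
    intro n hn
    rw [coeff_sub, coeff_T, coeff_C, if_neg (by omega), if_neg (by omega), sub_zero]
  · apply le_natDegree_of_coeff_ne_zero
    rw [coeff_sub, coeff_T, coeff_C]
    simp

theorem t3_coeff_T_sub_C (s : K) : (T - C s : Tw F K).coeff 0 = -s := by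
  rw [coeff_sub, coeff_T, coeff_C]
  simp

theorem t3_mem_ker (s x : K) :
    x ∈ LinearMap.ker (ev (T - C s : Tw F K)) ↔ x ^ Fintype.card F = s * x := by
  rw [LinearMap.mem_ker, map_sub, LinearMap.sub_apply, ev_T, ev_C, sub_eq_zero]

theorem finrank_ker_T_sub_C [IsAlgClosed K] {s : K} (hs : s ≠ 0) :
    Module.finrank F (LinearMap.ker (ev (T - C s : Tw F K))) = 1 := by
  rw [finrank_ker, t3_natDegree_T_sub_C]
  rw [t3_coeff_T_sub_C]
  exact neg_ne_zero.2 hs

/-- A line is the kernel of some `T - C s`. -/
theorem exists_line_eq_ker [IsAlgClosed K] (L : Submodule F K) (hL : Module.finrank F L = 1) :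
    ∃ s : K, s ≠ 0 ∧ L = LinearMap.ker (ev (T - C s : Tw F K)) ∧
      ∀ y ∈ L, y ≠ 0 → y ^ (Fintype.card F - 1) = s := by
  have hq : 1 < Fintype.card F := Fintype.one_lt_card
  obtain ⟨⟨v, hvL⟩, hv0, hspan⟩ := finrank_eq_one_iff'.1 hL
  have hv : v ≠ 0 := by
    intro h
    apply hv0
    exact Subtype.ext h
  have hs0 : v ^ (Fintype.card F - 1) ≠ 0 := pow_ne_zero _ hv
  have hle : L ≤ LinearMap.ker (ev (T - C (v ^ (Fintype.card F - 1)) : Tw F K)) := by
    intro x hx
    obtain ⟨c, hc⟩ := hspan ⟨x, hx⟩
    have hc' : c • v = x := congrArg Subtype.val hc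
    rw [← hc']
    apply Submodule.smul_mem
    rw [t3_mem_ker, ← pow_succ]
    congr 1
    omega
  have hfin : Module.Finite F (LinearMap.ker (ev (T - C (v ^ (Fintype.card F - 1)) : Tw F K))) := by
    apply Module.finite_of_finrank_pos
    rw [finrank_ker_T_sub_C hs0]
    exact Nat.one_pos
  have heq : L = LinearMap.ker (ev (T - C (v ^ (Fintype.card F - 1)) : Tw F K)) := by
    apply Submodule.eq_of_le_of_finrank_eq hle
    rw [hL, finrank_ker_T_sub_C hs0]
  refine ⟨v ^ (Fintype.card F - 1), hs0, heq, ?_⟩
  intro y hy hy0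
  have h1 := hle hy
  rw [t3_mem_ker] at h1
  have h2 : y ^ (Fintype.card F - 1) * y = v ^ (Fintype.card F - 1) * y := by
    rw [← h1, ← pow_succ]
    congr 1
    omega
  exact mul_right_cancel₀ hy0 h2

/-- Fixed points of the Frobenius are the elements of `F`. -/
theorem mem_range_of_pow_card_eq {x : K} (h : x ^ Fintype.card F = x) :
    ∃ r : F, algebraMap F K r = x := by
  classical
  have hq : 1 < Fintype.card F := Fintype.one_lt_card
  have hne : (Polynomial.X ^ Fintype.card F - Polynomial.X : K[X]) ≠ 0 :=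
    FiniteField.X_pow_card_sub_X_ne_zero K hq
  have hsub : Finset.univ.image (algebraMap F K) ⊆
      (Polynomial.X ^ Fintype.card F - Polynomial.X : K[X]).roots.toFinset := by
    intro y hy
    obtain ⟨r, -, rfl⟩ := Finset.mem_image.1 hy
    rw [Multiset.mem_toFinset, Polynomial.mem_roots hne, Polynomial.IsRoot.def]
    simp [← map_pow, FiniteField.pow_card]
  have hcard : (Polynomial.X ^ Fintype.card F - Polynomial.X : K[X]).roots.toFinset.card ≤
      (Finset.univ.image (algebraMap F K)).card := by
    rw [Finset.card_image_of_injective _ (algebraMap F K).injective, Finset.card_univ]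
    refine (Multiset.toFinset_card_le _).trans ?_
    refine (Polynomial.card_roots' _).trans ?_
    rw [FiniteField.X_pow_card_sub_X_natDegree_eq K hq]
  have heq := Finset.eq_of_subset_of_card_le hsub hcard
  have hx : x ∈ (Polynomial.X ^ Fintype.card F - Polynomial.X : K[X]).roots.toFinset := by
    rw [Multiset.mem_toFinset, Polynomial.mem_roots hne, Polynomial.IsRoot.def]
    simp [h]
  rw [← heq] at hx
  obtain ⟨r, -, hr⟩ := Finset.mem_image.1 hx
  exact ⟨r, hr⟩

end field

end Pool.Agent.H9.Ram.Tw
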