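import Mathlib

/-!
# Twisted polynomials `R{τ}` over a commutative algebra `R` over a finite field `F` with `q` elements

`τ * a = a ^ q * τ`.
-/

open Polynomial

noncomputable section

namespace Pool.Agent.H9.Ram

/-- The `i`-th power of the `q`-Frobenius on an `F`-algebra, `x ↦ x ^ (q ^ i)`. -/
def fr (F : Type*) {R : Type*} [Field F] [Fintype F] [CommRing R] [Algebra F R] (i : ℕ) :
    R →ₐ[F] R := (FiniteField.frobeniusAlgHom F R) ^ i

section
variable {F R : Type*} [Field F] [Fintype F] [CommRing R] [Algebra F R]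

theorem fr_apply (i : ℕ) (x : R) : fr F i x = x ^ (Fintype.card F ^ i) := by
  induction i generalizing x with
  | zero => simp [fr]
  | succ n ih =>
    have : fr F (n + 1) x = fr F n (FiniteField.frobeniusAlgHom F R x) := by
      simp [fr, pow_succ, AlgHom.mul_apply]
    rw [this, ih]
    simp [← pow_mul, pow_succ, mul_comm]

@[simp] theorem fr_zero (x : R) : fr F 0 x = x := by simp [fr]

theorem fr_fr (i j : ℕ) (x : R) : fr F i (fr F j x) = fr F (i + j) x := by
  simp [fr, pow_add, AlgHom.mul_apply]

end

/-- Twisted polynomials over `R`: finite sums `∑ a_i τ ^ i`, stored as a polynomial. -/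
@[ext] structure Tw (F R : Type*) [Field F] [Fintype F] [CommRing R] [Algebra F R] where
  /-- the underlying polynomial -/
  poly : R[X]

namespace Tw

variable {F R : Type*} [Field F] [Fintype F] [CommRing R] [Algebra F R]

/-- The `i`-th coefficient. -/
def coeff (f : Tw F R) (i : ℕ) : R := f.poly.coeff i

theorem ext_coeff {f g : Tw F R} (h : ∀ i, f.coeff i = g.coeff i) : f = g := by
  ext i
  exact h i

instance : Zero (Tw F R) := ⟨⟨0⟩⟩
instance : One (Tw F R) := ⟨⟨1⟩⟩
instance : Add (Tw F R) := ⟨fun f g => ⟨f.poly + g.poly⟩⟩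
instance : Neg (Tw F R) := ⟨fun f => ⟨-f.poly⟩⟩
instance : Sub (Tw F R) := ⟨fun f g => ⟨f.poly - g.poly⟩⟩
instance : SMul ℕ (Tw F R) := ⟨fun n f => ⟨n • f.poly⟩⟩
instance : SMul ℤ (Tw F R) := ⟨fun n f => ⟨n • f.poly⟩⟩
instance : Inhabited (Tw F R) := ⟨0⟩

@[simp] theorem coeff_zero' (i : ℕ) : (0 : Tw F R).coeff i = 0 := by
  show (0 : R[X]).coeff i = 0; simp
@[simp] theorem coeff_add (f g : Tw F R) (i : ℕ) : (f + g).coeff i = f.coeff i + g.coeff i := by
  show (f.poly + g.poly).coeff i = _; simp [coeff]
@[simp] theorem coeff_neg (f : Tw F R) (i : ℕ) : (-f).coeff i = -f.coeff i := by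
  show (-f.poly).coeff i = _; simp [coeff]
@[simp] theorem coeff_sub (f g : Tw F R) (i : ℕ) : (f - g).coeff i = f.coeff i - g.coeff i := by
  show (f.poly - g.poly).coeff i = _; simp [coeff]
theorem coeff_one (i : ℕ) : (1 : Tw F R).coeff i = if i = 0 then 1 else 0 := by
  show (1 : R[X]).coeff i = _; simp [Polynomial.coeff_one]

theorem poly_injective : Function.Injective (Tw.poly : Tw F R → R[X]) := by
  intro f g h; exact Tw.ext h

instance : AddCommGroup (Tw F R) :=
  poly_injective.addCommGroup _ rfl (fun _ _ => rfl) (fun _ => rfl) (fun _ _ => rfl)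
    (fun _ _ => rfl) (fun _ _ => rfl)

/-- Product of twisted polynomials. -/
def mulPoly (f g : Tw F R) : R[X] :=
  ∑ i ∈ f.poly.support, Polynomial.C (f.coeff i) * (Polynomial.X ^ i *
    g.poly.map ((fr F i : R →ₐ[F] R) : R →+* R))

instance : Mul (Tw F R) := ⟨fun f g => ⟨mulPoly f g⟩⟩

theorem coeff_mul (f g : Tw F R) (n : ℕ) :
    (f * g).coeff n = ∑ p ∈ Finset.HasAntidiagonal.antidiagonal n, f.coeff p.1 * fr F p.1 (g.coeff p.2) := by
  have h1 : (f * g).coeff n = ∑ i ∈ f.poly.support, f.coeff i *
      (if i ≤ n then fr F i (g.coeff (n - i)) else 0) := by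
    show (mulPoly f g).coeff n = _
    simp only [mulPoly, Polynomial.finsetSum_coeff, Polynomial.coeff_C_mul,
      Polynomial.coeff_X_pow_mul', Polynomial.coeff_map]
    rfl
  rw [h1]
  have h2 : ∑ i ∈ f.poly.support, f.coeff i *
      (if i ≤ n then fr F i (g.coeff (n - i)) else 0) =
      ∑ i ∈ Finset.range (n + 1), f.coeff i * fr F i (g.coeff (n - i)) := by
    have h3 : ∑ i ∈ f.poly.support, f.coeff i *
        (if i ≤ n then fr F i (g.coeff (n - i)) else 0) =
        ∑ i ∈ f.poly.support ∪ Finset.range (n + 1), f.coeff i *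
        (if i ≤ n then fr F i (g.coeff (n - i)) else 0) := by
      apply Finset.sum_subset Finset.subset_union_left
      intro i _ hi
      have : f.coeff i = 0 := by
        simpa [coeff] using hi
      rw [this, zero_mul]
    rw [h3]
    symm
    rw [← Finset.sum_subset Finset.subset_union_right]
    · apply Finset.sum_congr rfl
      intro i hi
      rw [if_pos (by simpa [Nat.lt_succ_iff] using hi)]
    · intro i _ hi
      rw [if_neg (by simpa [Nat.lt_succ_iff] using hi), mul_zero]
  rw [h2, Finset.Nat.sum_antidiagonal_eq_sum_range_succ_mk]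

instance : NatCast (Tw F R) := ⟨fun n => ⟨(n : R[X])⟩⟩
instance : IntCast (Tw F R) := ⟨fun n => ⟨(n : R[X])⟩⟩

theorem mul_assoc' (f g h : Tw F R) : f * g * h = f * (g * h) := by
  apply ext_coeff
  intro n
  simp only [coeff_mul, map_sum, map_mul, fr_fr, Finset.sum_mul, Finset.mul_sum]
  rw [Finset.sum_sigma', Finset.sum_sigma']
  refine Finset.sum_nbij' (fun x => ⟨(x.2.1, x.2.2 + x.1.2), (x.2.2, x.1.2)⟩)
    (fun x => ⟨(x.1.1 + x.2.1, x.2.2), (x.1.1, x.2.1)⟩) ?_ ?_ ?_ ?_ ?_
  · rintro ⟨⟨a, b⟩, ⟨c, d⟩⟩ hx
    simp only [Finset.mem_sigma, Finset.HasAntidiagonal.mem_antidiagonal] at hx ⊢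
    obtain ⟨h1, h2⟩ := hx
    exact ⟨by rw [← h1, ← h2]; ring, trivial⟩
  · rintro ⟨⟨a, b⟩, ⟨c, d⟩⟩ hx
    simp only [Finset.mem_sigma, Finset.HasAntidiagonal.mem_antidiagonal] at hx ⊢
    obtain ⟨h1, h2⟩ := hx
    exact ⟨by rw [← h1, ← h2]; ring, trivial⟩
  · rintro ⟨⟨a, b⟩, ⟨c, d⟩⟩ hx
    simp only [Finset.mem_sigma, Finset.HasAntidiagonal.mem_antidiagonal] at hx
    obtain ⟨h1, h2⟩ := hx
    subst h2
    rfl
  · rintro ⟨⟨a, b⟩, ⟨c, d⟩⟩ hx
    simp only [Finset.mem_sigma, Finset.HasAntidiagonal.mem_antidiagonal] at hx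
    obtain ⟨h1, h2⟩ := hx
    subst h2
    rfl
  · rintro ⟨⟨a, b⟩, ⟨c, d⟩⟩ hx
    simp only [Finset.mem_sigma, Finset.HasAntidiagonal.mem_antidiagonal] at hx
    obtain ⟨h1, h2⟩ := hx
    subst h2
    simp only
    ring

instance : Ring (Tw F R) :=
  { (inferInstance : AddCommGroup (Tw F R)) with
    mul := (· * ·)
    one := 1
    natCast := fun n => ⟨(n : R[X])⟩
    natCast_zero := by
      apply ext_coeff; intro i; simp [coeff]; rfl
    natCast_succ := by
      intro n; apply ext_coeff; intro i
      show ((n + 1 : ℕ) : R[X]).coeff i = _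
      simp only [Nat.cast_add, Nat.cast_one, Polynomial.coeff_add]
      rfl
    intCast := fun n => ⟨(n : R[X])⟩
    intCast_ofNat := by
      intro n; apply ext_coeff; intro i
      show (((n : ℤ) : R[X])).coeff i = ((n : R[X])).coeff i
      simp
    intCast_negSucc := by
      intro n; apply ext_coeff; intro i
      show (((Int.negSucc n : ℤ) : R[X])).coeff i = (-((n + 1 : ℕ) : R[X])).coeff i
      simp [Int.negSucc_eq]
    left_distrib := by
      intro f g h; apply ext_coeff; intro n
      simp only [coeff_mul, coeff_add, map_add, mul_add, Finset.sum_add_distrib]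
    right_distrib := by
      intro f g h; apply ext_coeff; intro n
      simp only [coeff_mul, coeff_add, add_mul, Finset.sum_add_distrib]
    zero_mul := by
      intro f; apply ext_coeff; intro n; simp [coeff_mul]
    mul_zero := by
      intro f; apply ext_coeff; intro n; simp [coeff_mul]
    mul_assoc := mul_assoc'
    one_mul := by
      intro f; apply ext_coeff; intro n
      rw [coeff_mul, Finset.sum_eq_single (0, n)]
      · simp [coeff_one]
      · rintro ⟨a, b⟩ hab hne
        simp only [Finset.HasAntidiagonal.mem_antidiagonal] at hab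
        have : a ≠ 0 := by
          rintro rfl
          apply hne
          simp at hab
          rw [hab]
        simp [coeff_one, this]
      · intro h; simp at h
    mul_one := by
      intro f; apply ext_coeff; intro n
      rw [coeff_mul, Finset.sum_eq_single (n, 0)]
      · simp [coeff_one]
      · rintro ⟨a, b⟩ hab hne
        simp only [Finset.HasAntidiagonal.mem_antidiagonal] at hab
        have : b ≠ 0 := by
          rintro rfl
          apply hne
          simp at hab
          rw [hab]
        simp [coeff_one, this]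
      · intro h; simp at h }

/-- Constants. -/
def C : R →+* Tw F R where
  toFun a := ⟨Polynomial.C a⟩
  map_one' := rfl
  map_zero' := by apply ext_coeff; intro i; show (Polynomial.C (0 : R)).coeff i = _; simp
  map_add' a b := by
    apply ext_coeff; intro i
    show (Polynomial.C (a + b)).coeff i = (Polynomial.C a + Polynomial.C b).coeff i
    simp
  map_mul' a b := by
    apply ext_coeff; intro n
    rw [coeff_mul]
    show (Polynomial.C (a * b)).coeff n = ∑ p ∈ Finset.HasAntidiagonal.antidiagonal n,
      (Polynomial.C a).coeff p.1 * fr F p.1 ((Polynomial.C b).coeff p.2)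
    simp only [Polynomial.coeff_C]
    rcases Nat.eq_zero_or_pos n with rfl | hn
    · simp
    · rw [if_neg hn.ne', Finset.sum_eq_zero]
      rintro ⟨x, y⟩ hxy
      simp only [Finset.HasAntidiagonal.mem_antidiagonal] at hxy
      by_cases hx : x = 0
      · have : y ≠ 0 := by omega
        simp [this]
      · simp [hx]

theorem coeff_C (a : R) (n : ℕ) : (C a : Tw F R).coeff n = if n = 0 then a else 0 := by
  show (Polynomial.C a).coeff n = _
  rw [Polynomial.coeff_C]

@[simp] theorem coeff_C_zero (a : R) : (C a : Tw F R).coeff 0 = a := by simp [coeff_C]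

/-- The Frobenius element `τ`. -/
def T : Tw F R := ⟨Polynomial.X⟩

theorem coeff_T (n : ℕ) : (T : Tw F R).coeff n = if n = 1 then 1 else 0 := by
  show (Polynomial.X : R[X]).coeff n = _
  rw [Polynomial.coeff_X]; simp [eq_comm]

theorem coeff_C_mul (a : R) (f : Tw F R) (n : ℕ) : (C a * f).coeff n = a * f.coeff n := by
  rw [coeff_mul, Finset.sum_eq_single (0, n)]
  · simp
  · rintro ⟨x, y⟩ hxy hne
    simp only [Finset.HasAntidiagonal.mem_antidiagonal] at hxy
    have : x ≠ 0 := by
      rintro rfl
      exact hne (by simp at hxy; rw [hxy])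
    simp [coeff_C, this]
  · intro h; simp at h

theorem coeff_mul_C (f : Tw F R) (a : R) (n : ℕ) : (f * C a).coeff n = f.coeff n * fr F n a := by
  rw [coeff_mul, Finset.sum_eq_single (n, 0)]
  · simp
  · rintro ⟨x, y⟩ hxy hne
    simp only [Finset.HasAntidiagonal.mem_antidiagonal] at hxy
    have : y ≠ 0 := by
      rintro rfl
      exact hne (by simp at hxy; rw [hxy])
    simp [coeff_C, this]
  · intro h; simp at h

theorem coeff_mul_T (f : Tw F R) (n : ℕ) :
    (f * T).coeff n = if n = 0 then 0 else f.coeff (n - 1) := by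
  rw [coeff_mul]
  rcases Nat.eq_zero_or_pos n with rfl | hn
  · simp [coeff_T]
  · rw [if_neg hn.ne', Finset.sum_eq_single (n - 1, 1)]
    · simp [coeff_T]
    · rintro ⟨x, y⟩ hxy hne
      simp only [Finset.HasAntidiagonal.mem_antidiagonal] at hxy
      have : y ≠ 1 := by
        rintro rfl
        exact hne (by simp; omega)
      simp [coeff_T, this]
    · intro h
      exact absurd (Finset.HasAntidiagonal.mem_antidiagonal.2 (by simp; omega)) h

theorem coeff_T_mul (f : Tw F R) (n : ℕ) :
    (T * f).coeff n = if n = 0 then 0 else fr F 1 (f.coeff (n - 1)) := by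
  rw [coeff_mul]
  rcases Nat.eq_zero_or_pos n with rfl | hn
  · simp [coeff_T]
  · rw [if_neg hn.ne', Finset.sum_eq_single (1, n - 1)]
    · simp [coeff_T]
    · rintro ⟨x, y⟩ hxy hne
      simp only [Finset.HasAntidiagonal.mem_antidiagonal] at hxy
      have : x ≠ 1 := by
        rintro rfl
        exact hne (by simp; omega)
      simp [coeff_T, this]
    · intro h
      exact absurd (Finset.HasAntidiagonal.mem_antidiagonal.2 (by simp; omega)) h

theorem coeff_mul_T_pow (f : Tw F R) (i n : ℕ) :
    (f * T ^ i).coeff n = if i ≤ n then f.coeff (n - i) else 0 := by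
  induction i generalizing n with
  | zero => simp
  | succ i ih =>
    rw [pow_succ, ← mul_assoc, coeff_mul_T]
    rcases Nat.eq_zero_or_pos n with rfl | hn
    · simp
    · rw [if_neg hn.ne', ih]
      by_cases h : i + 1 ≤ n
      · rw [if_pos h, if_pos (by omega)]; congr 1; omega
      · rw [if_neg h, if_neg (by omega)]

theorem coeff_T_pow_mul (f : Tw F R) (i n : ℕ) :
    (T ^ i * f).coeff n = if i ≤ n then fr F i (f.coeff (n - i)) else 0 := by
  induction i generalizing n with
  | zero => simp
  | succ i ih =>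
    rw [pow_succ', mul_assoc, coeff_T_mul]
    rcases Nat.eq_zero_or_pos n with rfl | hn
    · simp
    · rw [if_neg hn.ne', ih]
      by_cases h : i + 1 ≤ n
      · rw [if_pos h, if_pos (by omega), fr_fr]; congr 2 <;> omega
      · rw [if_neg h, if_neg (by omega), map_zero]

theorem coeff_T_pow (i n : ℕ) : (T ^ i : Tw F R).coeff n = if n = i then 1 else 0 := by
  have := coeff_mul_T_pow (1 : Tw F R) i n
  rw [one_mul] at this
  rw [this]
  by_cases h : n = i
  · subst h; simp [coeff_one]
  · rw [if_neg h]
    split_ifs with h2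
    · rw [coeff_one, if_neg (by omega)]
    · rfl

/-- `τ a = a^q τ`. -/
theorem T_mul_C (a : R) : (T : Tw F R) * C a = C (fr F 1 a) * T := by
  apply ext_coeff; intro n
  rw [coeff_T_mul, coeff_C_mul, coeff_T, coeff_C]
  by_cases h : n = 1
  · subst h; simp
  · by_cases h0 : n = 0
    · subst h0; simp
    · rw [if_neg h0, if_neg (by omega), if_neg h]; simp

theorem T_pow_mul_C (i : ℕ) (a : R) : (T ^ i : Tw F R) * C a = C (fr F i a) * T ^ i := by
  apply ext_coeff; intro n
  rw [coeff_T_pow_mul, coeff_C_mul, coeff_T_pow, coeff_C]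
  by_cases h : n = i
  · subst h; simp
  · rw [if_neg h]
    split_ifs <;> first | omega | simp

/-- The `F`-algebra structure (elements of `F` are central). -/
instance : Algebra F (Tw F R) where
  smul := fun r f => C (algebraMap F R r) * f
  algebraMap := (C : R →+* Tw F R).comp (algebraMap F R)
  commutes' := by
    intro r f
    apply ext_coeff; intro n
    show (C (algebraMap F R r) * f).coeff n = (f * C (algebraMap F R r)).coeff n
    rw [coeff_C_mul, coeff_mul_C, AlgHom.commutes, mul_comm]
  smul_def' := fun r f => rfl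

theorem algebraMap_apply (r : F) : algebraMap F (Tw F R) r = C (algebraMap F R r) := rfl

theorem coeff_smul (r : F) (f : Tw F R) (n : ℕ) :
    (r • f).coeff n = algebraMap F R r * f.coeff n := by
  rw [Algebra.smul_def, algebraMap_apply, coeff_C_mul]

/-- The degree in `τ` (`0` for the zero element). -/
def natDegree (f : Tw F R) : ℕ := f.poly.natDegree

theorem coeff_eq_zero_of_natDegree_lt {f : Tw F R} {n : ℕ} (h : f.natDegree < n) :
    f.coeff n = 0 := Polynomial.coeff_eq_zero_of_natDegree_lt h

theorem natDegree_le_iff {f : Tw F R} {N : ℕ} :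
    f.natDegree ≤ N ↔ ∀ n, N < n → f.coeff n = 0 := by
  exact Polynomial.natDegree_le_iff_coeff_eq_zero

theorem eq_sum {f : Tw F R} {N : ℕ} (h : f.natDegree < N) :
    f = ∑ i ∈ Finset.range N, C (f.coeff i) * T ^ i := by
  apply ext_coeff; intro n
  have h1 : ∀ s : Finset ℕ, (∑ i ∈ s, C (f.coeff i) * T ^ i : Tw F R).coeff n =
      ∑ i ∈ s, (C (f.coeff i) * T ^ i : Tw F R).coeff n := by
    intro s
    induction s using Finset.induction_on with
    | empty => simp
    | insert a s ha ih => rw [Finset.sum_insert ha, Finset.sum_insert ha, coeff_add, ih]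
  rw [h1]
  by_cases hn : n < N
  · rw [Finset.sum_eq_single n]
    · rw [coeff_C_mul, coeff_T_pow]; simp
    · intro b _ hb
      rw [coeff_C_mul, coeff_T_pow, if_neg (Ne.symm hb), mul_zero]
    · intro h2; exact absurd (Finset.mem_range.2 hn) h2
  · rw [coeff_eq_zero_of_natDegree_lt (by omega), Finset.sum_eq_zero]
    intro i hi
    rw [coeff_C_mul, coeff_T_pow, if_neg (by have := Finset.mem_range.1 hi; omega), mul_zero]

theorem coeff_sum {ι : Type*} (s : Finset ι) (f : ι → Tw F R) (n : ℕ) :
    (∑ i ∈ s, f i).coeff n = ∑ i ∈ s, (f i).coeff n := by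
  classical
  induction s using Finset.induction_on with
  | empty => simp
  | insert a s ha ih => rw [Finset.sum_insert ha, Finset.sum_insert ha, coeff_add, ih]

/-- The linear functional `f ↦ f.coeff n` as an additive map. -/
def coeffHom (n : ℕ) : Tw F R →+ R where
  toFun f := f.coeff n
  map_zero' := coeff_zero' n
  map_add' f g := coeff_add f g n

/-- Base change along a morphism of `F`-algebras. -/
def map {S : Type*} [CommRing S] [Algebra F S] (φ : R →ₐ[F] S) : Tw F R →ₐ[F] Tw F S where
  toFun f := ⟨f.poly.map (φ : R →+* S)⟩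
  map_one' := by
    apply ext_coeff; intro n
    show ((1 : R[X]).map (φ : R →+* S)).coeff n = (1 : S[X]).coeff n
    rw [Polynomial.map_one]
  map_zero' := by
    apply ext_coeff; intro n
    show ((0 : R[X]).map (φ : R →+* S)).coeff n = (0 : S[X]).coeff n
    rw [Polynomial.map_zero]
  map_add' f g := by
    apply ext_coeff; intro n
    show ((f.poly + g.poly).map (φ : R →+* S)).coeff n =
      (f.poly.map (φ : R →+* S) + g.poly.map (φ : R →+* S)).coeff n
    simp
  map_mul' f g := by
    apply ext_coeff; intro n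
    rw [coeff_mul]
    show ((f * g).poly.map (φ : R →+* S)).coeff n =
      ∑ p ∈ Finset.HasAntidiagonal.antidiagonal n,
      (f.poly.map (φ : R →+* S)).coeff p.1 * fr F p.1 ((g.poly.map (φ : R →+* S)).coeff p.2)
    rw [Polynomial.coeff_map]
    show (φ : R →+* S) ((f * g).coeff n) = _
    rw [coeff_mul, map_sum]
    apply Finset.sum_congr rfl
    intro p _
    simp [Polynomial.coeff_map, fr_apply, coeff]
  commutes' r := by
    apply ext_coeff; intro n
    show ((Polynomial.C (algebraMap F R r)).map (φ : R →+* S)).coeff n =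
      (Polynomial.C (algebraMap F S r)).coeff n
    rw [Polynomial.map_C]
    congr 2
    exact AlgHom.commutes φ r

@[simp] theorem coeff_map {S : Type*} [CommRing S] [Algebra F S] (φ : R →ₐ[F] S) (f : Tw F R)
    (n : ℕ) : (map φ f).coeff n = φ (f.coeff n) := by
  show (f.poly.map (φ : R →+* S)).coeff n = _
  simp [coeff]

@[simp] theorem map_C {S : Type*} [CommRing S] [Algebra F S] (φ : R →ₐ[F] S) (a : R) :
    map φ (C a) = C (φ a) := by
  apply ext_coeff; intro n; simp [coeff_C]; split_ifs <;> simp

@[simp] theorem map_T {S : Type*} [CommRing S] [Algebra F S] (φ : R →ₐ[F] S) :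
    map φ (T : Tw F R) = T := by
  apply ext_coeff; intro n; simp [coeff_T]

/-- The value `∑ a_i x^(q^i)`. -/
def evFun (f : Tw F R) (x : R) : R := f.poly.sum fun i a => a * fr F i x

theorem evFun_eq_sum {f : Tw F R} {N : ℕ} (h : f.natDegree < N) (x : R) :
    evFun f x = ∑ i ∈ Finset.range N, f.coeff i * fr F i x := by
  unfold evFun
  rw [Polynomial.sum_over_range' _ (by intro n; simp) N h]
  rfl

theorem evFun_add_left (f g : Tw F R) (x : R) : evFun (f + g) x = evFun f x + evFun g x := by
  unfold evFun
  exact Polynomial.sum_add_index f.poly g.poly _ (by intro n; simp) (by intro n a b; ring)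

theorem evFun_add_right (f : Tw F R) (x y : R) : evFun f (x + y) = evFun f x + evFun f y := by
  unfold evFun
  simp only [map_add, mul_add, Polynomial.sum_add]

theorem evFun_monomial (a : R) (i : ℕ) (g : Tw F R) (x : R) :
    evFun (C a * T ^ i * g) x = a * fr F i (evFun g x) := by
  have h1 : (C a * T ^ i * g).natDegree < g.natDegree + i + 1 := by
    rw [Nat.lt_succ_iff, natDegree_le_iff]
    intro n hn
    rw [mul_assoc, coeff_C_mul, coeff_T_pow_mul, if_pos (by omega),
      coeff_eq_zero_of_natDegree_lt (by omega), map_zero, mul_zero]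
  rw [evFun_eq_sum h1, evFun_eq_sum (Nat.lt_succ_self _), map_sum, Finset.mul_sum,
    show g.natDegree + i + 1 = i + (g.natDegree + 1) by ring, Finset.sum_range_add,
    Finset.sum_eq_zero, zero_add]
  · apply Finset.sum_congr rfl
    intro j _
    rw [mul_assoc (C a), coeff_C_mul, coeff_T_pow_mul, if_pos (by omega), map_mul, fr_fr,
      Nat.add_sub_cancel_left, mul_assoc]
  · intro j hj
    have := Finset.mem_range.1 hj
    rw [mul_assoc (C a), coeff_C_mul, coeff_T_pow_mul, if_neg (by omega), mul_zero, zero_mul]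

theorem evFun_mul (f g : Tw F R) (x : R) : evFun (f * g) x = evFun f (evFun g x) := by
  have key : ∀ s : Finset ℕ, evFun ((∑ i ∈ s, C (f.coeff i) * T ^ i) * g) x =
      ∑ i ∈ s, f.coeff i * fr F i (evFun g x) := by
    intro s
    induction s using Finset.induction_on with
    | empty => simp [evFun, show (0 : Tw F R).poly = 0 from rfl]
    | insert a s ha ih =>
      rw [Finset.sum_insert ha, Finset.sum_insert ha, add_mul, evFun_add_left, ih,
        evFun_monomial]
  have h := key (Finset.range (f.natDegree + 1))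
  rw [← eq_sum (Nat.lt_succ_self _)] at h
  rw [h, ← evFun_eq_sum (Nat.lt_succ_self _)]

theorem evFun_C (a x : R) : evFun (C a : Tw F R) x = a * x := by
  have := evFun_monomial (F := F) a 0 1 x
  rw [pow_zero, mul_one, mul_one] at this
  rw [this]
  have h1 : evFun (1 : Tw F R) x = x := by
    unfold evFun
    show (1 : R[X]).sum _ = _
    rw [← Polynomial.C_1, Polynomial.sum_C_index (by simp)]
    simp
  rw [h1]; simp

/-- Evaluation: `f = ∑ a_i τ^i` acts by `x ↦ ∑ a_i x^(q^i)`. -/
def ev : Tw F R →ₐ[F] Module.End F R where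
  toFun f :=
    { toFun := evFun f
      map_add' := evFun_add_right f
      map_smul' := by
        intro r x
        rw [RingHom.id_apply, Algebra.smul_def, Algebra.smul_def,
          evFun_eq_sum (Nat.lt_succ_self _), evFun_eq_sum (Nat.lt_succ_self _), Finset.mul_sum]
        apply Finset.sum_congr rfl; intro i _
        rw [map_mul, AlgHom.commutes]; ring }
  map_one' := by
    ext x
    have h := evFun_C (F := F) (1 : R) x
    rw [show (C (1 : R) : Tw F R) = 1 from map_one C, one_mul] at h
    exact h
  map_zero' := by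
    ext x
    show evFun (0 : Tw F R) x = 0
    simp [evFun, show (0 : Tw F R).poly = 0 from rfl]
  map_add' f g := by ext x; exact evFun_add_left f g x
  map_mul' f g := by ext x; exact evFun_mul f g x
  commutes' r := by
    ext x
    show evFun (C (algebraMap F R r)) x = _
    rw [evFun_C]
    exact (Algebra.smul_def r x).symm

theorem ev_apply (f : Tw F R) (x : R) : ev f x = evFun f x := rfl

theorem ev_eq_sum {f : Tw F R} {N : ℕ} (h : f.natDegree < N) (x : R) :
    ev f x = ∑ i ∈ Finset.range N, f.coeff i * x ^ (Fintype.card F ^ i) := by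
  rw [ev_apply, evFun_eq_sum h]; simp only [fr_apply]

theorem ev_mul (f g : Tw F R) (x : R) : ev (f * g) x = ev f (ev g x) := evFun_mul f g x

@[simp] theorem ev_C (a x : R) : ev (C a : Tw F R) x = a * x := evFun_C a x

@[simp] theorem ev_T (x : R) : ev (T : Tw F R) x = x ^ Fintype.card F := by
  rw [ev_eq_sum (N := 2)]
  · simp [Finset.sum_range_succ, coeff_T]
  · rw [Nat.lt_succ_iff, natDegree_le_iff]
    intro n hn; rw [coeff_T, if_neg (by omega)]

theorem ev_T_pow (i : ℕ) (x : R) : ev (T ^ i : Tw F R) x = x ^ (Fintype.card F ^ i) := by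
  have := evFun_monomial (F := F) (1 : R) i 1 x
  rw [map_one, one_mul, mul_one, one_mul] at this
  rw [ev_apply, this, ← ev_apply, map_one, Module.End.one_apply, fr_apply]

theorem ev_map {S : Type*} [CommRing S] [Algebra F S] (φ : R →ₐ[F] S) (f : Tw F R) (x : R) :
    ev (map φ f) (φ x) = φ (ev f x) := by
  have h : (map φ f).natDegree < f.natDegree + 1 := by
    rw [Nat.lt_succ_iff, natDegree_le_iff]
    intro n hn; rw [coeff_map, coeff_eq_zero_of_natDegree_lt hn, map_zero]
  rw [ev_eq_sum h, ev_eq_sum (Nat.lt_succ_self f.natDegree), map_sum]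
  apply Finset.sum_congr rfl; intro i _
  rw [coeff_map, map_mul, map_pow]

end Tw

end Pool.Agent.H9.Ram
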