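import Pool.Agent.H9.Ram.Defs

/-!
# Module V1: Cayley-Hamilton for elements commuting with `P_x = c + τ + x τ²`

`x ≠ 0`. Consider `H = K{τ}` as a module over the polynomial ring `K[X]`: `K` acts by left multiplication
(`Tw.C e * f`), `X` acts by right multiplication by `P = P_x`. (Use e.g. `Module.AEval'` for the `K`-linear map
`f ↦ f * P`, with the left `K`-module structure.) By division with remainder (`Tw.exists_right_div`,
`Tw.right_div_unique`) every `f` is uniquely `∑ (a_i + b_i τ) P^i`, i.e. `H` is free with basis `1, τ`.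
If `Q P = P Q`, right multiplication by `Q` is `K[X]`-linear; let `M` be its `2 × 2` matrix over `K[X]`, i.e.
(rows) `Q = M₁₁·1 + M₁₂·τ`, `τ Q = M₂₁·1 + M₂₂·τ`, where `g · f = ∑ g_i f P^i` for `g = ∑ g_i X^i ∈ K[X]`.
By Cayley-Hamilton (for `2 × 2` matrices it is an explicit computation) `f Q² = tr(M)·(f Q) - det(M)·f`, for
`f = 1`: `Q² = ∑ a_i Q P^i - ∑ b_i P^i` with `a = tr M`, `b = det M` in `K[X]`.
Claim: `a, b ∈ F[X]`. Left multiplication by `τ` is semilinear for `σ : K[X] → K[X]` (Frobenius `e ↦ e^q` on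
coefficients, `X ↦ X`): `τ (g · f) = σ(g) · (τ f)`. Its matrix in the basis is `T`: `τ·1 = τ`,
`τ·τ = τ² = x⁻¹ (P - c - τ) = (x⁻¹ (X - c))·1 - x⁻¹·τ`, so `det T = - x⁻¹ (X - c) ≠ 0`. Since left
multiplication by `τ` commutes with right multiplication by `Q`: `T M = σ(M) T` (as matrices acting on
coordinates in the appropriate order), so `σ(tr M) = tr M`, `σ(det M) = det M` (over the domain `K[X]`,
`det T ≠ 0`: `tr(σ(M)) det T = tr (σ(M) T adj T) = tr (T M adj T) = tr (M adj(T) T) = det T tr M`).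
Hence the coefficients of `a`, `b` satisfy `e^q = e`, i.e. lie in `F` (`Tw.mem_range_of_pow_card_eq`).
Finally `∑ a_i Q P^i = a(P) Q` as `Q` commutes with `P` and `a_i ∈ F` is central.
-/

open Polynomial

noncomputable section

namespace Pool.Agent.H9.Ram

variable {F K : Type*} [Field F] [Fintype F] [Field K] [Algebra F K]

/-- Left multiplication by constants as a ring morphism into the additive endomorphisms. -/
def v1L : K →+* AddMonoid.End (Tw F K) where
  toFun e := AddMonoidHom.mulLeft (Tw.C e)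
  map_one' := by
    refine AddMonoidHom.ext fun f => ?_
    show Tw.C (1 : K) * f = f
    rw [map_one, one_mul]
  map_zero' := by
    refine AddMonoidHom.ext fun f => ?_
    show Tw.C (0 : K) * f = 0
    rw [map_zero, zero_mul]
  map_add' a b := by
    refine AddMonoidHom.ext fun f => ?_
    show Tw.C (a + b) * f = Tw.C a * f + Tw.C b * f
    rw [map_add, add_mul]
  map_mul' a b := by
    refine AddMonoidHom.ext fun f => ?_
    show Tw.C (a * b) * f = Tw.C a * (Tw.C b * f)
    rw [map_mul, mul_assoc]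

theorem v1L_apply (e : K) (f : Tw F K) : (v1L e : AddMonoid.End (Tw F K)) f = Tw.C e * f := rfl

/-- The action of `K[X]`: constants on the left, `X` by right multiplication by `P`. -/
def v1E (P : Tw F K) : K[X] →+* AddMonoid.End (Tw F K) :=
  Polynomial.eval₂RingHom' (v1L (F := F) (K := K)) (AddMonoidHom.mulRight P) (by
    intro a
    refine AddMonoidHom.ext fun f => ?_
    show Tw.C a * (f * P) = Tw.C a * f * P
    rw [mul_assoc])

theorem v1E_C (P : Tw F K) (e : K) (f : Tw F K) : v1E P (Polynomial.C e) f = Tw.C e * f := by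
  show (Polynomial.eval₂ (v1L (F := F) (K := K)) (AddMonoidHom.mulRight P) (Polynomial.C e)) f = _
  rw [Polynomial.eval₂_C]; rfl

theorem v1E_X (P : Tw F K) (f : Tw F K) : v1E P Polynomial.X f = f * P := by
  show (Polynomial.eval₂ (v1L (F := F) (K := K)) (AddMonoidHom.mulRight P) Polynomial.X) f = _
  rw [Polynomial.eval₂_X]; rfl

theorem v1E_mul (P : Tw F K) (g h : K[X]) (f : Tw F K) :
    v1E P (g * h) f = v1E P g (v1E P h f) := by
  rw [map_mul]; rfl

theorem v1E_add (P : Tw F K) (g h : K[X]) (f : Tw F K) :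
    v1E P (g + h) f = v1E P g f + v1E P h f := by
  rw [map_add]; rfl

theorem v1E_sub (P : Tw F K) (g h : K[X]) (f : Tw F K) :
    v1E P (g - h) f = v1E P g f - v1E P h f := by
  rw [map_sub]; rfl

theorem v1E_neg (P : Tw F K) (g : K[X]) (f : Tw F K) :
    v1E P (-g) f = - v1E P g f := by
  rw [map_neg]; rfl

theorem v1E_one (P : Tw F K) (f : Tw F K) : v1E P 1 f = f := by
  rw [map_one]; rfl

theorem v1E_zero (P : Tw F K) (f : Tw F K) : v1E P 0 f = 0 := by
  rw [map_zero]; rfl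

/-- Right multiplication by an element commuting with `P` is linear. -/
theorem v1E_mul_right (P Q : Tw F K) (hQ : P * Q = Q * P) (g : K[X]) (f : Tw F K) :
    v1E P g f * Q = v1E P g (f * Q) := by
  induction g using Polynomial.induction_on' with
  | add g h ihg ihh => rw [v1E_add, v1E_add, add_mul, ihg, ihh]
  | monomial n a =>
    rw [← Polynomial.C_mul_X_pow_eq_monomial, v1E_mul, v1E_mul, v1E_C, v1E_C, mul_assoc]
    congr 1
    induction n generalizing f with
    | zero => simp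
    | succ n ih =>
      rw [pow_succ, v1E_mul, v1E_mul, v1E_X, v1E_X, ih, mul_assoc, hQ, mul_assoc]

/-- Left multiplication by `τ` is semilinear. -/
theorem v1E_T_mul (P : Tw F K) (g : K[X]) (f : Tw F K) :
    Tw.T * v1E P g f = v1E P (g.map ((fr F 1 : K →ₐ[F] K) : K →+* K)) (Tw.T * f) := by
  induction g using Polynomial.induction_on' with
  | add g h ihg ihh => rw [v1E_add, Polynomial.map_add, v1E_add, mul_add, ihg, ihh]
  | monomial n a =>
    rw [← Polynomial.C_mul_X_pow_eq_monomial, Polynomial.map_mul, Polynomial.map_C,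
      Polynomial.map_pow, Polynomial.map_X, v1E_mul, v1E_mul, v1E_C, v1E_C, ← mul_assoc,
      Tw.T_mul_C, mul_assoc]
    congr 1
    induction n generalizing f with
    | zero => simp
    | succ n ih =>
      rw [pow_succ, v1E_mul, v1E_mul, v1E_X, v1E_X, ih, mul_assoc]

theorem v1E_map (P Q : Tw F K) (hQ : P * Q = Q * P) (a : F[X]) :
    v1E P (a.map (algebraMap F K)) Q = Polynomial.aeval P a * Q := by
  induction a using Polynomial.induction_on' with
  | add g h ihg ihh => rw [Polynomial.map_add, v1E_add, map_add, add_mul, ihg, ihh]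
  | monomial n r =>
    rw [Polynomial.map_monomial, ← Polynomial.C_mul_X_pow_eq_monomial, v1E_mul, v1E_C,
      Polynomial.aeval_monomial, Tw.algebraMap_apply, mul_assoc]
    congr 1
    induction n with
    | zero => simp
    | succ n ih =>
      rw [pow_succ', v1E_mul, v1E_X, ih, pow_succ, mul_assoc, mul_assoc, hQ]

section

variable (c : F) (x : K)

theorem v1_Pt_coeff (n : ℕ) : (Pt c x).coeff n =
    (if n = 0 then algebraMap F K c else 0) + (if n = 1 then 1 else 0) +
      x * (if n = 2 then 1 else 0) := by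
  rw [Pt, Tw.coeff_add, Tw.coeff_add, Tw.algebraMap_apply, Tw.coeff_C, Tw.coeff_T, Tw.coeff_C_mul,
    Tw.coeff_T_pow]

theorem v1_Pt_natDegree : (Pt c x).natDegree ≤ 2 := by
  rw [Tw.natDegree_le_iff]
  intro n hn
  rw [v1_Pt_coeff, if_neg (by omega), if_neg (by omega), if_neg (by omega)]
  simp

theorem v1_Pt_coeff_two : (Pt c x).coeff 2 = x := by
  rw [v1_Pt_coeff]; simp

variable {c x}

theorem v1_rem (r : Tw F K) (hr : ∀ n, 2 ≤ n → r.coeff n = 0) :
    r = Tw.C (r.coeff 0) + Tw.C (r.coeff 1) * Tw.T := by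
  apply Tw.ext_coeff
  intro n
  rw [Tw.coeff_add, Tw.coeff_C, Tw.coeff_C_mul, Tw.coeff_T]
  rcases n with _ | _ | n
  · simp
  · simp
  · rw [hr _ (by omega), if_neg (by omega), if_neg (by omega)]; simp

theorem v1_exists (hx : x ≠ 0) (N : ℕ) : ∀ f : Tw F K, f.natDegree ≤ N →
    ∃ g h : K[X], f = v1E (Pt c x) g 1 + v1E (Pt c x) h Tw.T := by
  induction N using Nat.strong_induction_on with
  | _ N ih =>
    intro f hf
    by_cases hN : N < 2
    · refine ⟨Polynomial.C (f.coeff 0), Polynomial.C (f.coeff 1), ?_⟩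
      rw [v1E_C, v1E_C, mul_one]
      apply v1_rem
      intro n hn
      exact Tw.coeff_eq_zero_of_natDegree_lt (by omega)
    · obtain ⟨h, r, hfr, hr, hdeg⟩ := Tw.exists_right_div (Pt c x) 2 (v1_Pt_natDegree c x)
        (by rw [v1_Pt_coeff_two]; exact hx.isUnit) f
      obtain ⟨g1, g2, hg⟩ := ih (N - 2) (by omega) h (by omega)
      refine ⟨Polynomial.X * g1 + Polynomial.C (r.coeff 0),
        Polynomial.X * g2 + Polynomial.C (r.coeff 1), ?_⟩
      rw [v1E_add, v1E_add, v1E_mul, v1E_mul, v1E_X, v1E_X, v1E_C, v1E_C, mul_one]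
      conv_lhs => rw [hfr, hg, v1_rem r hr, add_mul]
      abel

theorem v1_unique (hx : x ≠ 0) (N : ℕ) : ∀ g h : K[X], g.natDegree < N → h.natDegree < N →
    v1E (Pt c x) g 1 + v1E (Pt c x) h Tw.T = 0 → g = 0 ∧ h = 0 := by
  induction N with
  | zero => intro g h hg; omega
  | succ N ih =>
    intro g h hg hh heq
    have hg1 := Polynomial.X_mul_divX_add g
    have hh1 := Polynomial.X_mul_divX_add h
    have heq2 : (v1E (Pt c x) g.divX 1 + v1E (Pt c x) h.divX Tw.T) * Pt c x +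
        (Tw.C (g.coeff 0) + Tw.C (h.coeff 0) * Tw.T) = 0 * Pt c x + 0 := by
      rw [zero_mul, add_zero, ← heq]
      conv_rhs => rw [← hg1, ← hh1]
      rw [v1E_add, v1E_add, v1E_mul, v1E_mul, v1E_X, v1E_X, v1E_C, v1E_C, mul_one, add_mul]
      abel
    have hrem : ∀ n, 2 ≤ n → (Tw.C (g.coeff 0) + Tw.C (h.coeff 0) * Tw.T : Tw F K).coeff n = 0 := by
      intro n hn
      rw [Tw.coeff_add, Tw.coeff_C, Tw.coeff_C_mul, Tw.coeff_T, if_neg (by omega),
        if_neg (by omega)]
      simp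
    obtain ⟨h1, h2⟩ := Tw.right_div_unique (Pt c x) 2 (v1_Pt_natDegree c x)
      (by rw [v1_Pt_coeff_two]; exact hx.isUnit) _ _ _ _ heq2 hrem (by intro n _; simp)
    have ha : g.coeff 0 = 0 := by
      have := congrArg (fun z => z.coeff 0) h2
      simpa [Tw.coeff_C, Tw.coeff_C_mul, Tw.coeff_T] using this
    have hb : h.coeff 0 = 0 := by
      have := congrArg (fun z => z.coeff 1) h2
      simpa [Tw.coeff_C, Tw.coeff_C_mul, Tw.coeff_T] using this
    by_cases hN : N = 0
    · subst hN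
      constructor
      · rw [Polynomial.eq_C_of_natDegree_eq_zero (by omega : g.natDegree = 0), ha, map_zero]
      · rw [Polynomial.eq_C_of_natDegree_eq_zero (by omega : h.natDegree = 0), hb, map_zero]
    · have hd1 : g.divX.natDegree < N := by
        rw [Polynomial.natDegree_divX_eq_natDegree_tsub_one]; omega
      have hd2 : h.divX.natDegree < N := by
        rw [Polynomial.natDegree_divX_eq_natDegree_tsub_one]; omega
      obtain ⟨h3, h4⟩ := ih _ _ hd1 hd2 h1
      constructor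
      · rw [← hg1, h3, ha]; simp
      · rw [← hh1, h4, hb]; simp

theorem v1_inj (hx : x ≠ 0) {g h g' h' : K[X]}
    (heq : v1E (Pt c x) g 1 + v1E (Pt c x) h Tw.T = v1E (Pt c x) g' 1 + v1E (Pt c x) h' Tw.T) :
    g = g' ∧ h = h' := by
  have h1 : v1E (Pt c x) (g - g') 1 + v1E (Pt c x) (h - h') Tw.T = 0 := by
    rw [v1E_sub, v1E_sub, ← sub_eq_zero.2 heq]
    abel
  obtain ⟨h2, h3⟩ := v1_unique hx (max (g - g').natDegree (h - h').natDegree + 1) _ _
    (by omega) (by omega) h1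
  exact ⟨sub_eq_zero.1 h2, sub_eq_zero.1 h3⟩

theorem v1_T_sq (hx : x ≠ 0) : (Tw.T * Tw.T : Tw F K) =
    v1E (Pt c x) (Polynomial.C x⁻¹ * (Polynomial.X - Polynomial.C (algebraMap F K c))) 1 +
      v1E (Pt c x) (-Polynomial.C x⁻¹) Tw.T := by
  rw [v1E_mul, v1E_sub, v1E_X, v1E_neg, v1E_C, v1E_C, v1E_C, one_mul, mul_one]
  have h : (Pt c x : Tw F K) - Tw.C (algebraMap F K c) = Tw.T + Tw.C x * Tw.T ^ 2 := by
    rw [Pt, Tw.algebraMap_apply]; abel
  rw [h, mul_add, ← mul_assoc, ← map_mul, inv_mul_cancel₀ hx, map_one, one_mul, pow_two]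
  abel

end

theorem v1_lift (g : K[X]) (hg : g.map ((fr F 1 : K →ₐ[F] K) : K →+* K) = g) :
    ∃ a : F[X], a.map (algebraMap F K) = g := by
  have h : ∀ n, ∃ r : F, algebraMap F K r = g.coeff n := by
    intro n
    apply Tw.mem_range_of_pow_card_eq
    have := congrArg (fun z => z.coeff n) hg
    simp only [Polynomial.coeff_map] at this
    have h2 : fr F 1 (g.coeff n) = g.coeff n := this
    rw [fr_apply, pow_one] at h2
    exact h2
  have h2 : g ∈ Polynomial.lifts (algebraMap F K) := by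
    rw [Polynomial.lifts_iff_coeff_lifts]
    intro n
    exact h n
  rw [Polynomial.mem_lifts] at h2
  exact h2

theorem exists_quadratic_Pt (c : F) (x : K) (hx : x ≠ 0) (Q : Tw F K)
    (hQ : Pt c x * Q = Q * Pt c x) :
    ∃ a b : F[X], Q ^ 2 - Polynomial.aeval (Pt c x) a * Q + Polynomial.aeval (Pt c x) b = 0 := by
  obtain ⟨m11, m12, hm1⟩ := v1_exists (c := c) hx _ Q le_rfl
  obtain ⟨m21, m22, hm2⟩ := v1_exists (c := c) hx _ (Tw.T * Q) le_rfl
  obtain ⟨t1, ht1⟩ : ∃ t1 : K[X],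
    t1 = Polynomial.C x⁻¹ * (Polynomial.X - Polynomial.C (algebraMap F K c)) := ⟨_, rfl⟩
  obtain ⟨t2, ht2⟩ : ∃ t2 : K[X], t2 = -Polynomial.C x⁻¹ := ⟨_, rfl⟩
  have hT : (Tw.T * Tw.T : Tw F K) = v1E (Pt c x) t1 1 + v1E (Pt c x) t2 Tw.T := by
    rw [ht1, ht2]; exact v1_T_sq hx
  set σ : K[X] → K[X] := fun g => g.map ((fr F 1 : K →ₐ[F] K) : K →+* K) with hσ
  have hsl : ∀ g f, Tw.T * v1E (Pt c x) g f = v1E (Pt c x) (σ g) (Tw.T * f) :=
    fun g f => v1E_T_mul _ g f
  have hlin : ∀ g f, v1E (Pt c x) g f * Q = v1E (Pt c x) g (f * Q) :=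
    fun g f => v1E_mul_right _ Q hQ g f
  have ht1' : t1 ≠ 0 := by
    rw [ht1]
    exact mul_ne_zero (Polynomial.C_ne_zero.2 (inv_ne_zero hx)) (Polynomial.X_sub_C_ne_zero _)
  -- first relation
  have e1 : m21 = σ m12 * t1 ∧ m22 = σ m11 + σ m12 * t2 := by
    apply v1_inj (c := c) hx
    rw [← hm2]
    conv_lhs => rw [hm1]
    rw [mul_add, hsl, hsl, mul_one, hT, map_add, v1E_add, v1E_mul, v1E_mul]
    abel
  have e2 : σ m22 * t1 = t1 * m11 + t2 * m21 ∧ σ m21 + σ m22 * t2 = t1 * m12 + t2 * m22 := by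
    apply v1_inj (c := c) hx
    have h1 : Tw.T * (Tw.T * Q) = v1E (Pt c x) (σ m22 * t1) 1 +
        v1E (Pt c x) (σ m21 + σ m22 * t2) Tw.T := by
      conv_lhs => rw [hm2]
      rw [mul_add, hsl, hsl, mul_one, hT, map_add, v1E_add, v1E_mul, v1E_mul]
      abel
    have h2 : Tw.T * (Tw.T * Q) = v1E (Pt c x) (t1 * m11 + t2 * m21) 1 +
        v1E (Pt c x) (t1 * m12 + t2 * m22) Tw.T := by
      have h3 : v1E (Pt c x) t1 Q = v1E (Pt c x) (t1 * m11) 1 + v1E (Pt c x) (t1 * m12) Tw.T := by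
        conv_lhs => rw [hm1]
        rw [map_add, v1E_mul, v1E_mul]
      have h4 : v1E (Pt c x) t2 (Tw.T * Q) =
          v1E (Pt c x) (t2 * m21) 1 + v1E (Pt c x) (t2 * m22) Tw.T := by
        rw [hm2, map_add, v1E_mul, v1E_mul]
      rw [← mul_assoc, hT, add_mul, hlin, hlin, one_mul, h3, h4, v1E_add, v1E_add]
      abel
    rw [← h1, h2]
  obtain ⟨e1a, e1b⟩ := e1
  obtain ⟨e2a, e2b⟩ := e2
  have e3 : σ m22 = m11 + t2 * σ m12 := by
    apply mul_right_cancel₀ ht1'
    rw [e2a, e1a]; ring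
  have e4 : σ m11 = m22 - σ m12 * t2 := by rw [e1b]; ring
  have e5 : σ m21 = t1 * m12 + t2 * m22 - σ m22 * t2 := by rw [← e2b]; ring
  have htr : σ (m11 + m22) = m11 + m22 := by
    have : σ (m11 + m22) = σ m11 + σ m22 := by simp [hσ]
    rw [this, e3, e4]; ring
  have hdet : σ (m11 * m22 - m12 * m21) = m11 * m22 - m12 * m21 := by
    have : σ (m11 * m22 - m12 * m21) = σ m11 * σ m22 - σ m12 * σ m21 := by simp [hσ]
    rw [this, e5, e3, e4, e1a]; ring
  obtain ⟨a, ha⟩ := v1_lift (F := F) _ htr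
  obtain ⟨b, hb⟩ := v1_lift (F := F) _ hdet
  refine ⟨a, b, ?_⟩
  have hQ2 : Q ^ 2 = v1E (Pt c x) (m11 + m22) Q - v1E (Pt c x) (m11 * m22 - m12 * m21) 1 := by
    have h1 : v1E (Pt c x) m12 Tw.T = Q - v1E (Pt c x) m11 1 := by
      conv_rhs => rw [hm1]
      abel
    have h2 : Q ^ 2 = v1E (Pt c x) m11 Q + v1E (Pt c x) m12 (Tw.T * Q) := by
      have h3 : Q * Q = (v1E (Pt c x) m11 1 + v1E (Pt c x) m12 Tw.T) * Q := by rw [← hm1]
      rw [pow_two, h3, add_mul, hlin, hlin, one_mul]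
    rw [h2, hm2, map_add, ← v1E_mul _ m12 m22, mul_comm m12 m22, v1E_mul _ m22 m12, h1, map_sub,
      v1E_add, v1E_sub, v1E_mul, v1E_mul, ← v1E_mul _ m11 m22, ← v1E_mul _ m22 m11,
      mul_comm m22 m11]
    abel
  rw [hQ2, ← ha, ← hb, v1E_map _ _ hQ, v1E_map _ _ (by rw [mul_one, one_mul]), mul_one]
  abel

end Pool.Agent.H9.Ram
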