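import Pool.Agent.H9.Ram.Defs

/-!
# Module V2: quadratic equations in `E{τ}`

`Q` with all coefficients fixed by `e ↦ e^(q^2)`. Put `conj Q = ∑ (-1)^i Q_i^(q^(i+1)) τ^i`, so the coefficients are
`Q_i^q` for even `i` and `- Q_i` for odd `i`. Then `Q + conj Q` has coefficients `Q_i + Q_i^q ∈ F` (even), `0` (odd),
and `N = conj Q * Q` has coefficients: for odd `n`: the terms `(i, j)`, `i + j = n`, `i` even, `j` odd give
`Q_i^q Q_j`, and `i` odd, `j` even give `- Q_i Q_j^q`, which cancel in pairs `(i,j) ↔ (j,i)`; for even `n` the sum is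
`∑_{i,j even} Q_i^q Q_j - ∑_{i,j odd} Q_i Q_j^q`, which is fixed by `e ↦ e^q` by the symmetry
`(i,j) ↔ (j,i)`, so it lies in `F` (`Tw.mem_range_of_pow_card_eq`). So `Q + conj Q = a(τ²)`, `conj Q * Q = b(τ²)`
with `a, b ∈ F[X]` and `Q² - (Q + conj Q) Q + conj Q * Q = 0`.
-/

open Polynomial

noncomputable section

namespace Pool.Agent.H9.Ram

variable {F K : Type*} [Field F] [Fintype F] [Field K] [Algebra F K]

namespace V2

/-- An element with coefficients fixed by the Frobenius and vanishing at odd indices is `a(τ²)`. -/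
theorem exists_aeval_T2 (f : Tw F K) (hodd : ∀ i, Odd i → f.coeff i = 0)
    (hfix : ∀ i, fr F 1 (f.coeff i) = f.coeff i) :
    ∃ a : F[X], Polynomial.aeval (Tw.T ^ 2 : Tw F K) a = f := by
  have h1 : ∀ i, ∃ r : F, algebraMap F K r = f.coeff (2 * i) := by
    intro i
    apply Tw.mem_range_of_pow_card_eq
    have := hfix (2 * i)
    rwa [fr_apply, pow_one] at this
  choose r hr using h1
  refine ⟨∑ i ∈ Finset.range (f.natDegree + 1), Polynomial.C (r i) * Polynomial.X ^ i, ?_⟩
  rw [map_sum]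
  apply Tw.ext_coeff
  intro n
  rw [Tw.coeff_sum]
  have h2 : ∀ i, (Polynomial.aeval (Tw.T ^ 2 : Tw F K) (Polynomial.C (r i) * Polynomial.X ^ i)).coeff n
      = if n = 2 * i then f.coeff (2 * i) else 0 := by
    intro i
    rw [map_mul, map_pow, Polynomial.aeval_X, Polynomial.aeval_C, Tw.algebraMap_apply, hr,
      Tw.coeff_C_mul, ← pow_mul, Tw.coeff_T_pow, mul_ite, mul_one, mul_zero]
  simp only [h2]
  rcases Nat.even_or_odd' n with ⟨m, rfl | rfl⟩
  · by_cases hm : m ∈ Finset.range (f.natDegree + 1)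
    · rw [Finset.sum_eq_single m]
      · rw [if_pos rfl]
      · intro b _ hb
        rw [if_neg (by omega)]
      · intro h; exact absurd hm h
    · rw [Finset.sum_eq_zero]
      · rw [Finset.mem_range, not_lt] at hm
        exact (Tw.coeff_eq_zero_of_natDegree_lt (by omega)).symm
      · intro i hi
        rw [if_neg]
        intro h
        apply hm
        rw [show m = i by omega]
        exact hi
  · rw [Finset.sum_eq_zero, hodd _ ⟨m, rfl⟩]
    intro i _
    rw [if_neg (by omega)]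

/-- The conjugate. -/
def cj (Q : Tw F K) : Tw F K :=
  ∑ i ∈ Finset.range (Q.natDegree + 1), Tw.C ((-1) ^ i * fr F (i + 1) (Q.coeff i)) * Tw.T ^ i

theorem coeff_cj (Q : Tw F K) (n : ℕ) : (cj Q).coeff n = (-1) ^ n * fr F (n + 1) (Q.coeff n) := by
  unfold cj
  rw [Tw.coeff_sum]
  have h2 : ∀ i, (Tw.C ((-1) ^ i * fr F (i + 1) (Q.coeff i)) * Tw.T ^ i : Tw F K).coeff n
      = if n = i then (-1) ^ i * fr F (i + 1) (Q.coeff i) else 0 := by
    intro i
    rw [Tw.coeff_C_mul, Tw.coeff_T_pow, mul_ite, mul_one, mul_zero]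
  simp only [h2]
  rw [Finset.sum_ite_eq]
  by_cases h : n ∈ Finset.range (Q.natDegree + 1)
  · rw [if_pos h]
  · rw [if_neg h]
    rw [Finset.mem_range, not_lt] at h
    rw [Tw.coeff_eq_zero_of_natDegree_lt (by omega), map_zero, mul_zero]

section
variable (Q : Tw F K) (hQ : ∀ i, (Q.coeff i) ^ (Fintype.card F ^ 2) = Q.coeff i)
include hQ

theorem fr_two (i : ℕ) : fr F 2 (Q.coeff i) = Q.coeff i := by
  rw [fr_apply, hQ]

theorem fr_even (m i : ℕ) : fr F (2 * m) (Q.coeff i) = Q.coeff i := by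
  induction m with
  | zero => simp
  | succ m ih => rw [show 2 * (m + 1) = 2 * m + 2 by ring, ← fr_fr, fr_two Q hQ, ih]

theorem fr_odd (m i : ℕ) : fr F (2 * m + 1) (Q.coeff i) = fr F 1 (Q.coeff i) := by
  rw [show 2 * m + 1 = 1 + 2 * m by ring, ← fr_fr, fr_even Q hQ]

theorem fr_one_one (i : ℕ) : fr F 1 (fr F 1 (Q.coeff i)) = Q.coeff i := by
  rw [fr_fr, fr_two Q hQ]

theorem coeff_cj_even (m : ℕ) : (cj Q).coeff (2 * m) = fr F 1 (Q.coeff (2 * m)) := by
  rw [coeff_cj, fr_odd Q hQ, pow_mul]; simp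

theorem coeff_cj_odd (m : ℕ) : (cj Q).coeff (2 * m + 1) = - Q.coeff (2 * m + 1) := by
  rw [coeff_cj, show 2 * m + 1 + 1 = 2 * (m + 1) by ring, fr_even Q hQ, pow_succ, pow_mul]; simp

/-- The terms of the norm. -/
theorem term_even_even (i j : ℕ) :
    (cj Q).coeff (2 * i) * fr F (2 * i) (Q.coeff j) = fr F 1 (Q.coeff (2 * i)) * Q.coeff j := by
  rw [coeff_cj_even Q hQ, fr_even Q hQ]

theorem term_odd (i j : ℕ) :
    (cj Q).coeff (2 * i + 1) * fr F (2 * i + 1) (Q.coeff j) =
      - (Q.coeff (2 * i + 1) * fr F 1 (Q.coeff j)) := by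
  rw [coeff_cj_odd Q hQ, fr_odd Q hQ]; ring

end

end V2

open V2 in
theorem exists_quadratic_T2 (Q : Tw F K)
    (hQ : ∀ i, (Q.coeff i) ^ (Fintype.card F ^ 2) = Q.coeff i) :
    ∃ a b : F[X], Q ^ 2 - Polynomial.aeval (Tw.T ^ 2 : Tw F K) a * Q +
      Polynomial.aeval (Tw.T ^ 2 : Tw F K) b = 0 := by
  obtain ⟨a, ha⟩ := exists_aeval_T2 (Q + cj Q) (by
    rintro i ⟨m, rfl⟩
    rw [Tw.coeff_add, coeff_cj_odd Q hQ, add_neg_cancel]) (by
    intro i
    rcases Nat.even_or_odd' i with ⟨m, rfl | rfl⟩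
    · rw [Tw.coeff_add, coeff_cj_even Q hQ, map_add, fr_one_one Q hQ, add_comm]
    · rw [Tw.coeff_add, coeff_cj_odd Q hQ, add_neg_cancel, map_zero])
  obtain ⟨b, hb⟩ := exists_aeval_T2 (cj Q * Q) (by
    rintro n ⟨m, rfl⟩
    rw [Tw.coeff_mul]
    apply Finset.sum_involution (fun p _ => p.swap)
    · rintro ⟨i, j⟩ hij
      simp only [Finset.HasAntidiagonal.mem_antidiagonal] at hij
      simp only [Prod.fst_swap, Prod.snd_swap]
      rcases Nat.even_or_odd' i with ⟨k, rfl | rfl⟩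
      · obtain ⟨l, rfl⟩ : ∃ l, j = 2 * l + 1 := ⟨m - k, by omega⟩
        rw [term_even_even Q hQ, term_odd Q hQ]; ring
      · obtain ⟨l, rfl⟩ : ∃ l, j = 2 * l := ⟨m - k, by omega⟩
        rw [term_even_even Q hQ, term_odd Q hQ]; ring
    · rintro ⟨i, j⟩ hij _ h
      simp only [Finset.HasAntidiagonal.mem_antidiagonal] at hij
      simp only [Prod.swap_prod_mk, Prod.mk.injEq] at h
      omega
    · rintro ⟨i, j⟩ hij
      rfl
    · rintro ⟨i, j⟩ hij
      simp only [Finset.HasAntidiagonal.mem_antidiagonal] at hij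
      simp only [Prod.swap_prod_mk, Finset.HasAntidiagonal.mem_antidiagonal]
      omega) (by
    intro n
    rcases Nat.even_or_odd' n with ⟨m, rfl | rfl⟩
    · rw [Tw.coeff_mul, map_sum]
      conv_rhs => rw [← Finset.Nat.sum_antidiagonal_swap]
      apply Finset.sum_congr rfl
      rintro ⟨i, j⟩ hij
      simp only [Finset.HasAntidiagonal.mem_antidiagonal] at hij
      simp only [Prod.swap_prod_mk]
      rcases Nat.even_or_odd' i with ⟨k, rfl | rfl⟩
      · obtain ⟨l, rfl⟩ : ∃ l, j = 2 * l := ⟨m - k, by omega⟩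
        rw [term_even_even Q hQ, term_even_even Q hQ, map_mul, fr_one_one Q hQ]; ring
      · obtain ⟨l, rfl⟩ : ∃ l, j = 2 * l + 1 := ⟨m - k - 1, by omega⟩
        rw [term_odd Q hQ, term_odd Q hQ, map_neg, map_mul, fr_one_one Q hQ]; ring
    · rw [Tw.coeff_mul]
      have h0 : ∑ p ∈ Finset.HasAntidiagonal.antidiagonal (2 * m + 1),
          (cj Q).coeff p.1 * fr F p.1 (Q.coeff p.2) = 0 := by
        apply Finset.sum_involution (fun p _ => p.swap)
        · rintro ⟨i, j⟩ hij
          simp only [Finset.HasAntidiagonal.mem_antidiagonal] at hij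
          simp only [Prod.fst_swap, Prod.snd_swap]
          rcases Nat.even_or_odd' i with ⟨k, rfl | rfl⟩
          · obtain ⟨l, rfl⟩ : ∃ l, j = 2 * l + 1 := ⟨m - k, by omega⟩
            rw [term_even_even Q hQ, term_odd Q hQ]; ring
          · obtain ⟨l, rfl⟩ : ∃ l, j = 2 * l := ⟨m - k, by omega⟩
            rw [term_even_even Q hQ, term_odd Q hQ]; ring
        · rintro ⟨i, j⟩ hij _ h
          simp only [Finset.HasAntidiagonal.mem_antidiagonal] at hij
          simp only [Prod.swap_prod_mk, Prod.mk.injEq] at h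
          omega
        · rintro ⟨i, j⟩ hij
          rfl
        · rintro ⟨i, j⟩ hij
          simp only [Finset.HasAntidiagonal.mem_antidiagonal] at hij
          simp only [Prod.swap_prod_mk, Finset.HasAntidiagonal.mem_antidiagonal]
          omega
      rw [h0, map_zero])
  refine ⟨a, b, ?_⟩
  rw [ha, hb, add_mul, pow_two]
  abel

end Pool.Agent.H9.Ram
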