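import Pool.Agent.H9.Ram.V1
import Pool.Agent.H9.Ram.V2
import Pool.Agent.H9.Ram.V3

/-!
# Module V4: existence of types on both sides

* `z τ^k ∉ F[P_x]` for `k > 0`, `z ≠ 0`: if `z τ^k = α(P)`, `P = c + τ + x τ²`, write `α = (X - c)^j α₀` with
  `α₀(c) ≠ 0`; `P - c = τ + x τ²` has `ord = 1`, `α₀(P)` has constant coefficient `α₀(c) ≠ 0`, so
  `ord α(P) = j = k`; and `natDegree α(P) = 2 natDegree α = k`, so `2 k ≤ 2 natDegree α = k`, contradiction.
* `P_x` commutes with `z τ^k` if `x^(q^k) = x`.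
* `γ` in `DStar` (`k > 0`) is not in `F[τ²]`: if `γ = α(τ²)` then `α (A - α) = e (X - c)^k` in `F[X]`
  (`Tw.aeval_eq_zero_iff`), so `α = e₁ (X-c)^i`, `A - α = e₂ (X-c)^(k-i)`; the degree of `γ` is `2 i = k`, so
  `i > 0` and `k - i > 0`, so `A(c) = 0`, contradiction. The elements commuting with `τ²` are those whose
  coefficients satisfy `e^(q^2) = e` (`Tw.T_pow_mul_comm_iff`).
* smoothness on the quaternion side: let `P = τ²`, witness `Q`, `Q² - a(P) Q + b(P) = 0` and suppose `r ∈ F`,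
  `X ∣ a - 2r`, `X² ∣ r² - r a + b`. Then `(Q - r)² = (a - 2r)(P) (Q - r) - (r² - r a + b)(P)`.
  `θ = Q.coeff 0` satisfies `(θ - r)² = 0` so `ord (Q - r) ≥ 1` (or `Q = r`); the right side has all coefficients
  of index `< 3` equal to `0`; `ord ((Q-r)²) = 2 ord (Q - r)`, so `ord (Q - r) ≥ 2`, i.e. `Q - r = h τ²`
  (the coefficients of index 0 and 1 vanish): contradiction to the last clause of `IsWit`.
* possible values of `θ = Q.coeff 0` on the quaternion side: `θ^(q^2) = θ`, `θ² - a(0) θ + b(0) = 0`. If `θ ∈ F`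
  then `θ` is the only root in `F` and it is a double root (`a(0) = 2 θ`): otherwise
  `(Q - θ)(Q + θ - a(0)) = (a - a(0))(P) Q - (b - b(0))(P)` has vanishing coefficients of index `0, 1`, and
  `Q + θ - a(0)` has constant coefficient `2θ - a(0) ≠ 0`, so `ord (Q - θ) ≥ 2`: contradiction as before.
  So the number of possible `θ` is at most `2 - rts`: if `rts = 0` at most two roots; if there is a root in `F`
  (`rts ≥ 1`) and a possible `θ`: `θ` must be in `F` (all roots of the quadratic are in `F` then), a double root,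
  `rts = 1` and there is only one `θ`; if `rts = 2` there is none.
-/

open Polynomial

noncomputable section

namespace Pool.Agent.H9.Ram

variable {F K : Type*} [Field F] [Fintype F] [Field K] [Algebra F K]

theorem v4_coeff_Pt (c : F) (x : K) (n : ℕ) : (Pt c x).coeff n =
    (if n = 0 then algebraMap F K c else 0) + (if n = 1 then 1 else 0) +
      x * (if n = 2 then 1 else 0) := by
  unfold Pt
  rw [Tw.coeff_add, Tw.coeff_add, Tw.algebraMap_apply, Tw.coeff_C, Tw.coeff_T, Tw.coeff_C_mul,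
    Tw.coeff_T_pow]

theorem natDegree_Pt (c : F) {x : K} (hx : x ≠ 0) : (Pt c x).natDegree = 2 := by
  apply le_antisymm
  · rw [Tw.natDegree_le_iff]
    intro n hn
    rw [v4_coeff_Pt, if_neg (by omega), if_neg (by omega), if_neg (by omega)]
    simp
  · apply Tw.le_natDegree_of_coeff_ne_zero
    rw [v4_coeff_Pt]
    simpa using hx

theorem coeff_Pt_zero (c : F) (x : K) : (Pt c x).coeff 0 = algebraMap F K c := by
  rw [v4_coeff_Pt]; simp

theorem Pt_comm (c z : F) {x : K} {k : ℕ} (hx : x ^ (Fintype.card F ^ k) = x) :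
    Pt c x * (algebraMap F (Tw F K) z * Tw.T ^ k) = (algebraMap F (Tw F K) z * Tw.T ^ k) * Pt c x := by
  have h1 : Commute (Pt c x) (algebraMap F (Tw F K) z) := (Algebra.commutes z (Pt c x)).symm
  have h2 : Commute (Pt c x) ((Tw.T : Tw F K) ^ k) := by
    unfold Pt
    refine Commute.add_left (Commute.add_left ?_ ?_) ?_
    · exact Algebra.commutes c _
    · exact (Commute.refl _).pow_right k
    · refine Commute.mul_left ?_ ?_
      · show Tw.C x * Tw.T ^ k = Tw.T ^ k * Tw.C x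
        rw [Tw.T_pow_mul_C, fr_apply, hx]
      · exact Commute.pow_pow (Commute.refl _) 2 k
  exact Commute.mul_right h1 h2

theorem v4_ord_eq {R : Type*} [CommRing R] [Algebra F R] (f : Tw F R) (n : ℕ)
    (h0 : f.coeff n ≠ 0) (h : ∀ i < n, f.coeff i = 0) : Tw.ord f = n := by
  have hf : f ≠ 0 := by
    rintro rfl
    exact h0 (Tw.coeff_zero' n)
  apply le_antisymm
  · by_contra hlt
    push Not at hlt
    exact h0 (Tw.coeff_eq_zero_of_lt_ord hlt)
  · by_contra hlt
    push Not at hlt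
    exact Tw.coeff_ord_ne_zero hf (h _ hlt)

theorem v4_not_aeval_Pt (c z : F) {x : K} {k : ℕ} (hk : 0 < k) (hx0 : x ≠ 0) (hz : z ≠ 0)
    (α : F[X]) : algebraMap F (Tw F K) z * Tw.T ^ k ≠ Polynomial.aeval (Pt c x) α := by
  intro h
  have hzK : algebraMap F K z ≠ 0 := (map_ne_zero (algebraMap F K)).2 hz
  have hco : ∀ n, (algebraMap F (Tw F K) z * Tw.T ^ k : Tw F K).coeff n =
      algebraMap F K z * (if n = k then 1 else 0) := by
    intro n
    rw [Tw.algebraMap_apply, Tw.coeff_C_mul, Tw.coeff_T_pow]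
  have hord : Tw.ord (algebraMap F (Tw F K) z * Tw.T ^ k : Tw F K) = k := by
    apply v4_ord_eq
    · rw [hco]; simpa using hz
    · intro i hi
      rw [hco, if_neg (by omega), mul_zero]
  have hdeg : (algebraMap F (Tw F K) z * Tw.T ^ k : Tw F K).natDegree = k := by
    apply le_antisymm
    · rw [Tw.natDegree_le_iff]
      intro n hn
      rw [hco, if_neg (by omega), mul_zero]
    · apply Tw.le_natDegree_of_coeff_ne_zero
      rw [hco]; simpa using hz
  have hP : 0 < (Pt c x).natDegree := by rw [natDegree_Pt c hx0]; omega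
  have hα0 : α ≠ 0 := by
    rintro rfl
    rw [map_zero] at h
    have := hco k
    rw [h, Tw.coeff_zero'] at this
    simp at this
    exact hzK this.symm
  have hdeg2 : k = α.natDegree * 2 := by
    rw [← hdeg, h, Tw.natDegree_aeval _ hP, natDegree_Pt c hx0]
  obtain ⟨α₀, hα₀, hnd⟩ := Polynomial.exists_eq_pow_rootMultiplicity_mul_and_not_dvd α hα0 c
  set j := Polynomial.rootMultiplicity c α with hj
  have hα₀c : α₀.eval c ≠ 0 := by
    intro h0
    exact hnd (Polynomial.dvd_iff_isRoot.2 h0)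
  have hα₀ne : α₀ ≠ 0 := by
    rintro rfl
    simp at hα₀c
  have hjle : j ≤ α.natDegree := by
    rw [hα₀, Polynomial.natDegree_mul (pow_ne_zero _ (Polynomial.X_sub_C_ne_zero c)) hα₀ne,
      Polynomial.natDegree_pow, Polynomial.natDegree_X_sub_C]
    omega
  have hPc : Tw.ord (Pt c x - algebraMap F (Tw F K) c) = 1 := by
    apply v4_ord_eq
    · rw [Tw.coeff_sub, v4_coeff_Pt, Tw.algebraMap_apply, Tw.coeff_C]
      simp
    · intro i hi
      have : i = 0 := by omega
      subst this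
      rw [Tw.coeff_sub, v4_coeff_Pt, Tw.algebraMap_apply, Tw.coeff_C]
      simp
  have hPcne : Pt c x - algebraMap F (Tw F K) c ≠ 0 := by
    intro h0
    have h1 : (Pt c x - algebraMap F (Tw F K) c).coeff 1 = 0 := by rw [h0]; exact Tw.coeff_zero' 1
    rw [Tw.coeff_sub, v4_coeff_Pt, Tw.algebraMap_apply, Tw.coeff_C] at h1
    simp at h1
  have h0c : (Polynomial.aeval (Pt c x) α₀).coeff 0 ≠ 0 := by
    rw [Tw.coeff_aeval_zero, coeff_Pt_zero, Polynomial.aeval_algebraMap_apply_eq_algebraMap_eval]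
    exact (map_ne_zero (algebraMap F K)).2 hα₀c
  have h0ord : Tw.ord (Polynomial.aeval (Pt c x) α₀) = 0 :=
    v4_ord_eq _ 0 h0c (by intro i hi; omega)
  have h0ne : Polynomial.aeval (Pt c x) α₀ ≠ 0 := by
    intro h0
    apply h0c
    rw [h0]; exact Tw.coeff_zero' 0
  have hfin : Tw.ord (Polynomial.aeval (Pt c x) α) = j := by
    rw [hα₀, map_mul, map_pow, map_sub, Polynomial.aeval_X, Polynomial.aeval_C,
      Tw.ord_mul (pow_ne_zero _ hPcne) h0ne, Tw.ord_pow, hPc, h0ord]
    omega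
  rw [← h, hord] at hfin
  omega

theorem exists_typ_Dr (c z : F) {x : K} {k : ℕ} (hk : 0 < k) (hx0 : x ≠ 0)
    (hx : x ^ (Fintype.card F ^ k) = x) (hz : z ≠ 0) :
    ∃ t : Typ F, HasTyp (Pt c x) (algebraMap F (Tw F K) z * Tw.T ^ k) t := by
  have hP : 0 < (Pt c x).natDegree := by rw [natDegree_Pt c hx0]; omega
  exact exists_typ _ _ hP (Pt_comm c z hx) (v4_not_aeval_Pt c z hk hx0 hz)
    (fun Q hQ => exists_quadratic_Pt c x hx0 Q hQ)

theorem v4_exists_eq_mul_T_sq {R : Type*} [CommRing R] [Algebra F R] (f : Tw F R)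
    (h0 : f.coeff 0 = 0) (h1 : f.coeff 1 = 0) : ∃ h : Tw F R, f = h * Tw.T ^ 2 := by
  refine ⟨⟨f.poly.divX.divX⟩, ?_⟩
  apply Tw.ext_coeff
  intro n
  rw [Tw.coeff_mul_T_pow]
  by_cases hn : 2 ≤ n
  · rw [if_pos hn]
    show f.poly.coeff n = f.poly.divX.divX.coeff (n - 2)
    rw [Polynomial.coeff_divX, Polynomial.coeff_divX]
    congr 1
    omega
  · rw [if_neg hn]
    have : n = 0 ∨ n = 1 := by omega
    rcases this with rfl | rfl
    · exact h0
    · exact h1

theorem v4_coeff_mul_one (f g : Tw F K) (hf : f.coeff 0 = 0) :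
    (f * g).coeff 1 = f.coeff 1 * (g.coeff 0) ^ Fintype.card F := by
  rw [Tw.coeff_mul, Finset.Nat.sum_antidiagonal_eq_sum_range_succ_mk]
  simp [Finset.sum_range_succ, hf, fr_apply]

theorem v4_coeff_mul_two (f g : Tw F K) (hf : f.coeff 0 = 0) (hg : g.coeff 0 = 0) :
    (f * g).coeff 2 = f.coeff 1 * (g.coeff 1) ^ Fintype.card F := by
  rw [Tw.coeff_mul, Finset.Nat.sum_antidiagonal_eq_sum_range_succ_mk]
  simp [Finset.sum_range_succ, hf, hg, fr_apply]

theorem v4_coeff_T_sq_mul_zero (f : Tw F K) : ((Tw.T : Tw F K) ^ 2 * f).coeff 0 = 0 := by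
  rw [Tw.coeff_T_pow_mul, if_neg (by omega)]

theorem v4_coeff_T_sq_mul_one (f : Tw F K) : ((Tw.T : Tw F K) ^ 2 * f).coeff 1 = 0 := by
  rw [Tw.coeff_T_pow_mul, if_neg (by omega)]

theorem v4_natDegree_T_sq : ((Tw.T : Tw F K) ^ 2).natDegree = 2 := Tw.natDegree_T_pow 2

theorem v4_exists_dvd_aeval (a : F[X]) : ∃ a₁ : F[X],
    Polynomial.aeval (Tw.T ^ 2 : Tw F K) a =
      Tw.T ^ 2 * Polynomial.aeval (Tw.T ^ 2 : Tw F K) a₁ + algebraMap F (Tw F K) (a.coeff 0) := by
  refine ⟨a.divX, ?_⟩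
  conv_lhs => rw [← Polynomial.X_mul_divX_add a]
  rw [map_add, map_mul, Polynomial.aeval_X, Polynomial.aeval_C]

theorem v4_smooth (Fr Q : Tw F K) (t : Typ F) (h : IsWit (Tw.T ^ 2 : Tw F K) Fr Q t) :
    t.Smooth := by
  obtain ⟨-, hc, -, hq, hns⟩ := h
  rintro r ⟨a₁, ha₁⟩ ⟨b₁, hb₁⟩
  set P : Tw F K := Tw.T ^ 2 with hPdef
  set R : Tw F K := algebraMap F (Tw F K) r with hR
  have hRc : ∀ f : Tw F K, R * f = f * R := fun f => Algebra.commutes r f
  have ha : Polynomial.aeval P t.a = P * Polynomial.aeval P a₁ + 2 * R := by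
    have h1 : t.a = X * a₁ + Polynomial.C (2 * r) := by rw [← ha₁]; ring
    rw [h1, map_add, map_mul, Polynomial.aeval_X, Polynomial.aeval_C, map_mul, map_ofNat]
  have hb : Polynomial.aeval P t.b =
      P ^ 2 * Polynomial.aeval P b₁ - R ^ 2 + R * Polynomial.aeval P t.a := by
    have h1 : t.b = X ^ 2 * b₁ - Polynomial.C (r ^ 2) + Polynomial.C r * t.a := by
      rw [← hb₁]; ring
    rw [h1, map_add, map_sub, map_mul, map_mul, map_pow, Polynomial.aeval_X, Polynomial.aeval_C,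
      Polynomial.aeval_C, map_pow]
  have hkey : (Q - R) * (Q - R) = P * (Polynomial.aeval P a₁ * (Q - R)) -
      P ^ 2 * Polynomial.aeval P b₁ := by
    have h2 : Q ^ 2 = Polynomial.aeval P t.a * Q - Polynomial.aeval P t.b := by
      have := hq
      rw [sub_add] at this
      exact sub_eq_zero.1 this
    have h3 : (Q - R) * (Q - R) = Q ^ 2 - 2 * (R * Q) + R * R := by
      rw [sub_mul, mul_sub, mul_sub, hRc Q, pow_two, two_mul]
      abel
    rw [h3, h2, hb, ha]
    have h4 : R * (P * Polynomial.aeval P a₁) = P * Polynomial.aeval P a₁ * R := hRc _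
    have h5 : R * (2 * R) = 2 * R * R := by rw [hRc]
    simp only [mul_add, add_mul, mul_sub, pow_two, h4, h5, ← mul_assoc]
    rw [two_mul, add_mul, add_mul]
    have h6 : 2 * R * Q = R * Q + R * Q := by rw [two_mul, add_mul]
    try rw [h6]
    abel
  set N : Tw F K := Q - R with hN
  have hN0 : N.coeff 0 = 0 := by
    have h1 : (N * N).coeff 0 = 0 := by
      rw [hkey, Tw.coeff_sub, hPdef, v4_coeff_T_sq_mul_zero, pow_two (Tw.T ^ 2 : Tw F K), mul_assoc,
        v4_coeff_T_sq_mul_zero, sub_zero]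
    rw [Tw.coeff_mul_zero] at h1
    exact mul_self_eq_zero.1 h1
  have hN1 : N.coeff 1 = 0 := by
    have h1 : (N * N).coeff 2 = 0 := by
      rw [hkey, Tw.coeff_sub, hPdef, Tw.coeff_T_pow_mul, if_pos le_rfl, Nat.sub_self,
        Tw.coeff_mul_zero, hN0, mul_zero, map_zero, ← pow_mul, Tw.coeff_T_pow_mul,
        if_neg (by omega), sub_zero]
    rw [v4_coeff_mul_two _ _ hN0 hN0] at h1
    rcases mul_eq_zero.1 h1 with h2 | h2
    · exact h2
    · exact pow_eq_zero_iff Fintype.card_ne_zero |>.1 h2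
  obtain ⟨h, hh⟩ := v4_exists_eq_mul_T_sq N hN0 hN1
  apply hns r h
  rw [← hh, hN]
  abel

theorem v4_not_aeval_T_sq (c : F) (k : ℕ) (hk : 0 < k) (γ : Tw F K) (hdeg : γ.natDegree = k)
    (A : F[X]) (e : F) (he : e ≠ 0) (hA : A.eval c ≠ 0)
    (hq : γ ^ 2 - Polynomial.aeval (Tw.T ^ 2 : Tw F K) A * γ +
        Polynomial.aeval (Tw.T ^ 2 : Tw F K) (Polynomial.C e * (X - Polynomial.C c) ^ k) = 0)
    (α : F[X]) : γ ≠ Polynomial.aeval (Tw.T ^ 2 : Tw F K) α := by
  intro h
  have hP : 0 < ((Tw.T : Tw F K) ^ 2).natDegree := by rw [v4_natDegree_T_sq]; omega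
  rw [h, ← map_pow, ← map_mul, ← map_sub, ← map_add, Tw.aeval_eq_zero_iff _ hP] at hq
  have hd2 : k = α.natDegree * 2 := by
    rw [← hdeg, h, Tw.natDegree_aeval _ hP, v4_natDegree_T_sq]
  have hmul : α * (A - α) = Polynomial.C e * (X - Polynomial.C c) ^ k := by
    linear_combination -hq
  have hpr := Polynomial.prime_X_sub_C c
  have hne : Polynomial.C e * (X - Polynomial.C c) ^ k ≠ 0 :=
    mul_ne_zero (Polynomial.C_ne_zero.2 he) (pow_ne_zero _ (Polynomial.X_sub_C_ne_zero c))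
  have hα0 : α ≠ 0 := by
    rintro rfl
    rw [zero_mul] at hmul
    exact hne hmul.symm
  have hβ0 : A - α ≠ 0 := by
    intro h0
    rw [h0, mul_zero] at hmul
    exact hne hmul.symm
  have hdm : α.natDegree + (A - α).natDegree = k := by
    rw [← Polynomial.natDegree_mul hα0 hβ0, hmul, Polynomial.natDegree_C_mul he,
      Polynomial.natDegree_pow, Polynomial.natDegree_X_sub_C, mul_one]
  have hunit : IsUnit (Polynomial.C e) := Polynomial.isUnit_C.2 (isUnit_iff_ne_zero.2 he)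
  have key : ∀ β : F[X], β ∣ Polynomial.C e * (X - Polynomial.C c) ^ k → 0 < β.natDegree →
      β.eval c = 0 := by
    intro β hβ hpos
    rw [hunit.dvd_mul_left] at hβ
    obtain ⟨i, hi, hass⟩ := (dvd_prime_pow hpr k).1 hβ
    have hi0 : i ≠ 0 := by
      rintro rfl
      rw [pow_zero] at hass
      have : IsUnit β := associated_one_iff_isUnit.1 hass
      have := Polynomial.natDegree_eq_zero_of_isUnit this
      omega
    have h1 : (X - Polynomial.C c) ∣ β := (dvd_pow_self _ hi0).trans hass.symm.dvd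
    exact Polynomial.dvd_iff_isRoot.1 h1
  have hαc := key α ⟨A - α, hmul.symm⟩ (by omega)
  have hβc := key (A - α) ⟨α, by rw [← hmul, mul_comm]⟩ (by omega)
  rw [Polynomial.eval_sub, hαc, sub_zero] at hβc
  exact hA hβc

/-- Objects on the quaternion side have an admissible smooth type. -/
theorem exists_typ_DStar (p : Par F K) (n k : ℕ) (hk : 0 < k) (o : Tw F K × Submodule F K)
    (ho : o ∈ DStar p n k) :
    ∃ t : Typ F, HasTyp (Tw.T ^ 2 : Tw F K) o.1 t ∧ t.Ok p.c k ∧ t.Smooth := by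
  obtain ⟨hfix, hdeg, ⟨A, e, he, hA, hq⟩, -⟩ := ho
  have hP : 0 < ((Tw.T : Tw F K) ^ 2).natDegree := by rw [v4_natDegree_T_sq]; omega
  have hc : Tw.T ^ 2 * o.1 = o.1 * Tw.T ^ 2 := (Tw.T_pow_mul_comm_iff 2 o.1).2 hfix
  obtain ⟨t, ht⟩ := exists_typ (Tw.T ^ 2 : Tw F K) o.1 hP hc
    (v4_not_aeval_T_sq p.c k hk o.1 hdeg A e he hA hq)
    (fun Q hQ => exists_quadratic_T2 Q ((Tw.T_pow_mul_comm_iff 2 Q).1 hQ))
  refine ⟨t, ht, ok_of_quadratic _ _ hP t ht p.c k A e he hA hq, ?_⟩
  obtain ⟨Q, hQ⟩ := ht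
  exact v4_smooth _ Q t hQ

/-- The possible constant coefficients of a witness on the quaternion side. -/
def ThSet (K : Type*) [Field K] [Algebra F K] (t : Typ F) : Set K :=
  {θ | θ ^ (Fintype.card F ^ 2) = θ ∧
    θ ^ 2 - algebraMap F K (t.a.coeff 0) * θ + algebraMap F K (t.b.coeff 0) = 0 ∧
    ((∃ r : F, algebraMap F K r = θ) → algebraMap F K (t.a.coeff 0) = 2 * θ)}

theorem wit_coeff_zero_mem (Fr Q : Tw F K) (t : Typ F) (h : IsWit (Tw.T ^ 2 : Tw F K) Fr Q t) :
    Q.coeff 0 ∈ ThSet K t := by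
  obtain ⟨-, hc, -, hq, hns⟩ := h
  have hP0 : ((Tw.T : Tw F K) ^ 2).coeff 0 = 0 := by
    rw [Tw.coeff_T_pow, if_neg (by omega)]
  have hae : ∀ a : F[X], (Polynomial.aeval (Tw.T ^ 2 : Tw F K) a).coeff 0 =
      algebraMap F K (a.coeff 0) := by
    intro a
    rw [Tw.coeff_aeval_zero, hP0, Polynomial.aeval_def, Polynomial.eval₂_at_zero]
  have hquad : (Q.coeff 0) ^ 2 - algebraMap F K (t.a.coeff 0) * Q.coeff 0 +
      algebraMap F K (t.b.coeff 0) = 0 := by
    have h1 := congrArg (fun f : Tw F K => f.coeff 0) hq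
    rw [Tw.coeff_add, Tw.coeff_sub, pow_two, Tw.coeff_mul_zero, Tw.coeff_mul_zero, hae, hae,
      Tw.coeff_zero', ← pow_two] at h1
    exact h1
  refine ⟨(Tw.T_pow_mul_comm_iff 2 Q).1 hc 0, hquad, ?_⟩
  rintro ⟨r, hr⟩
  by_contra hne
  obtain ⟨a₁, ha₁⟩ := v4_exists_dvd_aeval (K := K) t.a
  obtain ⟨b₁, hb₁⟩ := v4_exists_dvd_aeval (K := K) t.b
  set P : Tw F K := Tw.T ^ 2 with hPdef
  set R : Tw F K := algebraMap F (Tw F K) r with hR
  set A0 : Tw F K := algebraMap F (Tw F K) (t.a.coeff 0) with hA0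
  set B0 : Tw F K := algebraMap F (Tw F K) (t.b.coeff 0) with hB0
  have hRc : ∀ f : Tw F K, R * f = f * R := fun f => Algebra.commutes r f
  have hAc : ∀ f : Tw F K, A0 * f = f * A0 := fun f => Algebra.commutes _ f
  have hrF : r ^ 2 - t.a.coeff 0 * r + t.b.coeff 0 = 0 := by
    apply (algebraMap F K).injective
    rw [map_add, map_sub, map_mul, map_pow, hr, hquad, map_zero]
  have hR2 : R * R - A0 * R + B0 = 0 := by
    rw [hR, hA0, hB0, ← map_mul, ← map_mul, ← map_sub, ← map_add, ← pow_two, hrF, map_zero]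
  have h2 : Q * Q = Polynomial.aeval P t.a * Q - Polynomial.aeval P t.b := by
    have := hq
    rw [sub_add] at this
    rw [← pow_two]
    exact sub_eq_zero.1 this
  have hkey : (Q - R) * (Q + R - A0) = P * (Polynomial.aeval P a₁ * Q) -
      P * Polynomial.aeval P b₁ := by
    have h3 : (Q - R) * (Q + R - A0) = Q * Q - A0 * Q - (R * R - A0 * R) := by
      rw [hAc Q, hAc R]
      simp only [mul_add, sub_mul, mul_sub]
      rw [hRc Q]
      abel
    have h4 : R * R - A0 * R = -B0 := eq_neg_of_add_eq_zero_left hR2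
    rw [h3, h4, h2, ha₁, hb₁, add_mul, mul_assoc]
    abel
  have hN0 : (Q - R).coeff 0 = 0 := by
    rw [Tw.coeff_sub, hR, Tw.algebraMap_apply, Tw.coeff_C_zero, hr, sub_self]
  have hM0 : (Q + R - A0).coeff 0 ≠ 0 := by
    rw [Tw.coeff_sub, Tw.coeff_add, hR, hA0, Tw.algebraMap_apply, Tw.algebraMap_apply,
      Tw.coeff_C_zero, Tw.coeff_C_zero, hr]
    intro h0
    apply hne
    linear_combination -h0
  have hN1 : (Q - R).coeff 1 = 0 := by
    have h1 : ((Q - R) * (Q + R - A0)).coeff 1 = 0 := by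
      rw [hkey, Tw.coeff_sub, hPdef, v4_coeff_T_sq_mul_one, v4_coeff_T_sq_mul_one, sub_zero]
    rw [v4_coeff_mul_one _ _ hN0] at h1
    rcases mul_eq_zero.1 h1 with h5 | h5
    · exact h5
    · exact absurd (pow_eq_zero_iff Fintype.card_ne_zero |>.1 h5) hM0
  obtain ⟨h, hh⟩ := v4_exists_eq_mul_T_sq _ hN0 hN1
  apply hns r h
  rw [← hh]
  abel

theorem v4_rts_sub (a b x y : K) (hx : x ^ 2 - a * x + b = 0) (hy : y ^ 2 - a * y + b = 0) :
    y = x ∨ y = a - x := by
  have h : (y - x) * (y - (a - x)) = 0 := by linear_combination hy - hx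
  rcases mul_eq_zero.1 h with h1 | h1
  · left; exact sub_eq_zero.1 h1
  · right; exact sub_eq_zero.1 h1

theorem v4_finite_quad (a b : K) : {x : K | x ^ 2 - a * x + b = 0}.Finite := by
  by_cases h : ∃ x, x ^ 2 - a * x + b = 0
  · obtain ⟨x, hx⟩ := h
    apply (Set.toFinite ({x, a - x} : Set K)).subset
    intro y hy
    rcases v4_rts_sub a b x y hx hy with h1 | h1
    · left; exact h1
    · right; exact h1
  · push Not at h
    convert Set.finite_empty (α := K)
    ext y
    simpa using h y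

theorem v4_ncard_quad (a b : K) : {x : K | x ^ 2 - a * x + b = 0}.ncard ≤ 2 := by
  by_cases h : ∃ x, x ^ 2 - a * x + b = 0
  · obtain ⟨x, hx⟩ := h
    have hsub : {x : K | x ^ 2 - a * x + b = 0} ⊆ ({x, a - x} : Set K) := by
      intro y hy
      rcases v4_rts_sub a b x y hx hy with h1 | h1
      · left; exact h1
      · right; exact h1
    exact (Set.ncard_le_ncard hsub (Set.toFinite _)).trans (by
      have := Set.ncard_insert_le x ({a - x} : Set K)
      rw [Set.ncard_singleton] at this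
      exact this)
  · push Not at h
    have : {x : K | x ^ 2 - a * x + b = 0} = ∅ := by
      ext y
      simpa using h y
    rw [this, Set.ncard_empty]
    omega

theorem ncard_ThSet_add_rts_le (t : Typ F) : (ThSet K t).ncard + t.rts ≤ 2 := by
  set a : K := algebraMap F K (t.a.coeff 0) with ha
  set b : K := algebraMap F K (t.b.coeff 0) with hb
  set R : Set K := {x : K | x ^ 2 - a * x + b = 0} with hR
  have hRfin : R.Finite := v4_finite_quad a b
  set S : Set K := (algebraMap F K) '' {r : F | r ^ 2 - t.a.coeff 0 * r + t.b.coeff 0 = 0} with hS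
  have hScard : S.ncard = t.rts := by
    rw [hS, Set.ncard_image_of_injective _ (algebraMap F K).injective]
    rfl
  have hSR : S ⊆ R := by
    rintro _ ⟨r, hr, rfl⟩
    show (algebraMap F K r) ^ 2 - a * algebraMap F K r + b = 0
    rw [ha, hb, ← map_pow, ← map_mul, ← map_sub, ← map_add]
    have : r ^ 2 - t.a.coeff 0 * r + t.b.coeff 0 = 0 := hr
    rw [this, map_zero]
  have hTR : ThSet K t ⊆ R := fun θ hθ => hθ.2.1
  rw [← hScard]
  by_cases hdisj : Disjoint (ThSet K t) S
  · rw [← Set.ncard_union_eq hdisj (hRfin.subset hTR) (hRfin.subset hSR)]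
    exact (Set.ncard_le_ncard (Set.union_subset hTR hSR) hRfin).trans (v4_ncard_quad a b)
  · rw [Set.not_disjoint_iff] at hdisj
    obtain ⟨θ, hθ, hθS⟩ := hdisj
    obtain ⟨r, -, hr⟩ := hθS
    have h2 : a = 2 * θ := hθ.2.2 ⟨r, hr⟩
    have hsing : R ⊆ {θ} := by
      intro y hy
      rcases v4_rts_sub a b θ y hθ.2.1 hy with h1 | h1
      · exact h1
      · show y = θ
        rw [h1, h2]; ring
    have h3 : (ThSet K t).ncard ≤ 1 :=
      (Set.ncard_le_ncard (hTR.trans hsing) (Set.toFinite _)).trans (by rw [Set.ncard_singleton])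
    have h4 : S.ncard ≤ 1 :=
      (Set.ncard_le_ncard (hSR.trans hsing) (Set.toFinite _)).trans (by rw [Set.ncard_singleton])
    omega

theorem finite_ThSet (t : Typ F) : (ThSet K t).Finite :=
  (v4_finite_quad (algebraMap F K (t.a.coeff 0)) (algebraMap F K (t.b.coeff 0))).subset
    (fun _ hθ => hθ.2.1)

end Pool.Agent.H9.Ram
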