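import Pool.Agent.H9.Ram.V4

/-!
# Module V5: the dual of a line

`P_x = c + τ + x τ²`, `c ≠ 0`, `x ≠ 0`, `l ≤ ker P_x` a line.
* existence: `l = ker (τ - s)` (`Tw.exists_line_eq_ker`), `P_x = V₀ (τ - s)` (`Tw.exists_right_factor`),
  `natDegree V₀ = 1`. Let `P' = (τ - s) V₀`. It has degree `2`, constant coefficient `c` (constant coefficients
  multiply and commute), and `(τ - s)(P_x - c) = (P' - c)(τ - s)`, so `ord (P' - c) = ord (P_x - c) = 1`
  (`ord (τ - s) = 0`): `P' = c + g τ + x₀ τ²` with `g, x₀ ≠ 0`. Choose `λ^(q-1) = g` and put `U = λ (τ - s)`,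
  `V = V₀ λ⁻¹`: `U V = λ P' λ⁻¹ = c + g λ^(1-q) τ + x₀ λ^(1-q²) τ² = c + τ + x' τ²`, `V U = P_x`.
* uniqueness: `ker U = ker U'` and degree one give `U' = μ U` (`Tw.eq_C_mul_of_ker_eq`), so `V = V' μ` (cancel `U`
  on the right in `V U = V' U'`), and `P_{x''} = U' V' = μ U V μ⁻¹ = μ P_{x'} μ⁻¹ = c + μ^(1-q) τ + …`, so
  `μ^(q-1) = 1`, `μ ∈ F^*` (`Tw.mem_range_of_pow_card_eq`), and `x'' = x' μ^(1-q²) = x'`.
* Frobenius: `τ^k` maps `ker U` into itself, so `U τ^k` kills `ker U`: `U τ^k = W U` (`Tw.exists_right_factor`;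
  the constant coefficient of `U` is nonzero since `c ≠ 0`). `natDegree W = k`, `ord W = k`, so `W = v τ^k`, `v ∈ K^*`.
  `P_x τ^k = τ^k P_x` (as `x^(q^k) = x`) gives
  `P_{x'} v τ^k U = P_{x'} U τ^k = U P_x τ^k = U τ^k P_x = v τ^k U P_x = v τ^k P_{x'} U`, so
  `P_{x'} v τ^k = v τ^k P_{x'}`: comparing coefficients `v^q = v` and `x' v^(q²) = v x'^(q^k)`, so `v ∈ F^*`,
  `x'^(q^k) = x'`. Then `V U τ^k = τ^k V U` gives `v V τ^k U = τ^k V U`, so `v V τ^k = τ^k V`, whence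
  `ker V` is `τ^k`-stable.
-/

open Polynomial

noncomputable section

namespace Pool.Agent.H9.Ram

variable {F K : Type*} [Field F] [Fintype F] [Field K] [Algebra F K] [IsAlgClosed K]

/-- `U`, `V` factor `P_x` and `P_{x'}`. -/
def DualRel (c : F) (x x' : K) (U V : Tw F K) : Prop :=
  U.natDegree = 1 ∧ V.natDegree = 1 ∧ V * U = Pt c x ∧ U * V = Pt c x'

theorem DualRel.symm {c : F} {x x' : K} {U V : Tw F K} (h : DualRel c x x' U V) :
    DualRel c x' x V U := ⟨h.2.1, h.1, h.2.2.2, h.2.2.1⟩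

omit [IsAlgClosed K] in
theorem v5_coeff_Pt (c : F) (x : K) (n : ℕ) : (Pt c x).coeff n =
    if n = 0 then algebraMap F K c else if n = 1 then 1 else if n = 2 then x else 0 := by
  unfold Pt
  rw [Tw.coeff_add, Tw.coeff_add, Tw.algebraMap_apply, Tw.coeff_C, Tw.coeff_T, Tw.coeff_C_mul,
    Tw.coeff_T_pow]
  rcases Nat.lt_trichotomy n 1 with h | h | h
  · have h0 : n = 0 := by omega
    subst h0
    simp
  · subst h
    simp
  · have h0 : n ≠ 0 := by omega
    have h1 : n ≠ 1 := by omega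
    simp [h0, h1]

omit [IsAlgClosed K] in
theorem v5_coeff_Pt_zero (c : F) (x : K) : (Pt c x).coeff 0 = algebraMap F K c := by
  rw [v5_coeff_Pt]
  simp

omit [IsAlgClosed K] in
theorem v5_coeff_Pt_one (c : F) (x : K) : (Pt c x).coeff 1 = 1 := by
  rw [v5_coeff_Pt]
  simp

omit [IsAlgClosed K] in
theorem v5_coeff_Pt_two (c : F) (x : K) : (Pt c x).coeff 2 = x := by
  rw [v5_coeff_Pt]
  simp

omit [IsAlgClosed K] in
theorem v5_ne_zero_of_natDegree {f : Tw F K} (h : f.natDegree = 1) : f ≠ 0 := by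
  rintro rfl
  have h1 : (0 : Tw F K).natDegree ≤ 0 := by
    rw [Tw.natDegree_le_iff]
    intro n _
    exact Tw.coeff_zero' n
  omega

omit [IsAlgClosed K] in
theorem v5_coeff_one_ne {f : Tw F K} (h : f.natDegree = 1) : f.coeff 1 ≠ 0 := by
  have h1 := Tw.coeff_natDegree_ne_zero (v5_ne_zero_of_natDegree h)
  rwa [h] at h1

omit [IsAlgClosed K] in
theorem v5_coeff_mul_one (f g : Tw F K) :
    (f * g).coeff 1 = f.coeff 0 * g.coeff 1 + f.coeff 1 * (g.coeff 0) ^ Fintype.card F := by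
  rw [Tw.coeff_mul, Finset.Nat.sum_antidiagonal_eq_sum_range_succ_mk]
  simp [Finset.sum_range_succ, fr_apply]

omit [IsAlgClosed K] in
theorem v5_fix (f : F) (k : ℕ) : (algebraMap F K f) ^ (Fintype.card F ^ k) = algebraMap F K f := by
  rw [← map_pow, FiniteField.pow_card_pow]

omit [IsAlgClosed K] in
theorem v5_fix_one (f : F) : (algebraMap F K f) ^ Fintype.card F = algebraMap F K f := by
  rw [← map_pow, FiniteField.pow_card]

omit [IsAlgClosed K] in
theorem v5_cancel {f g h : Tw F K} (hh : h ≠ 0) (e : f * h = g * h) : f = g := by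
  have h1 : (f - g) * h = 0 := by rw [sub_mul, e, sub_self]
  rcases mul_eq_zero.1 h1 with h2 | h2
  · exact sub_eq_zero.1 h2
  · exact absurd h2 hh

theorem DualRel.coeff_zero_ne {c : F} (hc : c ≠ 0) {x x' : K} {U V : Tw F K}
    (h : DualRel c x x' U V) : U.coeff 0 ≠ 0 ∧ V.coeff 0 ≠ 0 := by
  have h1 : V.coeff 0 * U.coeff 0 = algebraMap F K c := by
    rw [← Tw.coeff_mul_zero, h.2.2.1, v5_coeff_Pt_zero]
  have h2 : algebraMap F K c ≠ 0 := (map_ne_zero (algebraMap F K)).2 hc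
  rw [← h1] at h2
  exact ⟨right_ne_zero_of_mul h2, left_ne_zero_of_mul h2⟩

theorem DualRel.ne_zero {c : F} {x x' : K} {U V : Tw F K} (h : DualRel c x x' U V) :
    x ≠ 0 ∧ x' ≠ 0 := by
  have hU := v5_coeff_one_ne h.1
  have hV := v5_coeff_one_ne h.2.1
  constructor
  · have h1 := Tw.coeff_mul_of_le (f := V) (g := U) (A := 1) (B := 1) h.2.1.le h.1.le
    rw [h.2.2.1, v5_coeff_Pt_two] at h1
    rw [h1]
    exact mul_ne_zero hV (pow_ne_zero _ hU)
  · have h1 := Tw.coeff_mul_of_le (f := U) (g := V) (A := 1) (B := 1) h.1.le h.2.1.le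
    rw [h.2.2.2, v5_coeff_Pt_two] at h1
    rw [h1]
    exact mul_ne_zero hU (pow_ne_zero _ hV)

theorem DualRel.ker {c : F} (hc : c ≠ 0) {x x' : K} {U V : Tw F K} (h : DualRel c x x' U V) :
    Module.finrank F (LinearMap.ker (Tw.ev U)) = 1 ∧
      LinearMap.ker (Tw.ev U) ≤ LinearMap.ker (Tw.ev (Pt c x)) := by
  refine ⟨?_, ?_⟩
  · rw [Tw.finrank_ker (h.coeff_zero_ne hc).1, h.1]
  · intro y hy
    rw [LinearMap.mem_ker] at hy ⊢
    rw [← h.2.2.1, Tw.ev_mul, hy, map_zero]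

theorem exists_dual {c : F} (hc : c ≠ 0) {x : K} (hx : x ≠ 0) (l : Submodule F K)
    (hl : Module.finrank F l = 1) (hle : l ≤ LinearMap.ker (Tw.ev (Pt c x))) :
    ∃ (x' : K) (U V : Tw F K), DualRel c x x' U V ∧ LinearMap.ker (Tw.ev U) = l := by
  have hq : 1 < Fintype.card F := Fintype.one_lt_card
  obtain ⟨s, hs, hls, -⟩ := Tw.exists_line_eq_ker l hl
  set S : Tw F K := Tw.T - Tw.C s with hS
  have hS0 : S.coeff 0 = -s := by
    rw [hS, Tw.coeff_sub, Tw.coeff_T, Tw.coeff_C]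
    simp
  have hS1 : S.coeff 1 = 1 := by
    rw [hS, Tw.coeff_sub, Tw.coeff_T, Tw.coeff_C]
    simp
  have hSdeg : S.natDegree = 1 := by
    apply le_antisymm
    · rw [Tw.natDegree_le_iff]
      intro n hn
      rw [hS, Tw.coeff_sub, Tw.coeff_T, Tw.coeff_C, if_neg (by omega), if_neg (by omega), sub_zero]
    · apply Tw.le_natDegree_of_coeff_ne_zero
      rw [hS1]
      exact one_ne_zero
  have hSne : S ≠ 0 := v5_ne_zero_of_natDegree hSdeg
  have hns : -s ≠ 0 := neg_ne_zero.2 hs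
  obtain ⟨V0, hV0⟩ := Tw.exists_right_factor (f := Pt c x) (g := S) (by rw [hS0]; exact hns)
    (by rw [← hls]; exact hle)
  have hPne : Pt c x ≠ 0 := by
    intro h
    have h1 := v5_coeff_Pt_one c x
    rw [h, Tw.coeff_zero'] at h1
    exact zero_ne_one h1
  have hV0ne : V0 ≠ 0 := by
    rintro rfl
    rw [zero_mul] at hV0
    exact hPne hV0
  have hPdeg : (Pt c x).natDegree = 2 := by
    apply le_antisymm
    · rw [Tw.natDegree_le_iff]
      intro n hn
      rw [v5_coeff_Pt, if_neg (by omega), if_neg (by omega), if_neg (by omega)]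
    · apply Tw.le_natDegree_of_coeff_ne_zero
      rw [v5_coeff_Pt_two]
      exact hx
  have hV0deg : V0.natDegree = 1 := by
    have h1 := Tw.natDegree_mul hV0ne hSne
    rw [← hV0, hPdeg, hSdeg] at h1
    omega
  -- the product in the other order
  set Q : Tw F K := S * V0 with hQ
  have hQdeg : Q.natDegree = 2 := by
    rw [hQ, Tw.natDegree_mul hSne hV0ne, hSdeg, hV0deg]
  have hQ0 : Q.coeff 0 = algebraMap F K c := by
    rw [hQ, Tw.coeff_mul_zero, mul_comm, ← Tw.coeff_mul_zero, ← hV0, v5_coeff_Pt_zero]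
  have hrel : Q * S = S * Pt c x := by
    rw [hQ, mul_assoc, ← hV0]
  have hQ1 : Q.coeff 1 * (-s) ^ Fintype.card F = -s := by
    have h1 : (Q * S).coeff 1 = (S * Pt c x).coeff 1 := by rw [hrel]
    rw [v5_coeff_mul_one Q S, v5_coeff_mul_one S (Pt c x), hQ0, hS0, hS1, v5_coeff_Pt_one, v5_coeff_Pt_zero,
      v5_fix_one] at h1
    linear_combination h1
  have hg : Q.coeff 1 ≠ 0 := by
    intro h
    rw [h, zero_mul] at hQ1
    exact hns hQ1.symm
  obtain ⟨la, hla⟩ := IsAlgClosed.exists_pow_nat_eq (Q.coeff 1) (n := Fintype.card F - 1) (by omega)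
  have hla0 : la ≠ 0 := by
    rintro rfl
    rw [zero_pow (by omega)] at hla
    exact hg hla.symm
  have hCla : (Tw.C la : Tw F K) ≠ 0 := by
    intro h
    have h1 : (Tw.C la : Tw F K).coeff 0 = la := Tw.coeff_C_zero la
    rw [h, Tw.coeff_zero'] at h1
    exact hla0 h1.symm
  have hCla' : (Tw.C la⁻¹ : Tw F K) ≠ 0 := by
    intro h
    have h1 : (Tw.C la⁻¹ : Tw F K).coeff 0 = la⁻¹ := Tw.coeff_C_zero _
    rw [h, Tw.coeff_zero'] at h1
    exact inv_ne_zero hla0 h1.symm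
  refine ⟨la * Q.coeff 2 * la⁻¹ ^ (Fintype.card F ^ 2), Tw.C la * S, V0 * Tw.C la⁻¹,
    ⟨?_, ?_, ?_, ?_⟩, ?_⟩
  · rw [Tw.natDegree_mul hCla hSne, Tw.natDegree_C, hSdeg]
  · rw [Tw.natDegree_mul hV0ne hCla', Tw.natDegree_C, hV0deg]
  · have h1 : (Tw.C la⁻¹ : Tw F K) * Tw.C la = 1 := by
      rw [← map_mul, inv_mul_cancel₀ hla0, map_one]
    calc V0 * Tw.C la⁻¹ * (Tw.C la * S) = V0 * (Tw.C la⁻¹ * Tw.C la) * S := by
          simp only [mul_assoc]
      _ = V0 * S := by rw [h1, mul_one]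
      _ = Pt c x := hV0.symm
  · have h1 : Tw.C la * S * (V0 * Tw.C la⁻¹) = Tw.C la * (Q * Tw.C la⁻¹) := by
      rw [hQ]
      simp only [mul_assoc]
    rw [h1]
    apply Tw.ext_coeff
    intro n
    rw [Tw.coeff_C_mul, Tw.coeff_mul_C, fr_apply, v5_coeff_Pt]
    by_cases h0 : n = 0
    · subst h0
      rw [if_pos rfl, hQ0, pow_zero, pow_one]
      field_simp
    · rw [if_neg h0]
      by_cases h1 : n = 1
      · subst h1
        rw [if_pos rfl, pow_one, ← hla]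
        have h2 : la * (la ^ (Fintype.card F - 1) * la⁻¹ ^ Fintype.card F) =
            (la ^ (Fintype.card F - 1) * la) * la⁻¹ ^ Fintype.card F := by ring
        rw [h2, ← pow_succ, Nat.sub_add_cancel hq.le, inv_pow, mul_inv_cancel₀ (pow_ne_zero _ hla0)]
      · rw [if_neg h1]
        by_cases h2 : n = 2
        · subst h2
          rw [if_pos rfl, mul_assoc]
        · rw [if_neg h2, Tw.coeff_eq_zero_of_natDegree_lt (by omega), zero_mul, mul_zero]
  · rw [hls]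
    ext y
    rw [LinearMap.mem_ker, LinearMap.mem_ker, Tw.ev_mul, Tw.ev_C]
    constructor
    · intro h
      rcases mul_eq_zero.1 h with h2 | h2
      · exact absurd h2 hla0
      · exact h2
    · intro h
      rw [h, mul_zero]

theorem DualRel.unique {c : F} (hc : c ≠ 0) {x x' x'' : K} {U V U' V' : Tw F K}
    (h : DualRel c x x' U V) (h' : DualRel c x x'' U' V')
    (hk : LinearMap.ker (Tw.ev U) = LinearMap.ker (Tw.ev U')) :
    x' = x'' ∧ ∃ f : F, f ≠ 0 ∧ U' = algebraMap F (Tw F K) f * U ∧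
      V = algebraMap F (Tw F K) f * V' := by
  obtain ⟨mu, hmu, hU'⟩ := Tw.eq_C_mul_of_ker_eq h'.1 h.1 (h.coeff_zero_ne hc).1 hk.le
  have hUne := v5_ne_zero_of_natDegree h.1
  have hV : V = V' * Tw.C mu := by
    apply v5_cancel hUne
    rw [h.2.2.1, mul_assoc, ← hU', h'.2.2.1]
  have hconj : Tw.C mu * Pt c x' = Pt c x'' * Tw.C mu := by
    rw [← h.2.2.2, ← h'.2.2.2, hV, hU']
    simp only [mul_assoc]
  have h1 : mu ^ Fintype.card F = mu := by
    have h2 : (Tw.C mu * Pt c x').coeff 1 = (Pt c x'' * Tw.C mu).coeff 1 := by rw [hconj]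
    rw [Tw.coeff_C_mul, Tw.coeff_mul_C, v5_coeff_Pt_one, v5_coeff_Pt_one, fr_apply, pow_one,
      mul_one, one_mul] at h2
    exact h2.symm
  obtain ⟨f, hf⟩ := Tw.mem_range_of_pow_card_eq h1
  have h3 : x' = x'' := by
    have h2 : (Tw.C mu * Pt c x').coeff 2 = (Pt c x'' * Tw.C mu).coeff 2 := by rw [hconj]
    rw [Tw.coeff_C_mul, Tw.coeff_mul_C, v5_coeff_Pt_two, v5_coeff_Pt_two, fr_apply, ← hf, v5_fix,
      hf, mul_comm] at h2
    exact mul_right_cancel₀ hmu h2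
  refine ⟨h3, f, ?_, ?_, ?_⟩
  · rintro rfl
    rw [map_zero] at hf
    exact hmu hf.symm
  · rw [hU', Tw.algebraMap_apply, hf]
  · rw [hV, Algebra.commutes, Tw.algebraMap_apply, hf]

omit [IsAlgClosed K] in
theorem v5_Pt_comm {c : F} {x : K} {k : ℕ} (hx : x ^ (Fintype.card F ^ k) = x) :
    Tw.T ^ k * Pt c x = Pt c x * Tw.T ^ k := by
  rw [Tw.T_pow_mul_comm_iff]
  intro i
  rw [v5_coeff_Pt]
  split_ifs with h0 h1 h2
  · exact v5_fix c k
  · exact one_pow _
  · exact hx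
  · exact zero_pow (pow_ne_zero _ Fintype.card_ne_zero)

omit [IsAlgClosed K] in
theorem v5_ord_zero {f : Tw F K} (h : f.coeff 0 ≠ 0) : Tw.ord f = 0 := by
  unfold Tw.ord
  exact Nat.eq_zero_of_le_zero (Nat.sInf_le (s := {n | f.coeff n ≠ 0}) h)

omit [IsAlgClosed K] in
theorem v5_ord_T : Tw.ord (Tw.T : Tw F K) = 1 := by
  have hT : (Tw.T : Tw F K) ≠ 0 := by
    intro h
    have h1 : (Tw.T : Tw F K).coeff 1 = 1 := by
      rw [Tw.coeff_T]
      simp
    rw [h, Tw.coeff_zero'] at h1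
    exact zero_ne_one h1
  have h1 := Tw.coeff_ord_ne_zero hT
  rw [Tw.coeff_T] at h1
  by_contra h
  rw [if_neg h] at h1
  exact h1 rfl

theorem DualRel.frob {c : F} (hc : c ≠ 0) {x x' : K} {U V : Tw F K} (h : DualRel c x x' U V)
    {k : ℕ} (hx : x ^ (Fintype.card F ^ k) = x)
    (hs : (LinearMap.ker (Tw.ev U)).map (Tw.ev (Tw.T ^ k : Tw F K)) ≤ LinearMap.ker (Tw.ev U)) :
    x' ^ (Fintype.card F ^ k) = x' ∧ ∃ v : F, v ≠ 0 ∧
      U * Tw.T ^ k = algebraMap F (Tw F K) v * (Tw.T ^ k * U) ∧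
      algebraMap F (Tw F K) v * (V * Tw.T ^ k) = Tw.T ^ k * V := by
  have hUne := v5_ne_zero_of_natDegree h.1
  have hU0 := (h.coeff_zero_ne hc).1
  have hTk : (Tw.T ^ k : Tw F K) ≠ 0 := by
    intro h0
    have h1 : (Tw.T ^ k : Tw F K).coeff k = 1 := by
      rw [Tw.coeff_T_pow]
      simp
    rw [h0, Tw.coeff_zero'] at h1
    exact zero_ne_one h1
  obtain ⟨W, hW⟩ := Tw.exists_right_factor (f := U * Tw.T ^ k) (g := U) hU0 (by
    intro y hy
    have h1 := hs (Submodule.mem_map_of_mem hy)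
    rw [LinearMap.mem_ker] at h1 ⊢
    rw [Tw.ev_mul]
    exact h1)
  have hprod : U * Tw.T ^ k ≠ 0 := mul_ne_zero hUne hTk
  have hWne : W ≠ 0 := by
    rintro rfl
    rw [zero_mul] at hW
    exact hprod hW
  have hWdeg : W.natDegree = k := by
    have h1 := Tw.natDegree_mul hUne hTk
    rw [hW, Tw.natDegree_mul hWne hUne, Tw.natDegree_T_pow, h.1] at h1
    omega
  have hWord : Tw.ord W = k := by
    have h1 := Tw.ord_mul hUne hTk
    rw [hW, Tw.ord_mul hWne hUne, v5_ord_zero hU0, Tw.ord_pow, v5_ord_T] at h1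
    omega
  set v0 : K := W.coeff k with hv0
  have hv0ne : v0 ≠ 0 := by
    have h1 := Tw.coeff_natDegree_ne_zero hWne
    rwa [hWdeg] at h1
  have hWeq : W = Tw.C v0 * Tw.T ^ k := by
    apply Tw.ext_coeff
    intro n
    rw [Tw.coeff_C_mul, Tw.coeff_T_pow]
    by_cases hn : n = k
    · rw [if_pos hn, mul_one, hn]
    · rw [if_neg hn, mul_zero]
      rcases Nat.lt_or_gt_of_ne hn with h1 | h1
      · exact Tw.coeff_eq_zero_of_lt_ord (by omega)
      · exact Tw.coeff_eq_zero_of_natDegree_lt (by omega)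
  have hcomm := v5_Pt_comm (c := c) hx
  have hkey : Pt c x' * (Tw.C v0 * Tw.T ^ k) = Tw.C v0 * Tw.T ^ k * Pt c x' := by
    apply v5_cancel hUne
    calc Pt c x' * (Tw.C v0 * Tw.T ^ k) * U = Pt c x' * (U * Tw.T ^ k) := by
          rw [mul_assoc, ← hWeq, ← hW]
      _ = U * (Pt c x * Tw.T ^ k) := by
          rw [← h.2.2.2, ← h.2.2.1]
          simp only [mul_assoc]
      _ = U * Tw.T ^ k * Pt c x := by
          rw [← hcomm, mul_assoc]
      _ = Tw.C v0 * Tw.T ^ k * (U * Pt c x) := by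
          rw [hW, hWeq, mul_assoc]
      _ = Tw.C v0 * Tw.T ^ k * Pt c x' * U := by
          rw [← h.2.2.2, ← h.2.2.1]
          simp only [mul_assoc]
  have hco : ∀ n, (Pt c x').coeff n * v0 ^ (Fintype.card F ^ n) =
      v0 * ((Pt c x').coeff n) ^ (Fintype.card F ^ k) := by
    intro n
    have h1 : (Pt c x' * (Tw.C v0 * Tw.T ^ k)).coeff (n + k) =
        (Tw.C v0 * Tw.T ^ k * Pt c x').coeff (n + k) := by rw [hkey]
    rw [← mul_assoc, Tw.coeff_mul_T_pow, if_pos (by omega), Nat.add_sub_cancel, Tw.coeff_mul_C,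
      mul_assoc, Tw.coeff_C_mul, Tw.coeff_T_pow_mul, if_pos (by omega), Nat.add_sub_cancel,
      fr_apply, fr_apply] at h1
    exact h1
  have hv1 : v0 ^ Fintype.card F = v0 := by
    have h1 := hco 1
    rw [v5_coeff_Pt_one, one_pow, pow_one, one_mul, mul_one] at h1
    exact h1
  obtain ⟨v, hv⟩ := Tw.mem_range_of_pow_card_eq hv1
  have hx' : x' ^ (Fintype.card F ^ k) = x' := by
    have h1 := hco 2
    rw [v5_coeff_Pt_two, ← hv, v5_fix, hv, mul_comm] at h1
    exact (mul_left_cancel₀ hv0ne h1).symm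
  have hvW : U * Tw.T ^ k = algebraMap F (Tw F K) v * (Tw.T ^ k * U) := by
    rw [hW, hWeq, Tw.algebraMap_apply, hv, mul_assoc]
  refine ⟨hx', v, ?_, hvW, ?_⟩
  · rintro rfl
    rw [map_zero] at hv
    exact hv0ne hv.symm
  · apply v5_cancel hUne
    calc algebraMap F (Tw F K) v * (V * Tw.T ^ k) * U
        = V * (algebraMap F (Tw F K) v * (Tw.T ^ k * U)) := by
          rw [← mul_assoc V, ← Algebra.commutes v V]
          simp only [mul_assoc]
      _ = V * (U * Tw.T ^ k) := by rw [← hvW]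
      _ = Tw.T ^ k * V * U := by
          rw [← mul_assoc, h.2.2.1, ← hcomm, ← h.2.2.1, mul_assoc]

/-- The dual line is stable. -/
theorem DualRel.isFixLine {c : F} (hc : c ≠ 0) {x x' : K} {U V : Tw F K}
    (h : DualRel c x x' U V) {k : ℕ} {v : F} (hv : v ≠ 0)
    (hV : algebraMap F (Tw F K) v * (V * Tw.T ^ k) = Tw.T ^ k * V) :
    IsFixLine c k x' (LinearMap.ker (Tw.ev V)) := by
  obtain ⟨h1, h2⟩ := h.symm.ker hc
  refine ⟨h1, h2, ?_⟩
  rintro _ ⟨y, hy, rfl⟩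
  rw [SetLike.mem_coe, LinearMap.mem_ker] at hy
  rw [LinearMap.mem_ker, ← Tw.ev_mul]
  have h3 : Tw.ev (algebraMap F (Tw F K) v * (V * Tw.T ^ k)) y = 0 := by
    rw [hV, Tw.ev_mul, hy, map_zero]
  rw [Tw.ev_mul, Tw.algebraMap_apply, Tw.ev_C] at h3
  rcases mul_eq_zero.1 h3 with h4 | h4
  · exact absurd ((map_eq_zero (algebraMap F K)).1 h4) hv
  · exact h4

end Pool.Agent.H9.Ram
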