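import Pool.Agent.H9.Ram.V6

/-!
# Module V7: good and bad edges

Let `Q` be a witness of the type `t` of `(P_x, Fr)`, `Fr = ζ τ^k`. An edge `l` (a line in `ker P_x`, stable under `τ^k`)
is good if `Q l ≤ l`.
* the number of good lines is at most `rts t`: on `ker P_x` (dimension 2, `Tw.finrank_ker`, `c ≠ 0`) the equation of `Q`
  reads `Q² - a(0) Q + b(0) = 0` (as `P_x = 0` there), so a good line `l` consists of eigenvectors with eigenvalue
  `r ∈ F`, `r² - a(0) r + b(0) = 0`. Two different lines have different eigenvalues: otherwise `Q = r` on `ker P_x`,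
  so `Q - r = h P_x` (`Tw.exists_right_factor`), contradicting the last clause of `IsWit`.
* bad edges: let `DualRel c x x' U V`, `ker U = l`, `v` as in `IsDualEdge`, `Fr' = ζ v τ^k`, so `U Fr = Fr' U`
  (and `Fr V = V Fr'`). First `m = t.m ≥ 1`, since for `m = 0` we have `α = 0`, `Q = Fr`, which preserves `l`.
  Put `D = U Q V`, `P = P_x`, `P' = P_{x'}`. Then `P' D = U V U Q V = U P Q V = U Q P V = U Q V U V = D P'`;
  `D² = U Q V U Q V = U P Q² V = U P (a(P) Q - b(P)) V = P' a(P') D - P' b(P') P'`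
  (use `U P = P' U`, `P V = V P'`, so `U f(P) = f(P') U`), i.e. `D² - (X a)(P') D + (X² b)(P') = 0`.
  `P' Fr' = U V Fr' = U Fr V = U (α(P) + P^m Q) V = P' α(P') + P'^m D`, so `Fr' = α(P') + P'^(m-1) D`.
  Let `r = α.coeff (m-1)`, `α' = α - r X^(m-1)` (degree `< m - 1`), `Q' = D + r`:
  `Fr' = α'(P') + P'^(m-1) Q'`, `Q'² - (X a + 2 r)(P') Q' + (X² b + r X a + r²)(P') = 0`. So the type is
  `t' = (α', m - 1, X a + 2 r, X² b + r X a + r²)`, not smooth: `X ∣ a' - 2 r`, and
  `r² - r a' + b' = r² - r X a - 2 r² + X² b + r X a + r² = X² b`.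
  Last clause of `IsWit`: if `Q' = r' + h P'` then `D = (r' - r) + h P'`, so on `ker P'` `D` is the scalar
  `r' - r`. But `D` kills `ker V ≠ 0`, so the scalar is `0` and `D = 0` on `ker P'`, i.e. `U Q V (ker P') = 0`;
  `V (ker P') = ker U = l` (`V` maps `ker P' = ker (U V)` into `ker U`, and its kernel `ker V` is one dimensional while
  `ker P'` has dimension two, so onto the line `ker U`), so `U Q l = 0`, `Q l ≤ ker U = l`: contradiction to badness.
  The dual edge `ker V` is good: `Q' = r` on `ker V`.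
* if `t` is not smooth then `rts t = 1`: `a(0) = 2 r`, `b(0) = r²`, `X² - 2 r X + r² = (X - r)²`.
-/

open Polynomial

noncomputable section

namespace Pool.Agent.H9.Ram

variable {F K : Type*} [Field F] [Fintype F] [Field K] [Algebra F K] [IsAlgClosed K]

theorem v7_intertwine {A : Type*} [Ring A] [Algebra F A] (U P P' : A) (h : U * P = P' * U)
    (f : F[X]) : U * Polynomial.aeval P f = Polynomial.aeval P' f * U := by
  induction f using Polynomial.induction_on' with
  | add p q hp hq => rw [map_add, map_add, mul_add, add_mul, hp, hq]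
  | monomial n a =>
    rw [Polynomial.aeval_monomial, Polynomial.aeval_monomial]
    have h1 : U * P ^ n = P' ^ n * U := (SemiconjBy.pow_right (show SemiconjBy U P P' from h) n)
    rw [← mul_assoc, ← Algebra.commutes, mul_assoc, h1, mul_assoc]

omit [IsAlgClosed K] in
theorem v7_ev_mul (f g : Tw F K) (y : K) : Tw.ev (f * g) y = Tw.ev f (Tw.ev g y) := by
  rw [map_mul]; rfl

omit [IsAlgClosed K] in
theorem v7_ev_alg (r : F) (y : K) : Tw.ev (algebraMap F (Tw F K) r) y = r • y := by
  rw [AlgHom.commutes]; rfl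

omit [IsAlgClosed K] in
/-- on the kernel of `P` the value of `f(P)` is the scalar `f(0)` -/
theorem v7_ev_aeval (P : Tw F K) (f : F[X]) {y : K} (hy : Tw.ev P y = 0) :
    Tw.ev (Polynomial.aeval P f) y = f.coeff 0 • y := by
  conv_lhs => rw [← Polynomial.divX_mul_X_add f]
  rw [map_add, map_mul, Polynomial.aeval_X, Polynomial.aeval_C, map_add, LinearMap.add_apply,
    v7_ev_mul, hy, map_zero, zero_add, v7_ev_alg]

omit [IsAlgClosed K] in
theorem v7_eig (Q : Tw F K) (l : Submodule F K) (h1 : Module.finrank F l = 1)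
    (h2 : l.map (Tw.ev Q) ≤ l) : ∃ r : F, ∀ y ∈ l, Tw.ev Q y = r • y := by
  obtain ⟨v, hv, hspan⟩ := finrank_eq_one_iff'.1 h1
  have hQv : Tw.ev Q v.1 ∈ l := h2 (Submodule.mem_map_of_mem v.2)
  obtain ⟨r, hr⟩ := hspan ⟨Tw.ev Q v.1, hQv⟩
  refine ⟨r, ?_⟩
  intro y hy
  obtain ⟨e, he⟩ := hspan ⟨y, hy⟩
  have he' : e • v.1 = y := congrArg Subtype.val he
  have hr' : r • v.1 = Tw.ev Q v.1 := congrArg Subtype.val hr
  rw [← he', map_smul, ← hr', smul_comm]

theorem ncard_good_le {c : F} (hc : c ≠ 0) {x : K} (hx : x ≠ 0) (Fr Q : Tw F K) (t : Typ F)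
    (h : IsWit (Pt c x) Fr Q t) (s : Set (Submodule F K))
    (hs : ∀ l ∈ s, Module.finrank F l = 1 ∧ l ≤ LinearMap.ker (Tw.ev (Pt c x)) ∧
      l.map (Tw.ev Q) ≤ l) : s.Finite ∧ s.ncard ≤ t.rts := by
  classical
  obtain ⟨_, hcomm, _, hquad, hns⟩ := h
  set P := Pt c x with hP
  have hP0 : P.coeff 0 ≠ 0 := by
    rw [hP, coeff_Pt_zero]
    exact (map_ne_zero (algebraMap F K)).2 hc
  have hfr : Module.finrank F (LinearMap.ker (Tw.ev P)) = 2 := by
    rw [Tw.finrank_ker hP0, hP, natDegree_Pt c hx]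
  have hex : ∀ l : Submodule F K, ∃ r : F, l ∈ s → ∀ y ∈ l, Tw.ev Q y = r • y := by
    intro l
    by_cases hl : l ∈ s
    · obtain ⟨r, hr⟩ := v7_eig Q l (hs l hl).1 (hs l hl).2.2
      exact ⟨r, fun _ => hr⟩
    · exact ⟨0, fun h => absurd h hl⟩
  choose φ hφ using hex
  have hmaps : ∀ l ∈ s, φ l ∈ {r : F | r ^ 2 - t.a.coeff 0 * r + t.b.coeff 0 = 0} := by
    intro l hl
    obtain ⟨v, hv, _⟩ := finrank_eq_one_iff'.1 (hs l hl).1
    have hv0 : v.1 ≠ 0 := fun h => hv (Subtype.ext h)
    have hPv : Tw.ev P v.1 = 0 := (hs l hl).2.1 v.2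
    have hQv := hφ l hl v.1 v.2
    have h1 : Tw.ev (Q ^ 2 - Polynomial.aeval P t.a * Q + Polynomial.aeval P t.b) v.1 = 0 := by
      rw [hquad, map_zero]; rfl
    rw [map_add, map_sub, LinearMap.add_apply, LinearMap.sub_apply, pow_two, v7_ev_mul, v7_ev_mul,
      hQv, map_smul, map_smul, hQv, v7_ev_aeval P t.a hPv, v7_ev_aeval P t.b hPv, smul_smul,
      smul_smul, ← sub_smul, ← add_smul, smul_eq_zero] at h1
    rcases h1 with h1 | h1
    · show φ l ^ 2 - t.a.coeff 0 * φ l + t.b.coeff 0 = 0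
      rw [← h1]; ring
    · exact absurd h1 hv0
  have hinj : Set.InjOn φ s := by
    intro l hl l' hl' heq
    by_contra hne
    -- the sum of the two lines is the kernel
    have hsup : l ⊔ l' = LinearMap.ker (Tw.ev P) := by
      haveI : FiniteDimensional F (LinearMap.ker (Tw.ev P)) :=
        FiniteDimensional.of_finrank_pos (by rw [hfr]; norm_num)
      have hle : l ⊔ l' ≤ LinearMap.ker (Tw.ev P) := sup_le (hs l hl).2.1 (hs l' hl').2.1
      haveI : FiniteDimensional F (l ⊔ l' : Submodule F K) :=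
        Submodule.finiteDimensional_of_le hle
      apply Submodule.eq_of_le_of_finrank_le hle
      rw [hfr]
      by_contra hlt
      push Not at hlt
      haveI : FiniteDimensional F l := FiniteDimensional.of_finrank_pos (by rw [(hs l hl).1]; norm_num)
      haveI : FiniteDimensional F l' := FiniteDimensional.of_finrank_pos (by rw [(hs l' hl').1]; norm_num)
      have e1 : l = l ⊔ l' := Submodule.eq_of_le_of_finrank_le le_sup_left
        (by rw [(hs l hl).1]; omega)
      have e2 : l' = l ⊔ l' := Submodule.eq_of_le_of_finrank_le le_sup_right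
        (by rw [(hs l' hl').1]; omega)
      exact hne (e1.trans e2.symm)
    have hker : LinearMap.ker (Tw.ev P) ≤
        LinearMap.ker (Tw.ev (Q - algebraMap F (Tw F K) (φ l))) := by
      rw [← hsup]
      refine sup_le ?_ ?_
      · intro y hy
        rw [LinearMap.mem_ker, map_sub, LinearMap.sub_apply, v7_ev_alg, hφ l hl y hy, sub_self]
      · intro y hy
        rw [LinearMap.mem_ker, map_sub, LinearMap.sub_apply, v7_ev_alg, hφ l' hl' y hy, heq,
          sub_self]
    obtain ⟨h', hh'⟩ := Tw.exists_right_factor hP0 hker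
    exact hns (φ l) h' (by rw [← hh']; abel)
  have hfin : {r : F | r ^ 2 - t.a.coeff 0 * r + t.b.coeff 0 = 0}.Finite := Set.toFinite _
  refine ⟨Set.Finite.of_injOn hmaps hinj hfin, ?_⟩
  exact Set.ncard_le_ncard_of_injOn φ hmaps hinj hfin

theorem rts_of_not_smooth (t : Typ F) (h : ¬ t.Smooth) : t.rts = 1 := by
  unfold Typ.Smooth at h
  push Not at h
  obtain ⟨r, h1, h2⟩ := h
  have ha : t.a.coeff 0 = 2 * r := by
    have := Polynomial.X_dvd_iff.1 h1
    rw [Polynomial.coeff_sub, Polynomial.coeff_C_zero] at this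
    exact sub_eq_zero.1 this
  have hb : t.b.coeff 0 = r ^ 2 := by
    have h3 : (X : F[X]) ∣ Polynomial.C (r ^ 2) - Polynomial.C r * t.a + t.b :=
      (dvd_pow_self X two_ne_zero).trans h2
    have h4 := Polynomial.X_dvd_iff.1 h3
    rw [Polynomial.coeff_add, Polynomial.coeff_sub, Polynomial.coeff_C_zero,
      Polynomial.coeff_C_mul, ha] at h4
    linear_combination h4
  unfold Typ.rts
  rw [ha, hb]
  have : {s : F | s ^ 2 - 2 * r * s + r ^ 2 = 0} = {r} := by
    ext s
    simp only [Set.mem_setOf_eq, Set.mem_singleton_iff]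
    constructor
    · intro hs
      have h5 : (s - r) ^ 2 = 0 := by linear_combination hs
      exact sub_eq_zero.1 (pow_eq_zero_iff two_ne_zero |>.1 h5)
    · rintro rfl; ring
  rw [this, Set.ncard_singleton]

theorem v7_quad {A : Type*} [Ring A] (D P A' B' ρ : A) (hD : D * D = P * A' * D - P ^ 2 * B')
    (h1 : D * ρ = ρ * D) (h2 : P * A' * ρ = ρ * (P * A')) :
    (D + ρ) ^ 2 - (P * A' + 2 * ρ) * (D + ρ) + (P ^ 2 * B' + ρ * (P * A') + ρ ^ 2) = 0 := by
  have : (D + ρ) ^ 2 - (P * A' + 2 * ρ) * (D + ρ) + (P ^ 2 * B' + ρ * (P * A') + ρ ^ 2) =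
      (D * D - (P * A' * D - P ^ 2 * B')) + (D * ρ - ρ * D) - (P * A' * ρ - ρ * (P * A')) := by
    noncomm_ring
  rw [this, hD, h1, h2]
  simp

theorem bad_edge {c d : F} (hc : c ≠ 0) (hd : d ≠ 0) {n k : ℕ} (hk : 0 < k)
    (z z' : (K × F × Submodule F K) × Submodule F K) (hz : z ∈ DrEdge K c d n k)
    (hz' : z' ∈ DrEdge K c d n k) (hd' : IsDualEdge c k z z') (Q : Tw F K) (t : Typ F)
    (hw : IsWit (Pt c z.1.1) (algebraMap F (Tw F K) z.1.2.1 * Tw.T ^ k) Q t)
    (hbad : ¬ z.2.map (Tw.ev Q) ≤ z.2) :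
    ∃ (Q' : Tw F K) (t' : Typ F),
      IsWit (Pt c z'.1.1) (algebraMap F (Tw F K) z'.1.2.1 * Tw.T ^ k) Q' t' ∧ ¬ t'.Smooth ∧
      z'.2.map (Tw.ev Q') ≤ z'.2 := by
  classical
  obtain ⟨U, V, v, hdual, hkU, hkV, hv, hUT, hVT, hzeta, _⟩ := hd'
  obtain ⟨hal, hcomm, hFr, hquad, hns⟩ := hw
  have hx' : z'.1.1 ≠ 0 := hz'.1.1
  have hkerU := hdual.ker hc
  have hkerV := hdual.symm.ker hc
  obtain ⟨hU1, hV1, hVU, hUV⟩ := hdual
  rw [hzeta]
  set ζ := z.1.2.1 with hζ
  set P := Pt c z.1.1 with hP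
  set P' := Pt c z'.1.1 with hP'
  have hUP : U * P = P' * U := by rw [← hVU, ← hUV, mul_assoc]
  have hPV : P * V = V * P' := by rw [← hVU, ← hUV, mul_assoc]
  -- `m` is positive
  have hm : t.m ≠ 0 := by
    intro hm0
    apply hbad
    have hal0 : t.al = 0 := by
      ext i
      rw [hal i (by omega), Polynomial.coeff_zero]
    rw [hal0, hm0, map_zero, zero_add, pow_zero, one_mul] at hFr
    rw [← hFr]
    rintro _ ⟨y, hy, rfl⟩
    rw [v7_ev_mul, v7_ev_alg]
    exact Submodule.smul_mem _ _ (hz.2.2.2 (Submodule.mem_map_of_mem hy))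
  obtain ⟨m, hm1⟩ := Nat.exists_eq_succ_of_ne_zero hm
  set D := U * Q * V with hD
  have hP'0 : P' ≠ 0 := by
    intro h0
    have := natDegree_Pt c hx'
    rw [← hP', h0] at this
    exact absurd this (by show (0 : K[X]).natDegree ≠ 2; simp)
  have hPD : P' * D = D * P' := by
    rw [hD]
    calc P' * (U * Q * V) = (P' * U) * Q * V := by noncomm_ring
      _ = U * (P * Q) * V := by rw [← hUP]; noncomm_ring
      _ = U * Q * (P * V) := by rw [hcomm]; noncomm_ring
      _ = U * Q * V * P' := by rw [hPV]; noncomm_ring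
  have hDD : D * D = P' * Polynomial.aeval P' t.a * D - P' ^ 2 * Polynomial.aeval P' t.b := by
    have hQ2 : Q * Q = Polynomial.aeval P t.a * Q - Polynomial.aeval P t.b := by
      have h0 : Q ^ 2 = Polynomial.aeval P t.a * Q - Polynomial.aeval P t.b := by
        rw [← sub_eq_zero, ← hquad]; abel
      rw [← h0, pow_two]
    have ha := v7_intertwine U P P' hUP t.a
    have hb := v7_intertwine U P P' hUP t.b
    have hbc : Polynomial.aeval P' t.b * P' = P' * Polynomial.aeval P' t.b :=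
      (v7_intertwine P' P' P' rfl t.b).symm
    calc D * D = U * Q * (V * U) * Q * V := by rw [hD]; noncomm_ring
      _ = U * (Q * P) * Q * V := by rw [hVU]; noncomm_ring
      _ = U * P * (Q * Q) * V := by rw [← hcomm]; noncomm_ring
      _ = U * P * (Polynomial.aeval P t.a * Q - Polynomial.aeval P t.b) * V := by rw [hQ2]
      _ = P' * (U * Polynomial.aeval P t.a) * Q * V -
          P' * (U * Polynomial.aeval P t.b) * V := by rw [hUP]; noncomm_ring
      _ = P' * Polynomial.aeval P' t.a * (U * Q * V) -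
          P' * (Polynomial.aeval P' t.b * (U * V)) := by rw [ha, hb]; noncomm_ring
      _ = P' * Polynomial.aeval P' t.a * D - P' ^ 2 * Polynomial.aeval P' t.b := by
        rw [hUV, hbc, ← hD]; noncomm_ring
  -- the formula for the Frobenius on the other side
  have hFr' : algebraMap F (Tw F K) (ζ * v) * Tw.T ^ k =
      Polynomial.aeval P' t.al + P' ^ m * D := by
    have h1 : P' * (algebraMap F (Tw F K) (ζ * v) * Tw.T ^ k) =
        U * (algebraMap F (Tw F K) ζ * Tw.T ^ k) * V := by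
      calc P' * (algebraMap F (Tw F K) (ζ * v) * Tw.T ^ k)
          = U * (V * (algebraMap F (Tw F K) (ζ * v) * Tw.T ^ k)) := by rw [← hUV, mul_assoc]
        _ = U * (algebraMap F (Tw F K) ζ * (algebraMap F (Tw F K) v * (V * Tw.T ^ k))) := by
          rw [← mul_assoc V, ← Algebra.commutes (ζ * v) V, map_mul]; noncomm_ring
        _ = U * (algebraMap F (Tw F K) ζ * (Tw.T ^ k * V)) := by rw [hVT]
        _ = U * (algebraMap F (Tw F K) ζ * Tw.T ^ k) * V := by noncomm_ring
    have h2 : U * (algebraMap F (Tw F K) ζ * Tw.T ^ k) * V =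
        P' * (Polynomial.aeval P' t.al + P' ^ m * D) := by
      rw [hFr, hm1]
      have hPm : U * P ^ (m + 1) = P' ^ (m + 1) * U :=
        (SemiconjBy.pow_right (show SemiconjBy U P P' from hUP) (m + 1))
      have hac : Polynomial.aeval P' t.al * P' = P' * Polynomial.aeval P' t.al :=
        (v7_intertwine P' P' P' rfl t.al).symm
      calc U * (Polynomial.aeval P t.al + P ^ (m + 1) * Q) * V
          = (U * Polynomial.aeval P t.al) * V + (U * P ^ (m + 1)) * Q * V := by noncomm_ring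
        _ = Polynomial.aeval P' t.al * (U * V) + P' ^ (m + 1) * (U * Q * V) := by
          rw [v7_intertwine U P P' hUP t.al, hPm]; noncomm_ring
        _ = P' * (Polynomial.aeval P' t.al + P' ^ m * D) := by
          rw [hUV, hac, ← hD, pow_succ', mul_add, mul_assoc]
    exact mul_left_cancel₀ hP'0 (h1.trans h2)
  set r := t.al.coeff m with hr
  set ρ := algebraMap F (Tw F K) r with hρ
  have hρc : ∀ y : Tw F K, y * ρ = ρ * y := fun y => (Algebra.commutes r y).symm
  refine ⟨D + ρ, ⟨t.al - Polynomial.C r * X ^ m, m, X * t.a + Polynomial.C (2 * r),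
    X ^ 2 * t.b + Polynomial.C r * (X * t.a) + Polynomial.C (r ^ 2)⟩, ⟨?_, ?_, ?_, ?_, ?_⟩, ?_, ?_⟩
  · intro i hi
    show (t.al - Polynomial.C r * X ^ m).coeff i = 0
    rw [Polynomial.coeff_sub, Polynomial.coeff_C_mul, Polynomial.coeff_X_pow]
    rcases Nat.lt_or_ge m i with hlt | hge
    · rw [hal i (by omega), if_neg (by omega)]; simp
    · have him : i = m := le_antisymm hge hi
      subst him
      rw [if_pos rfl, hr]; ring
  · show P' * (D + ρ) = (D + ρ) * P'
    rw [mul_add, add_mul, hPD, hρc]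
  · show algebraMap F (Tw F K) (ζ * v) * Tw.T ^ k =
      Polynomial.aeval P' (t.al - Polynomial.C r * X ^ m) + P' ^ m * (D + ρ)
    rw [hFr', map_sub, map_mul, Polynomial.aeval_C, map_pow, Polynomial.aeval_X, ← hρ, mul_add,
      hρc]
    abel
  · show (D + ρ) ^ 2 - Polynomial.aeval P' (X * t.a + Polynomial.C (2 * r)) * (D + ρ) +
      Polynomial.aeval P' (X ^ 2 * t.b + Polynomial.C r * (X * t.a) + Polynomial.C (r ^ 2)) = 0
    have e1 : Polynomial.aeval P' (X * t.a + Polynomial.C (2 * r)) =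
        P' * Polynomial.aeval P' t.a + 2 * ρ := by
      rw [map_add, map_mul, Polynomial.aeval_X, Polynomial.aeval_C, map_mul, map_ofNat]
    have e2 : Polynomial.aeval P' (X ^ 2 * t.b + Polynomial.C r * (X * t.a) +
        Polynomial.C (r ^ 2)) = P' ^ 2 * Polynomial.aeval P' t.b +
        ρ * (P' * Polynomial.aeval P' t.a) + ρ ^ 2 := by
      simp only [map_add, map_mul, map_pow, Polynomial.aeval_X, Polynomial.aeval_C, hρ]
    rw [e1, e2]
    exact v7_quad D P' _ _ ρ hDD (hρc D) (hρc _)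
  · intro r' h' heq
    apply hbad
    have hDeq : D = algebraMap F (Tw F K) (r' - r) + h' * P' := by
      rw [map_sub, ← hρ]
      have : D = (D + ρ) - ρ := by abel
      rw [this, heq]; abel
    -- evaluate at a nonzero vector of `ker V`
    have hDker : ∀ y, Tw.ev V y = 0 → Tw.ev D y = 0 := by
      intro y hy
      rw [hD, v7_ev_mul, hy, map_zero]
    have hP'V : ∀ y, Tw.ev V y = 0 → Tw.ev P' y = 0 := by
      intro y hy
      rw [← hUV, v7_ev_mul, hy, map_zero]
    have hval : ∀ y, Tw.ev P' y = 0 → Tw.ev D y = (r' - r) • y := by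
      intro y hy
      rw [hDeq, map_add, LinearMap.add_apply, v7_ev_alg, v7_ev_mul, hy, map_zero, add_zero]
    obtain ⟨w, hw0, _⟩ := finrank_eq_one_iff'.1 hkerV.1
    have hrr : r' - r = 0 := by
      have hw1 : Tw.ev V w.1 = 0 := w.2
      have h3 := hval w.1 (hP'V w.1 hw1)
      rw [hDker w.1 hw1] at h3
      rcases smul_eq_zero.1 h3.symm with h4 | h4
      · exact h4
      · exact absurd (Subtype.ext h4) hw0
    rintro _ ⟨y, hy, rfl⟩
    have hy' : Tw.ev U y = 0 := by
      have : y ∈ LinearMap.ker (Tw.ev U) := by rw [hkU]; exact hy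
      exact this
    have hV0 : V ≠ 0 := by
      intro h0
      rw [h0] at hV1
      exact absurd hV1 (by show (0 : K[X]).natDegree ≠ 1; simp)
    obtain ⟨u, hu⟩ := Tw.ev_surjective hV0 y
    have hu' : Tw.ev P' u = 0 := by rw [← hUV, v7_ev_mul, hu, hy']
    have h5 := hval u hu'
    rw [hrr, zero_smul, hD, v7_ev_mul, v7_ev_mul, hu] at h5
    rw [← hkU]
    exact h5
  · unfold Typ.Smooth
    push Not
    refine ⟨r, ?_, ?_⟩
    · show (X : F[X]) ∣ X * t.a + Polynomial.C (2 * r) - Polynomial.C (2 * r)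
      rw [add_sub_cancel_right]
      exact dvd_mul_right X t.a
    · show (X : F[X]) ^ 2 ∣ Polynomial.C (r ^ 2) - Polynomial.C r * (X * t.a + Polynomial.C (2 * r)) +
        (X ^ 2 * t.b + Polynomial.C r * (X * t.a) + Polynomial.C (r ^ 2))
      refine ⟨t.b, ?_⟩
      simp only [map_pow, map_mul]
      have : (Polynomial.C (2 : F) : F[X]) = 2 := map_ofNat Polynomial.C 2
      rw [this]
      ring
  · rw [← hkV]
    rintro _ ⟨y, hy, rfl⟩
    have hy' : Tw.ev V y = 0 := hy
    rw [map_add, LinearMap.add_apply, hD, v7_ev_mul, hy', map_zero, zero_add, hρ, v7_ev_alg]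
    exact Submodule.smul_mem _ _ hy

end Pool.Agent.H9.Ram
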