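import Pool.Agent.H9.Ram.A2
import Pool.Agent.H9.Ram.S0

/-!
# Module X1: the action on level `n`

`inv_inv` is in A1, `act_inv_act`, `length_act` in A2. `lev_nk`: the map `(v, x) ↦ (v, x.1)` is a bijection of the two sets.
-/

noncomputable section

namespace Pool.Agent.H9.Ram

variable {F K : Type*} [Field F] [Fintype F] [Field K] [Algebra F K] [IsAlgClosed K]

/-- The action of the states on the words of length `n`. -/
def Par.lev (p : Par F K) (n : ℕ) : GAct p.St {x : List p.Lt // x.length = n} where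
  inv := p.inv
  act u x := ⟨p.act u x.1, by rw [p.length_act]; exact x.2⟩
  inv_inv := p.inv_inv
  act_inv u x := Subtype.ext (p.act_inv_act u x.1)

theorem x1_actW (p : Par F K) (n : ℕ) (v : List p.St) (x : {x : List p.Lt // x.length = n}) :
    ((p.lev n).actW v x).1 = p.actW v x.1 := by
  induction v with
  | nil => rfl
  | cons u v ih =>
    have h : ((p.lev n).actW (u :: v) x).1 = p.act u ((p.lev n).actW v x).1 := rfl
    rw [h, ih]
    rfl

theorem Par.lev_nk (p : Par F K) (n k : ℕ) : (p.lev n).nk k = p.Nk n k := by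
  unfold GAct.nk Par.Nk
  have hinj : Function.Injective
      (fun z : List p.St × {x : List p.Lt // x.length = n} => (z.1, z.2.1)) := by
    rintro ⟨v, x⟩ ⟨v', x'⟩ h
    simp only [Prod.mk.injEq] at h
    exact Prod.ext h.1 (Subtype.ext h.2)
  rw [← Set.ncard_image_of_injective _ hinj]
  congr 1
  ext ⟨v, y⟩
  simp only [Set.mem_image, Set.mem_ofPred_eq, Prod.mk.injEq]
  constructor
  · rintro ⟨⟨v', x⟩, ⟨h1, h2, h3⟩, rfl, rfl⟩
    refine ⟨h1, x.2, h2, ?_⟩
    have h4 := congrArg Subtype.val h3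
    rw [x1_actW] at h4
    exact h4
  · rintro ⟨h1, h2, h3, h4⟩
    refine ⟨⟨v, ⟨y, h2⟩⟩, ⟨h1, h3, ?_⟩, rfl, rfl⟩
    refine Subtype.ext ?_
    rw [x1_actW]
    exact h4

end Pool.Agent.H9.Ram
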