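import Pool.Agent.H9.Ram.A1

/-!
# Module X2: numbers of states and letters

For `r ∈ F^*` the polynomial `X^(q+1) - r` is separable over `K` (`q + 1 = 1` in `K`, derivative `X^q`), so it has `q + 1` roots in
the algebraically closed field `K`. `- a^q` is a root for `r = d`: `(-a^q)^(q+1) = (a^(q+1))^q = d^q = d`. So there are `q + 1`
states and `q` letters.
Different states have different outputs for `q ≥ 3`: if `out u = out v` then for the `q` letters `b`, by `Par.out_eq` with
`w = w(u)`, `w' = w(v)`: `(b u^q + w d)(v w' + b) = (b v^q + w' d)(u w + b)`, a polynomial identity of degree `≤ 2` in `b` with at least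
three solutions, so the coefficients of `b²` agree: `u^q = v^q`, `u = v` (Frobenius is injective).
`out u` is injective on letters: apply `act (inv u)` to one letter words (A2), or directly.
Existence of parameters: for `q ≥ 3` there are `c ≠ d` in `F^*`, and `a` exists as `K` is algebraically closed.
-/

noncomputable section

namespace Pool.Agent.H9.Ram

variable {F K : Type*} [Field F] [Fintype F] [Field K] [Algebra F K] [IsAlgClosed K]

theorem x2_cast (F K : Type*) [Field F] [Fintype F] [Field K] [Algebra F K] :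
    ((Fintype.card F : ℕ) : K) = 0 := by
  have h : ((Fintype.card F : ℕ) : F) = 0 := FiniteField.cast_card_eq_zero F
  have h2 := congrArg (algebraMap F K) h
  rw [map_natCast, map_zero] at h2
  exact h2

theorem x2_roots {n : ℕ} (hn : (n : K) ≠ 0) {r : K} (hr : r ≠ 0) :
    {u : K | u ^ n = r}.Finite ∧ {u : K | u ^ n = r}.ncard = n := by
  classical
  have hn0 : 0 < n := by
    rcases Nat.eq_zero_or_pos n with h | h
    · subst h
      simp at hn
    · exact h
  have hsep : (Polynomial.X ^ n - Polynomial.C r : Polynomial K).Separable :=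
    Polynomial.separable_X_pow_sub_C r hn hr
  have hne : (Polynomial.X ^ n - Polynomial.C r : Polynomial K) ≠ 0 := hsep.ne_zero
  have hset : {u : K | u ^ n = r} =
      ((Polynomial.X ^ n - Polynomial.C r : Polynomial K).roots.toFinset : Set K) := by
    ext u
    rw [Finset.mem_coe, Multiset.mem_toFinset, Polynomial.mem_roots hne, Polynomial.IsRoot.def]
    simp [sub_eq_zero]
  rw [hset]
  refine ⟨Finset.finite_toSet _, ?_⟩
  rw [Set.ncard_coe_finset, Multiset.toFinset_card_of_nodup (Polynomial.nodup_roots hsep),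
    ← (IsAlgClosed.splits _).natDegree_eq_card_roots, Polynomial.natDegree_X_pow_sub_C]

theorem x2_q1 : ((Fintype.card F + 1 : ℕ) : K) ≠ 0 := by
  rw [Nat.cast_add, x2_cast, zero_add, Nat.cast_one]
  exact one_ne_zero

theorem x2_alg {c : F} (hc : c ≠ 0) : algebraMap F K c ≠ 0 := (map_ne_zero (algebraMap F K)).2 hc

theorem Par.finite_St (p : Par F K) : Finite p.St :=
  (x2_roots (K := K) (x2_q1 (F := F)) (x2_alg p.hc)).1.to_subtype

theorem Par.finite_Lt (p : Par F K) : Finite p.Lt :=
  ((x2_roots (K := K) (x2_q1 (F := F)) (x2_alg p.hd)).1.subset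
    (fun _ hb => hb.1 : {b : K | b ^ (Fintype.card F + 1) = algebraMap F K p.d ∧
      b ≠ -(p.a ^ Fintype.card F)} ⊆ _)).to_subtype

theorem Par.card_St (p : Par F K) : Nat.card p.St = Fintype.card F + 1 :=
  (x2_roots (K := K) (x2_q1 (F := F)) (x2_alg p.hc)).2

theorem Par.card_Lt (p : Par F K) : Nat.card p.Lt = Fintype.card F := by
  obtain ⟨h1, h2⟩ := x2_roots (K := K) (x2_q1 (F := F)) (x2_alg p.hd)
  have hmem : -(p.a ^ Fintype.card F) ∈
      {u : K | u ^ (Fintype.card F + 1) = algebraMap F K p.d} := by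
    show (-(p.a ^ Fintype.card F)) ^ (Fintype.card F + 1) = algebraMap F K p.d
    rw [neg_pow, Par.neg_one_pow (F := F), one_mul, ← pow_mul, mul_comm, pow_mul, p.ha,
      ← map_pow, FiniteField.pow_card]
  have h3 : {b : K | b ^ (Fintype.card F + 1) = algebraMap F K p.d ∧
      b ≠ -(p.a ^ Fintype.card F)} =
      {u : K | u ^ (Fintype.card F + 1) = algebraMap F K p.d} \ {-(p.a ^ Fintype.card F)} := by
    ext b
    simp
  have h4 : Nat.card p.Lt = {b : K | b ^ (Fintype.card F + 1) = algebraMap F K p.d ∧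
      b ≠ -(p.a ^ Fintype.card F)}.ncard := rfl
  rw [h4, h3, Set.ncard_sdiff_singleton_of_mem hmem, h2]
  omega

omit [IsAlgClosed K] in
theorem x2_two_lt (p : Par F K) : 2 < Fintype.card F := by
  rw [Fintype.two_lt_card_iff]
  exact ⟨0, p.c, p.d, p.hc.symm, p.hd.symm, p.hcd⟩

theorem Par.two_lt_card (p : Par F K) : 2 < Fintype.card F := x2_two_lt p

theorem Par.out_injective_state (p : Par F K) (u v : p.St) (h : ∀ b, p.out u b = p.out v b) :
    u = v := by
  have hfin := p.finite_Lt
  have hcard : 2 < Nat.card p.Lt := by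
    rw [p.card_Lt]
    exact p.two_lt_card
  have : Fintype p.Lt := Fintype.ofFinite _
  rw [Nat.card_eq_fintype_card, Fintype.two_lt_card_iff] at hcard
  obtain ⟨b1, b2, b3, h12, h13, h23⟩ := hcard
  have key : ∀ b : p.Lt,
      (b.1 * u.1 ^ Fintype.card F + p.w u.1 * algebraMap F K p.d) * (v.1 * p.w v.1 + b.1) =
      (b.1 * v.1 ^ Fintype.card F + p.w v.1 * algebraMap F K p.d) *
        (u.1 * p.w u.1 + b.1) := by
    intro b
    have e1 := p.out_eq u b
    have e2 := p.out_eq v b
    have e3 : b.1 * p.w u.1 * (u.1 * p.w u.1 + b.1) ^ (Fintype.card F - 1) =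
        b.1 * p.w v.1 * (v.1 * p.w v.1 + b.1) ^ (Fintype.card F - 1) :=
      congrArg Subtype.val (h b)
    rw [← e1, ← e2, e3]
    ring
  have k1 := key b1
  have k2 := key b2
  have k3 := key b3
  have n12 : b1.1 - b2.1 ≠ 0 := fun h => h12 (Subtype.ext (sub_eq_zero.1 h))
  have n13 : b1.1 - b3.1 ≠ 0 := fun h => h13 (Subtype.ext (sub_eq_zero.1 h))
  have n23 : b2.1 - b3.1 ≠ 0 := fun h => h23 (Subtype.ext (sub_eq_zero.1 h))
  obtain ⟨α, hα⟩ : ∃ α, α = u.1 ^ Fintype.card F - v.1 ^ Fintype.card F := ⟨_, rfl⟩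
  obtain ⟨β, hβ⟩ : ∃ β, β = u.1 ^ Fintype.card F * (v.1 * p.w v.1) +
      p.w u.1 * algebraMap F K p.d - v.1 ^ Fintype.card F * (u.1 * p.w u.1) -
      p.w v.1 * algebraMap F K p.d := ⟨_, rfl⟩
  have e12 : (b1.1 - b2.1) * (α * (b1.1 + b2.1) + β) = 0 := by
    rw [hα, hβ]
    linear_combination k1 - k2
  have e13 : (b1.1 - b3.1) * (α * (b1.1 + b3.1) + β) = 0 := by
    rw [hα, hβ]
    linear_combination k1 - k3
  have f12 := (mul_eq_zero.1 e12).resolve_left n12
  have f13 := (mul_eq_zero.1 e13).resolve_left n13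
  have f : α * (b2.1 - b3.1) = 0 := by linear_combination f12 - f13
  have hα0 : α = 0 := (mul_eq_zero.1 f).resolve_right n23
  rw [hα] at hα0
  have g1 := Par.add_pow_card (F := F) (u.1 - v.1) v.1
  rw [sub_add_cancel] at g1
  have g2 : (u.1 - v.1) ^ Fintype.card F = 0 := by linear_combination hα0 - g1
  have g3 : u.1 - v.1 = 0 := by
    by_contra hne
    exact pow_ne_zero _ hne g2
  exact Subtype.ext (sub_eq_zero.1 g3)

theorem Par.exists_of_two_lt (h : 2 < Fintype.card F) : Nonempty (Par F K) := by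
  classical
  have hu : 1 < Fintype.card Fˣ := by
    rw [Fintype.card_units]
    omega
  obtain ⟨c, d, hcd⟩ := Fintype.one_lt_card_iff.1 hu
  obtain ⟨a, ha⟩ := IsAlgClosed.exists_pow_nat_eq (algebraMap F K (d : F))
    (show 0 < Fintype.card F + 1 by omega)
  exact ⟨⟨c, d, a, c.ne_zero, d.ne_zero, fun h => hcd (Units.ext h), ha⟩⟩

end Pool.Agent.H9.Ram
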