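import Pool.Agent.H9.Ram.X1
import Pool.Agent.H9.Ram.X2
import Pool.Agent.H9.Ram.R5
import Pool.Agent.H9.Ram.M8
import Pool.Agent.H9.Ram.S5

/-!
# Module X3: the spectral bound and transitivity on every level

* `Nk_bound`: `Nk_le` (R5) and `final_bound` (M8).
* `level_bound`: `GAct.spectral_bound` (S5) for `p.lev n`, `lev_nk`, `card_St`.
* `exists_word`: the graph on the words of length `n` is connected. Let `O` be the set of the words `actW v x`, `v` a word in the
  states; it is stable under the states and (finite order, or `inv`) its complement too. If `O` is not everything, the function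
  `f = |Oᶜ| 1_O - |O| 1_{Oᶜ}` is nonzero, has sum zero and `∑_u f (act u x) = (q + 1) f x`, so `q + 1 ≤ 2 √q` by `level_bound`:
  `(√q - 1)² ≤ 0`, `q = 1`, contradiction.
-/

noncomputable section

namespace Pool.Agent.H9.Ram

variable {F K : Type*} [Field F] [Fintype F] [Field K] [Algebra F K] [IsAlgClosed K]
  [Algebra.IsAlgebraic F K]

theorem Nk_bound (p : Par F K) (n : ℕ) :
    ∃ (C : ℝ) (e : ℕ), 0 < e ∧ ∀ j : ℕ, 0 < j → e ∣ j →
      (p.Nk n (2 * j) : ℝ) ≤ (Fintype.card F : ℝ) ^ (2 * j) + C * (Fintype.card F : ℝ) ^ j := by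
  obtain ⟨C, e, he, h⟩ := final_bound K p.c p.d p.hc p.hcd n
  refine ⟨C, e, he, fun j hj hej => ?_⟩
  have h1 := Nk_le p n (2 * j) (by omega)
  have h2 : ((p.Nk n (2 * j) : ℤ) : ℝ) ≤
      ((2 * ((OO K p.c p.d n (2 * j)).ncard : ℤ) - ((TT K p.c p.d n (2 * j)).ncard : ℤ) : ℤ) : ℝ) :=
    Int.cast_le.mpr h1
  push_cast at h2
  exact h2.trans (h j hj hej)

theorem level_bound (p : Par F K) [Fintype p.St] (n : ℕ)
    [Fintype {x : List p.Lt // x.length = n}] (f : {x : List p.Lt // x.length = n} → ℝ)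
    (lam : ℝ) (hf : f ≠ 0) (hsum : ∑ x, f x = 0)
    (hlam : ∀ x, ∑ u : p.St, f ((p.lev n).act u x) = lam * f x) :
    |lam| ≤ 2 * √(Fintype.card F : ℝ) := by
  obtain ⟨C, e, he, h⟩ := Nk_bound p n
  have hS : Fintype.card p.St = Fintype.card F + 1 := by
    rw [← Nat.card_eq_fintype_card]
    exact p.card_St
  refine GAct.spectral_bound (p.lev n) (Fintype.card F) e Fintype.card_pos he hS C ?_ f lam hf
    hsum hlam
  intro j hj hej
  rw [p.lev_nk]
  exact h j hj hej

theorem exists_word (p : Par F K) (n : ℕ) (x y : List p.Lt) (hx : x.length = n)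
    (hy : y.length = n) : ∃ v : List p.St, p.actW v x = y := by
  classical
  by_contra hno
  have : Finite p.St := p.finite_St
  have : Finite p.Lt := p.finite_Lt
  letI : Fintype p.St := Fintype.ofFinite _
  have hVfin : Finite {z : List p.Lt // z.length = n} :=
    (List.finite_length_eq p.Lt n).to_subtype
  letI : Fintype {z : List p.Lt // z.length = n} := Fintype.ofFinite _
  set O : Finset {z : List p.Lt // z.length = n} :=
    Finset.univ.filter fun z => ∃ v : List p.St, p.actW v x = z.1 with hO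
  have hmem : ∀ z, z ∈ O ↔ ∃ v : List p.St, p.actW v x = z.1 := by
    intro z
    rw [hO, Finset.mem_filter]
    exact ⟨fun h => h.2, fun h => ⟨Finset.mem_univ _, h⟩⟩
  have hxO : (⟨x, hx⟩ : {z : List p.Lt // z.length = n}) ∈ O := (hmem _).2 ⟨[], rfl⟩
  have hyO : (⟨y, hy⟩ : {z : List p.Lt // z.length = n}) ∉ O := fun h => hno ((hmem _).1 h)
  have hstab : ∀ (u : p.St) z, ((p.lev n).act u z ∈ O ↔ z ∈ O) := by
    intro u z
    constructor
    · intro h
      obtain ⟨v, hv⟩ := (hmem _).1 h
      refine (hmem _).2 ⟨p.inv u :: v, ?_⟩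
      show p.act (p.inv u) (p.actW v x) = z.1
      rw [hv]
      exact p.act_inv_act u z.1
    · intro h
      obtain ⟨v, hv⟩ := (hmem _).1 h
      refine (hmem _).2 ⟨u :: v, ?_⟩
      show p.act u (p.actW v x) = p.act u z.1
      rw [hv]
  set a : ℝ := (O.card : ℝ) with ha
  set b : ℝ := (Oᶜ.card : ℝ) with hb
  set f : {z : List p.Lt // z.length = n} → ℝ := fun z => if z ∈ O then b else -a with hf
  have hbpos : 0 < b := by
    rw [hb]
    exact_mod_cast Finset.card_pos.mpr ⟨_, Finset.mem_compl.mpr hyO⟩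
  have hf0 : f ≠ 0 := by
    intro h
    have h1 := congrFun h ⟨x, hx⟩
    simp only [hf, if_pos hxO, Pi.zero_apply] at h1
    exact hbpos.ne' h1
  have hsum : ∑ z, f z = 0 := by
    rw [← Finset.sum_add_sum_compl O]
    have h1 : ∑ z ∈ O, f z = a * b := by
      rw [Finset.sum_congr rfl fun z hz => (if_pos hz : f z = b), Finset.sum_const, nsmul_eq_mul]
    have h2 : ∑ z ∈ Oᶜ, f z = b * (-a) := by
      rw [Finset.sum_congr rfl fun z hz => (if_neg (Finset.mem_compl.mp hz) : f z = -a),
        Finset.sum_const, nsmul_eq_mul]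
    rw [h1, h2]
    ring
  have hlam : ∀ z, ∑ u : p.St, f ((p.lev n).act u z) = ((Fintype.card F : ℝ) + 1) * f z := by
    intro z
    have h1 : ∀ u : p.St, f ((p.lev n).act u z) = f z := by
      intro u
      simp only [hf]
      by_cases hz : z ∈ O
      · rw [if_pos hz, if_pos ((hstab u z).2 hz)]
      · rw [if_neg hz, if_neg (fun h => hz ((hstab u z).1 h))]
    have hS : Fintype.card p.St = Fintype.card F + 1 := by
      rw [← Nat.card_eq_fintype_card]
      exact p.card_St
    rw [Finset.sum_congr rfl fun u _ => h1 u, Finset.sum_const, Finset.card_univ, hS, nsmul_eq_mul]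
    push_cast
    ring
  have hbd := level_bound p n f _ hf0 hsum hlam
  have hq : (2 : ℝ) < Fintype.card F := by exact_mod_cast p.two_lt_card
  have hs : √(Fintype.card F : ℝ) * √(Fintype.card F : ℝ) = Fintype.card F :=
    Real.mul_self_sqrt (by positivity)
  have h3 : (Fintype.card F : ℝ) + 1 ≤ 2 * √(Fintype.card F : ℝ) := (le_abs_self _).trans hbd
  have h4 : (√(Fintype.card F : ℝ) - 1) ^ 2 ≤ 0 := by nlinarith
  have h5 : √(Fintype.card F : ℝ) - 1 = 0 := by
    have := le_antisymm h4 (sq_nonneg _)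
    exact pow_eq_zero_iff (two_ne_zero) |>.1 this
  have h6 : √(Fintype.card F : ℝ) = 1 := by linarith
  rw [h6] at hs
  linarith

end Pool.Agent.H9.Ram
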